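import Pool.Agent.Lib.MP_c35b50_lc.Cm.SRing

/-! # Row A1: powers of the ideal of series without constant term, completeness -/

namespace Cm

variable {P : Type} [CommRing P] {t : Type}

/-- the ideal of the series without constant term -/
noncomputable def kk (P : Type) [CommRing P] (t : Type) : Ideal (MvPowerSeries t P) :=
  RingHom.ker (MvPowerSeries.constantCoeff (σ := t) (R := P))

theorem adica_mem_kk (F : MvPowerSeries t P) : F ∈ kk P t ↔ MvPowerSeries.coeff 0 F = 0 := by
  rw [kk, RingHom.mem_ker, MvPowerSeries.coeff_zero_eq_constantCoeff_apply]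

theorem adica_coeff_X_mul [DecidableEq t] (j : t) (G : MvPowerSeries t P) (μ : t →₀ ℕ) :
    MvPowerSeries.coeff μ (MvPowerSeries.X j * G) =
      if 1 ≤ μ j then MvPowerSeries.coeff (μ - Finsupp.single j 1) G else 0 := by
  classical
  rw [MvPowerSeries.X, MvPowerSeries.coeff_monomial_mul]
  simp only [one_mul, Finsupp.single_le_iff]

theorem adica_deg_sub {μ : t →₀ ℕ} {j : t} (h : 1 ≤ μ j) :
    (μ - Finsupp.single j 1).degree + 1 = μ.degree := by
  have h1 : μ - Finsupp.single j 1 + Finsupp.single j 1 = μ :=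
    tsub_add_cancel_of_le (Finsupp.single_le_iff.2 h)
  conv_rhs => rw [← h1]
  rw [map_add, Finsupp.degree_single]

/-- a series of order at least `n + 1` is a combination of the variables with coefficients of order
at least `n` -/
theorem adica_dec [Fintype t] (n : ℕ) (F : MvPowerSeries t P)
    (hF : ∀ μ : t →₀ ℕ, μ.degree < n + 1 → MvPowerSeries.coeff μ F = 0) :
    ∃ G : t → MvPowerSeries t P, F = ∑ j, MvPowerSeries.X j * G j ∧
      ∀ j, ∀ μ : t →₀ ℕ, μ.degree < n → MvPowerSeries.coeff μ (G j) = 0 := by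
  classical
  rcases isEmpty_or_nonempty t with he | hne
  · refine ⟨fun _ => 0, ?_, fun j => he.elim j⟩
    ext μ
    have hμ : μ = 0 := Subsingleton.elim _ _
    rw [hμ, hF 0 (by simp)]
    simp
  have hex : ∀ μ : t →₀ ℕ, μ ≠ 0 → ∃ j, 1 ≤ μ j := by
    intro μ hμ
    obtain ⟨j, hj⟩ := Finsupp.ne_iff.1 hμ
    exact ⟨j, Nat.one_le_iff_ne_zero.2 hj⟩
  choose! c hc using hex
  refine ⟨fun j ν => if c (ν + Finsupp.single j 1) = j then
    MvPowerSeries.coeff (ν + Finsupp.single j 1) F else 0, ?_, ?_⟩
  · ext μ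
    rw [map_sum]
    by_cases hμ : μ = 0
    · subst hμ
      rw [hF 0 (by simp)]
      symm
      refine Finset.sum_eq_zero fun j _ => ?_
      rw [adica_coeff_X_mul, if_neg (by simp)]
    · rw [Finset.sum_eq_single (c μ)]
      · rw [adica_coeff_X_mul, if_pos (hc μ hμ)]
        have h1 : μ - Finsupp.single (c μ) 1 + Finsupp.single (c μ) 1 = μ :=
          tsub_add_cancel_of_le (Finsupp.single_le_iff.2 (hc μ hμ))
        change _ = if c (μ - Finsupp.single (c μ) 1 + Finsupp.single (c μ) 1) = c μ then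
          MvPowerSeries.coeff (μ - Finsupp.single (c μ) 1 + Finsupp.single (c μ) 1) F else 0
        rw [h1, if_pos rfl]
      · intro j _ hj
        rw [adica_coeff_X_mul]
        split_ifs with h
        · have h1 : μ - Finsupp.single j 1 + Finsupp.single j 1 = μ :=
            tsub_add_cancel_of_le (Finsupp.single_le_iff.2 h)
          change (if c (μ - Finsupp.single j 1 + Finsupp.single j 1) = j then
            MvPowerSeries.coeff (μ - Finsupp.single j 1 + Finsupp.single j 1) F else 0) = 0
          rw [h1, if_neg (Ne.symm hj)]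
        · rfl
      · intro h
        exact absurd (Finset.mem_univ _) h
  · intro j μ hμ
    rw [MvPowerSeries.coeff_apply]
    simp only
    split_ifs with h
    · refine hF _ ?_
      rw [map_add, Finsupp.degree_single]
      omega
    · rfl

theorem mem_kk_iff_sum [Fintype t] (F : MvPowerSeries t P) :
    F ∈ kk P t ↔ ∃ G : t → MvPowerSeries t P, F = ∑ j, MvPowerSeries.X j * G j := by
  classical
  constructor
  · intro h
    rw [adica_mem_kk] at h
    obtain ⟨G, hG, -⟩ := adica_dec 0 F (fun μ hμ => by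
      have : μ = 0 := (Finsupp.degree_eq_zero_iff μ).1 (by omega)
      rw [this, h])
    exact ⟨G, hG⟩
  · rintro ⟨G, rfl⟩
    refine Ideal.sum_mem _ fun j _ => Ideal.mul_mem_right _ _ ?_
    rw [adica_mem_kk]
    simp

theorem adica_mul [Finite t] (n : ℕ) {F G : MvPowerSeries t P}
    (hF : ∀ μ : t →₀ ℕ, μ.degree < n → MvPowerSeries.coeff μ F = 0) (hG : G ∈ kk P t) :
    ∀ μ : t →₀ ℕ, μ.degree < n + 1 → MvPowerSeries.coeff μ (F * G) = 0 := by
  classical
  intro μ hμ
  rw [MvPowerSeries.coeff_mul]
  refine Finset.sum_eq_zero fun p hp => ?_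
  rw [Finset.HasAntidiagonal.mem_antidiagonal] at hp
  by_cases h : p.1.degree < n
  · rw [hF _ h, zero_mul]
  · have h1 : p.1.degree + p.2.degree = μ.degree := by rw [← map_add, hp]
    have h2 : p.2 = 0 := (Finsupp.degree_eq_zero_iff p.2).1 (by omega)
    rw [h2, (adica_mem_kk G).1 hG, mul_zero]

theorem mem_kk_pow_iff [Finite t] (n : ℕ) (F : MvPowerSeries t P) :
    F ∈ kk P t ^ n ↔ ∀ μ : t →₀ ℕ, μ.degree < n → MvPowerSeries.coeff μ F = 0 := by
  classical
  have := Fintype.ofFinite t
  induction n generalizing F with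
  | zero => simp
  | succ n ih =>
    constructor
    · intro h
      rw [pow_succ] at h
      refine Submodule.mul_induction_on h (fun x hx y hy => adica_mul n ((ih x).1 hx) hy)
        (fun x y hx hy μ hμ => ?_)
      rw [map_add, hx μ hμ, hy μ hμ, add_zero]
    · intro h
      obtain ⟨G, hG, hG2⟩ := adica_dec n F h
      rw [hG]
      refine Ideal.sum_mem _ fun j _ => ?_
      rw [pow_succ']
      refine Ideal.mul_mem_mul ?_ ((ih _).2 (hG2 j))
      rw [adica_mem_kk]
      simp

theorem adica_smod [Finite t] (n : ℕ) (F G : MvPowerSeries t P) :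
    F ≡ G [SMOD (kk P t ^ n • ⊤ : Submodule (MvPowerSeries t P) (MvPowerSeries t P))] ↔
      ∀ μ : t →₀ ℕ, μ.degree < n → MvPowerSeries.coeff μ F = MvPowerSeries.coeff μ G := by
  rw [SModEq.sub_mem, smul_eq_mul, Ideal.mul_top, mem_kk_pow_iff]
  simp only [map_sub, sub_eq_zero]

instance isAdicComplete_kk [Finite t] : IsAdicComplete (kk P t) (MvPowerSeries t P) where
  haus' := by
    intro x hx
    ext μ
    have := (adica_smod (μ.degree + 1) x 0).1 (hx _) μ (Nat.lt_succ_self _)
    rw [this]
  prec' := by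
    intro f hf
    refine ⟨fun μ => MvPowerSeries.coeff μ (f (μ.degree + 1)), fun n => ?_⟩
    rw [adica_smod]
    intro μ hμ
    rw [MvPowerSeries.coeff_apply (f := fun μ => MvPowerSeries.coeff μ (f (μ.degree + 1)))]
    exact ((adica_smod (μ.degree + 1) _ _).1 (hf (show μ.degree + 1 ≤ n from hμ)) μ
      (Nat.lt_succ_self _)).symm

end Cm
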