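import Pool.Agent.Lib.MP_c35b50_lc.Cm.AdicA

/-! # Row A2: evaluation of power series in adically complete rings, uniqueness -/

namespace Cm

variable {P : Type} [CommRing P] {t : Type} [Finite t]

open Filter Topology in
theorem adic_eval {A : Type} [CommRing A] (J : Ideal A) [IsAdicComplete J A] (φ : P →+* A)
    (b : t → A) (hb : ∀ j, b j ∈ J) :
    ∃ ψ : MvPowerSeries t P →+* A, (∀ r, ψ (MvPowerSeries.C r) = φ r) ∧
      ∀ j, ψ (MvPowerSeries.X j) = b j := by
  let _ : WithIdeal A := ⟨J⟩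
  let _ : UniformSpace P := ⊥
  have : DiscreteTopology P := ⟨rfl⟩
  have hJ : IsAdic J := rfl
  obtain ⟨hc, ht⟩ := hJ.isAdicComplete_iff.1 inferInstance
  have hlin : IsLinearTopology A A := J.isLinearTopology
  have hE : MvPowerSeries.HasEval b := by
    refine ⟨fun j => ?_, ?_⟩
    · unfold IsTopologicallyNilpotent
      rw [hJ.hasBasis_nhds_zero.tendsto_right_iff]
      intro n _
      filter_upwards [eventually_ge_atTop n] with k hk
      exact Ideal.pow_le_pow_right hk (Ideal.pow_mem_pow (hb j) k)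
    · rw [Filter.cofinite_eq_bot]
      exact tendsto_bot
  have hφ : Continuous φ := continuous_of_discreteTopology
  refine ⟨MvPowerSeries.eval₂Hom hφ hE, fun r => ?_, fun j => ?_⟩
  · rw [MvPowerSeries.coe_eval₂Hom, MvPowerSeries.eval₂_C]
  · rw [MvPowerSeries.coe_eval₂Hom, MvPowerSeries.eval₂_X]

/-- images of the powers of the ideal of the series without constant term -/
theorem map_kk_pow {A : Type} [CommRing A] (J : Ideal A) (ψ : MvPowerSeries t P →+* A)
    (hJ : ∀ j, ψ (MvPowerSeries.X j) ∈ J) (n : ℕ) {F : MvPowerSeries t P} (hF : F ∈ kk P t ^ n) :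
    ψ F ∈ J ^ n := by
  cases nonempty_fintype t
  have h1 : (kk P t).map ψ ≤ J := by
    rw [Ideal.map_le_iff_le_comap]
    intro G hG
    obtain ⟨H, rfl⟩ := (mem_kk_iff_sum G).1 hG
    rw [Ideal.mem_comap, map_sum]
    refine Ideal.sum_mem _ fun j _ => ?_
    rw [map_mul]
    exact Ideal.mul_mem_right _ _ (hJ j)
  have h2 : ψ F ∈ ((kk P t) ^ n).map ψ := Ideal.mem_map_of_mem ψ hF
  rw [Ideal.map_pow] at h2
  exact Ideal.pow_right_mono h1 n h2

/-- approximation of a series by polynomials -/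
theorem exists_poly_approx (F : MvPowerSeries t P) (n : ℕ) :
    ∃ p : MvPolynomial t P, F - (p : MvPowerSeries t P) ∈ kk P t ^ n := by
  classical
  cases nonempty_fintype t
  have hfin : {μ : t →₀ ℕ | μ.degree < n}.Finite := by
    refine Set.Finite.subset (Set.finite_Iic (Finsupp.equivFunOnFinite.symm fun _ : t => n)) ?_
    intro μ hμ
    rw [Set.mem_Iic]
    intro j
    have h1 : μ j ≤ μ.degree := Finsupp.le_degree j μ
    have h2 : μ.degree < n := hμ
    simp only [Finsupp.equivFunOnFinite_symm_apply_apply]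
    omega
  refine ⟨∑ μ ∈ hfin.toFinset, MvPolynomial.monomial μ (MvPowerSeries.coeff μ F), ?_⟩
  rw [mem_kk_pow_iff]
  intro μ hμ
  rw [map_sub, MvPolynomial.coeff_coe, MvPolynomial.coeff_sum]
  rw [Finset.sum_eq_single μ]
  · rw [MvPolynomial.coeff_monomial, if_pos rfl, sub_self]
  · intro ν _ hν
    rw [MvPolynomial.coeff_monomial, if_neg hν]
  · intro h
    exact absurd (hfin.mem_toFinset.2 hμ) h

theorem hom_ext {A : Type} [CommRing A] (J : Ideal A) [IsHausdorff J A]
    (ψ ψ' : MvPowerSeries t P →+* A) (h : ∀ r, ψ (MvPowerSeries.C r) = ψ' (MvPowerSeries.C r))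
    (hX : ∀ j, ψ (MvPowerSeries.X j) = ψ' (MvPowerSeries.X j))
    (hJ : ∀ j, ψ (MvPowerSeries.X j) ∈ J) : ψ = ψ' := by
  have hJ' : ∀ j, ψ' (MvPowerSeries.X j) ∈ J := fun j => by
    rw [← hX]
    exact hJ j
  have hp : ∀ p : MvPolynomial t P, ψ (p : MvPowerSeries t P) = ψ' (p : MvPowerSeries t P) := by
    intro p
    have h1 : ψ.comp MvPolynomial.coeToMvPowerSeries.ringHom =
        ψ'.comp MvPolynomial.coeToMvPowerSeries.ringHom := by
      refine MvPolynomial.ringHom_ext (fun r => ?_) (fun j => ?_)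
      · simpa using h r
      · simpa using hX j
    exact RingHom.congr_fun h1 p
  refine RingHom.ext fun F => ?_
  rw [← sub_eq_zero]
  refine IsHausdorff.haus ‹IsHausdorff J A› _ fun n => ?_
  rw [SModEq.zero, smul_eq_mul, Ideal.mul_top]
  obtain ⟨p, hF⟩ := exists_poly_approx F n
  have h1 := map_kk_pow J ψ hJ n hF
  have h2 := map_kk_pow J ψ' hJ' n hF
  rw [map_sub] at h1 h2
  have h3 := Ideal.sub_mem _ h1 h2
  rw [hp p] at h3
  rwa [sub_sub_sub_cancel_right] at h3

end Cm
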