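import Pool.Agent.Lib.MP_c35b50_lc.Cm.Graph

/-!
# Extension of a graph to the algebraic closures (row B8), over the statements of the rows B6, B7
-/

namespace Cm

open Polynomial

/-- the statement of `coeff_mem_O` -/
def CoeffO (R : Type) [CommRing R] (L : Type) [Field L] [TField R L] : Prop :=
  ∀ (E : Subfield L), TClosed R E → ∀ (x : L), IsIntegral E x → x ∈ OO R L → ∀ n : ℕ,
    (((minpoly E x).coeff n : E) : L) ∈ OO R L

/-- the statement of `coeff_mem_m` -/
def CoeffM (R : Type) [CommRing R] (L : Type) [Field L] [TField R L] : Prop :=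
  ∀ (E : Subfield L), TClosed R E → ∀ (x : L), IsIntegral E x → x ∈ mm R L → ∀ n : ℕ,
    n < (minpoly E x).natDegree → (((minpoly E x).coeff n : E) : L) ∈ mm R L

/-- the statement of `div_xi` -/
def DivXi (R : Type) [CommRing R] : Prop :=
  ∀ (s t : Type) [Finite s] [Finite t] (d : ℕ) (F : S R (Option s) t),
    ∃ F' : Fin d → S R (Fin d ⊕ s) t, ∀ (A : Type) [CommRing A] [TRing R A] (x : A)
      (c : Fin d → A) (a : s → A) (b : t → A), x ∈ OO R A → (∀ i, c i ∈ OO R A) → Dom R a b →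
      x ^ d + ∑ i, c i * x ^ (i : ℕ) = 0 →
      ev F (oc x a) b = ∑ i, ev (F' i) (Sum.elim c a) b * x ^ (i : ℕ)

/-- the statement of `div_rho` -/
def DivRho (R : Type) [CommRing R] : Prop :=
  ∀ (s t : Type) [Finite s] [Finite t] (d : ℕ) (F : S R s (Option t)),
    ∃ F' : Fin d → S R s (Fin d ⊕ t), ∀ (A : Type) [CommRing A] [TRing R A] (x : A)
      (c : Fin d → A) (a : s → A) (b : t → A), x ∈ mm R A → (∀ i, c i ∈ mm R A) → Dom R a b →
      x ^ d + ∑ i, c i * x ^ (i : ℕ) = 0 →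
      ev F a (oc x b) = ∑ i, ev (F' i) a (Sum.elim c b) * x ^ (i : ℕ)

variable {R : Type} [CommRing R]

section Val

variable {K : Type} [Field K] [TField R K]

theorem int_mem_O (d : ℕ) (c : Fin d → K) (hc : ∀ i, c i ∈ OO R K) (x : K)
    (h : x ^ d + ∑ i, c i * x ^ (i : ℕ) = 0) : x ∈ OO R K := by
  by_contra hx
  rw [← vv_le_one_iff, not_le] at hx
  have h1 : vv R K (∑ i, c i * x ^ (i : ℕ)) < vv R K x ^ d := by
    refine Valuation.map_sum_lt _ (pow_ne_zero _ (ne_of_gt (zero_lt_one.trans hx))) fun i _ => ?_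
    rw [map_mul, map_pow]
    calc vv R K (c i) * vv R K x ^ (i : ℕ) ≤ 1 * vv R K x ^ (i : ℕ) :=
          mul_le_mul_left ((vv_le_one_iff _).2 (hc i)) _
      _ = vv R K x ^ (i : ℕ) := one_mul _
      _ < _ := pow_lt_pow_right₀ hx i.2
  have h2 : x ^ d = -∑ i, c i * x ^ (i : ℕ) := eq_neg_of_add_eq_zero_left h
  rw [← Valuation.map_neg, ← h2, map_pow] at h1
  exact lt_irrefl _ h1

theorem int_mem_m (d : ℕ) (c : Fin d → K) (hc : ∀ i, c i ∈ mm R K) (x : K)
    (h : x ^ d + ∑ i, c i * x ^ (i : ℕ) = 0) : x ∈ mm R K := by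
  have hO := int_mem_O d c (fun i => TRing.m_le _ (hc i)) x h
  rw [← vv_lt_one_iff]
  by_contra hx
  have hx1 : vv R K x = 1 := le_antisymm ((vv_le_one_iff _).2 hO) (not_lt.1 hx)
  have h1 : vv R K (∑ i, c i * x ^ (i : ℕ)) < 1 := by
    refine Valuation.map_sum_lt _ one_ne_zero fun i _ => ?_
    rw [map_mul, map_pow, hx1, one_pow, mul_one]
    exact (vv_lt_one_iff _).2 (hc i)
  have h2 : x ^ d = -∑ i, c i * x ^ (i : ℕ) := eq_neg_of_add_eq_zero_left h
  rw [← Valuation.map_neg, ← h2, map_pow, hx1, one_pow] at h1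
  exact lt_irrefl _ h1

omit [TField R K] in
theorem int_of_rel (E : Subfield K) (d : ℕ) (c : Fin d → K) (hc : ∀ i, c i ∈ E) (x : K)
    (h : x ^ d + ∑ i, c i * x ^ (i : ℕ) = 0) : IsIntegral E x := by
  refine ⟨X ^ d + ∑ i : Fin d, C (⟨c i, hc i⟩ : E) * X ^ (i : ℕ), ?_, ?_⟩
  · exact monic_X_pow_add (degree_sum_fin_lt _)
  · rw [eval₂_add, eval₂_finsetSum, eval₂_X_pow, ← h]
    congr 1
    refine Finset.sum_congr rfl fun i _ => ?_
    rw [eval₂_mul, eval₂_C, eval₂_X_pow]
    rfl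

end Val

section Dom

variable {L1 L2 : Type} [Field L1] [Field L2]

/-- the first projection of a graph, as a subfield -/
def gdom (G : Subring (L1 × L2)) (hinv : ∀ g ∈ G, (g.1⁻¹, g.2⁻¹) ∈ G) : Subfield L1 :=
  { G.map (RingHom.fst L1 L2) with
    inv_mem' := by
      rintro x ⟨g, hg, rfl⟩
      exact ⟨_, hinv g hg, rfl⟩ }

theorem mem_gdom (G : Subring (L1 × L2)) (hinv : ∀ g ∈ G, (g.1⁻¹, g.2⁻¹) ∈ G) (x : L1) :
    x ∈ gdom G hinv ↔ ∃ g ∈ G, g.1 = x := Iff.rfl

variable [TField R L1] [TField R L2]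

theorem gdom_closed (G : Subring (L1 × L2)) (hG : TGraph R G) : TClosed R (gdom G hG.inv) := by
  intro s t _ _ F a b ha hb hd
  choose a' ha' ea using ha
  choose b' hb' eb using hb
  have ea' : (fun i => (a' i).1) = a := funext ea
  have eb' : (fun i => (b' i).1) = b := funext eb
  have hd' : Dom R a' b' := by
    refine ⟨fun i => ?_, fun j => ?_⟩
    · have h1 : (a' i).1 ∈ OO R L1 := by
        rw [show (a' i).1 = a i from ea i]
        exact hd.1 i
      exact ⟨h1, (hG.O_iff _ (ha' i)).1 h1⟩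
    · have h1 : (b' j).1 ∈ mm R L1 := by
        rw [show (b' j).1 = b j from eb j]
        exact hd.2 j
      exact ⟨h1, (hG.m_iff _ (hb' j)).1 h1⟩
  refine ⟨ev F a' b', hG.T_mem F a' b' ha' hb' hd', ?_⟩
  rw [ev_prod, ea', eb']
  rfl

omit [TField R L1] [TField R L2] in
theorem guniq {G : Subring (L1 × L2)} (hinj : ∀ g ∈ G, g.1 = 0 → g.2 = 0) {g g' : L1 × L2}
    (hg : g ∈ G) (hg' : g' ∈ G) (h : g.1 = g'.1) : g.2 = g'.2 := by
  have h1 := hinj (g - g') (G.sub_mem hg hg') (by rw [Prod.fst_sub, h, sub_self])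
  rwa [Prod.snd_sub, sub_eq_zero] at h1

/-- the map of which `G` is the graph -/
noncomputable def gmap (G : Subring (L1 × L2)) (hinj : ∀ g ∈ G, g.1 = 0 → g.2 = 0)
    (hinv : ∀ g ∈ G, (g.1⁻¹, g.2⁻¹) ∈ G) : gdom G hinv →+* L2 where
  toFun x := (Classical.choose x.2).2
  map_one' := guniq hinj (Classical.choose_spec (1 : gdom G hinv).2).1 G.one_mem
    (Classical.choose_spec (1 : gdom G hinv).2).2
  map_zero' := guniq hinj (Classical.choose_spec (0 : gdom G hinv).2).1 G.zero_mem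
    (Classical.choose_spec (0 : gdom G hinv).2).2
  map_add' x y := guniq hinj (Classical.choose_spec (x + y).2).1
    (G.add_mem (Classical.choose_spec x.2).1 (Classical.choose_spec y.2).1) (by
      have h1 := (Classical.choose_spec (x + y).2).2
      have h2 := (Classical.choose_spec x.2).2
      have h3 := (Classical.choose_spec y.2).2
      refine h1.trans ?_
      change (x : L1) + (y : L1) = _
      exact (congrArg₂ (· + ·) h2 h3).symm)
  map_mul' x y := guniq hinj (Classical.choose_spec (x * y).2).1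
    (G.mul_mem (Classical.choose_spec x.2).1 (Classical.choose_spec y.2).1) (by
      have h1 := (Classical.choose_spec (x * y).2).2
      have h2 := (Classical.choose_spec x.2).2
      have h3 := (Classical.choose_spec y.2).2
      refine h1.trans ?_
      change (x : L1) * (y : L1) = _
      exact (congrArg₂ (· * ·) h2 h3).symm)

theorem gmap_mem (G : Subring (L1 × L2)) (hinj : ∀ g ∈ G, g.1 = 0 → g.2 = 0)
    (hinv : ∀ g ∈ G, (g.1⁻¹, g.2⁻¹) ∈ G) (x : gdom G hinv) :
    ((x : L1), gmap G hinj hinv x) ∈ G := by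
  have h1 := (Classical.choose_spec x.2).1
  have h2 : (Classical.choose x.2).1 = (x : L1) := (Classical.choose_spec x.2).2
  have h3 : ((x : L1), gmap G hinj hinv x) = Classical.choose x.2 := Prod.ext h2.symm rfl
  rw [h3]
  exact h1

/-- extension of a graph (of fields) to the algebraic closure -/
theorem exists_gext [IsAlgClosed L2] (G : Subring (L1 × L2))
    (hinj : ∀ g ∈ G, g.1 = 0 → g.2 = 0) (hinv : ∀ g ∈ G, (g.1⁻¹, g.2⁻¹) ∈ G) :
    ∃ G' : Subring (L1 × L2), G ≤ G' ∧ (∀ g ∈ G', g.1 = 0 → g.2 = 0) ∧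
      (∀ g ∈ G', g.2 = 0 → g.1 = 0) ∧ (∀ g ∈ G', (g.1⁻¹, g.2⁻¹) ∈ G') ∧
      (∀ g ∈ G', IsIntegral (gdom G hinv) g.1) ∧
      (∀ x : L1, IsIntegral (gdom G hinv) x → ∃ z, (x, z) ∈ G') := by
  let _ : Algebra (gdom G hinv) L2 := (gmap G hinj hinv).toAlgebra
  let A := algebraicClosure (gdom G hinv) L1
  let Φ : A →ₐ[gdom G hinv] L2 := IsAlgClosed.lift
  refine ⟨((algebraMap A L1).prod Φ.toRingHom).range, ?_, ?_, ?_, ?_, ?_, ?_⟩
  · intro g hg
    have h1 : g.1 ∈ gdom G hinv := ⟨g, hg, rfl⟩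
    refine ⟨algebraMap (gdom G hinv) A ⟨g.1, h1⟩, ?_⟩
    have h2 : Φ (algebraMap (gdom G hinv) A ⟨g.1, h1⟩) = gmap G hinj hinv ⟨g.1, h1⟩ :=
      Φ.commutes _
    refine Prod.ext rfl ?_
    change Φ (algebraMap (gdom G hinv) A ⟨g.1, h1⟩) = g.2
    rw [h2]
    exact guniq (g := (g.1, gmap G hinj hinv ⟨g.1, h1⟩)) hinj
      (gmap_mem G hinj hinv ⟨g.1, h1⟩) hg rfl
  · rintro _ ⟨x, rfl⟩ h
    have h1 : x = 0 := Subtype.ext h
    rw [h1, map_zero]
    rfl
  · rintro _ ⟨x, rfl⟩ h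
    have h1 : x = 0 := by
      have h2 : Φ x = 0 := h
      exact (map_eq_zero Φ).1 h2
    rw [h1, map_zero]
    rfl
  · rintro _ ⟨x, rfl⟩
    refine ⟨x⁻¹, Prod.ext (map_inv₀ (algebraMap A L1) x) (map_inv₀ Φ x)⟩
  · rintro _ ⟨x, rfl⟩
    have h1 : IsAlgebraic (gdom G hinv) (x : L1) := mem_algebraicClosure_iff.1 x.2
    exact h1.isIntegral
  · intro x hx
    have h1 : x ∈ A := mem_algebraicClosure_iff.2 hx.isAlgebraic
    exact ⟨Φ ⟨x, h1⟩, ⟨x, h1⟩, rfl⟩

end Dom

section Rel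

variable {L1 L2 : Type} [Field L1] [Field L2] [TField R L1] [TField R L2]

omit [TField R L1] [TField R L2] in
/-- the relation of an element of the extended graph over the graph -/
theorem exists_rel (G G' : Subring (L1 × L2)) (hle : G ≤ G')
    (hinj : ∀ g ∈ G', g.1 = 0 → g.2 = 0) (hinv : ∀ g ∈ G, (g.1⁻¹, g.2⁻¹) ∈ G)
    (g : L1 × L2) (hg : g ∈ G') (p : (gdom G hinv)[X]) (hp : p.Monic) (hp0 : aeval g.1 p = 0) :
    ∃ c : Fin p.natDegree → L1 × L2, (∀ i, c i ∈ G) ∧
      (∀ i, (c i).1 = ((p.coeff i : gdom G hinv) : L1)) ∧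
      g ^ p.natDegree + ∑ i, c i * g ^ (i : ℕ) = 0 := by
  have h1 : ∀ i : Fin p.natDegree, ∃ z, z ∈ G ∧ z.1 = ((p.coeff i : gdom G hinv) : L1) :=
    fun i => (p.coeff i).2
  choose c hc hc' using h1
  refine ⟨c, hc, hc', ?_⟩
  have h2 : (g ^ p.natDegree + ∑ i, c i * g ^ (i : ℕ)) ∈ G' :=
    G'.add_mem (G'.pow_mem hg _) (G'.sum_mem fun i _ => G'.mul_mem (hle (hc i)) (G'.pow_mem hg _))
  have h3 : (g ^ p.natDegree + ∑ i, c i * g ^ (i : ℕ)).1 = 0 := by
    rw [← hp0]
    conv_rhs => rw [hp.as_sum]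
    rw [map_add, map_sum, map_pow, aeval_X, ← Fin.sum_univ_eq_sum_range
      (fun i => aeval g.1 (C (p.coeff i) * X ^ i)) p.natDegree, Prod.fst_add, Prod.pow_fst,
      Prod.fst_sum]
    congr 1
    refine Finset.sum_congr rfl fun i _ => ?_
    rw [map_mul, map_pow, aeval_X, aeval_C, Prod.fst_mul, Prod.pow_fst, hc']
    rfl
  exact Prod.ext h3 (hinj _ h2 h3)

theorem exists_relT (G G' : Subring (L1 × L2)) (hle : G ≤ G') (hG : TGraph R G)
    (hinj : ∀ g ∈ G', g.1 = 0 → g.2 = 0)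
    (hint : ∀ g ∈ G', IsIntegral (gdom G hG.inv) g.1) (HO : CoeffO R L1) (HM : CoeffM R L1)
    (g : L1 × L2) (hg : g ∈ G') :
    ∃ (d : ℕ) (c : Fin d → L1 × L2), (∀ i, c i ∈ G) ∧ g ^ d + ∑ i, c i * g ^ (i : ℕ) = 0 ∧
      (g.1 ∈ OO R L1 → ∀ i, c i ∈ OO R (L1 × L2)) ∧
      (g.1 ∈ mm R L1 → ∀ i, c i ∈ mm R (L1 × L2)) := by
  have h0 := hint g hg
  obtain ⟨c, hc, hc', hr⟩ := exists_rel G G' hle hinj hG.inv g hg
    (minpoly (gdom G hG.inv) g.1) (minpoly.monic h0) (minpoly.aeval _ _)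
  refine ⟨_, c, hc, hr, fun h i => ?_, fun h i => ?_⟩
  · have h1 : (c i).1 ∈ OO R L1 := by
      rw [hc']
      exact HO _ (gdom_closed G hG) g.1 h0 h i
    exact ⟨h1, (hG.O_iff _ (hc i)).1 h1⟩
  · have h1 : (c i).1 ∈ mm R L1 := by
      rw [hc']
      exact HM _ (gdom_closed G hG) g.1 h0 h i i.2
    exact ⟨h1, (hG.m_iff _ (hc i)).1 h1⟩

/-- the swapped graph -/
def gsw (G : Subring (L1 × L2)) : Subring (L2 × L1) :=
  G.comap ((RingEquiv.prodComm : L2 × L1 ≃+* L1 × L2) : L2 × L1 →+* L1 × L2)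

omit [TField R L1] [TField R L2] in
theorem mem_gsw (G : Subring (L1 × L2)) (x : L2 × L1) : x ∈ gsw G ↔ (x.2, x.1) ∈ G := Iff.rfl

theorem gsw_graph {G : Subring (L1 × L2)} (hG : TGraph R G) : TGraph R (gsw G) where
  inj1 g hg h := hG.inj2 (g.2, g.1) hg h
  inj2 g hg h := hG.inj1 (g.2, g.1) hg h
  inv g hg := hG.inv (g.2, g.1) hg
  O_iff g hg := (hG.O_iff (g.2, g.1) hg).symm
  m_iff g hg := (hG.m_iff (g.2, g.1) hg).symm
  T_mem F a b ha hb hd := hG.T_mem F (fun i => ((a i).2, (a i).1)) (fun j => ((b j).2, (b j).1))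
    ha hb ⟨fun i => ⟨(hd.1 i).2, (hd.1 i).1⟩, fun j => ⟨(hd.2 j).2, (hd.2 j).1⟩⟩

end Rel

section Step

variable {L1 L2 : Type} [Field L1] [Field L2] [TField R L1] [TField R L2]

/-- the step of the induction over the variables of the first kind -/
def PX (R : Type) [CommRing R] {L1 L2 : Type} [Field L1] [Field L2] [TField R L1] [TField R L2]
    (G G' : Subring (L1 × L2)) (s : Type) : Prop :=
  ∀ (_ : Finite s) (u t : Type) (_ : Finite u) (_ : Finite t)
    (F : S R (s ⊕ u) t) (a : s → L1 × L2) (a' : u → L1 × L2) (b : t → L1 × L2),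
    (∀ i, a i ∈ G') → (∀ i, a' i ∈ G) → (∀ j, b j ∈ G) → Dom R (Sum.elim a a') b →
    ev F (Sum.elim a a') b ∈ G'

/-- the step of the induction over the variables of the second kind -/
def PR (R : Type) [CommRing R] {L1 L2 : Type} [Field L1] [Field L2] [TField R L1] [TField R L2]
    (G G' : Subring (L1 × L2)) (t : Type) : Prop :=
  ∀ (_ : Finite t) (s w : Type) (_ : Finite s) (_ : Finite w)
    (F : S R s (t ⊕ w)) (a : s → L1 × L2) (b : t → L1 × L2) (b' : w → L1 × L2),
    (∀ i, a i ∈ G') → (∀ j, b j ∈ G') → (∀ j, b' j ∈ G) → Dom R a (Sum.elim b b') →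
    ev F a (Sum.elim b b') ∈ G'

variable (G G' : Subring (L1 × L2))

theorem tmem_xi (hDX : DivXi R) (hle : G ≤ G') (hG : TGraph R G)
    (hrel : ∀ g ∈ G', g ∈ OO R (L1 × L2) → ∃ (d : ℕ) (c : Fin d → L1 × L2), (∀ i, c i ∈ G) ∧
      (∀ i, c i ∈ OO R (L1 × L2)) ∧ g ^ d + ∑ i, c i * g ^ (i : ℕ) = 0)
    (s : Type) [Finite s] : PX R G G' s := by
  induction s using Finite.induction_empty_option with
  | @of_equiv α β e ih =>
    intro _ u t _ _ F a a' b ha ha' hb hd
    have h1 := Finite.of_equiv β e.symm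
    have hd' : Dom R (Sum.elim (a ∘ e) a') b := by
      refine ⟨?_, hd.2⟩
      rintro (i | i)
      · exact hd.1 (Sum.inl (e i))
      · exact hd.1 (Sum.inr i)
    have h2 := ih h1 u t inferInstance inferInstance (ren (Sum.map e.symm id) id F) (a ∘ e) a' b
      (fun i => ha (e i)) ha' hb hd'
    have h3 : ev (ren (Sum.map e.symm id) id F) (Sum.elim (a ∘ e) a') b =
        ev F (Sum.elim (a ∘ e) a' ∘ Sum.map e.symm id) (b ∘ id) :=
      TRing.T_ren _ _ F _ _ hd'.1 hd'.2
    have h4 : (Sum.elim (a ∘ e) a' ∘ Sum.map e.symm id) = Sum.elim a a' := by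
      funext i
      rcases i with i | i
      · simp
      · simp
    rw [h3, h4] at h2
    exact h2
  | h_empty =>
    intro _ u t _ _ F a a' b ha ha' hb hd
    refine hle (hG.T_mem F _ _ ?_ hb hd)
    rintro (i | i)
    · exact i.elim
    · exact ha' i
  | @h_option α _ ih =>
    intro _ u t _ _ F a a' b ha ha' hb hd
    obtain ⟨d, c, hc, hcO, hr⟩ := hrel (a none) (ha none) (hd.1 (Sum.inl none))
    have hd1 : Dom R (Sum.elim (a ∘ some) a') b := by
      refine ⟨?_, hd.2⟩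
      rintro (i | i)
      · exact hd.1 (Sum.inl (some i))
      · exact hd.1 (Sum.inr i)
    have hd2 : Dom R (oc (a none) (Sum.elim (a ∘ some) a')) b := by
      refine ⟨?_, hd.2⟩
      rintro (_ | i)
      · exact hd.1 (Sum.inl none)
      · exact hd1.1 i
    have h3 : ev (ren (Sum.elim (fun o => o.map Sum.inl) (fun i => some (Sum.inr i))) id F)
        (oc (a none) (Sum.elim (a ∘ some) a')) b = ev F (oc (a none) (Sum.elim (a ∘ some) a') ∘
          (Sum.elim (fun o => o.map Sum.inl) (fun i => some (Sum.inr i)))) (b ∘ id) :=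
      TRing.T_ren _ _ F _ _ hd2.1 hd2.2
    have h4 : (oc (a none) (Sum.elim (a ∘ some) a') ∘
          (Sum.elim (fun o : Option α => o.map Sum.inl) (fun i : u => some (Sum.inr i)))) =
        Sum.elim a a' := by
      funext i
      rcases i with (_ | i) | i
      · rfl
      · rfl
      · rfl
    obtain ⟨F', hF'⟩ := hDX (α ⊕ u) t d
      (ren (Sum.elim (fun o => o.map Sum.inl) (fun i => some (Sum.inr i))) id F)
    have h5 := hF' (L1 × L2) (a none) c (Sum.elim (a ∘ some) a') b (hd.1 (Sum.inl none)) hcO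
      hd1 hr
    rw [h3, h4] at h5
    rw [show ev F (Sum.elim a a') b = ev F (Sum.elim a a') (b ∘ id) from rfl, h5]
    refine G'.sum_mem fun i _ => G'.mul_mem ?_ (G'.pow_mem (ha none) _)
    have hd3 : Dom R (Sum.elim (a ∘ some) (Sum.elim c a')) b := by
      refine ⟨?_, hd.2⟩
      rintro (i | i | i)
      · exact hd.1 (Sum.inl (some i))
      · exact hcO i
      · exact hd.1 (Sum.inr i)
    have h6 := ih inferInstance (Fin d ⊕ u) t inferInstance inferInstance
      (ren (Sum.elim (fun i => Sum.inr (Sum.inl i)) (Sum.elim Sum.inl (fun i => Sum.inr (Sum.inr i))))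
        id (F' i)) (a ∘ some) (Sum.elim c a') b (fun i => ha (some i))
      (by
        rintro (i | i)
        · exact hc i
        · exact ha' i) hb hd3
    have h7 : ev (ren (Sum.elim (fun i => Sum.inr (Sum.inl i)) (Sum.elim Sum.inl (fun i => Sum.inr (Sum.inr i))))
        id (F' i)) (Sum.elim (a ∘ some) (Sum.elim c a')) b =
        ev (F' i) (Sum.elim (a ∘ some) (Sum.elim c a') ∘
          (Sum.elim (fun i => Sum.inr (Sum.inl i)) (Sum.elim Sum.inl (fun i => Sum.inr (Sum.inr i)))))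
          (b ∘ id) := TRing.T_ren _ _ _ _ _ hd3.1 hd3.2
    have h8 : (Sum.elim (a ∘ some) (Sum.elim c a') ∘ (Sum.elim (fun i : Fin d => Sum.inr (Sum.inl i))
        (Sum.elim (fun i : α => Sum.inl i) (fun i : u => Sum.inr (Sum.inr i))))) =
        Sum.elim c (Sum.elim (a ∘ some) a') := by
      funext i
      rcases i with i | i | i
      · rfl
      · rfl
      · rfl
    rw [h7, h8] at h6
    exact h6

theorem tmem_rho (hDX : DivXi R) (hDR : DivRho R) (hle : G ≤ G') (hG : TGraph R G)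
    (hrel : ∀ g ∈ G', g ∈ OO R (L1 × L2) → ∃ (d : ℕ) (c : Fin d → L1 × L2), (∀ i, c i ∈ G) ∧
      (∀ i, c i ∈ OO R (L1 × L2)) ∧ g ^ d + ∑ i, c i * g ^ (i : ℕ) = 0)
    (hrel' : ∀ g ∈ G', g ∈ mm R (L1 × L2) → ∃ (d : ℕ) (c : Fin d → L1 × L2), (∀ i, c i ∈ G) ∧
      (∀ i, c i ∈ mm R (L1 × L2)) ∧ g ^ d + ∑ i, c i * g ^ (i : ℕ) = 0)
    (t : Type) [Finite t] : PR R G G' t := by
  induction t using Finite.induction_empty_option with
  | @of_equiv α β e ih =>
    intro _ s w _ _ F a b b' ha hb hb' hd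
    have h1 := Finite.of_equiv β e.symm
    have hd' : Dom R a (Sum.elim (b ∘ e) b') := by
      refine ⟨hd.1, ?_⟩
      rintro (i | i)
      · exact hd.2 (Sum.inl (e i))
      · exact hd.2 (Sum.inr i)
    have h2 := ih h1 s w inferInstance inferInstance (ren id (Sum.map e.symm id) F) a (b ∘ e) b'
      ha (fun i => hb (e i)) hb' hd'
    have h3 : ev (ren id (Sum.map e.symm id) F) a (Sum.elim (b ∘ e) b') =
        ev F (a ∘ id) (Sum.elim (b ∘ e) b' ∘ Sum.map e.symm id) :=
      TRing.T_ren _ _ F _ _ hd'.1 hd'.2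
    have h4 : (Sum.elim (b ∘ e) b' ∘ Sum.map e.symm id) = Sum.elim b b' := by
      funext i
      rcases i with i | i
      · simp
      · simp
    rw [h3, h4] at h2
    exact h2
  | h_empty =>
    intro _ s w _ _ F a b b' ha hb hb' hd
    have hd' : Dom R (Sum.elim a (fun i : Empty => i.elim)) (Sum.elim b b') := by
      refine ⟨?_, hd.2⟩
      rintro (i | i)
      · exact hd.1 i
      · exact i.elim
    have h2 := tmem_xi G G' hDX hle hG hrel s inferInstance Empty (PEmpty ⊕ w) inferInstance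
      inferInstance (ren Sum.inl id F) a (fun i => i.elim) (Sum.elim b b') ha (fun i => i.elim)
      (by
        rintro (i | i)
        · exact i.elim
        · exact hb' i) hd'
    have h3 : ev (ren Sum.inl id F) (Sum.elim a (fun i : Empty => i.elim)) (Sum.elim b b') =
        ev F (Sum.elim a (fun i : Empty => i.elim) ∘ Sum.inl) (Sum.elim b b' ∘ id) :=
      TRing.T_ren _ _ F _ _ hd'.1 hd'.2
    rw [h3] at h2
    exact h2
  | @h_option α _ ih =>
    intro _ s w _ _ F a b b' ha hb hb' hd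
    obtain ⟨d, c, hc, hcO, hr⟩ := hrel' (b none) (hb none) (hd.2 (Sum.inl none))
    have hd1 : Dom R a (Sum.elim (b ∘ some) b') := by
      refine ⟨hd.1, ?_⟩
      rintro (i | i)
      · exact hd.2 (Sum.inl (some i))
      · exact hd.2 (Sum.inr i)
    have hd2 : Dom R a (oc (b none) (Sum.elim (b ∘ some) b')) := by
      refine ⟨hd.1, ?_⟩
      rintro (_ | i)
      · exact hd.2 (Sum.inl none)
      · exact hd1.2 i
    have h3 : ev (ren id (Sum.elim (fun o => o.map Sum.inl) (fun i => some (Sum.inr i))) F) a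
        (oc (b none) (Sum.elim (b ∘ some) b')) = ev F (a ∘ id)
          (oc (b none) (Sum.elim (b ∘ some) b') ∘
          (Sum.elim (fun o => o.map Sum.inl) (fun i => some (Sum.inr i)))) :=
      TRing.T_ren _ _ F _ _ hd2.1 hd2.2
    have h4 : (oc (b none) (Sum.elim (b ∘ some) b') ∘
          (Sum.elim (fun o : Option α => o.map Sum.inl) (fun i : w => some (Sum.inr i)))) =
        Sum.elim b b' := by
      funext i
      rcases i with (_ | i) | i
      · rfl
      · rfl
      · rfl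
    obtain ⟨F', hF'⟩ := hDR s (α ⊕ w) d
      (ren id (Sum.elim (fun o => o.map Sum.inl) (fun i => some (Sum.inr i))) F)
    have h5 := hF' (L1 × L2) (b none) c a (Sum.elim (b ∘ some) b') (hd.2 (Sum.inl none)) hcO
      hd1 hr
    rw [h3, h4] at h5
    rw [show ev F a (Sum.elim b b') = ev F (a ∘ id) (Sum.elim b b') from rfl, h5]
    refine G'.sum_mem fun i _ => G'.mul_mem ?_ (G'.pow_mem (hb none) _)
    have hd3 : Dom R a (Sum.elim (b ∘ some) (Sum.elim c b')) := by
      refine ⟨hd.1, ?_⟩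
      rintro (i | i | i)
      · exact hd.2 (Sum.inl (some i))
      · exact hcO i
      · exact hd.2 (Sum.inr i)
    have h6 := ih inferInstance s (Fin d ⊕ w) inferInstance inferInstance
      (ren id (Sum.elim (fun i => Sum.inr (Sum.inl i))
        (Sum.elim Sum.inl (fun i => Sum.inr (Sum.inr i)))) (F' i)) a (b ∘ some) (Sum.elim c b') ha
      (fun i => hb (some i))
      (by
        rintro (i | i)
        · exact hc i
        · exact hb' i) hd3
    have h7 : ev (ren id (Sum.elim (fun i => Sum.inr (Sum.inl i))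
        (Sum.elim Sum.inl (fun i => Sum.inr (Sum.inr i)))) (F' i)) a
          (Sum.elim (b ∘ some) (Sum.elim c b')) =
        ev (F' i) (a ∘ id) (Sum.elim (b ∘ some) (Sum.elim c b') ∘
          (Sum.elim (fun i => Sum.inr (Sum.inl i))
            (Sum.elim Sum.inl (fun i => Sum.inr (Sum.inr i))))) :=
      TRing.T_ren _ _ _ _ _ hd3.1 hd3.2
    have h8 : (Sum.elim (b ∘ some) (Sum.elim c b') ∘ (Sum.elim (fun i : Fin d => Sum.inr (Sum.inl i))
        (Sum.elim (fun i : α => Sum.inl i) (fun i : w => Sum.inr (Sum.inr i))))) =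
        Sum.elim c (Sum.elim (b ∘ some) b') := by
      funext i
      rcases i with i | i | i
      · rfl
      · rfl
      · rfl
    rw [h7, h8] at h6
    exact h6

end Step

/-- Row B8, over the statements of the rows B6 and B7. -/
theorem graph_algClosure_of {L1 L2 : Type} [Field L1] [Field L2] [TField R L1] [TField R L2]
    [IsAlgClosed L1] [IsAlgClosed L2] (HO1 : CoeffO R L1) (HM1 : CoeffM R L1)
    (HO2 : CoeffO R L2) (HM2 : CoeffM R L2) (hDX : DivXi R) (hDR : DivRho R)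
    (G : Subring (L1 × L2)) (hG : TGraph R G) :
    ∃ G' : Subring (L1 × L2), G ≤ G' ∧ TGraph R G' ∧
      ∀ (P : Polynomial L1), P.Monic → 0 < P.natDegree →
        (∀ n, ∃ z, (P.coeff n, z) ∈ G') → ∃ x z, (x, z) ∈ G' ∧ P.eval x = 0 := by
  obtain ⟨G', hle, h1, h2, h3, h4, h5⟩ := exists_gext G hG.inj1 hG.inv
  have hrel := exists_relT G G' hle hG h1 h4 HO1 HM1
  have hint2 : ∀ g ∈ gsw G', IsIntegral (gdom (gsw G) (gsw_graph hG).inv) g.1 := by
    intro g hg
    obtain ⟨d, c, hc, hr, -⟩ := hrel (g.2, g.1) hg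
    refine int_of_rel (gdom (gsw G) (gsw_graph hG).inv) d (fun i => (c i).2)
      (fun i => ⟨((c i).2, (c i).1), hc i, rfl⟩) g.1 ?_
    have h6 := congrArg Prod.snd hr
    rw [Prod.snd_add, Prod.pow_snd, Prod.snd_sum] at h6
    exact h6
  have hrel2 := exists_relT (gsw G) (gsw G') (fun g hg => hle hg) (gsw_graph hG)
    (fun g hg h => h2 (g.2, g.1) hg h) hint2 HO2 HM2
  have hO : ∀ g ∈ G', g.1 ∈ OO R L1 ↔ g.2 ∈ OO R L2 := by
    intro g hg
    constructor
    · intro h
      obtain ⟨d, c, hc, hr, h6, -⟩ := hrel g hg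
      refine int_mem_O d (fun i => (c i).2) (fun i => (h6 h i).2) g.2 ?_
      have h7 := congrArg Prod.snd hr
      rw [Prod.snd_add, Prod.pow_snd, Prod.snd_sum] at h7
      exact h7
    · intro h
      obtain ⟨d, c, hc, hr, h6, -⟩ := hrel2 (g.2, g.1) hg
      refine int_mem_O d (fun i => (c i).2) (fun i => (h6 h i).2) g.1 ?_
      have h7 := congrArg Prod.snd hr
      rw [Prod.snd_add, Prod.pow_snd, Prod.snd_sum] at h7
      exact h7
  have hM : ∀ g ∈ G', g.1 ∈ mm R L1 ↔ g.2 ∈ mm R L2 := by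
    intro g hg
    constructor
    · intro h
      obtain ⟨d, c, hc, hr, -, h6⟩ := hrel g hg
      refine int_mem_m d (fun i => (c i).2) (fun i => (h6 h i).2) g.2 ?_
      have h7 := congrArg Prod.snd hr
      rw [Prod.snd_add, Prod.pow_snd, Prod.snd_sum] at h7
      exact h7
    · intro h
      obtain ⟨d, c, hc, hr, -, h6⟩ := hrel2 (g.2, g.1) hg
      refine int_mem_m d (fun i => (c i).2) (fun i => (h6 h i).2) g.1 ?_
      have h7 := congrArg Prod.snd hr
      rw [Prod.snd_add, Prod.pow_snd, Prod.snd_sum] at h7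
      exact h7
  refine ⟨G', hle, ⟨h1, h2, h3, hO, hM, ?_⟩, ?_⟩
  · intro s t _ _ F a b ha hb hd
    have hd' : Dom R a (Sum.elim b (fun i : Empty => i.elim)) := by
      refine ⟨hd.1, ?_⟩
      rintro (i | i)
      · exact hd.2 i
      · exact i.elim
    have h6 := tmem_rho G G' hDX hDR hle hG
      (fun g hg hgO => by
        obtain ⟨d, c, hc, hr, h7, -⟩ := hrel g hg
        exact ⟨d, c, hc, h7 hgO.1, hr⟩)
      (fun g hg hgO => by
        obtain ⟨d, c, hc, hr, -, h7⟩ := hrel g hg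
        exact ⟨d, c, hc, h7 hgO.1, hr⟩) t inferInstance s Empty inferInstance inferInstance
      (ren id Sum.inl F) a b (fun i => i.elim) ha hb (fun i => i.elim) hd'
    have h7 : ev (ren id Sum.inl F) a (Sum.elim b (fun i : Empty => i.elim)) =
        ev F (a ∘ id) (Sum.elim b (fun i : Empty => i.elim) ∘ Sum.inl) :=
      TRing.T_ren _ _ F _ _ hd'.1 hd'.2
    rw [h7] at h6
    exact h6
  · intro P hP hP0 hc
    obtain ⟨x, hx⟩ := IsAlgClosed.exists_root P (by
      rw [degree_eq_natDegree hP.ne_zero]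
      exact_mod_cast hP0.ne')
    obtain ⟨z, hz⟩ := h5 x (by
      have hl : P ∈ lifts (algebraMap (algebraicClosure (gdom G hG.inv) L1) L1) := by
        rw [lifts_iff_coeff_lifts]
        intro n
        obtain ⟨w, hw⟩ := hc n
        exact ⟨⟨P.coeff n, mem_algebraicClosure_iff.2 (h4 _ hw).isAlgebraic⟩, rfl⟩
      obtain ⟨q, hq, -, hqm⟩ := lifts_and_natDegree_eq_and_monic hl hP
      have h6 : IsIntegral (algebraicClosure (gdom G hG.inv) L1) x := by
        refine ⟨q, hqm, ?_⟩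
        rw [← eval_map, hq]
        exact hx
      exact isIntegral_trans x h6)
    exact ⟨x, z, hz, hx⟩

end Cm
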