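import Pool.Agent.Lib.MP_c35b50_lc.Cm.TFieldB

/-!
# Row B6: Weierstrass preparation for polynomials, integrality of minimal polynomials
-/

namespace Cm

open Polynomial

section adic

variable {A : Type*} [CommRing A] {I : Ideal A}

theorem b6_order {g : PowerSeries A} {s : ℕ} (h1 : ∀ i < s, PowerSeries.coeff i g ∈ I)
    (h2 : PowerSeries.coeff s g ∉ I) : (g.map (Ideal.Quotient.mk I)).order.toNat = s := by
  have h3 : (g.map (Ideal.Quotient.mk I)).order = s := by
    rw [PowerSeries.order_eq_nat]
    refine ⟨?_, fun i hi => ?_⟩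
    · rw [PowerSeries.coeff_map, Ne, Ideal.Quotient.eq_zero_iff_mem]
      exact h2
    · rw [PowerSeries.coeff_map, Ideal.Quotient.eq_zero_iff_mem]
      exact h1 i hi
  rw [h3]
  rfl

/-- Weierstrass preparation for polynomials over an adically complete ring. -/
theorem b6_prep [Nontrivial A] [IsAdicComplete I A] (f : A[X]) (s : ℕ)
    (hs : ∀ i < s, f.coeff i ∈ I) (hu : IsUnit (f.coeff s)) :
    ∃ P Q : A[X], f = P * Q ∧ P.Monic ∧ P.natDegree = s ∧ ∀ i < s, P.coeff i ∈ I := by
  have hI : I ≠ ⊤ := by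
    rintro rfl
    have := ‹IsAdicComplete ⊤ A›.toIsHausdorff.subsingleton
    exact not_subsingleton A this
  have hnu : ∀ x : A, IsUnit x → x ∉ I := fun x hx hxI => hI (Ideal.eq_top_of_isUnit_mem _ hxI hx)
  have hjac : I ≤ Ideal.jacobson ⊥ := IsAdicComplete.le_jacobson_bot I
  have hord : ((f : PowerSeries A).map (Ideal.Quotient.mk I)).order.toNat = s := by
    refine b6_order (fun i hi => ?_) ?_
    · rw [Polynomial.coeff_coe]
      exact hs i hi
    · rw [Polynomial.coeff_coe]
      exact hnu _ hu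
  have hdiv : (f : PowerSeries A).IsWeierstrassDivisorAt I := by
    unfold PowerSeries.IsWeierstrassDivisorAt
    rw [hord, Polynomial.coeff_coe]
    exact hu
  obtain ⟨q, r, hqr⟩ : ∃ q r, (((X : A[X]) ^ s : A[X]) : PowerSeries A).IsWeierstrassDivisionAt
      (f : PowerSeries A) q r I := ⟨_, _, hdiv.isWeierstrassDivisionAt_div_mod _⟩
  have hr : r.degree < s := by
    have := hqr.degree_lt
    rwa [hord] at this
  -- the distinguished polynomial
  obtain ⟨P, hP⟩ : ∃ P : A[X], P = X ^ s - r := ⟨_, rfl⟩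
  have hPm : P.Monic := by
    rw [hP, sub_eq_add_neg]
    exact monic_X_pow_add (by rwa [degree_neg])
  have hPd : P.natDegree = s := by
    rw [hP]
    apply natDegree_eq_of_degree_eq_some
    rw [degree_sub_eq_left_of_degree_lt, degree_X_pow]
    rwa [degree_X_pow]
  have hPI : ∀ i < s, P.coeff i ∈ I := by
    intro i hi
    have h1 := hqr.coeff_f_sub_r_mem (i := i) (by rwa [hord])
    rw [← Polynomial.coe_sub, Polynomial.coeff_coe, ← hP] at h1
    exact h1
  have hPq : (P : PowerSeries A) = f * q := by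
    rw [hP, Polynomial.coe_sub, hqr.eq_mul_add]
    ring
  -- `q` is a unit
  have hq : IsUnit q := by
    rw [PowerSeries.isUnit_iff_constantCoeff]
    have h1 : PowerSeries.coeff s (P : PowerSeries A) = 1 := by
      rw [Polynomial.coeff_coe]
      have := hPm.coeff_natDegree
      rwa [hPd] at this
    rw [hPq, PowerSeries.coeff_mul, Finset.Nat.sum_antidiagonal_eq_sum_range_succ_mk,
      Finset.sum_range_succ] at h1
    simp only [Nat.sub_self, Polynomial.coeff_coe, PowerSeries.coeff_zero_eq_constantCoeff] at h1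
    have h2 : ∑ x ∈ Finset.range s, f.coeff x * PowerSeries.coeff (s - x) q ∈ I :=
      Ideal.sum_mem _ fun x hx => Ideal.mul_mem_right _ _ (hs x (Finset.mem_range.1 hx))
    have h3 : IsUnit (f.coeff s * PowerSeries.constantCoeff q) := by
      have h4 : f.coeff s * PowerSeries.constantCoeff q =
          (-∑ x ∈ Finset.range s, f.coeff x * PowerSeries.coeff (s - x) q) * 1 + 1 := by
        linear_combination h1
      rw [h4]
      exact Ideal.mem_jacobson_bot.1 (hjac (I.neg_mem h2)) 1
    exact isUnit_of_mul_isUnit_right h3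
  obtain ⟨U, hU⟩ : ∃ U : PowerSeries A, q * U = 1 := hq.exists_right_inv
  have hfU : (f : PowerSeries A) = P * U := by
    rw [hPq, mul_assoc, hU, mul_one]
  -- polynomial division
  have hdm := modByMonic_add_div f P
  have hmod : (f %ₘ P).degree < s := by
    have h1 := degree_modByMonic_lt f hPm
    rwa [degree_eq_natDegree hPm.ne_zero, hPd] at h1
  have hordP : ((P : PowerSeries A).map (Ideal.Quotient.mk I)).order.toNat = s := by
    refine b6_order (fun i hi => ?_) ?_
    · rw [Polynomial.coeff_coe]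
      exact hPI i hi
    · rw [Polynomial.coeff_coe]
      have := hPm.coeff_natDegree
      rw [hPd] at this
      rw [this]
      exact hnu _ isUnit_one
  have hdivP : (P : PowerSeries A).IsWeierstrassDivisorAt I := by
    unfold PowerSeries.IsWeierstrassDivisorAt
    rw [hordP, Polynomial.coeff_coe]
    have := hPm.coeff_natDegree
    rw [hPd] at this
    rw [this]
    exact isUnit_one
  have hz : (P : PowerSeries A) * (U - (f /ₘ P : A[X])) = ((f %ₘ P : A[X]) : PowerSeries A) := by
    have h1 : (f : PowerSeries A) = ((f %ₘ P : A[X]) : PowerSeries A) + P * (f /ₘ P : A[X]) := by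
      rw [← Polynomial.coe_mul, ← Polynomial.coe_add, hdm]
    rw [mul_sub, ← hfU, h1]
    ring
  have hz0 := (hdivP.eq_zero_of_mul_eq (by rwa [hordP]) hz).2
  refine ⟨P, f /ₘ P, ?_, hPm, hPd, hPI⟩
  rw [hz0, zero_add] at hdm
  exact hdm.symm

end adic

section field

variable {R : Type} [CommRing R]

/-- the case where the coefficient of index `s` is one -/
theorem b6_prep_one {K : Type} [Field K] [TField R K] (f : K[X]) (hf : ∀ n, f.coeff n ∈ OO R K)
    (s : ℕ) (hs : ∀ n < s, f.coeff n ∈ mm R K) (hu : f.coeff s = 1) :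
    ∃ P Q : K[X], f = P * Q ∧ P.Monic ∧ P.natDegree = s ∧ (∀ n < s, P.coeff n ∈ mm R K) ∧
      ∀ n, Q.coeff n ∈ OO R K := by
  classical
  obtain ⟨N, hN⟩ : ∃ N, f.natDegree < s + 1 + N := ⟨f.natDegree, by omega⟩
  let a : Fin N → K := fun i => f.coeff (s + 1 + i)
  let b : Fin s → K := fun i => f.coeff i
  have hd : Dom R a b := ⟨fun i => hf _, fun j => hs _ j.2⟩
  let A : Type := S R (Fin N) (Fin s)
  let φ : A →+* K := evHom a b hd
  have hnt : Nontrivial A := φ.domain_nontrivial
  have hcomp : IsAdicComplete (rr R (Fin N) (Fin s)) A := isAdicComplete_kk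
  let F : A[X] := ∑ i : Fin s, C (rho i : S R (Fin N) (Fin s)) * X ^ (i : ℕ) + X ^ s +
    ∑ i : Fin N, C (xi i : S R (Fin N) (Fin s)) * X ^ (s + 1 + (i : ℕ))
  have hF1 : ∀ n (hn : n < s), F.coeff n = (rho ⟨n, hn⟩ : S R (Fin N) (Fin s)) := by
    intro n hn
    simp only [F, coeff_add, finsetSum_coeff, coeff_C_mul, coeff_X_pow]
    rw [Finset.sum_eq_single (⟨n, hn⟩ : Fin s), if_neg hn.ne, Finset.sum_eq_zero]
    · simp
    · intro i _
      rw [if_neg (by omega), mul_zero]
    · intro i _ hi
      rw [if_neg, mul_zero]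
      rintro rfl
      exact hi rfl
    · intro h
      exact absurd (Finset.mem_univ _) h
  have hF2 : F.coeff s = 1 := by
    simp only [F, coeff_add, finsetSum_coeff, coeff_C_mul, coeff_X_pow]
    rw [Finset.sum_eq_zero, Finset.sum_eq_zero]
    · simp
    · intro i _
      rw [if_neg (by omega), mul_zero]
    · intro i _
      have := i.2
      rw [if_neg (by omega), mul_zero]
  have hFm : F.map φ = f := by
    have h1 : F.map φ = ∑ i : Fin s, C (f.coeff i) * X ^ (i : ℕ) + X ^ s +
        ∑ i : Fin N, C (f.coeff (s + 1 + i)) * X ^ (s + 1 + (i : ℕ)) := by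
      simp only [F, Polynomial.map_add, Polynomial.map_sum, Polynomial.map_mul, map_C,
        Polynomial.map_pow, map_X]
      congr 1
      · congr 1
        refine Finset.sum_congr rfl fun i _ => ?_
        congr 2
        exact TRing.T_rho a b hd.1 hd.2 i
      · refine Finset.sum_congr rfl fun i _ => ?_
        congr 2
        exact TRing.T_xi a b hd.1 hd.2 i
    rw [h1, Fin.sum_univ_eq_sum_range (fun i => C (f.coeff i) * (X : K[X]) ^ i),
      Fin.sum_univ_eq_sum_range (fun i => C (f.coeff (s + 1 + i)) * (X : K[X]) ^ (s + 1 + i))]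
    conv_rhs => rw [f.as_sum_range' _ hN]
    rw [Finset.sum_range_add, Finset.sum_range_succ]
    simp only [C_mul_X_pow_eq_monomial, hu]
    congr 2
    rw [← C_mul_X_pow_eq_monomial, C_1, one_mul]
  obtain ⟨P, Q, hPQ, hPm, hPd, hPI⟩ := b6_prep (I := rr R (Fin N) (Fin s)) F s
    (fun i hi => by
      rw [hF1 i hi]
      exact MvPowerSeries.constantCoeff_X _) (by
      rw [hF2]
      exact isUnit_one)
  refine ⟨P.map φ, Q.map φ, ?_, hPm.map φ, ?_, fun n hn => ?_, fun n => ?_⟩
  · rw [← Polynomial.map_mul, ← hPQ, hFm]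
  · rw [hPm.natDegree_map, hPd]
  · rw [coeff_map]
    exact ev_mem_m _ (hPI n hn) a b hd
  · rw [coeff_map]
    exact TRing.T_mem _ a b hd.1 hd.2

variable {K : Type} [Field K] [TField R K]

theorem b6_inv_mem {x : K} (hx : x ∉ mm R K) (hO : x ∈ OO R K) : x⁻¹ ∈ OO R K := by
  by_contra h
  exact hx ((TField.m_iff x).2 ⟨hO, Or.inr h⟩)

theorem b6_ne_zero {x : K} (hx : x ∉ mm R K) : x ≠ 0 := by
  rintro rfl
  exact hx TRing.m_zero

theorem b6_one_not : (1 : K) ∉ mm R K := by
  intro h
  rcases ((TField.m_iff (R := R) (1 : K)).1 h).2 with h1 | h1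
  · exact one_ne_zero h1
  · rw [inv_one] at h1
    exact h1 (OO R K).one_mem

/-- Row B6: henselianity of T-fields in the form of Weierstrass preparation for polynomials. -/
theorem b6_prep_poly (f : K[X]) (hf : ∀ n, f.coeff n ∈ OO R K)
    (s : ℕ) (hs : ∀ n < s, f.coeff n ∈ mm R K) (hu : f.coeff s ∉ mm R K) :
    ∃ P Q : K[X], f = P * Q ∧ P.Monic ∧ P.natDegree = s ∧ (∀ n < s, P.coeff n ∈ mm R K) ∧
      ∀ n, Q.coeff n ∈ OO R K := by
  have hc0 := b6_ne_zero (R := R) hu
  have hcO := b6_inv_mem hu (hf s)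
  obtain ⟨P, Q, h1, h2, h3, h4, h5⟩ := b6_prep_one (R := R) (C (f.coeff s)⁻¹ * f)
    (fun n => by
      rw [coeff_C_mul]
      exact (OO R K).mul_mem hcO (hf n)) s
    (fun n hn => by
      rw [coeff_C_mul]
      exact TRing.m_mul _ hcO _ (hs n hn)) (by
      rw [coeff_C_mul]
      exact inv_mul_cancel₀ hc0)
  refine ⟨P, C (f.coeff s) * Q, ?_, h2, h3, h4, fun n => ?_⟩
  · have h6 : f = C (f.coeff s) * (C (f.coeff s)⁻¹ * f) := by
      rw [← mul_assoc, ← C_mul, mul_inv_cancel₀ hc0, C_1, one_mul]
    conv_lhs => rw [h6, h1]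
    ring
  · rw [coeff_C_mul]
    exact (OO R K).mul_mem (hf s) (h5 n)

theorem b6_irr {f P Q : K[X]} (hf : Irreducible f) (h : f = P * Q) :
    P.natDegree = 0 ∨ Q.natDegree = 0 := by
  rcases hf.isUnit_or_isUnit h with h1 | h1
  · exact Or.inl (natDegree_eq_zero_of_isUnit h1)
  · exact Or.inr (natDegree_eq_zero_of_isUnit h1)

variable {L : Type} [Field L] [TField R L]

theorem b6_sum_m (g : K[X]) (j : THom R K L) (x : L)
    (hx : (g.map j.toRingHom).eval x = 0)
    (h : ∀ n, j.toRingHom (g.coeff (n + 1)) * x ^ (n + 1) ∈ mm R L) :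
    j.toRingHom (g.coeff 0) ∈ mm R L := by
  rw [eval_eq_sum_range, Finset.sum_range_succ'] at hx
  simp only [coeff_map, pow_zero, mul_one] at hx
  have h1 : j.toRingHom (g.coeff 0) = (-1) * ∑ k ∈ Finset.range (g.map j.toRingHom).natDegree,
      j.toRingHom (g.coeff (k + 1)) * x ^ (k + 1) := by
    linear_combination hx
  rw [h1]
  exact TRing.m_mul _ ((OO R L).neg_mem (OO R L).one_mem) _ (sum_mem_m _ _ fun k _ => h k)

theorem b6_pow_mem {x : L} (hx : x ∈ OO R L) (n : ℕ) : x ^ n ∈ OO R L :=
  (OO R L).pow_mem hx n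

/-- an irreducible monic polynomial with a root in the valuation ring has coefficients in the
valuation ring -/
theorem b6_irr_O (f : K[X]) (hirr : Irreducible f) (hm : f.Monic) (j : THom R K L) (x : L)
    (hx : (f.map j.toRingHom).eval x = 0) (hO : x ∈ OO R L) (n : ℕ) : f.coeff n ∈ OO R K := by
  classical
  by_contra hn
  obtain ⟨v, hv⟩ : ∃ v : ℕ → (vs R K).ValueGroup, v = fun n => vv R K (f.coeff n) := ⟨_, rfl⟩
  have hvn : 1 < v n := by
    rw [hv, ← not_le]
    intro h
    exact hn ((vv_le_one_iff _).1 h)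
  have hv0 : ∀ m, f.natDegree < m → v m = 0 := by
    intro m hm'
    rw [hv]
    simp only
    rw [coeff_eq_zero_of_natDegree_lt hm', map_zero]
  have hnd : n ≤ f.natDegree := by
    by_contra h
    rw [hv0 n (not_le.1 h)] at hvn
    exact not_lt_zero hvn
  have hvd : v f.natDegree = 1 := by
    rw [hv]
    simp only
    rw [hm.coeff_natDegree, map_one]
  obtain ⟨k, hk, hkmax⟩ := Finset.exists_max_image (Finset.range (f.natDegree + 1)) v
    ⟨n, Finset.mem_range.2 (by omega)⟩
  have hne : ((Finset.range (f.natDegree + 1)).filter fun m => v m = v k).Nonempty :=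
    ⟨k, Finset.mem_filter.2 ⟨hk, rfl⟩⟩
  obtain ⟨s, hs⟩ : ∃ s, s = Finset.max' _ hne := ⟨_, rfl⟩
  have hs1 := Finset.max'_mem _ hne
  rw [← hs, Finset.mem_filter, Finset.mem_range] at hs1
  have hle : ∀ m, v m ≤ v s := by
    intro m
    rw [hs1.2]
    by_cases h : m < f.natDegree + 1
    · exact hkmax m (Finset.mem_range.2 h)
    · rw [hv0 m (by omega)]
      exact zero_le
  have hlt : ∀ m, s < m → v m < v s := by
    intro m hm'
    refine lt_of_le_of_ne (hle m) fun h => ?_
    by_cases h' : m < f.natDegree + 1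
    · have h2 := Finset.le_max' ((Finset.range (f.natDegree + 1)).filter fun m => v m = v k) m
        (Finset.mem_filter.2 ⟨Finset.mem_range.2 h', h.trans hs1.2⟩)
      rw [← hs] at h2
      omega
    · rw [hv0 m (by omega)] at h
      have := hvn.trans_le (hle n)
      rw [← h] at this
      exact not_lt_zero this
  have hvs : 1 < v s := hvn.trans_le (hle n)
  have hsd : s < f.natDegree := by
    refine lt_of_le_of_ne (by omega) ?_
    rintro rfl
    rw [hvd] at hvs
    exact lt_irrefl _ hvs
  have hc0 : f.coeff s ≠ 0 := by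
    intro h
    rw [hv] at hvs
    simp only at hvs
    rw [h, map_zero] at hvs
    exact not_lt_zero hvs
  obtain ⟨g, hg⟩ : ∃ g, g = C (f.coeff s)⁻¹ * f := ⟨_, rfl⟩
  have hgc : ∀ m, g.coeff m = (f.coeff s)⁻¹ * f.coeff m := fun m => by rw [hg, coeff_C_mul]
  have hvg : ∀ m, vv R K (g.coeff m) = (v s)⁻¹ * v m := by
    intro m
    rw [hgc, map_mul, map_inv₀, hv]
  have hvs0 : v s ≠ 0 := by
    intro h
    rw [h] at hvs
    exact not_lt_zero hvs
  have hgO : ∀ m, g.coeff m ∈ OO R K := by
    intro m
    rw [← vv_le_one_iff, hvg, ← inv_mul_cancel₀ hvs0]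
    exact mul_le_mul_right (hle m) _
  have hgm : ∀ m, s < m → g.coeff m ∈ mm R K := by
    intro m hm'
    rw [← vv_lt_one_iff, hvg, ← inv_mul_cancel₀ hvs0]
    exact mul_lt_mul_of_pos_left (hlt m hm') (zero_lt_iff.2 (inv_ne_zero hvs0))
  have hgs : g.coeff s = 1 := by rw [hgc, inv_mul_cancel₀ hc0]
  have hfg : f = C (f.coeff s) * g := by
    rw [hg, ← mul_assoc, ← C_mul, mul_inv_cancel₀ hc0, C_1, one_mul]
  have hgd : g.natDegree = f.natDegree := by
    rw [hg, natDegree_C_mul (inv_ne_zero hc0)]
  rcases Nat.eq_zero_or_pos s with h0 | h0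
  · -- the largest coefficient is the constant one
    have hgx : (g.map j.toRingHom).eval x = 0 := by
      rw [hg, Polynomial.map_mul, eval_mul, hx, mul_zero]
    have h1 := b6_sum_m g j x hgx fun m => by
      rw [mul_comm]
      exact TRing.m_mul _ (b6_pow_mem hO _) _ ((j.map_m _).1 (hgm _ (by omega)))
    rw [h0] at hgs
    rw [hgs, map_one] at h1
    exact b6_one_not h1
  · -- factor the reversed polynomial
    have hrev : ∀ m ≤ f.natDegree, g.reverse.coeff m = g.coeff (f.natDegree - m) := by
      intro m hm'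
      rw [coeff_reverse, hgd, revAt_le hm']
    have hrev' : ∀ m, f.natDegree < m → g.reverse.coeff m = 0 := by
      intro m hm'
      apply coeff_eq_zero_of_natDegree_lt
      have := g.reverse_natDegree_le
      omega
    obtain ⟨P, Q, hPQ, hPm, hPd, -, -⟩ := b6_prep_poly (R := R) g.reverse (fun m => by
      by_cases h : m ≤ f.natDegree
      · rw [hrev m h]
        exact hgO _
      · rw [hrev' m (by omega)]
        exact (OO R K).zero_mem) (f.natDegree - s) (fun m hm' => by
      rw [hrev m (by omega)]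
      exact hgm _ (by omega)) (by
      rw [hrev _ (by omega), Nat.sub_sub_self hsd.le, hgs]
      exact b6_one_not)
    have hrd : g.reverse.coeff 0 ≠ 0 := by
      rw [hrev 0 (Nat.zero_le _), Nat.sub_zero, hgc, hm.coeff_natDegree, mul_one]
      exact inv_ne_zero hc0
    have hf0 : f.coeff 0 ≠ 0 := by
      intro h
      have h1 : (X : K[X]) ∣ f := X_dvd_iff.2 h
      obtain ⟨q, hq⟩ := h1
      rcases b6_irr hirr hq with h2 | h2
      · rw [natDegree_X] at h2
        exact one_ne_zero h2
      · have h3 : f.natDegree = 1 + 0 := by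
          have hq0 : q ≠ 0 := by
            rintro rfl
            rw [mul_zero] at hq
            exact hm.ne_zero hq
          rw [hq, natDegree_mul X_ne_zero hq0, natDegree_X, h2]
        omega
    have hg0 : g.coeff 0 ≠ 0 := by
      rw [hgc]
      exact mul_ne_zero (inv_ne_zero hc0) hf0
    have hgt : g.natTrailingDegree = 0 := by
      rw [natTrailingDegree_eq_zero]
      exact Or.inr hg0
    have hrn : g.reverse.natDegree = f.natDegree := by
      rw [reverse_natDegree, hgt, hgd, Nat.sub_zero]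
    have hrr : g.reverse.reverse = g := by
      ext m
      by_cases h : m ≤ f.natDegree
      · rw [coeff_reverse, hrn, revAt_le h, hrev _ (by omega), Nat.sub_sub_self h]
      · rw [coeff_eq_zero_of_natDegree_lt, coeff_eq_zero_of_natDegree_lt]
        · omega
        · have := g.reverse.reverse_natDegree_le
          omega
    have hgf : f = (C (f.coeff s) * P.reverse) * Q.reverse := by
      rw [mul_assoc, ← reverse_mul_of_domain, ← hPQ, hrr]
      exact hfg
    have hQ0 : Q ≠ 0 := by
      rintro rfl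
      rw [mul_zero] at hPQ
      rw [hPQ] at hrd
      exact hrd (coeff_zero 0)
    have hQd : Q.natDegree = s := by
      have h1 : g.reverse.natDegree = P.natDegree + Q.natDegree := by
        rw [hPQ, natDegree_mul hPm.ne_zero hQ0]
      omega
    have hdeg : f.natDegree = (C (f.coeff s) * P.reverse).natDegree + Q.reverse.natDegree := by
      conv_lhs => rw [hgf]
      refine natDegree_mul (mul_ne_zero (C_ne_zero.2 hc0) ?_) ?_
      · rw [Ne, reverse_eq_zero]
        exact hPm.ne_zero
      · rw [Ne, reverse_eq_zero]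
        exact hQ0
    rw [natDegree_C_mul hc0] at hdeg
    have h1 := P.reverse_natDegree_le
    have h2 := Q.reverse_natDegree_le
    rcases b6_irr hirr hgf with h3 | h3
    · rw [natDegree_C_mul hc0] at h3
      omega
    · omega

/-- an irreducible monic polynomial with a root in the maximal ideal has lower coefficients in the
maximal ideal -/
theorem b6_irr_m (f : K[X]) (hirr : Irreducible f) (hm : f.Monic) (j : THom R K L) (x : L)
    (hx : (f.map j.toRingHom).eval x = 0) (hxm : x ∈ mm R L) (n : ℕ) (hn : n < f.natDegree) :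
    f.coeff n ∈ mm R K := by
  classical
  have hfO := b6_irr_O f hirr hm j x hx (TRing.m_le _ hxm)
  have hex : ∃ m, f.coeff m ∉ mm R K := ⟨f.natDegree, by
    rw [hm.coeff_natDegree]
    exact b6_one_not⟩
  by_contra hcon
  have hs1 := Nat.find_spec hex
  have hs2 : ∀ m < Nat.find hex, f.coeff m ∈ mm R K := fun m hm' => by
    have := Nat.find_min hex hm'
    rwa [not_not] at this
  obtain ⟨s, hs⟩ : ∃ s, s = Nat.find hex := ⟨_, rfl⟩
  have hsn : s ≤ n := by
    rw [hs]
    exact Nat.find_min' hex hcon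
  rw [← hs] at hs1 hs2
  rcases Nat.eq_zero_or_pos s with h0 | h0
  · rw [h0] at hs1
    apply hs1
    rw [j.map_m]
    refine b6_sum_m f j x hx fun m => ?_
    refine TRing.m_mul _ ((j.map_O _).1 (hfO _)) _ ?_
    rw [pow_succ]
    exact TRing.m_mul _ (b6_pow_mem (TRing.m_le _ hxm) _) _ hxm
  · obtain ⟨P, Q, hPQ, hPm, hPd, -, -⟩ := b6_prep_poly (R := R) f hfO s hs2 hs1
    have hQ0 : Q ≠ 0 := by
      rintro rfl
      rw [mul_zero] at hPQ
      exact hm.ne_zero hPQ
    have h1 : f.natDegree = P.natDegree + Q.natDegree := by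
      conv_lhs => rw [hPQ]
      exact natDegree_mul hPm.ne_zero hQ0
    rcases b6_irr hirr hPQ with h2 | h2 <;> omega

theorem b6_coeff_mem_O {E : Subfield L} (hE : TClosed R E)
    (x : L) (hx : IsIntegral E x) (hO : x ∈ OO R L) (n : ℕ) :
    (((minpoly E x).coeff n : E) : L) ∈ OO R L := by
  let _ := hE.tfield
  exact b6_irr_O (R := R) (minpoly E x) (minpoly.irreducible hx) (minpoly.monic hx) hE.incl x (by
    have h := minpoly.aeval E x
    rw [aeval_def, eval₂_eq_eval_map] at h
    exact h) hO n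

theorem b6_coeff_mem_m {E : Subfield L} (hE : TClosed R E)
    (x : L) (hx : IsIntegral E x) (hO : x ∈ mm R L) (n : ℕ) (hn : n < (minpoly E x).natDegree) :
    (((minpoly E x).coeff n : E) : L) ∈ mm R L := by
  let _ := hE.tfield
  exact b6_irr_m (R := R) (minpoly E x) (minpoly.irreducible hx) (minpoly.monic hx) hE.incl x (by
    have h := minpoly.aeval E x
    rw [aeval_def, eval₂_eq_eval_map] at h
    exact h) hO n hn

end field

end Cm
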