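import Pool.Agent.Lib.MP_c35b50_lc.Cm.RenL
import Pool.Agent.Lib.MP_c35b50_lc.Cm.AdicA

/-! # Row A6: domination of coefficients, power series variables -/

namespace Cm

/-- In a noetherian ring each sequence lies in the ideal generated by finitely many of its initial terms. -/
theorem exists_initial_span {A : Type} [CommRing A] [IsNoetherianRing A] (g : ℕ → A) :
    ∃ d : ℕ, ∀ i, ∃ c : ℕ → A, g i = ∑ j ∈ Finset.range (d + 1), c j * g j := by
  have hmono : Monotone (fun n : ℕ => Ideal.span (g '' Set.Iic n)) := by
    intro a b hab
    exact Ideal.span_mono (Set.image_mono (Set.Iic_subset_Iic.mpr hab))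
  obtain ⟨d, hd⟩ := monotone_stabilizes_iff_noetherian.mpr (inferInstance : IsNoetherian A A) ⟨_, hmono⟩
  refine ⟨d, fun i => ?_⟩
  have hi : g i ∈ Ideal.span (g '' Set.Iic d) := by
    have h1 : g i ∈ Ideal.span (g '' Set.Iic (max d i)) :=
      Ideal.subset_span ⟨i, le_max_right d i, rfl⟩
    have h2 := hd (max d i) (le_max_left d i)
    have h3 : Ideal.span (g '' Set.Iic d) = Ideal.span (g '' Set.Iic (max d i)) := h2
    rw [h3]; exact h1
  have hset : g '' Set.Iic d = Set.range (fun j : Fin (d + 1) => g j) := by
    ext x
    constructor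
    · rintro ⟨j, hj, rfl⟩
      exact ⟨⟨j, Nat.lt_succ_of_le hj⟩, rfl⟩
    · rintro ⟨j, rfl⟩
      exact ⟨j, Nat.lt_succ_iff.mp j.2, rfl⟩
  rw [hset, Ideal.mem_span_range_iff_exists_fun] at hi
  obtain ⟨c, hc⟩ := hi
  refine ⟨fun j => if h : j < d + 1 then c ⟨j, h⟩ else 0, ?_⟩
  rw [← hc, Finset.sum_range]
  refine Finset.sum_congr rfl (fun j _ => ?_)
  show c j * g j = (if h : (j : ℕ) < d + 1 then c ⟨j, h⟩ else 0) * g j
  rw [dif_pos j.2]

open PowerSeries in
/-- In a power series over a noetherian ring finitely many coefficients dominate. -/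
theorem dom_power {A : Type} [CommRing A] [IsNoetherianRing A] (f : PowerSeries A) :
    ∃ (d : ℕ) (w : ℕ → PowerSeries A), (∀ j, constantCoeff (w j) = 0) ∧
      f = ∑ j ∈ Finset.range d, C (coeff j f) * X ^ j * (1 + w j) := by
  obtain ⟨d, hd⟩ := exists_initial_span (fun i => PowerSeries.coeff i f)
  choose c hc using hd
  refine ⟨d + 1, fun j => PowerSeries.mk (fun n => if d < n + j ∧ j ≤ d then c (n + j) j else 0), ?_, ?_⟩
  · intro j
    rw [← PowerSeries.coeff_zero_eq_constantCoeff_apply, PowerSeries.coeff_mk, if_neg]
    omega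
  · ext i
    rw [map_sum]
    have hterm : ∀ j ∈ Finset.range (d + 1), PowerSeries.coeff i
        (PowerSeries.C (PowerSeries.coeff j f) * PowerSeries.X ^ j *
          (1 + PowerSeries.mk (fun n => if d < n + j ∧ j ≤ d then c (n + j) j else 0))) =
        if i ≤ d then (if j = i then PowerSeries.coeff j f else 0) else c i j * PowerSeries.coeff j f := by
      intro j hj
      rw [Finset.mem_range] at hj
      rw [mul_assoc, PowerSeries.coeff_C_mul, PowerSeries.coeff_X_pow_mul']
      by_cases hji : j ≤ i
      · rw [if_pos hji, map_add, PowerSeries.coeff_one, PowerSeries.coeff_mk]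
        by_cases hid : i ≤ d
        · rw [if_pos hid]
          by_cases hji2 : j = i
          · rw [if_pos hji2, if_pos (by omega), if_neg (by omega)]; ring
          · rw [if_neg hji2, if_neg (by omega), if_neg (by omega)]; ring
        · rw [if_neg hid, if_neg (by omega), if_pos (by omega)]
          have : i - j + j = i := by omega
          rw [this]; ring
      · rw [if_neg hji, mul_zero, if_pos (by omega), if_neg (by omega)]
    rw [Finset.sum_congr rfl hterm]
    by_cases hid : i ≤ d
    · simp only [if_pos hid]
      rw [Finset.sum_ite_eq' (Finset.range (d + 1)) i, if_pos (by rw [Finset.mem_range]; omega)]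
    · simp only [if_neg hid]
      exact hc i

variable {R : Type} [CommRing R] {s t : Type} [Finite t]

/-- the coefficients of `F : S R s (Option t)` with respect to the variable `rho none` -/
noncomputable def rcoeff (n : ℕ) (F : S R s (Option t)) : S R s t :=
  PowerSeries.coeff n (MvPowerSeries.optionEquivLeft t (MvPolynomial s R) F)

/-- The series in the remaining variables are the constants of `optionEquivLeft`. -/
theorem optionEquivLeft_rename {A : Type} [CommRing A] (a : MvPowerSeries t A) :
    MvPowerSeries.optionEquivLeft t A (MvPowerSeries.rename some a) = PowerSeries.C a := by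
  classical
  ext n τ
  rw [MvPowerSeries.coeff_coeff_optionEquivLeft, PowerSeries.coeff_C]
  by_cases hn : n = 0
  · subst hn
    rw [if_pos rfl]
    have h1 : (τ.optionElim 0 : Option t →₀ ℕ) = Finsupp.embDomain Function.Embedding.some τ := by
      ext o
      cases o with
      | none => 
        rw [Finsupp.embDomain_of_notMem_range]
        · simp
        · simp
      | some j =>
        have := Finsupp.embDomain_apply_self Function.Embedding.some τ j
        simp
    rw [h1]
    exact MvPowerSeries.coeff_embDomain_rename Function.Embedding.some a τ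
  · rw [if_neg hn, map_zero]
    apply MvPowerSeries.coeff_rename_eq_zero
    rintro ⟨τ', h⟩
    apply hn
    have h2 := DFunLike.congr_fun h none
    rw [Finsupp.mapDomain_of_notMem_range] at h2
    · simpa using h2.symm
    · simp

theorem ren_id_some (a : S R s t) : (ren id some a : S R s (Option t)) = MvPowerSeries.rename some a := by
  rw [ren_apply]
  have e : (MvPolynomial.rename id : MvPolynomial s R →ₐ[R] MvPolynomial s R).toRingHom =
      RingHom.id _ := RingHom.ext fun q => MvPolynomial.rename_id_apply q
  rw [e, MvPowerSeries.map_id]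
  rfl

theorem dom_rho [IsNoetherianRing R] [Finite s] (F : S R s (Option t)) :
    ∃ (d : ℕ) (w : ℕ → S R s (Option t)), (∀ j, w j ∈ Ideal.span {(rho none : S R s (Option t))}) ∧
      F = ∑ j ∈ Finset.range d, ren id some (rcoeff j F) * rho none ^ j * (1 + w j) := by
  obtain ⟨d, w, hw, hg⟩ := dom_power (MvPowerSeries.optionEquivLeft t (MvPolynomial s R) F)
  have hX : ∀ j, ∃ w', w j = PowerSeries.X * w' := by
    intro j
    exact PowerSeries.X_dvd_iff.mpr (hw j)
  choose w' hw' using hX
  refine ⟨d, fun j => rho none * (MvPowerSeries.optionEquivLeft t (MvPolynomial s R)).symm (w' j), ?_, ?_⟩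
  · intro j
    exact Ideal.mul_mem_right _ _ (Ideal.subset_span rfl)
  · apply (MvPowerSeries.optionEquivLeft t (MvPolynomial s R)).injective
    rw [map_sum]
    conv_lhs => rw [hg]
    refine Finset.sum_congr rfl (fun j _ => ?_)
    rw [ren_id_some]
    unfold rho rcoeff
    rw [map_mul, map_mul, map_pow, map_add, map_mul, map_one, MvPowerSeries.optionEquivLeft_X_none,
      optionEquivLeft_rename, AlgEquiv.apply_symm_apply, ← hw']

end Cm
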