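import Pool.Agent.Lib.MP_c35b50_lc.Cm.TBasic
import Pool.Agent.Lib.MP_c35b50_lc.Cm.DomRho

/-! # Row B7: division by a monic or distinguished polynomial -/

namespace Cm

open Polynomial


/-- a polynomial of degree less than `d` as a sum -/
theorem poly_eq_sum_fin {A : Type} [CommRing A] (d : ℕ) (p : A[X]) (h : ∀ n, d ≤ n → p.coeff n = 0) :
    p = ∑ i : Fin d, C (p.coeff i) * X ^ (i : ℕ) := by
  ext n
  rw [finsetSum_coeff, Fin.sum_univ_eq_sum_range (fun i => (C (p.coeff i) * X ^ i : A[X]).coeff n) d]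
  by_cases hn : n < d
  · rw [Finset.sum_eq_single n]
    · rw [coeff_C_mul, coeff_X_pow, if_pos rfl, mul_one]
    · intro m _ hm
      rw [coeff_C_mul, coeff_X_pow, if_neg (Ne.symm hm), mul_zero]
    · intro h'
      exact absurd (Finset.mem_range.2 hn) h'
  · rw [h n (not_lt.1 hn)]
    symm
    refine Finset.sum_eq_zero fun m hm => ?_
    have : n ≠ m := by
      have := Finset.mem_range.1 hm
      omega
    rw [coeff_C_mul, coeff_X_pow, if_neg this, mul_zero]

/-- the monic polynomial with lower coefficients `c` -/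
noncomputable def mpol {A : Type} [CommRing A] {d : ℕ} (c : Fin d → A) : A[X] :=
  X ^ d + ∑ i, C (c i) * X ^ (i : ℕ)

theorem mpol_monic {A : Type} [CommRing A] {d : ℕ} (c : Fin d → A) : (mpol c).Monic :=
  monic_X_pow_add (degree_sum_fin_lt c)

theorem mpol_natDegree {A : Type} [CommRing A] [Nontrivial A] {d : ℕ} (c : Fin d → A) :
    (mpol c).natDegree = d := by
  unfold mpol
  refine natDegree_eq_of_degree_eq_some ?_
  rw [degree_add_eq_left_of_degree_lt, degree_X_pow]
  rw [degree_X_pow]
  exact degree_sum_fin_lt c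

theorem mpol_coeff {A : Type} [CommRing A] {d : ℕ} (c : Fin d → A) (i : Fin d) :
    (mpol c).coeff i = c i := by
  unfold mpol
  rw [coeff_add, coeff_X_pow, if_neg (ne_of_lt i.2), zero_add, finsetSum_coeff,
    Finset.sum_eq_single i]
  · rw [coeff_C_mul, coeff_X_pow, if_pos rfl, mul_one]
  · intro j _ hj
    rw [coeff_C_mul, coeff_X_pow, if_neg (fun e => hj (Fin.ext e.symm)), mul_zero]
  · intro h
    exact absurd (Finset.mem_univ i) h

theorem exists_div_mpol {A : Type} [CommRing A] {d : ℕ} (c : Fin d → A) (f : A[X]) :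
    ∃ (q : A[X]) (r : Fin d → A), f = mpol c * q + ∑ i, C (r i) * X ^ (i : ℕ) := by
  rcases subsingleton_or_nontrivial A with h | h
  · exact ⟨0, 0, Subsingleton.elim _ _⟩
  · have h1 := modByMonic_add_div f (mpol c)
    refine ⟨f /ₘ mpol c, fun i => (f %ₘ mpol c).coeff i, ?_⟩
    rw [← poly_eq_sum_fin d (f %ₘ mpol c), add_comm]
    · exact h1.symm
    · intro n hn
      refine coeff_eq_zero_of_degree_lt (lt_of_lt_of_le (degree_modByMonic_lt f (mpol_monic c)) ?_)
      rw [degree_eq_natDegree (mpol_monic c).ne_zero, mpol_natDegree]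
      exact_mod_cast hn

section

variable {R : Type} [CommRing R] {s t : Type} [Finite s] [Finite t]

theorem coeff_ren_id {s s' : Type} (f : s → s') (F : S R s t) (κ : t →₀ ℕ) :
    MvPowerSeries.coeff κ (ren f id F : S R s' t) =
      MvPolynomial.rename f (MvPowerSeries.coeff κ F) := by
  rw [ren_apply, MvPowerSeries.rename_id]
  rfl

theorem optionEquivLeft_rename_some {u : Type} (p : MvPolynomial u R) :
    MvPolynomial.optionEquivLeft R u (MvPolynomial.rename some p) = Polynomial.C p := by
  induction p using MvPolynomial.induction_on with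
  | C a => rw [MvPolynomial.rename_C, MvPolynomial.optionEquivLeft_C]
  | add p q hp hq => rw [map_add, map_add, hp, hq, Polynomial.C_add]
  | mul_X p i hp =>
    rw [map_mul, map_mul, hp, MvPolynomial.rename_X, MvPolynomial.optionEquivLeft_X_some,
      Polynomial.C_mul]

theorem exists_div_mv {s : Type} (d : ℕ) (p : MvPolynomial (Option s) R) :
    ∃ (q : MvPolynomial (Option (Fin d ⊕ s)) R) (r : Fin d → MvPolynomial (Fin d ⊕ s) R),
      MvPolynomial.rename (Option.map (Sum.inr : s → Fin d ⊕ s)) p =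
        (MvPolynomial.X none ^ d + ∑ i : Fin d, MvPolynomial.X (some (Sum.inl i)) *
          MvPolynomial.X none ^ (i : ℕ)) * q +
        ∑ i, MvPolynomial.rename some (r i) * MvPolynomial.X none ^ (i : ℕ) := by
  obtain ⟨q, r, h⟩ := exists_div_mpol
    (fun i : Fin d => (MvPolynomial.X (Sum.inl i) : MvPolynomial (Fin d ⊕ s) R))
    (MvPolynomial.optionEquivLeft R (Fin d ⊕ s)
      (MvPolynomial.rename (Option.map (Sum.inr : s → Fin d ⊕ s)) p))
  generalize MvPolynomial.rename (Option.map (Sum.inr : s → Fin d ⊕ s)) p = p' at h ⊢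
  refine ⟨(MvPolynomial.optionEquivLeft R (Fin d ⊕ s)).symm q, r, ?_⟩
  apply (MvPolynomial.optionEquivLeft R (Fin d ⊕ s)).injective
  refine h.trans ?_
  unfold mpol
  simp only [map_add, map_mul, map_sum, map_pow, AlgEquiv.apply_symm_apply,
    MvPolynomial.optionEquivLeft_X_none, MvPolynomial.optionEquivLeft_X_some,
    optionEquivLeft_rename_some]

/-- Row B7: division by a monic polynomial, variable of the first kind. -/
theorem div_xi_aux (d : ℕ) (F : S R (Option s) t) :
    ∃ F' : Fin d → S R (Fin d ⊕ s) t, ∀ (A : Type) [CommRing A] [TRing R A] (x : A)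
      (c : Fin d → A) (a : s → A) (b : t → A), x ∈ OO R A → (∀ i, c i ∈ OO R A) → Dom R a b →
      x ^ d + ∑ i, c i * x ^ (i : ℕ) = 0 →
      ev F (oc x a) b = ∑ i, ev (F' i) (Sum.elim c a) b * x ^ (i : ℕ) := by
  classical
  choose q r hqr using fun κ : t →₀ ℕ => exists_div_mv d (MvPowerSeries.coeff κ F)
  set Q : S R (Option (Fin d ⊕ s)) t := fun κ => q κ with hQ
  set F' : Fin d → S R (Fin d ⊕ s) t := fun i κ => r κ i with hF'
  have hQc : ∀ κ, MvPowerSeries.coeff κ Q = q κ := fun κ => rfl
  have hFc : ∀ i κ, MvPowerSeries.coeff κ (F' i) = r κ i := fun i κ => rfl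
  have hid : ren (Option.map (Sum.inr : s → Fin d ⊕ s)) id F =
      (xi none ^ d + ∑ i : Fin d, xi (some (Sum.inl i)) * xi none ^ (i : ℕ)) * Q +
        ∑ i, ren some id (F' i) * xi none ^ (i : ℕ) := by
    have e1 : (xi none ^ d + ∑ i : Fin d, xi (some (Sum.inl i)) * xi none ^ (i : ℕ) :
        S R (Option (Fin d ⊕ s)) t) = MvPowerSeries.C (MvPolynomial.X none ^ d +
          ∑ i : Fin d, MvPolynomial.X (some (Sum.inl i)) * MvPolynomial.X none ^ (i : ℕ)) := by
      rw [map_add, map_pow, map_sum]
      simp only [map_mul, map_pow]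
      rfl
    refine MvPowerSeries.ext fun κ => ?_
    rw [coeff_ren_id, hqr κ, e1, map_add, MvPowerSeries.coeff_C_mul, hQc, map_sum]
    congr 1
    refine Finset.sum_congr rfl fun i _ => ?_
    have e2 : (xi none ^ (i : ℕ) : S R (Option (Fin d ⊕ s)) t) =
        MvPowerSeries.C (MvPolynomial.X none ^ (i : ℕ)) := by
      rw [map_pow]
      rfl
    rw [e2, MvPowerSeries.coeff_mul_C, coeff_ren_id, hFc]
  refine ⟨F', fun A _ _ x c a b hx hc hab h0 => ?_⟩
  have hd : Dom R (oc x (Sum.elim c a)) b := by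
    refine ⟨?_, hab.2⟩
    rintro (_ | (i | i))
    · exact hx
    · exact hc i
    · exact hab.1 i
  have h1 : ev F (oc x a) b = evHom (oc x (Sum.elim c a)) b hd
      (ren (Option.map (Sum.inr : s → Fin d ⊕ s)) id F) := by
    have := TRing.T_ren (Option.map (Sum.inr : s → Fin d ⊕ s)) id F (oc x (Sum.elim c a)) b
      hd.1 hd.2
    rw [evHom_apply, show ev (ren (Option.map (Sum.inr : s → Fin d ⊕ s)) id F)
      (oc x (Sum.elim c a)) b = _ from this]
    congr 1
    funext o
    cases o <;> rfl
  have hxi : ∀ j, evHom (R := R) (oc x (Sum.elim c a)) b hd (xi j) = oc x (Sum.elim c a) j :=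
    fun j => TRing.T_xi _ _ hd.1 hd.2 j
  have hF : ∀ i, evHom (R := R) (oc x (Sum.elim c a)) b hd (ren some id (F' i)) =
      ev (F' i) (Sum.elim c a) b := by
    intro i
    exact TRing.T_ren some id (F' i) (oc x (Sum.elim c a)) b hd.1 hd.2
  rw [h1, hid, map_add, map_mul, map_add, map_pow, map_sum, map_sum, hxi]
  simp only [map_mul, map_pow, hxi, hF, oc_none, oc_some, Sum.elim_inl]
  rw [h0, zero_mul, zero_add]

/-- Row B7: division by a distinguished polynomial, variable of the second kind. -/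
theorem div_rho_aux (d : ℕ) (F : S R s (Option t)) :
    ∃ F' : Fin d → S R s (Fin d ⊕ t), ∀ (A : Type) [CommRing A] [TRing R A] (x : A)
      (c : Fin d → A) (a : s → A) (b : t → A), x ∈ mm R A → (∀ i, c i ∈ mm R A) → Dom R a b →
      x ^ d + ∑ i, c i * x ^ (i : ℕ) = 0 →
      ev F a (oc x b) = ∑ i, ev (F' i) a (Sum.elim c b) * x ^ (i : ℕ) := by
  classical
  set E := MvPowerSeries.optionEquivLeft (Fin d ⊕ t) (MvPolynomial s R) with hE
  set I := kk (MvPolynomial s R) (Fin d ⊕ t) with hI
  set g0 : (S R s (Fin d ⊕ t))[X] := mpol (fun i : Fin d => (rho (Sum.inl i) : S R s (Fin d ⊕ t)))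
    with hg0
  have hrho : ∀ j, (rho j : S R s (Fin d ⊕ t)) ∈ I := by
    intro j
    rw [hI, kk, RingHom.mem_ker]
    exact MvPowerSeries.constantCoeff_X j
  have hcoe : (g0 : PowerSeries (S R s (Fin d ⊕ t))) = PowerSeries.X ^ d +
      ∑ i : Fin d, PowerSeries.C (rho (Sum.inl i) : S R s (Fin d ⊕ t)) *
        PowerSeries.X ^ (i : ℕ) := by
    rw [← Polynomial.coeToPowerSeries.ringHom_apply, hg0, mpol]
    simp only [map_add, map_sum, map_mul, map_pow, Polynomial.coeToPowerSeries.ringHom_apply,
      Polynomial.coe_X, Polynomial.coe_C]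
  have hdist : g0.IsDistinguishedAt I := by
    rcases subsingleton_or_nontrivial (S R s (Fin d ⊕ t)) with h | h
    · refine ⟨⟨fun {n} _ => ?_⟩, mpol_monic _⟩
      rw [Subsingleton.elim (g0.coeff n) 0]
      exact Ideal.zero_mem _
    · refine ⟨⟨fun {n} hn => ?_⟩, mpol_monic _⟩
      rw [hg0, mpol_natDegree] at hn
      rw [hg0, show n = ((⟨n, hn⟩ : Fin d) : ℕ) from rfl, mpol_coeff]
      exact hrho _
  have hcpl : IsAdicComplete I (S R s (Fin d ⊕ t)) := isAdicComplete_kk
  have hW : PowerSeries.IsWeierstrassDivisorAt (g0 : PowerSeries (S R s (Fin d ⊕ t))) I :=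
    hdist.isWeierstrassDivisorAt'
  have H := hW.isWeierstrassDivisionAt_div_mod
    (E (ren id (Option.map (Sum.inr : t → Fin d ⊕ t)) F))
  set q := hW.div (E (ren id (Option.map (Sum.inr : t → Fin d ⊕ t)) F)) with hq
  set r := hW.mod (E (ren id (Option.map (Sum.inr : t → Fin d ⊕ t)) F)) with hr
  have hord : (PowerSeries.map (Ideal.Quotient.mk I)
      (g0 : PowerSeries (S R s (Fin d ⊕ t)))).order.toNat ≤ d := by
    by_cases h : PowerSeries.coeff d (PowerSeries.map (Ideal.Quotient.mk I)
      (g0 : PowerSeries (S R s (Fin d ⊕ t)))) = 0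
    · have h1 : (Ideal.Quotient.mk I) (1 : S R s (Fin d ⊕ t)) = 0 := by
        rw [PowerSeries.coeff_map, Polynomial.coeff_coe] at h
        have h2 : g0.coeff d = 1 := by
          rcases subsingleton_or_nontrivial (S R s (Fin d ⊕ t)) with h' | h'
          · exact Subsingleton.elim _ _
          · have := (mpol_monic (fun i : Fin d => (rho (Sum.inl i) : S R s (Fin d ⊕ t))))
            rw [Monic, leadingCoeff, mpol_natDegree] at this
            exact this
        rwa [h2] at h
      have h3 : Subsingleton (S R s (Fin d ⊕ t) ⧸ I) := by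
        refine subsingleton_of_zero_eq_one ?_
        rw [← h1, map_one]
      have h4 : PowerSeries.map (Ideal.Quotient.mk I)
          (g0 : PowerSeries (S R s (Fin d ⊕ t))) = 0 := by
        ext n
        exact Subsingleton.elim _ _
      rw [h4, PowerSeries.order_zero]
      exact Nat.zero_le d
    · have h1 := PowerSeries.order_le d h
      exact ENat.toNat_le_of_le_natCast h1
  have hrdeg : ∀ n, d ≤ n → r.coeff n = 0 := by
    intro n hn
    refine coeff_eq_zero_of_degree_lt (lt_of_lt_of_le H.degree_lt ?_)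
    exact_mod_cast hord.trans hn
  refine ⟨fun i => r.coeff i, fun A _ _ x c a b hx hc hab h0 => ?_⟩
  have hid : ren id (Option.map (Sum.inr : t → Fin d ⊕ t)) F =
      (rho none ^ d + ∑ i : Fin d, rho (some (Sum.inl i)) * rho none ^ (i : ℕ)) * E.symm q +
        ∑ i : Fin d, ren id some (r.coeff i) * rho none ^ (i : ℕ) := by
    apply E.injective
    have h1 := H.eq_mul_add
    rw [h1, map_add, map_mul, AlgEquiv.apply_symm_apply, map_add, map_pow, map_sum, map_sum, hcoe]
    have hX : E (rho none) = PowerSeries.X := MvPowerSeries.optionEquivLeft_X_none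
    have hXs : ∀ j, E (rho (some j)) = PowerSeries.C (rho j) := fun j =>
      MvPowerSeries.optionEquivLeft_X_some j
    have hren : ∀ y : S R s (Fin d ⊕ t), E (ren id some y) = PowerSeries.C y := by
      intro y
      rw [ren_id_some]
      exact optionEquivLeft_rename y
    simp only [map_mul, map_pow, hX, hXs, hren]
    congr 1
    have h2 := congrArg (Polynomial.coeToPowerSeries.ringHom (R := S R s (Fin d ⊕ t)))
      (poly_eq_sum_fin d r hrdeg)
    simp only [map_sum, map_mul, map_pow, Polynomial.coeToPowerSeries.ringHom_apply,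
      Polynomial.coe_X, Polynomial.coe_C] at h2
    exact h2
  have hd : Dom R a (oc x (Sum.elim c b)) := by
    refine ⟨hab.1, ?_⟩
    rintro (_ | (i | i))
    · exact hx
    · exact hc i
    · exact hab.2 i
  have h1 : ev F a (oc x b) = evHom a (oc x (Sum.elim c b)) hd
      (ren id (Option.map (Sum.inr : t → Fin d ⊕ t)) F) := by
    have := TRing.T_ren id (Option.map (Sum.inr : t → Fin d ⊕ t)) F a (oc x (Sum.elim c b))
      hd.1 hd.2
    rw [evHom_apply, show ev (ren id (Option.map (Sum.inr : t → Fin d ⊕ t)) F) a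
      (oc x (Sum.elim c b)) = _ from this]
    congr 1
    funext o
    cases o <;> rfl
  have hrh : ∀ j, evHom (R := R) a (oc x (Sum.elim c b)) hd (rho j) = oc x (Sum.elim c b) j :=
    fun j => TRing.T_rho _ _ hd.1 hd.2 j
  have hF : ∀ i : Fin d, evHom (R := R) a (oc x (Sum.elim c b)) hd (ren id some (r.coeff i)) =
      ev (r.coeff i) a (Sum.elim c b) := by
    intro i
    exact TRing.T_ren id some (r.coeff i) a (oc x (Sum.elim c b)) hd.1 hd.2
  rw [h1, hid, map_add, map_mul, map_add, map_pow, map_sum, map_sum, hrh]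
  simp only [map_mul, map_pow, hrh, hF, oc_none, oc_some, Sum.elim_inl]
  rw [h0, zero_mul, zero_add]

end

end Cm
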