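import Pool.Agent.Lib.MP_c35b50_lc.Cm.AlgClB
import Pool.Agent.Lib.MP_c35b50_lc.Cm.RowB6
import Pool.Agent.Lib.MP_c35b50_lc.Cm.RowB7

/-!
# Algebraic extensions (rows B6, B7, B8)
-/

namespace Cm

open Polynomial

variable {R : Type} [CommRing R] [IsNoetherianRing R]

/-- Row B6: henselianity of T-fields in the form of Weierstrass preparation for polynomials:
`f` over `O_K` with lower coefficients in `m`, `f_s` a unit, factors as `P * Q` with `P` monic of
degree `s`. -/
theorem prep_poly {K : Type} [Field K] [TField R K] (f : K[X]) (hf : ∀ n, f.coeff n ∈ OO R K)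
    (s : ℕ) (hs : ∀ n < s, f.coeff n ∈ mm R K) (hu : f.coeff s ∉ mm R K) :
    ∃ P Q : K[X], f = P * Q ∧ P.Monic ∧ P.natDegree = s ∧ (∀ n < s, P.coeff n ∈ mm R K) ∧
      ∀ n, Q.coeff n ∈ OO R K :=
  b6_prep_poly f hf s hs hu

/-- Row B6: an irreducible monic polynomial over a T-closed subfield `E` of `L` with a root in
`O_L` has coefficients in `O`. -/
theorem coeff_mem_O {L : Type} [Field L] [TField R L] {E : Subfield L} (hE : TClosed R E)
    (x : L) (hx : IsIntegral E x) (hO : x ∈ OO R L) (n : ℕ) :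
    (((minpoly E x).coeff n : E) : L) ∈ OO R L :=
  b6_coeff_mem_O hE x hx hO n

theorem coeff_mem_m {L : Type} [Field L] [TField R L] {E : Subfield L} (hE : TClosed R E)
    (x : L) (hx : IsIntegral E x) (hO : x ∈ mm R L) (n : ℕ) (hn : n < (minpoly E x).natDegree) :
    (((minpoly E x).coeff n : E) : L) ∈ mm R L :=
  b6_coeff_mem_m hE x hx hO n hn

section Div

variable {s t : Type} [Finite s] [Finite t]

/-- Row B7: division by a monic polynomial, variable of the first kind. -/
theorem div_xi (d : ℕ) (F : S R (Option s) t) :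
    ∃ F' : Fin d → S R (Fin d ⊕ s) t, ∀ (A : Type) [CommRing A] [TRing R A] (x : A)
      (c : Fin d → A) (a : s → A) (b : t → A), x ∈ OO R A → (∀ i, c i ∈ OO R A) → Dom R a b →
      x ^ d + ∑ i, c i * x ^ (i : ℕ) = 0 →
      ev F (oc x a) b = ∑ i, ev (F' i) (Sum.elim c a) b * x ^ (i : ℕ) :=
  div_xi_aux d F

/-- Row B7: division by a distinguished polynomial, variable of the second kind. -/
theorem div_rho (d : ℕ) (F : S R s (Option t)) :
    ∃ F' : Fin d → S R s (Fin d ⊕ t), ∀ (A : Type) [CommRing A] [TRing R A] (x : A)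
      (c : Fin d → A) (a : s → A) (b : t → A), x ∈ mm R A → (∀ i, c i ∈ mm R A) → Dom R a b →
      x ^ d + ∑ i, c i * x ^ (i : ℕ) = 0 →
      ev F a (oc x b) = ∑ i, ev (F' i) a (Sum.elim c b) * x ^ (i : ℕ) :=
  div_rho_aux d F

end Div

/-- Row B8: extension of a graph to the algebraic closures. -/
theorem graph_algClosure {L1 L2 : Type} [Field L1] [Field L2] [TField R L1] [TField R L2]
    [IsAlgClosed L1] [IsAlgClosed L2] (G : Subring (L1 × L2)) (hG : TGraph R G) :
    ∃ G' : Subring (L1 × L2), G ≤ G' ∧ TGraph R G' ∧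
      ∀ (P : Polynomial L1), P.Monic → 0 < P.natDegree →
        (∀ n, ∃ z, (P.coeff n, z) ∈ G') → ∃ x z, (x, z) ∈ G' ∧ P.eval x = 0 := by
  exact graph_algClosure_of (fun _ hE x hx hO n => coeff_mem_O hE x hx hO n)
    (fun _ hE x hx hO n hn => coeff_mem_m hE x hx hO n hn)
    (fun _ hE x hx hO n => coeff_mem_O hE x hx hO n)
    (fun _ hE x hx hO n hn => coeff_mem_m hE x hx hO n hn)
    (fun _ _ _ _ d F => div_xi d F) (fun _ _ _ _ d F => div_rho d F) G hG

end Cm
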