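import Pool.Agent.Lib.MP_c35b50_lc.Cm.AxA

/-!
# Ax's theorem (linear form) and the wild derivation
-/

noncomputable section

namespace CMAx

variable {K A : Type*} [Field K] [Field A] [Algebra K A] (T : ExpData K A)

/-- constants of `G` have no differential -/
theorem ExpData.om_const {x : T.G} (h : T.d x = 0) : T.om x = 0 := by
  obtain ⟨c, hc⟩ := T.hK _ h
  have h1 : T.d (T.E x) = 0 := by rw [T.Ed _ x.2, h, mul_zero]
  obtain ⟨e, he⟩ := T.hK _ h1
  rw [T.om_apply, T.lam_apply, ← he, ← hc, Derivation.map_algebraMap, Derivation.map_algebraMap,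
    smul_zero, sub_zero]

variable [CharZero K] [IsAlgClosed K]

/-- AX: if the `x_i` are linearly independent over `ℤ` modulo constants, the differentials
`dx_i - d(E x_i)/E x_i` are linearly independent over `A` -/
theorem ExpData.ax {ι : Type*} [Fintype ι] (x : ι → T.G)
    (hx : ∀ m : ι → ℤ, ∑ i, (m i : A) * T.d (x i) = 0 → m = 0) :
    LinearIndependent A fun i => T.om (x i) := by
  classical
  rw [Fintype.linearIndependent_iff]
  by_contra hcon
  push Not at hcon
  obtain ⟨c0, h0, i0, hi0⟩ := hcon
  obtain ⟨c, hc, hrel⟩ := T.rel_const x h0 (Function.ne_iff.2 ⟨i0, hi0⟩)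
  let W : Submodule ℚ K := Submodule.span ℚ (Set.range c)
  have hW : FiniteDimensional ℚ W := FiniteDimensional.span_of_finite ℚ (Set.finite_range c)
  let b := Module.finBasis ℚ W
  let r : ι → Fin (Module.finrank ℚ W) → ℚ := fun i j =>
    b.repr ⟨c i, Submodule.subset_span ⟨i, rfl⟩⟩ j
  have hr : ∀ i, c i = ∑ j, r i j • (b j : K) := by
    intro i
    have h1 := b.sum_repr ⟨c i, Submodule.subset_span ⟨i, rfl⟩⟩
    have h2 := congrArg (fun w : W => (w : K)) h1
    simp only [Submodule.coe_sum, Submodule.coe_smul] at h2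
    exact h2.symm
  obtain ⟨N, hN0, hN⟩ := int_mult (Finset.univ : Finset (ι × Fin (Module.finrank ℚ W)))
    fun z => r z.1 z.2
  choose m hm using fun (i : ι) (j : Fin (Module.finrank ℚ W)) => hN (i, j) (Finset.mem_univ _)
  have hNK : (N : K) ≠ 0 := by exact_mod_cast hN0
  have hNQ : (N : ℚ) ≠ 0 := by exact_mod_cast hN0
  let γ : Fin (Module.finrank ℚ W) → K := fun j => (N : ℚ)⁻¹ • (b j : K)
  have hγ : LinearIndependent ℚ γ := by
    have h1 : LinearIndependent ℚ fun j => (b j : K) :=
      b.linearIndependent.map' W.subtype (Submodule.ker_subtype W)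
    have h2 := h1.units_smul fun _ => (Units.mk0 (N : ℚ)⁻¹ (inv_ne_zero hNQ))
    exact h2
  have hcγ : ∀ i, c i = ∑ j, (m i j : K) * γ j := by
    intro i
    rw [hr i]
    refine Finset.sum_congr rfl fun j _ => ?_
    have h1 : r i j = (m i j : ℚ) * (N : ℚ)⁻¹ := by
      rw [← hm i j]
      field_simp
    change r i j • (b j : K) = (m i j : K) * ((N : ℚ)⁻¹ • (b j : K))
    rw [h1, mul_smul, Rat.smul_def (m i j : ℚ)]
    push_cast
    rfl
  let y : Fin (Module.finrank ℚ W) → T.G := fun j => ∑ i, m i j • x i
  have hlam : ∑ i, algebraMap K A (c i) • T.lam (x i) =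
      ∑ j, algebraMap K A (γ j) • T.lam (y j) := by
    have h1 : ∀ j, T.lam (y j) = ∑ i, (m i j : A) • T.lam (x i) := by
      intro j
      rw [map_sum]
      exact Finset.sum_congr rfl fun i _ => by rw [map_zsmul, Int.cast_smul_eq_zsmul]
    simp only [h1, Finset.smul_sum, smul_smul]
    rw [Finset.sum_comm]
    refine Finset.sum_congr rfl fun i _ => ?_
    rw [hcγ i, map_sum, Finset.sum_smul]
    refine Finset.sum_congr rfl fun j _ => ?_
    rw [map_mul, map_intCast, mul_comm]
  have hD : KaehlerDifferential.D K A (∑ i, algebraMap K A (c i) * (x i : A)) =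
      ∑ j, algebraMap K A (γ j) • ((T.E (y j))⁻¹ • KaehlerDifferential.D K A (T.E (y j))) := by
    have h1 : ∑ i, algebraMap K A (c i) • KaehlerDifferential.D K A (x i : A) =
        ∑ i, algebraMap K A (c i) • T.lam (x i) := by
      rw [← sub_eq_zero, ← Finset.sum_sub_distrib, ← hrel]
      exact Finset.sum_congr rfl fun i _ => by rw [T.om_apply, smul_sub]
    rw [map_sum]
    have h2 : ∀ i, KaehlerDifferential.D K A (algebraMap K A (c i) * (x i : A)) =
        algebraMap K A (c i) • KaehlerDifferential.D K A (x i : A) := by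
      intro i
      rw [Derivation.leibniz, Derivation.map_algebraMap, smul_zero, add_zero]
    rw [Finset.sum_congr rfl fun i _ => h2 i, h1, hlam]
    rfl
  have hros := ros γ hγ _ _ (fun j => T.E0 _ (y j).2) hD
  apply hc
  funext i
  rw [hcγ i]
  refine Finset.sum_eq_zero fun j _ => ?_
  obtain ⟨e, he⟩ := hros j
  have h1 : T.d (T.E (y j)) = 0 := by rw [← he, Derivation.map_algebraMap]
  rw [T.Ed _ (y j).2] at h1
  have h2 : T.d (y j : A) = 0 := (mul_eq_zero.1 h1).resolve_left (T.E0 _ (y j).2)
  have h3 : (fun i => m i j) = 0 := by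
    refine hx _ ?_
    rw [← h2]
    simp only [y, AddSubgroup.val_finsetSum, AddSubgroup.coe_zsmul, map_sum]
    exact Finset.sum_congr rfl fun i _ => by rw [map_zsmul, zsmul_eq_mul]
  have h4 : m i j = 0 := congrFun h3 i
  rw [h4, Int.cast_zero, zero_mul]

/-- THE WILD DERIVATION: `D a = 1` and `D x - D(E x) / E x = d x` for all `x` in `G` -/
theorem ExpData.exists_wild {a : A} (ha : T.d a = 1) :
    ∃ D : Derivation K A A, D a = 1 ∧ ∀ x ∈ T.G, D x - (T.E x)⁻¹ * D (T.E x) = T.d x := by
  classical
  have : CharZero A := charZero_of_injective_algebraMap (algebraMap K A).injective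
  obtain ⟨b, hbS, hspan, hb⟩ := exists_linearIndependent ℚ (T.d '' (T.G : Set A))
  choose x hxG hxd using fun s : b => hbS s.2
  let X : b → T.G := fun s => ⟨x s, hxG s⟩
  have hli : LinearIndependent A fun s : b => T.om (X s) := by
    rw [linearIndependent_iff_finset_linearIndependent]
    intro t
    refine T.ax (fun s : t => X s) fun m hm => ?_
    have h1 : LinearIndependent ℚ fun s : t => ((s : b) : A) :=
      hb.comp _ Subtype.val_injective
    rw [Fintype.linearIndependent_iff] at h1
    funext s
    have h2 := h1 (fun s => (m s : ℚ)) (by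
      rw [← hm]
      refine Finset.sum_congr rfl fun s _ => ?_
      change (m s : ℚ) • ((s : b) : A) = (m s : A) * T.d (x s)
      rw [hxd, Rat.smul_def]
      push_cast
      rfl) s
    exact_mod_cast h2
  obtain ⟨g, hg⟩ := (Finsupp.linearCombination A fun s : b => T.om (X s)).exists_leftInverse_of_injective
    (LinearMap.ker_eq_bot.2 hli)
  let l : Ω[A⁄K] →ₗ[A] A := (Finsupp.linearCombination A fun s : b => ((s : b) : A)).comp g
  have hl : ∀ s : b, l (T.om (X s)) = T.d (X s : A) := by
    intro s
    have h1 : g (T.om (X s)) = Finsupp.single s 1 := by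
      have h2 := LinearMap.congr_fun hg (Finsupp.single s 1)
      simpa using h2
    change (Finsupp.linearCombination A fun s : b => ((s : b) : A)) (g (T.om (X s))) = _
    rw [h1, Finsupp.linearCombination_single, one_smul]
    exact (hxd s).symm
  have hall : ∀ z : T.G, l (T.om z) = T.d (z : A) := by
    intro z
    have h1 : T.d (z : A) ∈ Submodule.span ℚ b := by
      rw [hspan]
      exact Submodule.subset_span ⟨z, z.2, rfl⟩
    rw [Finsupp.mem_span_iff_linearCombination] at h1
    obtain ⟨r, hr⟩ := h1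
    obtain ⟨N, hN0, hN⟩ := int_mult r.support r
    choose! m hm using hN
    let w : T.G := N • z - ∑ s ∈ r.support, m s • X s
    have hNA : (N : A) ≠ 0 := by exact_mod_cast hN0
    have hsum : (N : A) * T.d (z : A) = ∑ s ∈ r.support, (m s : A) * T.d (X s : A) := by
      rw [← hr, Finsupp.linearCombination_apply, Finsupp.sum, Finset.mul_sum]
      refine Finset.sum_congr rfl fun s hs => ?_
      have h2 : (N : ℚ) • (r s • ((s : b) : A)) = (m s : ℚ) • ((s : b) : A) := by
        rw [smul_smul, hm s hs]
      rw [Rat.smul_def, Rat.smul_def (m s : ℚ)] at h2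
      push_cast at h2
      rw [h2]
      exact congrArg _ (hxd s).symm
    have hw : T.d (w : A) = 0 := by
      have h2 : (w : A) = (N : A) * z - ∑ s ∈ r.support, (m s : A) * (X s : A) := by
        simp only [w, AddSubgroup.coe_sub, AddSubgroup.val_finsetSum, AddSubgroup.coe_zsmul,
          zsmul_eq_mul]
      have h3 : ∀ (k : ℤ) (v : A), T.d ((k : A) * v) = (k : A) * T.d v := by
        intro k v
        rw [← zsmul_eq_mul, map_zsmul, zsmul_eq_mul]
      rw [h2, map_sub, map_sum, h3, hsum, sub_eq_zero]
      exact Finset.sum_congr rfl fun s _ => (h3 _ _).symm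
    have h4 := T.om_const hw
    have h5 : (N : A) • T.om z = ∑ s ∈ r.support, (m s : A) • T.om (X s) := by
      have h6 : T.om w = (N : A) • T.om z - ∑ s ∈ r.support, (m s : A) • T.om (X s) := by
        simp only [w, map_sub, map_sum, map_zsmul, Int.cast_smul_eq_zsmul]
      rw [h4] at h6
      exact (sub_eq_zero.1 h6.symm)
    have h7 := congrArg l h5
    rw [map_smul, map_sum, smul_eq_mul] at h7
    simp only [map_smul, smul_eq_mul, hl] at h7
    rw [← hsum] at h7
    exact mul_left_cancel₀ hNA h7
  let D0 : Derivation K A A := l.compDer (KaehlerDifferential.D K A)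
  have hD0 : ∀ z : T.G, D0 z - (T.E z)⁻¹ * D0 (T.E z) = T.d z := by
    intro z
    rw [← hall z, T.om_apply, T.lam_apply, map_sub, map_smul, smul_eq_mul]
    rfl
  refine ⟨D0 + (1 - D0 a) • T.d, ?_, fun z hz => ?_⟩
  · rw [Derivation.add_apply, Derivation.smul_apply, ha, smul_eq_mul, mul_one]
    ring
  · have h1 := hD0 ⟨z, hz⟩
    rw [Derivation.add_apply, Derivation.smul_apply, Derivation.add_apply, Derivation.smul_apply,
      T.Ed _ hz, smul_eq_mul, smul_eq_mul, ← h1]
    have h0 := T.E0 _ hz
    field_simp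
    ring

end CMAx
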