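import Pool.Agent.Lib.MP_c35b50_lc.Cm.Ros

/-!
# Ax's theorem (linear form): independence of the differentials `dx - d(exp x) / exp x`
-/

noncomputable section

namespace CMAx

/-- common denominators -/
theorem int_mult {ι : Type*} (s : Finset ι) (f : ι → ℚ) :
    ∃ N : ℤ, N ≠ 0 ∧ ∀ i ∈ s, ∃ n : ℤ, (N : ℚ) * f i = n := by
  obtain ⟨N, hN⟩ := IsLocalization.exist_integer_multiples (nonZeroDivisors ℤ) s f
  refine ⟨N, nonZeroDivisors.ne_zero N.2, fun i hi => ?_⟩
  obtain ⟨n, hn⟩ := hN i hi
  refine ⟨n, ?_⟩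
  have h1 : ((n : ℤ) : ℚ) = (N : ℤ) • f i := hn
  rw [h1, zsmul_eq_mul]

/-- the data: a field with a derivation `d` with algebraically closed field of constants `K`, an
additive subgroup `G` and an exponential function `E` on `G` -/
structure ExpData (K A : Type*) [Field K] [Field A] [Algebra K A] where
  /-- the derivation -/
  d : Derivation K A A
  /-- constants -/
  hK : ∀ x, d x = 0 → x ∈ Set.range (algebraMap K A)
  /-- the domain of the exponential function -/
  G : AddSubgroup A
  /-- the exponential function -/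
  E : A → A
  E0 : ∀ x ∈ G, E x ≠ 0
  Eadd : ∀ x ∈ G, ∀ y ∈ G, E (x + y) = E x * E y
  Ed : ∀ x ∈ G, d (E x) = E x * d x

variable {K A : Type*} [Field K] [Field A] [Algebra K A] (T : ExpData K A)

/-- the logarithmic differential of `E x` -/
def ExpData.lam : T.G →+ Ω[A⁄K] := AddMonoidHom.mk' (fun x =>
  (T.E x)⁻¹ • KaehlerDifferential.D K A (T.E x)) fun x y => by
    have h1 := T.E0 _ x.2
    have h2 := T.E0 _ y.2
    rw [AddSubgroup.coe_add, T.Eadd _ x.2 _ y.2, Derivation.leibniz, smul_add, smul_smul,
      smul_smul, add_comm]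
    congr 2
    · field_simp
    · field_simp

/-- `dx - d(E x) / E x` -/
def ExpData.om : T.G →+ Ω[A⁄K] :=
  (KaehlerDifferential.D K A).toLinearMap.toAddMonoidHom.comp T.G.subtype - T.lam

theorem ExpData.om_apply (x : T.G) : T.om x = KaehlerDifferential.D K A x - T.lam x := rfl

theorem ExpData.lam_apply (x : T.G) :
    T.lam x = (T.E x)⁻¹ • KaehlerDifferential.D K A (T.E x) := rfl

/-- the value of a derivation -/
theorem ExpData.lift_om (δ : Derivation K A A) (x : T.G) :
    δ.liftKaehlerDifferential (T.om x) = δ x - (T.E x)⁻¹ * δ (T.E x) := by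
  rw [T.om_apply, T.lam_apply, map_sub, map_smul, δ.liftKaehlerDifferential_comp_D,
    δ.liftKaehlerDifferential_comp_D, smul_eq_mul]

theorem ExpData.lift_om_d (x : T.G) : T.d.liftKaehlerDifferential (T.om x) = 0 := by
  rw [T.lift_om, T.Ed _ x.2, inv_mul_cancel_left₀ (T.E0 _ x.2), sub_self]

/-- the commutator -/
theorem ExpData.lift_om_lie (δ : Derivation K A A) (x : T.G) :
    (⁅T.d, δ⁆ : Derivation K A A).liftKaehlerDifferential (T.om x) =
      T.d (δ.liftKaehlerDifferential (T.om x)) := by
  have h0 := T.E0 _ x.2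
  rw [T.lift_om, T.lift_om, Derivation.commutator_apply, Derivation.commutator_apply, T.Ed _ x.2,
    map_sub, Derivation.leibniz, Derivation.leibniz, Derivation.leibniz_inv, T.Ed _ x.2]
  simp only [smul_eq_mul]
  field_simp
  ring

/-- linear functionals are derivations -/
theorem eq_zero_of_lift {w : Ω[A⁄K]}
    (h : ∀ δ : Derivation K A A, δ.liftKaehlerDifferential w = 0) : w = 0 := by
  rw [← Module.forall_dual_apply_eq_zero_iff A]
  intro l
  have h1 := h (l.compDer (KaehlerDifferential.D K A))
  have h2 : (l.compDer (KaehlerDifferential.D K A)).liftKaehlerDifferential = l :=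
    Derivation.liftKaehlerDifferential_unique _ _ (by
      rw [Derivation.liftKaehlerDifferential_comp])
  rwa [h2] at h1

variable {ι : Type*} [Fintype ι]

/-- the relations are stable under `d` -/
theorem ExpData.rel_d (x : ι → T.G) {c : ι → A} (h : ∑ i, c i • T.om (x i) = 0) :
    ∑ i, T.d (c i) • T.om (x i) = 0 := by
  refine eq_zero_of_lift fun δ => ?_
  have h1 : ∀ δ' : Derivation K A A,
      ∑ i, c i * δ'.liftKaehlerDifferential (T.om (x i)) = 0 := by
    intro δ'
    have h2 := congrArg δ'.liftKaehlerDifferential h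
    rw [map_sum, map_zero] at h2
    simpa only [map_smul, smul_eq_mul] using h2
  have h3 := congrArg T.d (h1 δ)
  rw [map_sum, map_zero] at h3
  simp only [Derivation.leibniz, smul_eq_mul, ← T.lift_om_lie] at h3
  rw [Finset.sum_add_distrib, h1, zero_add] at h3
  rw [map_sum]
  simp only [map_smul, smul_eq_mul]
  rw [← h3]
  exact Finset.sum_congr rfl fun i _ => mul_comm _ _

/-- a nontrivial relation gives one with constant coefficients -/
theorem ExpData.rel_const (x : ι → T.G) {c : ι → A} (h : ∑ i, c i • T.om (x i) = 0)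
    (hc : c ≠ 0) :
    ∃ c' : ι → K, c' ≠ 0 ∧ ∑ i, algebraMap K A (c' i) • T.om (x i) = 0 := by
  classical
  obtain ⟨n, hn⟩ : ∃ n, (Finset.univ.filter fun i => c i ≠ 0).card = n := ⟨_, rfl⟩
  induction n using Nat.strong_induction_on generalizing c with
  | _ n ih =>
    obtain ⟨i0, hi0⟩ := Function.ne_iff.1 hc
    have hi0' : c i0 ≠ 0 := hi0
    have h1 : ∑ i, ((c i0)⁻¹ * c i) • T.om (x i) = 0 := by
      have := congrArg (fun w => (c i0)⁻¹ • w) h
      simpa only [Finset.smul_sum, smul_smul, smul_zero] using this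
    by_cases h2 : ∀ i, T.d ((c i0)⁻¹ * c i) = 0
    · choose c' hc' using fun i => T.hK _ (h2 i)
      refine ⟨c', ?_, ?_⟩
      · rintro rfl
        have h3 := hc' i0
        rw [Pi.zero_apply, map_zero, inv_mul_cancel₀ hi0'] at h3
        exact zero_ne_one h3
      · rw [← h1]
        exact Finset.sum_congr rfl fun i _ => by rw [hc']
    · obtain ⟨i1, hi1⟩ := not_forall.1 h2
      refine ih _ ?_ (T.rel_d x h1) (Function.ne_iff.2 ⟨i1, hi1⟩) rfl
      rw [← hn]
      refine Finset.card_lt_card ⟨fun i hi => ?_, fun hsub => ?_⟩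
      · simp only [Finset.mem_filter, Finset.mem_univ, true_and] at hi ⊢
        intro h3
        apply hi
        rw [h3, mul_zero, map_zero]
      · have h3 := hsub (Finset.mem_filter.2 ⟨Finset.mem_univ i0, hi0'⟩)
        rw [Finset.mem_filter, inv_mul_cancel₀ hi0'] at h3
        exact h3.2 (Derivation.map_one_eq_zero _)

end CMAx
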