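import Pool.Agent.Lib.MP_c35b50_lc.Cm.Ax

/-!
# The wild derivation, in a form without module structures
-/

noncomputable section

namespace CMAx

/-- `j : K → A` a homomorphism of fields of characteristic `0`, `K` algebraically closed, `d` a
derivation of `A` with field of constants `j K`, `E` an exponential function on an additive
subgroup `G` of `A` with `d (E x) = q * E x * d x` (`q ≠ 0` a constant), `d a = 1`. Then there is
a derivation `D` of `A` with `D = 0` on `j K`, `D a = 1` and
`q * D x - (E x)⁻¹ * D (E x) = q * d x` for all `x` in `G`. -/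
theorem exists_wild {K A : Type*} [Field K] [Field A] [IsAlgClosed K] [CharZero K] (j : K →+* A)
    (d : A →+ A) (hd : ∀ x y, d (x * y) = x * d y + y * d x) (hdK : ∀ c, d (j c) = 0)
    (hker : ∀ x, d x = 0 → ∃ c, j c = x) (G : AddSubgroup A) (E : A → A) (q : A) (hq : q ≠ 0)
    (hdq : d q = 0) (hE0 : ∀ x ∈ G, E x ≠ 0)
    (hEadd : ∀ x ∈ G, ∀ y ∈ G, E (x + y) = E x * E y)
    (hEd : ∀ x ∈ G, d (E x) = q * E x * d x) {a : A} (ha : d a = 1) :
    ∃ D : A →+ A, (∀ x y, D (x * y) = x * D y + y * D x) ∧ (∀ c, D (j c) = 0) ∧ D a = 1 ∧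
      ∀ x ∈ G, q * D x - (E x)⁻¹ * D (E x) = q * d x := by
  let alg : Algebra K A := j.toAlgebra
  let T : ExpData K A :=
    { d := Derivation.mk'
        { toFun := d
          map_add' := d.map_add
          map_smul' := fun c x => by
            change d (j c * x) = j c * d x
            rw [hd, hdK, mul_zero, add_zero] } hd
      hK := fun x hx => hker x hx
      G := G.map (AddMonoidHom.mulLeft q)
      E := fun y => E (q⁻¹ * y)
      E0 := by
        rintro _ ⟨x, hx, rfl⟩
        change E (q⁻¹ * (q * x)) ≠ 0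
        rw [inv_mul_cancel_left₀ hq]
        exact hE0 x hx
      Eadd := by
        rintro _ ⟨x, hx, rfl⟩ _ ⟨y, hy, rfl⟩
        change E (q⁻¹ * (q * x + q * y)) = E (q⁻¹ * (q * x)) * E (q⁻¹ * (q * y))
        rw [mul_add, inv_mul_cancel_left₀ hq, inv_mul_cancel_left₀ hq]
        exact hEadd x hx y hy
      Ed := by
        rintro _ ⟨x, hx, rfl⟩
        change d (E (q⁻¹ * (q * x))) = E (q⁻¹ * (q * x)) * d (q * x)
        rw [inv_mul_cancel_left₀ hq, hEd x hx, hd, hdq]
        ring }
  obtain ⟨D, hDa, hD⟩ := T.exists_wild (a := a) ha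
  have hDq : D q = 0 := by
    obtain ⟨c, hc⟩ := hker q hdq
    rw [← hc]
    exact D.map_algebraMap c
  refine ⟨D.toLinearMap.toAddMonoidHom, fun x y => D.leibniz x y, fun c => D.map_algebraMap c,
    hDa, fun x hx => ?_⟩
  have h1 := hD (q * x) ⟨x, hx, rfl⟩
  change D (q * x) - (E (q⁻¹ * (q * x)))⁻¹ * D (E (q⁻¹ * (q * x))) = d (q * x) at h1
  rw [inv_mul_cancel_left₀ hq, D.leibniz, hDq, smul_zero, add_zero, hd, hdq, mul_zero,
    add_zero, smul_eq_mul] at h1
  exact h1

end CMAx
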