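import Pool.Agent.Lib.MP_c35b50_lc.Cm.Mt8

/-!
# (C): the model theoretic results, in the form in which (D) and (E) use them

`elem3`, `elem2`, `cmin3`, `cmin2`, `bck_dich`, `los2` are proved in `Mt8`; `los3'` in `Mt6`; `tr`, `realize_tr` in
`Mt7`.
-/
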