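import Pool.Agent.Lib.MP_c35b50_lc.Cm.Graph

/-!
# A common form of the hypotheses (H1), (H2) for the three cases

It is enough to know for every `r ≠ 0` of the field of pairs that `r` is in `T<X;Y>+`, or `r` and
`1/r` are in `T<X;Y>`, or `1/r` is in `T<X;Y>+`.
-/

namespace Cm

section field

variable {R : Type} [CommRing R] {K : Type} [Field K] [TField R K]

/-- an element whose inverse is in `m` is not in `O` -/
theorem caux_not_mem_O {x : K} (hx : x ≠ 0) (h : x⁻¹ ∈ mm R K) : x ∉ OO R K := by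
  intro h1
  rcases ((TField.m_iff (R := R) x⁻¹).1 h).2 with h2 | h2
  · exact hx (inv_eq_zero.1 h2)
  · rw [inv_inv] at h2
    exact h2 h1

/-- an element whose inverse is in `O` is not in `m` -/
theorem caux_not_mem_m {x : K} (hx : x ≠ 0) (h : x⁻¹ ∈ OO R K) : x ∉ mm R K := by
  intro h1
  rcases ((TField.m_iff (R := R) x).1 h1).2 with h2 | h2
  · exact hx h2
  · exact h2 h

/-- an element which is not in `O` is the inverse of an element of `m` -/
theorem caux_inv_mem_m {x : K} (h : x ∉ OO R K) : x⁻¹ ∈ mm R K := by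
  have h1 : x⁻¹ ∈ OO R K := (TField.total (R := R) x).resolve_left h
  refine (TField.m_iff (R := R) x⁻¹).2 ⟨h1, Or.inr ?_⟩
  rw [inv_inv]
  exact h

/-- an element of `O` which is not in `m` is a unit -/
theorem caux_inv_mem_O {x : K} (h : x ∈ OO R K) (h' : x ∉ mm R K) : x⁻¹ ∈ OO R K := by
  by_contra h1
  exact h' ((TField.m_iff (R := R) x).2 ⟨h, Or.inr h1⟩)

end field

variable {R : Type} [CommRing R] {L1 L2 : Type} [Field L1] [Field L2] [TField R L1] [TField R L2]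

/-- (H1) from the trichotomy -/
theorem graph_of_tri [IsNoetherianRing R] (RR : Subring (L1 × L2))
    (h0 : ∀ r ∈ RR, r.1 = 0 ↔ r.2 = 0) (hinv : ∀ r ∈ RR, (r.1⁻¹, r.2⁻¹) ∈ RR)
    (X Y : Set (L1 × L2)) (hX : X ⊆ OO R (L1 × L2)) (hY : Y ⊆ mm R (L1 × L2))
    (hXR : ∀ x ∈ X, x ∈ RR) (hYR : ∀ x ∈ Y, x ∈ RR)
    (h1 : ∀ r ∈ RR, r ≠ 0 → r ∈ TP R X Y ∨ (r ∈ TG R X Y ∧ (r.1⁻¹, r.2⁻¹) ∈ TG R X Y) ∨
      (r.1⁻¹, r.2⁻¹) ∈ TP R X Y)
    (h2 : ∀ h ∈ TG R X Y, h = 0 ∨ ∃ r ∈ RR, r ≠ 0 ∧ ∃ d ∈ TP R X Y, h = r * (1 + d)) :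
    ∃ G : Subring (L1 × L2), RR ≤ G ∧ TGraph R G := by
  have hTP : TP R X Y ⊆ mm R (L1 × L2) := TP_le hX hY
  have hTG : TG R X Y ⊆ OO R (L1 × L2) := TG_le hX hY
  have hne : ∀ r ∈ RR, r ≠ 0 → r.1 ≠ 0 ∧ r.2 ≠ 0 := by
    intro r hr hr0
    constructor
    · intro h
      exact hr0 (Prod.ext h ((h0 r hr).1 h))
    · intro h
      exact hr0 (Prod.ext ((h0 r hr).2 h) h)
  have hz : (0 : L1 × L2) ∈ TP R X Y := TP_zero hX hY
  refine graph_of_gen RR h0 hinv X Y hX hY hXR hYR (fun r hr => ?_) (fun r hr => ?_) h2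
  · by_cases hr0 : r = 0
    · subst hr0
      have h3 := TP_sub_TG hX hY hz
      exact ⟨⟨fun _ => (hTG h3).2, fun _ => (hTG h3).1⟩, fun _ => h3⟩
    · obtain ⟨n1, n2⟩ := hne r hr hr0
      rcases h1 r hr hr0 with h | ⟨h, -⟩ | h
      · have h3 := TP_sub_TG hX hY h
        exact ⟨⟨fun _ => (hTG h3).2, fun _ => (hTG h3).1⟩, fun _ => h3⟩
      · exact ⟨⟨fun _ => (hTG h).2, fun _ => (hTG h).1⟩, fun _ => h⟩
      · have h3 := hTP h
        have e1 := caux_not_mem_O (R := R) n1 h3.1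
        have e2 := caux_not_mem_O (R := R) n2 h3.2
        exact ⟨⟨fun h => absurd h e1, fun h => absurd h e2⟩, fun h => absurd h e1⟩
  · by_cases hr0 : r = 0
    · subst hr0
      exact ⟨⟨fun _ => (hTP hz).2, fun _ => (hTP hz).1⟩, fun _ => hz⟩
    · obtain ⟨n1, n2⟩ := hne r hr hr0
      rcases h1 r hr hr0 with h | ⟨-, h⟩ | h
      · exact ⟨⟨fun _ => (hTP h).2, fun _ => (hTP h).1⟩, fun _ => h⟩
      · have h3 := hTG h
        have e1 := caux_not_mem_m (R := R) n1 h3.1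
        have e2 := caux_not_mem_m (R := R) n2 h3.2
        exact ⟨⟨fun h => absurd h e1, fun h => absurd h e2⟩, fun h => absurd h e1⟩
      · have h3 := TRing.m_le _ (hTP h)
        have e1 := caux_not_mem_m (R := R) n1 h3.1
        have e2 := caux_not_mem_m (R := R) n2 h3.2
        exact ⟨⟨fun h => absurd h e1, fun h => absurd h e2⟩, fun h => absurd h e1⟩

section pow

variable {A : Type} [CommRing A] [TRing R A] {X Y : Set A} (hX : X ⊆ OO R A) (hY : Y ⊆ mm R A)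

include hX hY

/-- positive powers -/
theorem TP_pow {x : A} (hx : x ∈ TP R X Y) {k : ℕ} (hk : k ≠ 0) : x ^ k ∈ TP R X Y := by
  induction k with
  | zero => exact absurd rfl hk
  | succ k ih =>
    by_cases hk0 : k = 0
    · subst hk0
      rw [zero_add, pow_one]
      exact hx
    · rw [pow_succ]
      exact TP_mul hX hY (TP_sub_TG hX hY (ih hk0)) hx

/-- sums -/
theorem TP_sum {ι : Type*} (I : Finset ι) (f : ι → A) (hf : ∀ i ∈ I, f i ∈ TP R X Y) :
    ∑ i ∈ I, f i ∈ TP R X Y := by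
  classical
  induction I using Finset.induction_on with
  | empty =>
    rw [Finset.sum_empty]
    exact TP_zero hX hY
  | insert i I hi ih =>
    rw [Finset.sum_insert hi]
    exact TP_add hX hY (hf i (Finset.mem_insert_self i I))
      (ih fun j hj => hf j (Finset.mem_insert_of_mem hj))

/-- `1 + δ` is in `T<X;Y>` -/
theorem TG_one_add {x : A} (hx : x ∈ TP R X Y) : 1 + x ∈ TG R X Y :=
  TG_add hX hY (TG_one hX hY) (TP_sub_TG hX hY hx)

/-- products of `1 + δ` -/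
theorem TP_one_add_mul {x y : A} (hx : x ∈ TP R X Y) (hy : y ∈ TP R X Y) :
    ∃ z ∈ TP R X Y, (1 + x) * (1 + y) = 1 + z :=
  ⟨x + y + x * y, TP_add hX hY (TP_add hX hY hx hy) (TP_mul hX hY (TP_sub_TG hX hY hx) hy),
    by ring⟩

/-- negatives -/
theorem TP_neg {x : A} (hx : x ∈ TP R X Y) : -x ∈ TP R X Y := by
  have h := TP_mul hX hY (TG_neg hX hY (TG_one hX hY)) hx
  rwa [neg_one_mul] at h

end pow

end Cm
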