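import Pool.Agent.Lib.MP_c35b50_lc.Cm.TFieldB

/-!
# Row B11, part 1: values of polynomials at a residually transcendental element
-/

namespace Cm

open Polynomial

variable {R : Type} [CommRing R] {F : Type} [Field F] [TField R F]

section Coeff

/-- all coefficients in `O` -/
def PO (R : Type) [CommRing R] {F : Type} [Field F] [TField R F] (Q : F[X]) : Prop :=
  ∀ n, Q.coeff n ∈ OO R F

/-- all coefficients in `m` -/
def PM (R : Type) [CommRing R] {F : Type} [Field F] [TField R F] (Q : F[X]) : Prop :=
  ∀ n, Q.coeff n ∈ mm R F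

theorem mm_neg {x : F} (hx : x ∈ mm R F) : -x ∈ mm R F := by
  have := TRing.m_mul (-1) ((OO R F).neg_mem (OO R F).one_mem) x hx
  rwa [neg_one_mul] at this

theorem mm_sub {x y : F} (hx : x ∈ mm R F) (hy : y ∈ mm R F) : x - y ∈ mm R F := by
  rw [sub_eq_add_neg]
  exact TRing.m_add _ hx _ (mm_neg hy)

theorem PO.add {P Q : F[X]} (hP : PO R P) (hQ : PO R Q) : PO R (P + Q) := fun n => by
  rw [coeff_add]
  exact (OO R F).add_mem (hP n) (hQ n)

theorem PO.mul {P Q : F[X]} (hP : PO R P) (hQ : PO R Q) : PO R (P * Q) := fun n => by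
  rw [coeff_mul]
  exact (OO R F).sum_mem fun x _ => (OO R F).mul_mem (hP x.1) (hQ x.2)

theorem PO.mulM {P Q : F[X]} (hP : PO R P) (hQ : PM R Q) : PM R (P * Q) := fun n => by
  rw [coeff_mul]
  exact sum_mem_m _ _ fun x _ => TRing.m_mul _ (hP x.1) _ (hQ x.2)

theorem PO.X_sub_C {c : F} (hc : c ∈ OO R F) : PO R (X - C c : F[X]) := fun n => by
  rw [coeff_sub, coeff_X, coeff_C]
  refine (OO R F).sub_mem ?_ ?_
  · split_ifs
    · exact (OO R F).one_mem
    · exact (OO R F).zero_mem
  · split_ifs
    · exact hc
    · exact (OO R F).zero_mem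

theorem PO.one : PO R (1 : F[X]) := fun n => by
  rw [coeff_one]
  split_ifs
  · exact (OO R F).one_mem
  · exact (OO R F).zero_mem

theorem PO.prod {ι : Type} (s : Finset ι) (f : ι → F[X]) (h : ∀ i ∈ s, PO R (f i)) :
    PO R (∏ i ∈ s, f i) := by
  classical
  induction s using Finset.induction_on with
  | empty =>
    rw [Finset.prod_empty]
    exact PO.one
  | insert i s hi ih =>
    rw [Finset.prod_insert hi]
    exact (h i (Finset.mem_insert_self i s)).mul
      (ih fun j hj => h j (Finset.mem_insert_of_mem hj))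

/-- division by a monic polynomial over `O` respects the polynomials over `m` -/
theorem PM_of_add {p A B : F[X]} (hp : p.Monic) (hpO : PO R p)
    (hA : A = 0 ∨ A.natDegree < p.natDegree) (h : PM R (A + p * B)) : PM R A ∧ PM R B := by
  classical
  have hBM : PM R B := by
    by_contra hc
    unfold PM at hc
    push Not at hc
    have hne : (B.support.filter fun k => B.coeff k ∉ mm R F).Nonempty := by
      obtain ⟨k, hk⟩ := hc
      refine ⟨k, Finset.mem_filter.2 ⟨?_, hk⟩⟩
      rw [mem_support_iff]
      intro h0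
      rw [h0] at hk
      exact hk TRing.m_zero
    obtain ⟨k, hk, hmax⟩ := Finset.exists_max_image _ (fun k => k) hne
    rw [Finset.mem_filter] at hk
    have hgt : ∀ j, k < j → B.coeff j ∈ mm R F := by
      intro j hj
      by_contra hj'
      have : j ∈ B.support.filter fun k => B.coeff k ∉ mm R F := by
        refine Finset.mem_filter.2 ⟨?_, hj'⟩
        rw [mem_support_iff]
        intro h0
        rw [h0] at hj'
        exact hj' TRing.m_zero
      have := hmax j this
      omega
    have h1 := h (p.natDegree + k)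
    rw [coeff_add, coeff_mul, ← Finset.add_sum_erase _ _
      (Finset.HasAntidiagonal.mem_antidiagonal.2
        (rfl : (p.natDegree, k).1 + (p.natDegree, k).2 = p.natDegree + k)),
      hp.coeff_natDegree, one_mul] at h1
    have hA0 : A.coeff (p.natDegree + k) = 0 := by
      rcases hA with hA | hA
      · rw [hA, coeff_zero]
      · exact coeff_eq_zero_of_natDegree_lt (by omega)
    rw [hA0, zero_add] at h1
    have h2 : ∑ x ∈ (Finset.HasAntidiagonal.antidiagonal (p.natDegree + k)).erase (p.natDegree, k),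
        p.coeff x.1 * B.coeff x.2 ∈ mm R F := by
      refine sum_mem_m _ _ fun x hx => ?_
      rw [Finset.mem_erase, Finset.HasAntidiagonal.mem_antidiagonal] at hx
      rcases lt_trichotomy x.2 k with h3 | h3 | h3
      · rw [coeff_eq_zero_of_natDegree_lt (show p.natDegree < x.1 by omega), zero_mul]
        exact TRing.m_zero
      · exfalso
        exact hx.1 (Prod.ext (by simp only; omega) h3)
      · exact TRing.m_mul _ (hpO _) _ (hgt _ h3)
    have h3 := mm_sub h1 h2
    rw [add_sub_cancel_right] at h3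
    exact hk.2 h3
  refine ⟨fun n => ?_, hBM⟩
  have h1 := mm_sub (h n) (hpO.mulM hBM n)
  rwa [coeff_add, add_sub_cancel_right] at h1

/-- Horner's scheme -/
noncomputable def hor (p : F[X]) (P : F[X][X]) : ℕ → F[X]
  | 0 => P.coeff 0
  | n + 1 => P.coeff (n + 1) + p * hor p P n

theorem hor_PO {p : F[X]} (hpO : PO R p) {P : F[X][X]} (hP : ∀ n, PO R (P.coeff n)) (n : ℕ) :
    PO R (hor p P n) := by
  induction n with
  | zero => exact hP 0
  | succ n ih => exact (hP (n + 1)).add (hpO.mul ih)

theorem hor_PM {p : F[X]} (hp : p.Monic) (hpO : PO R p) {P : F[X][X]}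
    (hd : ∀ n, 1 ≤ n → P.coeff n = 0 ∨ (P.coeff n).natDegree < p.natDegree) (n : ℕ)
    (h : PM R (hor p P n)) : ∀ k ≤ n, PM R (P.coeff k) := by
  induction n with
  | zero =>
    intro k hk
    obtain rfl : k = 0 := by omega
    exact h
  | succ n ih =>
    obtain ⟨h1, h2⟩ := PM_of_add hp hpO (hd (n + 1) (by omega)) h
    intro k hk
    rcases Nat.lt_or_ge n k with hk' | hk'
    · obtain rfl : k = n + 1 := by omega
      exact h1
    · exact ih h2 k hk'

end Coeff

/-- the value of a polynomial in two variables -/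
noncomputable def pv {A : Type} [CommRing A] (φ : F →+* A) (P : F[X][X]) (x y : A) : A :=
  ((P.map (Polynomial.mapRingHom φ)).eval (C y)).eval x

theorem pv_eq {A : Type} [CommRing A] (φ : F →+* A) (P : F[X][X]) (x y : A) :
    pv φ P x y = ∑ n ∈ Finset.range (P.natDegree + 1), ((P.coeff n).map φ).eval x * y ^ n := by
  unfold pv
  rw [eval_map, eval₂_eq_sum_range, eval_finsetSum]
  refine Finset.sum_congr rfl fun n _ => ?_
  rw [eval_mul, eval_pow, eval_C, coe_mapRingHom]

theorem pv_map {A B : Type} [CommRing A] [CommRing B] (φ : F →+* A) (ψ : A →+* B) (P : F[X][X])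
    (x y : A) : ψ (pv φ P x y) = pv (ψ.comp φ) P (ψ x) (ψ y) := by
  rw [pv_eq, pv_eq, map_sum]
  refine Finset.sum_congr rfl fun n _ => ?_
  rw [map_mul, map_pow, ← Polynomial.map_map, Polynomial.eval_map_apply]

theorem pv_hor {A : Type} [CommRing A] (φ : F →+* A) (p : F[X]) (P : F[X][X]) (x y : A)
    (h : y * (p.map φ).eval x = 1) (n : ℕ) : ((hor p P n).map φ).eval x =
      (p.map φ).eval x ^ n * ∑ k ∈ Finset.range (n + 1), ((P.coeff k).map φ).eval x * y ^ k := by
  induction n with
  | zero => simp [hor]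
  | succ n ih =>
    rw [hor, Polynomial.map_add, Polynomial.map_mul, eval_add, eval_mul, ih,
      Finset.sum_range_succ _ (n + 1), mul_add]
    have e : (p.map φ).eval x ^ (n + 1) * (((P.coeff (n + 1)).map φ).eval x * y ^ (n + 1)) =
        ((P.coeff (n + 1)).map φ).eval x := by
      calc _ = ((P.coeff (n + 1)).map φ).eval x * (y * (p.map φ).eval x) ^ (n + 1) := by ring
        _ = _ := by rw [h, one_pow, mul_one]
    rw [e]
    ring

section Val

variable {L : Type} [Field L] [TField R L] (j : THom R F L) (t : L)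
  (ht : ∀ d ∈ OO R F, vv R L (t - j.toRingHom d) = 1)

include ht

theorem cb_dist (d : F) : 1 ≤ vv R L (t - j.toRingHom d) ∧
    vv R L (j.toRingHom d) ≤ vv R L (t - j.toRingHom d) := by
  by_cases hd : d ∈ OO R F
  · rw [ht d hd]
    exact ⟨le_rfl, (vv_le_one_iff _).2 ((j.map_O d).1 hd)⟩
  · have h0 : vv R L t = 1 := by
      have := ht 0 (OO R F).zero_mem
      rwa [map_zero, sub_zero] at this
    have h1 : 1 < vv R L (j.toRingHom d) := by
      rw [← not_le, vv_le_one_iff]
      exact fun h => hd ((j.map_O d).2 h)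
    rw [Valuation.map_sub_eq_of_lt_right _ (by rw [h0]; exact h1)]
    exact ⟨h1.le, le_rfl⟩

/-- the coefficients of a polynomial are bounded by its value at `t` -/
theorem cb_coeff_le [IsAlgClosed F] (Q : F[X]) :
    ∀ n, vv R L (j.toRingHom (Q.coeff n)) ≤ vv R L ((Q.map j.toRingHom).eval t) := by
  induction hN : Q.natDegree using Nat.strong_induction_on generalizing Q with
  | _ N ih =>
    intro n
    rcases Nat.eq_zero_or_pos N with h0 | h0
    · rw [h0] at hN
      rw [eq_C_of_natDegree_eq_zero hN, Polynomial.map_C, eval_C, coeff_C]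
      split_ifs
      · exact le_rfl
      · rw [map_zero, map_zero]
        exact zero_le
    · have hdeg : Q.degree ≠ 0 := by
        intro h
        have := natDegree_eq_zero_iff_degree_le_zero.2 h.le
        omega
      obtain ⟨r, hr⟩ := IsAlgClosed.exists_root Q hdeg
      obtain ⟨Q', rfl⟩ := dvd_iff_isRoot.2 hr
      have hQ' : Q' ≠ 0 := by
        rintro rfl
        simp at hN
        omega
      have hdeg' : Q'.natDegree < N := by
        rw [← hN, natDegree_mul (X_sub_C_ne_zero r) hQ', natDegree_X_sub_C]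
        omega
      have h1 := ih _ hdeg' Q' rfl
      have h2 := cb_dist j t ht r
      rw [Polynomial.map_mul, eval_mul, Polynomial.map_sub, Polynomial.map_X, Polynomial.map_C,
        eval_sub, eval_X, eval_C, map_mul, sub_mul]
      have e1 : vv R L (j.toRingHom ((X * Q').coeff n)) ≤
          vv R L (t - j.toRingHom r) * vv R L ((Q'.map j.toRingHom).eval t) := by
        rcases n with _ | n
        · rw [coeff_X_mul_zero, map_zero, map_zero]
          exact zero_le
        · rw [coeff_X_mul]
          calc vv R L (j.toRingHom (Q'.coeff n)) = 1 * vv R L (j.toRingHom (Q'.coeff n)) :=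
                (one_mul _).symm
            _ ≤ _ := mul_le_mul' h2.1 (h1 n)
      have e2 : vv R L (j.toRingHom ((C r * Q').coeff n)) ≤
          vv R L (t - j.toRingHom r) * vv R L ((Q'.map j.toRingHom).eval t) := by
        rw [coeff_C_mul, map_mul, map_mul]
        exact mul_le_mul' h2.2 (h1 n)
      rw [coeff_sub, map_sub]
      exact (Valuation.map_sub _ _ _).trans (max_le e1 e2)

/-- The value of a polynomial in normal form with a unit coefficient is a unit. -/
theorem cb_pv [IsAlgClosed F] (p : F[X]) (hp : p.Monic) (hpO : PO R p) (y : L)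
    (hy : y * (p.map j.toRingHom).eval t = 1) (P : F[X][X]) (hP : ∀ n, PO R (P.coeff n))
    (hu : ∃ n k, (P.coeff n).coeff k ∉ mm R F)
    (hd : ∀ n, 1 ≤ n → P.coeff n = 0 ∨ (P.coeff n).natDegree < p.natDegree) :
    vv R L (pv j.toRingHom P t y) = 1 := by
  have h0 : vv R L t = 1 := by
    have := ht 0 (OO R F).zero_mem
    rwa [map_zero, sub_zero] at this
  have hO : ∀ Q : F[X], PO R Q → vv R L ((Q.map j.toRingHom).eval t) ≤ 1 := by
    intro Q hQ
    rw [eval_map, eval₂_eq_sum_range]
    refine Valuation.map_sum_le _ fun i _ => ?_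
    rw [map_mul, map_pow, h0, one_pow, mul_one]
    exact (vv_le_one_iff _).2 ((j.map_O _).1 (hQ i))
  have hp1 : vv R L ((p.map j.toRingHom).eval t) = 1 := by
    refine le_antisymm (hO p hpO) ?_
    have := cb_coeff_le j t ht p p.natDegree
    rwa [hp.coeff_natDegree, map_one, map_one] at this
  have hy1 : vv R L y = 1 := by
    have := congrArg (vv R L) hy
    rwa [map_mul, hp1, mul_one, map_one] at this
  have h1 := pv_hor j.toRingHom p P t y hy P.natDegree
  rw [← pv_eq] at h1
  have h2 : vv R L (((hor p P P.natDegree).map j.toRingHom).eval t) =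
      vv R L (pv j.toRingHom P t y) := by
    rw [h1, map_mul, map_pow, hp1, one_pow, one_mul]
  rw [← h2]
  refine le_antisymm (hO _ (hor_PO hpO hP _)) ?_
  have h3 : ¬ PM R (hor p P P.natDegree) := by
    intro h
    obtain ⟨n, k, hnk⟩ := hu
    rcases Nat.lt_or_ge P.natDegree n with hn | hn
    · rw [coeff_eq_zero_of_natDegree_lt hn, coeff_zero] at hnk
      exact hnk TRing.m_zero
    · exact hnk (hor_PM hp hpO hd _ h n hn k)
  unfold PM at h3
  push Not at h3
  obtain ⟨n, hn⟩ := h3
  have h4 : vv R L (j.toRingHom ((hor p P P.natDegree).coeff n)) = 1 :=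
    (vv_eq_one_iff _).2 ⟨(j.map_O _).1 (hor_PO hpO hP _ n), fun h => hn ((j.map_m _).2 h)⟩
  rw [← h4]
  exact cb_coeff_le j t ht _ n

end Val

end Cm
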