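import Pool.Agent.Lib.MP_c35b50_lc.Cm.TComp

/-! # Row T3: the T-subring generated by a set -/

namespace Cm

variable (R : Type) [CommRing R] {A : Type} [CommRing A] [TRing R A]

/-- values of series at points of `X` (first kind) and `Y` (second kind) -/
def TG (X Y : Set A) : Set A := {x | ∃ (s t : Type) (_ : Finite s) (_ : Finite t) (F : S R s t)
  (a : s → A) (b : t → A), (∀ i, a i ∈ X) ∧ (∀ j, b j ∈ Y) ∧ x = ev F a b}

/-- values of series without constant term -/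
def TP (X Y : Set A) : Set A := {x | ∃ (s t : Type) (_ : Finite s) (_ : Finite t) (F : S R s t)
  (a : s → A) (b : t → A), F ∈ rr R s t ∧ (∀ i, a i ∈ X) ∧ (∀ j, b j ∈ Y) ∧ x = ev F a b}

variable {R} {X Y : Set A} (hX : X ⊆ OO R A) (hY : Y ⊆ mm R A)

theorem tg_ren_rr {s t s' t' : Type} [Finite t] [Finite t'] (f : s → s') (g : t → t')
    {F : S R s t} (hF : F ∈ rr R s t) : ren f g F ∈ rr R s' t' := by
  have h : cc R s t F = 0 := hF
  show cc R s' t' (ren f g F) = 0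
  rw [cc_ren, h, map_zero]

/-- Two values as values at a common point. -/
theorem tg_two {s t s' t' : Type} [Finite s] [Finite t] [Finite s'] [Finite t']
    (F : S R s t) (G : S R s' t') (a : s → A) (b : t → A) (a' : s' → A) (b' : t' → A)
    (h : Dom R a b) (h' : Dom R a' b') :
    ∃ hd : Dom R (Sum.elim a a' : s ⊕ s' → A) (Sum.elim b b' : t ⊕ t' → A),
      evHom _ _ hd (ren (Sum.inl : s → s ⊕ s') (Sum.inl : t → t ⊕ t') F) = ev F a b ∧
      evHom _ _ hd (ren (Sum.inr : s' → s ⊕ s') (Sum.inr : t' → t ⊕ t') G) = ev G a' b' := by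
  have hd : Dom R (Sum.elim a a' : s ⊕ s' → A) (Sum.elim b b' : t ⊕ t' → A) := by
    refine ⟨?_, ?_⟩
    · rintro (i | i)
      · exact h.1 i
      · exact h'.1 i
    · rintro (j | j)
      · exact h.2 j
      · exact h'.2 j
  exact ⟨hd, TRing.T_ren _ _ F _ _ hd.1 hd.2, TRing.T_ren _ _ G _ _ hd.1 hd.2⟩

include hX hY

theorem TG_le : TG R X Y ⊆ OO R A := by
  rintro x ⟨s, t, _, _, F, a, b, ha, hb, rfl⟩
  exact TRing.T_mem F a b (fun i => hX (ha i)) (fun j => hY (hb j))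

theorem TP_le : TP R X Y ⊆ mm R A := by
  rintro x ⟨s, t, _, _, F, a, b, hF, ha, hb, rfl⟩
  exact ev_mem_m F hF a b ⟨fun i => hX (ha i), fun j => hY (hb j)⟩

theorem TP_sub_TG : TP R X Y ⊆ TG R X Y := by
  rintro x ⟨s, t, h1, h2, F, a, b, hF, ha, hb, e⟩
  exact ⟨s, t, h1, h2, F, a, b, ha, hb, e⟩

theorem X_sub_TG : X ⊆ TG R X Y := by
  intro x hx
  refine ⟨Unit, Empty, inferInstance, inferInstance, xi (), fun _ => x, fun j => j.elim,
    fun _ => hx, fun j => j.elim, ?_⟩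
  exact (TRing.T_xi (R := R) (fun _ : Unit => x) (fun j : Empty => j.elim) (fun _ => hX hx)
    (fun j => j.elim) ()).symm

theorem Y_sub_TP : Y ⊆ TP R X Y := by
  intro y hy
  refine ⟨Empty, Unit, inferInstance, inferInstance, rho (), fun i => i.elim, fun _ => y, ?_,
    fun i => i.elim, fun _ => hy, ?_⟩
  · show cc R Empty Unit (rho ()) = 0
    exact MvPowerSeries.constantCoeff_X ()
  · exact (TRing.T_rho (R := R) (fun i : Empty => i.elim) (fun _ : Unit => y) (fun i => i.elim)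
      (fun _ => hY hy) ()).symm

theorem TG_base (r : R) : base R A r ∈ TG R X Y := by
  refine ⟨Empty, Empty, inferInstance, inferInstance, cst R Empty Empty r, fun i => i.elim,
    fun i => i.elim, fun i => i.elim, fun i => i.elim, ?_⟩
  exact (ev_cst _ _ ⟨fun i => i.elim, fun i => i.elim⟩ r).symm

theorem TG_one : (1 : A) ∈ TG R X Y := by
  refine ⟨Empty, Empty, inferInstance, inferInstance, 1, fun i => i.elim,
    fun i => i.elim, fun i => i.elim, fun i => i.elim, ?_⟩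
  exact (TRing.T_one (R := R) _ _ (fun i => i.elim) (fun i => i.elim)).symm

theorem TP_zero : (0 : A) ∈ TP R X Y := by
  refine ⟨Empty, Empty, inferInstance, inferInstance, 0, fun i => i.elim,
    fun i => i.elim, Ideal.zero_mem _, fun i => i.elim, fun i => i.elim, ?_⟩
  exact (map_zero (evHom (R := R) (fun i : Empty => i.elim) (fun i : Empty => i.elim)
    ⟨fun i => i.elim, fun i => i.elim⟩)).symm

theorem TG_neg {x : A} (hx : x ∈ TG R X Y) : -x ∈ TG R X Y := by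
  obtain ⟨s, t, _, _, F, a, b, ha, hb, rfl⟩ := hx
  refine ⟨s, t, inferInstance, inferInstance, -F, a, b, ha, hb, ?_⟩
  exact (map_neg (evHom a b ⟨fun i => hX (ha i), fun j => hY (hb j)⟩) F).symm

theorem TG_add {x y : A} (hx : x ∈ TG R X Y) (hy : y ∈ TG R X Y) : x + y ∈ TG R X Y := by
  obtain ⟨s, t, _, _, F, a, b, ha, hb, rfl⟩ := hx
  obtain ⟨s', t', _, _, G, a', b', ha', hb', rfl⟩ := hy
  obtain ⟨hd, e1, e2⟩ := tg_two F G a b a' b' ⟨fun i => hX (ha i), fun j => hY (hb j)⟩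
    ⟨fun i => hX (ha' i), fun j => hY (hb' j)⟩
  refine ⟨s ⊕ s', t ⊕ t', inferInstance, inferInstance,
    ren Sum.inl Sum.inl F + ren Sum.inr Sum.inr G, Sum.elim a a', Sum.elim b b', ?_, ?_, ?_⟩
  · rintro (i | i)
    · exact ha i
    · exact ha' i
  · rintro (j | j)
    · exact hb j
    · exact hb' j
  · rw [← e1, ← e2, ← map_add]
    rfl

theorem TG_mul {x y : A} (hx : x ∈ TG R X Y) (hy : y ∈ TG R X Y) : x * y ∈ TG R X Y := by
  obtain ⟨s, t, _, _, F, a, b, ha, hb, rfl⟩ := hx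
  obtain ⟨s', t', _, _, G, a', b', ha', hb', rfl⟩ := hy
  obtain ⟨hd, e1, e2⟩ := tg_two F G a b a' b' ⟨fun i => hX (ha i), fun j => hY (hb j)⟩
    ⟨fun i => hX (ha' i), fun j => hY (hb' j)⟩
  refine ⟨s ⊕ s', t ⊕ t', inferInstance, inferInstance,
    ren Sum.inl Sum.inl F * ren Sum.inr Sum.inr G, Sum.elim a a', Sum.elim b b', ?_, ?_, ?_⟩
  · rintro (i | i)
    · exact ha i
    · exact ha' i
  · rintro (j | j)
    · exact hb j
    · exact hb' j
  · rw [← e1, ← e2, ← map_mul]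
    rfl

theorem TP_add {x y : A} (hx : x ∈ TP R X Y) (hy : y ∈ TP R X Y) : x + y ∈ TP R X Y := by
  obtain ⟨s, t, _, _, F, a, b, hF, ha, hb, rfl⟩ := hx
  obtain ⟨s', t', _, _, G, a', b', hG, ha', hb', rfl⟩ := hy
  obtain ⟨hd, e1, e2⟩ := tg_two F G a b a' b' ⟨fun i => hX (ha i), fun j => hY (hb j)⟩
    ⟨fun i => hX (ha' i), fun j => hY (hb' j)⟩
  refine ⟨s ⊕ s', t ⊕ t', inferInstance, inferInstance,
    ren Sum.inl Sum.inl F + ren Sum.inr Sum.inr G, Sum.elim a a', Sum.elim b b',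
    Ideal.add_mem _ (tg_ren_rr _ _ hF) (tg_ren_rr _ _ hG), ?_, ?_, ?_⟩
  · rintro (i | i)
    · exact ha i
    · exact ha' i
  · rintro (j | j)
    · exact hb j
    · exact hb' j
  · rw [← e1, ← e2, ← map_add]
    rfl

theorem TP_mul {x y : A} (hx : x ∈ TG R X Y) (hy : y ∈ TP R X Y) : x * y ∈ TP R X Y := by
  obtain ⟨s, t, _, _, F, a, b, ha, hb, rfl⟩ := hx
  obtain ⟨s', t', _, _, G, a', b', hG, ha', hb', rfl⟩ := hy
  obtain ⟨hd, e1, e2⟩ := tg_two F G a b a' b' ⟨fun i => hX (ha i), fun j => hY (hb j)⟩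
    ⟨fun i => hX (ha' i), fun j => hY (hb' j)⟩
  refine ⟨s ⊕ s', t ⊕ t', inferInstance, inferInstance,
    ren Sum.inl Sum.inl F * ren Sum.inr Sum.inr G, Sum.elim a a', Sum.elim b b',
    Ideal.mul_mem_left _ _ (tg_ren_rr _ _ hG), ?_, ?_, ?_⟩
  · rintro (i | i)
    · exact ha i
    · exact ha' i
  · rintro (j | j)
    · exact hb j
    · exact hb' j
  · rw [← e1, ← e2, ← map_mul]
    rfl

/-- `1 + δ` is invertible, with inverse of the same form. -/
theorem TP_inv {x : A} (hx : x ∈ TP R X Y) : ∃ y ∈ TP R X Y, (1 + x) * (1 + y) = 1 := by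
  obtain ⟨s, t, _, _, F, a, b, hF, ha, hb, rfl⟩ := hx
  have hF0 : MvPowerSeries.constantCoeff F = 0 := hF
  have hu : (1 + F) * MvPowerSeries.invOfUnit (1 + F) 1 = 1 := by
    apply MvPowerSeries.mul_invOfUnit
    rw [map_add, map_one, hF0, add_zero, Units.val_one]
  have hd : Dom R a b := ⟨fun i => hX (ha i), fun j => hY (hb j)⟩
  refine ⟨ev (MvPowerSeries.invOfUnit (1 + F) 1 - 1) a b,
    ⟨s, t, inferInstance, inferInstance, _, a, b, ?_, ha, hb, rfl⟩, ?_⟩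
  · show MvPowerSeries.constantCoeff (MvPowerSeries.invOfUnit (1 + F) 1 - 1) = 0
    rw [map_sub, MvPowerSeries.constantCoeff_invOfUnit, map_one]
    simp
  · rw [← evHom_apply a b hd, ← evHom_apply a b hd, map_sub, map_one, add_sub_cancel,
      ← map_one (evHom a b hd), ← map_add, ← map_mul, hu]

section

variable [IsNoetherianRing R]

/-- The common point for finitely many values. -/
theorem tg_ev {s t : Type} [Finite s] [Finite t] (F : S R s t) (a : s → A) (b : t → A)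
    (ha : ∀ i, a i ∈ TG R X Y) (hb : ∀ j, b j ∈ TP R X Y) :
    ∃ (s' t' : Type) (_ : Finite s') (_ : Finite t') (F' : S R s' t')
      (a' : s' → A) (b' : t' → A), (F ∈ rr R s t → F' ∈ rr R s' t') ∧ (∀ i, a' i ∈ X) ∧
        (∀ j, b' j ∈ Y) ∧ ev F a b = ev F' a' b' := by
  choose S1 T1 fS1 fT1 G α β hα hβ e using ha
  choose S2 T2 fS2 fT2 H γ δ hH hγ hδ e' using hb
  have := fS1
  have := fT1
  have := fS2
  have := fT2
  set a' : (Σ i, S1 i) ⊕ (Σ j, S2 j) → A := Sum.elim (fun x => α x.1 x.2) (fun x => γ x.1 x.2)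
  set b' : (Σ i, T1 i) ⊕ (Σ j, T2 j) → A := Sum.elim (fun x => β x.1 x.2) (fun x => δ x.1 x.2)
  have ha' : ∀ i, a' i ∈ X := by
    rintro (i | i)
    · exact hα i.1 i.2
    · exact hγ i.1 i.2
  have hb' : ∀ j, b' j ∈ Y := by
    rintro (j | j)
    · exact hβ j.1 j.2
    · exact hδ j.1 j.2
  have hd : Dom R a' b' := ⟨fun i => hX (ha' i), fun j => hY (hb' j)⟩
  obtain ⟨F', h1, h2⟩ := exists_ev_comp
    (fun i => ren (fun x => (Sum.inl ⟨i, x⟩ : (Σ i, S1 i) ⊕ (Σ j, S2 j)))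
      (fun y => (Sum.inl ⟨i, y⟩ : (Σ i, T1 i) ⊕ (Σ j, T2 j))) (G i))
    (fun j => ren (fun x => (Sum.inr ⟨j, x⟩ : (Σ i, S1 i) ⊕ (Σ j, S2 j)))
      (fun y => (Sum.inr ⟨j, y⟩ : (Σ i, T1 i) ⊕ (Σ j, T2 j))) (H j))
    (fun j => tg_ren_rr _ _ (hH j)) F
  refine ⟨_, _, inferInstance, inferInstance, F', a', b', h1, ha', hb', ?_⟩
  rw [h2 A a' b' hd]
  congr 1
  · funext i
    rw [e i]
    exact (TRing.T_ren (fun x => (Sum.inl ⟨i, x⟩ : (Σ i, S1 i) ⊕ (Σ j, S2 j)))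
      (fun y => (Sum.inl ⟨i, y⟩ : (Σ i, T1 i) ⊕ (Σ j, T2 j))) (G i) a' b' hd.1 hd.2).symm
  · funext j
    rw [e' j]
    exact (TRing.T_ren (fun x => (Sum.inr ⟨j, x⟩ : (Σ i, S1 i) ⊕ (Σ j, S2 j)))
      (fun y => (Sum.inr ⟨j, y⟩ : (Σ i, T1 i) ⊕ (Σ j, T2 j))) (H j) a' b' hd.1 hd.2).symm

theorem TG_ev {s t : Type} [Finite s] [Finite t] (F : S R s t) (a : s → A) (b : t → A)
    (ha : ∀ i, a i ∈ TG R X Y) (hb : ∀ j, b j ∈ TP R X Y) : ev F a b ∈ TG R X Y := by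
  obtain ⟨s', t', h1, h2, F', a', b', -, h3, h4, e⟩ := tg_ev hX hY F a b ha hb
  exact ⟨s', t', h1, h2, F', a', b', h3, h4, e⟩

theorem TP_ev {s t : Type} [Finite s] [Finite t] (F : S R s t) (hF : F ∈ rr R s t)
    (a : s → A) (b : t → A) (ha : ∀ i, a i ∈ TG R X Y) (hb : ∀ j, b j ∈ TP R X Y) :
    ev F a b ∈ TP R X Y := by
  obtain ⟨s', t', h1, h2, F', a', b', h0, h3, h4, e⟩ := tg_ev hX hY F a b ha hb
  exact ⟨s', t', h1, h2, F', a', b', h0 hF, h3, h4, e⟩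

end

end Cm
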