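import Pool.Agent.Lib.MP_c35b50_lc.Cm.TFieldB
import Pool.Agent.Lib.MP_c35b50_lc.Cm.TGen

/-!
# Graphs of isomorphisms between T-subfields (rows B4, B5)

A partial isomorphism between two T-fields `L1`, `L2` is encoded by its graph, a subring of
`L1 × L2`.
-/

namespace Cm

variable {R : Type} [CommRing R] {L1 L2 : Type} [Field L1] [Field L2] [TField R L1] [TField R L2]

/-- `G` is the graph of an isomorphism between T-closed subfields of `L1` and `L2`. -/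
structure TGraph (R : Type) [CommRing R] {L1 L2 : Type} [Field L1] [Field L2] [TField R L1]
    [TField R L2] (G : Subring (L1 × L2)) : Prop where
  inj1 : ∀ g ∈ G, g.1 = 0 → g.2 = 0
  inj2 : ∀ g ∈ G, g.2 = 0 → g.1 = 0
  inv : ∀ g ∈ G, (g.1⁻¹, g.2⁻¹) ∈ G
  O_iff : ∀ g ∈ G, g.1 ∈ OO R L1 ↔ g.2 ∈ OO R L2
  m_iff : ∀ g ∈ G, g.1 ∈ mm R L1 ↔ g.2 ∈ mm R L2
  T_mem : ∀ {s t : Type} [Finite s] [Finite t] (F : S R s t) (a : s → L1 × L2)
    (b : t → L1 × L2), (∀ i, a i ∈ G) → (∀ j, b j ∈ G) → Dom R a b → ev F a b ∈ G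

/-- The pairs `r (1 + d)`. -/
def gg (RR : Subring (L1 × L2)) (X Y : Set (L1 × L2)) : Set (L1 × L2) :=
  {g | ∃ r ∈ RR, ∃ d ∈ TP R X Y, g = r * (1 + d)}

theorem gg_rr {RR : Subring (L1 × L2)} {X Y : Set (L1 × L2)} (hX : X ⊆ OO R (L1 × L2))
    (hY : Y ⊆ mm R (L1 × L2)) {r : L1 × L2} (hr : r ∈ RR) : r ∈ gg (R := R) RR X Y :=
  ⟨r, hr, 0, TP_zero hX hY, by rw [add_zero, mul_one]⟩

theorem gg_one_add {X Y : Set (L1 × L2)} (hX : X ⊆ OO R (L1 × L2))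
    (hY : Y ⊆ mm R (L1 × L2)) {d : L1 × L2} (hd : d ∈ TP R X Y) : 1 + d ∈ TG R X Y :=
  TG_add hX hY (TG_one hX hY) (TP_sub_TG hX hY hd)

theorem gg_mul_rr {RR : Subring (L1 × L2)} {X Y : Set (L1 × L2)} {r g : L1 × L2} (hr : r ∈ RR)
    (hg : g ∈ gg (R := R) RR X Y) : r * g ∈ gg (R := R) RR X Y := by
  obtain ⟨r', hr', d, hd, rfl⟩ := hg
  exact ⟨r * r', RR.mul_mem hr hr', d, hd, by rw [mul_assoc]⟩

theorem gg_tg {RR : Subring (L1 × L2)} {X Y : Set (L1 × L2)} (hX : X ⊆ OO R (L1 × L2))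
    (hY : Y ⊆ mm R (L1 × L2))
    (h2 : ∀ h ∈ TG R X Y, h = 0 ∨ ∃ r ∈ RR, r ≠ 0 ∧ ∃ d ∈ TP R X Y, h = r * (1 + d))
    {h : L1 × L2} (hh : h ∈ TG R X Y) : h ∈ gg (R := R) RR X Y := by
  rcases h2 h hh with rfl | ⟨r, hr, -, d, hd, rfl⟩
  · exact gg_rr hX hY RR.zero_mem
  · exact ⟨r, hr, d, hd, rfl⟩

theorem gg_add_aux {RR : Subring (L1 × L2)} {X Y : Set (L1 × L2)} (hX : X ⊆ OO R (L1 × L2))
    (hY : Y ⊆ mm R (L1 × L2)) (hinv : ∀ r ∈ RR, (r.1⁻¹, r.2⁻¹) ∈ RR)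
    (h1 : ∀ r ∈ RR, (r.1 ∈ OO R L1 ↔ r.2 ∈ OO R L2) ∧ (r.1 ∈ OO R L1 → r ∈ TG R X Y))
    (h2 : ∀ h ∈ TG R X Y, h = 0 ∨ ∃ r ∈ RR, r ≠ 0 ∧ ∃ d ∈ TP R X Y, h = r * (1 + d))
    {r r' d d' : L1 × L2} (hr : r ∈ RR) (hr' : r' ∈ RR) (hd : d ∈ TP R X Y)
    (hd' : d' ∈ TP R X Y) (e1 : r'.1 ≠ 0) (e2 : r'.2 ≠ 0) (hle : r.1 * r'.1⁻¹ ∈ OO R L1) :
    r * (1 + d) + r' * (1 + d') ∈ gg (R := R) RR X Y := by
  have hq : r * (r'.1⁻¹, r'.2⁻¹) ∈ RR := RR.mul_mem hr (hinv r' hr')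
  have hq' : r * (r'.1⁻¹, r'.2⁻¹) ∈ TG R X Y := (h1 _ hq).2 hle
  have h3 : r' * (r * (r'.1⁻¹, r'.2⁻¹)) = r := by
    refine Prod.ext ?_ ?_
    · show r'.1 * (r.1 * r'.1⁻¹) = r.1
      field_simp
    · show r'.2 * (r.2 * r'.2⁻¹) = r.2
      field_simp
  have h4 : r * (1 + d) + r' * (1 + d') =
      r' * ((r * (r'.1⁻¹, r'.2⁻¹)) * (1 + d) + (1 + d')) := by
    linear_combination (-(1 + d)) * h3
  rw [h4]
  exact gg_mul_rr hr' (gg_tg hX hY h2 (TG_add hX hY (TG_mul hX hY hq' (gg_one_add hX hY hd))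
    (gg_one_add hX hY hd')))

/-- Row B4: a field of pairs `RR` (rational functions at `y1`, `y2`) and generators `X`, `Y` with
(H1) and (H2) give a graph containing `RR`. -/
theorem graph_of_gen [IsNoetherianRing R] (RR : Subring (L1 × L2))
    (h0 : ∀ r ∈ RR, r.1 = 0 ↔ r.2 = 0) (hinv : ∀ r ∈ RR, (r.1⁻¹, r.2⁻¹) ∈ RR)
    (X Y : Set (L1 × L2)) (hX : X ⊆ OO R (L1 × L2)) (hY : Y ⊆ mm R (L1 × L2))
    (hXR : ∀ x ∈ X, x ∈ RR) (hYR : ∀ x ∈ Y, x ∈ RR)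
    (h1 : ∀ r ∈ RR, (r.1 ∈ OO R L1 ↔ r.2 ∈ OO R L2) ∧ (r.1 ∈ OO R L1 → r ∈ TG R X Y))
    (h1' : ∀ r ∈ RR, (r.1 ∈ mm R L1 ↔ r.2 ∈ mm R L2) ∧ (r.1 ∈ mm R L1 → r ∈ TP R X Y))
    (h2 : ∀ h ∈ TG R X Y, h = 0 ∨ ∃ r ∈ RR, r ≠ 0 ∧ ∃ d ∈ TP R X Y, h = r * (1 + d)) :
    ∃ G : Subring (L1 × L2), RR ≤ G ∧ TGraph R G := by
  have hadd : ∀ g ∈ gg (R := R) RR X Y, ∀ g' ∈ gg (R := R) RR X Y,
      g + g' ∈ gg (R := R) RR X Y := by
    rintro g ⟨r, hr, d, hd, rfl⟩ g' ⟨r', hr', d', hd', rfl⟩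
    by_cases e1 : r'.1 = 0
    · have e : r' = 0 := Prod.ext e1 ((h0 _ hr').1 e1)
      rw [e, zero_mul, add_zero]
      exact ⟨r, hr, d, hd, rfl⟩
    by_cases e3 : r.1 = 0
    · have e : r = 0 := Prod.ext e3 ((h0 _ hr).1 e3)
      rw [e, zero_mul, zero_add]
      exact ⟨r', hr', d', hd', rfl⟩
    have e2 : r'.2 ≠ 0 := fun h => e1 ((h0 _ hr').2 h)
    have e4 : r.2 ≠ 0 := fun h => e3 ((h0 _ hr).2 h)
    rcases TField.total (R := R) (r.1 * r'.1⁻¹) with hle | hle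
    · exact gg_add_aux hX hY hinv h1 h2 hr hr' hd hd' e1 e2 hle
    · rw [mul_inv, inv_inv, mul_comm] at hle
      rw [add_comm]
      exact gg_add_aux hX hY hinv h1 h2 hr' hr hd' hd e3 e4 hle
  have hmul : ∀ g ∈ gg (R := R) RR X Y, ∀ g' ∈ gg (R := R) RR X Y,
      g * g' ∈ gg (R := R) RR X Y := by
    rintro g ⟨r, hr, d, hd, rfl⟩ g' ⟨r', hr', d', hd', rfl⟩
    refine ⟨r * r', RR.mul_mem hr hr', d + d' + d * d', TP_add hX hY (TP_add hX hY hd hd')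
      (TP_mul hX hY (TP_sub_TG hX hY hd) hd'), ?_⟩
    ring
  let G : Subring (L1 × L2) :=
    { carrier := gg (R := R) RR X Y
      mul_mem' := fun {a b} ha hb => hmul a ha b hb
      one_mem' := gg_rr hX hY RR.one_mem
      add_mem' := fun {a b} ha hb => hadd a ha b hb
      zero_mem' := gg_rr hX hY RR.zero_mem
      neg_mem' := by
        rintro g ⟨r, hr, d, hd, rfl⟩
        exact ⟨-r, RR.neg_mem hr, d, hd, by rw [neg_mul]⟩ }
  -- the inverse of `1 + d`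
  have hu : ∀ d ∈ TP R X Y, ∃ d' ∈ TP R X Y, (1 + d.1) * (1 + d'.1) = 1 ∧
      (1 + d.2) * (1 + d'.2) = 1 := fun d hd => by
    obtain ⟨d', hd', h⟩ := TP_inv hX hY hd
    exact ⟨d', hd', congrArg Prod.fst h, congrArg Prod.snd h⟩
  have hO : ∀ d ∈ TP R X Y, 1 + d.1 ∈ OO R L1 ∧ 1 + d.2 ∈ OO R L2 := fun d hd =>
    TG_le hX hY (gg_one_add hX hY hd)
  have hO1 : ∀ (r d : L1 × L2), d ∈ TP R X Y → (r.1 * (1 + d.1) ∈ OO R L1 ↔ r.1 ∈ OO R L1) := by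
    intro r d hd
    obtain ⟨d', hd', u1, u2⟩ := hu d hd
    refine ⟨fun h => ?_, fun h => (OO R L1).mul_mem h (hO d hd).1⟩
    have h3 := (OO R L1).mul_mem h (hO d' hd').1
    rwa [mul_assoc, u1, mul_one] at h3
  have hO2 : ∀ (r d : L1 × L2), d ∈ TP R X Y → (r.2 * (1 + d.2) ∈ OO R L2 ↔ r.2 ∈ OO R L2) := by
    intro r d hd
    obtain ⟨d', hd', u1, u2⟩ := hu d hd
    refine ⟨fun h => ?_, fun h => (OO R L2).mul_mem h (hO d hd).2⟩
    have h3 := (OO R L2).mul_mem h (hO d' hd').2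
    rwa [mul_assoc, u2, mul_one] at h3
  have hm1 : ∀ (r d : L1 × L2), d ∈ TP R X Y → (r.1 * (1 + d.1) ∈ mm R L1 ↔ r.1 ∈ mm R L1) := by
    intro r d hd
    obtain ⟨d', hd', u1, u2⟩ := hu d hd
    refine ⟨fun h => ?_, fun h => ?_⟩
    · have h3 := TRing.m_mul _ (hO d' hd').1 _ h
      rwa [mul_comm, mul_assoc, u1, mul_one] at h3
    · have h3 := TRing.m_mul _ (hO d hd).1 _ h
      rwa [mul_comm] at h3
  have hm2 : ∀ (r d : L1 × L2), d ∈ TP R X Y → (r.2 * (1 + d.2) ∈ mm R L2 ↔ r.2 ∈ mm R L2) := by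
    intro r d hd
    obtain ⟨d', hd', u1, u2⟩ := hu d hd
    refine ⟨fun h => ?_, fun h => ?_⟩
    · have h3 := TRing.m_mul _ (hO d' hd').2 _ h
      rwa [mul_comm, mul_assoc, u2, mul_one] at h3
    · have h3 := TRing.m_mul _ (hO d hd).2 _ h
      rwa [mul_comm] at h3
  refine ⟨G, fun r hr => gg_rr hX hY hr, ?_, ?_, ?_, ?_, ?_, ?_⟩
  · rintro g ⟨r, hr, d, hd, rfl⟩ h
    obtain ⟨d', hd', u1, u2⟩ := hu d hd
    have h3 : r.1 * (1 + d.1) = 0 := h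
    have h4 : r.1 = 0 := (mul_eq_zero.1 h3).resolve_right (left_ne_zero_of_mul_eq_one u1)
    show r.2 * (1 + d.2) = 0
    rw [(h0 r hr).1 h4, zero_mul]
  · rintro g ⟨r, hr, d, hd, rfl⟩ h
    obtain ⟨d', hd', u1, u2⟩ := hu d hd
    have h3 : r.2 * (1 + d.2) = 0 := h
    have h4 : r.2 = 0 := (mul_eq_zero.1 h3).resolve_right (left_ne_zero_of_mul_eq_one u2)
    show r.1 * (1 + d.1) = 0
    rw [(h0 r hr).2 h4, zero_mul]
  · rintro g ⟨r, hr, d, hd, rfl⟩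
    obtain ⟨d', hd', u1, u2⟩ := hu d hd
    refine ⟨(r.1⁻¹, r.2⁻¹), hinv r hr, d', hd', Prod.ext ?_ ?_⟩
    · show (r.1 * (1 + d.1))⁻¹ = r.1⁻¹ * (1 + d'.1)
      rw [mul_inv, inv_eq_of_mul_eq_one_right u1]
    · show (r.2 * (1 + d.2))⁻¹ = r.2⁻¹ * (1 + d'.2)
      rw [mul_inv, inv_eq_of_mul_eq_one_right u2]
  · rintro g ⟨r, hr, d, hd, rfl⟩
    exact (hO1 r d hd).trans ((h1 r hr).1.trans (hO2 r d hd).symm)
  · rintro g ⟨r, hr, d, hd, rfl⟩
    exact (hm1 r d hd).trans ((h1' r hr).1.trans (hm2 r d hd).symm)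
  · intro s t _ _ F a b ha hb hd
    refine gg_tg hX hY h2 (TG_ev hX hY F a b (fun i => ?_) fun j => ?_)
    · obtain ⟨r, hr, d, hd', e⟩ := ha i
      have h3 : (a i).1 ∈ OO R L1 := (hd.1 i).1
      rw [e] at h3 ⊢
      exact TG_mul hX hY ((h1 r hr).2 ((hO1 r d hd').1 h3)) (gg_one_add hX hY hd')
    · obtain ⟨r, hr, d, hd', e⟩ := hb j
      have h3 : (b j).1 ∈ mm R L1 := (hd.2 j).1
      rw [e] at h3 ⊢
      rw [mul_comm]
      exact TP_mul hX hY (gg_one_add hX hY hd') ((h1' r hr).2 ((hm1 r d hd').1 h3))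

/-- Row B5: from a graph with algebraically closed domain to an intermediate T-field. -/
theorem core_of_graph {F : Type} [Field F] [TField R F] (j1 : THom R F L1) (j2 : THom R F L2)
    (G : Subring (L1 × L2)) (hG : TGraph R G) (hF : ∀ x : F, (j1.toRingHom x, j2.toRingHom x) ∈ G)
    (y1 : L1) (y2 : L2) (hy : (y1, y2) ∈ G)
    (hac : ∀ (P : Polynomial L1), P.Monic → 0 < P.natDegree →
      (∀ n, ∃ z, (P.coeff n, z) ∈ G) → ∃ x z, (x, z) ∈ G ∧ P.eval x = 0) :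
    ∃ (E : Type) (_ : Field E) (_ : TField R E) (_ : IsAlgClosed E) (e : THom R F E)
      (i1 : THom R E L1) (i2 : THom R E L2) (y : E),
      (∀ x, i1.toRingHom (e.toRingHom x) = j1.toRingHom x) ∧
      (∀ x, i2.toRingHom (e.toRingHom x) = j2.toRingHom x) ∧
      i1.toRingHom y = y1 ∧ i2.toRingHom y = y2 := by
  classical
  have huniq : ∀ (x : L1) (z z' : L2), (x, z) ∈ G → (x, z') ∈ G → z = z' := by
    intro x z z' h h'
    have h1 : (x, z) - (x, z') ∈ G := G.sub_mem h h'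
    exact sub_eq_zero.1 (hG.inj1 _ h1 (sub_self x))
  let E1 : Subfield L1 :=
    { carrier := {x | ∃ z, (x, z) ∈ G}
      mul_mem' := by
        rintro a b ⟨z, hz⟩ ⟨w, hw⟩
        exact ⟨z * w, G.mul_mem hz hw⟩
      one_mem' := ⟨1, G.one_mem⟩
      add_mem' := by
        rintro a b ⟨z, hz⟩ ⟨w, hw⟩
        exact ⟨z + w, G.add_mem hz hw⟩
      zero_mem' := ⟨0, G.zero_mem⟩
      neg_mem' := by
        rintro a ⟨z, hz⟩
        exact ⟨-z, G.neg_mem hz⟩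
      inv_mem' := by
        rintro a ⟨z, hz⟩
        exact ⟨z⁻¹, hG.inv _ hz⟩ }
  have hmem : ∀ x : E1, ∃ z, ((x : L1), z) ∈ G := fun x => x.2
  choose f hf using hmem
  let φ : E1 →+* L2 :=
    { toFun := f
      map_one' := huniq 1 _ _ (hf 1) G.one_mem
      map_mul' := fun x y => huniq _ _ _ (hf (x * y)) (G.mul_mem (hf x) (hf y))
      map_zero' := huniq 0 _ _ (hf 0) G.zero_mem
      map_add' := fun x y => huniq _ _ _ (hf (x + y)) (G.add_mem (hf x) (hf y)) }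
  have hT : TClosed R E1 := by
    intro s t _ _ H a b ha hb hd
    choose z hz using ha
    choose w hw using hb
    have h := hG.T_mem H (fun i => (a i, z i)) (fun j => (b j, w j)) hz hw
      ⟨fun i => ⟨hd.1 i, (hG.O_iff _ (hz i)).1 (hd.1 i)⟩,
        fun j => ⟨hd.2 j, (hG.m_iff _ (hw j)).1 (hd.2 j)⟩⟩
    rw [ev_prod] at h
    exact ⟨_, h⟩
  let iT : TField R E1 := hT.tfield
  have hacl : IsAlgClosed E1 := by
    refine IsAlgClosed.of_exists_root _ fun p hp hirr => ?_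
    obtain ⟨x, z, hx, hP⟩ := hac (p.map E1.subtype) (hp.map _)
      (by rw [Polynomial.natDegree_map]; exact hirr.natDegree_pos) (fun n => by
        rw [Polynomial.coeff_map]
        exact (p.coeff n).2)
    refine ⟨⟨x, z, hx⟩, ?_⟩
    apply Subtype.val_injective
    have h1 : E1.subtype (p.eval ⟨x, z, hx⟩) = (p.map E1.subtype).eval x := by
      rw [Polynomial.eval_map, Polynomial.eval, Polynomial.hom_eval₂, RingHom.comp_id]
      rfl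
    rw [hP] at h1
    exact h1
  have hev : ∀ {s t : Type} [Finite s] [Finite t] (H : S R s t) (a : s → E1) (b : t → E1),
      Dom R a b → ((ev H a b : E1) : L1) = ev H (fun i => (a i : L1)) (fun j => (b j : L1)) :=
    fun H a b hd => hT.incl.map_T H a b hd
  let eF : F →+* E1 := j1.toRingHom.codRestrict E1 fun x => ⟨_, hF x⟩
  have heO : ∀ x, x ∈ OO R F ↔ eF x ∈ OO R E1 := fun x =>
    (j1.map_O x).trans (hT.incl.map_O (eF x)).symm
  have hem : ∀ x, x ∈ mm R F ↔ eF x ∈ mm R E1 := fun x =>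
    (j1.map_m x).trans (hT.incl.map_m (eF x)).symm
  let e : THom R F E1 :=
    { toRingHom := eF
      map_O := heO
      map_m := hem
      map_T := by
        intro s t _ _ H a b hd
        apply Subtype.val_injective
        have h1 := hev H (fun i => eF (a i)) (fun j => eF (b j))
          ⟨fun i => (heO _).1 (hd.1 i), fun j => (hem _).1 (hd.2 j)⟩
        exact (j1.map_T H a b hd).trans h1.symm }
  let i2 : THom R E1 L2 :=
    { toRingHom := φ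
      map_O := fun x => (hT.incl.map_O x).trans (hG.O_iff _ (hf x))
      map_m := fun x => (hT.incl.map_m x).trans (hG.m_iff _ (hf x))
      map_T := by
        intro s t _ _ H a b hd
        have h := hG.T_mem H (fun i => ((a i : L1), f (a i))) (fun j => ((b j : L1), f (b j)))
          (fun i => hf (a i)) (fun j => hf (b j))
          ⟨fun i => ⟨(hT.incl.map_O _).1 (hd.1 i),
            (hG.O_iff _ (hf (a i))).1 ((hT.incl.map_O _).1 (hd.1 i))⟩,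
          fun j => ⟨(hT.incl.map_m _).1 (hd.2 j),
            (hG.m_iff _ (hf (b j))).1 ((hT.incl.map_m _).1 (hd.2 j))⟩⟩
        rw [ev_prod] at h
        refine huniq _ _ _ (hf _) ?_
        rw [hev H a b hd]
        exact h }
  refine ⟨E1, inferInstance, iT, hacl, e, hT.incl, i2, ⟨y1, y2, hy⟩, fun x => rfl, fun x => ?_,
    rfl, ?_⟩
  · exact huniq _ _ _ (hf _) (hF x)
  · exact huniq _ _ _ (hf _) hy

end Cm
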