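import Pool.Agent.Lib.MP_c35b50_lc.Cm.TFieldB
import Pool.Agent.Lib.MP_c35b50_lc.Cm.DomRho

/-! # Row B1: Weierstrass preparation for one variable of the second kind -/

namespace Cm

section WP

open PowerSeries

/-- Weierstrass preparation over an adically complete ring. -/
theorem wprep {A : Type} [CommRing A] (I : Ideal A) [IsAdicComplete I A] (g : PowerSeries A) (s : ℕ)
    (hlow : ∀ i < s, coeff i g ∈ I) (hs : IsUnit (coeff s g)) :
    ∃ (p : ℕ → A) (U : PowerSeries A), (∀ i, p i ∈ I) ∧ coeff s g - constantCoeff U ∈ I ∧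
      g = (X ^ s + ∑ i ∈ Finset.range s, C (p i) * X ^ i) * U := by
  classical
  have hunit : ∀ u v : A, IsUnit u → u - v ∈ I → IsUnit v := by
    intro u v hu huv
    obtain ⟨u', hu'⟩ := hu.exists_left_inv
    have h1 := IsAdicComplete.le_jacobson_bot I (I.mul_mem_left (-u') huv)
    rw [Ideal.mem_jacobson_bot] at h1
    have h2 := h1 1
    have h3 : -u' * (u - v) * 1 + 1 = u' * v := by
      linear_combination (-1 : A) * hu'
    rw [h3] at h2
    exact isUnit_of_mul_isUnit_right h2
  by_cases hI : I = ⊤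
  · subst hI
    have hsub : Subsingleton A := (‹IsAdicComplete ⊤ A›.toIsHausdorff).subsingleton
    refine ⟨fun _ => 0, 1, fun _ => Submodule.mem_top, Submodule.mem_top, ?_⟩
    ext i
    exact Subsingleton.elim _ _
  have hord : (g.map (Ideal.Quotient.mk I)).order.toNat = s := by
    have hne : coeff s (g.map (Ideal.Quotient.mk I)) ≠ 0 := by
      rw [coeff_map]
      intro h0
      rw [Ideal.Quotient.eq_zero_iff_mem] at h0
      exact hI (Ideal.eq_top_of_isUnit_mem I h0 hs)
    have h1 : (g.map (Ideal.Quotient.mk I)).order = s := by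
      rw [order_eq_nat]
      refine ⟨hne, fun i hi => ?_⟩
      rw [coeff_map, Ideal.Quotient.eq_zero_iff_mem]
      exact hlow i hi
    rw [h1]
    rfl
  have hd : g.IsWeierstrassDivisorAt I := by
    unfold IsWeierstrassDivisorAt
    rw [hord]
    exact hs
  have hdiv := hd.isWeierstrassDivisionAt_div_mod (f := (X ^ s : PowerSeries A))
  set q := hd.div (X ^ s : PowerSeries A) with hq
  set r := hd.mod (X ^ s : PowerSeries A) with hr
  have hdeg : r.degree < s := by
    have := hdiv.degree_lt
    rwa [hord] at this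
  have hmul := hdiv.eq_mul_add
  have hrI : ∀ i, r.coeff i ∈ I := by
    intro i
    by_cases hi : i < s
    · have h1 := hdiv.coeff_f_sub_r_mem (i := i) (by rw [hord]; exact hi)
      rw [map_sub, coeff_X_pow, if_neg hi.ne, zero_sub, neg_mem_iff, Polynomial.coeff_coe] at h1
      exact h1
    · rw [Polynomial.coeff_eq_zero_of_degree_lt (lt_of_lt_of_le hdeg (by exact_mod_cast not_lt.1 hi))]
      exact I.zero_mem
  have hrs : (r : PowerSeries A) = ∑ i ∈ Finset.range s, C (r.coeff i) * X ^ i := by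
    ext k
    rw [Polynomial.coeff_coe, map_sum]
    have h1 : ∀ i ∈ Finset.range s, coeff k (C (r.coeff i) * X ^ i : PowerSeries A) =
        if i = k then r.coeff i else 0 := by
      intro i _
      rw [coeff_C_mul, coeff_X_pow]
      by_cases h : i = k
      · rw [if_pos h, if_pos h.symm, mul_one]
      · rw [if_neg h, if_neg (Ne.symm h), mul_zero]
    rw [Finset.sum_congr rfl h1, Finset.sum_ite_eq' (Finset.range s) k (fun i => r.coeff i)]
    split_ifs with h
    · rfl
    · rw [Finset.mem_range] at h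
      exact Polynomial.coeff_eq_zero_of_degree_lt (lt_of_lt_of_le hdeg (by exact_mod_cast not_lt.1 h))
  have hPq : (X ^ s + ∑ i ∈ Finset.range s, C (-r.coeff i) * X ^ i : PowerSeries A) = g * q := by
    have h1 : (∑ i ∈ Finset.range s, C (-r.coeff i) * X ^ i : PowerSeries A) = -(r : PowerSeries A) := by
      rw [hrs, ← Finset.sum_neg_distrib]
      exact Finset.sum_congr rfl fun i _ => by rw [map_neg, neg_mul]
    rw [h1]
    linear_combination hmul
  -- coefficient `s` of a product
  have hprod : ∀ u v : PowerSeries A, (∀ i < s, coeff i u ∈ I) →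
      coeff s (u * v) - coeff s u * constantCoeff v ∈ I := by
    intro u v hu
    rw [coeff_mul, Finset.Nat.sum_antidiagonal_eq_sum_range_succ_mk, Finset.sum_range_succ]
    have h1 : s - s = 0 := by omega
    rw [h1, coeff_zero_eq_constantCoeff_apply, add_sub_cancel_right]
    exact I.sum_mem fun i hi => I.mul_mem_right _ (hu i (Finset.mem_range.1 hi))
  have hPs : coeff s (g * q) = 1 := by
    rw [← hPq, map_add, coeff_X_pow, if_pos rfl, map_sum]
    have h1 : ∀ i ∈ Finset.range s, coeff s (C (-r.coeff i) * X ^ i : PowerSeries A) = 0 := by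
      intro i hi
      rw [coeff_C_mul, coeff_X_pow, if_neg (Finset.mem_range.1 hi).ne', mul_zero]
    rw [Finset.sum_eq_zero h1, add_zero]
  have hq0 : IsUnit (constantCoeff q) := by
    have h1 := hprod g q hlow
    rw [hPs] at h1
    exact isUnit_of_mul_isUnit_right (hunit 1 _ isUnit_one h1)
  obtain ⟨U, hU⟩ := (isUnit_iff_constantCoeff.2 hq0).exists_right_inv
  refine ⟨fun i => -r.coeff i, U, fun i => I.neg_mem (hrI i), ?_, ?_⟩
  · have h2 : g = (g * q) * U := by rw [mul_assoc, hU, mul_one]
    have h3 := hprod (g * q) U (fun i hi => by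
      have h4 : coeff i (g * q) ∈ I := by
        rw [coeff_mul]
        refine I.sum_mem fun x hx => I.mul_mem_right _ (hlow _ ?_)
        have := Finset.HasAntidiagonal.mem_antidiagonal.1 hx
        omega
      exact h4)
    rw [← h2, hPs, one_mul] at h3
    exact h3
  · rw [hPq, mul_assoc, hU, mul_one]

end WP

section Roots

open Polynomial

variable {R : Type} [CommRing R] {F : Type} [Field F] [TField R F]

theorem one_notMem_m : (1 : F) ∉ mm R F := by
  intro h
  obtain ⟨-, h1 | h1⟩ := (TField.m_iff (R := R) (1 : F)).1 h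
  · exact one_ne_zero h1
  · rw [inv_one] at h1
    exact h1 (OO R F).one_mem

/-- The roots of a monic polynomial with lower coefficients in `m` are in `m`. -/
theorem root_mem_m (n : ℕ) (p : ℕ → F) (hp : ∀ i, p i ∈ mm R F) (β : F)
    (h : β ^ n + ∑ i ∈ Finset.range n, p i * β ^ i = 0) : β ∈ mm R F := by
  by_contra hβ
  have hβ0 : β ≠ 0 := by
    rintro rfl
    exact hβ TRing.m_zero
  have hinv : β⁻¹ ∈ OO R F := by
    by_contra hc
    exact hβ ((TField.m_iff (R := R) β).2 ⟨(TField.total (R := R) β).resolve_right hc, Or.inr hc⟩)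
  have h1 : ∑ i ∈ Finset.range n, (-(β⁻¹) ^ (n - i)) * p i ∈ mm R F := by
    refine sum_mem_m _ _ fun i _ => TRing.m_mul _ ?_ _ (hp i)
    exact (OO R F).neg_mem ((OO R F).pow_mem hinv _)
  have h2 : ∑ i ∈ Finset.range n, (-(β⁻¹) ^ (n - i)) * p i = 1 := by
    have h3 : β ^ n ≠ 0 := pow_ne_zero _ hβ0
    have h4 : ∑ i ∈ Finset.range n, (-(β⁻¹) ^ (n - i)) * p i =
        -(β ^ n)⁻¹ * ∑ i ∈ Finset.range n, p i * β ^ i := by
      rw [Finset.mul_sum]
      refine Finset.sum_congr rfl fun i hi => ?_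
      have h5 : i < n := Finset.mem_range.1 hi
      have h6 : β ^ n = β ^ (n - i) * β ^ i := by
        rw [← pow_add]
        congr 1
        omega
      rw [h6, mul_inv, inv_pow]
      field_simp
    rw [h4, eq_neg_of_add_eq_zero_right h, neg_mul_neg, inv_mul_cancel₀ h3]
  rw [h2] at h1
  exact one_notMem_m h1

/-- Factorization of a monic polynomial with lower coefficients in `m`. -/
theorem split_m [IsAlgClosed F] (n : ℕ) (p : ℕ → F) (hp : ∀ i, p i ∈ mm R F) :
    ∃ (k : ℕ) (β : Fin k → F), (∀ i, β i ∈ mm R F) ∧ ∀ (A : Type) [CommRing A] (j : F →+* A) (x : A),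
      x ^ n + ∑ i ∈ Finset.range n, j (p i) * x ^ i = ∏ i, (x - j (β i)) := by
  set π : F[X] := X ^ n + ∑ i ∈ Finset.range n, C (p i) * X ^ i with hπ
  have hm : π.Monic := by
    rw [hπ]
    refine Polynomial.monic_X_pow_add ?_
    refine (Polynomial.degree_sum_le _ _).trans_lt ?_
    refine (Finset.sup_lt_iff (WithBot.bot_lt_coe n)).2 fun i hi => ?_
    exact lt_of_le_of_lt (Polynomial.degree_C_mul_X_pow_le i (p i))
      (WithBot.coe_lt_coe.2 (Finset.mem_range.1 hi))
  have hev : ∀ (A : Type) [CommRing A] (j : F →+* A) (x : A),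
      π.eval₂ j x = x ^ n + ∑ i ∈ Finset.range n, j (p i) * x ^ i := by
    intro A _ j x
    rw [hπ, eval₂_add, eval₂_X_pow, eval₂_finsetSum]
    congr 1
    refine Finset.sum_congr rfl fun i _ => ?_
    rw [eval₂_mul, eval₂_C, eval₂_X_pow]
  have hs := (IsAlgClosed.splits π).eq_prod_roots_of_monic hm
  refine ⟨π.roots.toList.length, fun i => π.roots.toList[i.1], fun i => ?_, fun A _ j x => ?_⟩
  · have h1 : π.roots.toList[i.1] ∈ π.roots := by
      rw [← Multiset.mem_toList]
      exact List.getElem_mem _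
    have h2 := isRoot_of_mem_roots h1
    refine root_mem_m n p hp _ ?_
    exact (hev F (RingHom.id F) _).symm.trans h2
  · rw [← hev A j x, Fin.prod_univ_fun_getElem π.roots.toList (fun b => x - j b)]
    conv_lhs => rw [hs]
    rw [← Multiset.prod_coe, ← Multiset.map_coe, Multiset.coe_toList, ← coe_eval₂RingHom, map_multiset_prod,
      Multiset.map_map]
    congr 1
    refine Multiset.map_congr rfl fun b _ => ?_
    simp

end Roots

section Alg

variable {R : Type} [CommRing R] {s t : Type} [Finite s] [Finite t]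

/-- The coefficients of the normalised series: of the second kind below the index `s0`, of the first
kind above. -/
noncomputable def ct (R : Type) [CommRing R] (s t : Type) (d : ℕ) (s0 : ℕ) (i : Fin d) :
    S R (s ⊕ Fin d) (t ⊕ Fin d) :=
  if i.1 < s0 then rho (Sum.inr i) else if i.1 = s0 then 1 else xi (Sum.inr i)

/-- Series without the variable `rho none`. -/
private theorem optEquiv_ren (G : S R s t) : MvPowerSeries.optionEquivLeft t (MvPolynomial s R)
    (ren id some G) = PowerSeries.C G := by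
  rw [ren_id_some, optionEquivLeft_rename]

/-- The factorization of the normalised series. -/
theorem exists_factor (d : ℕ) (s0 : ℕ) (hs0 : s0 < d) (w : Fin d → S R s (Option t))
    (hw : ∀ i, w i ∈ Ideal.span {(rho none : S R s (Option t))}) :
    ∃ (p : ℕ → S R (s ⊕ Fin d) (t ⊕ Fin d)) (W : S R (s ⊕ Fin d) (Option (t ⊕ Fin d))),
      (∀ i, p i ∈ rr R (s ⊕ Fin d) (t ⊕ Fin d)) ∧ W ∈ rr R (s ⊕ Fin d) (Option (t ⊕ Fin d)) ∧
      ∑ i : Fin d, ren id some (ct R s t d s0 i) * rho none ^ i.1 *
        (1 + ren Sum.inl (Option.map Sum.inl) (w i)) =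
      (rho none ^ s0 + ∑ k ∈ Finset.range s0, ren id some (p k) * rho none ^ k) * (1 + W) := by
  classical
  set e := MvPowerSeries.optionEquivLeft (t ⊕ Fin d) (MvPolynomial (s ⊕ Fin d) R) with he
  have heX : e (rho none) = PowerSeries.X := MvPowerSeries.optionEquivLeft_X_none
  have hv : ∀ i, ∃ v : PowerSeries (S R (s ⊕ Fin d) (t ⊕ Fin d)),
      e (ren Sum.inl (Option.map Sum.inl) (w i)) = v * PowerSeries.X := by
    intro i
    obtain ⟨u, hu⟩ := Ideal.mem_span_singleton'.1 (hw i)
    refine ⟨e (ren Sum.inl (Option.map Sum.inl) u), ?_⟩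
    rw [← hu, map_mul, map_mul, ren_rho, Option.map_none, heX]
  choose v hv using hv
  have hg : e (∑ i : Fin d, ren id some (ct R s t d s0 i) * rho none ^ i.1 *
        (1 + ren Sum.inl (Option.map Sum.inl) (w i))) =
      ∑ i : Fin d, PowerSeries.C (ct R s t d s0 i) * (PowerSeries.X ^ i.1 *
        (1 + v i * PowerSeries.X)) := by
    rw [map_sum]
    refine Finset.sum_congr rfl fun i _ => ?_
    rw [map_mul, map_mul, map_pow, map_add, map_one, hv, heX, he, optEquiv_ren, mul_assoc]
  have hkk : ∀ i : Fin d, i.1 < s0 →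
      ct R s t d s0 i ∈ kk (MvPolynomial (s ⊕ Fin d) R) (t ⊕ Fin d) := by
    intro i hi
    unfold ct kk
    rw [if_pos hi, RingHom.mem_ker]
    exact MvPowerSeries.constantCoeff_X _
  have hco : ∀ (k : ℕ) (i : Fin d), PowerSeries.coeff k (PowerSeries.C (ct R s t d s0 i) *
      (PowerSeries.X ^ i.1 * (1 + v i * PowerSeries.X))) =
      ct R s t d s0 i * if i.1 ≤ k then PowerSeries.coeff (k - i.1) (1 + v i * PowerSeries.X)
        else 0 := by
    intro k i
    rw [PowerSeries.coeff_C_mul, PowerSeries.coeff_X_pow_mul']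
  have hlow : ∀ k < s0, PowerSeries.coeff k (∑ i : Fin d, PowerSeries.C (ct R s t d s0 i) *
      (PowerSeries.X ^ i.1 * (1 + v i * PowerSeries.X))) ∈
      kk (MvPolynomial (s ⊕ Fin d) R) (t ⊕ Fin d) := by
    intro k hk
    rw [map_sum]
    refine Ideal.sum_mem _ fun i _ => ?_
    rw [hco]
    by_cases hi : i.1 ≤ k
    · exact Ideal.mul_mem_right _ _ (hkk i (by omega))
    · rw [if_neg hi, mul_zero]
      exact Ideal.zero_mem _
  have hone : PowerSeries.coeff s0 (∑ i : Fin d, PowerSeries.C (ct R s t d s0 i) *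
      (PowerSeries.X ^ i.1 * (1 + v i * PowerSeries.X))) - 1 ∈
      kk (MvPolynomial (s ⊕ Fin d) R) (t ⊕ Fin d) := by
    rw [map_sum, ← Finset.add_sum_erase Finset.univ _ (Finset.mem_univ (⟨s0, hs0⟩ : Fin d)), hco,
      if_pos le_rfl]
    have h1 : ct R s t d s0 (⟨s0, hs0⟩ : Fin d) = 1 := by
      unfold ct
      rw [if_neg (lt_irrefl _), if_pos rfl]
    have h2 : (PowerSeries.coeff (s0 - s0)) (1 + v ⟨s0, hs0⟩ * PowerSeries.X) = 1 := by
      rw [Nat.sub_self, PowerSeries.coeff_zero_eq_constantCoeff_apply, map_add, map_mul, map_one,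
        PowerSeries.constantCoeff_X, mul_zero, add_zero]
    rw [h1]
    change 1 * (PowerSeries.coeff (s0 - s0)) (1 + v ⟨s0, hs0⟩ * PowerSeries.X) + _ - 1 ∈ _
    rw [h2, mul_one, add_sub_cancel_left]
    refine Ideal.sum_mem _ fun i hi => ?_
    rw [hco]
    have hne : i.1 ≠ s0 := fun h => (Finset.mem_erase.1 hi).1 (Fin.ext h)
    by_cases hi' : i.1 ≤ s0
    · exact Ideal.mul_mem_right _ _ (hkk i (by omega))
    · rw [if_neg hi', mul_zero]
      exact Ideal.zero_mem _
  have hunit : IsUnit (PowerSeries.coeff s0 (∑ i : Fin d, PowerSeries.C (ct R s t d s0 i) *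
      (PowerSeries.X ^ i.1 * (1 + v i * PowerSeries.X)))) := by
    have h1 := IsAdicComplete.le_jacobson_bot (kk (MvPolynomial (s ⊕ Fin d) R) (t ⊕ Fin d)) hone
    rw [Ideal.mem_jacobson_bot] at h1
    have h2 := h1 1
    rw [mul_one, sub_add_cancel] at h2
    exact h2
  obtain ⟨p, U, hp, hU, hfac⟩ := wprep (kk (MvPolynomial (s ⊕ Fin d) R) (t ⊕ Fin d)) _ s0 hlow hunit
  refine ⟨p, e.symm U - 1, hp, ?_, ?_⟩
  · have h1 : PowerSeries.constantCoeff U - 1 ∈ kk (MvPolynomial (s ⊕ Fin d) R) (t ⊕ Fin d) := by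
      have := Ideal.sub_mem _ hone hU
      rwa [sub_sub_sub_cancel_left, ] at this
    have h2 : MvPowerSeries.constantCoeff (PowerSeries.constantCoeff U) -
        (1 : MvPolynomial (s ⊕ Fin d) R) = 0 := by
      have h3 := RingHom.mem_ker.1 h1
      rwa [map_sub, map_one] at h3
    have h4 := MvPowerSeries.coeff_coeff_optionEquivLeft (R := MvPolynomial (s ⊕ Fin d) R)
      (σ := t ⊕ Fin d) (e.symm U) 0 0
    rw [← he, AlgEquiv.apply_symm_apply, Finsupp.optionElim_zero, Finsupp.single_zero,
      PowerSeries.coeff_zero_eq_constantCoeff_apply, MvPowerSeries.coeff_zero_eq_constantCoeff_apply,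
      MvPowerSeries.coeff_zero_eq_constantCoeff_apply] at h4
    unfold rr cc
    rw [RingHom.mem_ker, map_sub, map_one, ← h4]
    exact h2
  · apply e.injective
    rw [hg, hfac, map_mul, map_add, map_pow, heX, map_sum, add_sub_cancel,
      AlgEquiv.apply_symm_apply]
    congr 2
    refine Finset.sum_congr rfl fun k _ => ?_
    rw [map_mul, map_pow, heX, he, optEquiv_ren]

end Alg

section Main

variable {R : Type} [CommRing R] {F : Type} [Field F] [TField R F] {s t : Type} [Finite s] [Finite t]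

/-- A family of elements of `O` which is not zero has a first element of maximal absolute value. -/
theorem exists_pivot (d : ℕ) (c : Fin d → F) (hne : ∃ i, c i ≠ 0) :
    ∃ s0 : Fin d, c s0 ≠ 0 ∧ (∀ i, i.1 < s0.1 → c i / c s0 ∈ mm R F) ∧
      ∀ i, c i / c s0 ∈ OO R F := by
  classical
  obtain ⟨i0, hi0⟩ := hne
  obtain ⟨m, -, hm⟩ := Finset.exists_max_image (Finset.univ : Finset (Fin d))
    (fun i => vv R F (c i)) ⟨i0, Finset.mem_univ _⟩
  have hM : (Finset.univ.filter fun i : Fin d => ∀ k, vv R F (c k) ≤ vv R F (c i)).Nonempty :=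
    ⟨m, by
      rw [Finset.mem_filter]
      exact ⟨Finset.mem_univ _, fun k => hm k (Finset.mem_univ _)⟩⟩
  refine ⟨(Finset.univ.filter fun i : Fin d => ∀ k, vv R F (c k) ≤ vv R F (c i)).min' hM, ?_⟩
  have h1 := Finset.min'_mem _ hM
  have h2 : ∀ i ∈ (Finset.univ.filter fun i : Fin d => ∀ k, vv R F (c k) ≤ vv R F (c i)),
      (Finset.univ.filter fun i : Fin d => ∀ k, vv R F (c k) ≤ vv R F (c i)).min' hM ≤ i :=
    fun i hi => Finset.min'_le _ i hi
  generalize (Finset.univ.filter fun i : Fin d => ∀ k, vv R F (c k) ≤ vv R F (c i)).min' hM = s0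
    at h1 h2
  rw [Finset.mem_filter] at h1
  have h3 : c s0 ≠ 0 := by
    intro h0
    have h4 := h1.2 i0
    rw [h0, map_zero, le_zero_iff, Valuation.zero_iff] at h4
    exact hi0 h4
  have h5 : (0 : (vs R F).ValueGroup) < vv R F (c s0) := zero_lt_iff.2 ((Valuation.ne_zero_iff _).2 h3)
  refine ⟨h3, fun i hi => ?_, fun i => (vv_le_iff_div h3).1 (h1.2 i)⟩
  rw [← vv_lt_one_iff, map_div₀, div_lt_one₀ h5]
  by_contra hc
  have h6 : s0 ≤ i := h2 i (by
    rw [Finset.mem_filter]
    exact ⟨Finset.mem_univ _, fun k => (h1.2 k).trans (not_lt.1 hc)⟩)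
  have h7 : s0.1 ≤ i.1 := h6
  omega

/-- evaluation of the series without the variable `rho none` -/
theorem ev_some {A : Type} [CommRing A] [TRing R A] (j : THom R F A) (G : S R s t) (a : s → F)
    (b : t → F) (hd : Dom R a b) (x : A) (hx : x ∈ mm R A) :
    ev (ren id some G : S R s (Option t)) (fun i => j.toRingHom (a i))
      (oc x (fun i => j.toRingHom (b i))) = j.toRingHom (ev G a b) := by
  have hda : ∀ i, j.toRingHom (a i) ∈ OO R A := fun i => (j.map_O _).1 (hd.1 i)
  have hdb : ∀ i, j.toRingHom (b i) ∈ mm R A := fun i => (j.map_m _).1 (hd.2 i)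
  have h1 := TRing.T_ren (R := R) (A := A) (id : s → s) (some : t → Option t) G
    (fun i => j.toRingHom (a i)) (oc x (fun i => j.toRingHom (b i))) hda (fun o => by
      cases o with
      | none => exact hx
      | some o => exact hdb o)
  refine Eq.trans h1 ?_
  exact (j.map_T G a b hd).symm

/-- Row B1 (case a): Weierstrass preparation. -/
theorem prepA_aux [IsNoetherianRing R] [IsAlgClosed F] (G : S R s (Option t)) (a : s → F) (b : t → F)
    (hd : Dom R a b) :
    (∀ (A : Type) [CommRing A] [TRing R A] (j : THom R F A) (x : A), x ∈ mm R A →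
      ev G (fun i => j.toRingHom (a i)) (oc x (fun i => j.toRingHom (b i))) = 0) ∨
    ∃ (e : F) (n : ℕ) (β : Fin n → F) (s' t' : Type) (_ : Finite s') (_ : Finite t')
      (W : S R s' (Option t')) (a' : s' → F) (b' : t' → F), e ≠ 0 ∧ (∀ i, β i ∈ mm R F) ∧
      Dom R a' b' ∧ W ∈ rr R s' (Option t') ∧
      ∀ (A : Type) [CommRing A] [TRing R A] (j : THom R F A) (x : A), x ∈ mm R A →
        ev G (fun i => j.toRingHom (a i)) (oc x (fun i => j.toRingHom (b i))) =
          j.toRingHom e * (∏ i, (x - j.toRingHom (β i))) *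
            (1 + ev W (fun i => j.toRingHom (a' i)) (oc x (fun i => j.toRingHom (b' i)))) := by
  classical
  obtain ⟨d, w, hw, hG⟩ := dom_rho G
  have hoc : ∀ (A : Type) [CommRing A] [TRing R A] {u v : Type} (j : THom R F A) (x : A)
      (a : u → F) (b : v → F), Dom R a b → x ∈ mm R A →
      Dom R (fun i => j.toRingHom (a i)) (oc x (fun i => j.toRingHom (b i))) := by
    intro A _ _ u v j x a b hab hx
    refine ⟨fun i => (j.map_O _).1 (hab.1 i), fun o => ?_⟩
    cases o with
    | none => exact hx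
    | some o => exact (j.map_m _).1 (hab.2 o)
  -- the value of `G`
  have hval : ∀ (A : Type) [CommRing A] [TRing R A] (j : THom R F A) (x : A), x ∈ mm R A →
      ev G (fun i => j.toRingHom (a i)) (oc x (fun i => j.toRingHom (b i))) =
      ∑ i : Fin d, j.toRingHom (ev (rcoeff i.1 G) a b) * x ^ i.1 *
        (1 + ev (w i.1) (fun i => j.toRingHom (a i)) (oc x (fun i => j.toRingHom (b i)))) := by
    intro A _ _ j x hx
    have hD := hoc A j x a b hd hx
    have h1 := congrArg (evHom _ _ hD) hG
    rw [evHom_apply, map_sum, Finset.sum_range] at h1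
    refine h1.trans (Finset.sum_congr rfl fun i _ => ?_)
    rw [map_mul, map_mul, map_pow, map_add, map_one, evHom_apply, evHom_apply, evHom_apply,
      ev_some j _ a b hd x hx]
    have h2 : ev (rho none : S R s (Option t)) (fun i => j.toRingHom (a i))
        (oc x (fun i => j.toRingHom (b i))) = x := TRing.T_rho _ _ hD.1 hD.2 none
    rw [h2]
  by_cases hne : ∃ i : Fin d, ev (rcoeff i.1 G) a b ≠ 0
  swap
  · left
    push Not at hne
    intro A _ _ j x hx
    rw [hval A j x hx]
    refine Finset.sum_eq_zero fun i _ => ?_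
    rw [hne i, map_zero, zero_mul, zero_mul]
  right
  obtain ⟨s0, hs0, hlow, hup⟩ := exists_pivot (R := R) d (fun i => ev (rcoeff i.1 G) a b) hne
  obtain ⟨p, W, hp, hW, hfac⟩ := exists_factor (R := R) d s0.1 s0.2 (fun i => w i.1) (fun i => hw i.1)
  -- the new parameters
  set a' : s ⊕ Fin d → F := Sum.elim a fun i =>
    ev (rcoeff i.1 G) a b / ev (rcoeff s0.1 G) a b with ha'
  set b' : t ⊕ Fin d → F := Sum.elim b fun i =>
    if i.1 < s0.1 then ev (rcoeff i.1 G) a b / ev (rcoeff s0.1 G) a b else 0 with hb'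
  have hd' : Dom R a' b' := by
    constructor
    · rintro (i | i)
      · exact hd.1 i
      · exact hup i
    · rintro (i | i)
      · exact hd.2 i
      · change (if i.1 < s0.1 then ev (rcoeff i.1 G) a b / ev (rcoeff s0.1 G) a b else 0) ∈ mm R F
        split_ifs with h
        · exact hlow i h
        · exact TRing.m_zero
  have hct : ∀ i : Fin d, ev (ct R s t d s0.1 i) a' b' =
      ev (rcoeff i.1 G) a b / ev (rcoeff s0.1 G) a b := by
    intro i
    unfold ct
    split_ifs with h1 h2
    · refine (TRing.T_rho _ _ hd'.1 hd'.2 _).trans ?_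
      exact if_pos h1
    · have h3 : i = s0 := Fin.ext h2
      rw [h3]
      exact (TRing.T_one _ _ hd'.1 hd'.2).trans (div_self hs0).symm
    · exact TRing.T_xi _ _ hd'.1 hd'.2 _
  obtain ⟨k, β, hβ, hprod⟩ := split_m (R := R) s0.1 (fun i => ev (p i) a' b')
    (fun i => ev_mem_m (p i) (hp i) a' b' hd')
  refine ⟨ev (rcoeff s0.1 G) a b, k, β, s ⊕ Fin d, t ⊕ Fin d, inferInstance, inferInstance, W, a', b',
    hs0, hβ, hd', hW, fun A _ _ j x hx => ?_⟩
  have hD' := hoc A j x a' b' hd' hx
  have hx' : ev (rho none : S R (s ⊕ Fin d) (Option (t ⊕ Fin d))) (fun i => j.toRingHom (a' i))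
      (oc x (fun i => j.toRingHom (b' i))) = x := TRing.T_rho _ _ hD'.1 hD'.2 none
  have h1 := congrArg (evHom _ _ hD') hfac
  rw [map_sum, map_mul, map_add, map_add, map_one, map_pow, map_sum, evHom_apply, evHom_apply,
    hx'] at h1
  have h2 : ∀ i : Fin d, evHom _ _ hD' (ren id some (ct R s t d s0.1 i) * rho none ^ i.1 *
      (1 + ren Sum.inl (Option.map Sum.inl) (w i.1))) =
      j.toRingHom (ev (rcoeff i.1 G) a b / ev (rcoeff s0.1 G) a b) * x ^ i.1 *
        (1 + ev (w i.1) (fun i => j.toRingHom (a i)) (oc x (fun i => j.toRingHom (b i)))) := by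
    intro i
    rw [map_mul, map_mul, map_pow, map_add, map_one, evHom_apply, evHom_apply, evHom_apply,
      ev_some j _ a' b' hd' x hx, hct, hx']
    congr 2
    refine (TRing.T_ren (Sum.inl : s → s ⊕ Fin d) (Option.map Sum.inl : Option t → Option (t ⊕ Fin d))
      (w i.1) _ _ hD'.1 hD'.2).trans ?_
    congr 1
    funext o
    cases o with
    | none => rfl
    | some o => rfl
  have h3 : ∀ i : ℕ, evHom _ _ hD' (ren id some (p i) * rho none ^ i) =
      j.toRingHom (ev (p i) a' b') * x ^ i := by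
    intro i
    rw [map_mul, map_pow, evHom_apply, evHom_apply, ev_some j _ a' b' hd' x hx, hx']
  rw [Finset.sum_congr rfl (fun i _ => h2 i), Finset.sum_congr rfl (fun i _ => h3 i),
    hprod A j.toRingHom x] at h1
  rw [hval A j x hx, mul_assoc, ← h1, Finset.mul_sum]
  refine Finset.sum_congr rfl fun i _ => ?_
  have h4 : j.toRingHom (ev (rcoeff i.1 G) a b) = j.toRingHom (ev (rcoeff s0.1 G) a b) *
      j.toRingHom (ev (rcoeff i.1 G) a b / ev (rcoeff s0.1 G) a b) := by
    rw [← map_mul, mul_div_cancel₀ _ hs0]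
  rw [h4]
  ring

end Main

end Cm
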