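import Pool.Agent.Lib.MP_c35b50_lc.Cm.AdicA

/-! # Row A7: domination of coefficients, polynomial variables (Artin-Rees) -/

namespace Cm

variable {P : Type} [CommRing P] {u t : Type}

/-- the coefficient of the monomial `μ` in the polynomial variables -/
noncomputable def ucoeff (μ : u →₀ ℕ) (F : MvPowerSeries t (MvPolynomial u P)) :
    MvPowerSeries t P := fun κ => MvPolynomial.coeff μ (MvPowerSeries.coeff κ F)

theorem coeff_ucoeff (μ : u →₀ ℕ) (F : MvPowerSeries t (MvPolynomial u P)) (κ : t →₀ ℕ) :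
    MvPowerSeries.coeff κ (ucoeff μ F) = MvPolynomial.coeff μ (MvPowerSeries.coeff κ F) := rfl

theorem ucoeff_ext {F G : MvPowerSeries t (MvPolynomial u P)} (h : ∀ μ, ucoeff μ F = ucoeff μ G) :
    F = G := by
  refine MvPowerSeries.ext fun κ => MvPolynomial.ext _ _ fun μ => ?_
  rw [← coeff_ucoeff, ← coeff_ucoeff, h μ]

theorem ucoeff_sum {ι : Type} (J : Finset ι) (μ : u →₀ ℕ)
    (F : ι → MvPowerSeries t (MvPolynomial u P)) :
    ucoeff μ (∑ i ∈ J, F i) = ∑ i ∈ J, ucoeff μ (F i) := by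
  refine MvPowerSeries.ext fun κ => ?_
  rw [coeff_ucoeff, map_sum, MvPolynomial.coeff_sum, map_sum]
  rfl

theorem ucoeff_map_mul (μ : u →₀ ℕ) (s : MvPowerSeries t P)
    (G : MvPowerSeries t (MvPolynomial u P)) :
    ucoeff μ (MvPowerSeries.map (MvPolynomial.C (σ := u) (R := P)) s * G) = s * ucoeff μ G := by
  classical
  refine MvPowerSeries.ext fun κ => ?_
  rw [coeff_ucoeff, MvPowerSeries.coeff_mul, MvPowerSeries.coeff_mul, MvPolynomial.coeff_sum]
  refine Finset.sum_congr rfl fun x _ => ?_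
  rw [MvPowerSeries.coeff_map, MvPolynomial.coeff_C_mul, coeff_ucoeff]

/-- a series with given coefficients of the monomials -/
theorem exists_ucoeff (h : (u →₀ ℕ) → MvPowerSeries t P)
    (hfin : ∀ κ : t →₀ ℕ, {μ | MvPowerSeries.coeff κ (h μ) ≠ 0}.Finite) :
    ∃ H : MvPowerSeries t (MvPolynomial u P), ∀ μ, ucoeff μ H = h μ := by
  classical
  refine ⟨fun κ => ∑ μ ∈ (hfin κ).toFinset, MvPolynomial.monomial μ (MvPowerSeries.coeff κ (h μ)),
    fun μ => ?_⟩
  refine MvPowerSeries.ext fun κ => ?_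
  change MvPolynomial.coeff μ (∑ μ ∈ (hfin κ).toFinset,
    MvPolynomial.monomial μ (MvPowerSeries.coeff κ (h μ))) = _
  rw [MvPolynomial.coeff_sum]
  by_cases h0 : MvPowerSeries.coeff κ (h μ) = 0
  · rw [h0]
    refine Finset.sum_eq_zero fun ν _ => ?_
    rw [MvPolynomial.coeff_monomial]
    split_ifs with e
    · rw [e, h0]
    · rfl
  · rw [Finset.sum_eq_single μ, MvPolynomial.coeff_monomial, if_pos rfl]
    · intro ν _ hν
      rw [MvPolynomial.coeff_monomial, if_neg hν]
    · intro hμ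
      exact absurd ((Set.Finite.mem_toFinset _).2 h0) hμ

theorem finite_ucoeff_notMem [Finite t] (F : MvPowerSeries t (MvPolynomial u P)) (n : ℕ) :
    {μ | ucoeff μ F ∉ kk P t ^ n}.Finite := by
  classical
  refine Set.Finite.subset (Set.Finite.biUnion (Finsupp.finite_of_degree_lt (σ := t) n)
    (t := fun κ => ((MvPowerSeries.coeff κ F).support : Set (u →₀ ℕ)))
    fun κ _ => Finset.finite_toSet _) ?_
  intro μ hμ
  rw [Set.mem_ofPred_eq, mem_kk_pow_iff] at hμ
  push Not at hμ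
  obtain ⟨κ, h1, h2⟩ := hμ
  refine Set.mem_biUnion (x := κ) h1 ?_
  rw [Finset.mem_coe, MvPolynomial.mem_support_iff]
  exact h2

/-- Artin-Rees: representations of the elements of an ideal with small coefficients -/
theorem exists_small [IsNoetherianRing P] [Finite t] {ι : Type} (J : Finset ι)
    (g : ι → MvPowerSeries t P) :
    ∃ k : ℕ, ∀ x ∈ Ideal.span (g '' (J : Set ι)), ∃ h : ι → MvPowerSeries t P,
      x = ∑ i ∈ J, g i * h i ∧ (∀ n, x ∈ kk P t ^ n → ∀ i, h i ∈ kk P t ^ (n - k)) ∧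
      (x = 0 → h = 0) := by
  classical
  obtain ⟨k, hk⟩ := Ideal.exists_pow_inf_eq_pow_smul (kk P t)
    (Ideal.span (g '' (J : Set ι)) : Submodule (MvPowerSeries t P) (MvPowerSeries t P))
  have key : ∀ n, ∀ x ∈ Ideal.span (g '' (J : Set ι)), x ∈ kk P t ^ n →
      ∃ h : ι → MvPowerSeries t P, x = ∑ i ∈ J, g i * h i ∧ ∀ i, h i ∈ kk P t ^ (n - k) := by
    intro n x hx hxn
    have hmem : x ∈ kk P t ^ (n - k) • (Ideal.span (g '' (J : Set ι)) :
        Submodule (MvPowerSeries t P) (MvPowerSeries t P)) := by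
      by_cases hnk : k ≤ n
      · have h1 : x ∈ kk P t ^ n • (⊤ : Submodule (MvPowerSeries t P) (MvPowerSeries t P)) ⊓
            (Ideal.span (g '' (J : Set ι)) :
              Submodule (MvPowerSeries t P) (MvPowerSeries t P)) := by
          refine ⟨?_, hx⟩
          have : x = x • (1 : MvPowerSeries t P) := by rw [smul_eq_mul, mul_one]
          rw [this]
          exact Submodule.smul_mem_smul hxn Submodule.mem_top
        rw [hk n hnk] at h1
        exact Submodule.smul_mono le_rfl inf_le_right h1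
      · have h2 : n - k = 0 := by omega
        rw [h2, pow_zero, Ideal.one_eq_top, Submodule.top_smul]
        exact hx
    obtain ⟨a, ha, hax⟩ := (Submodule.mem_ideal_smul_span_iff_exists_sum' _ _ _ _).1 hmem
    refine ⟨fun i => if hi : i ∈ (J : Set ι) then a ⟨i, hi⟩ else 0, ?_, ?_⟩
    · rw [← hax, Finsupp.sum_fintype a (fun i c => c • g i) (fun i => zero_smul _ _)]
      rw [← Finset.sum_attach J]
      refine Finset.sum_bij (fun i _ => ⟨i.1, i.2⟩) (fun i _ => Finset.mem_attach _ _) ?_ ?_ ?_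
      · intro a _ b _ h
        exact Subtype.ext (congrArg (fun z => z.1) h)
      · intro b _
        exact ⟨⟨b.1, b.2⟩, Finset.mem_univ _, rfl⟩
      · intro i _
        dsimp only
        rw [dif_pos i.2, smul_eq_mul, mul_comm]
    · intro i
      dsimp only
      split_ifs with hi
      · exact ha _
      · exact Ideal.zero_mem _
  refine ⟨k, fun x hx => ?_⟩
  by_cases h0 : x = 0
  · refine ⟨0, ?_, ?_, fun _ => rfl⟩
    · rw [h0]
      symm
      refine Finset.sum_eq_zero fun i _ => ?_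
      rw [Pi.zero_apply, mul_zero]
    · intro n _ i
      exact Ideal.zero_mem _
  · have hex : ∃ κ, MvPowerSeries.coeff κ x ≠ 0 := by
      by_contra hno
      push Not at hno
      exact h0 (MvPowerSeries.ext fun κ => by rw [hno κ, map_zero])
    obtain ⟨κ, hκ⟩ := hex
    have hb : ∀ n, x ∈ kk P t ^ n → n ≤ κ.degree := by
      intro n hn
      by_contra hlt
      exact hκ ((mem_kk_pow_iff n x).1 hn κ (not_le.1 hlt))
    have hx0 : x ∈ kk P t ^ 0 := by
      rw [pow_zero, Ideal.one_eq_top]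
      exact Submodule.mem_top
    obtain ⟨h, h1, h2⟩ := key _ x hx (Nat.findGreatest_spec (P := fun n => x ∈ kk P t ^ n)
      (Nat.zero_le κ.degree) hx0)
    refine ⟨h, h1, ?_, fun h => absurd h h0⟩
    intro n hn i
    refine Ideal.pow_le_pow_right ?_ (h2 i)
    have := Nat.le_findGreatest (P := fun n => x ∈ kk P t ^ n) (hb n hn) hn
    omega

theorem dom_xi [IsNoetherianRing P] [Finite t] (F : MvPowerSeries t (MvPolynomial u P)) :
    ∃ (J : Finset (u →₀ ℕ)) (H : (u →₀ ℕ) → MvPowerSeries t (MvPolynomial u P)),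
      F = ∑ μ ∈ J, MvPowerSeries.map (MvPolynomial.C (σ := u) (R := P)) (ucoeff μ F) * H μ ∧
      ∀ μ ν, ucoeff ν F = 0 → ucoeff ν (H μ) = 0 := by
  classical
  have hfg : (Ideal.span (Set.range fun μ => ucoeff μ F)).FG := IsNoetherian.noetherian _
  obtain ⟨T, hT, hspan⟩ := (Submodule.fg_span_iff_fg_span_finset_subset _).1 hfg
  obtain ⟨J, rfl⟩ : ∃ J : Finset (u →₀ ℕ), T = J.image fun μ => ucoeff μ F := by
    obtain ⟨J, hJ⟩ := Finset.subset_set_image_iff.1 (by rw [Set.image_univ]; exact hT :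
      (T : Set (MvPowerSeries t P)) ⊆ (fun μ => ucoeff μ F) '' Set.univ)
    exact ⟨J, hJ.2.symm⟩
  rw [Finset.coe_image] at hspan
  obtain ⟨k, hk⟩ := exists_small J fun μ => ucoeff μ F
  have hmem : ∀ μ, ucoeff μ F ∈ Ideal.span ((fun μ => ucoeff μ F) '' (J : Set (u →₀ ℕ))) := by
    intro μ
    change ucoeff μ F ∈ Submodule.span _ _
    rw [← hspan]
    exact Submodule.subset_span ⟨μ, rfl⟩
  choose h h1 h2 h3 using fun μ => hk _ (hmem μ)
  have hfin : ∀ ν (κ : t →₀ ℕ), {μ | MvPowerSeries.coeff κ (h μ ν) ≠ 0}.Finite := by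
    intro ν κ
    refine (finite_ucoeff_notMem F (κ.degree + 1 + k)).subset ?_
    intro μ hμ hμ'
    refine hμ ((mem_kk_pow_iff (κ.degree + 1) _).1 ?_ κ (Nat.lt_succ_self _))
    have := h2 μ _ hμ' ν
    rwa [Nat.add_sub_cancel] at this
  choose H hH using fun ν => exists_ucoeff (fun μ => h μ ν) (hfin ν)
  refine ⟨J, H, ucoeff_ext fun μ => ?_, fun μ ν hν => ?_⟩
  · rw [ucoeff_sum]
    conv_lhs => rw [h1 μ]
    refine Finset.sum_congr rfl fun ν _ => ?_
    rw [ucoeff_map_mul, hH]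
  · rw [hH, h3 ν hν]
    rfl

end Cm
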