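import Pool.Agent.Lib.MP_c35b50_lc.Cm.TFieldB
import Pool.Agent.Lib.MP_c35b50_lc.Cm.DomXi

/-!
# Row B2: one element `x` of the valuation ring together with `y = 1 / π (x)`

The coefficients of a series (polynomials in `x`, `y` and parameters) are replaced by their
normal forms modulo `y * π (x) - 1`, then the coefficients of the monomials in `x`, `y` are
dominated by finitely many of them (`dom_xi`).
-/

namespace Cm

open Polynomial

section Division

variable {Q : Type} [CommRing Q] {d : ℕ}

/-- the polynomial `y * (x ^ d + ∑ c_i x ^ i) - 1` (`x` is the variable `false`) -/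
noncomputable def pbRel (c : Fin d → Q) : MvPolynomial Bool Q :=
  MvPolynomial.X true * (MvPolynomial.X false ^ d +
    ∑ i : Fin d, MvPolynomial.C (c i) * MvPolynomial.X false ^ (i : ℕ)) - 1

/-- normal forms -/
def PbNF (d : ℕ) (N : MvPolynomial Bool Q) : Prop :=
  ∀ ν : Bool →₀ ℕ, 1 ≤ ν true → d ≤ ν false → MvPolynomial.coeff ν N = 0

theorem pb_XY (k n : ℕ) : (MvPolynomial.X false ^ k * MvPolynomial.X true ^ n :
    MvPolynomial Bool Q) = MvPolynomial.monomial (Finsupp.single false k + Finsupp.single true n)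
      1 := by
  rw [MvPolynomial.X_pow_eq_monomial, MvPolynomial.X_pow_eq_monomial, MvPolynomial.monomial_mul,
    one_mul]

theorem pb_mono (c : Fin d → Q) (m : ℕ) : ∀ k n : ℕ, k + n = m →
    ∃ N r : MvPolynomial Bool Q, (MvPolynomial.X false ^ k * MvPolynomial.X true ^ n :
      MvPolynomial Bool Q) = N + pbRel c * r ∧ PbNF d N := by
  induction m using Nat.strong_induction_on with
  | _ m ih =>
    intro k n hm
    by_cases h : 1 ≤ n ∧ d ≤ k
    · obtain ⟨hn, hk⟩ := h
      obtain ⟨N0, r0, e0, h0⟩ := ih (k - d + (n - 1)) (by omega) (k - d) (n - 1) rfl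
      have h1 : ∀ i : Fin d, ∃ N r : MvPolynomial Bool Q,
          (MvPolynomial.X false ^ (k - d + i) * MvPolynomial.X true ^ n :
            MvPolynomial Bool Q) = N + pbRel c * r ∧ PbNF d N := fun i => by
        have hi := i.2
        exact ih (k - d + i + n) (by omega) _ _ rfl
      choose N1 r1 e1 h1 using h1
      refine ⟨N0 - ∑ i, MvPolynomial.C (c i) * N1 i, MvPolynomial.X false ^ (k - d) *
        MvPolynomial.X true ^ (n - 1) + r0 - ∑ i, MvPolynomial.C (c i) * r1 i, ?_, ?_⟩
      · have e2 : (MvPolynomial.X false ^ k * MvPolynomial.X true ^ n : MvPolynomial Bool Q) =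
            MvPolynomial.X false ^ (k - d) * MvPolynomial.X true ^ (n - 1) * (pbRel c + 1 -
              MvPolynomial.X true * ∑ i : Fin d, MvPolynomial.C (c i) *
                MvPolynomial.X false ^ (i : ℕ)) := by
          have hk' : k = (k - d) + d := by omega
          have hn' : n = (n - 1) + 1 := by omega
          conv_lhs => rw [hk', hn', pow_add, pow_add, pow_one]
          rw [pbRel]
          ring
        have e3 : (MvPolynomial.X false ^ (k - d) * MvPolynomial.X true ^ (n - 1) *
            (MvPolynomial.X true * ∑ i : Fin d, MvPolynomial.C (c i) *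
                MvPolynomial.X false ^ (i : ℕ)) : MvPolynomial Bool Q) =
            ∑ i : Fin d, MvPolynomial.C (c i) * (N1 i + pbRel c * r1 i) := by
          rw [Finset.mul_sum, Finset.mul_sum]
          refine Finset.sum_congr rfl fun i _ => ?_
          rw [← e1 i, pow_add]
          have hn' : n = (n - 1) + 1 := by omega
          conv_rhs => rw [hn', pow_succ]
          ring
        rw [e2, mul_sub, e3]
        have e4 : ∑ i : Fin d, MvPolynomial.C (c i) * (N1 i + pbRel c * r1 i) =
            ∑ i, MvPolynomial.C (c i) * N1 i + pbRel c * ∑ i, MvPolynomial.C (c i) * r1 i := by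
          rw [Finset.mul_sum, ← Finset.sum_add_distrib]
          refine Finset.sum_congr rfl fun i _ => ?_
          ring
        rw [e4, mul_add, mul_one]
        conv_lhs => rw [e0]
        conv_rhs => rw [e0]
        ring
      · intro ν hν1 hν2
        rw [MvPolynomial.coeff_sub, h0 ν hν1 hν2, MvPolynomial.coeff_sum]
        rw [Finset.sum_eq_zero, sub_zero]
        intro i _
        rw [MvPolynomial.coeff_C_mul, h1 i ν hν1 hν2, mul_zero]
    · refine ⟨_, 0, by rw [mul_zero, add_zero], ?_⟩
      intro ν hν1 hν2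
      rw [pb_XY, MvPolynomial.coeff_monomial, if_neg]
      rintro rfl
      apply h
      simpa using And.intro hν1 hν2

theorem pb_div (c : Fin d → Q) (q : MvPolynomial Bool Q) :
    ∃ N r : MvPolynomial Bool Q, q = N + pbRel c * r ∧ PbNF d N := by
  induction q using MvPolynomial.induction_on' with
  | monomial u a =>
    obtain ⟨N, r, e, h⟩ := pb_mono c _ (u false) (u true) rfl
    refine ⟨MvPolynomial.C a * N, MvPolynomial.C a * r, ?_, ?_⟩
    · have e2 : u = Finsupp.single false (u false) + Finsupp.single true (u true) := by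
        ext i
        cases i <;> simp
      have e3 : (MvPolynomial.monomial u a : MvPolynomial Bool Q) = MvPolynomial.C a *
          (MvPolynomial.X false ^ (u false) * MvPolynomial.X true ^ (u true)) := by
        rw [pb_XY, MvPolynomial.C_mul_monomial, mul_one, ← e2]
      rw [e3, e]
      ring
    · intro ν hν1 hν2
      rw [MvPolynomial.coeff_C_mul, h ν hν1 hν2, mul_zero]
  | add p q hp hq =>
    obtain ⟨N, r, e, h⟩ := hp
    obtain ⟨N', r', e', h'⟩ := hq
    refine ⟨N + N', r + r', ?_, ?_⟩
    · rw [e, e']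
      ring
    · intro ν hν1 hν2
      rw [MvPolynomial.coeff_add, h ν hν1 hν2, h' ν hν1 hν2, add_zero]

/-- Coefficientwise division. -/
theorem pb_div_series {t : Type} (c : Fin d → Q) (G : MvPowerSeries t (MvPolynomial Bool Q)) :
    ∃ N r : MvPowerSeries t (MvPolynomial Bool Q), G = N + MvPowerSeries.C (pbRel c) * r ∧
      ∀ ν : Bool →₀ ℕ, 1 ≤ ν true → d ≤ ν false → ucoeff ν N = 0 := by
  choose N r e h using fun κ => pb_div c (MvPowerSeries.coeff κ G)
  refine ⟨fun κ => N κ, fun κ => r κ, ?_, ?_⟩
  · refine MvPowerSeries.ext fun κ => ?_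
    rw [map_add, MvPowerSeries.coeff_C_mul]
    exact e κ
  · intro ν hν1 hν2
    refine MvPowerSeries.ext fun κ => ?_
    rw [coeff_ucoeff, map_zero]
    exact h κ ν hν1 hν2

end Division

section Eval

variable {R : Type} [CommRing R] {s t : Type}

variable (R s) in
/-- the polynomials in `x`, `y` over the polynomials in the parameters -/
noncomputable def pbIota :
    MvPolynomial Bool (MvPolynomial s R) →+* MvPolynomial (Option (Option s)) R :=
  MvPolynomial.eval₂Hom (MvPolynomial.rename (fun i => some (some i)) :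
    MvPolynomial s R →ₐ[R] MvPolynomial (Option (Option s)) R).toRingHom
    (fun b => cond b (MvPolynomial.X (some none)) (MvPolynomial.X none))

theorem pbIota_C (q : MvPolynomial s R) :
    pbIota R s (MvPolynomial.C q) = MvPolynomial.rename (fun i => some (some i)) q := by
  rw [pbIota, MvPolynomial.eval₂Hom_C]
  rfl

theorem pbIota_X (b : Bool) : pbIota R s (MvPolynomial.X b) =
    cond b (MvPolynomial.X (some none)) (MvPolynomial.X none) := by
  rw [pbIota, MvPolynomial.eval₂Hom_X']

variable (R) in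
/-- a polynomial as a polynomial in `x`, `y` with more parameters -/
noncomputable def pbEmb {s' : Type} (f : s → s') :
    MvPolynomial (Option (Option s)) R →+* MvPolynomial Bool (MvPolynomial s' R) :=
  MvPolynomial.eval₂Hom (MvPolynomial.C.comp MvPolynomial.C)
    (oc (MvPolynomial.X false) (oc (MvPolynomial.X true)
      (fun i => MvPolynomial.C (MvPolynomial.X (f i)))))

theorem pbIota_comp_pbEmb {s' : Type} (f : s → s') : (pbIota R s').comp (pbEmb R f) =
    (MvPolynomial.rename (Option.map (Option.map f)) : MvPolynomial (Option (Option s)) R →ₐ[R]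
      MvPolynomial (Option (Option s')) R).toRingHom := by
  refine MvPolynomial.ringHom_ext (fun r => ?_) (fun i => ?_)
  · rw [RingHom.comp_apply, pbEmb, MvPolynomial.eval₂Hom_C, RingHom.comp_apply, pbIota_C]
    change _ = MvPolynomial.rename _ _
    rw [MvPolynomial.rename_C, MvPolynomial.rename_C]
  · rw [RingHom.comp_apply, pbEmb, MvPolynomial.eval₂Hom_X']
    change _ = MvPolynomial.rename _ _
    rw [MvPolynomial.rename_X]
    rcases i with _ | _ | i
    · rw [oc_none, pbIota_X]
      rfl
    · rw [oc_some, oc_none, pbIota_X]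
      rfl
    · rw [oc_some, oc_some, pbIota_C, MvPolynomial.rename_X]
      rfl

variable {A : Type} [CommRing A] [TRing R A] [Finite s] [Finite t]

/-- the evaluation of series in `x`, `y` over the polynomials in the parameters -/
noncomputable def pbE (x y : A) (a : s → A) (b : t → A) (h : Dom R (oc x (oc y a)) b) :
    MvPowerSeries t (MvPolynomial Bool (MvPolynomial s R)) →+* A :=
  (evHom (oc x (oc y a)) b h).comp (MvPowerSeries.map (pbIota R s))

theorem pbE_apply (x y : A) (a : s → A) (b : t → A) (h : Dom R (oc x (oc y a)) b)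
    (G : MvPowerSeries t (MvPolynomial Bool (MvPolynomial s R))) :
    pbE x y a b h G = ev (MvPowerSeries.map (pbIota R s) G) (oc x (oc y a)) b := rfl

theorem pbE_map (x y : A) (a : s → A) (b : t → A) (h : Dom R (oc x (oc y a)) b)
    (g : S R s t) : pbE x y a b h (MvPowerSeries.map MvPolynomial.C g) = ev g a b := by
  rw [pbE_apply]
  have e : MvPowerSeries.map (pbIota R s) (MvPowerSeries.map MvPolynomial.C g) =
      ren (fun i => some (some i)) id g := by
    rw [ren_apply, MvPowerSeries.rename_id, ← RingHom.comp_apply, ← MvPowerSeries.map_comp]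
    have e2 : (pbIota R s).comp MvPolynomial.C =
        (MvPolynomial.rename (fun i => some (some i)) : MvPolynomial s R →ₐ[R]
          MvPolynomial (Option (Option s)) R).toRingHom :=
      RingHom.ext fun q => pbIota_C q
    rw [e2]
    rfl
  rw [e]
  exact TRing.T_ren _ _ g _ _ h.1 h.2

theorem pbE_C (x y : A) (a : s → A) (b : t → A) (h : Dom R (oc x (oc y a)) b)
    (q : MvPolynomial Bool (MvPolynomial s R)) : pbE x y a b h (MvPowerSeries.C q) =
      MvPolynomial.eval₂Hom (MvPolynomial.eval₂Hom (base R A) a) (fun b => cond b y x) q := by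
  rw [pbE_apply, MvPowerSeries.map_C, ev_C _ _ _ h]
  have e : (MvPolynomial.eval₂Hom (base R A) (oc x (oc y a))).comp (pbIota R s) =
      MvPolynomial.eval₂Hom (MvPolynomial.eval₂Hom (base R A) a) (fun b => cond b y x) := by
    refine MvPolynomial.ringHom_ext (fun r => ?_) (fun i => ?_)
    · rw [RingHom.comp_apply, pbIota_C, MvPolynomial.eval₂Hom_C, MvPolynomial.coe_eval₂Hom,
        MvPolynomial.eval₂_rename]
      rfl
    · rw [RingHom.comp_apply, pbIota_X, MvPolynomial.eval₂Hom_X']
      cases i
      · exact MvPolynomial.eval₂_X _ _ _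
      · exact MvPolynomial.eval₂_X _ _ _
  exact RingHom.congr_fun e q

theorem pbE_emb {s0 : Type} [Finite s0] (f : s0 → s) (x y : A) (a : s → A) (b : t → A)
    (h : Dom R (oc x (oc y a)) b) (G : S R (Option (Option s0)) t) :
    pbE x y a b h (MvPowerSeries.map (pbEmb R f) G) = ev G (oc x (oc y (a ∘ f))) b := by
  rw [pbE_apply]
  have e : MvPowerSeries.map (pbIota R s) (MvPowerSeries.map (pbEmb R f) G) =
      ren (Option.map (Option.map f)) id G := by
    rw [ren_apply, MvPowerSeries.rename_id, ← RingHom.comp_apply, ← MvPowerSeries.map_comp,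
      pbIota_comp_pbEmb]
    rfl
  rw [e]
  refine (TRing.T_ren _ _ G _ _ h.1 h.2).trans ?_
  congr 1
  funext i
  rcases i with _ | _ | i
  · rfl
  · rfl
  · rfl

end Eval

section Poly

variable {R : Type} [CommRing R] {s : Type} {F : Type} [Field F]

/-- a polynomial in `x`, `y` over the polynomials in the parameters as a polynomial over `F` -/
noncomputable def pbPhi (φ : MvPolynomial s R →+* F) :
    MvPolynomial Bool (MvPolynomial s R) →+* F[X][X] :=
  MvPolynomial.eval₂Hom ((C : F[X] →+* F[X][X]).comp ((C : F →+* F[X]).comp φ))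
    (fun b => cond b (X : F[X][X]) (C (X : F[X])))

theorem pbPhi_coeff (φ : MvPolynomial s R →+* F) (q : MvPolynomial Bool (MvPolynomial s R))
    (n k : ℕ) : ((pbPhi φ q).coeff n).coeff k =
      φ (MvPolynomial.coeff (Finsupp.single false k + Finsupp.single true n) q) := by
  induction q using MvPolynomial.induction_on' with
  | monomial u a =>
    have e2 : u = Finsupp.single false (u false) + Finsupp.single true (u true) := by
      ext i
      cases i <;> simp
    have e3 : (MvPolynomial.monomial u a : MvPolynomial Bool (MvPolynomial s R)) =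
        MvPolynomial.C a *
          (MvPolynomial.X false ^ (u false) * MvPolynomial.X true ^ (u true)) := by
      rw [pb_XY, MvPolynomial.C_mul_monomial, mul_one, ← e2]
    have e4 : pbPhi φ (MvPolynomial.monomial u a) =
        C (C (φ a) * X ^ (u false)) * X ^ (u true) := by
      rw [e3, map_mul, map_mul, map_pow, map_pow, pbPhi, MvPolynomial.eval₂Hom_C,
        MvPolynomial.eval₂Hom_X', MvPolynomial.eval₂Hom_X', RingHom.comp_apply,
        RingHom.comp_apply, cond_true, cond_false, C_mul, C_pow]
      ring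
    rw [e4, coeff_C_mul, coeff_X_pow, MvPolynomial.coeff_monomial]
    by_cases h : n = u true
    · rw [if_pos h, mul_one, coeff_C_mul, coeff_X_pow]
      by_cases h2 : k = u false
      · rw [if_pos h2, mul_one, if_pos]
        rw [h, h2, ← e2]
      · rw [if_neg h2, mul_zero, if_neg, map_zero]
        intro h3
        apply h2
        rw [h3]
        simp
    · rw [if_neg h, mul_zero, coeff_zero, if_neg, map_zero]
      intro h3
      apply h
      rw [h3]
      simp
  | add p q hp hq =>
    rw [map_add, coeff_add, coeff_add, hp, hq, MvPolynomial.coeff_add, map_add]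

theorem pbPhi_eval {A : Type} [CommRing A] (φ : MvPolynomial s R →+* F) (j : F →+* A) (x y : A)
    (q : MvPolynomial Bool (MvPolynomial s R)) :
    (((pbPhi φ q).map (mapRingHom j)).eval (C y)).eval x =
      MvPolynomial.eval₂Hom (j.comp φ) (fun b => cond b y x) q := by
  have e : ((evalRingHom x).comp ((evalRingHom (C y)).comp
      ((mapRingHom (mapRingHom j)).comp (pbPhi φ)))) =
      MvPolynomial.eval₂Hom (j.comp φ) (fun b => cond b y x) := by
    refine MvPolynomial.ringHom_ext (fun r => ?_) (fun i => ?_)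
    · simp [pbPhi]
    · cases i <;> simp [pbPhi]
  exact RingHom.congr_fun e q

end Poly

section Main

variable {R : Type} [CommRing R] {F : Type} [Field F] [TField R F]
  {s t : Type} [Finite s] [Finite t]

theorem pb_base {A : Type} [CommRing A] [TRing R A] (j : THom R F A) (r : R) :
    j.toRingHom (base R F r) = base R A r := by
  have h := j.map_T (cst R Empty Empty r) (fun i => i.elim) (fun i => i.elim)
    ⟨fun i => i.elim, fun i => i.elim⟩
  refine h.trans ?_
  change TRing.T (cst R Empty Empty r) _ _ = TRing.T (cst R Empty Empty r) _ _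
  congr 1
  · funext i
    exact i.elim
  · funext i
    exact i.elim

theorem pb_one_notMem : (1 : F) ∉ mm R F := by
  intro h
  obtain ⟨_, h2 | h2⟩ := (TField.m_iff (R := R) (1 : F)).1 h
  · exact one_ne_zero h2
  · apply h2
    rw [inv_one]
    exact one_mem _

/-- The value of the relation `y * π (x) - 1`. -/
theorem pbE_rel (pi : F[X]) (hpi : pi.Monic) (a : s → F) (b : t → F)
    {A : Type} [CommRing A] [TRing R A] (j : THom R F A) (x y : A)
    (hxy : y * (pi.map j.toRingHom).eval x = 1)
    (h : Dom R (oc x (oc y (fun i => j.toRingHom (Sum.elim a (fun i : Fin pi.natDegree =>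
      pi.coeff i) i)))) (fun i => j.toRingHom (b i))) :
    pbE (R := R) x y (fun i => j.toRingHom (Sum.elim a (fun i : Fin pi.natDegree =>
      pi.coeff i) i)) (fun i => j.toRingHom (b i)) h (MvPowerSeries.C (pbRel
        (fun i : Fin pi.natDegree => MvPolynomial.X (Sum.inr i)))) = 0 := by
  have e1 : (pi.map j.toRingHom).eval x = x ^ pi.natDegree +
      ∑ i : Fin pi.natDegree, j.toRingHom (pi.coeff i) * x ^ (i : ℕ) := by
    conv_lhs => rw [hpi.as_sum]
    rw [Polynomial.map_add, Polynomial.map_pow, Polynomial.map_X, Polynomial.map_sum, eval_add,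
      eval_pow, eval_X, eval_finsetSum, Finset.sum_range]
    congr 1
    refine Finset.sum_congr rfl fun i _ => ?_
    rw [Polynomial.map_mul, Polynomial.map_pow, Polynomial.map_X, Polynomial.map_C, eval_mul,
      eval_pow, eval_X, eval_C]
  rw [pbE_C, pbRel, map_sub, map_mul, map_add, map_pow, map_one, map_sum,
    MvPolynomial.eval₂Hom_X', MvPolynomial.eval₂Hom_X', cond_true, cond_false, sub_eq_zero]
  rw [← hxy, e1]
  congr 2
  refine Finset.sum_congr rfl fun i _ => ?_
  rw [map_mul, map_pow, MvPolynomial.eval₂Hom_C, MvPolynomial.eval₂Hom_X',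
    MvPolynomial.eval₂Hom_X']
  rfl

theorem pb_prepB [IsNoetherianRing R] (pi : F[X]) (hpi : pi.Monic)
    (hO : ∀ n, pi.coeff n ∈ OO R F)
    (G : S R (Option (Option s)) t) (a : s → F) (b : t → F) (hd : Dom R a b) :
    (∀ (A : Type) [CommRing A] [TRing R A] (j : THom R F A) (x y : A), x ∈ OO R A → y ∈ OO R A →
      y * (pi.map j.toRingHom).eval x = 1 →
      ev G (oc x (oc y (fun i => j.toRingHom (a i)))) (fun i => j.toRingHom (b i)) = 0) ∨
    ∃ (e : F) (P : F[X][X]) (s' t' : Type) (_ : Finite s') (_ : Finite t')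
      (W : S R (Option (Option s')) t') (a' : s' → F) (b' : t' → F), e ≠ 0 ∧
      (∀ n k, (P.coeff n).coeff k ∈ OO R F) ∧ (∃ n k, (P.coeff n).coeff k ∉ mm R F) ∧
      (∀ n, 1 ≤ n → P.coeff n = 0 ∨ (P.coeff n).natDegree < pi.natDegree) ∧
      Dom R a' b' ∧ W ∈ rr R (Option (Option s')) t' ∧
      ∀ (A : Type) [CommRing A] [TRing R A] (j : THom R F A) (x y : A), x ∈ OO R A →
        y ∈ OO R A → y * (pi.map j.toRingHom).eval x = 1 →
        ev G (oc x (oc y (fun i => j.toRingHom (a i)))) (fun i => j.toRingHom (b i)) =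
          j.toRingHom e * (((P.map (Polynomial.mapRingHom j.toRingHom)).eval (C y)).eval x +
            ev W (oc x (oc y (fun i => j.toRingHom (a' i)))) (fun i => j.toRingHom (b' i))) := by
  classical
  -- the parameters together with the coefficients of `pi`
  set a1 : s ⊕ Fin pi.natDegree → F := Sum.elim a (fun i => pi.coeff i) with ha1
  have hd1 : Dom R a1 b := by
    refine ⟨?_, hd.2⟩
    rintro (i | i)
    · exact hd.1 i
    · exact hO i
  obtain ⟨N, r, hN, hNF⟩ := pb_div_series (d := pi.natDegree)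
    (fun i => MvPolynomial.X (Sum.inr i))
    (MvPowerSeries.map (pbEmb R (Sum.inl : s → s ⊕ Fin pi.natDegree)) G)
  obtain ⟨J, H, hJ, hH⟩ := dom_xi N
  have hHF : ∀ μ ν : Bool →₀ ℕ, 1 ≤ ν true → pi.natDegree ≤ ν false → ucoeff ν (H μ) = 0 :=
    fun μ ν h1 h2 => hH μ ν (hNF ν h1 h2)
  set γ : (Bool →₀ ℕ) → F := fun μ => ev (ucoeff μ N : S R (s ⊕ Fin pi.natDegree) t) a1 b with hγ
  have hdom : ∀ (A : Type) [CommRing A] [TRing R A] (j : THom R F A) (x y : A), x ∈ OO R A →
      y ∈ OO R A → Dom R (oc x (oc y (fun i => j.toRingHom (a1 i))))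
        (fun i => j.toRingHom (b i)) := by
    intro A _ _ j x y hx hy
    refine ⟨?_, fun i => (j.map_m _).1 (hd.2 i)⟩
    rintro (_ | _ | i)
    · exact hx
    · exact hy
    · exact (j.map_O _).1 (hd1.1 i)
  have hkey : ∀ (A : Type) [CommRing A] [TRing R A] (j : THom R F A) (x y : A)
      (hx : x ∈ OO R A) (hy : y ∈ OO R A), y * (pi.map j.toRingHom).eval x = 1 →
      ev G (oc x (oc y (fun i => j.toRingHom (a i)))) (fun i => j.toRingHom (b i)) =
        ∑ μ ∈ J, j.toRingHom (γ μ) * pbE x y _ _ (hdom A j x y hx hy) (H μ) := by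
    intro A _ _ j x y hx hy hxy
    have e1 := pbE_emb (Sum.inl : s → s ⊕ Fin pi.natDegree) x y _ _ (hdom A j x y hx hy) G
    refine e1.symm.trans ?_
    rw [hN, map_add, map_mul, pbE_rel pi hpi a b j x y hxy, zero_mul, add_zero]
    conv_lhs => rw [hJ]
    rw [map_sum]
    refine Finset.sum_congr rfl fun μ _ => ?_
    rw [map_mul, pbE_map]
    congr 1
    exact (j.map_T (ucoeff μ N) a1 b hd1).symm
  by_cases hall : ∀ μ ∈ J, γ μ = 0
  · left
    intro A _ _ j x y hx hy hxy
    rw [hkey A j x y hx hy hxy]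
    refine Finset.sum_eq_zero fun μ hμ => ?_
    rw [hall μ hμ, map_zero, zero_mul]
  right
  push Not at hall
  obtain ⟨μ1, hμ1, hne⟩ := hall
  obtain ⟨μ0, hμ0, hmax⟩ := Finset.exists_max_image J (fun μ => vv R F (γ μ)) ⟨μ1, hμ1⟩
  have hz : ∀ μ, ∃ z ∈ OO R F, μ ∈ J → γ μ = z * γ μ0 := by
    intro μ
    by_cases hμ : μ ∈ J
    · obtain ⟨z, hz, e⟩ := (vv_le_iff (γ μ) (γ μ0)).1 (hmax μ hμ)
      exact ⟨z, hz, fun _ => e⟩
    · exact ⟨0, zero_mem _, fun h => absurd h hμ⟩
  choose z hz1 hz2 using hz
  have he0 : γ μ0 ≠ 0 := by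
    intro h
    apply hne
    rw [hz2 μ1 hμ1, h, mul_zero]
  set φ : MvPolynomial (s ⊕ Fin pi.natDegree) R →+* F :=
    MvPolynomial.eval₂Hom (base R F) a1 with hφ
  have hφe : ∀ q, φ q = ev (MvPowerSeries.C q : S R (s ⊕ Fin pi.natDegree) t) a1 b := fun q =>
    (ev_C q a1 b hd1).symm
  have hφO : ∀ q, φ q ∈ OO R F := fun q => by
    rw [hφe]
    exact TRing.T_mem _ _ _ hd1.1 hd1.2
  set P : F[X][X] := ∑ μ ∈ J, C (C (z μ)) * pbPhi φ (MvPowerSeries.constantCoeff (H μ)) with hP
  have hPc : ∀ n k, (P.coeff n).coeff k = ∑ μ ∈ J, z μ * φ (MvPolynomial.coeff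
      (Finsupp.single false k + Finsupp.single true n) (MvPowerSeries.constantCoeff (H μ))) := by
    intro n k
    rw [hP, finsetSum_coeff, finsetSum_coeff]
    refine Finset.sum_congr rfl fun μ _ => ?_
    rw [coeff_C_mul, coeff_C_mul, pbPhi_coeff]
  -- the remainder
  set T : (Bool →₀ ℕ) → MvPowerSeries t (MvPolynomial Bool (MvPolynomial
      (s ⊕ Fin pi.natDegree) R)) := fun μ =>
    H μ - MvPowerSeries.C (MvPowerSeries.constantCoeff (H μ)) with hT
  have hT0 : ∀ μ, MvPowerSeries.constantCoeff (T μ) = 0 := by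
    intro μ
    rw [hT]
    simp only
    rw [map_sub, MvPowerSeries.constantCoeff_C, sub_self]
  set W : S R (Option (Option ((s ⊕ Fin pi.natDegree) ⊕ {μ // μ ∈ J}))) t :=
    ∑ μ : {μ // μ ∈ J}, xi (some (some (Sum.inr μ))) *
      ren (Option.map (Option.map Sum.inl)) id
        (MvPowerSeries.map (pbIota R (s ⊕ Fin pi.natDegree)) (T μ.1)) with hW
  have hdW : Dom R (Sum.elim a1 (fun μ : {μ // μ ∈ J} => z μ.1) :
      (s ⊕ Fin pi.natDegree) ⊕ {μ // μ ∈ J} → F) b := by
    refine ⟨?_, hd.2⟩
    rintro (i | i)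
    · exact hd1.1 i
    · exact hz1 i.1
  refine ⟨γ μ0, P, (s ⊕ Fin pi.natDegree) ⊕ {μ // μ ∈ J}, t, inferInstance, inferInstance, W,
    Sum.elim a1 (fun μ : {μ // μ ∈ J} => z μ.1), b, he0, ?_, ?_, ?_, hdW, ?_, ?_⟩
  · intro n k
    rw [hPc]
    exact sum_mem fun μ _ => mul_mem (hz1 μ) (hφO _)
  · refine ⟨μ0 true, μ0 false, ?_⟩
    intro hmem
    rw [hPc] at hmem
    have e2 : Finsupp.single false (μ0 false) + Finsupp.single true (μ0 true) = μ0 := by
      ext i
      cases i <;> simp
    rw [e2] at hmem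
    have e3 : γ μ0 = ∑ μ ∈ J, γ μ * ev (ucoeff μ0 (H μ)) a1 b := by
      have e4 : ucoeff μ0 N = ∑ μ ∈ J, ucoeff μ N * ucoeff μ0 (H μ) := by
        conv_lhs => rw [hJ]
        rw [ucoeff_sum]
        refine Finset.sum_congr rfl fun μ _ => ?_
        rw [ucoeff_map_mul]
      have e5 : γ μ0 = evHom a1 b hd1 (ucoeff μ0 N) := rfl
      rw [e5, e4, map_sum]
      refine Finset.sum_congr rfl fun μ _ => ?_
      rw [map_mul]
      rfl
    have e6 : (1 : F) = ∑ μ ∈ J, z μ * ev (ucoeff μ0 (H μ)) a1 b := by
      have e7 : γ μ0 * 1 = γ μ0 * ∑ μ ∈ J, z μ * ev (ucoeff μ0 (H μ)) a1 b := by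
        rw [mul_one, Finset.mul_sum]
        conv_lhs => rw [e3]
        refine Finset.sum_congr rfl fun μ hμ => ?_
        rw [hz2 μ hμ]
        ring
      exact mul_left_cancel₀ he0 e7
    apply pb_one_notMem (R := R) (F := F)
    have e8 : (1 : F) = ∑ μ ∈ J, z μ * φ (MvPolynomial.coeff μ0
        (MvPowerSeries.constantCoeff (H μ))) + ∑ μ ∈ J, z μ * ev (ucoeff μ0 (T μ)) a1 b := by
      rw [e6, ← Finset.sum_add_distrib]
      refine Finset.sum_congr rfl fun μ _ => ?_
      rw [← mul_add]
      congr 1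
      rw [hφe, ← evHom_apply a1 b hd1, ← evHom_apply a1 b hd1, ← evHom_apply a1 b hd1, ← map_add]
      congr 1
      refine MvPowerSeries.ext fun κ => ?_
      rw [map_add, coeff_ucoeff, coeff_ucoeff, hT]
      simp only
      rw [map_sub, MvPolynomial.coeff_sub, MvPowerSeries.coeff_C, MvPowerSeries.coeff_C]
      split_ifs with h0
      · rw [add_sub_cancel]
      · rw [MvPolynomial.coeff_zero, sub_zero, zero_add]
    rw [e8]
    refine TRing.m_add _ hmem _ (sum_mem_m _ _ fun μ _ => TRing.m_mul _ (hz1 μ) _ ?_)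
    refine ev_mem_m _ ?_ _ _ hd1
    change MvPowerSeries.constantCoeff (ucoeff μ0 (T μ)) = 0
    rw [← MvPowerSeries.coeff_zero_eq_constantCoeff_apply, coeff_ucoeff,
      MvPowerSeries.coeff_zero_eq_constantCoeff_apply, hT0, MvPolynomial.coeff_zero]
  · intro n hn
    by_cases h0 : P.coeff n = 0
    · exact Or.inl h0
    right
    by_contra hlt
    push Not at hlt
    apply h0
    rw [← leadingCoeff_eq_zero, leadingCoeff, hPc]
    refine Finset.sum_eq_zero fun μ _ => ?_
    have e9 := hHF μ (Finsupp.single false (P.coeff n).natDegree + Finsupp.single true n)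
      (by simpa using hn) (by simpa using hlt)
    have e10 : MvPolynomial.coeff (Finsupp.single false (P.coeff n).natDegree +
        Finsupp.single true n) (MvPowerSeries.constantCoeff (H μ)) = 0 := by
      rw [← MvPowerSeries.coeff_zero_eq_constantCoeff_apply, ← coeff_ucoeff, e9, map_zero]
    rw [e10, map_zero, mul_zero]
  · refine Ideal.sum_mem _ fun μ _ => Ideal.mul_mem_left _ _ ?_
    change cc R _ _ (ren _ _ _) = 0
    rw [cc_ren]
    have e11 : cc R (Option (Option (s ⊕ Fin pi.natDegree))) t
        (MvPowerSeries.map (pbIota R (s ⊕ Fin pi.natDegree)) (T μ.1)) = 0 := by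
      rw [cc, MvPowerSeries.constantCoeff_map, hT0, map_zero]
    rw [e11, map_zero]
  · intro A _ _ j x y hx hy hxy
    rw [hkey A j x y hx hy hxy]
    have hφj : j.toRingHom.comp φ = MvPolynomial.eval₂Hom (base R A)
        (fun i => j.toRingHom (a1 i)) := by
      refine MvPolynomial.ringHom_ext (fun r => ?_) (fun i => ?_)
      · rw [RingHom.comp_apply, hφ, MvPolynomial.eval₂Hom_C, MvPolynomial.eval₂Hom_C, pb_base]
      · rw [RingHom.comp_apply, hφ, MvPolynomial.eval₂Hom_X', MvPolynomial.eval₂Hom_X']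
    have e12 : ((P.map (Polynomial.mapRingHom j.toRingHom)).eval (C y)).eval x =
        ∑ μ ∈ J, j.toRingHom (z μ) * pbE x y _ _ (hdom A j x y hx hy)
          (MvPowerSeries.C (MvPowerSeries.constantCoeff (H μ))) := by
      rw [hP, Polynomial.map_sum, eval_finsetSum, eval_finsetSum]
      refine Finset.sum_congr rfl fun μ _ => ?_
      rw [Polynomial.map_mul, eval_mul, eval_mul, pbPhi_eval, pbE_C, hφj, Polynomial.map_C,
        eval_C, coe_mapRingHom, Polynomial.map_C, eval_C]
    have hdW' : Dom R (oc x (oc y (fun i => j.toRingHom (Sum.elim a1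
        (fun μ : {μ // μ ∈ J} => z μ.1) i)))) (fun i => j.toRingHom (b i)) := by
      refine ⟨?_, fun i => (j.map_m _).1 (hd.2 i)⟩
      rintro (_ | _ | i)
      · exact hx
      · exact hy
      · exact (j.map_O _).1 (hdW.1 i)
    have e13 : ev W (oc x (oc y (fun i => j.toRingHom (Sum.elim a1
        (fun μ : {μ // μ ∈ J} => z μ.1) i)))) (fun i => j.toRingHom (b i)) =
        ∑ μ ∈ J, j.toRingHom (z μ) * pbE x y _ _ (hdom A j x y hx hy) (T μ) := by
      rw [← Finset.sum_coe_sort J (fun μ => j.toRingHom (z μ) *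
        pbE x y _ _ (hdom A j x y hx hy) (T μ)), ← evHom_apply _ _ hdW', hW, map_sum]
      refine Finset.sum_congr rfl fun μ _ => ?_
      rw [map_mul]
      congr 1
      · exact TRing.T_xi _ _ hdW'.1 hdW'.2 _
      · rw [pbE_apply]
        refine (TRing.T_ren _ _ _ _ _ hdW'.1 hdW'.2).trans ?_
        congr 1
        funext i
        rcases i with _ | _ | i
        · rfl
        · rfl
        · rfl
    rw [e12, e13, ← Finset.sum_add_distrib, Finset.mul_sum]
    refine Finset.sum_congr rfl fun μ hμ => ?_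
    rw [← mul_add, ← map_add, hz2 μ hμ, map_mul]
    have e14 : MvPowerSeries.C (MvPowerSeries.constantCoeff (H μ)) + T μ = H μ := by
      rw [hT]
      simp only
      rw [add_sub_cancel]
    rw [e14]
    ring

end Main

end Cm
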