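import Pool.Agent.Lib.MP_c35b50_lc.Cm.SRing

/-! # Row A4: renaming of variables -/

namespace Cm

variable {R : Type} [CommRing R] {s t s' t' s'' t'' : Type} [Finite t] [Finite t'] [Finite t'']

theorem ren_apply (f : s → s') (g : t → t') (F : S R s t) :
    ren f g F = MvPowerSeries.rename g
      (MvPowerSeries.map (MvPolynomial.rename f : MvPolynomial s R →ₐ[R] MvPolynomial s' R).toRingHom
        F) := rfl

@[simp] theorem ren_cst (f : s → s') (g : t → t') (r : R) :
    ren f g (cst R s t r) = cst R s' t' r := by
  rw [ren_apply, cst, cst, RingHom.comp_apply, RingHom.comp_apply, MvPowerSeries.map_C,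
    MvPowerSeries.rename_C]
  congr 1
  exact MvPolynomial.rename_C f r

@[simp] theorem ren_xi (f : s → s') (g : t → t') (i : s) :
    ren f g (xi i : S R s t) = xi (f i) := by
  rw [ren_apply, xi, xi, MvPowerSeries.map_C, MvPowerSeries.rename_C]
  congr 1
  exact MvPolynomial.rename_X f i

@[simp] theorem ren_rho (f : s → s') (g : t → t') (j : t) :
    ren f g (rho j : S R s t) = rho (g j) := by
  rw [ren_apply, rho, rho, MvPowerSeries.map_X, MvPowerSeries.rename_X]

theorem ren_ren (f : s → s') (g : t → t') (f' : s' → s'') (g' : t' → t'') (F : S R s t) :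
    ren f' g' (ren f g F) = ren (f' ∘ f) (g' ∘ g) F := by
  rw [ren_apply, ren_apply, ren_apply, ← MvPowerSeries.rename_map, MvPowerSeries.rename_rename,
    ← RingHom.comp_apply, ← MvPowerSeries.map_comp]
  congr 2
  congr 1
  refine RingHom.ext fun q => ?_
  exact MvPolynomial.rename_rename f f' q

theorem ren_id (F : S R s t) : ren id id F = F := by
  rw [ren_apply, MvPowerSeries.rename_id]
  have e : (MvPolynomial.rename id : MvPolynomial s R →ₐ[R] MvPolynomial s R).toRingHom =
      RingHom.id _ := RingHom.ext fun q => MvPolynomial.rename_id_apply q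
  rw [e, MvPowerSeries.map_id]
  rfl

theorem cc_ren (f : s → s') (g : t → t') (F : S R s t) :
    cc R s' t' (ren f g F) = MvPolynomial.rename f (cc R s t F) := by
  rw [cc, cc, ren_apply, MvPowerSeries.constantCoeff_rename, MvPowerSeries.constantCoeff_map]
  rfl

/-- for an injective renaming of the `ρ` variables -/
theorem coeff_ren (f : s → s') (g : t ↪ t') (F : S R s t) (μ : t →₀ ℕ) :
    MvPowerSeries.coeff (μ.embDomain g) (ren f g F) =
      MvPolynomial.rename f (MvPowerSeries.coeff μ F) := by
  rw [ren_apply, MvPowerSeries.coeff_embDomain_rename, MvPowerSeries.coeff_map]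
  rfl

end Cm
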