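import Pool.Agent.Lib.MP_c35b50_lc.Cm.SRing

/-!
# T-rings and T-fields

A T-ring over `R` is a commutative ring `A` with a subring `O`, a subset `m` of `O` (an ideal of
`O`) and evaluation maps `T F a b ∈ A` for `F : S R s t`, `a : s → A`, `b : t → A`, which are ring
homomorphisms in `F` for fixed `a ∈ O^s`, `b ∈ m^t` and compatible with renaming of variables.
A T-field is a field with a T-ring structure such that `O` is a valuation ring with maximal
ideal `m`.
-/

namespace Cm

class TRing (R : Type) [CommRing R] (A : Type) [CommRing A] : Type 1 where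
  O : Subring A
  m : Set A
  m_le : ∀ x ∈ m, x ∈ O
  m_zero : (0 : A) ∈ m
  m_add : ∀ x ∈ m, ∀ y ∈ m, x + y ∈ m
  m_mul : ∀ x ∈ O, ∀ y ∈ m, x * y ∈ m
  T : ∀ {s t : Type} [Finite s] [Finite t], S R s t → (s → A) → (t → A) → A
  T_mem : ∀ {s t : Type} [Finite s] [Finite t] (F : S R s t) (a : s → A) (b : t → A),
    (∀ i, a i ∈ O) → (∀ j, b j ∈ m) → T F a b ∈ O
  T_one : ∀ {s t : Type} [Finite s] [Finite t] (a : s → A) (b : t → A),
    (∀ i, a i ∈ O) → (∀ j, b j ∈ m) → T (1 : S R s t) a b = 1
  T_add : ∀ {s t : Type} [Finite s] [Finite t] (F G : S R s t) (a : s → A) (b : t → A),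
    (∀ i, a i ∈ O) → (∀ j, b j ∈ m) → T (F + G) a b = T F a b + T G a b
  T_mul : ∀ {s t : Type} [Finite s] [Finite t] (F G : S R s t) (a : s → A) (b : t → A),
    (∀ i, a i ∈ O) → (∀ j, b j ∈ m) → T (F * G) a b = T F a b * T G a b
  T_xi : ∀ {s t : Type} [Finite s] [Finite t] (a : s → A) (b : t → A),
    (∀ i, a i ∈ O) → (∀ j, b j ∈ m) → ∀ i, T (xi i : S R s t) a b = a i
  T_rho : ∀ {s t : Type} [Finite s] [Finite t] (a : s → A) (b : t → A),
    (∀ i, a i ∈ O) → (∀ j, b j ∈ m) → ∀ j, T (rho j : S R s t) a b = b j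
  T_ren : ∀ {s t s' t' : Type} [Finite s] [Finite t] [Finite s'] [Finite t'] (f : s → s')
    (g : t → t') (F : S R s t) (a : s' → A) (b : t' → A),
    (∀ i, a i ∈ O) → (∀ j, b j ∈ m) → T (ren f g F) a b = T F (a ∘ f) (b ∘ g)

section

variable (R : Type) [CommRing R] (A : Type) [CommRing A] [TRing R A]

/-- the ring `O` of a T-ring -/
abbrev OO : Subring A := TRing.O (R := R) (A := A)

/-- the ideal `m` of a T-ring -/
abbrev mm : Set A := TRing.m (R := R) (A := A)

variable {A}

/-- the domain of the evaluation maps -/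
def Dom {s t : Type} (a : s → A) (b : t → A) : Prop := (∀ i, a i ∈ OO R A) ∧ ∀ j, b j ∈ mm R A

variable {R}

/-- the evaluation map -/
abbrev ev {s t : Type} [Finite s] [Finite t] (F : S R s t) (a : s → A) (b : t → A) : A :=
  TRing.T F a b

end

/-- A T-field: a field with a T-ring structure for which `O` is a valuation ring with maximal
ideal `m`. -/
class TField (R : Type) [CommRing R] (K : Type) [Field K] extends TRing R K where
  total : ∀ x : K, x ∈ O ∨ x⁻¹ ∈ O
  m_iff : ∀ x : K, x ∈ m ↔ x ∈ O ∧ (x = 0 ∨ x⁻¹ ∉ O)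

/-- Homomorphisms of T-rings (which detect `O` and `m`). -/
structure THom (R : Type) [CommRing R] (A B : Type) [CommRing A] [CommRing B] [TRing R A]
    [TRing R B] extends A →+* B where
  map_O : ∀ x, x ∈ OO R A ↔ toFun x ∈ OO R B
  map_m : ∀ x, x ∈ mm R A ↔ toFun x ∈ mm R B
  map_T : ∀ {s t : Type} [Finite s] [Finite t] (F : S R s t) (a : s → A) (b : t → A),
    Dom R a b → toFun (ev F a b) = ev F (fun i => toFun (a i)) (fun j => toFun (b j))

section

variable (R : Type) [CommRing R] (K : Type) [Field K] [TField R K]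

/-- the valuation subring of a T-field -/
def vs : ValuationSubring K := { OO R K with mem_or_inv_mem' := TField.total }

/-- the valuation of a T-field -/
noncomputable def vv : Valuation K (vs R K).ValueGroup := (vs R K).valuation

end

end Cm
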