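import Pool.Agent.Lib.MP_c35b50_lc.Cm.AdicA
import Pool.Agent.Lib.MP_c35b50_lc.Cm.RenL
import Pool.Agent.Lib.MP_c35b50_lc.Cm.TRing

/-! # Row T1: basic facts on T-rings, products -/

namespace Cm

variable {R : Type} [CommRing R] {A : Type} [CommRing A] [TRing R A]
  {s t : Type} [Finite s] [Finite t]

/-- evaluation as a ring homomorphism -/
noncomputable def evHom (a : s → A) (b : t → A) (h : Dom R a b) : S R s t →+* A where
  toFun F := ev F a b
  map_one' := TRing.T_one a b h.1 h.2
  map_zero' := by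
    have := TRing.T_add (0 : S R s t) 0 a b h.1 h.2
    simpa using this
  map_add' F G := TRing.T_add F G a b h.1 h.2
  map_mul' F G := TRing.T_mul F G a b h.1 h.2

@[simp] theorem evHom_apply (a : s → A) (b : t → A) (h : Dom R a b) (F : S R s t) :
    evHom a b h F = ev F a b := rfl

variable (R A) in
/-- the base ring maps to a T-ring -/
noncomputable def base : R →+* A :=
  (evHom (s := Empty) (t := Empty) (fun i => i.elim) (fun i => i.elim)
    ⟨fun i => i.elim, fun i => i.elim⟩).comp (cst R Empty Empty)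

theorem ev_cst (a : s → A) (b : t → A) (h : Dom R a b) (r : R) :
    ev (cst R s t r) a b = base R A r := by
  have h1 := TRing.T_ren (R := R) (A := A) (s := Empty) (t := Empty) (fun i => i.elim)
    (fun i => i.elim) (cst R Empty Empty r) a b h.1 h.2
  rw [ren_cst] at h1
  rw [show ev (cst R s t r) a b = TRing.T (cst R s t r) a b from rfl, h1]
  change _ = TRing.T (cst R Empty Empty r) _ _
  congr 1
  · funext i
    exact i.elim
  · funext i
    exact i.elim

theorem base_mem (r : R) : base R A r ∈ OO R A :=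
  TRing.T_mem (cst R Empty Empty r) _ _ (fun i => i.elim) (fun i => i.elim)

/-- `m` is closed under sums -/
theorem sum_mem_m {ι : Type} (I : Finset ι) (f : ι → A) (hf : ∀ i ∈ I, f i ∈ mm R A) :
    ∑ i ∈ I, f i ∈ mm R A := by
  classical
  induction I using Finset.induction_on with
  | empty =>
    rw [Finset.sum_empty]
    exact TRing.m_zero
  | insert i I hi ih =>
    rw [Finset.sum_insert hi]
    exact TRing.m_add _ (hf i (Finset.mem_insert_self i I)) _
      (ih fun j hj => hf j (Finset.mem_insert_of_mem hj))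

/-- series without constant term have values in `m` -/
theorem ev_mem_m (F : S R s t) (hF : F ∈ rr R s t) (a : s → A) (b : t → A) (h : Dom R a b) :
    ev F a b ∈ mm R A := by
  have _ := Fintype.ofFinite t
  obtain ⟨G, hG⟩ := (mem_kk_iff_sum (P := MvPolynomial s R) (t := t) F).1 hF
  rw [← evHom_apply a b h, hG, map_sum]
  refine sum_mem_m _ _ fun j _ => ?_
  rw [map_mul, mul_comm]
  refine TRing.m_mul _ (TRing.T_mem (G j) a b h.1 h.2) _ ?_
  have h1 : evHom a b h (rho j : S R s t) = b j := TRing.T_rho a b h.1 h.2 j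
  change evHom a b h (rho j : S R s t) ∈ mm R A
  rw [h1]
  exact h.2 j

/-- the value of a polynomial (a series with coefficients only in degree zero) -/
theorem ev_C (q : MvPolynomial s R) (a : s → A) (b : t → A) (h : Dom R a b) :
    ev (MvPowerSeries.C q : S R s t) a b = MvPolynomial.eval₂ (base R A) a q := by
  have h1 : (evHom a b h).comp (MvPowerSeries.C (σ := t) (R := MvPolynomial s R)) =
      MvPolynomial.eval₂Hom (base R A) a := by
    refine MvPolynomial.ringHom_ext (fun r => ?_) (fun i => ?_)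
    · rw [MvPolynomial.eval₂Hom_C]
      exact ev_cst a b h r
    · rw [MvPolynomial.eval₂Hom_X']
      exact TRing.T_xi a b h.1 h.2 i
  exact RingHom.congr_fun h1 q

section Prod

variable {B : Type} [CommRing B] [TRing R B]

noncomputable instance instProd : TRing R (A × B) where
  O := (OO R A).prod (OO R B)
  m := (mm R A) ×ˢ (mm R B)
  m_le := fun x hx => ⟨TRing.m_le _ hx.1, TRing.m_le _ hx.2⟩
  m_zero := ⟨TRing.m_zero, TRing.m_zero⟩
  m_add := fun x hx y hy => ⟨TRing.m_add _ hx.1 _ hy.1, TRing.m_add _ hx.2 _ hy.2⟩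
  m_mul := fun x hx y hy => ⟨TRing.m_mul _ hx.1 _ hy.1, TRing.m_mul _ hx.2 _ hy.2⟩
  T := fun F a b => (ev F (fun i => (a i).1) (fun j => (b j).1),
    ev F (fun i => (a i).2) (fun j => (b j).2))
  T_mem := fun F a b ha hb => ⟨TRing.T_mem F _ _ (fun i => (ha i).1) (fun j => (hb j).1),
    TRing.T_mem F _ _ (fun i => (ha i).2) (fun j => (hb j).2)⟩
  T_one := fun a b ha hb => Prod.ext (TRing.T_one _ _ (fun i => (ha i).1) (fun j => (hb j).1))
    (TRing.T_one _ _ (fun i => (ha i).2) (fun j => (hb j).2))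
  T_add := fun F G a b ha hb => Prod.ext
    (TRing.T_add F G _ _ (fun i => (ha i).1) (fun j => (hb j).1))
    (TRing.T_add F G _ _ (fun i => (ha i).2) (fun j => (hb j).2))
  T_mul := fun F G a b ha hb => Prod.ext
    (TRing.T_mul F G _ _ (fun i => (ha i).1) (fun j => (hb j).1))
    (TRing.T_mul F G _ _ (fun i => (ha i).2) (fun j => (hb j).2))
  T_xi := fun a b ha hb i => Prod.ext (TRing.T_xi _ _ (fun i => (ha i).1) (fun j => (hb j).1) i)
    (TRing.T_xi _ _ (fun i => (ha i).2) (fun j => (hb j).2) i)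
  T_rho := fun a b ha hb i => Prod.ext
    (TRing.T_rho _ _ (fun i => (ha i).1) (fun j => (hb j).1) i)
    (TRing.T_rho _ _ (fun i => (ha i).2) (fun j => (hb j).2) i)
  T_ren := fun f g F a b ha hb => Prod.ext
    (TRing.T_ren f g F _ _ (fun i => (ha i).1) (fun j => (hb j).1))
    (TRing.T_ren f g F _ _ (fun i => (ha i).2) (fun j => (hb j).2))

theorem mem_O_prod (x : A × B) : x ∈ OO R (A × B) ↔ x.1 ∈ OO R A ∧ x.2 ∈ OO R B := Iff.rfl
theorem mem_m_prod (x : A × B) : x ∈ mm R (A × B) ↔ x.1 ∈ mm R A ∧ x.2 ∈ mm R B := Iff.rfl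

theorem ev_prod (F : S R s t) (a : s → A × B) (b : t → A × B) :
    ev F a b = (ev F (fun i => (a i).1) (fun j => (b j).1),
      ev F (fun i => (a i).2) (fun j => (b j).2)) := rfl

/-- the diagonal homomorphism into a product -/
def THom.prod {F : Type} [CommRing F] [TRing R F] (j1 : THom R F A) (j2 : THom R F B) :
    THom R F (A × B) where
  toRingHom := j1.toRingHom.prod j2.toRingHom
  map_O := fun x => ⟨fun h => ⟨(j1.map_O x).1 h, (j2.map_O x).1 h⟩, fun h => (j1.map_O x).2 h.1⟩
  map_m := fun x => ⟨fun h => ⟨(j1.map_m x).1 h, (j2.map_m x).1 h⟩, fun h => (j1.map_m x).2 h.1⟩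
  map_T := fun F a b h => Prod.ext (j1.map_T F a b h) (j2.map_T F a b h)

end Prod

end Cm
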