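import Pool.Agent.Lib.MP_c35b50_lc.Cm.DomRho
import Pool.Agent.Lib.MP_c35b50_lc.Cm.TBasic

/-!
# Row B3: splitting modulo `x1 * x2 = q`, and the preparation lemma in case c
-/

namespace Cm

section Split

variable {R : Type} [CommRing R] {s t : Type} [Finite t]

/-- exponents on `Option (Option t)` -/
noncomputable def mk3 (a b : ℕ) (r : t → ℕ) : Option (Option t) →₀ ℕ :=
  Finsupp.equivFunOnFinite.symm fun o => match o with
    | none => a
    | some none => b
    | some (some j) => r j

@[simp] theorem mk3_n (a b : ℕ) (r : t → ℕ) : mk3 a b r none = a := rfl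
@[simp] theorem mk3_s (a b : ℕ) (r : t → ℕ) : mk3 a b r (some none) = b := rfl
@[simp] theorem mk3_ss (a b : ℕ) (r : t → ℕ) (j : t) : mk3 a b r (some (some j)) = r j := rfl

omit [Finite t] in
theorem mk3_eq [Finite t] (μ : Option (Option t) →₀ ℕ) :
    mk3 (μ none) (μ (some none)) (fun j => μ (some (some j))) = μ := by
  ext o
  rw [mk3, Finsupp.equivFunOnFinite_symm_apply_apply]
  rcases o with _ | _ | j <;> rfl

/-- coefficients of a renamed series, injective renaming -/
theorem coeff_ren_inj {t' : Type} [Finite t'] (g : t ↪ t') (F : S R s t) (μ : t' →₀ ℕ)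
    (ν : t →₀ ℕ) (hν : ∀ j, ν j = μ (g j)) (h0 : ∀ x, x ∉ Set.range g → μ x = 0) :
    MvPowerSeries.coeff μ (ren id g F) = MvPowerSeries.coeff ν F := by
  have e : μ = ν.embDomain g := by
    ext x
    by_cases hx : x ∈ Set.range g
    · obtain ⟨j, rfl⟩ := hx
      rw [Finsupp.embDomain_apply_self, hν]
    · rw [h0 x hx, Finsupp.embDomain_of_notMem_range _ _ _ hx]
  rw [e]
  have h := coeff_ren (R := R) (id : s → s) g F ν
  rw [MvPolynomial.rename_id] at h
  exact h

theorem coeff_ren_zero {t' : Type} [Finite t'] (g : t ↪ t') (F : S R s t) (μ : t' →₀ ℕ)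
    (x : t') (hx : x ∉ Set.range g) (h0 : μ x ≠ 0) :
    MvPowerSeries.coeff μ (ren id g F) = 0 := by
  rw [ren_apply]
  refine MvPowerSeries.coeff_rename_eq_zero _ _ ?_
  rintro ⟨ν, rfl⟩
  exact h0 (Finsupp.mapDomain_of_notMem_range _ _ hx)

/-- the variables `X1, X2, rest` -/
def e0 : Option (Option t) ↪ Option (Option (Option t)) where
  toFun o := match o with
    | none => none
    | some none => some none
    | some (some j) => some (some (some j))
  inj' := by
    rintro (_ | _ | a) (_ | _ | b) h <;> simp_all

/-- the variables `X1, q, rest` -/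
def e1 : Option (Option t) ↪ Option (Option (Option t)) where
  toFun o := match o with
    | none => none
    | some none => some (some none)
    | some (some j) => some (some (some j))
  inj' := by
    rintro (_ | _ | a) (_ | _ | b) h <;> simp_all

/-- the variables `X2, q, rest` -/
def e2 : Option (Option t) ↪ Option (Option (Option t)) where
  toFun o := match o with
    | none => some none
    | some none => some (some none)
    | some (some j) => some (some (some j))
  inj' := by
    rintro (_ | _ | a) (_ | _ | b) h <;> simp_all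

omit [Finite t] in
@[simp] theorem e0_n : e0 (none : Option (Option t)) = none := rfl
omit [Finite t] in
@[simp] theorem e0_s : e0 (some none : Option (Option t)) = some none := rfl
omit [Finite t] in
@[simp] theorem e0_ss (j : t) : e0 (some (some j)) = some (some (some j)) := rfl
omit [Finite t] in
@[simp] theorem e1_n : e1 (none : Option (Option t)) = none := rfl
omit [Finite t] in
@[simp] theorem e1_s : e1 (some none : Option (Option t)) = some (some none) := rfl
omit [Finite t] in
@[simp] theorem e1_ss (j : t) : e1 (some (some j)) = some (some (some j)) := rfl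
omit [Finite t] in
@[simp] theorem e2_n : e2 (none : Option (Option t)) = some none := rfl
omit [Finite t] in
@[simp] theorem e2_s : e2 (some none : Option (Option t)) = some (some none) := rfl
omit [Finite t] in
@[simp] theorem e2_ss (j : t) : e2 (some (some j)) = some (some (some j)) := rfl

/-- the part in `X1` -/
noncomputable def split1 (G : S R s (Option (Option t))) : S R s (Option (Option t)) :=
  fun μ => MvPowerSeries.coeff (mk3 (μ none + μ (some none)) (μ (some none))
    (fun j => μ (some (some j)))) G

/-- the part in `X2` -/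
noncomputable def split2 (G : S R s (Option (Option t))) : S R s (Option (Option t)) :=
  fun μ => if 1 ≤ μ none then MvPowerSeries.coeff (mk3 (μ (some none)) (μ none + μ (some none))
    (fun j => μ (some (some j)))) G else 0

/-- the quotient -/
noncomputable def splitH (G : S R s (Option (Option t))) : S R s (Option (Option (Option t))) :=
  fun μ => MvPowerSeries.coeff (mk3 (μ none + μ (some (some none)) + 1)
    (μ (some none) + μ (some (some none)) + 1) (fun j => μ (some (some (some j))))) G

theorem coeff_split1 (G : S R s (Option (Option t))) (μ : Option (Option t) →₀ ℕ) :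
    MvPowerSeries.coeff μ (split1 G) = MvPowerSeries.coeff (mk3 (μ none + μ (some none))
      (μ (some none)) (fun j => μ (some (some j)))) G := rfl

theorem coeff_split2 (G : S R s (Option (Option t))) (μ : Option (Option t) →₀ ℕ) :
    MvPowerSeries.coeff μ (split2 G) = if 1 ≤ μ none then MvPowerSeries.coeff
      (mk3 (μ (some none)) (μ none + μ (some none)) (fun j => μ (some (some j)))) G else 0 := rfl

theorem coeff_splitH (G : S R s (Option (Option t))) (μ : Option (Option (Option t)) →₀ ℕ) :
    MvPowerSeries.coeff μ (splitH G) = MvPowerSeries.coeff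
      (mk3 (μ none + μ (some (some none)) + 1) (μ (some none) + μ (some (some none)) + 1)
        (fun j => μ (some (some (some j))))) G := rfl

theorem split_eq (G : S R s (Option (Option t))) :
    ren id (e0 : Option (Option t) ↪ _) G - ren id (e1 : Option (Option t) ↪ _) (split1 G) -
      ren id (e2 : Option (Option t) ↪ _) (split2 G) =
    (rho none * rho (some none) - rho (some (some none))) * splitH G := by
  classical
  ext1 μ
  have hr0 : (some (some none) : Option (Option (Option t))) ∉ Set.range e0 := by
    rintro ⟨(_ | _ | j), h⟩ <;> simp at h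
  have hr0' : ∀ x : Option (Option (Option t)), x ∉ Set.range e0 → x = some (some none) := by
    rintro (_ | _ | _ | j) h
    · exact (h ⟨none, rfl⟩).elim
    · exact (h ⟨some none, rfl⟩).elim
    · rfl
    · exact (h ⟨some (some j), rfl⟩).elim
  have hr1 : (some none : Option (Option (Option t))) ∉ Set.range e1 := by
    rintro ⟨(_ | _ | j), h⟩ <;> simp at h
  have hr1' : ∀ x : Option (Option (Option t)), x ∉ Set.range e1 → x = some none := by
    rintro (_ | _ | _ | j) h
    · exact (h ⟨none, rfl⟩).elim
    · rfl
    · exact (h ⟨some none, rfl⟩).elim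
    · exact (h ⟨some (some j), rfl⟩).elim
  have hr2 : (none : Option (Option (Option t))) ∉ Set.range e2 := by
    rintro ⟨(_ | _ | j), h⟩ <;> simp at h
  have hr2' : ∀ x : Option (Option (Option t)), x ∉ Set.range e2 → x = none := by
    rintro (_ | _ | _ | j) h
    · rfl
    · exact (h ⟨none, rfl⟩).elim
    · exact (h ⟨some none, rfl⟩).elim
    · exact (h ⟨some (some j), rfl⟩).elim
  set a := μ none with ha
  set b := μ (some none) with hb
  set c := μ (some (some none)) with hc
  set r : t → ℕ := fun j => μ (some (some (some j))) with hr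
  -- the three terms on the left
  have h0 : MvPowerSeries.coeff μ (ren id (e0 : Option (Option t) ↪ _) G) =
      if c = 0 then MvPowerSeries.coeff (mk3 (a + c) (b + c) r) G else 0 := by
    by_cases h : c = 0
    · rw [if_pos h, coeff_ren_inj e0 G μ (mk3 (a + c) (b + c) r)]
      · rintro (_ | _ | j)
        · rw [h, add_zero]; rfl
        · rw [h, add_zero]; rfl
        · rfl
      · intro x hx
        rw [hr0' x hx]
        exact h
    · rw [if_neg h]
      exact coeff_ren_zero e0 G μ _ hr0 h
  have h1 : MvPowerSeries.coeff μ (ren id (e1 : Option (Option t) ↪ _) (split1 G)) =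
      if b = 0 then MvPowerSeries.coeff (mk3 (a + c) (b + c) r) G else 0 := by
    by_cases h : b = 0
    · rw [if_pos h, coeff_ren_inj e1 _ μ (mk3 a c r)]
      · rw [coeff_split1, h, zero_add]
        rfl
      · rintro (_ | _ | j) <;> rfl
      · intro x hx
        rw [hr1' x hx]
        exact h
    · rw [if_neg h]
      exact coeff_ren_zero e1 _ μ _ hr1 h
  have h2 : MvPowerSeries.coeff μ (ren id (e2 : Option (Option t) ↪ _) (split2 G)) =
      if a = 0 ∧ 1 ≤ b then MvPowerSeries.coeff (mk3 (a + c) (b + c) r) G else 0 := by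
    by_cases h : a = 0
    · rw [coeff_ren_inj e2 _ μ (mk3 b c r)]
      · rw [coeff_split2, h, zero_add]
        simp only [mk3_n, mk3_s, mk3_ss, true_and] <;> rfl
      · rintro (_ | _ | j) <;> rfl
      · intro x hx
        rw [hr2' x hx]
        exact h
    · rw [if_neg (fun h' => h h'.1)]
      exact coeff_ren_zero e2 _ μ _ hr2 h
  -- the right hand side
  have h3 : MvPowerSeries.coeff μ ((rho none * rho (some none)) * splitH G) =
      if 1 ≤ a ∧ 1 ≤ b then MvPowerSeries.coeff (mk3 (a + c) (b + c) r) G else 0 := by
    rw [mul_assoc, rho, rho, adica_coeff_X_mul]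
    by_cases h : 1 ≤ a
    · rw [if_pos h, adica_coeff_X_mul]
      have e4 : (μ - Finsupp.single none 1 : Option (Option (Option t)) →₀ ℕ) (some none) = b := by
        simp [Finsupp.tsub_apply, hb]
      rw [e4]
      by_cases h' : 1 ≤ b
      · rw [if_pos h', if_pos ⟨h, h'⟩, coeff_splitH]
        have f1 : (μ - Finsupp.single none 1 - Finsupp.single (some none) 1 :
            Option (Option (Option t)) →₀ ℕ) none = a - 1 := by
          simp [Finsupp.tsub_apply, ha]
        have f2 : (μ - Finsupp.single none 1 - Finsupp.single (some none) 1 :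
            Option (Option (Option t)) →₀ ℕ) (some none) = b - 1 := by
          simp [Finsupp.tsub_apply, hb]
        have f3 : (μ - Finsupp.single none 1 - Finsupp.single (some none) 1 :
            Option (Option (Option t)) →₀ ℕ) (some (some none)) = c := by
          simp [Finsupp.tsub_apply, hc]
        have f4 : ∀ j, (μ - Finsupp.single none 1 - Finsupp.single (some none) 1 :
            Option (Option (Option t)) →₀ ℕ) (some (some (some j))) = r j := by
          intro j
          simp [Finsupp.tsub_apply, hr]
        rw [f1, f2, f3]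
        simp only [f4]
        rw [show a - 1 + c + 1 = a + c by omega, show b - 1 + c + 1 = b + c by omega]
      · rw [if_neg h', if_neg (fun hh => h' hh.2)]
    · rw [if_neg h, if_neg (fun hh => h hh.1)]
  have h4 : MvPowerSeries.coeff μ (rho (some (some none)) * splitH G) =
      if 1 ≤ c then MvPowerSeries.coeff (mk3 (a + c) (b + c) r) G else 0 := by
    rw [rho, adica_coeff_X_mul]
    by_cases h : 1 ≤ c
    · rw [if_pos h, if_pos h, coeff_splitH]
      have f1 : (μ - Finsupp.single (some (some none)) 1 :
          Option (Option (Option t)) →₀ ℕ) none = a := by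
        simp [Finsupp.tsub_apply, ha]
      have f2 : (μ - Finsupp.single (some (some none)) 1 :
          Option (Option (Option t)) →₀ ℕ) (some none) = b := by
        simp [Finsupp.tsub_apply, hb]
      have f3 : (μ - Finsupp.single (some (some none)) 1 :
          Option (Option (Option t)) →₀ ℕ) (some (some none)) = c - 1 := by
        simp [Finsupp.tsub_apply, hc]
      have f4 : ∀ j, (μ - Finsupp.single (some (some none)) 1 :
          Option (Option (Option t)) →₀ ℕ) (some (some (some j))) = r j := by
        intro j
        simp [Finsupp.tsub_apply, hr]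
      rw [f1, f2, f3]
      simp only [f4]
      rw [show a + (c - 1) + 1 = a + c by omega, show b + (c - 1) + 1 = b + c by omega]
    · rw [if_neg h, if_neg h]
  rw [map_sub, map_sub, sub_mul, map_sub, h0, h1, h2, h3, h4]
  by_cases hc0 : c = 0 <;> by_cases hb0 : b = 0 <;> by_cases ha0 : a = 0 <;>
    simp [hc0, hb0, ha0, Nat.one_le_iff_ne_zero]

theorem rcoeff0_split2 (G : S R s (Option (Option t))) : rcoeff 0 (split2 G) = 0 := by
  refine MvPowerSeries.ext fun μ => ?_
  rw [rcoeff, MvPowerSeries.coeff_coeff_optionEquivLeft, coeff_split2, if_neg, map_zero]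
  rw [Finsupp.optionElim_apply_none]
  omega

theorem ren_rr {s' t' : Type} [Finite t'] (f : s → s') (g : t → t')
    {F : S R s t} (hF : F ∈ rr R s t) : ren f g F ∈ rr R s' t' := by
  have h : cc R s t F = 0 := hF
  show cc R s' t' (ren f g F) = 0
  rw [cc_ren, h, map_zero]

omit [Finite t] in
theorem span_rr {w : S R s (Option t)} (hw : w ∈ Ideal.span {(rho none : S R s (Option t))}) :
    w ∈ rr R s (Option t) := by
  refine (Ideal.span_le.2 ?_) hw
  rintro x rfl
  show cc R s (Option t) (rho none) = 0
  exact MvPowerSeries.constantCoeff_X none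

end Split

section Prep

variable {R : Type} [CommRing R] [IsNoetherianRing R] {F : Type} [Field F] [TField R F]
  {s t : Type} [Finite s] [Finite t]

omit [IsNoetherianRing R] in
/-- One part: a series in `x` with parameters. -/
theorem part_eq {A : Type} [CommRing A] [TRing R A] (j : THom R F A) (a : s → F) (b : t → F)
    (hd : Dom R a b) (G : S R s (Option t)) {d : ℕ} {w : ℕ → S R s (Option t)}
    (hG : G = ∑ i ∈ Finset.range d, ren id some (rcoeff i G) * rho none ^ i * (1 + w i))
    (x : A) (hx : x ∈ mm R A) :
    ev G (fun i => j.toRingHom (a i)) (oc x (fun i => j.toRingHom (b i))) =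
      ∑ i ∈ Finset.range d, j.toRingHom (ev (rcoeff i G) a b) * x ^ i *
        (1 + ev (w i) (fun i => j.toRingHom (a i)) (oc x (fun i => j.toRingHom (b i)))) := by
  have hd' : Dom R (fun i => j.toRingHom (a i)) (oc x (fun i => j.toRingHom (b i))) := by
    refine ⟨fun i => (j.map_O _).1 (hd.1 i), ?_⟩
    rintro (_ | i)
    · exact hx
    · exact (j.map_m _).1 (hd.2 i)
  have h1 := congrArg (evHom _ _ hd') hG
  rw [map_sum] at h1
  rw [evHom_apply] at h1
  rw [h1]
  refine Finset.sum_congr rfl fun i _ => ?_
  rw [map_mul, map_mul, map_pow, map_add, map_one, evHom_apply, evHom_apply, evHom_apply]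
  have h2 : ev (ren id some (rcoeff i G) : S R s (Option t)) (fun i => j.toRingHom (a i))
      (oc x (fun i => j.toRingHom (b i))) = j.toRingHom (ev (rcoeff i G) a b) := by
    have h3 := TRing.T_ren (R := R) (A := A) (id : s → s) (some : t → Option t) (rcoeff i G) _ _
      hd'.1 hd'.2
    have h4 := j.map_T (rcoeff i G) a b hd
    exact h3.trans h4.symm
  have h5 : ev (rho none : S R s (Option t)) (fun i => j.toRingHom (a i))
      (oc x (fun i => j.toRingHom (b i))) = x := TRing.T_rho _ _ hd'.1 hd'.2 none
  rw [h2, h5]

theorem prepC_proof (q : F) (hq : q ∈ mm R F) (G : S R s (Option (Option t))) (a : s → F)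
    (b : t → F) (hd : Dom R a b) :
    ∃ (I : Finset ℤ) (γ : ℤ → F) (s' t' : Type) (_ : Finite s') (_ : Finite t')
      (W : ℤ → S R s' (Option (Option t'))) (a' : s' → F) (b' : t' → F),
      (∀ n ∈ I, γ n ≠ 0) ∧ Dom R a' b' ∧ (∀ n, W n ∈ rr R s' (Option (Option t'))) ∧
      ∀ (A : Type) [CommRing A] [TRing R A] (j : THom R F A) (x1 x2 : A), x1 ∈ mm R A →
        x2 ∈ mm R A → x1 * x2 = j.toRingHom q →
        ev G (fun i => j.toRingHom (a i)) (oc x1 (oc x2 (fun i => j.toRingHom (b i)))) =
          ∑ n ∈ I, j.toRingHom (γ n) * (if 0 ≤ n then x1 ^ n.toNat else x2 ^ (-n).toNat) *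
            (1 + ev (W n) (fun i => j.toRingHom (a' i))
              (oc x1 (oc x2 (fun i => j.toRingHom (b' i))))) := by
  classical
  obtain ⟨d1, w1, hw1, hG1⟩ := dom_rho (split1 G)
  obtain ⟨d2, w2, hw2, hG2⟩ := dom_rho (split2 G)
  set b' : Option t → F := oc q b with hb'
  have hd' : Dom R a b' := by
    refine ⟨hd.1, ?_⟩
    rintro (_ | i)
    · exact hq
    · exact hd.2 i
  let g1 : ℕ → F := fun i => ev (rcoeff i (split1 G)) a b'
  let g2 : ℕ → F := fun i => ev (rcoeff i (split2 G)) a b'
  have hg20 : g2 0 = 0 := by
    change ev (rcoeff 0 (split2 G)) a b' = 0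
    rw [rcoeff0_split2]
    exact map_zero (evHom a b' hd')
  let I1 : Finset ℤ := ((Finset.range d1).filter (fun i => g1 i ≠ 0)).image (fun i : ℕ => (i : ℤ))
  let I2 : Finset ℤ := ((Finset.range d2).filter (fun i => g2 i ≠ 0)).image (fun i : ℕ => -(i : ℤ))
  let γ : ℤ → F := fun n => if 0 ≤ n then g1 n.toNat else g2 (-n).toNat
  let W : ℤ → S R s (Option (Option (Option t))) := fun n =>
    if 0 ≤ n then ren id (e1 : Option (Option t) ↪ _) (w1 n.toNat)
    else ren id (e2 : Option (Option t) ↪ _) (w2 (-n).toNat)
  have hpos : ∀ i : ℕ, g2 i ≠ 0 → 1 ≤ i := by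
    intro i hi
    by_contra h
    have : i = 0 := by omega
    rw [this] at hi
    exact hi hg20
  refine ⟨I1 ∪ I2, γ, s, Option t, inferInstance, inferInstance, W, a, b', ?_, hd', ?_, ?_⟩
  · intro n hn
    rcases Finset.mem_union.1 hn with h | h
    · obtain ⟨i, hi, rfl⟩ := Finset.mem_image.1 h
      have h0 : (0 : ℤ) ≤ (i : ℤ) := by omega
      simp only [γ, if_pos h0, Int.toNat_natCast]
      exact (Finset.mem_filter.1 hi).2
    · obtain ⟨i, hi, rfl⟩ := Finset.mem_image.1 h
      have h1 := hpos i (Finset.mem_filter.1 hi).2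
      have h0 : ¬ (0 : ℤ) ≤ -(i : ℤ) := by omega
      simp only [γ, if_neg h0, neg_neg, Int.toNat_natCast]
      exact (Finset.mem_filter.1 hi).2
  · intro n
    by_cases h0 : 0 ≤ n
    · simp only [W, if_pos h0]
      exact ren_rr _ _ (span_rr (hw1 _))
    · simp only [W, if_neg h0]
      exact ren_rr _ _ (span_rr (hw2 _))
  · intro A _ _ j x1 x2 hx1 hx2 hxx
    set aa : s → A := fun i => j.toRingHom (a i) with haa
    set bb : Option t → A := fun i => j.toRingHom (b' i) with hbb
    have hD : Dom R aa (oc x1 (oc x2 bb)) := by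
      refine ⟨fun i => (j.map_O _).1 (hd.1 i), ?_⟩
      rintro (_ | _ | i)
      · exact hx1
      · exact hx2
      · exact (j.map_m _).1 (hd'.2 i)
    have f0 : (oc x1 (oc x2 bb)) ∘ (e0 : Option (Option t) ↪ _) =
        oc x1 (oc x2 (fun i => j.toRingHom (b i))) := by
      funext o
      rcases o with _ | _ | i <;> rfl
    have f1 : (oc x1 (oc x2 bb)) ∘ (e1 : Option (Option t) ↪ _) = oc x1 bb := by
      funext o
      rcases o with _ | _ | i <;> rfl
    have f2 : (oc x1 (oc x2 bb)) ∘ (e2 : Option (Option t) ↪ _) = oc x2 bb := by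
      funext o
      rcases o with _ | _ | i <;> rfl
    have hr : ∀ (g : Option (Option t) ↪ Option (Option (Option t))) (H : S R s (Option (Option t))),
        ev (ren id g H) aa (oc x1 (oc x2 bb)) = ev H aa ((oc x1 (oc x2 bb)) ∘ g) :=
      fun g H => TRing.T_ren (R := R) (A := A) (id : s → s) g H _ _ hD.1 hD.2
    have h1 := congrArg (evHom _ _ hD) (split_eq G)
    rw [map_sub, map_sub, map_mul, map_sub, map_mul, evHom_apply, evHom_apply, evHom_apply,
      evHom_apply, evHom_apply, evHom_apply, hr, hr, hr, f0, f1, f2] at h1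
    have e4 : ev (rho none : S R s (Option (Option (Option t)))) aa (oc x1 (oc x2 bb)) = x1 :=
      TRing.T_rho _ _ hD.1 hD.2 none
    have e5 : ev (rho (some none) : S R s (Option (Option (Option t)))) aa (oc x1 (oc x2 bb)) =
      x2 := TRing.T_rho _ _ hD.1 hD.2 (some none)
    have e6 : ev (rho (some (some none)) : S R s (Option (Option (Option t)))) aa
      (oc x1 (oc x2 bb)) = j.toRingHom q := TRing.T_rho _ _ hD.1 hD.2 (some (some none))
    rw [e4, e5, e6, hxx, sub_self, zero_mul] at h1
    have h2 : ev G aa (oc x1 (oc x2 (fun i => j.toRingHom (b i)))) =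
        ev (split1 G) aa (oc x1 bb) + ev (split2 G) aa (oc x2 bb) := by
      linear_combination h1
    rw [h2, part_eq j a b' hd' (split1 G) hG1 x1 hx1, part_eq j a b' hd' (split2 G) hG2 x2 hx2,
      Finset.sum_union, Finset.sum_image, Finset.sum_image, Finset.sum_filter, Finset.sum_filter]
    · congr 1
      · refine Finset.sum_congr rfl fun i _ => ?_
        have h0 : (0 : ℤ) ≤ (i : ℤ) := by omega
        by_cases hi : g1 i = 0
        · rw [if_neg (fun h => h hi)]
          change j.toRingHom (g1 i) * _ * _ = 0
          rw [hi, map_zero, zero_mul, zero_mul]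
        · rw [if_pos hi]
          simp only [γ, W, if_pos h0, Int.toNat_natCast]
          rw [hr, f1]
      · refine Finset.sum_congr rfl fun i _ => ?_
        by_cases hi : g2 i = 0
        · rw [if_neg (fun h => h hi)]
          change j.toRingHom (g2 i) * _ * _ = 0
          rw [hi, map_zero, zero_mul, zero_mul]
        · rw [if_pos hi]
          have h1 := hpos i hi
          have h0 : ¬ (0 : ℤ) ≤ -(i : ℤ) := by omega
          simp only [γ, W, if_neg h0, neg_neg, Int.toNat_natCast]
          rw [hr, f2]
    · intro x _ y _ hxy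
      simpa using hxy
    · intro x _ y _ hxy
      simpa using hxy
    · rw [Finset.disjoint_left]
      intro n hn hn'
      obtain ⟨i, hi, rfl⟩ := Finset.mem_image.1 hn
      obtain ⟨k, hk, hki⟩ := Finset.mem_image.1 hn'
      have h1 := hpos k (Finset.mem_filter.1 hk).2
      omega

end Prep

end Cm
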