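import Pool.Agent.Lib.MP_c35b50_lc.Cm.TFieldB
import Pool.Agent.Lib.MP_c35b50_lc.Cm.PrepA
import Pool.Agent.Lib.MP_c35b50_lc.Cm.PrepB
import Pool.Agent.Lib.MP_c35b50_lc.Cm.SplitC

/-!
# The three preparation lemmas for one variable (rows B1, B2, B3)

`F` is a T-field, `A` an arbitrary T-ring with a homomorphism `j` from `F`. A series with
parameters in `F` is evaluated at one element `x ∈ m` (case a), at a pair `x, y ∈ O` with
`y * π(x) = 1` (case b), and at a pair `x1, x2 ∈ m` with `x1 * x2 = q` (case c).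
-/

namespace Cm

open Polynomial

variable {R : Type} [CommRing R] [IsNoetherianRing R] {F : Type} [Field F] [TField R F]
  {s t : Type} [Finite s] [Finite t]

/-- Row B1 (case a): Weierstrass preparation. -/
theorem prepA [IsAlgClosed F] (G : S R s (Option t)) (a : s → F) (b : t → F) (hd : Dom R a b) :
    (∀ (A : Type) [CommRing A] [TRing R A] (j : THom R F A) (x : A), x ∈ mm R A →
      ev G (fun i => j.toRingHom (a i)) (oc x (fun i => j.toRingHom (b i))) = 0) ∨
    ∃ (e : F) (n : ℕ) (β : Fin n → F) (s' t' : Type) (_ : Finite s') (_ : Finite t')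
      (W : S R s' (Option t')) (a' : s' → F) (b' : t' → F), e ≠ 0 ∧ (∀ i, β i ∈ mm R F) ∧
      Dom R a' b' ∧ W ∈ rr R s' (Option t') ∧
      ∀ (A : Type) [CommRing A] [TRing R A] (j : THom R F A) (x : A), x ∈ mm R A →
        ev G (fun i => j.toRingHom (a i)) (oc x (fun i => j.toRingHom (b i))) =
          j.toRingHom e * (∏ i, (x - j.toRingHom (β i))) *
            (1 + ev W (fun i => j.toRingHom (a' i)) (oc x (fun i => j.toRingHom (b' i)))) :=
  prepA_aux G a b hd

/-- Row B2 (case b): `y = 1 / π (x)`. -/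
theorem prepB (pi : F[X]) (hpi : pi.Monic) (hO : ∀ n, pi.coeff n ∈ OO R F)
    (G : S R (Option (Option s)) t) (a : s → F) (b : t → F) (hd : Dom R a b) :
    (∀ (A : Type) [CommRing A] [TRing R A] (j : THom R F A) (x y : A), x ∈ OO R A → y ∈ OO R A →
      y * (pi.map j.toRingHom).eval x = 1 →
      ev G (oc x (oc y (fun i => j.toRingHom (a i)))) (fun i => j.toRingHom (b i)) = 0) ∨
    ∃ (e : F) (P : F[X][X]) (s' t' : Type) (_ : Finite s') (_ : Finite t')
      (W : S R (Option (Option s')) t') (a' : s' → F) (b' : t' → F), e ≠ 0 ∧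
      (∀ n k, (P.coeff n).coeff k ∈ OO R F) ∧ (∃ n k, (P.coeff n).coeff k ∉ mm R F) ∧
      (∀ n, 1 ≤ n → P.coeff n = 0 ∨ (P.coeff n).natDegree < pi.natDegree) ∧
      Dom R a' b' ∧ W ∈ rr R (Option (Option s')) t' ∧
      ∀ (A : Type) [CommRing A] [TRing R A] (j : THom R F A) (x y : A), x ∈ OO R A →
        y ∈ OO R A → y * (pi.map j.toRingHom).eval x = 1 →
        ev G (oc x (oc y (fun i => j.toRingHom (a i)))) (fun i => j.toRingHom (b i)) =
          j.toRingHom e * (((P.map (Polynomial.mapRingHom j.toRingHom)).eval (C y)).eval x +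
            ev W (oc x (oc y (fun i => j.toRingHom (a' i)))) (fun i => j.toRingHom (b' i))) :=
  pb_prepB pi hpi hO G a b hd

/-- Row B3 (case c): `x1 * x2 = q`. -/
theorem prepC (q : F) (hq : q ∈ mm R F) (G : S R s (Option (Option t))) (a : s → F) (b : t → F)
    (hd : Dom R a b) :
    ∃ (I : Finset ℤ) (γ : ℤ → F) (s' t' : Type) (_ : Finite s') (_ : Finite t')
      (W : ℤ → S R s' (Option (Option t'))) (a' : s' → F) (b' : t' → F),
      (∀ n ∈ I, γ n ≠ 0) ∧ Dom R a' b' ∧ (∀ n, W n ∈ rr R s' (Option (Option t'))) ∧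
      ∀ (A : Type) [CommRing A] [TRing R A] (j : THom R F A) (x1 x2 : A), x1 ∈ mm R A →
        x2 ∈ mm R A → x1 * x2 = j.toRingHom q →
        ev G (fun i => j.toRingHom (a i)) (oc x1 (oc x2 (fun i => j.toRingHom (b i)))) =
          ∑ n ∈ I, j.toRingHom (γ n) * (if 0 ≤ n then x1 ^ n.toNat else x2 ^ (-n).toNat) *
            (1 + ev (W n) (fun i => j.toRingHom (a' i))
              (oc x1 (oc x2 (fun i => j.toRingHom (b' i))))) := by
  exact prepC_proof q hq G a b hd

end Cm
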