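import Pool.Agent.Lib.MP_c35b50_lc.Cm.CaseBA
import Pool.Agent.Lib.MP_c35b50_lc.Cm.Prep3
import Pool.Agent.Lib.MP_c35b50_lc.Cm.Graph

/-!
# Row B11, part 2: the generators in the residually transcendental case
-/

namespace Cm

open Polynomial

variable {R : Type} [CommRing R] {F : Type} [Field F] [TField R F] {L1 L2 : Type} [Field L1]
  [Field L2] [TField R L1] [TField R L2]

/-- generators of the first kind -/
def XB (j1 : THom R F L1) (j2 : THom R F L2) (t : L1 × L2) : Set (L1 × L2) :=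
  {x | ∃ d ∈ OO R F, x = (j1.toRingHom d, j2.toRingHom d) ∨ x = t ∨
    x = ((t.1 - j1.toRingHom d)⁻¹, (t.2 - j2.toRingHom d)⁻¹)}

/-- generators of the second kind -/
def YB (j1 : THom R F L1) (j2 : THom R F L2) : Set (L1 × L2) :=
  {x | ∃ d ∈ mm R F, x = (j1.toRingHom d, j2.toRingHom d)}

variable (j1 : THom R F L1) (j2 : THom R F L2) (t : L1 × L2)
  (ht1 : ∀ d ∈ OO R F, vv R L1 (t.1 - j1.toRingHom d) = 1)
  (ht2 : ∀ d ∈ OO R F, vv R L2 (t.2 - j2.toRingHom d) = 1)

theorem YB_le : YB j1 j2 ⊆ mm R (L1 × L2) := by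
  rintro x ⟨d, hd, rfl⟩
  exact ⟨(j1.map_m d).1 hd, (j2.map_m d).1 hd⟩

include ht1 ht2

theorem XB_le : XB j1 j2 t ⊆ OO R (L1 × L2) := by
  rintro x ⟨d, hd, rfl | rfl | rfl⟩
  · exact ⟨(j1.map_O d).1 hd, (j2.map_O d).1 hd⟩
  · have h1 := ht1 0 (OO R F).zero_mem
    have h2 := ht2 0 (OO R F).zero_mem
    rw [map_zero, sub_zero] at h1 h2
    exact ⟨(vv_le_one_iff _).1 h1.le, (vv_le_one_iff _).1 h2.le⟩
  · refine ⟨(vv_le_one_iff _).1 ?_, (vv_le_one_iff _).1 ?_⟩
    · rw [map_inv₀, ht1 d hd, inv_one]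
    · rw [map_inv₀, ht2 d hd, inv_one]

theorem cb_inv_mul (d : F) (hd : d ∈ OO R F) :
    (((t.1 - j1.toRingHom d)⁻¹, (t.2 - j2.toRingHom d)⁻¹) : L1 × L2) *
      (t - (j1.toRingHom d, j2.toRingHom d)) = 1 := by
  have h1 : t.1 - j1.toRingHom d ≠ 0 := by
    intro h
    have := ht1 d hd
    rw [h, map_zero] at this
    exact zero_ne_one this
  have h2 : t.2 - j2.toRingHom d ≠ 0 := by
    intro h
    have := ht2 d hd
    rw [h, map_zero] at this
    exact zero_ne_one this
  exact Prod.ext (inv_mul_cancel₀ h1) (inv_mul_cancel₀ h2)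

theorem TG_prod {ι : Type} (s : Finset ι) (f : ι → L1 × L2)
    (h : ∀ i ∈ s, f i ∈ TG R (XB j1 j2 t) (YB j1 j2)) :
    ∏ i ∈ s, f i ∈ TG R (XB j1 j2 t) (YB j1 j2) := by
  classical
  have hX := XB_le j1 j2 t ht1 ht2
  have hY := YB_le j1 j2
  induction s using Finset.induction_on with
  | empty =>
    rw [Finset.prod_empty]
    exact TG_one hX hY
  | insert i s hi ih =>
    rw [Finset.prod_insert hi]
    exact TG_mul hX hY (h i (Finset.mem_insert_self i s))
      (ih fun j hj => h j (Finset.mem_insert_of_mem hj))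

/-- (H2) -/
theorem caseB_h2 [IsNoetherianRing R] [IsAlgClosed F] (RR : Subring (L1 × L2))
    (hinv : ∀ r ∈ RR, (r.1⁻¹, r.2⁻¹) ∈ RR) (hc : ∀ c, (j1.toRingHom c, j2.toRingHom c) ∈ RR)
    (htR : t ∈ RR) (h : L1 × L2) (hh : h ∈ TG R (XB j1 j2 t) (YB j1 j2)) :
    h = 0 ∨ ∃ e : F, e ≠ 0 ∧ ∃ q ∈ RR, vv R L1 q.1 = 1 ∧ vv R L2 q.2 = 1 ∧
      ∃ w ∈ TP R (XB j1 j2 t) (YB j1 j2), h = (j1.toRingHom e, j2.toRingHom e) * (q + w) := by
  classical
  have hX := XB_le j1 j2 t ht1 ht2
  have hY := YB_le j1 j2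
  obtain ⟨s, u, _, _, G, a, b, ha, hb, rfl⟩ := hh
  have _ := Fintype.ofFinite s
  choose d hdO hd using ha
  choose β hβ hb using hb
  set J : THom R F (L1 × L2) := THom.prod j1 j2 with hJ
  have hJa : ∀ x, J.toRingHom x = (j1.toRingHom x, j2.toRingHom x) := fun x => rfl
  set fac : s → L1 × L2 := fun i => ((t.1 - j1.toRingHom (d i))⁻¹, (t.2 - j2.toRingHom (d i))⁻¹)
    with hfac
  have hfm : ∀ i, fac i * (t - J.toRingHom (d i)) = 1 := fun i =>
    cb_inv_mul j1 j2 t ht1 ht2 (d i) (hdO i)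
  set y : L1 × L2 := ∏ i, fac i with hy
  have hfX : ∀ i, fac i ∈ XB j1 j2 t := fun i => ⟨d i, hdO i, Or.inr (Or.inr rfl)⟩
  have hyT : y ∈ TG R (XB j1 j2 t) (YB j1 j2) :=
    TG_prod j1 j2 t ht1 ht2 _ _ fun i _ => X_sub_TG hX hY (hfX i)
  have htX : t ∈ XB j1 j2 t := ⟨0, (OO R F).zero_mem, Or.inr (Or.inl rfl)⟩
  have htT := X_sub_TG hX hY htX
  have hcT : ∀ c ∈ OO R F, J.toRingHom c ∈ TG R (XB j1 j2 t) (YB j1 j2) := fun c hc' =>
    X_sub_TG hX hY ⟨c, hc', Or.inl rfl⟩
  have hcP : ∀ c ∈ mm R F, J.toRingHom c ∈ TP R (XB j1 j2 t) (YB j1 j2) := fun c hc' =>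
    Y_sub_TP hX hY ⟨c, hc', rfl⟩
  have hyR : y ∈ RR := by
    refine RR.prod_mem fun i _ => ?_
    have h1 := hinv _ (RR.sub_mem htR (hc (d i)))
    exact h1
  have hyO := TG_le hX hY hyT
  have htO := TG_le hX hY htT
  -- the polynomial
  set p : F[X] := ∏ i, (X - C (d i)) with hp
  have hpm : p.Monic := monic_prod_of_monic _ _ fun i _ => monic_X_sub_C _
  have hpO : PO R p := PO.prod _ _ fun i _ => PO.X_sub_C (hdO i)
  have hyp : y * (p.map J.toRingHom).eval t = 1 := by
    rw [hp, Polynomial.map_prod, eval_prod, hy, ← Finset.prod_mul_distrib]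
    refine Finset.prod_eq_one fun i _ => ?_
    rw [Polynomial.map_sub, Polynomial.map_X, Polynomial.map_C, eval_sub, eval_X, eval_C]
    exact hfm i
  -- the substitution
  set a' : Option (Option s) → L1 × L2 := oc t (oc y fun i => J.toRingHom (d i)) with ha'
  have hdom : Dom R a' b := by
    refine ⟨?_, fun k => ?_⟩
    · rintro (_ | _ | i)
      · exact htO
      · exact hyO
      · exact (J.map_O _).1 (hdO i)
    · rw [hb k]
      exact (J.map_m _).1 (hβ k)
  set Gs : s → S R (Option (Option s)) u := fun i =>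
    if a i = J.toRingHom (d i) then xi (some (some i)) else if a i = t then xi none else
      xi (some none) * ∏ k ∈ Finset.univ.erase i, (xi none - xi (some (some k))) with hGs
  have hx : ∀ i, evHom a' b hdom (xi i : S R (Option (Option s)) u) = a' i := fun i =>
    TRing.T_xi a' b hdom.1 hdom.2 i
  have hGe : ∀ i, ev (Gs i) a' b = a i := by
    intro i
    rw [← evHom_apply a' b hdom, hGs]
    simp only
    split_ifs with h1 h2
    · rw [hx, h1]
      rfl
    · rw [hx, h2]
      rfl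
    · rw [map_mul, map_prod, hx]
      have e1 : a i = fac i := by
        rcases hd i with h3 | h3 | h3
        · exact absurd h3 h1
        · exact absurd h3 h2
        · exact h3
      have e2 : ∀ k, evHom a' b hdom (xi none - xi (some (some k)) : S R (Option (Option s)) u) =
          t - J.toRingHom (d k) := fun k => by
        rw [map_sub, hx, hx]
        rfl
      simp only [e2]
      have e3 : a' (some none) = y := rfl
      rw [e3, e1, hy, ← Finset.mul_prod_erase Finset.univ fac (Finset.mem_univ i), mul_assoc,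
        ← Finset.prod_mul_distrib, Finset.prod_eq_one (fun k _ => hfm k), mul_one]
  obtain ⟨G', -, hG'⟩ := exists_ev_comp Gs (fun k => (rho k : S R (Option (Option s)) u))
    (fun k => MvPowerSeries.constantCoeff_X k) G
  have hh : ev G a b = ev G' a' b := by
    rw [hG' _ a' b hdom]
    congr 1
    · funext i
      exact (hGe i).symm
    · funext k
      exact (TRing.T_rho a' b hdom.1 hdom.2 k).symm
  have hbb : b = fun k => J.toRingHom (β k) := funext fun k => hb k
  rcases prepB p hpm hpO G' d β ⟨hdO, hβ⟩ with h0 | h0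
  · left
    rw [hh, hbb]
    exact h0 _ J t y htO hyO hyp
  · right
    obtain ⟨e, P, s', t', _, _, W, c, b', he, hPO, hPu, hPd, hcd, hW, hev⟩ := h0
    have h1 := hev _ J t y htO hyO hyp
    rw [← hbb] at h1
    refine ⟨e, he, pv J.toRingHom P t y, ?_, ?_, ?_, _, ?_, hh.trans h1⟩
    · rw [pv_eq]
      refine RR.sum_mem fun n _ => RR.mul_mem ?_ (RR.pow_mem hyR n)
      rw [eval_map, eval₂_eq_sum_range]
      exact RR.sum_mem fun k _ => RR.mul_mem (hc _) (RR.pow_mem htR k)
    · have e1 : (pv J.toRingHom P t y).1 = pv j1.toRingHom P t.1 y.1 :=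
        pv_map J.toRingHom (RingHom.fst L1 L2) P t y
      rw [e1]
      refine cb_pv j1 t.1 ht1 p hpm hpO y.1 ?_ P hPO hPu hPd
      have := congrArg (RingHom.fst L1 L2) hyp
      rw [map_mul, ← Polynomial.eval_map_apply, Polynomial.map_map, map_one] at this
      exact this
    · have e1 : (pv J.toRingHom P t y).2 = pv j2.toRingHom P t.2 y.2 :=
        pv_map J.toRingHom (RingHom.snd L1 L2) P t y
      rw [e1]
      refine cb_pv j2 t.2 ht2 p hpm hpO y.2 ?_ P hPO hPu hPd
      have := congrArg (RingHom.snd L1 L2) hyp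
      rw [map_mul, ← Polynomial.eval_map_apply, Polynomial.map_map, map_one] at this
      exact this
    · refine TP_ev hX hY W hW _ _ ?_ fun k => hcP _ (hcd.2 k)
      rintro (_ | _ | i)
      · exact htT
      · exact hyT
      · exact hcT _ (hcd.1 i)

end Cm
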