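import Pool.Agent.Lib.MP_c35b50_lc.Cm.CaseBB

/-!
# Row B11, part 3: the graph in the residually transcendental case
-/

namespace Cm

open Polynomial

variable {R : Type} [CommRing R] {F : Type} [Field F] [TField R F] {L1 L2 : Type} [Field L1]
  [Field L2] [TField R L1] [TField R L2]
  (j1 : THom R F L1) (j2 : THom R F L2) (t : L1 × L2)
  (ht1 : ∀ d ∈ OO R F, vv R L1 (t.1 - j1.toRingHom d) = 1)
  (ht2 : ∀ d ∈ OO R F, vv R L2 (t.2 - j2.toRingHom d) = 1)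

/-- a constant times a unit of the T-subring -/
def CU (j1 : THom R F L1) (j2 : THom R F L2) (t r : L1 × L2) : Prop :=
  ∃ f : F, f ≠ 0 ∧ ∃ u ∈ TG R (XB j1 j2 t) (YB j1 j2), ∃ u' ∈ TG R (XB j1 j2 t) (YB j1 j2),
    u * u' = 1 ∧ r = (j1.toRingHom f, j2.toRingHom f) * u

include ht1 ht2

theorem CU.mul {r r' : L1 × L2} (h : CU j1 j2 t r) (h' : CU j1 j2 t r') :
    CU j1 j2 t (r * r') := by
  have hX := XB_le j1 j2 t ht1 ht2
  have hY := YB_le j1 j2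
  obtain ⟨f, hf, u, hu, v, hv, huv, rfl⟩ := h
  obtain ⟨f', hf', u', hu', v', hv', huv', rfl⟩ := h'
  refine ⟨f * f', mul_ne_zero hf hf', u * u', TG_mul hX hY hu hu', v * v', TG_mul hX hY hv hv',
    ?_, ?_⟩
  · rw [mul_mul_mul_comm, huv, huv', one_mul]
  · rw [map_mul, map_mul, ← Prod.mk_mul_mk]
    ring

omit ht1 ht2 in
theorem CU.inv {r : L1 × L2} (h : CU j1 j2 t r) : CU j1 j2 t (r.1⁻¹, r.2⁻¹) := by
  obtain ⟨f, hf, u, hu, v, hv, huv, rfl⟩ := h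
  refine ⟨f⁻¹, inv_ne_zero hf, v, hv, u, hu, by rw [mul_comm, huv], ?_⟩
  have h1 : u.1 * v.1 = 1 := congrArg Prod.fst huv
  have h2 : u.2 * v.2 = 1 := congrArg Prod.snd huv
  refine Prod.ext ?_ ?_
  · show (j1.toRingHom f * u.1)⁻¹ = j1.toRingHom f⁻¹ * v.1
    rw [mul_inv, map_inv₀, inv_eq_of_mul_eq_one_right h1]
  · show (j2.toRingHom f * u.2)⁻¹ = j2.toRingHom f⁻¹ * v.2
    rw [mul_inv, map_inv₀, inv_eq_of_mul_eq_one_right h2]

theorem CU.const {c : F} (hc : c ≠ 0) : CU j1 j2 t (j1.toRingHom c, j2.toRingHom c) := by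
  have hX := XB_le j1 j2 t ht1 ht2
  have hY := YB_le j1 j2
  exact ⟨c, hc, 1, TG_one hX hY, 1, TG_one hX hY, one_mul 1, (mul_one _).symm⟩

theorem CU.sub (d : F) : CU j1 j2 t (t - (j1.toRingHom d, j2.toRingHom d)) := by
  have hX := XB_le j1 j2 t ht1 ht2
  have hY := YB_le j1 j2
  have htX : t ∈ XB j1 j2 t := ⟨0, (OO R F).zero_mem, Or.inr (Or.inl rfl)⟩
  by_cases hd : d ∈ OO R F
  · refine ⟨1, one_ne_zero, t - (j1.toRingHom d, j2.toRingHom d), ?_,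
      ((t.1 - j1.toRingHom d)⁻¹, (t.2 - j2.toRingHom d)⁻¹), ?_, ?_, ?_⟩
    · rw [sub_eq_add_neg]
      exact TG_add hX hY (X_sub_TG hX hY htX)
        (TG_neg hX hY (X_sub_TG hX hY ⟨d, hd, Or.inl rfl⟩))
    · exact X_sub_TG hX hY ⟨d, hd, Or.inr (Or.inr rfl)⟩
    · rw [mul_comm]
      exact cb_inv_mul j1 j2 t ht1 ht2 d hd
    · rw [map_one, map_one]
      exact (one_mul _).symm
  · have hd0 : d ≠ 0 := by
      rintro rfl
      exact hd (OO R F).zero_mem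
    have hm : d⁻¹ ∈ mm R F := by
      rw [TField.m_iff]
      refine ⟨(TField.total d).resolve_left hd, Or.inr ?_⟩
      rw [inv_inv]
      exact hd
    have h1 : (j1.toRingHom d⁻¹, j2.toRingHom d⁻¹) ∈ TP R (XB j1 j2 t) (YB j1 j2) :=
      Y_sub_TP hX hY ⟨_, hm, rfl⟩
    have hneg : -t ∈ TG R (XB j1 j2 t) (YB j1 j2) := TG_neg hX hY (X_sub_TG hX hY htX)
    have h2 := TP_mul hX hY hneg h1
    obtain ⟨w, hw, hw1⟩ := TP_inv hX hY h2
    refine ⟨-d, neg_ne_zero.2 hd0, _, ?_, _, ?_, hw1, ?_⟩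
    · exact TG_add hX hY (TG_one hX hY) (TP_sub_TG hX hY h2)
    · exact TG_add hX hY (TG_one hX hY) (TP_sub_TG hX hY hw)
    · have e1 : j1.toRingHom d ≠ 0 := fun h => hd0 (by rwa [map_eq_zero] at h)
      have e2 : j2.toRingHom d ≠ 0 := fun h => hd0 (by rwa [map_eq_zero] at h)
      refine Prod.ext ?_ ?_
      · show t.1 - j1.toRingHom d = j1.toRingHom (-d) * (1 + -t.1 * j1.toRingHom d⁻¹)
        rw [map_neg, map_inv₀]
        field_simp
        ring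
      · show t.2 - j2.toRingHom d = j2.toRingHom (-d) * (1 + -t.2 * j2.toRingHom d⁻¹)
        rw [map_neg, map_inv₀]
        field_simp
        ring

theorem CU.h1 {r : L1 × L2} (h : CU j1 j2 t r) :
    ((r.1 ∈ OO R L1 ↔ r.2 ∈ OO R L2) ∧
      (r.1 ∈ OO R L1 → r ∈ TG R (XB j1 j2 t) (YB j1 j2))) ∧
    ((r.1 ∈ mm R L1 ↔ r.2 ∈ mm R L2) ∧
      (r.1 ∈ mm R L1 → r ∈ TP R (XB j1 j2 t) (YB j1 j2))) := by
  have hX := XB_le j1 j2 t ht1 ht2
  have hY := YB_le j1 j2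
  obtain ⟨f, hf, u, hu, v, hv, huv, rfl⟩ := h
  have h1 : u.1 * v.1 = 1 := congrArg Prod.fst huv
  have h2 : u.2 * v.2 = 1 := congrArg Prod.snd huv
  have hu' := TG_le hX hY hu
  have hv' := TG_le hX hY hv
  have a1 : j1.toRingHom f * u.1 ∈ OO R L1 ↔ f ∈ OO R F := by
    constructor
    · intro h
      have := (OO R L1).mul_mem h hv'.1
      rw [mul_assoc, h1, mul_one] at this
      exact (j1.map_O f).2 this
    · exact fun h => (OO R L1).mul_mem ((j1.map_O f).1 h) hu'.1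
  have a2 : j2.toRingHom f * u.2 ∈ OO R L2 ↔ f ∈ OO R F := by
    constructor
    · intro h
      have := (OO R L2).mul_mem h hv'.2
      rw [mul_assoc, h2, mul_one] at this
      exact (j2.map_O f).2 this
    · exact fun h => (OO R L2).mul_mem ((j2.map_O f).1 h) hu'.2
  have b1 : j1.toRingHom f * u.1 ∈ mm R L1 ↔ f ∈ mm R F := by
    constructor
    · intro h
      have := TRing.m_mul _ hv'.1 _ h
      rw [mul_comm v.1, mul_assoc, h1, mul_one] at this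
      exact (j1.map_m f).2 this
    · intro h
      rw [mul_comm]
      exact TRing.m_mul _ hu'.1 _ ((j1.map_m f).1 h)
  have b2 : j2.toRingHom f * u.2 ∈ mm R L2 ↔ f ∈ mm R F := by
    constructor
    · intro h
      have := TRing.m_mul _ hv'.2 _ h
      rw [mul_comm v.2, mul_assoc, h2, mul_one] at this
      exact (j2.map_m f).2 this
    · intro h
      rw [mul_comm]
      exact TRing.m_mul _ hu'.2 _ ((j2.map_m f).1 h)
  refine ⟨⟨a1.trans a2.symm, fun h => ?_⟩, ⟨b1.trans b2.symm, fun h => ?_⟩⟩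
  · exact TG_mul hX hY (X_sub_TG hX hY ⟨f, a1.1 h, Or.inl rfl⟩) hu
  · rw [mul_comm]
    exact TP_mul hX hY hu (Y_sub_TP hX hY ⟨f, b1.1 h, rfl⟩)

omit ht1 ht2 in
/-- the graph in case b -/
theorem caseB_graph [IsNoetherianRing R] [IsAlgClosed F] (y1 : L1) (y2 : L2) (c e : F)
    (he : e ≠ 0) (h1 : ∀ c', vv R L1 (j1.toRingHom e) ≤ vv R L1 (y1 - j1.toRingHom c'))
    (h1' : vv R L1 (y1 - j1.toRingHom c) = vv R L1 (j1.toRingHom e))
    (h2 : ∀ c', vv R L2 (j2.toRingHom e) ≤ vv R L2 (y2 - j2.toRingHom c'))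
    (h2' : vv R L2 (y2 - j2.toRingHom c) = vv R L2 (j2.toRingHom e))
    (RR : Subring (L1 × L2)) (h0 : ∀ r ∈ RR, r.1 = 0 ↔ r.2 = 0)
    (hinv : ∀ r ∈ RR, (r.1⁻¹, r.2⁻¹) ∈ RR) (hc : ∀ c, (j1.toRingHom c, j2.toRingHom c) ∈ RR)
    (hy : (y1, y2) ∈ RR)
    (hind : ∀ Pr : L1 × L2 → Prop, (∀ c, c ≠ 0 → Pr (j1.toRingHom c, j2.toRingHom c)) →
        (∀ c, Pr (y1 - j1.toRingHom c, y2 - j2.toRingHom c)) →
        (∀ r r', Pr r → Pr r' → Pr (r * r')) → (∀ r, Pr r → Pr (r.1⁻¹, r.2⁻¹)) →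
        ∀ r ∈ RR, r ≠ 0 → Pr r) :
    ∃ G : Subring (L1 × L2), TGraph R G ∧ (∀ c, (j1.toRingHom c, j2.toRingHom c) ∈ G) ∧
      (y1, y2) ∈ G := by
  have e1 : j1.toRingHom e ≠ 0 := fun h => he (by rwa [map_eq_zero] at h)
  have e2 : j2.toRingHom e ≠ 0 := fun h => he (by rwa [map_eq_zero] at h)
  have v1 : vv R L1 (j1.toRingHom e) ≠ 0 := (Valuation.ne_zero_iff _).2 e1
  have v2 : vv R L2 (j2.toRingHom e) ≠ 0 := (Valuation.ne_zero_iff _).2 e2
  set t : L1 × L2 := (y1 - j1.toRingHom c, y2 - j2.toRingHom c) *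
    (j1.toRingHom e⁻¹, j2.toRingHom e⁻¹) with ht
  have key : ∀ {L : Type} [Field L] [TField R L] (j : THom R F L) (y : L),
      j.toRingHom e ≠ 0 → (∀ c', vv R L (j.toRingHom e) ≤ vv R L (y - j.toRingHom c')) →
      vv R L (y - j.toRingHom c) = vv R L (j.toRingHom e) → ∀ d ∈ OO R F,
      vv R L ((y - j.toRingHom c) * j.toRingHom e⁻¹ - j.toRingHom d) = 1 := by
    intro L _ _ j y hje hj hj' d hd
    have hv : vv R L (j.toRingHom e) ≠ 0 := (Valuation.ne_zero_iff _).2 hje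
    have e3 : (y - j.toRingHom c) * j.toRingHom e⁻¹ - j.toRingHom d =
        (y - j.toRingHom (c + e * d)) * (j.toRingHom e)⁻¹ := by
      rw [map_inv₀, map_add, map_mul]
      field_simp
      ring
    refine le_antisymm ?_ ?_
    · refine (Valuation.map_sub _ _ _).trans (max_le ?_ ?_)
      · rw [map_mul, hj', map_inv₀, map_inv₀, mul_inv_cancel₀ hv]
      · exact (vv_le_one_iff _).2 ((j.map_O d).1 hd)
    · rw [e3, map_mul, map_inv₀, ← mul_inv_cancel₀ hv]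
      exact mul_le_mul_left (hj _) _
  have ht1 : ∀ d ∈ OO R F, vv R L1 (t.1 - j1.toRingHom d) = 1 := key j1 y1 e1 h1 h1'
  have ht2 : ∀ d ∈ OO R F, vv R L2 (t.2 - j2.toRingHom d) = 1 := key j2 y2 e2 h2 h2'
  have htR : t ∈ RR := RR.mul_mem (RR.sub_mem hy (hc c)) (hc e⁻¹)
  have hX := XB_le j1 j2 t ht1 ht2
  have hY := YB_le j1 j2
  have hXR : ∀ x ∈ XB j1 j2 t, x ∈ RR := by
    rintro x ⟨d, hd, rfl | rfl | rfl⟩
    · exact hc d
    · exact htR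
    · exact hinv _ (RR.sub_mem htR (hc d))
  have hYR : ∀ x ∈ YB j1 j2, x ∈ RR := by
    rintro x ⟨d, hd, rfl⟩
    exact hc d
  have hCU : ∀ r ∈ RR, r ≠ 0 → CU j1 j2 t r := by
    refine hind _ (fun c hc0 => CU.const j1 j2 t ht1 ht2 hc0) (fun c' => ?_)
      (fun r r' hr hr' => CU.mul j1 j2 t ht1 ht2 hr hr') (fun r hr => CU.inv j1 j2 t hr)
    have h3 := CU.mul j1 j2 t ht1 ht2 (CU.const j1 j2 t ht1 ht2 he)
      (CU.sub j1 j2 t ht1 ht2 ((c' - c) * e⁻¹))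
    convert h3 using 1
    refine Prod.ext ?_ ?_
    · show y1 - j1.toRingHom c' = j1.toRingHom e * ((y1 - j1.toRingHom c) * j1.toRingHom e⁻¹ -
        j1.toRingHom ((c' - c) * e⁻¹))
      rw [map_mul, map_inv₀, map_sub]
      field_simp
      ring
    · show y2 - j2.toRingHom c' = j2.toRingHom e * ((y2 - j2.toRingHom c) * j2.toRingHom e⁻¹ -
        j2.toRingHom ((c' - c) * e⁻¹))
      rw [map_mul, map_inv₀, map_sub]
      field_simp
      ring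
  have hz : (0 : L1 × L2) ∈ TP R (XB j1 j2 t) (YB j1 j2) := TP_zero hX hY
  have H1 : ∀ r ∈ RR, (r.1 ∈ OO R L1 ↔ r.2 ∈ OO R L2) ∧
      (r.1 ∈ OO R L1 → r ∈ TG R (XB j1 j2 t) (YB j1 j2)) := by
    intro r hr
    by_cases hr0 : r = 0
    · subst hr0
      exact ⟨⟨fun _ => (OO R L2).zero_mem, fun _ => (OO R L1).zero_mem⟩,
        fun _ => TP_sub_TG hX hY hz⟩
    · exact (CU.h1 j1 j2 t ht1 ht2 (hCU r hr hr0)).1
  have H1' : ∀ r ∈ RR, (r.1 ∈ mm R L1 ↔ r.2 ∈ mm R L2) ∧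
      (r.1 ∈ mm R L1 → r ∈ TP R (XB j1 j2 t) (YB j1 j2)) := by
    intro r hr
    by_cases hr0 : r = 0
    · subst hr0
      exact ⟨⟨fun _ => TRing.m_zero, fun _ => TRing.m_zero⟩, fun _ => hz⟩
    · exact (CU.h1 j1 j2 t ht1 ht2 (hCU r hr hr0)).2
  have H2 : ∀ h ∈ TG R (XB j1 j2 t) (YB j1 j2), h = 0 ∨ ∃ r ∈ RR, r ≠ 0 ∧
      ∃ d ∈ TP R (XB j1 j2 t) (YB j1 j2), h = r * (1 + d) := by
    intro h hh
    rcases caseB_h2 j1 j2 t ht1 ht2 RR hinv hc htR h hh with h3 | ⟨f, hf, q, hq, hq1, hq2, w, hw, h3⟩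
    · exact Or.inl h3
    · right
      have q1 : q.1 ≠ 0 := by
        intro h4
        rw [h4, map_zero] at hq1
        exact zero_ne_one hq1
      have q2 : q.2 ≠ 0 := by
        intro h4
        rw [h4, map_zero] at hq2
        exact zero_ne_one hq2
      have hqi : q * (q.1⁻¹, q.2⁻¹) = 1 := Prod.ext (mul_inv_cancel₀ q1) (mul_inv_cancel₀ q2)
      refine ⟨(j1.toRingHom f, j2.toRingHom f) * q, RR.mul_mem (hc f) hq, ?_,
        (q.1⁻¹, q.2⁻¹) * w, TP_mul hX hY ((H1 _ (hinv q hq)).2 ?_) hw, ?_⟩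
      · intro h4
        have h5 : j1.toRingHom f * q.1 = 0 := congrArg Prod.fst h4
        rcases mul_eq_zero.1 h5 with h6 | h6
        · exact hf (by rwa [map_eq_zero] at h6)
        · exact q1 h6
      · show q.1⁻¹ ∈ OO R L1
        rw [← vv_le_one_iff, map_inv₀, hq1, inv_one]
      · have h4 : q * (1 + (q.1⁻¹, q.2⁻¹) * w) = q + w := by
          rw [mul_add, mul_one, ← mul_assoc, hqi, one_mul]
        rw [h3, mul_assoc, h4]
  obtain ⟨G, hG, hTG⟩ := graph_of_gen RR h0 hinv _ _ hX hY hXR hYR H1 H1' H2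
  exact ⟨G, hTG, fun c => hG (hc c), hG hy⟩

end Cm
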