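import Pool.Agent.Lib.MP_c35b50_lc.Cm.Prep3
import Pool.Agent.Lib.MP_c35b50_lc.Cm.CaseAux

/-!
# Case c: monomials `γ * z ^ n` have pairwise distinct values
-/

namespace Cm

section general

variable {R : Type} [CommRing R] {K : Type} [Field K] [TField R K]

/-- `x / y` is in `m` iff `|x| < |y|` -/
theorem casec_div_mem {x y : K} (hy : y ≠ 0) : x * y⁻¹ ∈ mm R K ↔ vv R K x < vv R K y := by
  rw [← vv_lt_one_iff, map_mul, map_inv₀, ← div_eq_mul_inv]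
  exact div_lt_one₀ (zero_lt_iff.2 ((Valuation.ne_zero_iff _).2 hy))

/-- a finite family is bounded by one of its members -/
theorem casec_max {t : Type} [Finite t] {P : K → Prop} (h0 : P 0) (u : t → K)
    (hP : ∀ j, P (u j)) : ∃ ρ, P ρ ∧ ∀ j, ∃ e ∈ OO R K, u j = e * ρ := by
  rcases isEmpty_or_nonempty t with h | h
  · exact ⟨0, h0, fun j => (h.false j).elim⟩
  · obtain ⟨j0, hj0⟩ := Finite.exists_max (fun j => vv R K (u j))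
    exact ⟨u j0, hP j0, fun j => (vv_le_iff _ _).1 (hj0 j)⟩

end general

section mon

variable {R : Type} [CommRing R] {F : Type} [Field F] [TField R F] {L1 L2 : Type} [Field L1]
  [Field L2] [TField R L1] [TField R L2]

/-- the pair of the monomials `γ * z ^ n` -/
noncomputable def mon (j1 : THom R F L1) (j2 : THom R F L2) (z1 : L1) (z2 : L2) (γ : F) (n : ℤ) :
    L1 × L2 :=
  (j1.toRingHom γ * z1 ^ n, j2.toRingHom γ * z2 ^ n)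

/-- the constants in `O` -/
def Xc (j1 : THom R F L1) (j2 : THom R F L2) : Set (L1 × L2) :=
  {x | ∃ c ∈ OO R F, x = (j1.toRingHom c, j2.toRingHom c)}

/-- the monomials of degree `0`, `1`, `-1` in `m` -/
def Yc (j1 : THom R F L1) (j2 : THom R F L2) (z1 : L1) (z2 : L2) : Set (L1 × L2) :=
  {x | ∃ (γ : F) (n : ℤ), (n = 0 ∨ n = 1 ∨ n = -1) ∧ x = mon j1 j2 z1 z2 γ n ∧
    (mon j1 j2 z1 z2 γ n).1 ∈ mm R L1}

variable (j1 : THom R F L1) (j2 : THom R F L2) {z1 : L1} {z2 : L2}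

theorem mon_fst (γ : F) (n : ℤ) : (mon j1 j2 z1 z2 γ n).1 = j1.toRingHom γ * z1 ^ n := rfl

theorem mon_snd (γ : F) (n : ℤ) : (mon j1 j2 z1 z2 γ n).2 = j2.toRingHom γ * z2 ^ n := rfl

theorem mon_deg_zero (γ : F) : mon j1 j2 z1 z2 γ 0 = (j1.toRingHom γ, j2.toRingHom γ) := by
  unfold mon
  rw [zpow_zero, zpow_zero, mul_one, mul_one]

theorem mon_zero (n : ℤ) : mon j1 j2 z1 z2 0 n = 0 := by
  unfold mon
  rw [map_zero, map_zero, zero_mul, zero_mul]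
  rfl

theorem mon_inv (γ : F) (n : ℤ) : ((mon j1 j2 z1 z2 γ n).1⁻¹, (mon j1 j2 z1 z2 γ n).2⁻¹) =
    mon j1 j2 z1 z2 γ⁻¹ (-n) := by
  unfold mon
  rw [map_inv₀, map_inv₀, mul_inv, mul_inv, zpow_neg, zpow_neg]

theorem mon_pow (γ : F) (n : ℤ) (k : ℕ) :
    mon j1 j2 z1 z2 γ n ^ k = mon j1 j2 z1 z2 (γ ^ k) (n * k) := by
  unfold mon
  rw [map_pow, map_pow, zpow_mul, zpow_mul, zpow_natCast, zpow_natCast, ← mul_pow, ← mul_pow]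
  rfl

theorem mon_mul (h1 : z1 ≠ 0) (h2 : z2 ≠ 0) (γ γ' : F) (n n' : ℤ) :
    mon j1 j2 z1 z2 γ n * mon j1 j2 z1 z2 γ' n' = mon j1 j2 z1 z2 (γ * γ') (n + n') := by
  unfold mon
  rw [map_mul, map_mul, zpow_add₀ h1, zpow_add₀ h2]
  refine Prod.ext ?_ ?_
  · show j1.toRingHom γ * z1 ^ n * (j1.toRingHom γ' * z1 ^ n') = _
    ring
  · show j2.toRingHom γ * z2 ^ n * (j2.toRingHom γ' * z2 ^ n') = _
    ring

theorem mon_fst_ne (h1 : z1 ≠ 0) {γ : F} (hγ : γ ≠ 0) (n : ℤ) :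
    (mon j1 j2 z1 z2 γ n).1 ≠ 0 :=
  mul_ne_zero ((map_ne_zero _).2 hγ) (zpow_ne_zero _ h1)

theorem mon_ne (h1 : z1 ≠ 0) {γ : F} (hγ : γ ≠ 0) (n : ℤ) : mon j1 j2 z1 z2 γ n ≠ 0 := fun h =>
  mon_fst_ne j1 j2 h1 hγ n (congrArg Prod.fst h)

theorem Xc_le : Xc j1 j2 ⊆ OO R (L1 × L2) := by
  rintro x ⟨c, hc, rfl⟩
  exact ⟨(j1.map_O c).1 hc, (j2.map_O c).1 hc⟩

variable (h1 : z1 ≠ 0) (h2 : z2 ≠ 0)
  (hlt : ∀ r : F, vv R L1 (j1.toRingHom r) < vv R L1 z1 ↔ vv R L2 (j2.toRingHom r) < vv R L2 z2)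
  (hgt : ∀ r : F, vv R L1 z1 < vv R L1 (j1.toRingHom r) ↔ vv R L2 z2 < vv R L2 (j2.toRingHom r))

include h1 h2 hlt hgt

theorem Yc_le : Yc j1 j2 z1 z2 ⊆ mm R (L1 × L2) := by
  rintro x ⟨γ, n, hn, rfl, hx⟩
  refine ⟨hx, ?_⟩
  rcases hn with rfl | rfl | rfl
  · rw [mon_deg_zero] at hx ⊢
    exact (j2.map_m γ).1 ((j1.map_m γ).2 hx)
  · by_cases hγ : γ = 0
    · subst hγ
      rw [mon_zero]
      exact TRing.m_zero
    · have e1 : (mon j1 j2 z1 z2 γ 1).1 = z1 * (j1.toRingHom γ⁻¹)⁻¹ := by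
        rw [mon_fst, map_inv₀, inv_inv, zpow_one, mul_comm]
      have e2 : (mon j1 j2 z1 z2 γ 1).2 = z2 * (j2.toRingHom γ⁻¹)⁻¹ := by
        rw [mon_snd, map_inv₀, inv_inv, zpow_one, mul_comm]
      have n1 : j1.toRingHom γ⁻¹ ≠ 0 := (map_ne_zero _).2 (inv_ne_zero hγ)
      have n2 : j2.toRingHom γ⁻¹ ≠ 0 := (map_ne_zero _).2 (inv_ne_zero hγ)
      rw [e1, casec_div_mem n1] at hx
      rw [e2, casec_div_mem n2]
      exact (hgt _).1 hx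
  · have e1 : (mon j1 j2 z1 z2 γ (-1)).1 = j1.toRingHom γ * z1⁻¹ := by
      rw [mon_fst, zpow_neg_one]
    have e2 : (mon j1 j2 z1 z2 γ (-1)).2 = j2.toRingHom γ * z2⁻¹ := by
      rw [mon_snd, zpow_neg_one]
    rw [e1, casec_div_mem h1] at hx
    rw [e2, casec_div_mem h2]
    exact (hlt _).1 hx

variable (hne : ∀ r : F, vv R L1 z1 ≠ vv R L1 (j1.toRingHom r))

include hne

/-- positive exponents -/
theorem mon_tri_pos [IsAlgClosed F] {γ : F} (hγ : γ ≠ 0) {k : ℕ} (hk : k ≠ 0) :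
    mon j1 j2 z1 z2 γ k ∈ TP R (Xc j1 j2) (Yc j1 j2 z1 z2) ∨
      mon j1 j2 z1 z2 γ⁻¹ (-k) ∈ TP R (Xc j1 j2) (Yc j1 j2 z1 z2) := by
  have hX := Xc_le j1 j2
  have hY := Yc_le j1 j2 h1 h2 hlt hgt
  obtain ⟨ρ, hρ⟩ := IsAlgClosed.exists_pow_nat_eq γ (Nat.pos_of_ne_zero hk)
  have hρ0 : ρ ≠ 0 := by
    rintro rfl
    rw [zero_pow hk] at hρ
    exact hγ hρ.symm
  have hρ1 : j1.toRingHom ρ⁻¹ ≠ 0 := (map_ne_zero _).2 (inv_ne_zero hρ0)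
  rcases lt_or_gt_of_ne (hne ρ⁻¹) with h | h
  · left
    have e1 : (mon j1 j2 z1 z2 ρ 1).1 = z1 * (j1.toRingHom ρ⁻¹)⁻¹ := by
      rw [mon_fst, map_inv₀, inv_inv, zpow_one, mul_comm]
    have h3 : mon j1 j2 z1 z2 ρ 1 ∈ Yc j1 j2 z1 z2 := by
      refine ⟨ρ, 1, Or.inr (Or.inl rfl), rfl, ?_⟩
      rw [e1, casec_div_mem hρ1]
      exact h
    have h4 := TP_pow hX hY (Y_sub_TP hX hY h3) hk
    rwa [mon_pow, hρ, one_mul] at h4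
  · right
    have e1 : (mon j1 j2 z1 z2 ρ⁻¹ (-1)).1 = j1.toRingHom ρ⁻¹ * z1⁻¹ := by
      rw [mon_fst, zpow_neg_one]
    have h3 : mon j1 j2 z1 z2 ρ⁻¹ (-1) ∈ Yc j1 j2 z1 z2 := by
      refine ⟨ρ⁻¹, -1, Or.inr (Or.inr rfl), rfl, ?_⟩
      rw [e1, casec_div_mem h1]
      exact h
    have h4 := TP_pow hX hY (Y_sub_TP hX hY h3) hk
    rwa [mon_pow, inv_pow, hρ, neg_one_mul] at h4

/-- a monomial of degree different from zero, or its inverse, is in `T<X;Y>+` -/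
theorem mon_tri [IsAlgClosed F] {γ : F} (hγ : γ ≠ 0) {n : ℤ} (hn : n ≠ 0) :
    mon j1 j2 z1 z2 γ n ∈ TP R (Xc j1 j2) (Yc j1 j2 z1 z2) ∨
      mon j1 j2 z1 z2 γ⁻¹ (-n) ∈ TP R (Xc j1 j2) (Yc j1 j2 z1 z2) := by
  obtain ⟨k, rfl | rfl⟩ := n.eq_nat_or_neg
  · exact mon_tri_pos j1 j2 h1 h2 hlt hgt hne hγ (by
      rintro rfl
      exact hn rfl)
  · have h3 := mon_tri_pos j1 j2 h1 h2 hlt hgt hne (inv_ne_zero hγ) (k := k) (by
      rintro rfl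
      exact hn rfl)
    rw [inv_inv] at h3
    rw [neg_neg]
    exact h3.symm

/-- the largest monomial of a sum dominates -/
theorem mon_dom [IsAlgClosed F] (I : Finset ℤ) (γ : ℤ → F) (δ : ℤ → L1 × L2)
    (hδ : ∀ n ∈ I, δ n ∈ TP R (Xc j1 j2) (Yc j1 j2 z1 z2)) :
    ∑ n ∈ I, mon j1 j2 z1 z2 (γ n) (-n) * (1 + δ n) = 0 ∨
      ∃ (γ' : F) (n' : ℤ), γ' ≠ 0 ∧ ∃ d ∈ TP R (Xc j1 j2) (Yc j1 j2 z1 z2),
        ∑ n ∈ I, mon j1 j2 z1 z2 (γ n) (-n) * (1 + δ n) = mon j1 j2 z1 z2 γ' n' * (1 + d) := by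
  classical
  have hX := Xc_le j1 j2
  have hY := Yc_le j1 j2 h1 h2 hlt hgt
  have e : ∑ n ∈ I, mon j1 j2 z1 z2 (γ n) (-n) * (1 + δ n) =
      ∑ n ∈ I.filter (fun n => γ n ≠ 0), mon j1 j2 z1 z2 (γ n) (-n) * (1 + δ n) := by
    rw [Finset.sum_filter]
    refine Finset.sum_congr rfl fun n _ => ?_
    split_ifs with h
    · rfl
    · rw [not_not.1 h, mon_zero, zero_mul]
  rw [e]
  rcases (I.filter (fun n => γ n ≠ 0)).eq_empty_or_nonempty with h0 | h0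
  · left
    rw [h0, Finset.sum_empty]
  right
  obtain ⟨n0, hn0, hmax⟩ := Finset.exists_max_image _
    (fun n => vv R L1 (mon j1 j2 z1 z2 (γ n) (-n)).1) h0
  have hγ0 : γ n0 ≠ 0 := (Finset.mem_filter.1 hn0).2
  have hQ : ∀ m ∈ (I.filter (fun n => γ n ≠ 0)).erase n0,
      mon j1 j2 z1 z2 ((γ n0)⁻¹ * γ m) (n0 - m) ∈ TP R (Xc j1 j2) (Yc j1 j2 z1 z2) := by
    intro m hm
    obtain ⟨hm1, hm2⟩ := Finset.mem_erase.1 hm
    have hγm : γ m ≠ 0 := (Finset.mem_filter.1 hm2).2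
    rcases mon_tri j1 j2 h1 h2 hlt hgt hne (mul_ne_zero (inv_ne_zero hγ0) hγm)
      (n := n0 - m) (sub_ne_zero.2 (Ne.symm hm1)) with h | h
    · exact h
    · exfalso
      have h3 := (TP_le hX hY h).1
      rw [← vv_lt_one_iff] at h3
      have e1 : mon j1 j2 z1 z2 (γ n0) (-n0) = mon j1 j2 z1 z2 (γ m) (-m) *
          mon j1 j2 z1 z2 ((γ n0)⁻¹ * γ m)⁻¹ (-(n0 - m)) := by
        rw [mon_mul j1 j2 h1 h2, mul_inv, inv_inv, mul_comm (γ m), mul_assoc,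
          inv_mul_cancel₀ hγm, mul_one]
        congr 1
        ring
      have h4 := hmax m hm2
      rw [e1, Prod.fst_mul, map_mul] at h4
      have h5 : 0 < vv R L1 (mon j1 j2 z1 z2 (γ m) (-m)).1 :=
        zero_lt_iff.2 ((Valuation.ne_zero_iff _).2 (mon_fst_ne j1 j2 h1 hγm _))
      exact absurd h4 (not_le.2 (mul_lt_of_lt_one_right h5 h3))
  refine ⟨γ n0, -n0, hγ0, δ n0 + ∑ m ∈ (I.filter (fun n => γ n ≠ 0)).erase n0,
    mon j1 j2 z1 z2 ((γ n0)⁻¹ * γ m) (n0 - m) * (1 + δ m), ?_, ?_⟩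
  · refine TP_add hX hY (hδ n0 (Finset.mem_filter.1 hn0).1) (TP_sum hX hY _ _ fun m hm => ?_)
    rw [mul_comm]
    exact TP_mul hX hY (TG_one_add hX hY
      (hδ m (Finset.mem_filter.1 (Finset.mem_erase.1 hm).2).1)) (hQ m hm)
  · rw [← Finset.add_sum_erase _ _ hn0, ← add_assoc,
      mul_add (mon j1 j2 z1 z2 (γ n0) (-n0)) (1 + δ n0), Finset.mul_sum]
    congr 1
    refine Finset.sum_congr rfl fun m _ => ?_
    rw [← mul_assoc, mon_mul j1 j2 h1 h2, ← mul_assoc, mul_inv_cancel₀ hγ0, one_mul]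
    congr 2
    ring

omit hlt hgt hne in
/-- finitely many elements of `Y` are combinations of one `r / z` and one `z / r'` -/
theorem mon_fam {t : Type} [Finite t] (b : t → L1 × L2) (hb : ∀ j, b j ∈ Yc j1 j2 z1 z2) :
    ∃ (ρ1 ρ2 : F) (β e e' : t → F), mon j1 j2 z1 z2 ρ1 (-1) ∈ Yc j1 j2 z1 z2 ∧
      mon j1 j2 z1 z2 ρ2 1 ∈ Yc j1 j2 z1 z2 ∧ ρ1 * ρ2 ∈ mm R F ∧ (∀ j, β j ∈ mm R F) ∧
      (∀ j, e j ∈ OO R F) ∧ (∀ j, e' j ∈ OO R F) ∧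
      ∀ j, b j = mon j1 j2 z1 z2 (β j) 0 + mon j1 j2 z1 z2 (e j) 0 * mon j1 j2 z1 z2 ρ1 (-1) +
        mon j1 j2 z1 z2 (e' j) 0 * mon j1 j2 z1 z2 ρ2 1 := by
  have hz : ∀ n, (mon j1 j2 z1 z2 0 n).1 ∈ mm R L1 := fun n => by
    rw [mon_zero]
    exact TRing.m_zero
  have H : ∀ j, ∃ β u w : F, β ∈ mm R F ∧ (mon j1 j2 z1 z2 u (-1)).1 ∈ mm R L1 ∧
      (mon j1 j2 z1 z2 w 1).1 ∈ mm R L1 ∧
      b j = mon j1 j2 z1 z2 β 0 + mon j1 j2 z1 z2 u (-1) + mon j1 j2 z1 z2 w 1 := by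
    intro j
    obtain ⟨γ, n, hn, hbj, hm⟩ := hb j
    rcases hn with rfl | rfl | rfl
    · refine ⟨γ, 0, 0, ?_, hz _, hz _, ?_⟩
      · rw [mon_deg_zero] at hm
        exact (j1.map_m γ).2 hm
      · rw [hbj, mon_zero, mon_zero, add_zero, add_zero]
    · refine ⟨0, 0, γ, TRing.m_zero, hz _, hm, ?_⟩
      rw [hbj, mon_zero, mon_zero, zero_add, zero_add]
    · refine ⟨0, γ, 0, TRing.m_zero, hm, hz _, ?_⟩
      rw [hbj, mon_zero, mon_zero, zero_add, add_zero]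
  choose β u w hβ hu hw hb' using H
  obtain ⟨ρ1, hρ1, he⟩ := casec_max (R := R)
    (P := fun u => (mon j1 j2 z1 z2 u (-1)).1 ∈ mm R L1) (hz _) u hu
  obtain ⟨ρ2, hρ2, he'⟩ := casec_max (R := R)
    (P := fun w => (mon j1 j2 z1 z2 w 1).1 ∈ mm R L1) (hz _) w hw
  choose e heO he using he
  choose e' heO' he' using he'
  refine ⟨ρ1, ρ2, β, e, e', ⟨ρ1, -1, Or.inr (Or.inr rfl), rfl, hρ1⟩,
    ⟨ρ2, 1, Or.inr (Or.inl rfl), rfl, hρ2⟩, ?_, hβ, heO, heO', fun j => ?_⟩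
  · rw [j1.map_m]
    have h3 : mon j1 j2 z1 z2 ρ1 (-1) * mon j1 j2 z1 z2 ρ2 1 = mon j1 j2 z1 z2 (ρ1 * ρ2) 0 := by
      rw [mon_mul j1 j2 h1 h2]
      rfl
    have h4 := TRing.m_mul (R := R) _ (TRing.m_le _ hρ1) _ hρ2
    rw [← Prod.fst_mul, h3, mon_deg_zero] at h4
    exact h4
  · rw [hb' j, mon_mul j1 j2 h1 h2, mon_mul j1 j2 h1 h2, ← he j, ← he' j, zero_add, zero_add]

end mon

end Cm
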