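import Pool.Agent.Lib.MP_c35b50_lc.Cm.CaseC

/-!
# Case c, the end: every element of `T<X;Y>` is a monomial times `1 + δ`, or zero
-/

namespace Cm

section ser

variable {R : Type} [CommRing R] {A : Type} [CommRing A] [TRing R A]

/-- the series `ρ_j + ξ_j ρ + ξ'_j ρ'` -/
noncomputable def casecH (R : Type) [CommRing R] (s t : Type) (j : t) :
    S R (s ⊕ (t ⊕ t)) (Option (Option t)) :=
  rho (some (some j)) + xi (Sum.inr (Sum.inl j)) * rho none +
    xi (Sum.inr (Sum.inr j)) * rho (some none)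

theorem casecH_rr (s : Type) {t : Type} (j : t) :
    casecH R s t j ∈ rr R (s ⊕ (t ⊕ t)) (Option (Option t)) := by
  have h : ∀ k : Option (Option t), (rho k : S R (s ⊕ (t ⊕ t)) (Option (Option t))) ∈
      rr R (s ⊕ (t ⊕ t)) (Option (Option t)) := fun k => MvPowerSeries.constantCoeff_X k
  exact Ideal.add_mem _ (Ideal.add_mem _ (h _) (Ideal.mul_mem_left _ _ (h _)))
    (Ideal.mul_mem_left _ _ (h _))

theorem casecH_ev {s t : Type} [Finite s] [Finite t] (a : s → A) (e e' : t → A) (b : t → A)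
    (x1 x2 : A)
    (h : Dom R (Sum.elim a (Sum.elim e e') : s ⊕ (t ⊕ t) → A) (oc x1 (oc x2 b))) (j : t) :
    ev (casecH R s t j) (Sum.elim a (Sum.elim e e')) (oc x1 (oc x2 b)) =
      b j + e j * x1 + e' j * x2 := by
  have hr := fun k => TRing.T_rho (R := R) _ _ h.1 h.2 k
  have hx := fun k => TRing.T_xi (R := R) _ _ h.1 h.2 k
  unfold casecH
  rw [← evHom_apply _ _ h, map_add, map_add, map_mul, map_mul]
  simp only [evHom_apply]
  rw [show ev (rho (some (some j)) : S R (s ⊕ (t ⊕ t)) (Option (Option t)))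
      (Sum.elim a (Sum.elim e e')) (oc x1 (oc x2 b)) = b j from hr (some (some j)),
    show ev (rho none : S R (s ⊕ (t ⊕ t)) (Option (Option t)))
      (Sum.elim a (Sum.elim e e')) (oc x1 (oc x2 b)) = x1 from hr none,
    show ev (rho (some none) : S R (s ⊕ (t ⊕ t)) (Option (Option t)))
      (Sum.elim a (Sum.elim e e')) (oc x1 (oc x2 b)) = x2 from hr (some none),
    show ev (xi (Sum.inr (Sum.inl j)) : S R (s ⊕ (t ⊕ t)) (Option (Option t)))
      (Sum.elim a (Sum.elim e e')) (oc x1 (oc x2 b)) = e j from hx (Sum.inr (Sum.inl j)),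
    show ev (xi (Sum.inr (Sum.inr j)) : S R (s ⊕ (t ⊕ t)) (Option (Option t)))
      (Sum.elim a (Sum.elim e e')) (oc x1 (oc x2 b)) = e' j from hx (Sum.inr (Sum.inr j))]

end ser

variable {R : Type} [CommRing R] [IsNoetherianRing R]
  {F : Type} [Field F] [TField R F] {L1 L2 : Type} [Field L1] [Field L2] [TField R L1]
  [TField R L2] (j1 : THom R F L1) (j2 : THom R F L2) {z1 : L1} {z2 : L2}
  (h1 : z1 ≠ 0) (h2 : z2 ≠ 0)
  (hlt : ∀ r : F, vv R L1 (j1.toRingHom r) < vv R L1 z1 ↔ vv R L2 (j2.toRingHom r) < vv R L2 z2)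
  (hgt : ∀ r : F, vv R L1 z1 < vv R L1 (j1.toRingHom r) ↔ vv R L2 z2 < vv R L2 (j2.toRingHom r))
  (hne : ∀ r : F, vv R L1 z1 ≠ vv R L1 (j1.toRingHom r))

include h1 h2 hlt hgt hne

/-- (H2) for case c -/
theorem mon_H2 [IsAlgClosed F] (h : L1 × L2) (hh : h ∈ TG R (Xc j1 j2) (Yc j1 j2 z1 z2)) :
    h = 0 ∨ ∃ (γ : F) (n : ℤ), γ ≠ 0 ∧ ∃ d ∈ TP R (Xc j1 j2) (Yc j1 j2 z1 z2),
      h = mon j1 j2 z1 z2 γ n * (1 + d) := by
  classical
  have hX := Xc_le j1 j2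
  have hY := Yc_le j1 j2 h1 h2 hlt hgt
  obtain ⟨s, t, _, _, Fs, a, b, ha, hb, rfl⟩ := hh
  choose α hα haα using ha
  obtain ⟨ρ1, ρ2, β, e, e', hρ1, hρ2, hq, hβ, he, he', hb'⟩ := mon_fam j1 j2 h1 h2 b hb
  obtain ⟨G, -, hG⟩ := exists_ev_comp (fun i : s => (xi (Sum.inl i) :
    S R (s ⊕ (t ⊕ t)) (Option (Option t)))) (casecH R s t) (casecH_rr s) Fs
  have hdF : Dom R (Sum.elim α (Sum.elim e e') : s ⊕ (t ⊕ t) → F) β := by
    refine ⟨?_, hβ⟩
    rintro (i | i | i)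
    · exact hα i
    · exact he i
    · exact he' i
  obtain ⟨I, γ, s', t', _, _, W, a', b', -, hd', hW, key⟩ :=
    prepC (ρ1 * ρ2) hq G (Sum.elim α (Sum.elim e e')) β hdF
  set J : THom R F (L1 × L2) := THom.prod j1 j2 with hJ
  have hJa : ∀ c, J.toRingHom c = mon j1 j2 z1 z2 c 0 := fun c => (mon_deg_zero j1 j2 c).symm
  set x1 := mon j1 j2 z1 z2 ρ1 (-1) with hx1
  set x2 := mon j1 j2 z1 z2 ρ2 1 with hx2
  have h12 : x1 * x2 = J.toRingHom (ρ1 * ρ2) := by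
    rw [hx1, hx2, mon_mul j1 j2 h1 h2, hJa]
    rfl
  have key2 := key (L1 × L2) J x1 x2 (hY hρ1) (hY hρ2) h12
  -- the value is the value of `G`
  have hdJ : Dom R (Sum.elim (fun i => J.toRingHom (α i)) (Sum.elim (fun i => J.toRingHom (e i))
      (fun i => J.toRingHom (e' i))) : s ⊕ (t ⊕ t) → L1 × L2)
      (oc x1 (oc x2 (fun i => J.toRingHom (β i)))) := by
    refine ⟨?_, ?_⟩
    · rintro (i | i | i)
      · exact (J.map_O _).1 (hα i)
      · exact (J.map_O _).1 (he i)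
      · exact (J.map_O _).1 (he' i)
    · rintro (_ | _ | i)
      · exact hY hρ1
      · exact hY hρ2
      · exact (J.map_m _).1 (hβ i)
  have e1 : (fun i => J.toRingHom ((Sum.elim α (Sum.elim e e') : s ⊕ (t ⊕ t) → F) i)) =
      (Sum.elim (fun i => J.toRingHom (α i)) (Sum.elim (fun i => J.toRingHom (e i))
      (fun i => J.toRingHom (e' i))) : s ⊕ (t ⊕ t) → L1 × L2) := by
    funext i
    rcases i with i | i | i <;> rfl
  have e2 := hG (L1 × L2) _ _ hdJ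
  have e3 : ev Fs a b = ev G (Sum.elim (fun i => J.toRingHom (α i)) (Sum.elim
      (fun i => J.toRingHom (e i)) (fun i => J.toRingHom (e' i))))
      (oc x1 (oc x2 (fun i => J.toRingHom (β i)))) := by
    rw [e2]
    congr 1
    · funext i
      rw [haα i]
      exact (TRing.T_xi (R := R) _ _ hdJ.1 hdJ.2 (Sum.inl i)).symm
    · funext j
      rw [casecH_ev (R := R) _ _ _ _ _ _ hdJ j, hb' j, hJa, hJa, hJa]
  rw [e1, ← e3] at key2
  -- the terms of the sum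
  have hδ : ∀ n, ev (W n) (fun i => J.toRingHom (a' i))
      (oc x1 (oc x2 (fun i => J.toRingHom (b' i)))) ∈ TP R (Xc j1 j2) (Yc j1 j2 z1 z2) := by
    intro n
    refine TP_ev hX hY (W n) (hW n) _ _ (fun i => X_sub_TG hX hY ⟨a' i, hd'.1 i, rfl⟩) ?_
    rintro (_ | _ | i)
    · exact Y_sub_TP hX hY hρ1
    · exact Y_sub_TP hX hY hρ2
    · refine Y_sub_TP hX hY ⟨b' i, 0, Or.inl rfl, hJa (b' i), ?_⟩
      rw [mon_deg_zero]
      exact (j1.map_m _).1 (hd'.2 i)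
  have hterm : ∀ n : ℤ, J.toRingHom (γ n) * (if 0 ≤ n then x1 ^ n.toNat else x2 ^ (-n).toNat) =
      mon j1 j2 z1 z2 (if 0 ≤ n then γ n * ρ1 ^ n.toNat else γ n * ρ2 ^ (-n).toNat) (-n) := by
    intro n
    split_ifs with hn
    · rw [hJa, hx1, mon_pow, mon_mul j1 j2 h1 h2, Int.toNat_of_nonneg hn]
      congr 1
      ring
    · rw [hJa, hx2, mon_pow, mon_mul j1 j2 h1 h2, Int.toNat_of_nonneg (by omega)]
      congr 1
      ring
  rw [Finset.sum_congr rfl fun n _ => by rw [hterm n]] at key2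
  rcases mon_dom j1 j2 h1 h2 hlt hgt hne I _ _ (fun n _ => hδ n) with h | ⟨γ', n', hγ', d, hd, h⟩
  · left
    rw [key2, h]
  · right
    exact ⟨γ', n', hγ', d, hd, by rw [key2, h]⟩

/-- Case c with the field of pairs `RR` given. -/
theorem case_c_aux [IsAlgClosed F] (RR : Subring (L1 × L2))
    (h0 : ∀ r ∈ RR, r.1 = 0 ↔ r.2 = 0) (hinv : ∀ r ∈ RR, (r.1⁻¹, r.2⁻¹) ∈ RR)
    (hcR : ∀ c, (j1.toRingHom c, j2.toRingHom c) ∈ RR) (hz : (z1, z2) ∈ RR)
    (hind : ∀ Pr : L1 × L2 → Prop, (∀ c, c ≠ 0 → Pr (j1.toRingHom c, j2.toRingHom c)) →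
      (∀ c, Pr (z1 - j1.toRingHom c, z2 - j2.toRingHom c)) →
      (∀ r r', Pr r → Pr r' → Pr (r * r')) → (∀ r, Pr r → Pr (r.1⁻¹, r.2⁻¹)) →
      ∀ r ∈ RR, r ≠ 0 → Pr r) :
    ∃ G : Subring (L1 × L2), RR ≤ G ∧ TGraph R G := by
  have hX := Xc_le j1 j2
  have hY := Yc_le j1 j2 h1 h2 hlt hgt
  have hzn : ∀ n : ℤ, (z1 ^ n, z2 ^ n) ∈ RR := by
    intro n
    obtain ⟨k, rfl | rfl⟩ := n.eq_nat_or_neg
    · rw [zpow_natCast, zpow_natCast]
      exact RR.pow_mem hz k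
    · rw [zpow_neg, zpow_neg, zpow_natCast, zpow_natCast]
      exact hinv _ (RR.pow_mem hz k)
  have hmon : ∀ (γ : F) (n : ℤ), mon j1 j2 z1 z2 γ n ∈ RR := fun γ n =>
    RR.mul_mem (hcR γ) (hzn n)
  have hinvd : ∀ d ∈ TP R (Xc j1 j2) (Yc j1 j2 z1 z2),
      ∃ d' ∈ TP R (Xc j1 j2) (Yc j1 j2 z1 z2), ((1 + d).1⁻¹, (1 + d).2⁻¹) = 1 + d' := by
    intro d hd
    obtain ⟨d', hd', e2⟩ := TP_inv hX hY hd
    refine ⟨d', hd', Prod.ext ?_ ?_⟩
    · exact inv_eq_of_mul_eq_one_right (congrArg Prod.fst e2)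
    · exact inv_eq_of_mul_eq_one_right (congrArg Prod.snd e2)
  have hminv : ∀ (γ : F) (n : ℤ) (d d' : L1 × L2), ((1 + d).1⁻¹, (1 + d).2⁻¹) = 1 + d' →
      ((mon j1 j2 z1 z2 γ n * (1 + d)).1⁻¹, (mon j1 j2 z1 z2 γ n * (1 + d)).2⁻¹) =
        mon j1 j2 z1 z2 γ⁻¹ (-n) * (1 + d') := by
    intro γ n d d' e
    rw [← e, ← mon_inv, Prod.fst_mul, Prod.snd_mul, mul_inv, mul_inv]
    rfl
  -- every element of `RR` is a monomial times `1 + δ`
  have hnf : ∀ r ∈ RR, r ≠ 0 → ∃ (γ : F) (n : ℤ), γ ≠ 0 ∧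
      ∃ d ∈ TP R (Xc j1 j2) (Yc j1 j2 z1 z2), r = mon j1 j2 z1 z2 γ n * (1 + d) := by
    refine hind (fun r => ∃ (γ : F) (n : ℤ), γ ≠ 0 ∧
      ∃ d ∈ TP R (Xc j1 j2) (Yc j1 j2 z1 z2), r = mon j1 j2 z1 z2 γ n * (1 + d)) ?_ ?_ ?_ ?_
    · intro c hc
      exact ⟨c, 0, hc, 0, TP_zero hX hY, by rw [mon_deg_zero, add_zero, mul_one]⟩
    · intro c
      by_cases hc : c = 0
      · subst hc
        refine ⟨1, 1, one_ne_zero, 0, TP_zero hX hY, ?_⟩
        rw [add_zero, mul_one, map_zero, map_zero, sub_zero, sub_zero]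
        unfold mon
        rw [map_one, map_one, one_mul, one_mul, zpow_one, zpow_one]
      · rcases mon_tri j1 j2 h1 h2 hlt hgt hne (inv_ne_zero hc) (n := 1) one_ne_zero with h | h
        · refine ⟨-c, 0, neg_ne_zero.2 hc, _, TP_neg hX hY h, ?_⟩
          rw [← sub_eq_add_neg, mul_sub, mul_one, mon_mul j1 j2 h1 h2, zero_add, neg_mul,
            mul_inv_cancel₀ hc]
          refine Prod.ext ?_ ?_
          · rw [Prod.fst_sub, mon_fst, mon_fst, zpow_zero, zpow_one, map_neg, map_neg, map_one]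
            ring
          · rw [Prod.snd_sub, mon_snd, mon_snd, zpow_zero, zpow_one, map_neg, map_neg, map_one]
            ring
        · rw [inv_inv] at h
          refine ⟨1, 1, one_ne_zero, _, TP_neg hX hY h, ?_⟩
          rw [← sub_eq_add_neg, mul_sub, mul_one, mon_mul j1 j2 h1 h2, one_mul]
          refine Prod.ext ?_ ?_
          · rw [Prod.fst_sub, mon_fst, mon_fst, add_neg_cancel, zpow_zero, zpow_one, map_one]
            ring
          · rw [Prod.snd_sub, mon_snd, mon_snd, add_neg_cancel, zpow_zero, zpow_one, map_one]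
            ring
    · rintro _ _ ⟨γ, n, hγ, d, hd, rfl⟩ ⟨γ', n', hγ', d', hd', rfl⟩
      obtain ⟨d2, hd2, e2⟩ := TP_one_add_mul hX hY hd hd'
      refine ⟨γ * γ', n + n', mul_ne_zero hγ hγ', d2, hd2, ?_⟩
      rw [← mon_mul j1 j2 h1 h2, ← e2]
      ring
    · rintro _ ⟨γ, n, hγ, d, hd, rfl⟩
      obtain ⟨d', hd', e2⟩ := hinvd d hd
      exact ⟨γ⁻¹, -n, inv_ne_zero hγ, d', hd', hminv γ n d d' e2⟩
  refine graph_of_tri RR h0 hinv (Xc j1 j2) (Yc j1 j2 z1 z2) hX hY ?_ ?_ ?_ ?_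
  · rintro _ ⟨c, -, rfl⟩
    exact hcR c
  · rintro _ ⟨γ, n, -, rfl, -⟩
    exact hmon γ n
  · intro r hr hr0
    obtain ⟨γ, n, hγ, d, hd, rfl⟩ := hnf r hr hr0
    obtain ⟨d', hd', e2⟩ := hinvd d hd
    rw [hminv γ n d d' e2]
    by_cases hn : n = 0
    · subst hn
      by_cases hO : γ ∈ OO R F
      · by_cases hm : γ ∈ mm R F
        · left
          rw [mul_comm]
          refine TP_mul hX hY (TG_one_add hX hY hd) (Y_sub_TP hX hY ⟨γ, 0, Or.inl rfl, rfl, ?_⟩)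
          rw [mon_deg_zero]
          exact (j1.map_m γ).1 hm
        · right
          left
          refine ⟨TG_mul hX hY (X_sub_TG hX hY ⟨γ, hO, mon_deg_zero j1 j2 γ⟩)
            (TG_one_add hX hY hd), ?_⟩
          rw [neg_zero]
          exact TG_mul hX hY (X_sub_TG hX hY ⟨γ⁻¹, caux_inv_mem_O hO hm, mon_deg_zero j1 j2 _⟩)
            (TG_one_add hX hY hd')
      · right
        right
        rw [mul_comm]
        refine TP_mul hX hY (TG_one_add hX hY hd')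
          (Y_sub_TP hX hY ⟨γ⁻¹, -0, Or.inl neg_zero, rfl, ?_⟩)
        rw [neg_zero, mon_deg_zero]
        exact (j1.map_m _).1 (caux_inv_mem_m hO)
    · rcases mon_tri j1 j2 h1 h2 hlt hgt hne hγ hn with h | h
      · left
        rw [mul_comm]
        exact TP_mul hX hY (TG_one_add hX hY hd) h
      · right
        right
        rw [mul_comm]
        exact TP_mul hX hY (TG_one_add hX hY hd') h
  · intro h hh
    rcases mon_H2 j1 j2 h1 h2 hlt hgt hne h hh with h3 | ⟨γ, n, hγ, d, hd, h3⟩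
    · exact Or.inl h3
    · exact Or.inr ⟨_, hmon γ n, mon_ne j1 j2 h1 hγ n, d, hd, h3⟩

end Cm
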