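import Mathlib

/-!
# The field of the pairs of values of rational functions (for row B9)
-/

namespace Cm

open Polynomial

theorem ratField_inj {F L : Type} [Field F] [Field L] [IsAlgClosed F] (j : F →+* L) (y : L)
    (hy : ∀ c, y ≠ j c) : Function.Injective (eval₂RingHom j y) := by
  rw [injective_iff_map_eq_zero]
  intro P hP
  by_contra h0
  rw [coe_eval₂RingHom, (IsAlgClosed.splits P).eq_prod_roots, eval₂_mul, eval₂_C,
    eval₂_multiset_prod, Multiset.map_map] at hP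
  rcases mul_eq_zero.1 hP with h | h
  · rw [map_eq_zero, leadingCoeff_eq_zero] at h
    exact h0 h
  · rw [Multiset.prod_eq_zero_iff, Multiset.mem_map] at h
    obtain ⟨r, -, hr⟩ := h
    rw [Function.comp_apply, eval₂_sub, eval₂_X, eval₂_C, sub_eq_zero] at hr
    exact hy r hr

theorem ratField {F L1 L2 : Type} [Field F] [Field L1] [Field L2] [IsAlgClosed F]
    (j1 : F →+* L1) (j2 : F →+* L2) (y1 : L1) (y2 : L2)
    (hy1 : ∀ c, y1 ≠ j1 c) (hy2 : ∀ c, y2 ≠ j2 c) :
    ∃ RR : Subring (L1 × L2), (∀ r ∈ RR, r.1 = 0 ↔ r.2 = 0) ∧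
      (∀ r ∈ RR, (r.1⁻¹, r.2⁻¹) ∈ RR) ∧ (∀ c, (j1 c, j2 c) ∈ RR) ∧
      (y1, y2) ∈ RR ∧
      ∀ Pr : L1 × L2 → Prop, (∀ c, c ≠ 0 → Pr (j1 c, j2 c)) →
        (∀ c, Pr (y1 - j1 c, y2 - j2 c)) →
        (∀ r r', Pr r → Pr r' → Pr (r * r')) → (∀ r, Pr r → Pr (r.1⁻¹, r.2⁻¹)) →
        ∀ r ∈ RR, r ≠ 0 → Pr r := by
  have i1 := ratField_inj j1 y1 hy1
  have i2 := ratField_inj j2 y2 hy2
  let f1 : FractionRing F[X] →+* L1 := IsFractionRing.lift i1
  let f2 : FractionRing F[X] →+* L2 := IsFractionRing.lift i2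
  have e1 : ∀ P : F[X], f1 (algebraMap _ _ P) = eval₂ j1 y1 P := fun P =>
    IsFractionRing.lift_algebraMap i1 P
  have e2 : ∀ P : F[X], f2 (algebraMap _ _ P) = eval₂ j2 y2 P := fun P =>
    IsFractionRing.lift_algebraMap i2 P
  refine ⟨(f1.prod f2).range, ?_, ?_, ?_, ?_, ?_⟩
  · rintro _ ⟨x, rfl⟩
    rw [RingHom.prod_apply]
    simp
  · rintro _ ⟨x, rfl⟩
    refine ⟨x⁻¹, ?_⟩
    rw [RingHom.prod_apply, RingHom.prod_apply, map_inv₀, map_inv₀]
  · intro c
    refine ⟨algebraMap _ _ (C c), ?_⟩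
    rw [RingHom.prod_apply, e1, e2, eval₂_C, eval₂_C]
  · refine ⟨algebraMap _ _ (X : F[X]), ?_⟩
    rw [RingHom.prod_apply, e1, e2, eval₂_X, eval₂_X]
  · intro Pr hc hX hmul hinv
    have key : ∀ P Q : F[X], (eval₂ j1 y1 (P * Q), eval₂ j2 y2 (P * Q)) =
        (eval₂ j1 y1 P, eval₂ j2 y2 P) * (eval₂ j1 y1 Q, eval₂ j2 y2 Q) :=
      fun P Q => Prod.ext (eval₂_mul _ _) (eval₂_mul _ _)
    -- polynomials
    have hP : ∀ P : F[X], P ≠ 0 → Pr (eval₂ j1 y1 P, eval₂ j2 y2 P) := by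
      intro P hP0
      have h1 : ∀ s : Multiset F, ∀ c : F, c ≠ 0 →
          Pr (eval₂ j1 y1 (C c * (s.map (fun r => X - C r)).prod),
            eval₂ j2 y2 (C c * (s.map (fun r => X - C r)).prod)) := by
        intro s
        induction s using Multiset.induction_on with
        | empty =>
          intro c hc0
          rw [Multiset.map_zero, Multiset.prod_zero, mul_one, eval₂_C, eval₂_C]
          exact hc c hc0
        | cons a s ih =>
          intro c hc0
          have h2 : C c * ((a ::ₘ s).map (fun r => X - C r)).prod =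
              (C c * (s.map (fun r => X - C r)).prod) * (X - C a) := by
            rw [Multiset.map_cons, Multiset.prod_cons]
            ring
          rw [h2, key]
          have h3 := hmul _ _ (ih c hc0) (hX a)
          have h4 : (eval₂ j1 y1 (X - C a), eval₂ j2 y2 (X - C a)) = (y1 - j1 a, y2 - j2 a) := by
            rw [eval₂_sub, eval₂_sub, eval₂_X, eval₂_X, eval₂_C, eval₂_C]
          rw [← h4] at h3
          exact h3
      have h5 := h1 P.roots P.leadingCoeff (leadingCoeff_ne_zero.2 hP0)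
      rw [← (IsAlgClosed.splits P).eq_prod_roots] at h5
      exact h5
    rintro _ ⟨x, rfl⟩ hx
    obtain ⟨P, Q, hQ, rfl⟩ := IsFractionRing.div_surjective F[X] x
    have hQ0 : Q ≠ 0 := nonZeroDivisors.ne_zero hQ
    have hP0 : P ≠ 0 := by
      rintro rfl
      apply hx
      rw [map_zero, zero_div, map_zero]
    have h6 := hmul _ _ (hP P hP0) (hinv _ (hP Q hQ0))
    have h7 : (f1.prod f2) (algebraMap F[X] (FractionRing F[X]) P /
        algebraMap F[X] (FractionRing F[X]) Q) =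
        (eval₂ j1 y1 P, eval₂ j2 y2 P) * ((eval₂ j1 y1 Q)⁻¹, (eval₂ j2 y2 Q)⁻¹) := by
      rw [RingHom.prod_apply, map_div₀, map_div₀, e1, e1, e2, e2, div_eq_mul_inv,
        div_eq_mul_inv]
      rfl
    rw [h7]
    exact h6

end Cm
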