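import Pool.Agent.Lib.MP_c35b50_lc.Cm.Prep3
import Pool.Agent.Lib.MP_c35b50_lc.Cm.RatF
import Pool.Agent.Lib.MP_c35b50_lc.Cm.Graph
import Pool.Agent.Lib.MP_c35b50_lc.Cm.CaseBC
import Pool.Agent.Lib.MP_c35b50_lc.Cm.CaseC2

/-!
# The three cases for one element over an algebraically closed T-field (rows B9 - B12)
-/

namespace Cm

open Polynomial

variable {R : Type} [CommRing R]
  {F : Type} [Field F] [TField R F] {L1 L2 : Type} [Field L1] [Field L2] [TField R L1]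
  [TField R L2]

/-- `y1 ∈ L1` and `y2 ∈ L2` lie in the same balls over `F`. -/
def SameBalls (j1 : THom R F L1) (j2 : THom R F L2) (y1 : L1) (y2 : L2) : Prop :=
  ∀ c r : F,
    (vv R L1 (y1 - j1.toRingHom c) ≤ vv R L1 (j1.toRingHom r) ↔
      vv R L2 (y2 - j2.toRingHom c) ≤ vv R L2 (j2.toRingHom r)) ∧
    (vv R L1 (j1.toRingHom r) ≤ vv R L1 (y1 - j1.toRingHom c) ↔
      vv R L2 (j2.toRingHom r) ≤ vv R L2 (y2 - j2.toRingHom c))

/-- the pair of values of a rational function `P / Q` at `y1` and `y2` -/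
noncomputable def rat (j1 : THom R F L1) (j2 : THom R F L2) (y1 : L1) (y2 : L2) (P Q : F[X]) :
    L1 × L2 :=
  ((P.map j1.toRingHom).eval y1 / (Q.map j1.toRingHom).eval y1,
    (P.map j2.toRingHom).eval y2 / (Q.map j2.toRingHom).eval y2)

/-- Row B9: the field of the pairs of values of rational functions; multiplicative induction. -/
theorem exists_ratField [IsAlgClosed F] (j1 : THom R F L1) (j2 : THom R F L2) (y1 : L1) (y2 : L2)
    (hy1 : ∀ c, y1 ≠ j1.toRingHom c) (hy2 : ∀ c, y2 ≠ j2.toRingHom c) :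
    ∃ RR : Subring (L1 × L2), (∀ r ∈ RR, r.1 = 0 ↔ r.2 = 0) ∧
      (∀ r ∈ RR, (r.1⁻¹, r.2⁻¹) ∈ RR) ∧ (∀ c, (j1.toRingHom c, j2.toRingHom c) ∈ RR) ∧
      (y1, y2) ∈ RR ∧
      ∀ Pr : L1 × L2 → Prop, (∀ c, c ≠ 0 → Pr (j1.toRingHom c, j2.toRingHom c)) →
        (∀ c, Pr (y1 - j1.toRingHom c, y2 - j2.toRingHom c)) →
        (∀ r r', Pr r → Pr r' → Pr (r * r')) → (∀ r, Pr r → Pr (r.1⁻¹, r.2⁻¹)) →
        ∀ r ∈ RR, r ≠ 0 → Pr r :=
  ratField j1.toRingHom j2.toRingHom y1 y2 hy1 hy2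

/-! ### case a: preparations -/

section CaseA

theorem ca_mul_inv {K : Type} [Field K] [TField R K] {x z : K} (h : vv R K x < vv R K z) :
    x * z⁻¹ ∈ mm R K := by
  have hz : 0 < vv R K z := lt_of_le_of_lt zero_le h
  rw [← vv_lt_one_iff, map_mul, map_inv₀, ← div_eq_mul_inv, div_lt_one₀ hz]
  exact h

theorem ca_lt {j1 : THom R F L1} {j2 : THom R F L2} {y1 : L1} {y2 : L2}
    (hb : SameBalls j1 j2 y1 y2) (c r : F) :
    vv R L1 (y1 - j1.toRingHom c) < vv R L1 (j1.toRingHom r) ↔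
      vv R L2 (y2 - j2.toRingHom c) < vv R L2 (j2.toRingHom r) := by
  rw [← not_le, ← not_le, (hb c r).2]

theorem ca_hy2 {j1 : THom R F L1} {j2 : THom R F L2} {y1 : L1} {y2 : L2}
    (hy1 : ∀ c, y1 ≠ j1.toRingHom c) (hb : SameBalls j1 j2 y1 y2) (c : F) :
    y2 ≠ j2.toRingHom c := by
  intro h
  have h1 := (hb c 0).1
  rw [map_zero, map_zero, map_zero, map_zero, le_zero_iff, le_zero_iff, Valuation.zero_iff,
    Valuation.zero_iff, sub_eq_zero, sub_eq_zero] at h1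
  exact hy1 c (h1.2 h)

/-- generators of the first kind -/
def caX (j1 : THom R F L1) (j2 : THom R F L2) : Set (L1 × L2) :=
  {x | ∃ c ∈ OO R F, x = (THom.prod j1 j2).toRingHom c}

/-- generators of the second kind -/
def caY (j1 : THom R F L1) (j2 : THom R F L2) (y1 : L1) (y2 : L2) : Set (L1 × L2) :=
  {x | (∃ β ∈ mm R F, x = (THom.prod j1 j2).toRingHom β) ∨
    ∃ c r : F, vv R L1 (y1 - j1.toRingHom c) < vv R L1 (j1.toRingHom r) ∧
      x = ((y1, y2) - (THom.prod j1 j2).toRingHom c) * (THom.prod j1 j2).toRingHom r⁻¹}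

theorem caX_le (j1 : THom R F L1) (j2 : THom R F L2) : caX j1 j2 ⊆ OO R (L1 × L2) := by
  rintro x ⟨c, hc, rfl⟩
  exact ((THom.prod j1 j2).map_O c).1 hc

theorem ca_frac_mem {j1 : THom R F L1} {j2 : THom R F L2} {y1 : L1} {y2 : L2}
    (hb : SameBalls j1 j2 y1 y2) {c r : F}
    (h : vv R L1 (y1 - j1.toRingHom c) < vv R L1 (j1.toRingHom r)) :
    ((y1, y2) - (THom.prod j1 j2).toRingHom c) * (THom.prod j1 j2).toRingHom r⁻¹ ∈
      mm R (L1 × L2) := by
  rw [mem_m_prod]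
  refine ⟨?_, ?_⟩
  · change (y1 - j1.toRingHom c) * j1.toRingHom r⁻¹ ∈ mm R L1
    rw [map_inv₀]
    exact ca_mul_inv h
  · change (y2 - j2.toRingHom c) * j2.toRingHom r⁻¹ ∈ mm R L2
    rw [map_inv₀]
    exact ca_mul_inv ((ca_lt hb c r).1 h)

theorem caY_le {j1 : THom R F L1} {j2 : THom R F L2} {y1 : L1} {y2 : L2}
    (hb : SameBalls j1 j2 y1 y2) : caY j1 j2 y1 y2 ⊆ mm R (L1 × L2) := by
  rintro x (⟨c, hc, rfl⟩ | ⟨c, r, h, rfl⟩)
  · exact ((THom.prod j1 j2).map_m c).1 hc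
  · exact ca_frac_mem hb h

theorem ca_step {j1 : THom R F L1} {y1 : L1} {c c' : F}
    (h : vv R L1 (y1 - j1.toRingHom c') < vv R L1 (y1 - j1.toRingHom c)) :
    vv R L1 (y1 - j1.toRingHom c') < vv R L1 (j1.toRingHom (c' - c)) := by
  by_contra hn
  rw [not_lt] at hn
  have e : y1 - j1.toRingHom c = (y1 - j1.toRingHom c') + j1.toRingHom (c' - c) := by
    rw [map_sub]
    ring
  have h1 := (vv R L1).map_add (y1 - j1.toRingHom c') (j1.toRingHom (c' - c))
  rw [← e, max_eq_left hn] at h1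
  exact absurd h (not_lt.2 h1)

theorem ca_ne {j1 : THom R F L1} {y1 : L1} {c r : F}
    (h : vv R L1 (y1 - j1.toRingHom c) < vv R L1 (j1.toRingHom r)) : r ≠ 0 := by
  rintro rfl
  rw [map_zero, map_zero] at h
  exact absurd h (not_lt.2 zero_le)

theorem ca_one {K : Type} [Field K] [TField R K] {d : K} (hd : d ∈ mm R K) :
    vv R K (1 + d) = 1 :=
  (vv R K).map_one_add_of_lt ((vv_lt_one_iff d).2 hd)

/-- an element `j c * (1 + d)` -/
theorem ca_unit {K : Type} [Field K] [TField R K] (j : THom R F K) {c : F} {d : K}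
    (hd : d ∈ mm R K) : (j.toRingHom c * (1 + d) ∈ OO R K ↔ c ∈ OO R F) ∧
      (j.toRingHom c * (1 + d) ∈ mm R K ↔ c ∈ mm R F) := by
  have h1 : vv R K (j.toRingHom c * (1 + d)) = vv R K (j.toRingHom c) := by
    rw [map_mul, ca_one hd, mul_one]
  refine ⟨?_, ?_⟩
  · rw [← vv_le_one_iff, h1, vv_le_one_iff]
    exact (j.map_O c).symm
  · rw [← vv_lt_one_iff, h1, vv_lt_one_iff]
    exact (j.map_m c).symm

section

variable {j1 : THom R F L1} {j2 : THom R F L2} {y1 : L1} {y2 : L2}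
  (hb : SameBalls j1 j2 y1 y2)

include hb

/-- the multiplicative induction of case a -/
theorem ca_mul [IsAlgClosed F]
    (h : ∀ c, ∃ c', vv R L1 (y1 - j1.toRingHom c') < vv R L1 (y1 - j1.toRingHom c))
    {RR : Subring (L1 × L2)}
    (hind : ∀ Pr : L1 × L2 → Prop, (∀ c, c ≠ 0 → Pr (j1.toRingHom c, j2.toRingHom c)) →
        (∀ c, Pr (y1 - j1.toRingHom c, y2 - j2.toRingHom c)) →
        (∀ r r', Pr r → Pr r' → Pr (r * r')) → (∀ r, Pr r → Pr (r.1⁻¹, r.2⁻¹)) →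
        ∀ r ∈ RR, r ≠ 0 → Pr r) {r : L1 × L2} (hr : r ∈ RR) (h0 : r ≠ 0) :
    ∃ c : F, c ≠ 0 ∧ ∃ d ∈ TP R (caX j1 j2) (caY j1 j2 y1 y2),
      r = (THom.prod j1 j2).toRingHom c * (1 + d) := by
  have hX := caX_le (R := R) j1 j2
  have hY := caY_le hb
  refine hind (fun r => ∃ c : F, c ≠ 0 ∧ ∃ d ∈ TP R (caX j1 j2) (caY j1 j2 y1 y2),
      r = (THom.prod j1 j2).toRingHom c * (1 + d)) ?_ ?_ ?_ ?_ r hr h0
  · intro c hc
    exact ⟨c, hc, 0, TP_zero hX hY, by rw [add_zero, mul_one]; rfl⟩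
  · intro c
    obtain ⟨c', hc'⟩ := h c
    have h1 := ca_step hc'
    have h2 := ca_ne h1
    refine ⟨c' - c, h2, _, Y_sub_TP hX hY (Or.inr ⟨c', c' - c, h1, rfl⟩), ?_⟩
    have e1 : (THom.prod j1 j2).toRingHom (c' - c) * (THom.prod j1 j2).toRingHom (c' - c)⁻¹ =
        1 := by
      rw [← map_mul, mul_inv_cancel₀ h2, map_one]
    have e2 : (y1 - j1.toRingHom c, y2 - j2.toRingHom c) =
        (y1, y2) - (THom.prod j1 j2).toRingHom c := rfl
    rw [e2, mul_add, mul_one, mul_comm ((y1, y2) - (THom.prod j1 j2).toRingHom c'), ← mul_assoc,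
      e1, one_mul, map_sub]
    ring
  · rintro r r' ⟨c, hc, d, hd, rfl⟩ ⟨c', hc', d', hd', rfl⟩
    refine ⟨c * c', mul_ne_zero hc hc', d + d' + d * d', ?_, ?_⟩
    · exact TP_add hX hY (TP_add hX hY hd hd') (TP_mul hX hY (TP_sub_TG hX hY hd) hd')
    · rw [map_mul]
      ring
  · rintro r ⟨c, hc, d, hd, rfl⟩
    obtain ⟨d', hd', e⟩ := TP_inv hX hY hd
    refine ⟨c⁻¹, inv_ne_zero hc, d', hd', ?_⟩
    have e3 : (THom.prod j1 j2).toRingHom c * (1 + d) *
        ((THom.prod j1 j2).toRingHom c⁻¹ * (1 + d')) = 1 := by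
      have e4 : (THom.prod j1 j2).toRingHom c * (THom.prod j1 j2).toRingHom c⁻¹ = 1 := by
        rw [← map_mul, mul_inv_cancel₀ hc, map_one]
      calc _ = (THom.prod j1 j2).toRingHom c * (THom.prod j1 j2).toRingHom c⁻¹ *
            ((1 + d) * (1 + d')) := by ring
        _ = 1 := by rw [e4, e, one_mul]
    have f1 := congrArg Prod.fst e3
    have f2 := congrArg Prod.snd e3
    refine Prod.ext ?_ ?_
    · exact inv_eq_of_mul_eq_one_right f1
    · exact inv_eq_of_mul_eq_one_right f2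

omit hb in
/-- one generator of the second kind is enough -/
theorem ca_rho (h : ∀ c, ∃ c', vv R L1 (y1 - j1.toRingHom c') < vv R L1 (y1 - j1.toRingHom c))
    {t : Type} [Finite t] {b : t → L1 × L2} (hbY : ∀ j, b j ∈ caY j1 j2 y1 y2) :
    ∃ c r : F, vv R L1 (y1 - j1.toRingHom c) < vv R L1 (j1.toRingHom r) ∧
      ∃ u v : t → F, (∀ j, u j ∈ mm R F) ∧ (∀ j, v j ∈ OO R F) ∧
        ∀ j, b j = (THom.prod j1 j2).toRingHom (u j) + (THom.prod j1 j2).toRingHom (v j) *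
          (((y1, y2) - (THom.prod j1 j2).toRingHom c) * (THom.prod j1 j2).toRingHom r⁻¹) := by
  obtain ⟨c0, hc0⟩ := h 0
  have hr0 := ca_step hc0
  rw [sub_zero] at hr0
  have hex : ∀ j, ∃ c r u v : F, vv R L1 (y1 - j1.toRingHom c) < vv R L1 (j1.toRingHom r) ∧
      u ∈ mm R F ∧ v ∈ OO R F ∧ b j = (THom.prod j1 j2).toRingHom u +
        (THom.prod j1 j2).toRingHom v *
          (((y1, y2) - (THom.prod j1 j2).toRingHom c) * (THom.prod j1 j2).toRingHom r⁻¹) := by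
    intro j
    rcases hbY j with ⟨β, hβ, e⟩ | ⟨c, r, hr, e⟩
    · exact ⟨c0, c0, β, 0, hr0, hβ, (OO R F).zero_mem, by rw [e, map_zero, zero_mul, add_zero]⟩
    · exact ⟨c, r, 0, 1, hr, TRing.m_zero, (OO R F).one_mem,
        by rw [e, map_zero, map_one, zero_add, one_mul]⟩
  choose C Q U V hCQ hU hV hbj using hex
  rcases isEmpty_or_nonempty t with he | hne
  · exact ⟨c0, c0, hr0, fun _ => 0, fun _ => 0, fun j => he.elim j, fun j => he.elim j,
      fun j => he.elim j⟩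
  · obtain ⟨j0, hj0⟩ := Finite.exists_min fun j => vv R F (Q j)
    have hQ : ∀ j, Q j ≠ 0 := fun j => ca_ne (hCQ j)
    have hcc : ∀ j, (C j0 - C j) * (Q j)⁻¹ ∈ mm R F := by
      intro j
      refine ca_mul_inv ?_
      rw [← THom.vv_lt j1]
      have e : j1.toRingHom (C j0 - C j) =
          (y1 - j1.toRingHom (C j)) - (y1 - j1.toRingHom (C j0)) := by
        rw [map_sub]
        ring
      rw [e]
      refine lt_of_le_of_lt ((vv R L1).map_sub _ _) (max_lt (hCQ j) ?_)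
      exact lt_of_lt_of_le (hCQ j0) ((THom.vv_le j1 _ _).2 (hj0 j))
    have hqq : ∀ j, Q j0 * (Q j)⁻¹ ∈ OO R F := by
      intro j
      rw [← div_eq_mul_inv, ← vv_le_iff_div (hQ j)]
      exact hj0 j
    refine ⟨C j0, Q j0, hCQ j0, fun j => U j + V j * ((C j0 - C j) * (Q j)⁻¹),
      fun j => V j * (Q j0 * (Q j)⁻¹), fun j => ?_, fun j => ?_, fun j => ?_⟩
    · exact TRing.m_add _ (hU j) _ (TRing.m_mul _ (hV j) _ (hcc j))
    · exact (OO R F).mul_mem (hV j) (hqq j)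
    · have e1 : (THom.prod j1 j2).toRingHom (Q j0) * (THom.prod j1 j2).toRingHom (Q j0)⁻¹ =
          1 := by
        rw [← map_mul, mul_inv_cancel₀ (hQ j0), map_one]
      rw [hbj j]
      simp only [map_add, map_mul, map_sub]
      calc _ = (THom.prod j1 j2).toRingHom (U j) + (THom.prod j1 j2).toRingHom (V j) *
            ((((THom.prod j1 j2).toRingHom (C j0) - (THom.prod j1 j2).toRingHom (C j)) *
              (THom.prod j1 j2).toRingHom (Q j)⁻¹)) + (THom.prod j1 j2).toRingHom (V j) *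
            (THom.prod j1 j2).toRingHom (Q j)⁻¹ *
              ((y1, y2) - (THom.prod j1 j2).toRingHom (C j0)) * 1 := by ring
        _ = _ := by
          rw [← e1]
          ring

/-- (H2) of case a -/
theorem ca_h2 [IsNoetherianRing R] [IsAlgClosed F] (hy1 : ∀ c, y1 ≠ j1.toRingHom c)
    (h : ∀ c, ∃ c', vv R L1 (y1 - j1.toRingHom c') < vv R L1 (y1 - j1.toRingHom c))
    {RR : Subring (L1 × L2)} (hF : ∀ c, (j1.toRingHom c, j2.toRingHom c) ∈ RR)
    (hy : (y1, y2) ∈ RR) {g : L1 × L2} (hg : g ∈ TG R (caX j1 j2) (caY j1 j2 y1 y2)) :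
    g = 0 ∨ ∃ r ∈ RR, r ≠ 0 ∧ ∃ d ∈ TP R (caX j1 j2) (caY j1 j2 y1 y2), g = r * (1 + d) := by
  obtain ⟨s, t, _, _, G, a, b, ha, hbY, rfl⟩ := hg
  choose α hα ha' using ha
  obtain ⟨c, r, hcr, u, v, hu, hv, hbj⟩ := ca_rho h hbY
  set J := THom.prod j1 j2 with hJ
  set x : L1 × L2 := ((y1, y2) - J.toRingHom c) * J.toRingHom r⁻¹ with hx
  have hxm : x ∈ mm R (L1 × L2) := ca_frac_mem hb hcr
  obtain ⟨G', -, hG'⟩ := exists_ev_comp (R := R) (s' := s ⊕ t) (t' := Option t)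
    (fun i : s => (xi (Sum.inl i) : S R (s ⊕ t) (Option t)))
    (fun j : t => (rho (some j) + xi (Sum.inr j) * rho none : S R (s ⊕ t) (Option t)))
    (fun j => by
      refine Ideal.add_mem _ ?_ (Ideal.mul_mem_left _ _ ?_)
      · exact MvPowerSeries.constantCoeff_X _
      · exact MvPowerSeries.constantCoeff_X _) G
  have hd : Dom R (Sum.elim α v : s ⊕ t → F) u := by
    refine ⟨?_, hu⟩
    rintro (i | i)
    · exact hα i
    · exact hv i
  have hd' : Dom R (fun i => J.toRingHom ((Sum.elim α v : s ⊕ t → F) i))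
      (oc x (fun j => J.toRingHom (u j))) := by
    refine ⟨fun i => (J.map_O _).1 (hd.1 i), ?_⟩
    rintro (_ | j)
    · exact hxm
    · exact (J.map_m _).1 (hu j)
  have e : ev G a b = ev G' (fun i => J.toRingHom ((Sum.elim α v : s ⊕ t → F) i))
      (oc x (fun j => J.toRingHom (u j))) := by
    rw [hG' (L1 × L2) _ _ hd']
    congr 1
    · funext i
      rw [ha' i]
      exact (TRing.T_xi _ _ hd'.1 hd'.2 (Sum.inl i)).symm
    · funext j
      rw [hbj j]
      have e1 := TRing.T_rho (R := R) _ _ hd'.1 hd'.2 (some j)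
      have e2 := TRing.T_rho (R := R) _ _ hd'.1 hd'.2 (none : Option t)
      have e3 := TRing.T_xi (R := R) _ _ hd'.1 hd'.2 (Sum.inr j)
      rw [show ev (rho (some j) + xi (Sum.inr j) * rho none : S R (s ⊕ t) (Option t))
        (fun i => J.toRingHom ((Sum.elim α v : s ⊕ t → F) i))
        (oc x (fun j => J.toRingHom (u j))) = evHom _ _ hd' (rho (some j) + xi (Sum.inr j) *
          rho none : S R (s ⊕ t) (Option t)) from rfl, map_add, map_mul, evHom_apply,
        evHom_apply, evHom_apply]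
      exact (congrArg₂ (· + ·) e1 (congrArg₂ (· * ·) e3 e2)).symm
  rcases prepA G' _ _ hd with h0 | ⟨ε, n, β, s', t', _, _, W, a', b', hε, hβ, hd2, hW, h0⟩
  · left
    rw [e]
    exact h0 (L1 × L2) J x hxm
  · right
    refine ⟨J.toRingHom ε * ∏ i, (x - J.toRingHom (β i)), ?_, ?_,
      ev W (fun i => J.toRingHom (a' i)) (oc x (fun i => J.toRingHom (b' i))), ?_, ?_⟩
    · have hxR : x ∈ RR := RR.mul_mem (RR.sub_mem hy (hF c)) (hF r⁻¹)
      exact RR.mul_mem (hF ε) (Subring.prod_mem _ fun i _ => RR.sub_mem hxR (hF (β i)))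
    · intro hz
      have hz1 : j1.toRingHom ε * ∏ i, (x.1 - j1.toRingHom (β i)) = 0 := by
        have := congrArg (RingHom.fst L1 L2) hz
        rw [map_mul, map_prod, map_zero] at this
        exact this
      rcases mul_eq_zero.1 hz1 with h1 | h1
      · exact hε ((map_eq_zero _).1 h1)
      · obtain ⟨i, -, hi⟩ := Finset.prod_eq_zero_iff.1 h1
        have hr : j1.toRingHom r ≠ 0 := (_root_.map_ne_zero _).2 (ca_ne hcr)
        have hx1 : x.1 = (y1 - j1.toRingHom c) * (j1.toRingHom r)⁻¹ := by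
          rw [← map_inv₀]
          rfl
        rw [hx1, sub_eq_zero] at hi
        apply hy1 (c + β i * r)
        rw [map_add, map_mul, ← hi, mul_assoc, inv_mul_cancel₀ hr, mul_one]
        ring
    · refine ⟨s', Option t', inferInstance, inferInstance, W, _, _, hW, fun i => ?_, ?_, rfl⟩
      · exact ⟨a' i, hd2.1 i, rfl⟩
      · rintro (_ | j)
        · exact Or.inr ⟨c, r, hcr, rfl⟩
        · exact Or.inl ⟨b' j, hd2.2 j, rfl⟩
    · rw [e]
      exact h0 (L1 × L2) J x hxm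

end

end CaseA

variable [IsNoetherianRing R] [IsAlgClosed F]

/-- Row B10 (case a): `y1` has no best approximation in `F`, all distances are values of `F`. -/
theorem case_a (j1 : THom R F L1) (j2 : THom R F L2) (y1 : L1) (y2 : L2)
    (hy1 : ∀ c, y1 ≠ j1.toRingHom c) (hb : SameBalls j1 j2 y1 y2)
    (h : ∀ c, ∃ c', vv R L1 (y1 - j1.toRingHom c') < vv R L1 (y1 - j1.toRingHom c)) :
    ∃ G : Subring (L1 × L2), TGraph R G ∧ (∀ c, (j1.toRingHom c, j2.toRingHom c) ∈ G) ∧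
      (y1, y2) ∈ G := by
  obtain ⟨RR, h0, hinv, hF, hy, hind⟩ := exists_ratField j1 j2 y1 y2 hy1 (ca_hy2 hy1 hb)
  have hX := caX_le (R := R) j1 j2
  have hY := caY_le hb
  have hmul : ∀ r ∈ RR, r = 0 ∨ ∃ c : F, c ≠ 0 ∧ ∃ d ∈ TP R (caX j1 j2) (caY j1 j2 y1 y2),
      r = (THom.prod j1 j2).toRingHom c * (1 + d) := by
    intro r hr
    by_cases h0 : r = 0
    · exact Or.inl h0
    · exact Or.inr (ca_mul hb h hind hr h0)
  obtain ⟨G, hle, hG⟩ := graph_of_gen RR h0 hinv (caX j1 j2) (caY j1 j2 y1 y2) hX hY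
    (by
      rintro x ⟨c, -, rfl⟩
      exact hF c)
    (by
      rintro x (⟨c, -, rfl⟩ | ⟨c, r, -, rfl⟩)
      · exact hF c
      · exact RR.mul_mem (RR.sub_mem hy (hF c)) (hF r⁻¹))
    (by
      intro r hr
      rcases hmul r hr with rfl | ⟨c, -, d, hd, rfl⟩
      · exact ⟨⟨fun _ => (OO R L2).zero_mem, fun _ => (OO R L1).zero_mem⟩,
          fun _ => TP_sub_TG hX hY (TP_zero hX hY)⟩
      · have hdm := TP_le hX hY hd
        have u1 := ca_unit j1 (c := c) hdm.1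
        have u2 := ca_unit j2 (c := c) hdm.2
        refine ⟨u1.1.trans u2.1.symm, fun hr1 => ?_⟩
        exact TG_mul hX hY (X_sub_TG hX hY ⟨c, u1.1.1 hr1, rfl⟩)
          (TG_add hX hY (TG_one hX hY) (TP_sub_TG hX hY hd)))
    (by
      intro r hr
      rcases hmul r hr with rfl | ⟨c, -, d, hd, rfl⟩
      · exact ⟨⟨fun _ => TRing.m_zero, fun _ => TRing.m_zero⟩, fun _ => TP_zero hX hY⟩
      · have hdm := TP_le hX hY hd
        have u1 := ca_unit j1 (c := c) hdm.1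
        have u2 := ca_unit j2 (c := c) hdm.2
        refine ⟨u1.2.trans u2.2.symm, fun hr1 => ?_⟩
        rw [mul_comm]
        exact TP_mul hX hY (TG_add hX hY (TG_one hX hY) (TP_sub_TG hX hY hd))
          (Y_sub_TP hX hY (Or.inl ⟨c, u1.2.1 hr1, rfl⟩)))
    (fun g hg => ca_h2 hb hy1 h hF hy hg)
  exact ⟨G, hG, fun c => hle (hF c), hle hy⟩

/-- Row B11 (case b): `c` is a best approximation of `y1` and the distance is a value of `F`. -/
theorem case_b (j1 : THom R F L1) (j2 : THom R F L2) (y1 : L1) (y2 : L2)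
    (hy1 : ∀ c, y1 ≠ j1.toRingHom c) (hb : SameBalls j1 j2 y1 y2) (c e : F)
    (he : vv R L1 (y1 - j1.toRingHom c) = vv R L1 (j1.toRingHom e))
    (h : ∀ c', vv R L1 (y1 - j1.toRingHom c) ≤ vv R L1 (y1 - j1.toRingHom c')) :
    ∃ G : Subring (L1 × L2), TGraph R G ∧ (∀ c, (j1.toRingHom c, j2.toRingHom c) ∈ G) ∧
      (y1, y2) ∈ G := by
  have he0 : e ≠ 0 := by
    rintro rfl
    rw [map_zero, map_zero, Valuation.zero_iff, sub_eq_zero] at he
    exact hy1 c he
  have h1 : ∀ c', vv R L1 (j1.toRingHom e) ≤ vv R L1 (y1 - j1.toRingHom c') := fun c' =>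
    he ▸ h c'
  have h2 : ∀ c', vv R L2 (j2.toRingHom e) ≤ vv R L2 (y2 - j2.toRingHom c') := fun c' =>
    (hb c' e).2.1 (h1 c')
  have h2' : vv R L2 (y2 - j2.toRingHom c) = vv R L2 (j2.toRingHom e) :=
    le_antisymm ((hb c e).1.1 he.le) (h2 c)
  have hy2 : ∀ c', y2 ≠ j2.toRingHom c' := by
    intro c' hc'
    have h3 := h2 c'
    rw [hc', sub_self, map_zero] at h3
    have h4 := (Valuation.zero_iff _).1 (le_antisymm h3 zero_le)
    rw [map_eq_zero] at h4
    exact he0 h4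
  obtain ⟨RR, r1, r2, r3, r4, r5⟩ := exists_ratField j1 j2 y1 y2 hy1 hy2
  exact caseB_graph j1 j2 y1 y2 c e he0 h1 he h2 h2' RR r1 r2 r3 r4 r5

/-- Row B12 (case c): the distance of `y1` to `c` is not a value of `F`. -/
theorem case_c (j1 : THom R F L1) (j2 : THom R F L2) (y1 : L1) (y2 : L2)
    (hy1 : ∀ c, y1 ≠ j1.toRingHom c) (hb : SameBalls j1 j2 y1 y2) (c : F)
    (hc : ∀ e : F, vv R L1 (y1 - j1.toRingHom c) ≠ vv R L1 (j1.toRingHom e)) :
    ∃ G : Subring (L1 × L2), TGraph R G ∧ (∀ c, (j1.toRingHom c, j2.toRingHom c) ∈ G) ∧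
      (y1, y2) ∈ G := by
  have hy2 : ∀ c', y2 ≠ j2.toRingHom c' := ca_hy2 hy1 hb
  obtain ⟨RR, h0, hinv, hcR, hyR, hind⟩ := exists_ratField j1 j2 y1 y2 hy1 hy2
  obtain ⟨G, hG, hG'⟩ := case_c_aux j1 j2 (z1 := y1 - j1.toRingHom c) (z2 := y2 - j2.toRingHom c)
    (sub_ne_zero.2 (hy1 c)) (sub_ne_zero.2 (hy2 c))
    (fun r => by
      have h3 := not_congr (hb c r).1
      rwa [not_le, not_le] at h3)
    (fun r => by
      have h3 := not_congr (hb c r).2
      rwa [not_le, not_le] at h3)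
    hc RR h0 hinv hcR (RR.sub_mem hyR (hcR c)) (fun Pr p1 p2 p3 p4 => hind Pr p1 (fun c' => by
      have h3 := p2 (c' - c)
      rwa [map_sub, map_sub, sub_sub_sub_cancel_right, sub_sub_sub_cancel_right] at h3) p3 p4)
  exact ⟨G, hG', fun c => hG (hcR c), hG hyR⟩

end Cm
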