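import Pool.Agent.Lib.MP_c35b50_lc.Cm.Mod

/-!
# Certificates and derivations compatible with `f_α`

`DerF p α w`: the derivations `D` of `K` which vanish at the parameters `w m` and satisfy
`(1 + x) D z = α z D x` whenever `z = f_α (x)`. A certificate of `c` over the parameters `w` is a
finite family of elements with relations (sum, product, parameter, value of `f_α`) such that the
basis vector of `c` is in the span of the gradients of the relations. The duality: `c` has a
certificate if and only if `D c = 0` for all `D` in `DerF p α w`.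
-/

namespace Cm

/-- Relations between the elements of a family indexed by `ι`, with parameters named by `κ`. -/
inductive CR (ι κ : Type) : Type
  | add (i j k : ι) : CR ι κ
  | mul (i j k : ι) : CR ι κ
  | par (i : ι) (m : κ) : CR ι κ
  | ex (i j : ι) : CR ι κ

namespace CR

variable {ι ι' κ κ' : Type}

/-- change of the index set -/
def map (g : ι → ι') : CR ι κ → CR ι' κ
  | add i j k => add (g i) (g j) (g k)
  | mul i j k => mul (g i) (g j) (g k)
  | par i m => par (g i) m
  | ex i j => ex (g i) (g j)

/-- the indices occurring in a relation -/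
def idx : CR ι κ → List ι
  | add i j k => [i, j, k]
  | mul i j k => [i, j, k]
  | par i _ => [i]
  | ex i j => [i, j]

end CR

section

variable (p : ℕ) [Fact p.Prime] {K : Type} [Field K] [TField ℤ_[p] K] {ι ι' κ : Type}

/-- the relation holds for the family `u` and the parameters `w` -/
def CR.holds (α : K) (w : κ → K) (u : ι → K) : CR ι κ → Prop
  | .add i j k => u i + u j = u k
  | .mul i j k => u i * u j = u k
  | .par i m => u i = w m
  | .ex i j => Gr p α (u i) (u j)

/-- the gradient of a relation at the family `u` -/
noncomputable def CR.grad {K : Type} [Field K] (α : K) (u : ι → K) : CR ι κ → (ι →₀ K)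
  | .add i j k => Finsupp.single i 1 + Finsupp.single j 1 - Finsupp.single k 1
  | .mul i j k => Finsupp.single i (u j) + Finsupp.single j (u i) - Finsupp.single k 1
  | .par i _ => Finsupp.single i 1
  | .ex i j => Finsupp.single j (1 + u i) - Finsupp.single i (α * u j)

/-- The derivations of `K` compatible with `f_α` and vanishing at the parameters. -/
def DerF (α : K) (w : κ → K) : Submodule K (Derivation ℤ K K) where
  carrier := {D | (∀ m, D (w m) = 0) ∧ ∀ x z, Gr p α x z → (1 + x) * D z = α * z * D x}
  zero_mem' := by
    refine ⟨fun m => rfl, fun x z _ => ?_⟩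
    simp
  add_mem' := by
    rintro D D' ⟨h1, h2⟩ ⟨h1', h2'⟩
    refine ⟨fun m => ?_, fun x z h => ?_⟩
    · rw [Derivation.add_apply, h1, h1', add_zero]
    · rw [Derivation.add_apply, Derivation.add_apply, mul_add, mul_add, h2 x z h, h2' x z h]
  smul_mem' := by
    rintro a D ⟨h1, h2⟩
    refine ⟨fun m => ?_, fun x z h => ?_⟩
    · rw [Derivation.smul_apply, h1, smul_zero]
    · rw [Derivation.smul_apply, Derivation.smul_apply, smul_eq_mul, smul_eq_mul]
      linear_combination a * h2 x z h

theorem mem_DerF {α : K} {w : κ → K} {D : Derivation ℤ K K} :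
    D ∈ DerF p α w ↔ (∀ m, D (w m) = 0) ∧ ∀ x z, Gr p α x z → (1 + x) * D z = α * z * D x :=
  Iff.rfl

/-- the span of the gradients of all relations which hold in `K` -/
noncomputable def RelS (α : K) (w : κ → K) : Submodule K (K →₀ K) :=
  Submodule.span K {v | ∃ r : CR K κ, r.holds p α w id ∧ v = r.grad α id}

/-- THE DUALITY. -/
theorem mem_RelS_iff (α : K) (w : κ → K) (c : K) :
    Finsupp.single c 1 ∈ RelS p α w ↔ ∀ D ∈ DerF p α w, D c = 0 := by
  constructor
  · intro h D hD
    have h1 : RelS p α w ≤ LinearMap.ker (Finsupp.linearCombination K (fun x : K => D x)) := by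
      rw [RelS, Submodule.span_le]
      rintro v ⟨r, hr, rfl⟩
      rw [SetLike.mem_coe, LinearMap.mem_ker]
      cases r with
      | add i j k =>
        have hr' : i + j = k := hr
        simp only [CR.grad, map_sub, map_add, Finsupp.linearCombination_single, one_smul]
        rw [← hr', map_add, sub_self]
      | mul i j k =>
        have hr' : i * j = k := hr
        simp only [CR.grad, map_sub, map_add, Finsupp.linearCombination_single, one_smul, id]
        rw [← hr', Derivation.leibniz]
        simp only [smul_eq_mul]
        ring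
      | par i m =>
        have hr' : i = w m := hr
        simp only [CR.grad, Finsupp.linearCombination_single, one_smul]
        rw [hr']
        exact hD.1 m
      | ex i j =>
        have hr' : Gr p α i j := hr
        simp only [CR.grad, map_sub, Finsupp.linearCombination_single, id, smul_eq_mul]
        rw [hD.2 i j hr', sub_self]
    have h2 := h1 h
    rw [LinearMap.mem_ker, Finsupp.linearCombination_single, one_smul] at h2
    exact h2
  · intro h
    by_contra hc
    obtain ⟨f, hf, hle⟩ := Submodule.exists_le_ker_of_notMem hc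
    have hr : ∀ r : CR K κ, r.holds p α w id → f (r.grad α id) = 0 := fun r hr =>
      LinearMap.mem_ker.1 (hle (Submodule.subset_span ⟨r, hr, rfl⟩))
    have hs : ∀ x a : K, f (Finsupp.single x a) = a * f (Finsupp.single x 1) := by
      intro x a
      rw [← smul_eq_mul, ← map_smul, Finsupp.smul_single, smul_eq_mul, mul_one]
    have hadd : ∀ x y : K, f (Finsupp.single (x + y) 1) =
        f (Finsupp.single x 1) + f (Finsupp.single y 1) := by
      intro x y
      have := hr (CR.add x y (x + y)) rfl
      simp only [CR.grad, map_sub, map_add] at this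
      linear_combination -this
    have hmul : ∀ x y : K, f (Finsupp.single (x * y) 1) =
        x * f (Finsupp.single y 1) + y * f (Finsupp.single x 1) := by
      intro x y
      have := hr (CR.mul x y (x * y)) rfl
      simp only [CR.grad, map_sub, map_add, id, hs x y, hs y x] at this
      linear_combination -this
    let D : Derivation ℤ K K := Derivation.mk'
      (AddMonoidHom.toIntLinearMap
        { toFun := fun x : K => f (Finsupp.single x 1)
          map_zero' := by
            have := hadd 0 0
            rw [add_zero] at this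
            exact left_eq_add.1 this
          map_add' := hadd })
      (fun x y => hmul x y)
    have hD : ∀ x, D x = f (Finsupp.single x 1) := fun x => rfl
    refine hf ?_
    rw [← hD]
    refine h D ⟨fun m => ?_, fun x z hxz => ?_⟩
    · rw [hD]
      have := hr (CR.par (w m) m) rfl
      simpa only [CR.grad] using this
    · rw [hD, hD]
      have := hr (CR.ex x z) hxz
      simp only [CR.grad, map_sub, id, hs z (1 + x), hs x (α * z)] at this
      linear_combination this

/-- Types of certificates. -/
structure CT (κ : Type) : Type where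
  n : ℕ
  l : List (CR (Fin n) κ)
  i0 : Fin n

/-- `c` has a certificate of type `τ` over the parameters `w`. -/
def CT.Has (τ : CT κ) (α : K) (w : κ → K) (c : K) : Prop :=
  ∃ u : Fin τ.n → K, u τ.i0 = c ∧ (∀ r ∈ τ.l, r.holds p α w u) ∧
    Finsupp.single τ.i0 1 ∈ Submodule.span K {v | ∃ r ∈ τ.l, v = r.grad α u}

theorem CR.holds_map {α : K} {w : κ → K} {u : ι → K} {g : ι' → ι} (r : CR ι' κ) :
    (r.map g).holds p α w u ↔ r.holds p α w (u ∘ g) := by
  cases r <;> rfl

theorem CR.mapDomain_grad {K : Type} [Field K] {α : K} {u : ι → K} {g : ι' → ι} (r : CR ι' κ) :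
    Finsupp.lmapDomain K K g (r.grad α (u ∘ g)) = (r.map g).grad α u := by
  cases r <;> simp only [CR.grad, CR.map, map_add, map_sub, Finsupp.lmapDomain_apply,
    Finsupp.mapDomain_single, Function.comp_apply]

theorem CR.holds_congr {α : K} {w : κ → K} {u u' : ι → K} (r : CR ι κ)
    (h : ∀ i ∈ r.idx, u i = u' i) (hr : r.holds p α w u) : r.holds p α w u' := by
  cases r with
  | add i j k =>
    simp only [CR.idx, List.mem_cons, List.not_mem_nil, or_false, forall_eq_or_imp,
      forall_eq] at h
    simp only [CR.holds] at hr ⊢
    rw [← h.1, ← h.2.1, ← h.2.2, hr]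
  | mul i j k =>
    simp only [CR.idx, List.mem_cons, List.not_mem_nil, or_false, forall_eq_or_imp,
      forall_eq] at h
    simp only [CR.holds] at hr ⊢
    rw [← h.1, ← h.2.1, ← h.2.2, hr]
  | par i m =>
    simp only [CR.idx, List.mem_cons, List.not_mem_nil, or_false, forall_eq] at h
    simp only [CR.holds] at hr ⊢
    rw [← h, hr]
  | ex i j =>
    simp only [CR.idx, List.mem_cons, List.not_mem_nil, or_false, forall_eq_or_imp,
      forall_eq] at h
    simp only [CR.holds] at hr ⊢
    rw [← h.1, ← h.2]
    exact hr

theorem CR.grad_congr {K : Type} [Field K] {α : K} {u u' : ι → K} (r : CR ι κ)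
    (h : ∀ i ∈ r.idx, u i = u' i) : r.grad α u = r.grad α u' := by
  cases r with
  | add i j k => rfl
  | mul i j k =>
    simp only [CR.idx, List.mem_cons, List.not_mem_nil, or_false, forall_eq_or_imp,
      forall_eq] at h
    simp only [CR.grad]
    rw [← h.1, ← h.2.1]
  | par i m => rfl
  | ex i j =>
    simp only [CR.idx, List.mem_cons, List.not_mem_nil, or_false, forall_eq_or_imp,
      forall_eq] at h
    simp only [CR.grad]
    rw [← h.1, ← h.2]

/-- `c` has a certificate of some type if and only if its basis vector is in the span. -/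
theorem exists_has_iff (α : K) (w : κ → K) (c : K) :
    (∃ τ : CT κ, τ.Has p α w c) ↔ Finsupp.single c 1 ∈ RelS p α w := by
  classical
  constructor
  · rintro ⟨τ, u, hu, hr, hs⟩
    have h1 : (Submodule.span K {v | ∃ r ∈ τ.l, v = r.grad α u}).map
        (Finsupp.lmapDomain K K u) ≤ RelS p α w := by
      rw [Submodule.map_span, Submodule.span_le]
      rintro _ ⟨_, ⟨r, hrl, rfl⟩, rfl⟩
      refine Submodule.subset_span ⟨r.map u, ?_, ?_⟩
      · exact (CR.holds_map p r).2 (hr r hrl)
      · exact CR.mapDomain_grad (u := id) (g := u) r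
    have h2 := h1 (Submodule.mem_map_of_mem hs)
    rw [Finsupp.lmapDomain_apply, Finsupp.mapDomain_single, hu] at h2
    exact h2
  · intro h
    obtain ⟨T, hT, hc⟩ := Submodule.mem_span_finite_of_mem_span h
    have hT' : ∀ v : K →₀ K, ∃ r : CR K κ, v ∈ T → r.holds p α w id ∧ v = r.grad α id := by
      intro v
      by_cases hv : v ∈ T
      · obtain ⟨r, hr⟩ := hT hv
        exact ⟨r, fun _ => hr⟩
      · exact ⟨CR.add c c c, fun h => absurd h hv⟩
    choose R hR using hT'
    let X : Finset K := (T.biUnion fun v => (R v).idx.toFinset) ∪ {c}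
    have hcX : c ∈ X := Finset.mem_union_right _ (Finset.mem_singleton_self c)
    let e : X ≃ Fin X.card := X.equivFin
    let g : K → Fin X.card := fun x => if hx : x ∈ X then e ⟨x, hx⟩ else e ⟨c, hcX⟩
    let u : Fin X.card → K := fun i => (e.symm i : K)
    have hug : ∀ x ∈ X, u (g x) = x := by
      intro x hx
      simp only [u, g, dif_pos hx, Equiv.symm_apply_apply]
    have hidx : ∀ v ∈ T, ∀ i ∈ (R v).idx, (u ∘ g) i = id i := by
      intro v hv i hi
      refine hug i (Finset.mem_union_left _ (Finset.mem_biUnion.2 ⟨v, hv, ?_⟩))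
      exact List.mem_toFinset.2 hi
    refine ⟨⟨X.card, T.toList.map fun v => (R v).map g, g c⟩, u, hug c hcX, ?_, ?_⟩
    · intro r hr
      obtain ⟨v, hv, rfl⟩ := List.mem_map.1 hr
      rw [Finset.mem_toList] at hv
      rw [CR.holds_map]
      exact CR.holds_congr p _ (fun i hi => (hidx v hv i hi).symm) (hR v hv).1
    · have h1 : (Submodule.span K (T : Set (K →₀ K))).map (Finsupp.lmapDomain K K g) ≤
          Submodule.span K {v | ∃ r ∈ T.toList.map fun v => (R v).map g, v = r.grad α u} := by
        rw [Submodule.map_span, Submodule.span_le]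
        rintro _ ⟨v, hv, rfl⟩
        refine Submodule.subset_span ⟨(R v).map g, List.mem_map.2 ⟨v, Finset.mem_toList.2 hv, rfl⟩, ?_⟩
        rw [← CR.mapDomain_grad, CR.grad_congr (R v) (hidx v hv), ← (hR v hv).2]
      have h2 := h1 (Submodule.mem_map_of_mem hc)
      rw [Finsupp.lmapDomain_apply, Finsupp.mapDomain_single] at h2
      exact h2

/-- Duality in terms of types. -/
theorem exists_has_iff_der (α : K) (w : κ → K) (c : K) :
    (∃ τ : CT κ, τ.Has p α w c) ↔ ∀ D ∈ DerF p α w, D c = 0 := by
  rw [exists_has_iff, mem_RelS_iff]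

end

deriving instance Countable for CR

instance {κ : Type} [Countable κ] : Countable (CT κ) := by
  have : Function.Injective (fun τ : CT κ => (⟨τ.n, (τ.l, τ.i0)⟩ :
      Σ n : ℕ, List (CR (Fin n) κ) × Fin n)) := by
    rintro ⟨n, l, i⟩ ⟨n', l', i'⟩ h
    simp only [Sigma.mk.injEq] at h
    obtain ⟨rfl, h⟩ := h
    simp only [heq_eq_eq, Prod.mk.injEq] at h
    obtain ⟨rfl, rfl⟩ := h
    rfl
  exact this.countable

end Cm
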