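import Pool.Agent.Lib.MP_c35b50_lc.Cm.Cert

/-!
# Certificates of a given type are definable

`certF τ` is an `Lvf`-formula with variables `Bool ⊕ κ`: `inl true` is the parameter `α`,
`inl false` is the element `c`, and `inr m` is the parameter `w m`.
-/

namespace Cm

open FirstOrder

section terms

variable {γ : Type}

/-- terms of `Lvf` -/
def tZero : Lvf.Term γ := Language.Term.func (L := Lvf) (l := 0) Fn.zero ![]
def tOne : Lvf.Term γ := Language.Term.func (L := Lvf) (l := 0) Fn.one ![]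
def tNeg (a : Lvf.Term γ) : Lvf.Term γ := Language.Term.func (L := Lvf) (l := 1) Fn.neg ![a]
def tAdd (a b : Lvf.Term γ) : Lvf.Term γ := Language.Term.func (L := Lvf) (l := 2) Fn.add ![a, b]
def tMul (a b : Lvf.Term γ) : Lvf.Term γ := Language.Term.func (L := Lvf) (l := 2) Fn.mul ![a, b]
def tSum : List (Lvf.Term γ) → Lvf.Term γ
  | [] => tZero
  | a :: l => tAdd a (tSum l)
def fGr (a b : Lvf.Term γ) : Lvf.Formula γ :=
  Language.Relations.formula₂ (L := Lvf) (Rl.gr : Rl 2) a b
def fLe (a b : Lvf.Term γ) : Lvf.Formula γ :=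
  Language.Relations.formula₂ (L := Lvf) (Rl.le : Rl 2) a b

end terms

section

variable (p : ℕ) [Fact p.Prime] {K : Type} [Field K] [TField ℤ_[p] K] {γ : Type}

/-- value of a term in `K` (it does not depend on `α`) -/
def Tv (α : K) (t : Lvf.Term γ) (v : γ → K) : K := @Language.Term.realize Lvf K (str2 p K α) γ v t

variable (α : K) (v : γ → K)

@[simp] theorem Tv_var (i : γ) : Tv p α (Language.Term.var i) v = v i := rfl
@[simp] theorem Tv_zero : Tv p α tZero v = 0 := rfl
@[simp] theorem Tv_one : Tv p α tOne v = 1 := rfl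
@[simp] theorem Tv_neg (a : Lvf.Term γ) : Tv p α (tNeg a) v = - Tv p α a v := rfl
@[simp] theorem Tv_add (a b : Lvf.Term γ) : Tv p α (tAdd a b) v = Tv p α a v + Tv p α b v := rfl
@[simp] theorem Tv_mul (a b : Lvf.Term γ) : Tv p α (tMul a b) v = Tv p α a v * Tv p α b v := rfl
theorem Tv_sum (l : List (Lvf.Term γ)) :
    Tv p α (tSum l) v = (l.map fun a => Tv p α a v).sum := by
  induction l with
  | nil => rfl
  | cons a l ih => rw [tSum, Tv_add, ih, List.map_cons, List.sum_cons]

theorem re2_eq (a b : Lvf.Term γ) :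
    Re2 p α (Language.Term.equal a b) v ↔ Tv p α a v = Tv p α b v := by
  let _ := str2 p K α
  exact Language.Formula.realize_equal

theorem re2_gr (a b : Lvf.Term γ) :
    Re2 p α (fGr a b) v ↔ Gr p α (Tv p α a v) (Tv p α b v) := by
  let _ := str2 p K α
  exact Language.Formula.realize_rel₂

theorem re2_le (a b : Lvf.Term γ) :
    Re2 p α (fLe a b) v ↔ vle p (Tv p α a v) (Tv p α b v) := by
  let _ := str2 p K α
  exact Language.Formula.realize_rel₂

theorem re2_and (φ ψ : Lvf.Formula γ) : Re2 p α (φ ⊓ ψ) v ↔ Re2 p α φ v ∧ Re2 p α ψ v := by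
  let _ := str2 p K α
  exact Language.Formula.realize_inf

theorem re2_or (φ ψ : Lvf.Formula γ) : Re2 p α (φ ⊔ ψ) v ↔ Re2 p α φ v ∨ Re2 p α ψ v := by
  let _ := str2 p K α
  exact Language.Formula.realize_sup

theorem re2_not (φ : Lvf.Formula γ) : Re2 p α (∼φ) v ↔ ¬ Re2 p α φ v := by
  let _ := str2 p K α
  exact Language.Formula.realize_not

theorem re2_imp (φ ψ : Lvf.Formula γ) : Re2 p α (φ ⟹ ψ) v ↔ (Re2 p α φ v → Re2 p α ψ v) := by
  let _ := str2 p K α
  exact Language.Formula.realize_imp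

theorem re2_bot : ¬ Re2 p α (⊥ : Lvf.Formula γ) v := by
  let _ := str2 p K α
  exact fun h => h

theorem re2_ex {β : Type} [Finite β] (φ : Lvf.Formula (γ ⊕ β)) :
    Re2 p α (Language.Formula.iExs β φ) v ↔ ∃ u : β → K, Re2 p α φ (Sum.elim v u) := by
  let _ := str2 p K α
  exact Language.Formula.realize_iExs

theorem re2_relabel {δ : Type} (g : δ → γ) (φ : Lvf.Formula δ) :
    Re2 p α (Language.Formula.relabel g φ) v ↔ Re2 p α φ (v ∘ g) := by
  let _ := str2 p K α
  exact Language.Formula.realize_relabel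

/-- conjunction of a list -/
def fAnd (l : List (Lvf.Formula γ)) : Lvf.Formula γ := l.foldr (· ⊓ ·) ⊤

/-- disjunction of a list -/
def fOr (l : List (Lvf.Formula γ)) : Lvf.Formula γ := l.foldr (· ⊔ ·) ⊥

theorem re2_all (l : List (Lvf.Formula γ)) : Re2 p α (fAnd l) v ↔ ∀ φ ∈ l, Re2 p α φ v := by
  let _ := str2 p K α
  exact Language.BoundedFormula.realize_foldr_inf l v default

theorem re2_any (l : List (Lvf.Formula γ)) : Re2 p α (fOr l) v ↔ ∃ φ ∈ l, Re2 p α φ v := by
  let _ := str2 p K α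
  exact Language.BoundedFormula.realize_foldr_sup l v default

end

section cert

variable {κ : Type} {n : ℕ} {N : Type}

/-- `d i j` is the term `1` if `i = j` and `0` otherwise, multiplied by `a` -/
def tD {γ : Type} (i j : Fin n) (a : Lvf.Term γ) : Lvf.Term γ := if i = j then a else tZero

/-- the coordinate `j` of the gradient of a relation, as a term -/
def gradT {γ : Type} (a : Lvf.Term γ) (u : Fin n → Lvf.Term γ) (q : Fin n) :
    CR (Fin n) κ → Lvf.Term γ
  | .add i j k => tAdd (tAdd (tD i q tOne) (tD j q tOne)) (tNeg (tD k q tOne))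
  | .mul i j k => tAdd (tAdd (tD i q (u j)) (tD j q (u i))) (tNeg (tD k q tOne))
  | .par i _ => tD i q tOne
  | .ex i j => tAdd (tD j q (tAdd tOne (u i))) (tNeg (tD i q (tMul a (u j))))

/-- the relation as a formula -/
def holdsF {γ : Type} (w : κ → Lvf.Term γ) (u : Fin n → Lvf.Term γ) :
    CR (Fin n) κ → Lvf.Formula γ
  | .add i j k => Language.Term.equal (tAdd (u i) (u j)) (u k)
  | .mul i j k => Language.Term.equal (tMul (u i) (u j)) (u k)
  | .par i m => Language.Term.equal (u i) (w m)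
  | .ex i j => fGr (u i) (u j)

variable (p : ℕ) [Fact p.Prime] {K : Type} [Field K] [TField ℤ_[p] K] {γ : Type}

theorem Tv_gradT (α : K) (v : γ → K) (a : Lvf.Term γ) (u : Fin n → Lvf.Term γ) (q : Fin n)
    (r : CR (Fin n) κ) : Tv p α (gradT a u q r) v =
      (r.grad (Tv p α a v) (fun i => Tv p α (u i) v)) q := by
  have h0 : ∀ (i : Fin n) (b : Lvf.Term γ), Tv p α (tD i q b) v =
      (Finsupp.single i (Tv p α b v) : Fin n →₀ K) q := by
    intro i b
    rw [Finsupp.single_apply, tD]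
    split_ifs <;> rfl
  cases r with
  | add i j k =>
    simp only [gradT, CR.grad, Tv_add, Tv_neg, h0, Tv_one, Finsupp.sub_apply, Finsupp.add_apply]
    ring
  | mul i j k =>
    simp only [gradT, CR.grad, Tv_add, Tv_neg, h0, Tv_one, Finsupp.sub_apply, Finsupp.add_apply]
    ring
  | par i m =>
    simp only [gradT, CR.grad, h0, Tv_one]
  | ex i j =>
    simp only [gradT, CR.grad, Tv_add, Tv_neg, h0, Tv_one, Finsupp.sub_apply, Tv_mul]
    ring

theorem re2_holdsF (α : K) (v : γ → K) (w : κ → Lvf.Term γ) (u : Fin n → Lvf.Term γ)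
    (r : CR (Fin n) κ) : Re2 p α (holdsF w u r) v ↔
      r.holds p α (fun m => Tv p α (w m) v) (fun i => Tv p α (u i) v) := by
  cases r with
  | add i j k =>
    rw [holdsF, re2_eq]
    rfl
  | mul i j k =>
    rw [holdsF, re2_eq]
    rfl
  | par i m =>
    rw [holdsF, re2_eq]
    rfl
  | ex i j =>
    rw [holdsF, re2_gr]
    rfl

/-- The formula for: `c = inl false` has a certificate of type `τ` over the parameters
`w m = inr m`, for the function `f_α`, `α = inl true`. -/
noncomputable def certF (τ : CT κ) : Lvf.Formula (Bool ⊕ κ) :=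
  Language.Formula.iExs (Fin τ.n ⊕ Fin τ.l.length) (
    let a : Lvf.Term ((Bool ⊕ κ) ⊕ (Fin τ.n ⊕ Fin τ.l.length)) :=
      Language.Term.var (Sum.inl (Sum.inl true))
    let c : Lvf.Term ((Bool ⊕ κ) ⊕ (Fin τ.n ⊕ Fin τ.l.length)) :=
      Language.Term.var (Sum.inl (Sum.inl false))
    let w : κ → Lvf.Term ((Bool ⊕ κ) ⊕ (Fin τ.n ⊕ Fin τ.l.length)) :=
      fun m => Language.Term.var (Sum.inl (Sum.inr m))
    let u : Fin τ.n → Lvf.Term ((Bool ⊕ κ) ⊕ (Fin τ.n ⊕ Fin τ.l.length)) :=
      fun i => Language.Term.var (Sum.inr (Sum.inl i))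
    let x : Fin τ.l.length → Lvf.Term ((Bool ⊕ κ) ⊕ (Fin τ.n ⊕ Fin τ.l.length)) :=
      fun i => Language.Term.var (Sum.inr (Sum.inr i))
    (Language.Term.equal (u τ.i0) c) ⊓
    (fAnd (τ.l.map (holdsF w u))) ⊓
    fAnd (List.ofFn fun q : Fin τ.n => Language.Term.equal
      (tSum (List.ofFn fun k : Fin τ.l.length => tMul (x k) (gradT a u q (τ.l.get k))))
      (tD τ.i0 q tOne)))

theorem mem_span_list {K : Type} [Field K] {n : ℕ} (l : List (CR (Fin n) κ))
    (g : CR (Fin n) κ → (Fin n →₀ K)) (z : Fin n →₀ K) :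
    z ∈ Submodule.span K {v | ∃ r ∈ l, v = g r} ↔
      ∃ x : Fin l.length → K, ∀ q, ∑ k, x k * g (l.get k) q = z q := by
  have h1 : {v | ∃ r ∈ l, v = g r} = Set.range (fun k : Fin l.length => g (l.get k)) := by
    ext v
    constructor
    · rintro ⟨r, hr, rfl⟩
      obtain ⟨k, hk⟩ := List.get_of_mem hr
      exact ⟨k, by rw [← hk]⟩
    · rintro ⟨k, rfl⟩
      exact ⟨l.get k, List.get_mem l k, rfl⟩
  rw [h1, Submodule.mem_span_range_iff_exists_fun]
  refine exists_congr fun x => ?_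
  rw [DFunLike.ext_iff]
  refine forall_congr' fun q => ?_
  rw [Finsupp.finsetSum_apply]
  rfl

/-- Realization of `certF`. -/
theorem re2_certF (τ : CT κ) (α : K) (v : Bool ⊕ κ → K) (hv : v (Sum.inl true) = α) :
    Re2 p α (certF τ) v ↔ τ.Has p α (fun m => v (Sum.inr m)) (v (Sum.inl false)) := by
  rw [certF, re2_ex, CT.Has]
  simp only [re2_and, re2_eq, re2_all, List.mem_map, forall_exists_index, and_imp,
    forall_apply_eq_imp_iff₂, re2_holdsF, Tv_var, Sum.elim_inl, Sum.elim_inr, List.mem_ofFn,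
    forall_apply_eq_imp_iff, Tv_sum, List.map_ofFn, List.sum_ofFn, Tv_mul, Tv_gradT,
    Function.comp_apply, hv]
  constructor
  · rintro ⟨u, ⟨h1, h2⟩, h3⟩
    refine ⟨fun i => u (Sum.inl i), h1, h2, ?_⟩
    rw [mem_span_list]
    refine ⟨fun k => u (Sum.inr k), fun q => ?_⟩
    rw [h3 q, tD, Finsupp.single_apply]
    split_ifs <;> rfl
  · rintro ⟨u, h1, h2, h3⟩
    rw [mem_span_list] at h3
    obtain ⟨x, hx⟩ := h3
    refine ⟨Sum.elim u x, ⟨h1, h2⟩, fun q => ?_⟩
    have := hx q
    rw [Finsupp.single_apply] at this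
    simp only [Sum.elim_inl, Sum.elim_inr]
    rw [this, tD]
    split_ifs <;> rfl

/-- change of the names of the parameters -/
theorem re2_certF' (τ : CT κ) (α : K) (v : γ → K) (g : Bool ⊕ κ → γ)
    (hv : v (g (Sum.inl true)) = α) :
    Re2 p α (Language.Formula.relabel g (certF τ)) v ↔
      τ.Has p α (fun m => v (g (Sum.inr m))) (v (g (Sum.inl false))) := by
  rw [re2_relabel, re2_certF p τ α (v ∘ g) hv]
  rfl

end cert

end Cm
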