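import Pool.Agent.Lib.MP_c35b50_lc.Cm.AdicA

/-! # Row A3: ideals of `S` are closed -/

namespace Cm

variable {P : Type} [CommRing P] [IsNoetherianRing P] {t : Type} [Finite t]

private theorem closed_jac {P : Type} [CommRing P] {t : Type} :
    kk P t ≤ Ideal.jacobson ⊥ := by
  intro x hx
  rw [Ideal.mem_jacobson_bot]
  intro y
  rw [MvPowerSeries.isUnit_iff_constantCoeff]
  have h : MvPowerSeries.constantCoeff (σ := t) (R := P) x = 0 := hx
  rw [map_add, map_mul, h, zero_mul, zero_add, map_one]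
  exact isUnit_one

theorem mem_of_forall_sup_pow (I : Ideal (MvPowerSeries t P)) (x : MvPowerSeries t P)
    (h : ∀ n : ℕ, x ∈ I ⊔ kk P t ^ n) : x ∈ I := by
  have h1 := Ideal.iInf_pow_smul_eq_bot_of_le_jacobson (R := MvPowerSeries t P) (I := kk P t)
    (M := MvPowerSeries t P ⧸ I) closed_jac
  have h2 : (Ideal.Quotient.mk I x) ∈ (⨅ i : ℕ, kk P t ^ i • (⊤ : Submodule (MvPowerSeries t P)
      (MvPowerSeries t P ⧸ I))) := by
    rw [Submodule.mem_iInf]
    intro n
    obtain ⟨a, ha, b, hb, hab⟩ := Submodule.mem_sup.1 (h n)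
    have e : Ideal.Quotient.mk I x = b • (1 : MvPowerSeries t P ⧸ I) := by
      rw [← hab, map_add, Ideal.Quotient.eq_zero_iff_mem.2 ha, zero_add]
      have e' : b • (Ideal.Quotient.mk I 1) = Ideal.Quotient.mk I (b • 1) := rfl
      rw [map_one, smul_eq_mul, mul_one] at e'
      exact e'.symm
    rw [e]
    exact Submodule.smul_mem_smul hb Submodule.mem_top
  rw [h1, Submodule.mem_bot] at h2
  exact Ideal.Quotient.eq_zero_iff_mem.1 h2

end Cm
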