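import Pool.Agent.Lib.MP_c35b50_lc.Cm.AdicB
import Pool.Agent.Lib.MP_c35b50_lc.Cm.Closed
import Pool.Agent.Lib.MP_c35b50_lc.Cm.RenL
import Pool.Agent.Lib.MP_c35b50_lc.Cm.TRing

/-! # Row A5: substitution homomorphisms `S R s t → S R s' t'` and evaluation -/

namespace Cm

variable {R : Type} [CommRing R] [IsNoetherianRing R]
  {s t s' t' : Type} [Finite s] [Finite t] [Finite s'] [Finite t']

theorem exists_comp (G : s → S R s' t') (H : t → S R s' t') (hH : ∀ j, H j ∈ rr R s' t') :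
    ∃ θ : S R s t →+* S R s' t', (∀ r, θ (cst R s t r) = cst R s' t' r) ∧
      (∀ i, θ (xi i) = G i) ∧ (∀ j, θ (rho j) = H j) := by
  obtain ⟨ψ, h1, h2⟩ := adic_eval (P := MvPolynomial s R) (kk (MvPolynomial s' R) t')
    (MvPolynomial.eval₂Hom (cst R s' t') G) H hH
  refine ⟨ψ, fun r => ?_, fun i => ?_, h2⟩
  · have h3 := h1 (MvPolynomial.C r)
    rw [MvPolynomial.coe_eval₂Hom, MvPolynomial.eval₂_C] at h3
    exact h3
  · have h3 := h1 (MvPolynomial.X i)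
    rw [MvPolynomial.coe_eval₂Hom, MvPolynomial.eval₂_X] at h3
    exact h3

/-- Two homomorphisms which agree on the constants and the first variables agree on the
polynomials. -/
theorem agree_C {B : Type} [CommRing B] (ψ ψ' : S R s t →+* B)
    (hc : ∀ r, ψ (cst R s t r) = ψ' (cst R s t r)) (hx : ∀ i, ψ (xi i) = ψ' (xi i))
    (q : MvPolynomial s R) : ψ (MvPowerSeries.C q) = ψ' (MvPowerSeries.C q) := by
  have h : (ψ.comp (MvPowerSeries.C (σ := t) (R := MvPolynomial s R))) =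
      (ψ'.comp (MvPowerSeries.C (σ := t) (R := MvPolynomial s R))) :=
    MvPolynomial.ringHom_ext hc hx
  exact congrArg (fun f : MvPolynomial s R →+* B => f q) h

theorem comp_unique (θ θ' : S R s t →+* S R s' t')
    (hc : ∀ r, θ (cst R s t r) = θ' (cst R s t r)) (hx : ∀ i, θ (xi i) = θ' (xi i))
    (hr : ∀ j, θ (rho j) = θ' (rho j)) (hj : ∀ j, θ (rho j) ∈ rr R s' t') : θ = θ' := by
  have : IsHausdorff (kk (MvPolynomial s' R) t') (S R s' t') :=
    (isAdicComplete_kk (P := MvPolynomial s' R) (t := t')).toIsHausdorff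
  exact hom_ext (kk (MvPolynomial s' R) t') θ θ' (agree_C θ θ' hc hx) hr hj

/-- a substitution homomorphism respects `rr` -/
theorem comp_rr (θ : S R s t →+* S R s' t') (hj : ∀ j, θ (rho j) ∈ rr R s' t') (F : S R s t)
    (hF : F ∈ rr R s t) : θ F ∈ rr R s' t' := by
  have _ : Fintype t := Fintype.ofFinite t
  obtain ⟨G, hG⟩ := (mem_kk_iff_sum (P := MvPolynomial s R) (t := t) F).1 hF
  rw [hG, map_sum]
  refine Ideal.sum_mem _ fun j _ => ?_
  rw [map_mul]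
  exact Ideal.mul_mem_right _ _ (hj j)

/-- The key point: `F(ξ; ρ) - F(G; H)` lies in the ideal generated by the `ξ_i - G_i` and the
`ρ_j - H_j`. -/
theorem comp_mem (θ : S R s t →+* S R s' t') (hc : ∀ r, θ (cst R s t r) = cst R s' t' r)
    (hj : ∀ j, θ (rho j) ∈ rr R s' t') (F : S R s t) :
    (ren (Sum.inl : s → s ⊕ s') (Sum.inl : t → t ⊕ t') F -
      ren (Sum.inr : s' → s ⊕ s') (Sum.inr : t' → t ⊕ t') (θ F) : S R (s ⊕ s') (t ⊕ t')) ∈
    Ideal.span (Set.range (fun i : s => (xi (Sum.inl i) - ren Sum.inr Sum.inr (θ (xi i)) :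
        S R (s ⊕ s') (t ⊕ t'))) ∪
      Set.range (fun j : t => (rho (Sum.inl j) - ren Sum.inr Sum.inr (θ (rho j)) :
        S R (s ⊕ s') (t ⊕ t')))) := by
  set I : Ideal (S R (s ⊕ s') (t ⊕ t')) :=
    Ideal.span (Set.range (fun i : s => (xi (Sum.inl i) - ren Sum.inr Sum.inr (θ (xi i)) :
        S R (s ⊕ s') (t ⊕ t'))) ∪
      Set.range (fun j : t => (rho (Sum.inl j) - ren Sum.inr Sum.inr (θ (rho j)) :
        S R (s ⊕ s') (t ⊕ t')))) with hI
  refine mem_of_forall_sup_pow (P := MvPolynomial (s ⊕ s') R) I _ fun n => ?_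
  rw [← Ideal.Quotient.eq_zero_iff_mem, map_sub, sub_eq_zero]
  -- the ideal generated by the variables is nilpotent in the quotient
  have hnil : ((kk (MvPolynomial (s ⊕ s') R) (t ⊕ t')).map
      (Ideal.Quotient.mk (I ⊔ kk (MvPolynomial (s ⊕ s') R) (t ⊕ t') ^ n))) ^ n = ⊥ := by
    rw [← Ideal.map_pow, Ideal.map_eq_bot_iff_le_ker, Ideal.mk_ker]
    exact le_sup_right
  have hH : IsHausdorff ((kk (MvPolynomial (s ⊕ s') R) (t ⊕ t')).map
      (Ideal.Quotient.mk (I ⊔ kk (MvPolynomial (s ⊕ s') R) (t ⊕ t') ^ n)))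
      (S R (s ⊕ s') (t ⊕ t') ⧸ (I ⊔ kk (MvPolynomial (s ⊕ s') R) (t ⊕ t') ^ n)) := by
    refine ⟨fun x hx => ?_⟩
    have h1 := hx n
    rw [hnil, Submodule.bot_smul, SModEq.bot] at h1
    exact h1
  have hgen : ∀ x ∈ (Set.range (fun i : s => (xi (Sum.inl i) - ren Sum.inr Sum.inr (θ (xi i)) :
        S R (s ⊕ s') (t ⊕ t'))) ∪
      Set.range (fun j : t => (rho (Sum.inl j) - ren Sum.inr Sum.inr (θ (rho j)) :
        S R (s ⊕ s') (t ⊕ t')))),
      x ∈ I ⊔ kk (MvPolynomial (s ⊕ s') R) (t ⊕ t') ^ n := fun x hx =>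
    Ideal.mem_sup_left (Ideal.subset_span hx)
  have key : (Ideal.Quotient.mk (I ⊔ kk (MvPolynomial (s ⊕ s') R) (t ⊕ t') ^ n)).comp
      (ren (Sum.inl : s → s ⊕ s') (Sum.inl : t → t ⊕ t')) =
      (Ideal.Quotient.mk (I ⊔ kk (MvPolynomial (s ⊕ s') R) (t ⊕ t') ^ n)).comp
      ((ren (Sum.inr : s' → s ⊕ s') (Sum.inr : t' → t ⊕ t')).comp θ) := by
    refine hom_ext ((kk (MvPolynomial (s ⊕ s') R) (t ⊕ t')).map
      (Ideal.Quotient.mk (I ⊔ kk (MvPolynomial (s ⊕ s') R) (t ⊕ t') ^ n))) _ _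
      (agree_C _ _ (fun r => ?_) fun i => ?_) (fun j => ?_) fun j => ?_
    · rw [RingHom.comp_apply, RingHom.comp_apply, RingHom.comp_apply, hc, ren_cst, ren_cst]
    · rw [RingHom.comp_apply, RingHom.comp_apply, RingHom.comp_apply, ren_xi, ← sub_eq_zero,
        ← map_sub, Ideal.Quotient.eq_zero_iff_mem]
      exact hgen _ (Or.inl ⟨i, rfl⟩)
    · change (Ideal.Quotient.mk (I ⊔ kk (MvPolynomial (s ⊕ s') R) (t ⊕ t') ^ n))
        (ren (Sum.inl : s → s ⊕ s') (Sum.inl : t → t ⊕ t') (rho j)) =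
        (Ideal.Quotient.mk (I ⊔ kk (MvPolynomial (s ⊕ s') R) (t ⊕ t') ^ n))
        (ren (Sum.inr : s' → s ⊕ s') (Sum.inr : t' → t ⊕ t') (θ (rho j)))
      rw [ren_rho, ← sub_eq_zero, ← map_sub, Ideal.Quotient.eq_zero_iff_mem]
      exact hgen _ (Or.inr ⟨j, rfl⟩)
    · change (Ideal.Quotient.mk (I ⊔ kk (MvPolynomial (s ⊕ s') R) (t ⊕ t') ^ n))
        (ren (Sum.inl : s → s ⊕ s') (Sum.inl : t → t ⊕ t') (rho j)) ∈ _
      rw [ren_rho]
      refine Ideal.mem_map_of_mem _ ?_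
      unfold kk
      rw [RingHom.mem_ker]
      exact MvPowerSeries.constantCoeff_X _
  exact congrArg (fun f : S R s t →+* _ => f F) key

end Cm
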