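import Pool.Agent.Lib.MP_c35b50_lc.Cm.AlgExt
import Pool.Agent.Lib.MP_c35b50_lc.Cm.Cases

/-! # The core theorem -/

namespace Cm

variable {R : Type} [CommRing R] [IsNoetherianRing R]
  {F : Type} [Field F] [TField R F] {L1 L2 : Type} [Field L1] [Field L2] [TField R L1]
  [TField R L2] [IsAlgClosed F] [IsAlgClosed L1] [IsAlgClosed L2]

theorem exists_graph (j1 : THom R F L1) (j2 : THom R F L2) (y1 : L1) (y2 : L2)
    (hy1 : ∀ c, y1 ≠ j1.toRingHom c) (hb : SameBalls j1 j2 y1 y2) :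
    ∃ G : Subring (L1 × L2), TGraph R G ∧ (∀ c, (j1.toRingHom c, j2.toRingHom c) ∈ G) ∧
      (y1, y2) ∈ G := by
  by_cases hc : ∃ c, ∀ e : F, vv R L1 (y1 - j1.toRingHom c) ≠ vv R L1 (j1.toRingHom e)
  · obtain ⟨c, hc⟩ := hc
    exact case_c j1 j2 y1 y2 hy1 hb c hc
  push Not at hc
  by_cases h : ∃ c, ∀ c', vv R L1 (y1 - j1.toRingHom c) ≤ vv R L1 (y1 - j1.toRingHom c')
  · obtain ⟨c, h⟩ := h
    obtain ⟨e, he⟩ := hc c
    exact case_b j1 j2 y1 y2 hy1 hb c e he h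
  push Not at h
  exact case_a j1 j2 y1 y2 hy1 hb h

/-- CORE THEOREM: if `y1 ∈ L1 ∖ F` and `y2 ∈ L2` lie in the same balls over `F`, then there is an
algebraically closed T-field `E` over `F` with embeddings over `F` in `L1` and `L2` and an element
which is mapped to `y1` and to `y2`. -/
theorem core (j1 : THom R F L1) (j2 : THom R F L2) (y1 : L1) (y2 : L2)
    (hy1 : ∀ c, y1 ≠ j1.toRingHom c) (hb : SameBalls j1 j2 y1 y2) :
    ∃ (E : Type) (_ : Field E) (_ : TField R E) (_ : IsAlgClosed E) (e : THom R F E)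
      (i1 : THom R E L1) (i2 : THom R E L2) (y : E),
      (∀ x, i1.toRingHom (e.toRingHom x) = j1.toRingHom x) ∧
      (∀ x, i2.toRingHom (e.toRingHom x) = j2.toRingHom x) ∧
      i1.toRingHom y = y1 ∧ i2.toRingHom y = y2 := by
  obtain ⟨G, hG, hF, hy⟩ := exists_graph j1 j2 y1 y2 hy1 hb
  obtain ⟨G', hle, hG', hac⟩ := graph_algClosure G hG
  exact core_of_graph j1 j2 G' hG' (fun x => hle (hF x)) y1 y2 (hle hy) hac

end Cm
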