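import Pool.Agent.Lib.MP_c35b50_lc.Cm.AdicB
import Pool.Agent.Lib.MP_c35b50_lc.Cm.RenL

/-! # Row T6, first part: the ring of integers of `ℂ_[p]` and evaluation of power series -/

namespace Cm

variable (p : ℕ) [Fact p.Prime]

/-- the closed unit ball of `ℂ_[p]` -/
def cpO : Subring ℂ_[p] where
  carrier := {x | ‖x‖ ≤ 1}
  mul_mem' := by
    intro x y hx hy
    simp only [Set.mem_ofPred_eq] at *
    rw [norm_mul]
    exact mul_le_one₀ hx (norm_nonneg _) hy
  one_mem' := by simp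
  add_mem' := by
    intro x y hx hy
    exact (IsUltrametricDist.norm_add_le_max x y).trans (max_le hx hy)
  zero_mem' := by simp
  neg_mem' := by
    intro x hx
    simpa using hx

variable {p}

theorem mem_cpO (x : ℂ_[p]) : x ∈ cpO p ↔ ‖x‖ ≤ 1 := Iff.rfl

theorem cp_norm_le (x : cpO p) : ‖(x : ℂ_[p])‖ ≤ 1 := x.2

theorem cp_mem_pow (β x : cpO p) (n : ℕ) :
    x ∈ Ideal.span {β} ^ n ↔ ‖(x : ℂ_[p])‖ ≤ ‖(β : ℂ_[p])‖ ^ n := by
  rw [Ideal.span_singleton_pow, Ideal.mem_span_singleton']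
  constructor
  · rintro ⟨c, rfl⟩
    rw [Subring.coe_mul, Subring.coe_pow, norm_mul, norm_pow]
    exact mul_le_of_le_one_left (pow_nonneg (norm_nonneg _) _) (cp_norm_le c)
  · intro h
    by_cases hb : (β : ℂ_[p]) ^ n = 0
    · have hx : (x : ℂ_[p]) = 0 := by
        have h1 : ‖(β : ℂ_[p])‖ ^ n = 0 := by rw [← norm_pow, hb, norm_zero]
        rw [h1] at h
        exact norm_le_zero_iff.1 h
      refine ⟨0, Subtype.ext ?_⟩
      rw [zero_mul]
      exact hx.symm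
    · refine ⟨⟨(x : ℂ_[p]) / (β : ℂ_[p]) ^ n, ?_⟩, Subtype.ext ?_⟩
      · rw [mem_cpO, norm_div, norm_pow]
        exact div_le_one_of_le₀ h (pow_nonneg (norm_nonneg _) _)
      · rw [Subring.coe_mul, Subring.coe_pow]
        exact div_mul_cancel₀ _ hb

theorem cp_smodEq (β x y : cpO p) (n : ℕ) :
    x ≡ y [SMOD (Ideal.span {β} ^ n • ⊤ : Submodule (cpO p) (cpO p))] ↔
      ‖(x : ℂ_[p]) - y‖ ≤ ‖(β : ℂ_[p])‖ ^ n := by
  rw [SModEq.sub_mem, smul_eq_mul, Ideal.mul_top, cp_mem_pow]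
  rfl

theorem cp_adicComplete (β : cpO p) (hβ : ‖(β : ℂ_[p])‖ < 1) :
    IsAdicComplete (Ideal.span {β}) (cpO p) := by
  have hlim : Filter.Tendsto (fun n : ℕ => ‖(β : ℂ_[p])‖ ^ n) Filter.atTop (nhds 0) :=
    tendsto_pow_atTop_nhds_zero_of_lt_one (norm_nonneg _) hβ
  refine { haus' := ?_, prec' := ?_ }
  · intro x hx
    have h1 : ∀ n : ℕ, ‖(x : ℂ_[p])‖ ≤ ‖(β : ℂ_[p])‖ ^ n := fun n => by
      have := (cp_smodEq β x 0 n).1 (hx n)
      simpa using this
    have h2 : ‖(x : ℂ_[p])‖ ≤ 0 := ge_of_tendsto' hlim h1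
    exact Subtype.ext (norm_le_zero_iff.1 h2)
  · intro f hf
    have h1 : ∀ {m n : ℕ}, m ≤ n → ‖(f m : ℂ_[p]) - f n‖ ≤ ‖(β : ℂ_[p])‖ ^ m := fun h =>
      (cp_smodEq β _ _ _).1 (hf h)
    have hc : CauchySeq fun n => (f n : ℂ_[p]) := by
      refine cauchySeq_of_le_tendsto_0 (fun n : ℕ => ‖(β : ℂ_[p])‖ ^ n) (fun n m N hn hm => ?_) hlim
      have h2 : ‖((f n : ℂ_[p]) - f N) + ((f N : ℂ_[p]) - f m)‖ ≤ ‖(β : ℂ_[p])‖ ^ N := by
        refine (IsUltrametricDist.norm_add_le_max _ _).trans (max_le ?_ (h1 hm))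
        rw [norm_sub_rev]
        exact h1 hn
      rw [dist_eq_norm]
      simpa using h2
    obtain ⟨L, hL⟩ := cauchySeq_tendsto_of_complete hc
    have hL1 : ‖L‖ ≤ 1 := le_of_tendsto' hL.norm fun n => cp_norm_le (f n)
    refine ⟨⟨L, hL1⟩, fun n => ?_⟩
    rw [cp_smodEq]
    have h3 : Filter.Tendsto (fun m => ‖(f n : ℂ_[p]) - f m‖) Filter.atTop
        (nhds ‖(f n : ℂ_[p]) - L‖) := (tendsto_const_nhds.sub hL).norm
    refine le_of_tendsto h3 ?_
    filter_upwards [Filter.eventually_ge_atTop n] with m hm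
    exact h1 hm

theorem cp_beta {t : Type} [Finite t] (b : t → cpO p) (hb : ∀ j, ‖(b j : ℂ_[p])‖ < 1) :
    ∃ β : cpO p, ‖(β : ℂ_[p])‖ < 1 ∧ ∀ j, b j ∈ Ideal.span {β} := by
  rcases isEmpty_or_nonempty t with ht | ht
  · exact ⟨0, by simp, fun j => isEmptyElim j⟩
  · obtain ⟨j₀, hj⟩ := Finite.exists_max fun j => ‖(b j : ℂ_[p])‖
    refine ⟨b j₀, hb j₀, fun j => ?_⟩
    have := (cp_mem_pow (b j₀) (b j) 1).2 (by simpa using hj j)
    simpa using this

variable (p) in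
/-- the base map -/
noncomputable def cpbase : ℤ_[p] →+* cpO p :=
  ((algebraMap ℚ_[p] ℂ_[p]).comp (PadicInt.Coe.ringHom (p := p))).codRestrict (cpO p) (fun x => by
    rw [mem_cpO]
    change ‖algebraMap ℚ_[p] ℂ_[p] (x : ℚ_[p])‖ ≤ 1
    rw [norm_algebraMap']
    exact x.2)

theorem cpbase_coe (x : ℤ_[p]) : ((cpbase p x : cpO p) : ℂ_[p]) = algebraMap ℚ_[p] ℂ_[p] x := rfl

theorem cp_exists {s t : Type} [Finite t] (a : s → cpO p) (b : t → cpO p)
    (hb : ∀ j, ‖(b j : ℂ_[p])‖ < 1) :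
    ∃ ψ : S ℤ_[p] s t →+* cpO p,
      (∀ r, ψ (MvPowerSeries.C r) = MvPolynomial.eval₂Hom (cpbase p) a r) ∧
      ∀ j, ψ (MvPowerSeries.X j) = b j := by
  obtain ⟨β, hβ, hbβ⟩ := cp_beta b hb
  have := cp_adicComplete β hβ
  exact adic_eval (Ideal.span {β}) (MvPolynomial.eval₂Hom (cpbase p) a) b hbβ

theorem cp_unique {P t : Type} [CommRing P] [Finite t] (ψ ψ' : MvPowerSeries t P →+* cpO p)
    (h : ∀ r, ψ (MvPowerSeries.C r) = ψ' (MvPowerSeries.C r))
    (hX : ∀ j, ψ (MvPowerSeries.X j) = ψ' (MvPowerSeries.X j))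
    (hJ : ∀ j, ‖(ψ (MvPowerSeries.X j) : ℂ_[p])‖ < 1) : ψ = ψ' := by
  obtain ⟨β, hβ, hbβ⟩ := cp_beta (fun j => ψ (MvPowerSeries.X j)) hJ
  have := cp_adicComplete β hβ
  exact hom_ext (Ideal.span {β}) ψ ψ' h hX hbβ

/-- the evaluation map -/
noncomputable def cpev {s t : Type} [Finite t] (a : s → cpO p) (b : t → cpO p)
    (hb : ∀ j, ‖(b j : ℂ_[p])‖ < 1) : S ℤ_[p] s t →+* cpO p := (cp_exists a b hb).choose

theorem cpev_C {s t : Type} [Finite t] (a : s → cpO p) (b : t → cpO p)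
    (hb : ∀ j, ‖(b j : ℂ_[p])‖ < 1) (r : MvPolynomial s ℤ_[p]) :
    cpev a b hb (MvPowerSeries.C r) = MvPolynomial.eval₂Hom (cpbase p) a r :=
  (cp_exists a b hb).choose_spec.1 r

theorem cpev_X {s t : Type} [Finite t] (a : s → cpO p) (b : t → cpO p)
    (hb : ∀ j, ‖(b j : ℂ_[p])‖ < 1) (j : t) : cpev a b hb (MvPowerSeries.X j) = b j :=
  (cp_exists a b hb).choose_spec.2 j

theorem cpev_ren {s t s' t' : Type} [Finite t] [Finite t'] (f : s → s') (g : t → t')
    (a : s' → cpO p) (b : t' → cpO p) (hb : ∀ j, ‖(b j : ℂ_[p])‖ < 1) (F : S ℤ_[p] s t) :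
    cpev a b hb (ren f g F) = cpev (a ∘ f) (b ∘ g) (fun j => hb (g j)) F := by
  have h : (cpev a b hb).comp (ren f g) = cpev (a ∘ f) (b ∘ g) (fun j => hb (g j)) := by
    apply cp_unique
    · intro r
      rw [RingHom.comp_apply, ren_apply, MvPowerSeries.map_C, MvPowerSeries.rename_C, cpev_C,
        cpev_C]
      change MvPolynomial.eval₂Hom (cpbase p) a (MvPolynomial.rename f r) = _
      rw [MvPolynomial.eval₂Hom_rename]
    · intro j
      rw [RingHom.comp_apply, ren_apply, MvPowerSeries.map_X, MvPowerSeries.rename_X, cpev_X,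
        cpev_X]
      rfl
    · intro j
      rw [RingHom.comp_apply, ren_apply, MvPowerSeries.map_X, MvPowerSeries.rename_X, cpev_X]
      exact hb (g j)
  rw [← h]
  rfl

/-- the value is close to the value of a truncation -/
theorem cp_pow {P t : Type} [CommRing P] [Finite t] (ψ : MvPowerSeries t P →+* cpO p) (β : cpO p)
    (hJ : ∀ j, ψ (MvPowerSeries.X j) ∈ Ideal.span {β}) (n : ℕ) (F : MvPowerSeries t P)
    (hF : F ∈ kk P t ^ n) : ‖(ψ F : ℂ_[p])‖ ≤ ‖(β : ℂ_[p])‖ ^ n := by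
  rw [← cp_mem_pow]
  have h1 : kk P t ≤ (Ideal.span {β}).comap ψ := by
    intro G hG
    have := Fintype.ofFinite t
    obtain ⟨H, rfl⟩ := (mem_kk_iff_sum G).1 hG
    rw [Ideal.mem_comap, map_sum]
    refine Ideal.sum_mem _ fun j _ => ?_
    rw [map_mul]
    exact Ideal.mul_mem_right _ _ (hJ j)
  have h2 : kk P t ^ n ≤ (Ideal.span {β} ^ n).comap ψ :=
    (Ideal.pow_right_mono h1 n).trans (Ideal.le_comap_pow ψ n)
  exact h2 hF

/-- the value as a convergent series, one variable -/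
theorem cp_hasSum {P : Type} [CommRing P] (ψ : MvPowerSeries Unit P →+* cpO p)
    (hJ : ‖(ψ (MvPowerSeries.X ()) : ℂ_[p])‖ < 1) (F : MvPowerSeries Unit P) :
    Filter.Tendsto (fun n => ∑ k ∈ Finset.range n,
      (ψ (MvPowerSeries.C (MvPowerSeries.coeff (Finsupp.single () k) F)) : ℂ_[p]) *
        (ψ (MvPowerSeries.X ()) : ℂ_[p]) ^ k) Filter.atTop (nhds (ψ F : ℂ_[p])) := by
  classical
  have hlim : Filter.Tendsto (fun n : ℕ => ‖(ψ (MvPowerSeries.X ()) : ℂ_[p])‖ ^ n) Filter.atTop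
      (nhds 0) := tendsto_pow_atTop_nhds_zero_of_lt_one (norm_nonneg _) hJ
  rw [tendsto_iff_norm_sub_tendsto_zero]
  refine squeeze_zero (fun _ => norm_nonneg _) (fun n => ?_) hlim
  set G : MvPowerSeries Unit P := F - ∑ k ∈ Finset.range n,
    MvPowerSeries.C (MvPowerSeries.coeff (Finsupp.single () k) F) * MvPowerSeries.X () ^ k with hG
  have hGm : G ∈ kk P Unit ^ n := by
    rw [mem_kk_pow_iff]
    intro μ hμ
    have hμ' : μ = Finsupp.single () (μ ()) := by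
      ext
      simp
    have hdeg : μ.degree = μ () := by
      rw [hμ']
      simp [Finsupp.degree_single]
    rw [hG, map_sub, map_sum]
    have : ∀ k ∈ Finset.range n, MvPowerSeries.coeff μ (MvPowerSeries.C (MvPowerSeries.coeff
        (Finsupp.single () k) F) * MvPowerSeries.X () ^ k) =
        if k = μ () then MvPowerSeries.coeff μ F else 0 := by
      intro k _
      rw [MvPowerSeries.coeff_C_mul, MvPowerSeries.coeff_X_pow]
      by_cases hk : k = μ ()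
      · rw [if_pos hk, if_pos (by rw [hk]; exact hμ'), mul_one, hk, ← hμ']
      · rw [if_neg hk, if_neg, mul_zero]
        intro h
        apply hk
        rw [h]
        simp
    rw [Finset.sum_congr rfl this, Finset.sum_ite_eq', if_pos, sub_self]
    rw [Finset.mem_range]
    omega
  have h1 := cp_pow ψ (ψ (MvPowerSeries.X ())) (fun j => Ideal.subset_span rfl) n G hGm
  have h2 : (ψ G : ℂ_[p]) = (ψ F : ℂ_[p]) - ∑ k ∈ Finset.range n,
      (ψ (MvPowerSeries.C (MvPowerSeries.coeff (Finsupp.single () k) F)) : ℂ_[p]) *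
        (ψ (MvPowerSeries.X ()) : ℂ_[p]) ^ k := by
    rw [hG, map_sub, map_sum]
    push_cast
    congr 1
    refine Finset.sum_congr rfl fun k _ => ?_
    rw [map_mul, map_pow]
    push_cast
    rfl
  rw [h2] at h1
  rw [norm_sub_rev]
  exact h1

end Cm
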