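import Pool.Agent.Lib.MP_c35b50_lc.Cm.Stmt
import Pool.Agent.Lib.MP_c35b50_lc.Cm.TRing

/-!
# The first order structures on T-fields over `ℤ_[p]`

`KK p K`: algebraically closed T-fields of characteristic zero over `ℤ_[p]` with `p ∈ m`.
`L3 p`: rings, `‖x‖ ≤ ‖y‖`, and the ternary relation `z = f_α (x)`.
`str2 p K α` is the `L2`-structure on `K` with the function `f_α`.
-/

namespace Cm

open FirstOrder

/-- Algebraically closed T-fields of characteristic zero over `ℤ_[p]` with `p` in `m`. -/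
class KK (p : ℕ) [Fact p.Prime] (K : Type) [Field K] [TField ℤ_[p] K] : Prop where
  alg : IsAlgClosed K
  zero : CharZero K
  pm : (p : K) ∈ mm ℤ_[p] K

section

variable (p : ℕ) [Fact p.Prime]

/-- the coefficient `p ^ (2 k) / k!` as a `p`-adic integer -/
noncomputable def pk (k : ℕ) : ℤ_[p] :=
  if h : ‖((p : ℚ_[p]) ^ (2 * k) / (k.factorial : ℚ_[p]))‖ ≤ 1 then
    ⟨(p : ℚ_[p]) ^ (2 * k) / (k.factorial : ℚ_[p]), h⟩ else 0

/-- The series `E (ξ; ρ) = ∑ p ^ (2 k) binom ξ k ρ ^ k = (1 + p ^ 2 ρ) ^ ξ`. -/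
noncomputable def Eser : S ℤ_[p] Unit Unit := fun μ =>
  MvPolynomial.C (pk p (μ ())) *
    ∏ i ∈ Finset.range (μ ()), (MvPolynomial.X () - MvPolynomial.C ((i : ℤ_[p])))

variable {p} {K : Type} [Field K] [TField ℤ_[p] K]

/-- `(1 + p ^ 2 ρ) ^ α` -/
noncomputable def ee (α ρ : K) : K := ev (Eser p) (fun _ => α) (fun _ => ρ)

variable (p) in
/-- the graph of `f_α`: `x = p ^ 2 ρ` with `ρ ∈ m`, `z = (1 + p ^ 2 ρ) ^ α` -/
def Gr (α x z : K) : Prop := ∃ ρ ∈ mm ℤ_[p] K, x = (p : K) ^ 2 * ρ ∧ z = ee (p := p) α ρ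

variable (p) in
/-- `‖x‖ ≤ ‖y‖` -/
def vle (x y : K) : Prop := ∃ z ∈ OO ℤ_[p] K, x = z * y

end

/-- relation symbols of `L3` -/
inductive Rl3 : ℕ → Type
  | dv : Rl3 2
  | ex : Rl3 3

/-- the language with the ternary relation `z = f_α (x)` (the argument `p` is only a label) -/
def L3 (_ : ℕ) : Language := ⟨Fn, Rl3⟩

section

variable (p : ℕ) [Fact p.Prime] (K : Type) [Field K] [TField ℤ_[p] K]

instance str3 : (L3 p).Structure K where
  funMap := fun {_} f => match f with
    | Fn.zero => fun _ => 0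
    | Fn.one => fun _ => 1
    | Fn.neg => fun x => - x 0
    | Fn.add => fun x => x 0 + x 1
    | Fn.mul => fun x => x 0 * x 1
  RelMap := fun {_} q => match q with
    | Rl3.dv => fun x => vle p (x 0) (x 1)
    | Rl3.ex => fun x => x 1 ∈ OO ℤ_[p] K ∧ Gr p (x 1) (x 0) (x 2)

/-- the `L2`-structure `(K, +, *, v, f_α)` -/
@[reducible] def str2 (α : K) : Lvf.Structure K where
  funMap := fun {_} f => match f with
    | Fn.zero => fun _ => 0
    | Fn.one => fun _ => 1
    | Fn.neg => fun x => - x 0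
    | Fn.add => fun x => x 0 + x 1
    | Fn.mul => fun x => x 0 * x 1
  RelMap := fun {_} q => match q with
    | Rl.le => fun x => vle p (x 0) (x 1)
    | Rl.gr => fun x => Gr p α (x 0) (x 1)

end

section Real

variable {p : ℕ} [Fact p.Prime] {K : Type} [Field K] [TField ℤ_[p] K]

/-- realization of an `L2`-formula in `(K, v, f_α)` -/
def Re2 (p : ℕ) [Fact p.Prime] {K : Type} [Field K] [TField ℤ_[p] K] {γ : Type} (α : K)
    (φ : Lvf.Formula γ) (v : γ → K) : Prop :=
  @Language.Formula.Realize Lvf K (str2 p K α) γ φ v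

end Real

section Balls

variable {K : Type} [Field K]

/-- `D` is a Boolean combination of at most `k` balls: the ball number `i` has centre `c i` and
radius `r i` and is closed if `o i = true`, open otherwise. -/
def BCk (p : ℕ) [Fact p.Prime] [TField ℤ_[p] K] (k : ℕ) (D : Set K) : Prop :=
  ∃ (c r : Fin k → K) (o : Fin k → Bool) (P : Set (Fin k → Prop)), ∀ y : K,
    y ∈ D ↔ (fun i => (o i = true ∧ vle p (y - c i) (r i)) ∨
      (o i = false ∧ ¬ vle p (r i) (y - c i))) ∈ P

end Balls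

/-- ultrapowers -/
abbrev UP {I : Type} (U : Ultrafilter I) (K : Type) : Type := (U : Filter I).Germ K

/-- the germ of a function, as an element of the ultrapower -/
abbrev gm {I : Type} (U : Ultrafilter I) {K : Type} (f : I → K) : UP U K := (f : Filter.Germ _ K)

end Cm
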