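import Pool.Agent.Lib.MP_c35b50_lc.Cm.TFieldB
import Pool.Agent.Lib.MP_c35b50_lc.Cm.AdicB
import Pool.Agent.Lib.MP_c35b50_lc.Cm.Mod
import Pool.Agent.Lib.MP_c35b50_lc.Cm.CpA

/-! # Row T6: the T-field `ℂ_[p]` -/

namespace Cm

variable (p : ℕ) [Fact p.Prime]

open Classical in
/-- the evaluation map of the T-field `ℂ_[p]` -/
noncomputable def cpT {s t : Type} [Finite s] [Finite t] (F : S ℤ_[p] s t) (a : s → ℂ_[p])
    (b : t → ℂ_[p]) : ℂ_[p] :=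
  if h : (∀ i, ‖a i‖ ≤ 1) ∧ ∀ j, ‖b j‖ < 1 then
    (cpev (fun i => ⟨a i, h.1 i⟩) (fun j => ⟨b j, (h.2 j).le⟩) h.2 F : cpO p) else 0

theorem cpT_eq {s t : Type} [Finite s] [Finite t] (F : S ℤ_[p] s t) (a : s → ℂ_[p])
    (b : t → ℂ_[p]) (ha : ∀ i, ‖a i‖ ≤ 1) (hb : ∀ j, ‖b j‖ < 1) :
    cpT p F a b = (cpev (fun i => ⟨a i, ha i⟩) (fun j => ⟨b j, (hb j).le⟩) hb F : cpO p) :=
  dif_pos ⟨ha, hb⟩

noncomputable instance cpTField : TField ℤ_[p] ℂ_[p] where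
  O := cpO p
  m := {x | ‖x‖ < 1}
  m_le := fun x hx => (mem_cpO x).2 (le_of_lt hx)
  m_zero := by simp
  m_add := fun x hx y hy => (IsUltrametricDist.norm_add_le_max x y).trans_lt (max_lt hx hy)
  m_mul := by
    intro x hx y hy
    simp only [Set.mem_ofPred_eq] at *
    rw [norm_mul]
    exact (mul_le_of_le_one_left (norm_nonneg _) hx).trans_lt hy
  T := fun F a b => cpT p F a b
  T_mem := by
    intro s t _ _ F a b ha hb
    rw [cpT_eq p F a b ha hb]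
    exact Subtype.property _
  T_one := by
    intro s t _ _ a b ha hb
    rw [cpT_eq p _ a b ha hb, map_one]
    rfl
  T_add := by
    intro s t _ _ F G a b ha hb
    rw [cpT_eq p _ a b ha hb, cpT_eq p _ a b ha hb, cpT_eq p _ a b ha hb, map_add]
    rfl
  T_mul := by
    intro s t _ _ F G a b ha hb
    rw [cpT_eq p _ a b ha hb, cpT_eq p _ a b ha hb, cpT_eq p _ a b ha hb, map_mul]
    rfl
  T_xi := by
    intro s t _ _ a b ha hb i
    rw [cpT_eq p _ a b ha hb, xi, cpev_C]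
    rw [MvPolynomial.eval₂Hom_X']
  T_rho := by
    intro s t _ _ a b ha hb j
    rw [cpT_eq p _ a b ha hb, rho, cpev_X]
  T_ren := by
    intro s t s' t' _ _ _ _ f g F a b ha hb
    rw [cpT_eq p _ a b ha hb, cpev_ren, cpT_eq p F (a ∘ f) (b ∘ g) (fun i => ha (f i))
      (fun j => hb (g j))]
    rfl
  total := by
    intro x
    by_cases h : ‖x‖ ≤ 1
    · exact Or.inl h
    · right
      rw [mem_cpO, norm_inv]
      exact inv_le_one_of_one_le₀ (not_le.1 h).le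
  m_iff := by
    intro x
    simp only [Set.mem_ofPred_eq, mem_cpO]
    constructor
    · intro hx
      refine ⟨hx.le, ?_⟩
      by_cases h0 : x = 0
      · exact Or.inl h0
      · right
        rw [norm_inv, not_le]
        exact (one_lt_inv₀ (norm_pos_iff.2 h0)).2 hx
    · rintro ⟨_, h | h⟩
      · simp [h]
      · by_contra hc
        refine h ?_
        rw [norm_inv]
        exact inv_le_one_of_one_le₀ (not_lt.1 hc)

variable {p}

theorem cp_O (x : ℂ_[p]) : x ∈ OO ℤ_[p] ℂ_[p] ↔ ‖x‖ ≤ 1 := Iff.rfl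

theorem cp_m (x : ℂ_[p]) : x ∈ mm ℤ_[p] ℂ_[p] ↔ ‖x‖ < 1 := Iff.rfl

theorem cp_vle (x y : ℂ_[p]) : vle p x y ↔ ‖x‖ ≤ ‖y‖ := by
  constructor
  · rintro ⟨z, hz, rfl⟩
    rw [norm_mul]
    exact mul_le_of_le_one_left (norm_nonneg _) ((cp_O z).1 hz)
  · intro h
    by_cases hy : y = 0
    · refine ⟨0, zero_mem _, ?_⟩
      rw [hy, norm_zero] at h
      rw [zero_mul]
      exact norm_le_zero_iff.1 h
    · refine ⟨x / y, (cp_O _).2 ?_, (div_mul_cancel₀ _ hy).symm⟩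
      rw [norm_div]
      exact div_le_one_of_le₀ h (norm_nonneg _)

theorem cp_norm_p : ‖(p : ℂ_[p])‖ = (p : ℝ)⁻¹ := by
  have h : (p : ℂ_[p]) = algebraMap ℚ_[p] ℂ_[p] (p : ℚ_[p]) := by simp
  rw [h, norm_algebraMap', Padic.norm_p]

theorem cp_one_lt : (1 : ℝ) < p := by
  exact_mod_cast (Fact.out : p.Prime).one_lt

instance cp_KK : KK p ℂ_[p] where
  alg := inferInstance
  zero := inferInstance
  pm := by
    rw [cp_m, cp_norm_p]
    exact inv_lt_one_of_one_lt₀ cp_one_lt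

theorem cp_norm_fact (k : ℕ) : ((p : ℝ)⁻¹) ^ k ≤ ‖(k.factorial : ℚ_[p])‖ := by
  have hp : p.Prime := Fact.out
  have h1 : padicValNat p k.factorial ≤ k := by
    have h2 := sub_one_mul_padicValNat_factorial (p := p) k
    have h3 : 1 ≤ p - 1 := by
      have := hp.two_le
      omega
    calc padicValNat p k.factorial ≤ (p - 1) * padicValNat p k.factorial :=
          Nat.le_mul_of_pos_left _ h3
      _ = k - (p.digits k).sum := h2
      _ ≤ k := Nat.sub_le _ _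
  have h4 : ‖(k.factorial : ℚ_[p])‖ = ((p : ℝ)⁻¹) ^ padicValNat p k.factorial := by
    have h5 := Padic.eq_padicNorm (p := p) (k.factorial : ℚ)
    have h6 : (k.factorial : ℚ) ≠ 0 := by exact_mod_cast k.factorial_ne_zero
    rw [padicNorm.eq_zpow_of_nonzero h6] at h5
    push_cast at h5
    rw [h5]
    simp [padicValRat.of_nat, zpow_neg]
  rw [h4]
  exact pow_le_pow_of_le_one (by positivity) (inv_le_one_of_one_le₀ cp_one_lt.le) h1

theorem pk_coe (k : ℕ) :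
    ((pk p k : ℤ_[p]) : ℚ_[p]) = (p : ℚ_[p]) ^ (2 * k) / (k.factorial : ℚ_[p]) := by
  have hp0 : (0 : ℝ) < p := by linarith [cp_one_lt (p := p)]
  have h : ‖((p : ℚ_[p]) ^ (2 * k) / (k.factorial : ℚ_[p]))‖ ≤ 1 := by
    rw [norm_div, norm_pow, Padic.norm_p]
    refine div_le_one_of_le₀ ?_ (norm_nonneg _)
    refine le_trans ?_ (cp_norm_fact k)
    exact pow_le_pow_of_le_one (by positivity) (inv_le_one_of_one_le₀ cp_one_lt.le) (by omega)
  rw [pk, dif_pos h]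

theorem cp_sub_nat_norm (α : ℂ_[p]) (hα : ‖α‖ ≤ 1) (i : ℕ) : ‖α - (i : ℂ_[p])‖ ≤ 1 := by
  have h1 : (i : ℂ_[p]) ∈ cpO p := natCast_mem _ i
  exact (cpO p).sub_mem ((mem_cpO α).2 hα) h1

theorem cp_bin_norm (α : ℂ_[p]) (hα : ‖α‖ ≤ 1) (k : ℕ) : ‖bin α k‖ ≤ (p : ℝ) ^ k := by
  have hp0 : (0 : ℝ) < p := by linarith [cp_one_lt (p := p)]
  have h1 : ‖(k.factorial : ℂ_[p])‖ = ‖(k.factorial : ℚ_[p])‖ := by
    rw [← norm_algebraMap' ℂ_[p] (k.factorial : ℚ_[p])]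
    simp
  have h2 : ‖∏ i ∈ Finset.range k, (α - (i : ℂ_[p]))‖ ≤ 1 := by
    rw [norm_prod]
    exact Finset.prod_le_one (fun i _ => norm_nonneg _) fun i _ => cp_sub_nat_norm α hα i
  rw [bin, norm_div, h1]
  have h3 := cp_norm_fact (p := p) k
  have h4 : (0 : ℝ) < ((p : ℝ)⁻¹) ^ k := by positivity
  calc ‖∏ i ∈ Finset.range k, (α - (i : ℂ_[p]))‖ / ‖(k.factorial : ℚ_[p])‖
      ≤ 1 / (((p : ℝ)⁻¹) ^ k) := div_le_div₀ zero_le_one h2 h4 h3
    _ = (p : ℝ) ^ k := by rw [inv_pow, one_div, inv_inv]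

theorem cp_summable (α x : ℂ_[p]) (hα : ‖α‖ ≤ 1) (hx : ‖x‖ < ((p : ℝ)⁻¹) ^ 2) :
    Summable (fun k : ℕ => bin α k * x ^ k) := by
  have hp0 : (0 : ℝ) < p := by linarith [cp_one_lt (p := p)]
  have h1 : (p : ℝ) * ‖x‖ < 1 := by
    calc (p : ℝ) * ‖x‖ < p * ((p : ℝ)⁻¹) ^ 2 := mul_lt_mul_of_pos_left hx hp0
      _ = (p : ℝ)⁻¹ := by field_simp
      _ < 1 := inv_lt_one_of_one_lt₀ cp_one_lt
  refine Summable.of_norm_bounded (g := fun k : ℕ => ((p : ℝ) * ‖x‖) ^ k)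
    (summable_geometric_of_lt_one (by positivity) h1) fun k => ?_
  rw [norm_mul, norm_pow, mul_pow]
  exact mul_le_mul_of_nonneg_right (cp_bin_norm α hα k) (by positivity)

theorem cp_ee (α ρ : ℂ_[p]) (hα : ‖α‖ ≤ 1) (hρ : ‖ρ‖ < 1) :
    ee (p := p) α ρ = fa α ((p : ℂ_[p]) ^ 2 * ρ) := by
  have hp0 : (0 : ℝ) < p := by linarith [cp_one_lt (p := p)]
  have hx : ‖(p : ℂ_[p]) ^ 2 * ρ‖ < ((p : ℝ)⁻¹) ^ 2 := by
    rw [norm_mul, norm_pow, cp_norm_p]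
    exact mul_lt_of_lt_one_right (by positivity) hρ
  have h1 : ee (p := p) α ρ = cpT p (Eser p) (fun _ => α) (fun _ => ρ) := rfl
  rw [h1, cpT_eq p (Eser p) (fun _ => α) (fun _ => ρ) (fun _ => hα) (fun _ => hρ)]
  have h2 := cp_hasSum (cpev (fun _ : Unit => (⟨α, hα⟩ : cpO p)) (fun _ : Unit => ⟨ρ, hρ.le⟩)
    (fun _ => hρ)) (by rw [cpev_X]; exact hρ) (Eser p)
  have h3 := (cp_summable α _ hα hx).hasSum.tendsto_sum_nat
  refine tendsto_nhds_unique h2 (h3.congr fun n => ?_)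
  refine Finset.sum_congr rfl fun k _ => ?_
  rw [cpev_X, cpev_C]
  have h4 : MvPowerSeries.coeff (Finsupp.single () k) (Eser p) = MvPolynomial.C (pk p k) *
      ∏ i ∈ Finset.range k, (MvPolynomial.X () - MvPolynomial.C ((i : ℤ_[p]))) := by
    change Eser p (Finsupp.single () k) = _
    simp [Eser]
  rw [h4, map_mul, map_prod]
  simp only [map_sub, MvPolynomial.coe_eval₂Hom, MvPolynomial.eval₂_C, MvPolynomial.eval₂_X]
  push_cast
  rw [cpbase_coe, pk_coe]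
  have h5 : ∀ i : ℕ, ((cpbase p (i : ℤ_[p]) : cpO p) : ℂ_[p]) = (i : ℂ_[p]) := by
    intro i
    rw [map_natCast]
    rfl
  simp only [h5]
  rw [bin, map_div₀, map_pow, map_natCast, map_natCast]
  ring

/-- the graph of `f_α` -/
theorem cp_Gr (α x z : ℂ_[p]) (hα : ‖α‖ ≤ 1) :
    Gr p α x z ↔ ‖x‖ < ((p : ℝ)⁻¹) ^ 2 ∧ z = fa α x := by
  have hp0 : (0 : ℝ) < p := by linarith [cp_one_lt (p := p)]
  have hpp : (p : ℂ_[p]) ^ 2 ≠ 0 := by
    refine pow_ne_zero _ ?_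
    exact_mod_cast (Fact.out : p.Prime).ne_zero
  constructor
  · rintro ⟨ρ, hρ, rfl, rfl⟩
    rw [cp_m] at hρ
    refine ⟨?_, cp_ee α ρ hα hρ⟩
    rw [norm_mul, norm_pow, cp_norm_p]
    exact mul_lt_of_lt_one_right (by positivity) hρ
  · rintro ⟨hx, rfl⟩
    have hρ : ‖x / (p : ℂ_[p]) ^ 2‖ < 1 := by
      rw [norm_div, norm_pow, cp_norm_p, div_lt_one (by positivity)]
      exact hx
    have e : (p : ℂ_[p]) ^ 2 * (x / (p : ℂ_[p]) ^ 2) = x := mul_div_cancel₀ x hpp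
    refine ⟨x / (p : ℂ_[p]) ^ 2, (cp_m _).2 hρ, e.symm, ?_⟩
    rw [cp_ee α _ hα hρ, e]

end Cm
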