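import Mathlib

/-! # Row D1: the algebraic numbers are dense in `ℂ_[p]` (Mathlib only)

Proof: `ℂ_[p]` is the completion of `PadicAlgCl p`, the algebraic closure of `ℚ_[p]`, so it suffices to approximate
`x` in `PadicAlgCl p`. Let `P ∈ ℚ_[p][X]` be the minimal polynomial of `x`, of degree `n`; approximate its
coefficients by rational numbers: a monic `Q ∈ ℚ[X]` of degree `n` with `‖Q(x)‖ = ‖Q(x) - P(x)‖ < r ^ n`. Over the
algebraically closed field `PadicAlgCl p` (or `ℂ_[p]`) `Q` splits, `Q(x) = ∏ (x - y_i)`, so `‖x - y_i‖ < r` for some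
root `y_i`, which is algebraic over `ℚ`. -/

namespace Cm

open Polynomial

theorem denseRange_rat_padic (p : ℕ) [Fact p.Prime] : DenseRange (algebraMap ℚ ℚ_[p]) := by
  rw [Metric.denseRange_iff]
  intro x r hr
  obtain ⟨q, hq⟩ := Padic.rat_dense p x hr
  exact ⟨q, by rw [dist_eq_norm]; exact hq⟩

theorem algebraic_dense_aux (p : ℕ) [Fact p.Prime] (z : PadicAlgCl p) (r : ℝ) (hr : 0 < r) :
    ∃ y : ℂ_[p], IsAlgebraic ℤ y ∧ ‖(z : ℂ_[p]) - y‖ < r := by
  have hz : IsIntegral ℚ_[p] z := (PadicAlgCl.isAlgebraic p).isAlgebraic z |>.isIntegral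
  set f := minpoly ℚ_[p] z with hf
  have hfm : f.Monic := minpoly.monic hz
  have hn : 0 < f.natDegree := minpoly.natDegree_pos hz
  have hm : 0 < max ‖(z : ℂ_[p])‖ 1 := lt_max_of_lt_right one_pos
  have hn1 : (0 : ℝ) < f.natDegree + 1 := by positivity
  set s : ℝ := r / (2 * max ‖(z : ℂ_[p])‖ 1) with hs
  have hs0 : 0 < s := by positivity
  obtain ⟨g, hg, hgd, hgc⟩ :=
    exists_monic_and_natDegree_eq_and_norm_map_algebraMap_coeff_sub_lt
      (denseRange_rat_padic p) hfm (ε := s ^ f.natDegree / (f.natDegree + 1)) (by positivity)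
  obtain ⟨b, hb, hb'⟩ := exists_aroots_norm_sub_lt_of_norm_coeff_sub_lt (L := ℂ_[p])
    (ε := s ^ f.natDegree / (f.natDegree + 1)) (f := f) (g := g.map (algebraMap ℚ ℚ_[p]))
    (a := (z : ℂ_[p])) (by positivity)
    (by
      have : aeval (algebraMap (PadicAlgCl p) ℂ_[p] z) f = 0 := by
        rw [aeval_algebraMap_apply, minpoly.aeval, map_zero]
      exact this)
    hfm (hg.map _) (by rw [natDegree_map]; exact hgd.symm) hgc (IsAlgClosed.splits _)
  refine ⟨b, ?_, ?_⟩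
  · rw [IsFractionRing.isAlgebraic_iff ℤ ℚ ℂ_[p]]
    refine ⟨g, hg.ne_zero, ?_⟩
    rw [mem_aroots] at hb
    have h := hb.2
    rwa [aeval_map_algebraMap] at h
  · refine hb'.trans_le ?_
    rw [mul_div_cancel₀ _ hn1.ne', ← Real.rpow_natCast, ← Real.rpow_mul hs0.le,
      mul_inv_cancel₀ (by positivity), Real.rpow_one, hs]
    rw [div_mul_eq_mul_div, div_le_iff₀ (by positivity)]
    nlinarith

theorem algebraic_dense (p : ℕ) [Fact p.Prime] (x : ℂ_[p]) (r : ℝ) (hr : 0 < r) :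
    ∃ y : ℂ_[p], IsAlgebraic ℤ y ∧ ‖x - y‖ < r := by
  have hd : DenseRange ((↑) : PadicAlgCl p → ℂ_[p]) := UniformSpace.Completion.denseRange_coe
  obtain ⟨z, hz⟩ := Metric.denseRange_iff.1 hd x (r / 2) (by positivity)
  obtain ⟨y, hy, hyz⟩ := algebraic_dense_aux p z (r / 2) (by positivity)
  refine ⟨y, hy, ?_⟩
  rw [dist_eq_norm] at hz
  calc ‖x - y‖ = ‖(x - z) + (z - y)‖ := by rw [sub_add_sub_cancel]
    _ ≤ ‖x - z‖ + ‖(z : ℂ_[p]) - y‖ := norm_add_le _ _
    _ < r := by linarith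

end Cm
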