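import Pool.Agent.Lib.MP_c35b50_lc.Cm.GenAut
import Pool.Agent.Lib.MP_c35b50_lc.Cm.CTargets
import Pool.Agent.Lib.MP_c35b50_lc.Cm.Cp

/-!
# (E): the certificate lemma

`α` and `M` are as in (D) (`Good p α M`). Let `ψ (x, y)` be an `Lvf`-formula with parameters in
`M ∪ {α}` and `k` a natural number. Then there is a formula `θ (x, y)` with parameters in
`M ∪ {α}` (a disjunction of finitely many types of certificates with parameters in `M` and in the
coordinates of `x`) such that for `x` in `M`: `θ (x, y)` implies `y ∈ M`, and if `y ∈ M`,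
`ψ (x, y)` holds and `ψ (x, ·)` has at most `k` solutions in `ℂ_[p]` then `θ (x, y)` holds.
-/

namespace Cm

open FirstOrder

variable (p : ℕ) [Fact p.Prime]

/-- The properties of `α` and `M` which are proved in (D). -/
structure Good (α : ℂ_[p]) (M : Subfield ℂ_[p]) : Prop where
  alO : α ∈ OO ℤ_[p] ℂ_[p]
  closed : IsAlgClosed M
  gr : ∀ x z, x ∈ M → Gr p α x z → z ∈ M
  notMem : α ∉ M
  dense : ∀ x r : ℂ_[p], r ≠ 0 → ∃ y ∈ M, vle p (x - y) r
  cert : ∀ {κ : Type} (τ : CT κ) (w : κ → ℂ_[p]) (c : ℂ_[p]), (∀ m, w m ∈ M) →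
    τ.Has p α w c → c ∈ M

variable {p}

/-- the valuation of the variables `Option M ⊕ Option γ` -/
def vl {K M γ : Type} (a : K) (m : M → K) (y : K) (x : γ → K) : Option M ⊕ Option γ → K :=
  Sum.elim (oc a m) (oc y x)

section chi

variable {M γ : Type}

/-- `∀ y, ψ y → ⋁ y = u i` -/
noncomputable def chi (ψ : Lvf.Formula (Option M ⊕ Option γ)) (k : ℕ) :
    Lvf.Formula ((Option M ⊕ Option γ) ⊕ Fin k) :=
  ∼ (Language.Formula.iExs Unit
    ((Language.Formula.relabel (fun i : Option M ⊕ Option γ => Sum.elim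
        (fun a => Sum.inl (Sum.inl (Sum.inl a)))
        (fun b => oc (Sum.inr ()) (fun g => Sum.inl (Sum.inl (Sum.inr (some g)))) b) i) ψ) ⊓
      ∼ (fOr (List.ofFn fun i : Fin k => Language.Term.equal
        (Language.Term.var (Sum.inr ())) (Language.Term.var (Sum.inl (Sum.inr i)))))))

theorem re2_chi {K : Type} [Field K] [TField ℤ_[p] K] (α : K)
    (ψ : Lvf.Formula (Option M ⊕ Option γ)) (k : ℕ) (a : K) (m : M → K) (y : K) (x : γ → K)
    (u : Fin k → K) : Re2 p α (chi ψ k) (Sum.elim (vl a m y x) u) ↔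
      ∀ y', Re2 p α ψ (vl a m y' x) → ∃ i, y' = u i := by
  rw [chi, re2_not, re2_ex]
  simp only [re2_and, re2_not, re2_relabel, re2_any, List.mem_ofFn]
  have h1 : ∀ z : Unit → K, ((Sum.elim (Sum.elim (vl a m y x) u) z) ∘
      (fun i : Option M ⊕ Option γ => Sum.elim
        (fun a => Sum.inl (Sum.inl (Sum.inl a)))
        (fun b => oc (Sum.inr ()) (fun g => Sum.inl (Sum.inl (Sum.inr (some g)))) b) i)) =
      vl a m (z ()) x := by
    intro z
    funext i
    rcases i with i | i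
    · rfl
    · rcases i with _ | g <;> rfl
  constructor
  · intro h y' hy'
    by_contra hno
    refine h ⟨fun _ => y', by rw [h1]; exact hy', ?_⟩
    rintro ⟨φ, ⟨i, rfl⟩, hφ⟩
    rw [re2_eq] at hφ
    exact hno ⟨i, hφ⟩
  · rintro h ⟨z, hz, hno⟩
    rw [h1] at hz
    obtain ⟨i, hi⟩ := h _ hz
    refine hno ⟨_, ⟨i, rfl⟩, ?_⟩
    rw [re2_eq]
    exact hi

end chi

/-- invariance of `Re2` under automorphisms -/
theorem re2_aut {K : Type} [Field K] [TField ℤ_[p] K] (α : K) (Φ : K ≃+* K)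
    (hO : ∀ x, x ∈ OO ℤ_[p] K ↔ Φ x ∈ OO ℤ_[p] K)
    (hG : ∀ x z, Gr p α x z ↔ Gr p α (Φ x) (Φ z)) {γ : Type} (φ : Lvf.Formula γ) (v : γ → K) :
    Re2 p α φ (fun i => Φ (v i)) ↔ Re2 p α φ v := by
  let _ := str2 p K α
  have hle : ∀ x y : K, vle p (Φ x) (Φ y) ↔ vle p x y := by
    intro x y
    constructor
    · rintro ⟨z, hz, h⟩
      refine ⟨Φ.symm z, (hO _).2 (by rw [Φ.apply_symm_apply]; exact hz), Φ.injective ?_⟩
      rw [map_mul, Φ.apply_symm_apply, h]
    · rintro ⟨z, hz, h⟩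
      exact ⟨Φ z, (hO z).1 hz, by rw [h, map_mul]⟩
  let e : K ≃[Lvf] K :=
    { toEquiv := Φ.toEquiv
      map_fun' := by
        intro n f x
        cases f
        · exact map_zero Φ
        · exact map_one Φ
        · exact map_neg Φ (x 0)
        · exact map_add Φ (x 0) (x 1)
        · exact map_mul Φ (x 0) (x 1)
      map_rel' := by
        intro n r x
        cases r
        · exact hle (x 0) (x 1)
        · exact (hG (x 0) (x 1)).symm }
  exact Language.StrongHomClass.realize_formula e φ (v := v)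

/-- THE CERTIFICATE LEMMA. -/
theorem cert_lemma {α : ℂ_[p]} {M : Subfield ℂ_[p]} (h : Good p α M) {γ : Type}
    (ψ : Lvf.Formula (Option M ⊕ Option γ)) (k : ℕ) :
    ∃ θ : Lvf.Formula (Option M ⊕ Option γ),
      (∀ (x : γ → M) (y : ℂ_[p]),
        Re2 p α θ (vl α (fun m : M => (m : ℂ_[p])) y (fun g => (x g : ℂ_[p]))) → y ∈ M) ∧
      (∀ (x : γ → M) (y : M),
        Re2 p α ψ (vl α (fun m : M => (m : ℂ_[p])) (y : ℂ_[p]) (fun g => (x g : ℂ_[p]))) →
        {y' : ℂ_[p] | Re2 p α ψ (vl α (fun m : M => (m : ℂ_[p])) y'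
          (fun g => (x g : ℂ_[p])))}.encard ≤ k →
        Re2 p α θ (vl α (fun m : M => (m : ℂ_[p])) (y : ℂ_[p]) (fun g => (x g : ℂ_[p])))) := by
  classical
  by_contra hcon
  -- the names of the variables of the certificates
  let g : Bool ⊕ (M ⊕ γ) → Option M ⊕ Option γ :=
    Sum.elim (fun b => if b then Sum.inl none else Sum.inr none)
      (Sum.elim (fun m => Sum.inl (some m)) (fun c => Sum.inr (some c)))
  let θ : Finset (CT (M ⊕ γ)) → Lvf.Formula (Option M ⊕ Option γ) := fun T =>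
    fOr (T.toList.map fun τ => Language.Formula.relabel g (certF τ))
  have hθ : ∀ (T : Finset (CT (M ⊕ γ))) (x : γ → M) (y : ℂ_[p]),
      Re2 p α (θ T) (vl α (fun m : M => (m : ℂ_[p])) y (fun g => (x g : ℂ_[p]))) ↔
      ∃ τ ∈ T, τ.Has p α (Sum.elim (fun m : M => (m : ℂ_[p])) (fun g => (x g : ℂ_[p]))) y := by
    intro T x y
    simp only [θ, re2_any, List.mem_map, Finset.mem_toList, exists_exists_and_eq_and]
    refine exists_congr fun τ => and_congr_right fun _ => ?_
    rw [re2_certF' p τ α _ g rfl]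
    have : (fun m => vl α (fun m : M => (m : ℂ_[p])) y (fun g => (x g : ℂ_[p])) (g (Sum.inr m))) =
        (Sum.elim (fun m : M => (m : ℂ_[p])) (fun g => (x g : ℂ_[p]))) := by
      funext m
      rcases m with m | m <;> rfl
    rw [this]
    rfl
  have hbad : ∀ T : Finset (CT (M ⊕ γ)), ∃ (x : γ → M) (y : M),
      Re2 p α ψ (vl α (fun m : M => (m : ℂ_[p])) (y : ℂ_[p]) (fun g => (x g : ℂ_[p]))) ∧
      {y' : ℂ_[p] | Re2 p α ψ (vl α (fun m : M => (m : ℂ_[p])) y'
          (fun g => (x g : ℂ_[p])))}.encard ≤ k ∧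
      ∀ τ ∈ T, ¬ τ.Has p α (Sum.elim (fun m : M => (m : ℂ_[p])) (fun g => (x g : ℂ_[p])))
        (y : ℂ_[p]) := by
    intro T
    by_contra hT
    refine hcon ⟨θ T, fun x y hxy => ?_, fun x y hψ hk => ?_⟩
    · rw [hθ] at hxy
      obtain ⟨τ, _, hτ⟩ := hxy
      refine h.cert τ _ y ?_ hτ
      rintro (m | m)
      · exact m.2
      · exact (x m).2
    · rw [hθ]
      by_contra hno
      push Not at hno
      exact hT ⟨x, y, hψ, hk, hno⟩
  choose x y hψ hk hno using hbad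
  -- enumeration of the solutions
  have henum : ∀ T, ∃ u : Fin k → ℂ_[p], ∀ y' : ℂ_[p],
      Re2 p α ψ (vl α (fun m : M => (m : ℂ_[p])) y' (fun g => (x T g : ℂ_[p]))) →
      ∃ i, y' = u i := by
    intro T
    have hfin : {y' : ℂ_[p] | Re2 p α ψ (vl α (fun m : M => (m : ℂ_[p])) y'
          (fun g => (x T g : ℂ_[p])))}.Finite :=
      Set.finite_of_encard_le_coe (hk T)
    have hcard := hk T
    rw [hfin.encard_eq_coe_toFinset_card, Nat.cast_le] at hcard
    let e := hfin.toFinset.equivFin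
    refine ⟨fun i => if hi : (i : ℕ) < hfin.toFinset.card then (e.symm ⟨i, hi⟩ : ℂ_[p]) else 0,
      fun y' hy' => ?_⟩
    have hy2 : y' ∈ hfin.toFinset := hfin.mem_toFinset.2 hy'
    refine ⟨⟨e ⟨y', hy2⟩, lt_of_lt_of_le (e ⟨y', hy2⟩).2 hcard⟩, ?_⟩
    simp only [Fin.is_lt, dif_pos, Fin.eta, Equiv.symm_apply_apply]
  choose u hu using henum
  -- the ultrafilter
  let U : Ultrafilter (Finset (CT (M ⊕ γ))) := Ultrafilter.of Filter.atTop
  have hU : ∀ τ : CT (M ⊕ γ), ∀ᶠ T in (U : Filter (Finset (CT (M ⊕ γ)))), τ ∈ T := by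
    intro τ
    have h1 : ∀ᶠ T in (Filter.atTop : Filter (Finset (CT (M ⊕ γ)))), {τ} ≤ T :=
      Filter.eventually_ge_atTop _
    have h2 : ∀ᶠ T in (U : Filter (Finset (CT (M ⊕ γ)))), {τ} ≤ T := Ultrafilter.of_le _ h1
    exact h2.mono fun T hT => hT (Finset.mem_singleton_self τ)
  have hαO : ∀ _ : Finset (CT (M ⊕ γ)), α ∈ OO ℤ_[p] ℂ_[p] := fun _ => h.alO
  -- the point in the ultrapower
  let a' : UP U ℂ_[p] := gm U (fun _ => α)
  let y' : UP U ℂ_[p] := gm U (fun T => (y T : ℂ_[p]))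
  let x' : γ → UP U ℂ_[p] := fun g => gm U (fun T => (x T g : ℂ_[p]))
  let m' : M → UP U ℂ_[p] := fun m => gm U (fun _ => (m : ℂ_[p]))
  let u' : Fin k → UP U ℂ_[p] := fun i => gm U (fun T => u T i)
  let vT : Option M ⊕ Option γ → Finset (CT (M ⊕ γ)) → ℂ_[p] := fun i T =>
    vl α (fun m : M => (m : ℂ_[p])) (y T : ℂ_[p]) (fun g => (x T g : ℂ_[p])) i
  have hvT : (fun i => gm U (vT i)) = vl a' m' y' x' := by
    funext i
    rcases i with i | i
    · rcases i with _ | m <;> rfl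
    · rcases i with _ | c <;> rfl
  have e1 : Re2 p a' ψ (vl a' m' y' x') := by
    rw [← hvT]
    refine (los2 U (fun _ => α) hαO ψ vT).2 (Filter.Eventually.of_forall fun T => ?_)
    exact hψ T
  have e2 : Re2 p a' (chi ψ k) (Sum.elim (vl a' m' y' x') u') := by
    have h1 : (Sum.elim (vl a' m' y' x') u') =
        fun i => gm U ((Sum.elim vT (fun i T => u T i) : _ → _ → ℂ_[p]) i) := by
      funext i
      rcases i with i | i
      · rw [← hvT]
        rfl
      · rfl
    rw [h1]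
    refine (los2 U (fun _ => α) hαO (chi ψ k) _).2 (Filter.Eventually.of_forall fun T => ?_)
    have h2 : (fun i => (Sum.elim vT (fun i T => u T i) : _ → _ → ℂ_[p]) i T) =
        Sum.elim (vl α (fun m : M => (m : ℂ_[p])) (y T : ℂ_[p]) (fun g => (x T g : ℂ_[p])))
          (u T) := by
      funext i
      rcases i with i | i <;> rfl
    rw [h2, re2_chi]
    exact hu T
  -- no certificate over `M, x*`
  have e3 : ¬ ∃ τ : CT (M ⊕ γ), τ.Has p a' (Sum.elim m' x') y' := by
    rintro ⟨τ, hτ⟩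
    let vv2 : Bool ⊕ (M ⊕ γ) → Finset (CT (M ⊕ γ)) → ℂ_[p] := fun i T => vT (g i) T
    have h1 := (re2_certF p τ a' (fun i => gm U (vv2 i)) rfl).2 (by
      have : (fun m => gm U (vv2 (Sum.inr m))) = Sum.elim m' x' := by
        funext m
        rcases m with m | m <;> rfl
      rw [this]
      exact hτ)
    have h2 := (los2 U (fun _ => α) hαO (certF τ) vv2).1 h1
    obtain ⟨T, hT, hTτ⟩ := (h2.and (hU τ)).exists
    refine hno T τ hTτ ?_
    have h3 := (re2_certF p τ α (fun i => vv2 i T) rfl).1 hT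
    have h4 : (fun m => vv2 (Sum.inr m) T) =
        (Sum.elim (fun m : M => (m : ℂ_[p])) (fun g => (x T g : ℂ_[p]))) := by
      funext m
      rcases m with m | m <;> rfl
    rw [h4] at h3
    exact h3
  rw [exists_has_iff_der] at e3
  push Not at e3
  obtain ⟨D0, hD0, hD0y⟩ := e3
  -- no certificate of `α` over `N`
  let w' : (Finset (CT (M ⊕ γ)) → M) → UP U ℂ_[p] := fun n => gm U (fun T => (n T : ℂ_[p]))
  have e4 : ¬ ∃ τ : CT (Finset (CT (M ⊕ γ)) → M), τ.Has p a' w' a' := by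
    rintro ⟨τ, hτ⟩
    let vv2 : Bool ⊕ (Finset (CT (M ⊕ γ)) → M) → Finset (CT (M ⊕ γ)) → ℂ_[p] :=
      Sum.elim (fun _ _ => α) (fun n T => (n T : ℂ_[p]))
    have h1 := (re2_certF p τ a' (fun i => gm U (vv2 i)) rfl).2 hτ
    have h2 := (los2 U (fun _ => α) hαO (certF τ) vv2).1 h1
    obtain ⟨T, hT⟩ := h2.exists
    have h3 := (re2_certF p τ α (fun i => vv2 i T) rfl).1 hT
    exact h.notMem (h.cert τ _ α (fun n => (n T).2) h3)
  rw [exists_has_iff_der] at e4
  push Not at e4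
  obtain ⟨D1, hD1, hD1a⟩ := e4
  -- the combination
  let D : Derivation ℤ (UP U ℂ_[p]) (UP U ℂ_[p]) := D0 - (D0 a' / D1 a') • D1
  have hD : ∀ z, D z = D0 z - D0 a' / D1 a' * D1 z := fun z => rfl
  have hDm : ∀ m, D (m' m) = 0 := by
    intro m
    have q0 : D0 (m' m) = 0 := hD0.1 (Sum.inl m)
    have q1 : D1 (m' m) = 0 := hD1.1 (fun _ => m)
    rw [hD, q0, q1, mul_zero, sub_zero]
  have hDx : ∀ c, D (x' c) = 0 := by
    intro c
    have q0 : D0 (x' c) = 0 := hD0.1 (Sum.inr c)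
    have q1 : D1 (x' c) = 0 := hD1.1 (fun T => x T c)
    rw [hD, q0, q1, mul_zero, sub_zero]
  have hDa : D a' = 0 := by
    rw [hD, div_mul_cancel₀ _ hD1a, sub_self]
  have hDy : D y' ≠ 0 := by
    have q1 : D1 y' = 0 := hD1.1 (fun T => y T)
    rw [hD, q1, mul_zero, sub_zero]
    exact hD0y
  have hDF : D ∈ DerF p a' (Empty.elim : Empty → UP U ℂ_[p]) := by
    refine (DerF p a' (Empty.elim : Empty → UP U ℂ_[p])).sub_mem ⟨fun e => e.elim, hD0.2⟩
      (Submodule.smul_mem _ _ ⟨fun e => e.elim, hD1.2⟩)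
  have haO : a' ∈ OO ℤ_[p] (UP U ℂ_[p]) :=
    (up_O U _).2 (Filter.Eventually.of_forall fun _ => h.alO)
  obtain ⟨Λ, _, _, _, j, Φ, h1, h2, h3, h4⟩ := exists_aut a' haO D hDF hDa y' hDy
  have f1 := (elem2 j a' haO ψ _).1 e1
  have f2 := (elem2 j a' haO (chi ψ k) _).1 e2
  have g1 : (fun i => j.toRingHom (vl a' m' y' x' i)) =
      vl (j.toRingHom a') (fun m => j.toRingHom (m' m)) (j.toRingHom y')
        (fun c => j.toRingHom (x' c)) := by
    funext i
    rcases i with i | i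
    · rcases i with _ | m <;> rfl
    · rcases i with _ | c <;> rfl
  have g2 : (fun i => j.toRingHom (Sum.elim (vl a' m' y' x') u' i)) =
      Sum.elim (vl (j.toRingHom a') (fun m => j.toRingHom (m' m)) (j.toRingHom y')
        (fun c => j.toRingHom (x' c))) (fun i => j.toRingHom (u' i)) := by
    funext i
    rcases i with i | i
    · rw [← g1]
      rfl
    · rfl
  rw [g1] at f1
  rw [g2, re2_chi] at f2
  have f3 := (re2_aut (j.toRingHom a') Φ h3 h4 ψ _).2 f1
  have g3 : (fun i => Φ (vl (j.toRingHom a') (fun m => j.toRingHom (m' m)) (j.toRingHom y')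
        (fun c => j.toRingHom (x' c)) i)) =
      vl (j.toRingHom a') (fun m => j.toRingHom (m' m)) (Φ (j.toRingHom y'))
        (fun c => j.toRingHom (x' c)) := by
    funext i
    rcases i with i | i
    · rcases i with _ | m
      · exact h1 _ hDa
      · exact h1 _ (hDm m)
    · rcases i with _ | c
      · rfl
      · exact h1 _ (hDx c)
  rw [g3] at f3
  obtain ⟨i, hi⟩ := f2 _ f3
  exact h2 _ hi

end Cm
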