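import Mathlib

/-! # Row D2: the closed unit ball of `ℂ_[p]` is uncountable (Mathlib only)

Proof: the complement of a countable set is dense (`Set.Countable.dense_compl` over `ℚ_[p]`), so it
meets the open unit ball. -/

namespace Cm

theorem ball_uncountable (p : ℕ) [Fact p.Prime] (T : Set ℂ_[p]) (hT : T.Countable) :
    ∃ x : ℂ_[p], ‖x‖ ≤ 1 ∧ x ∉ T := by
  have h : Dense Tᶜ := hT.dense_compl ℚ_[p]
  obtain ⟨x, hx, hxT⟩ := h.inter_open_nonempty (Metric.ball (0 : ℂ_[p]) 1) Metric.isOpen_ball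
    ⟨0, Metric.mem_ball_self one_pos⟩
  exact ⟨x, (mem_ball_zero_iff.mp hx).le, hxT⟩

end Cm
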