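import Pool.Agent.Lib.MP_c35b50_lc.Cm.DFin
import Pool.Agent.Lib.MP_c35b50_lc.Cm.ECert
import Pool.Agent.Lib.MP_c35b50_lc.Cm.Dense
import Pool.Agent.Lib.MP_c35b50_lc.Cm.Unc

/-!
# (D): existence of `α` and `M`
-/

namespace Cm

theorem isAlgebraic_int_iff {K : Type*} [Ring K] [Algebra ℤ K] (x : K) :
    IsAlgebraic ℤ x ↔
      ∃ q : Polynomial ℤ, q ≠ 0 ∧ Polynomial.eval₂ (Int.castRingHom K) x q = 0 := by
  refine exists_congr fun q => and_congr_right fun _ => ?_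
  rw [Polynomial.aeval_def]
  have e : (algebraMap ℤ K) = Int.castRingHom K := Subsingleton.elim _ _
  rw [e]

variable (p : ℕ) [Fact p.Prime]

/-- THE RESULT OF (D). -/
theorem exists_good : ∃ (α : ℂ_[p]) (M : Subfield ℂ_[p]), Good p α M := by
  have hchar : CharZero ℂ_[p] := KK.zero (p := p)
  have halg : IsAlgClosed ℂ_[p] := KK.alg (p := p)
  obtain ⟨α, hα, hnot⟩ := ball_uncountable p
    (⋃ τ : CT Empty, {a : ℂ_[p] | a ∈ OO ℤ_[p] ℂ_[p] ∧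
      τ.Has p a (Empty.elim : Empty → ℂ_[p]) a})
    (Set.countable_iUnion fun τ => (fin_type τ).countable)
  have hαO : α ∈ OO ℤ_[p] ℂ_[p] := (cp_O α).2 hα
  have h1 : ¬ ∃ τ : CT Empty, τ.Has p α (Empty.elim : Empty → ℂ_[p]) α := by
    rintro ⟨τ, hτ⟩
    exact hnot (Set.mem_iUnion.2 ⟨τ, hαO, hτ⟩)
  rw [exists_has_iff_der] at h1
  refine ⟨α, kerM p α, hαO, kerM_isAlgClosed p α, ?_, h1, ?_, ?_⟩
  · intro x z hx hxz
    exact kerM_gr p α x z hx hxz (one_add_ne_zero p hxz)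
  · intro x r hr
    obtain ⟨y, hy, hxy⟩ := algebraic_dense p x ‖r‖ (norm_pos_iff.2 hr)
    have hy' := (isAlgebraic_int_iff y).1 hy
    exact ⟨y, kerM_of_int p α y
      ((@isAlgebraic_int_iff ℂ_[p] _ (Ring.toIntAlgebra ℂ_[p]) y).2 hy'),
      (cp_vle _ _).2 hxy.le⟩
  · intro κ τ w c hw h
    exact kerM_cert p α τ w c hw h

end Cm
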