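import Pool.Agent.Lib.MP_c35b50_lc.Cm.Mt6

/-!
# MP_c35b50_lc, part (C): translation of `Lvf`-formulas over `(K, f_α)` into `L3 p`-formulas with the variable `α`;
Boolean combinations of balls.
-/

namespace Cm

open FirstOrder FirstOrder.Language

section tr

variable (p : ℕ)

/-- translation of terms -/
def trT {γ δ : Type*} (f : γ → δ) : Lvf.Term γ → (L3 p).Term δ
  | .var a => .var (f a)
  | .func (l := l) g ts => .func (l := l) g fun i => trT f (ts i)

/-- translation of formulas: `none` is the name of `α` -/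
def trB {γ : Type} : ∀ {n : ℕ}, Lvf.BoundedFormula γ n → (L3 p).BoundedFormula (Option γ) n
  | _, .falsum => .falsum
  | _, .equal t1 t2 => .equal (trT p (Sum.map some id) t1) (trT p (Sum.map some id) t2)
  | _, .rel Rl.le ts => .rel (l := 2) Rl3.dv fun i => trT p (Sum.map some id) (ts i)
  | _, .rel Rl.gr ts => .rel (l := 3) Rl3.ex ![trT p (Sum.map some id) (ts 0),
      .var (Sum.inl none), trT p (Sum.map some id) (ts 1)]
  | _, .imp φ ψ => .imp (trB φ) (trB ψ)
  | _, .all φ => .all (trB φ)

variable {p} [Fact p.Prime] {K : Type} [Field K] [TField ℤ_[p] K]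

theorem realize_trT (α : K) {γ δ : Type*} (f : γ → δ) (v : δ → K) (t : Lvf.Term γ) :
    (trT p f t).realize v = @Term.realize Lvf K (str2 p K α) γ (v ∘ f) t := by
  induction t with
  | var a => rfl
  | @func l g ts ih =>
    match l, g with
    | _, Fn.zero => rfl
    | _, Fn.one => rfl
    | _, Fn.neg => exact congrArg Neg.neg (ih 0)
    | _, Fn.add => exact congrArg₂ (· + ·) (ih 0) (ih 1)
    | _, Fn.mul => exact congrArg₂ (· * ·) (ih 0) (ih 1)

theorem realize_trB (α : K) (hα : α ∈ OO ℤ_[p] K) {γ : Type} {n : ℕ}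
    (φ : Lvf.BoundedFormula γ n) (v : γ → K) (xs : Fin n → K) :
    (trB p φ).Realize (oc α v) xs ↔ @BoundedFormula.Realize Lvf K (str2 p K α) γ n φ v xs := by
  have hs : ∀ (n : ℕ) (xs : Fin n → K), (Sum.elim (oc α v) xs) ∘ (Sum.map some id) =
      Sum.elim v xs := by
    intro n xs
    funext a
    rcases a with a | a <;> rfl
  induction φ with
  | falsum => exact Iff.rfl
  | equal t1 t2 =>
    simp only [trB, BoundedFormula.Realize, realize_trT α, hs]
  | @rel n l q ts =>
    match l, q with
    | _, Rl.le =>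
      simp only [trB, BoundedFormula.Realize, realize_trT α, hs]
      exact Iff.rfl
    | _, Rl.gr =>
      have h0 := realize_trT (p := p) α (Sum.map some id) (Sum.elim (oc α v) xs) (ts 0)
      have h1 := realize_trT (p := p) α (Sum.map some id) (Sum.elim (oc α v) xs) (ts 1)
      rw [hs] at h0 h1
      have h2 : (trB p (BoundedFormula.rel Rl.gr ts)).Realize (oc α v) xs ↔
          (α ∈ OO ℤ_[p] K ∧ Gr p α ((trT p (Sum.map some id) (ts 0)).realize (Sum.elim (oc α v) xs))
            ((trT p (Sum.map some id) (ts 1)).realize (Sum.elim (oc α v) xs))) := Iff.rfl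
      rw [h2, h0, h1]
      exact ⟨fun h => h.2, fun h => ⟨hα, h⟩⟩
  | imp φ ψ h1 h2 =>
    simp only [trB, BoundedFormula.Realize, h1, h2]
  | all φ ih =>
    simp only [trB, BoundedFormula.Realize, ih]

/-- the translation of a formula -/
def tr {γ : Type} (p : ℕ) (φ : Lvf.Formula γ) : (L3 p).Formula (Option γ) := trB p φ

theorem realize_tr (α : K) (hα : α ∈ OO ℤ_[p] K) {γ : Type} (φ : Lvf.Formula γ) (v : γ → K) :
    (tr p φ).Realize (oc α v) ↔ Re2 p α φ v :=
  realize_trB α hα φ v default

end tr

end Cm
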