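import Pool.Agent.Lib.MP_c35b50_lc.Cm.GenAut
import Pool.Agent.Lib.MP_c35b50_lc.Cm.CTargets
import Pool.Agent.Lib.MP_c35b50_lc.Cm.Mt7

/-!
# (D): for each type of certificates only finitely many `a ∈ O` have a certificate of this type
for `f_a` over the empty set
-/

namespace Cm

open FirstOrder

variable {p : ℕ} [Fact p.Prime]

/-- the set of `a ∈ O` with a certificate of type `τ` is definable in `L3` -/
theorem exists_typeF (τ : CT Empty) : ∃ φ : (L3 p).Formula (Empty ⊕ Unit),
    ∀ (K : Type) [Field K] [TField ℤ_[p] K] (v : Empty → K) (a : K),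
      (φ.Realize (Sum.elim v fun _ => a) ↔
        a ∈ OO ℤ_[p] K ∧ τ.Has p a (Empty.elim : Empty → K) a) := by
  let φ3 := tr p (certF τ)
  let O3 : (L3 p).Formula (Empty ⊕ Unit) :=
    Language.Relations.formula₂ (L := L3 p) (Rl3.dv : Rl3 2) (Language.Term.var (Sum.inr ()))
      (Language.Term.func (L := L3 p) (l := 0) Fn.one ![])
  refine ⟨O3 ⊓ Language.Formula.relabel
    (fun _ : Option (Bool ⊕ Empty) => (Sum.inr () : Empty ⊕ Unit)) φ3, ?_⟩
  intro K _ _ v a
  have h1 : O3.Realize (Sum.elim v fun _ => a) ↔ a ∈ OO ℤ_[p] K := by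
    have h2 : O3.Realize (Sum.elim v fun _ => a) ↔ vle p a (1 : K) :=
      Language.Formula.realize_rel₂
    rw [h2]
    constructor
    · rintro ⟨z, hz, h⟩
      rw [mul_one] at h
      rw [h]
      exact hz
    · intro h
      exact ⟨a, h, (mul_one a).symm⟩
  rw [Language.Formula.realize_inf, h1, Language.Formula.realize_relabel]
  refine and_congr_right fun ha => ?_
  have h2 : ((Sum.elim v fun _ => a) ∘ fun _ : Option (Bool ⊕ Empty) => (Sum.inr () : Empty ⊕ Unit))
      = oc a (fun _ => a) := by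
    funext i
    rcases i with _ | i <;> rfl
  rw [h2, realize_tr a ha, re2_certF p τ a _ rfl]
  have h4 : (fun m : Empty => (fun _ : Bool ⊕ Empty => a) (Sum.inr m)) =
      (Empty.elim : Empty → K) := by
    funext m
    exact m.elim
  rw [h4]

theorem fin_type {K : Type} [Field K] [TField ℤ_[p] K] [KK p K] (τ : CT Empty) :
    {a : K | a ∈ OO ℤ_[p] K ∧ τ.Has p a (Empty.elim : Empty → K) a}.Finite := by
  obtain ⟨φ, hφ⟩ := exists_typeF (p := p) τ
  obtain ⟨k, hk⟩ := cmin3 K φ
  have h1 := hk (Empty.elim : Empty → K)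
  have h2 : {y | φ.Realize (Sum.elim (Empty.elim : Empty → K) fun _ => y)} =
      {a : K | a ∈ OO ℤ_[p] K ∧ τ.Has p a (Empty.elim : Empty → K) a} := by
    ext a
    exact hφ K _ a
  rw [h2] at h1
  rcases bck_dich h1 with h3 | ⟨c, r, hr, hball⟩
  · exact h3.1
  · exfalso
    have hcO : c ∈ OO ℤ_[p] K :=
      (hball c ⟨0, (OO ℤ_[p] K).zero_mem, by rw [sub_self, zero_mul]⟩).1
    obtain ⟨Λ, _, _, _, j, a, haO, hac, D, hD, hDa⟩ := exists_gen (p := p) c hcO
    -- the formula `∀ y, |y - c| ≤ |r| → φ y` with variables `c = 0`, `r = 1`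
    let χ : (L3 p).Formula (Fin 2) := ∼ (Language.Formula.iExs Unit
      ((Language.Formula.relabel ![Sum.inr (), Sum.inl 0, Sum.inl 1] (ball3 p false)) ⊓
        ∼ (Language.Formula.relabel (Sum.elim Empty.elim (fun _ => Sum.inr ()) :
          Empty ⊕ Unit → Fin 2 ⊕ Unit) φ)))
    have hχ : ∀ (N : Type) [Field N] [TField ℤ_[p] N] (v : Fin 2 → N), χ.Realize v ↔
        ∀ y : N, vle p (y - v 0) (v 1) →
          (y ∈ OO ℤ_[p] N ∧ τ.Has p y (Empty.elim : Empty → N) y) := by
      intro N _ _ v
      simp only [χ, Language.Formula.realize_not, Language.Formula.realize_iExs,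
        Language.Formula.realize_inf, Language.Formula.realize_relabel, not_exists, not_and,
        not_not]
      have e1 : ∀ u : Unit → N, (Sum.elim v u) ∘ ![Sum.inr (), Sum.inl 0, Sum.inl 1] =
          ![u (), v 0, v 1] := by
        intro u
        funext i
        fin_cases i <;> rfl
      have e2 : ∀ u : Unit → N, (Sum.elim v u) ∘ (Sum.elim Empty.elim (fun _ => Sum.inr ()) :
          Empty ⊕ Unit → Fin 2 ⊕ Unit) = Sum.elim (Empty.elim : Empty → N) (fun _ => u ()) := by
        intro u
        funext i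
        rcases i with i | i
        · exact i.elim
        · rfl
      constructor
      · intro h y hy
        have h4 := h (fun _ => y)
        rw [e1, realize_ball3_false, e2, hφ] at h4
        exact h4 hy
      · intro h u
        rw [e1, realize_ball3_false, e2, hφ]
        exact h (u ())
    have h5 : χ.Realize ![c, r] := (hχ K _).2 fun y hy => hball y hy
    have h6 := (elem3 j χ _).1 h5
    have h7 := (hχ Λ _).1 h6 a (hac r hr)
    exact hDa ((exists_has_iff_der p a _ a).1 ⟨τ, h7.2⟩ D hD)

end Cm
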