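import Pool.Agent.Lib.MP_c35b50_lc.Cm.HahnT

/-!
# The chain rule for `d / dε` and the evaluation maps of `HahnSeries ℚ L`
-/

namespace Cm

open Pool.Agent.Lib.MP_c35b50_lc.Cm

noncomputable section

section DerExt

variable {P : Type} [CommRing P] {t : Type} [Finite t]

/-- a continuous derivation which kills the constants and the variables vanishes -/
theorem der_ext {A : Type} [CommRing A] (J : Ideal A) [IsHausdorff J A]
    (ψ : MvPowerSeries t P →+* A) (hJ : ∀ j, ψ (MvPowerSeries.X j) ∈ J)
    (E : MvPowerSeries t P → A) (hadd : ∀ F G, E (F + G) = E F + E G)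
    (hmul : ∀ F G, E (F * G) = E F * ψ G + ψ F * E G) (hC : ∀ r, E (MvPowerSeries.C r) = 0)
    (hX : ∀ j, E (MvPowerSeries.X j) = 0) (F : MvPowerSeries t P) : E F = 0 := by
  have hE : ∀ n : ℕ, ∀ G ∈ kk P t ^ (n + 1), E G ∈ J ^ n := by
    intro n
    induction n with
    | zero =>
      intro G _
      rw [pow_zero, Ideal.one_eq_top]
      exact Submodule.mem_top
    | succ n ih =>
      intro G hG
      rw [pow_succ (kk P t)] at hG
      refine Submodule.mul_induction_on hG (fun a ha b hb => ?_) (fun a b ha hb => ?_)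
      · rw [hmul]
        refine add_mem ?_ ?_
        · rw [pow_succ]
          refine Ideal.mul_mem_mul (ih a ha) ?_
          have h1 := map_kk_pow J ψ hJ 1 (F := b) (by rwa [pow_one])
          rwa [pow_one] at h1
        · exact Ideal.mul_mem_right _ _ (map_kk_pow J ψ hJ (n + 1) ha)
      · rw [hadd]
        exact add_mem ha hb
  have hp : ∀ q : MvPolynomial t P, E (q : MvPowerSeries t P) = 0 := by
    intro q
    induction q using MvPolynomial.induction_on with
    | C r =>
      rw [MvPolynomial.coe_C]
      exact hC r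
    | add q r h1 h2 => rw [MvPolynomial.coe_add, hadd, h1, h2, add_zero]
    | mul_X q i h => rw [MvPolynomial.coe_mul, hmul, h, MvPolynomial.coe_X, hX, mul_zero,
        zero_mul, add_zero]
  refine IsHausdorff.haus (I := J) inferInstance _ fun n => ?_
  rw [SModEq.zero, smul_eq_mul, Ideal.mul_top]
  obtain ⟨q, hq⟩ := exists_poly_approx F (n + 1)
  have h1 : E F = E (F - (q : MvPowerSeries t P)) := by
    have h2 := hadd (F - (q : MvPowerSeries t P)) (q : MvPowerSeries t P)
    rw [sub_add_cancel, hp, add_zero] at h2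
    exact h2
  rw [h1]
  exact hE n _ hq

theorem S_der_ext {R : Type} [CommRing R] {s : Type} {A : Type} [CommRing A] (J : Ideal A)
    [IsHausdorff J A] (ψ : S R s t →+* A) (hJ : ∀ j, ψ (rho j) ∈ J)
    (E : S R s t → A) (hadd : ∀ F G, E (F + G) = E F + E G)
    (hmul : ∀ F G, E (F * G) = E F * ψ G + ψ F * E G) (hc : ∀ r, E (cst R s t r) = 0)
    (hx : ∀ i, E (xi i) = 0) (hr : ∀ j, E (rho j) = 0) (F : S R s t) : E F = 0 := by
  refine der_ext J ψ hJ E hadd hmul (fun q => ?_) hr F
  induction q using MvPolynomial.induction_on with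
  | C r => exact hc r
  | add q r h1 h2 => rw [map_add, hadd, h1, h2, add_zero]
  | mul_X q i h =>
    rw [map_mul, hmul, h, zero_mul, zero_add]
    have h2 : E (MvPowerSeries.C (MvPolynomial.X i)) = 0 := hx i
    rw [h2, mul_zero]

end DerExt

section Der

variable {R : Type} [CommRing R] {s t : Type}

/-- the derivative with respect to the variable `xi i` -/
def dxi (i : s) (F : S R s t) : S R s t :=
  fun μ => MvPolynomial.pderiv i (MvPowerSeries.coeff μ F)

theorem coeff_dxi (i : s) (F : S R s t) (μ : t →₀ ℕ) :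
    MvPowerSeries.coeff μ (dxi i F) = MvPolynomial.pderiv i (MvPowerSeries.coeff μ F) := rfl

theorem dxi_add (i : s) (F G : S R s t) : dxi i (F + G) = dxi i F + dxi i G := by
  ext1 μ
  rw [coeff_dxi, map_add, map_add, map_add, coeff_dxi, coeff_dxi]

theorem dxi_mul (i : s) (F G : S R s t) : dxi i (F * G) = dxi i F * G + F * dxi i G := by
  classical
  ext1 μ
  rw [coeff_dxi, map_add, MvPowerSeries.coeff_mul, MvPowerSeries.coeff_mul,
    MvPowerSeries.coeff_mul, map_sum, ← Finset.sum_add_distrib]
  refine Finset.sum_congr rfl fun q _ => ?_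
  rw [(MvPolynomial.pderiv i).leibniz, coeff_dxi, coeff_dxi, smul_eq_mul, smul_eq_mul]
  ring

theorem dxi_C (i : s) (q : MvPolynomial s R) : dxi i (MvPowerSeries.C q : S R s t) =
    MvPowerSeries.C (MvPolynomial.pderiv i q) := by
  classical
  ext1 μ
  rw [coeff_dxi, MvPowerSeries.coeff_C, MvPowerSeries.coeff_C]
  split_ifs with h
  · rfl
  · rw [map_zero]

theorem dxi_cst (i : s) (r : R) : dxi i (cst R s t r) = 0 := by
  rw [cst, RingHom.comp_apply, dxi_C, MvPolynomial.pderiv_C, map_zero]

theorem dxi_xi_self (i : s) : dxi i (xi i : S R s t) = 1 := by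
  rw [xi, dxi_C, MvPolynomial.pderiv_X_self, map_one]

theorem dxi_xi_of_ne {i k : s} (h : k ≠ i) : dxi i (xi k : S R s t) = 0 := by
  rw [xi, dxi_C, MvPolynomial.pderiv_X_of_ne h, map_zero]

theorem dxi_rho (i : s) (j : t) : dxi i (rho j : S R s t) = 0 := by
  classical
  ext1 μ
  rw [coeff_dxi, rho, MvPowerSeries.coeff_X, map_zero]
  split_ifs with h
  · exact (MvPolynomial.pderiv i).map_one_eq_zero
  · rw [map_zero]

/-- the derivative with respect to the variable `rho j` -/
def drho (j : t) (F : S R s t) : S R s t := MvPowerSeries.pderiv (MvPolynomial s R) j F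

theorem drho_add (j : t) (F G : S R s t) : drho j (F + G) = drho j F + drho j G :=
  map_add _ F G

theorem drho_mul (j : t) (F G : S R s t) : drho j (F * G) = drho j F * G + F * drho j G := by
  rw [drho, (MvPowerSeries.pderiv (MvPolynomial s R) j).leibniz, smul_eq_mul, smul_eq_mul, drho,
    drho]
  ring

theorem drho_C (j : t) (q : MvPolynomial s R) : drho j (MvPowerSeries.C q : S R s t) = 0 :=
  MvPowerSeries.pderiv_C

theorem drho_cst (j : t) (r : R) : drho j (cst R s t r) = 0 := drho_C _ _

theorem drho_xi (j : t) (i : s) : drho j (xi i : S R s t) = 0 := drho_C _ _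

theorem drho_rho_self (j : t) : drho j (rho j : S R s t) = 1 := MvPowerSeries.pderiv_X_self

theorem drho_rho_of_ne {j k : t} (h : k ≠ j) : drho j (rho k : S R s t) = 0 :=
  MvPowerSeries.pderiv_X_of_ne h

variable [Finite s] [Finite t]

theorem tay_dxi (i : s) (F : S R s t) :
    MvPowerSeries.pderiv (S R s t) (Sum.inl i) (tay R s t F) = tay R s t (dxi i F) := by
  classical
  have h := S_der_ext (kc (MvPolynomial s R) (s ⊕ t) t) (tay R s t)
    (fun j => by
      rw [tay_rho]
      exact add_mem (CX_mem_kc _) (X_mem_kc _))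
    (fun F => MvPowerSeries.pderiv (S R s t) (Sum.inl i) (tay R s t F) - tay R s t (dxi i F))
    (fun F G => by
      simp only [map_add, dxi_add]
      ring)
    (fun F G => by
      simp only [map_mul, map_add, dxi_mul, Derivation.leibniz, smul_eq_mul]
      ring)
    (fun r => by
      simp only [tay_cst, dxi_cst, map_zero, sub_zero]
      exact MvPowerSeries.pderiv_C)
    (fun k => by
      simp only [tay_xi, map_add]
      rw [MvPowerSeries.pderiv_C, zero_add]
      by_cases hk : k = i
      · subst hk
        rw [MvPowerSeries.pderiv_X_self, dxi_xi_self, map_one, sub_self]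
      · rw [MvPowerSeries.pderiv_X_of_ne (fun h => hk (Sum.inl_injective h)), dxi_xi_of_ne hk,
          map_zero, sub_self])
    (fun j => by
      simp only [tay_rho, map_add]
      rw [MvPowerSeries.pderiv_C, zero_add, MvPowerSeries.pderiv_X_of_ne Sum.inr_ne_inl, dxi_rho,
        map_zero, sub_self]) F
  exact sub_eq_zero.1 h

theorem tay_drho (j : t) (F : S R s t) :
    MvPowerSeries.pderiv (S R s t) (Sum.inr j) (tay R s t F) = tay R s t (drho j F) := by
  classical
  have h := S_der_ext (kc (MvPolynomial s R) (s ⊕ t) t) (tay R s t)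
    (fun j => by
      rw [tay_rho]
      exact add_mem (CX_mem_kc _) (X_mem_kc _))
    (fun F => MvPowerSeries.pderiv (S R s t) (Sum.inr j) (tay R s t F) - tay R s t (drho j F))
    (fun F G => by
      simp only [map_add, drho_add]
      ring)
    (fun F G => by
      simp only [map_mul, map_add, drho_mul, Derivation.leibniz, smul_eq_mul]
      ring)
    (fun r => by
      simp only [tay_cst, drho_cst, map_zero, sub_zero]
      exact MvPowerSeries.pderiv_C)
    (fun i => by
      simp only [tay_xi, map_add]
      rw [MvPowerSeries.pderiv_C, zero_add, MvPowerSeries.pderiv_X_of_ne Sum.inl_ne_inr, drho_xi,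
        map_zero, sub_self])
    (fun k => by
      simp only [tay_rho, map_add]
      rw [MvPowerSeries.pderiv_C, zero_add]
      by_cases hk : k = j
      · subst hk
        rw [MvPowerSeries.pderiv_X_self, drho_rho_self, map_one, sub_self]
      · rw [MvPowerSeries.pderiv_X_of_ne (fun h => hk (Sum.inr_injective h)), drho_rho_of_ne hk,
          map_zero, sub_self]) F
  exact sub_eq_zero.1 h

theorem pderiv_map {u A B : Type} [CommRing A] [CommRing B] (f : A →+* B) (i : u)
    (G : MvPowerSeries u A) : MvPowerSeries.pderiv B i (MvPowerSeries.map f G) =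
      MvPowerSeries.map f (MvPowerSeries.pderiv A i G) := by
  ext κ
  rw [MvPowerSeries.coeff_pderiv, MvPowerSeries.coeff_map, MvPowerSeries.coeff_map,
    MvPowerSeries.coeff_pderiv, map_mul, map_add, map_natCast, map_one]

variable {A : Type} [CommRing A] [TRing R A]

theorem TT_dxi (a : s → A) (b : t → A) (h : Dom R a b) (i : s) (F : S R s t) :
    MvPowerSeries.pderiv A (Sum.inl i) (TT a b h F) = TT a b h (dxi i F) := by
  rw [TT_apply, pderiv_map, tay_dxi, TT_apply]

theorem TT_drho (a : s → A) (b : t → A) (h : Dom R a b) (j : t) (F : S R s t) :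
    MvPowerSeries.pderiv A (Sum.inr j) (TT a b h F) = TT a b h (drho j F) := by
  rw [TT_apply, pderiv_map, tay_drho, TT_apply]

end Der

section Hahn

variable {L : Type} [Field L] [CharZero L]

theorem hth_He {u : Type} [Fintype u] (c : u → HahnSeries ℚ L) (hc : ∀ i, Iz (c i))
    (G : MvPowerSeries u L) :
    hth L (He c hc G) = ∑ i, He c hc (MvPowerSeries.pderiv L i G) * hth L (c i) := by
  classical
  obtain ⟨q, hq, hqc⟩ := exists_q hc
  have := isHausdorff_Jq (L := L) hq
  have hmem : ∀ G : MvPowerSeries u L,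
      Dv 0 (hth L (He c hc G) - ∑ i, He c hc (MvPowerSeries.pderiv L i G) * hth L (c i)) := by
    intro G
    have h1 : ∑ i, He c hc (MvPowerSeries.pderiv L i G) * hth L (c i) ∈ Ov ℚ L :=
      sum_mem fun i _ => (Ov ℚ L).mul_mem (Dv_He c hc _) (Dv_hth (hc i).dv)
    exact (Ov ℚ L).sub_mem (Dv_hth (Dv_He c hc G)) h1
  have h := der_ext (Jq L q) (HeV c hc)
    (fun j => by
      rw [mem_Jq, ← He_apply, He_X]
      exact hqc j)
    (fun G => ⟨_, hmem G⟩)
    (fun F G => by
      apply Subtype.ext
      show hth L (He c hc (F + G)) - ∑ i, He c hc (MvPowerSeries.pderiv L i (F + G)) * hth L (c i)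
        = (hth L (He c hc F) - ∑ i, He c hc (MvPowerSeries.pderiv L i F) * hth L (c i)) +
          (hth L (He c hc G) - ∑ i, He c hc (MvPowerSeries.pderiv L i G) * hth L (c i))
      simp only [map_add, add_mul, Finset.sum_add_distrib]
      ring)
    (fun F G => by
      apply Subtype.ext
      show hth L (He c hc (F * G)) - ∑ i, He c hc (MvPowerSeries.pderiv L i (F * G)) * hth L (c i)
        = (hth L (He c hc F) - ∑ i, He c hc (MvPowerSeries.pderiv L i F) * hth L (c i)) *
            He c hc G + He c hc F *
          (hth L (He c hc G) - ∑ i, He c hc (MvPowerSeries.pderiv L i G) * hth L (c i))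
      have h1 : ∀ i, He c hc (MvPowerSeries.pderiv L i (F * G)) * hth L (c i) =
          He c hc (MvPowerSeries.pderiv L i F) * hth L (c i) * He c hc G +
          He c hc F * (He c hc (MvPowerSeries.pderiv L i G) * hth L (c i)) := by
        intro i
        rw [(MvPowerSeries.pderiv L i).leibniz, smul_eq_mul, smul_eq_mul, map_add, map_mul,
          map_mul]
        ring
      rw [Finset.sum_congr rfl fun i _ => h1 i, Finset.sum_add_distrib, ← Finset.sum_mul,
        ← Finset.mul_sum, map_mul, DerZ.mul]
      ring)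
    (fun r => by
      apply Subtype.ext
      show hth L (He c hc (MvPowerSeries.C r)) -
        ∑ i, He c hc (MvPowerSeries.pderiv L i (MvPowerSeries.C r)) * hth L (c i) = 0
      have h1 : ∀ i, He c hc (MvPowerSeries.pderiv L i (MvPowerSeries.C r)) * hth L (c i) = 0 := by
        intro i
        rw [MvPowerSeries.pderiv_C, map_zero, zero_mul]
      rw [Finset.sum_congr rfl fun i _ => h1 i, Finset.sum_const_zero, sub_zero, He_C, hth_eq,
        hd_C, mul_zero])
    (fun j => by
      apply Subtype.ext
      show hth L (He c hc (MvPowerSeries.X j)) -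
        ∑ i, He c hc (MvPowerSeries.pderiv L i (MvPowerSeries.X j)) * hth L (c i) = 0
      rw [Finset.sum_eq_single j, MvPowerSeries.pderiv_X_self, map_one, one_mul, He_X, sub_self]
      · intro i _ hij
        rw [MvPowerSeries.pderiv_X_of_ne (Ne.symm hij), map_zero, zero_mul]
      · intro hj
        exact absurd (Finset.mem_univ j) hj) G
  exact sub_eq_zero.1 (congrArg Subtype.val h)

variable {R : Type} [CommRing R] [TRing R L] {s t : Type} [Fintype s] [Fintype t]
  {a : s → HahnSeries ℚ L} {b : t → HahnSeries ℚ L}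

theorem hth_ev (F : S R s t) (h : Dom R a b) :
    hth L (ev F a b) = ∑ i, ev (dxi i F) a b * hth L (a i) +
      ∑ j, ev (drho j F) a b * hth L (b j) := by
  have h1 : ∀ x : HahnSeries ℚ L, hth L (x - HahnSeries.C (x.coeff 0)) = hth L x := by
    intro x
    rw [map_sub, hth_eq (HahnSeries.C _), hd_C, mul_zero, sub_zero]
  rw [ev_hahn F h, hth_He, Fintype.sum_sum_type]
  congr 1
  · refine Finset.sum_congr rfl fun i _ => ?_
    rw [TT_dxi, ← ev_hahn _ h]
    congr 1
    exact h1 _
  · refine Finset.sum_congr rfl fun j _ => ?_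
    rw [TT_drho, ← ev_hahn _ h]
    congr 1
    exact h1 _

/-- the chain rule -/
theorem hd_ev (F : S R s t) (h : Dom R a b) :
    hd L (ev F a b) = ∑ i, ev (dxi i F) a b * hd L (a i) +
      ∑ j, ev (drho j F) a b * hd L (b j) := by
  rw [hd_apply, hth_ev F h, mul_add, Finset.mul_sum, Finset.mul_sum]
  congr 1
  · refine Finset.sum_congr rfl fun i _ => ?_
    rw [hd_apply]
    ring
  · refine Finset.sum_congr rfl fun j _ => ?_
    rw [hd_apply]
    ring

end Hahn

end

end Cm
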