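import Pool.Agent.Lib.MP_c35b50_lc.Cm.HahnT
import Pool.Agent.Lib.MP_c35b50_lc.Cm.Mod

/-! # `HahnSeries ℚ L` is in the class `KK` -/

namespace Cm

open Pool.Agent.Lib.MP_c35b50_lc.Cm

variable (p : ℕ) [Fact p.Prime] (L : Type) [Field L] [TField ℤ_[p] L]

instance instKKHahn [KK p L] : KK p (HahnSeries ℚ L) where
  alg := by
    have : IsAlgClosed L := KK.alg p
    exact instIsAlgClosedHahnRat
  zero := by
    have : CharZero L := KK.zero p
    exact charZero_of_injective_ringHom (HahnSeries.C_injective : Function.Injective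
      (HahnSeries.C : L →+* HahnSeries ℚ L))
  pm := by
    have h : (p : L) ∈ mm ℤ_[p] L := KK.pm
    have h1 := (C_mem_mm (R := ℤ_[p]) (L := L)).2 h
    rwa [map_natCast] at h1

end Cm
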