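import Pool.Agent.Lib.MP_c35b50_lc.Cm.DGenA
import Pool.Agent.Lib.MP_c35b50_lc.Cm.HahnC
import Pool.Agent.Lib.MP_c35b50_lc.Cm.HahnK

/-!
# (D): the generic element `a = α0 + ε` of `HahnSeries ℚ L`
-/

namespace Cm

open Pool.Agent.Lib.MP_c35b50_lc.Cm

variable {p : ℕ} [Fact p.Prime] {L : Type} [Field L] [TField ℤ_[p] L]

/-- the derivative of `exp (p ^ 2 ρ)` -/
theorem drho_Xser : drho () (Xser p) = (p : S ℤ_[p] Empty Unit) ^ 2 * Xser p := by
  have h1 : ((p : S ℤ_[p] Empty Unit) ^ 2) =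
      MvPowerSeries.C (MvPolynomial.C ((p : ℤ_[p]) ^ 2)) := by
    rw [map_pow, map_natCast, map_pow, map_natCast]
  rw [h1]
  refine MvPowerSeries.ext fun μ => ?_
  rw [MvPowerSeries.coeff_C_mul, drho, MvPowerSeries.coeff_pderiv]
  have h3 : ∀ ν : Unit →₀ ℕ, MvPowerSeries.coeff ν (Xser p) = MvPolynomial.C (pk p (ν ())) := by
    intro ν
    rw [MvPowerSeries.coeff_apply]
    rfl
  have h2 : MvPowerSeries.coeff (μ + Finsupp.single () 1) (Xser p) =
      MvPolynomial.C (pk p (μ () + 1)) := by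
    rw [h3, Finsupp.add_apply, Finsupp.single_eq_same]
  rw [h2, h3 μ]
  generalize μ () = n
  have h4 : (MvPolynomial.C (((n + 1 : ℕ) : ℤ_[p])) : MvPolynomial Empty ℤ_[p]) =
      (n : MvPolynomial Empty ℤ_[p]) + 1 := by
    rw [Nat.cast_add, Nat.cast_one, map_add, map_one, map_natCast]
  rw [← MvPolynomial.C_mul, ← Se.pk_succ, MvPolynomial.C_mul, h4, mul_comm]

variable [KK p L]

theorem hd_xx (ρ : HahnSeries ℚ L) (hρ : ρ ∈ mm ℤ_[p] (HahnSeries ℚ L)) :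
    haveI : CharZero L := KK.zero p
    hd L (xx p ρ) = (p : HahnSeries ℚ L) ^ 2 * xx p ρ * hd L ρ := by
  have : CharZero L := KK.zero p
  have hdom : Dom ℤ_[p] (fun i : Empty => (i.elim : HahnSeries ℚ L)) (fun _ : Unit => ρ) :=
    ⟨fun i => i.elim, fun _ => hρ⟩
  have h1 := hd_ev (Xser p) hdom
  rw [Finset.univ_eq_empty, Finset.sum_empty, zero_add, Finset.univ_unique,
    Finset.sum_singleton] at h1
  have h2 : ev (drho () (Xser p)) (fun i : Empty => (i.elim : HahnSeries ℚ L))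
      (fun _ : Unit => ρ) = (p : HahnSeries ℚ L) ^ 2 * xx p ρ := by
    rw [drho_Xser, ← evHom_apply _ _ hdom, map_mul, map_pow, map_natCast, evHom_apply]
    rfl
  change hd L (ev (Xser p) _ _) = _
  rw [h1]
  congr 1

theorem exists_gen_hahn (α0 : L) (hα : α0 ∈ OO ℤ_[p] L) :
    ∃ (Λ : Type) (_ : Field Λ) (_ : TField ℤ_[p] Λ) (_ : KK p Λ) (j : THom ℤ_[p] L Λ) (a : Λ),
      a ∈ OO ℤ_[p] Λ ∧ (∀ r : L, r ≠ 0 → vle p (a - j.toRingHom α0) (j.toRingHom r)) ∧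
      ∃ D ∈ DerF p a (Empty.elim : Empty → Λ), D a ≠ 0 := by
  have : CharZero L := KK.zero p
  have : IsAlgClosed L := KK.alg p
  have hIz : Iz (HahnSeries.single (1 : ℚ) (1 : L)) := by
    intro h hh
    rw [HahnSeries.coeff_single_of_ne]
    intro h1
    rw [h1] at hh
    exact absurd hh (by norm_num)
  have hεO : (HahnSeries.single (1 : ℚ) (1 : L)) ∈ OO ℤ_[p] (HahnSeries ℚ L) :=
    TRing.m_le _ (mem_mm_of_Iz hIz)
  have haO : HahnSeries.C α0 + HahnSeries.single (1 : ℚ) (1 : L) ∈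
      OO ℤ_[p] (HahnSeries ℚ L) := add_mem (C_mem_OO.2 hα) hεO
  refine ⟨HahnSeries ℚ L, inferInstance, inferInstance, inferInstance, hC ℤ_[p] L,
    HahnSeries.C α0 + HahnSeries.single (1 : ℚ) (1 : L), haO, ?_, ?_⟩
  · intro r hr
    have hr' : (HahnSeries.C r : HahnSeries ℚ L) ≠ 0 := by
      rw [Ne, map_eq_zero]
      exact hr
    refine ⟨HahnSeries.C r⁻¹ * HahnSeries.single (1 : ℚ) (1 : L), ?_, ?_⟩
    · have h1 : Iz (HahnSeries.C r⁻¹ * HahnSeries.single (1 : ℚ) (1 : L)) :=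
        Iz.mul (Dv_C _) hIz
      exact TRing.m_le _ (mem_mm_of_Iz h1)
    · change HahnSeries.C α0 + HahnSeries.single (1 : ℚ) (1 : L) - HahnSeries.C α0 =
        HahnSeries.C r⁻¹ * HahnSeries.single (1 : ℚ) (1 : L) * HahnSeries.C r
      rw [map_inv₀, mul_right_comm, inv_mul_cancel₀ hr', one_mul, add_sub_cancel_left]
  · obtain ⟨D, hD, hDa⟩ := der_gen_abs (p := p) (Λ := HahnSeries ℚ L) (L := L) HahnSeries.C
      (hd L) (fun c => hd_C c) (fun x hx => ⟨_, ((hd_eq_zero_iff x).1 hx).symm⟩)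
      (fun ρ hρ => hd_xx ρ hρ) (HahnSeries.C α0 + HahnSeries.single (1 : ℚ) (1 : L)) haO (by
        rw [map_add, hd_C, zero_add, hd_eps])
    exact ⟨D, hD, by rw [hDa]; exact one_ne_zero⟩

end Cm
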