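import Pool.Agent.Lib.MP_c35b50_lc.Cm.TComp
import Pool.Agent.Lib.MP_c35b50_lc.Cm.Mod

/-! # Row A8: the series `exp (p^2 ρ)`, `p^(-2) log (1 + p^2 ρ)`, `(1 + p^2 ρ)^ξ` -/

namespace Cm

section ser

variable (p : ℕ) [Fact p.Prime]

/-- `exp (p ^ 2 ρ)` -/
noncomputable def Xser : S ℤ_[p] Empty Unit := fun μ => MvPolynomial.C (pk p (μ ()))

/-- the coefficient `(-1) ^ (k + 1) p ^ (2 (k - 1)) / k` (zero for `k = 0`) as a `p`-adic integer -/
noncomputable def lk (k : ℕ) : ℤ_[p] :=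
  if h : ‖((-1 : ℚ_[p]) ^ (k + 1) * (p : ℚ_[p]) ^ (2 * (k - 1)) / (k : ℚ_[p]))‖ ≤ 1 then
    ⟨(-1 : ℚ_[p]) ^ (k + 1) * (p : ℚ_[p]) ^ (2 * (k - 1)) / (k : ℚ_[p]), h⟩ else 0

/-- `p ^ (-2) log (1 + p ^ 2 ρ)` -/
noncomputable def Lser : S ℤ_[p] Empty Unit := fun μ => MvPolynomial.C (lk p (μ ()))

end ser

namespace Se

section coef

variable (p : ℕ) [hp : Fact p.Prime]

theorem pk_norm (k : ℕ) : ‖((p : ℚ_[p]) ^ (2 * k) / (k.factorial : ℚ_[p]))‖ ≤ 1 := by
  have hp0 : (0 : ℝ) < (p : ℝ) := by exact_mod_cast hp.out.pos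
  have hk : (k.factorial : ℚ_[p]) ≠ 0 := by exact_mod_cast k.factorial_ne_zero
  rw [norm_div, norm_pow, Padic.norm_p, Padic.norm_eq_zpow_neg_valuation hk,
    Padic.valuation_natCast]
  have hv : padicValNat p k.factorial ≤ 2 * k := by
    have h1 := sub_one_mul_padicValNat_factorial (p := p) k
    have h2 : padicValNat p k.factorial ≤ (p - 1) * padicValNat p k.factorial :=
      Nat.le_mul_of_pos_left _ (by have := hp.out.two_le; omega)
    omega
  rw [inv_pow, zpow_neg, zpow_natCast, div_inv_eq_mul, inv_mul_le_iff₀ (by positivity), mul_one]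
  exact pow_le_pow_right₀ (by exact_mod_cast hp.out.one_le) hv

theorem pk_coe (k : ℕ) : ((pk p k : ℤ_[p]) : ℚ_[p]) = (p : ℚ_[p]) ^ (2 * k) / (k.factorial : ℚ_[p]) := by
  unfold pk
  rw [dif_pos (pk_norm p k)]

theorem pk_zero : pk p 0 = 1 := by
  apply Subtype.ext
  rw [pk_coe]
  simp

theorem pk_fac (k : ℕ) : pk p k * (k.factorial : ℤ_[p]) = (p : ℤ_[p]) ^ (2 * k) := by
  apply Subtype.ext
  rw [PadicInt.coe_mul, pk_coe, PadicInt.coe_pow, PadicInt.coe_natCast, PadicInt.coe_natCast]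
  exact div_mul_cancel₀ _ (by exact_mod_cast k.factorial_ne_zero)

theorem pk_succ (k : ℕ) : ((k + 1 : ℕ) : ℤ_[p]) * pk p (k + 1) = (p : ℤ_[p]) ^ 2 * pk p k := by
  have h1 := pk_fac p (k + 1)
  have h2 := pk_fac p k
  have h3 : (k.factorial : ℤ_[p]) ≠ 0 := by exact_mod_cast k.factorial_ne_zero
  refine mul_right_cancel₀ h3 ?_
  rw [mul_assoc ((p : ℤ_[p]) ^ 2), h2, ← pow_add]
  rw [Nat.factorial_succ, Nat.cast_mul] at h1
  rw [show 2 + 2 * k = 2 * (k + 1) by ring, ← h1]
  ring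

theorem pk_choose {i j n : ℕ} (h : i + j = n) :
    pk p n * (n.choose i : ℤ_[p]) = pk p i * pk p j := by
  subst h
  have h1 := pk_fac p (i + j)
  have h2 := pk_fac p i
  have h3 := pk_fac p j
  have h4 : ((i.factorial * j.factorial : ℕ) : ℤ_[p]) ≠ 0 := by
    exact_mod_cast (Nat.mul_ne_zero i.factorial_ne_zero j.factorial_ne_zero)
  refine mul_right_cancel₀ h4 ?_
  have h5 : (i + j).choose i * i.factorial * j.factorial = (i + j).factorial := by
    rw [Nat.choose_symm_add]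
    exact Nat.add_choose_mul_factorial_mul_factorial i j
  calc pk p (i + j) * ((i + j).choose i : ℤ_[p]) * ((i.factorial * j.factorial : ℕ) : ℤ_[p])
      = pk p (i + j) * (((i + j).choose i * i.factorial * j.factorial : ℕ) : ℤ_[p]) := by
        push_cast
        ring
    _ = (p : ℤ_[p]) ^ (2 * (i + j)) := by rw [h5, h1]
    _ = (p : ℤ_[p]) ^ (2 * i) * (p : ℤ_[p]) ^ (2 * j) := by ring
    _ = _ := by
        rw [← h2, ← h3]
        push_cast
        ring

theorem lk_norm (k : ℕ) :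
    ‖((-1 : ℚ_[p]) ^ (k + 1) * (p : ℚ_[p]) ^ (2 * (k - 1)) / (k : ℚ_[p]))‖ ≤ 1 := by
  rcases Nat.eq_zero_or_pos k with rfl | hk
  · simp
  have hk0 : (k : ℚ_[p]) ≠ 0 := by exact_mod_cast hk.ne'
  have hp0 : (0 : ℝ) < (p : ℝ) := by exact_mod_cast hp.out.pos
  rw [norm_div, norm_mul, norm_pow, norm_neg, norm_one, one_pow, one_mul, norm_pow, Padic.norm_p,
    Padic.norm_eq_zpow_neg_valuation hk0, Padic.valuation_natCast]
  have hv : padicValNat p k ≤ 2 * (k - 1) := by
    have h1 : padicValNat p k ≤ Nat.log p k := padicValNat_le_nat_log k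
    have h2 : Nat.log p k < k := Nat.log_lt_self p hk.ne'
    omega
  rw [inv_pow, zpow_neg, zpow_natCast, div_inv_eq_mul, inv_mul_le_iff₀ (by positivity), mul_one]
  exact pow_le_pow_right₀ (by exact_mod_cast hp.out.one_le) hv

theorem lk_coe (k : ℕ) : ((lk p k : ℤ_[p]) : ℚ_[p]) =
    (-1 : ℚ_[p]) ^ (k + 1) * (p : ℚ_[p]) ^ (2 * (k - 1)) / (k : ℚ_[p]) := by
  unfold lk
  rw [dif_pos (lk_norm p k)]

theorem lk_zero : lk p 0 = 0 := by
  apply Subtype.ext
  rw [lk_coe]
  simp

theorem lk_succ (k : ℕ) : ((k + 1 : ℕ) : ℤ_[p]) * lk p (k + 1) = (-(p : ℤ_[p]) ^ 2) ^ k := by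
  apply Subtype.ext
  rw [PadicInt.coe_mul, lk_coe, PadicInt.coe_pow, PadicInt.coe_neg, PadicInt.coe_pow,
    PadicInt.coe_natCast, PadicInt.coe_natCast, mul_div_cancel₀ _ (by exact_mod_cast k.succ_ne_zero),
    Nat.add_sub_cancel]
  have h : (-(p : ℚ_[p]) ^ 2) ^ k = (-1) ^ k * (p : ℚ_[p]) ^ (2 * k) := by
    rw [neg_pow, ← pow_mul]
  rw [h]
  ring

end coef

/-! ### the chain rule -/

section chain

open PowerSeries

theorem chain_rule {P P' : Type} [CommRing P] [CommRing P']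
    (θ : PowerSeries P →+* PowerSeries P') (hC : ∀ r, derivative P' (θ (C r)) = 0)
    (hX : (X : PowerSeries P') ∣ θ X) (F : PowerSeries P) :
    derivative P' (θ F) = θ (derivative P F) * derivative P' (θ X) := by
  have key : ∀ (n : ℕ) (F : PowerSeries P), (X : PowerSeries P') ^ n ∣
      derivative P' (θ F) - θ (derivative P F) * derivative P' (θ X) := by
    intro n
    induction n with
    | zero => intro F; simp
    | succ n ih =>
      intro F
      obtain ⟨G, c, rfl⟩ : ∃ G c, F = G * X + C c :=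
        ⟨_, _, PowerSeries.eq_shift_mul_X_add_const F⟩
      have h1 : derivative P' (θ (G * X + C c)) -
          θ (derivative P (G * X + C c)) * derivative P' (θ X) =
          θ X * (derivative P' (θ G) - θ (derivative P G) * derivative P' (θ X)) := by
        rw [map_add, map_mul, map_add, hC, map_add (derivative P), Derivation.leibniz,
          Derivation.leibniz, derivative_C, derivative_X]
        simp only [smul_eq_mul, mul_one, add_zero, map_add, map_mul]
        ring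
      rw [h1, pow_succ']
      exact mul_dvd_mul hX (ih G)
  rw [← sub_eq_zero]
  ext m
  rw [map_zero]
  exact PowerSeries.X_pow_dvd_iff.1 (key (m + 1) F) m (Nat.lt_succ_self m)

theorem deriv_C_mul {P : Type} [CommRing P] (c : P) (G : PowerSeries P) :
    derivative P (C c * G) = C c * derivative P G := by
  rw [Derivation.leibniz, derivative_C, smul_zero, add_zero, smul_eq_mul]

end chain

/-! ### the formal identities -/

section formal

open PowerSeries

variable (p : ℕ) [hp : Fact p.Prime]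

theorem coeff_Xser (k : ℕ) : PowerSeries.coeff k (Xser p) = MvPolynomial.C (pk p k) := by
  change MvPolynomial.C (pk p ((Finsupp.single () k) ())) = _
  rw [Finsupp.single_eq_same]

theorem coeff_Lser (k : ℕ) : PowerSeries.coeff k (Lser p) = MvPolynomial.C (lk p k) := by
  change MvPolynomial.C (lk p ((Finsupp.single () k) ())) = _
  rw [Finsupp.single_eq_same]

theorem coeff_Eser (k : ℕ) : PowerSeries.coeff k (Eser p) = MvPolynomial.C (pk p k) *
    ∏ i ∈ Finset.range k, (MvPolynomial.X () - MvPolynomial.C ((i : ℤ_[p]))) := by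
  change MvPolynomial.C (pk p ((Finsupp.single () k) ())) * ∏ i ∈ Finset.range
    ((Finsupp.single () k) ()), (MvPolynomial.X () - MvPolynomial.C ((i : ℤ_[p]))) = _
  rw [Finsupp.single_eq_same]

/-- the logarithm, with a dummy variable -/
noncomputable def Lun : S ℤ_[p] Unit Unit := ren (fun i : Empty => i.elim) id (Lser p)

theorem coeff_Lun (k : ℕ) : PowerSeries.coeff k (Lun p) = MvPolynomial.C (lk p k) := by
  have h := coeff_ren (R := ℤ_[p]) (fun i : Empty => (i.elim : Unit)) (Function.Embedding.refl Unit)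
    (Lser p) (Finsupp.single () k)
  rw [Finsupp.embDomain_single] at h
  refine h.trans ?_
  refine (congrArg (MvPolynomial.rename _) (coeff_Lser p k)).trans ?_
  rw [MvPolynomial.rename_C]

theorem deriv_Xser : derivative _ (Xser p) = C (MvPolynomial.C ((p : ℤ_[p]) ^ 2)) * Xser p := by
  ext1 k
  rw [coeff_derivative, coeff_C_mul, coeff_Xser, coeff_Xser, ← map_mul, ← pk_succ, map_mul]
  simp only [map_natCast]
  push_cast
  ring

theorem deriv_Lun : (1 + C (MvPolynomial.C ((p : ℤ_[p]) ^ 2)) * X) * derivative _ (Lun p) = 1 := by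
  ext1 k
  have h : ∀ k, PowerSeries.coeff k (derivative _ (Lun p)) =
      MvPolynomial.C ((-(p : ℤ_[p]) ^ 2) ^ k) := by
    intro k
    rw [coeff_derivative, coeff_Lun, ← lk_succ, map_mul]
    simp only [map_natCast]
    push_cast
    ring
  rw [add_mul, one_mul, map_add, mul_assoc, coeff_C_mul, h]
  cases k with
  | zero => simp
  | succ k =>
    rw [coeff_succ_X_mul, h, ← map_mul, ← map_add, coeff_one, if_neg k.succ_ne_zero, pow_succ]
    rw [show (-(p : ℤ_[p]) ^ 2) ^ k * -(p : ℤ_[p]) ^ 2 +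
      (p : ℤ_[p]) ^ 2 * (-(p : ℤ_[p]) ^ 2) ^ k = 0 by ring, map_zero]

/-- a series with the differential equation of `(1 + p ^ 2 ρ) ^ ξ` -/
theorem eq_Eser {F : S ℤ_[p] Unit Unit} (h0 : PowerSeries.constantCoeff F = 1)
    (h1 : (1 + C (MvPolynomial.C ((p : ℤ_[p]) ^ 2)) * X) * derivative _ F =
      C (MvPolynomial.C ((p : ℤ_[p]) ^ 2) * MvPolynomial.X ()) * F) : F = Eser p := by
  have hrec : ∀ k : ℕ, ((k + 1 : ℕ) : MvPolynomial Unit ℤ_[p]) * PowerSeries.coeff (k + 1) F =
      MvPolynomial.C ((p : ℤ_[p]) ^ 2) * (MvPolynomial.X () - (k : MvPolynomial Unit ℤ_[p])) *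
        PowerSeries.coeff k F := by
    intro k
    have h2 := congrArg (PowerSeries.coeff k) h1
    rw [add_mul, one_mul, map_add, mul_assoc, coeff_C_mul, coeff_C_mul, coeff_derivative] at h2
    cases k with
    | zero =>
      simp only [coeff_zero_X_mul, mul_zero, add_zero] at h2
      push_cast at h2 ⊢
      linear_combination h2
    | succ k =>
      rw [coeff_succ_X_mul, coeff_derivative] at h2
      push_cast at h2 ⊢
      linear_combination h2
  ext1 k
  induction k with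
  | zero =>
    rw [coeff_Eser, pk_zero]
    simpa using h0
  | succ k ih =>
    have h3 : ((k + 1 : ℕ) : MvPolynomial Unit ℤ_[p]) ≠ 0 := by exact_mod_cast k.succ_ne_zero
    refine mul_left_cancel₀ h3 ?_
    rw [hrec k, ih, coeff_Eser, coeff_Eser, Finset.prod_range_succ]
    have h4 : ((k + 1 : ℕ) : MvPolynomial Unit ℤ_[p]) * MvPolynomial.C (pk p (k + 1)) =
        MvPolynomial.C ((p : ℤ_[p]) ^ 2) * MvPolynomial.C (pk p k) := by
      rw [← map_mul, ← pk_succ, map_mul, map_natCast]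
    simp only [map_natCast]
    linear_combination (-(∏ i ∈ Finset.range k, (MvPolynomial.X () -
      (i : MvPolynomial Unit ℤ_[p]))) * (MvPolynomial.X () - (k : MvPolynomial Unit ℤ_[p]))) * h4

/-- exponential of `ξ log` -/
theorem Xser_Lun (θ : S ℤ_[p] Empty Unit →+* S ℤ_[p] Unit Unit)
    (hc : ∀ r, θ (cst ℤ_[p] Empty Unit r) = cst ℤ_[p] Unit Unit r)
    (hr : θ (rho ()) = xi () * Lun p) : θ (Xser p) = Eser p := by
  have hC : ∀ q : MvPolynomial Empty ℤ_[p], ∃ r : ℤ_[p],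
      θ (C q) = C (MvPolynomial.C r) ∧ q = MvPolynomial.C r := by
    intro q
    obtain ⟨r, rfl⟩ := MvPolynomial.C_surjective (R := ℤ_[p]) Empty q
    exact ⟨r, hc r, rfl⟩
  have hL : (X : PowerSeries (MvPolynomial Unit ℤ_[p])) ∣ Lun p := by
    rw [PowerSeries.X_dvd_iff, ← coeff_zero_eq_constantCoeff_apply, coeff_Lun, lk_zero, map_zero]
  have hX : (X : PowerSeries (MvPolynomial Unit ℤ_[p])) ∣ θ X :=
    (Dvd.dvd.mul_left hL (xi ())).trans (dvd_of_eq hr.symm)
  have hch := chain_rule θ (fun q => by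
    obtain ⟨r, hr, -⟩ := hC q
    rw [hr, derivative_C]) hX (Xser p)
  refine eq_Eser p ?_ ?_
  · obtain ⟨G, c, hG⟩ : ∃ G c, Xser p = G * X + C c :=
      ⟨_, _, PowerSeries.eq_shift_mul_X_add_const (Xser p)⟩
    have hc1 : c = 1 := by
      have h1 := congrArg (PowerSeries.coeff 0) hG
      rw [coeff_Xser, pk_zero, map_one] at h1
      simpa using h1.symm
    obtain ⟨Y, hY⟩ := hX
    rw [hG, hc1, map_one, map_add, map_one, map_mul, hY]
    simp
  · rw [deriv_Xser, map_mul] at hch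
    have h1 : θ (C (MvPolynomial.C ((p : ℤ_[p]) ^ 2))) = C (MvPolynomial.C ((p : ℤ_[p]) ^ 2)) :=
      hc _
    have h2 : derivative _ (θ X) = C (MvPolynomial.X ()) * derivative _ (Lun p) := by
      have h3 : θ X = C (MvPolynomial.X ()) * Lun p := hr
      rw [h3, deriv_C_mul]
    rw [h1, h2] at hch
    have h4 := deriv_Lun p
    rw [hch, map_mul C]
    linear_combination (C (MvPolynomial.C ((p : ℤ_[p]) ^ 2)) * θ (Xser p) *
      C (MvPolynomial.X ())) * h4

end formal

/-! ### specialization of `ξ` to a natural number -/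

section spec

variable (p : ℕ) [hp : Fact p.Prime]

/-- specialization of `ξ` to the natural number `m` -/
noncomputable def spc (t : Type) (m : ℕ) : S ℤ_[p] Unit t →+* S ℤ_[p] Unit t :=
  MvPowerSeries.map (MvPolynomial.eval₂Hom MvPolynomial.C
    (fun _ => (m : MvPolynomial Unit ℤ_[p])))

theorem spc_C (t : Type) (m : ℕ) (q : MvPolynomial Unit ℤ_[p]) :
    spc p t m (MvPowerSeries.C q) = MvPowerSeries.C (MvPolynomial.eval₂Hom MvPolynomial.C
      (fun _ => (m : MvPolynomial Unit ℤ_[p])) q) := MvPowerSeries.map_C _ _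

theorem spc_cst (t : Type) (m : ℕ) (r : ℤ_[p]) :
    spc p t m (cst ℤ_[p] Unit t r) = cst ℤ_[p] Unit t r := by
  change spc p t m (MvPowerSeries.C (MvPolynomial.C r)) = MvPowerSeries.C (MvPolynomial.C r)
  rw [spc_C, MvPolynomial.eval₂Hom_C]

theorem spc_xi (t : Type) (m : ℕ) (i : Unit) : spc p t m (xi i) = (m : S ℤ_[p] Unit t) := by
  change spc p t m (MvPowerSeries.C (MvPolynomial.X i)) = _
  rw [spc_C, MvPolynomial.eval₂Hom_X', map_natCast]

theorem spc_rho (t : Type) (m : ℕ) (j : t) : spc p t m (rho j) = rho j :=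
  MvPowerSeries.map_X _ _

theorem spc_inj (t : Type) (F G : S ℤ_[p] Unit t) (h : ∀ m, spc p t m F = spc p t m G) :
    F = G := by
  refine MvPowerSeries.ext fun μ => ?_
  refine MvPolynomial.funext_set (fun _ : Unit => Set.range ((↑) : ℕ → ℤ_[p]))
    (fun _ => Set.infinite_range_of_injective Nat.cast_injective) fun x hx => ?_
  obtain ⟨m, hm⟩ := hx () trivial
  have h1 := congrArg (MvPolynomial.eval (0 : Unit → ℤ_[p]))
    (congrArg (MvPowerSeries.coeff μ) (h m))
  have h2 : ∀ q : MvPolynomial Unit ℤ_[p], MvPolynomial.eval (0 : Unit → ℤ_[p])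
      (MvPolynomial.eval₂Hom MvPolynomial.C (fun _ => (m : MvPolynomial Unit ℤ_[p])) q) =
      MvPolynomial.eval x q := by
    intro q
    have h3 : (MvPolynomial.eval (0 : Unit → ℤ_[p])).comp
        (MvPolynomial.eval₂Hom MvPolynomial.C (fun _ => (m : MvPolynomial Unit ℤ_[p]))) =
        MvPolynomial.eval x := by
      refine MvPolynomial.ringHom_ext (fun r => ?_) fun i => ?_
      · rw [RingHom.comp_apply, MvPolynomial.eval₂Hom_C, MvPolynomial.eval_C, MvPolynomial.eval_C]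
      · rw [RingHom.comp_apply, MvPolynomial.eval₂Hom_X', map_natCast, MvPolynomial.eval_X]
        exact hm
    exact RingHom.congr_fun h3 q
  rw [← h2, ← h2]
  exact h1

theorem pk_prod (m k : ℕ) : pk p k * ∏ i ∈ Finset.range k, ((m : ℤ_[p]) - (i : ℤ_[p])) =
    ((p : ℤ_[p]) ^ 2) ^ k * (m.choose k : ℤ_[p]) := by
  rw [← descPochhammer_eval_eq_prod_range, descPochhammer_eval_eq_descFactorial,
    Nat.descFactorial_eq_factorial_mul_choose, Nat.cast_mul, ← mul_assoc, pk_fac, pow_mul]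

theorem spc_Eser (m : ℕ) : spc p Unit m (Eser p) = (1 + (p : S ℤ_[p] Unit Unit) ^ 2 * rho ()) ^ m := by
  have h1 : (1 + (p : S ℤ_[p] Unit Unit) ^ 2 * rho ()) ^ m =
      PowerSeries.rescale (MvPolynomial.C ((p : ℤ_[p]) ^ 2))
        (((1 + Polynomial.X : Polynomial (MvPolynomial Unit ℤ_[p])) ^ m : Polynomial _) :
          PowerSeries (MvPolynomial Unit ℤ_[p])) := by
    rw [Polynomial.coe_pow, Polynomial.coe_add, Polynomial.coe_one, Polynomial.coe_X, map_pow,
      map_add, map_one, PowerSeries.rescale_X]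
    congr 3
    rw [map_pow, map_pow, map_natCast, map_natCast]
  rw [h1]
  refine PowerSeries.ext fun k => ?_
  rw [PowerSeries.coeff_rescale, Polynomial.coeff_coe, Polynomial.coeff_one_add_X_pow]
  have h2 : PowerSeries.coeff k (spc p Unit m (Eser p)) =
      MvPolynomial.eval₂Hom MvPolynomial.C (fun _ => (m : MvPolynomial Unit ℤ_[p]))
        (PowerSeries.coeff k (Eser p)) := rfl
  have h3 := pk_prod p m k
  rw [h2, coeff_Eser, map_mul, map_prod, MvPolynomial.eval₂Hom_C]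
  have h4 := congrArg (MvPolynomial.C : ℤ_[p] →+* MvPolynomial Unit ℤ_[p]) h3
  rw [map_mul, map_mul, map_prod, map_pow, map_natCast] at h4
  rw [← h4]
  congr 1
  refine Finset.prod_congr rfl fun i _ => ?_
  rw [map_sub, map_sub, MvPolynomial.eval₂Hom_X', MvPolynomial.eval₂Hom_C, map_natCast,
    map_natCast]

theorem mem_rr_iff {R : Type} [CommRing R] {s t : Type} {F : S R s t} :
    F ∈ rr R s t ↔ MvPowerSeries.constantCoeff F = 0 := RingHom.mem_ker

theorem rho_mem {R : Type} [CommRing R] {s t : Type} (j : t) : (rho j : S R s t) ∈ rr R s t :=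
  mem_rr_iff.2 (MvPowerSeries.constantCoeff_X _)

/-- multiplicativity of `(1 + p ^ 2 ρ) ^ ξ` -/
theorem Eser_mul (θ : S ℤ_[p] Unit Unit →+* S ℤ_[p] Unit Bool)
    (hc : ∀ r, θ (cst ℤ_[p] Unit Unit r) = cst ℤ_[p] Unit Bool r)
    (hx : ∀ i, θ (xi i) = xi i)
    (hr : ∀ j, θ (rho j) = rho false + rho true +
      (p : S ℤ_[p] Unit Bool) ^ 2 * rho false * rho true) :
    θ (Eser p) = ren id (fun _ => false) (Eser p) * ren id (fun _ => true) (Eser p) := by
  refine spc_inj p Bool _ _ fun m => ?_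
  have hmem : (rho false + rho true + (p : S ℤ_[p] Unit Bool) ^ 2 * rho false * rho true :
      S ℤ_[p] Unit Bool) ∈ rr ℤ_[p] Unit Bool :=
    Ideal.add_mem _ (Ideal.add_mem _ (rho_mem _) (rho_mem _))
      (Ideal.mul_mem_left _ _ (rho_mem _))
  have h1 : (spc p Bool m).comp θ = θ.comp (spc p Unit m) := by
    refine comp_unique _ _ (fun r => ?_) (fun i => ?_) (fun j => ?_) fun j => ?_
    · rw [RingHom.comp_apply, RingHom.comp_apply, hc, spc_cst, spc_cst, hc]
    · rw [RingHom.comp_apply, RingHom.comp_apply, hx, spc_xi, spc_xi, map_natCast]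
    · rw [RingHom.comp_apply, RingHom.comp_apply, spc_rho, hr, map_add, map_add, map_mul, map_mul,
        map_pow, map_natCast, spc_rho, spc_rho]
    · rw [RingHom.comp_apply, hr, map_add, map_add, map_mul, map_mul,
        map_pow, map_natCast, spc_rho, spc_rho]
      exact hmem
  have h2 : ∀ b : Bool, (spc p Bool m).comp (ren id (fun _ : Unit => b)) =
      (ren id (fun _ : Unit => b)).comp (spc p Unit m) := by
    intro b
    refine comp_unique _ _ (fun r => ?_) (fun i => ?_) (fun j => ?_) fun j => ?_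
    · rw [RingHom.comp_apply, RingHom.comp_apply, ren_cst, spc_cst, spc_cst, ren_cst]
    · rw [RingHom.comp_apply, RingHom.comp_apply, ren_xi, spc_xi, spc_xi, map_natCast]
    · rw [RingHom.comp_apply, RingHom.comp_apply, spc_rho, ren_rho, spc_rho]
    · rw [RingHom.comp_apply, ren_rho, spc_rho]
      exact rho_mem _
  have h3 := RingHom.congr_fun h1 (Eser p)
  have h4 := RingHom.congr_fun (h2 false) (Eser p)
  have h5 := RingHom.congr_fun (h2 true) (Eser p)
  rw [RingHom.comp_apply, RingHom.comp_apply, spc_Eser] at h3 h4 h5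
  rw [h3, map_mul, h4, h5, map_pow, map_pow, map_pow, ← mul_pow]
  congr 1
  simp only [map_add, map_one, map_mul, map_pow, map_natCast, hr, ren_rho]
  ring

/-- the substitution of `c ρ` for `ρ` -/
noncomputable def scl (c : MvPolynomial Bool ℤ_[p]) : S ℤ_[p] Empty Unit →+* S ℤ_[p] Bool Unit :=
  (PowerSeries.rescale c).comp
    (PowerSeries.map (MvPolynomial.rename (fun i : Empty => (i.elim : Bool)) :
      MvPolynomial Empty ℤ_[p] →ₐ[ℤ_[p]] MvPolynomial Bool ℤ_[p]).toRingHom)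

theorem scl_cst (c : MvPolynomial Bool ℤ_[p]) (r : ℤ_[p]) :
    scl p c (cst ℤ_[p] Empty Unit r) = cst ℤ_[p] Bool Unit r := by
  change PowerSeries.rescale c (PowerSeries.map _ (PowerSeries.C (MvPolynomial.C r))) =
    PowerSeries.C (MvPolynomial.C r)
  rw [PowerSeries.map_C]
  have h1 : (MvPolynomial.rename (fun i : Empty => (i.elim : Bool)) :
      MvPolynomial Empty ℤ_[p] →ₐ[ℤ_[p]] MvPolynomial Bool ℤ_[p]).toRingHom
        (MvPolynomial.C r) = MvPolynomial.C r := MvPolynomial.rename_C _ r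
  rw [h1]
  refine PowerSeries.ext fun k => ?_
  rw [PowerSeries.coeff_rescale, PowerSeries.coeff_C]
  split_ifs with h
  · rw [h, pow_zero, one_mul]
  · rw [mul_zero]

theorem scl_rho (c : MvPolynomial Bool ℤ_[p]) (j : Unit) :
    scl p c (rho j) = MvPowerSeries.C c * rho j := by
  change PowerSeries.rescale c (PowerSeries.map _ PowerSeries.X) = PowerSeries.C c * PowerSeries.X
  rw [PowerSeries.map_X, PowerSeries.rescale_X]

theorem coeff_scl (c : MvPolynomial Bool ℤ_[p]) (k : ℕ) :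
    PowerSeries.coeff k (scl p c (Xser p)) = c ^ k * MvPolynomial.C (pk p k) := by
  change PowerSeries.coeff k (PowerSeries.rescale c (PowerSeries.map _ (Xser p))) = _
  rw [PowerSeries.coeff_rescale, PowerSeries.coeff_map, coeff_Xser]
  congr 1
  exact MvPolynomial.rename_C _ _

theorem scl_add (c d : MvPolynomial Bool ℤ_[p]) :
    scl p (c + d) (Xser p) = scl p c (Xser p) * scl p d (Xser p) := by
  refine PowerSeries.ext fun n => ?_
  rw [PowerSeries.coeff_mul, coeff_scl, (Commute.all c d).add_pow', Finset.sum_mul]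
  refine Finset.sum_congr rfl fun ij hij => ?_
  rw [Finset.HasAntidiagonal.mem_antidiagonal] at hij
  have h1 := congrArg (MvPolynomial.C : ℤ_[p] →+* MvPolynomial Bool ℤ_[p]) (pk_choose p hij)
  rw [map_mul, map_mul, map_natCast] at h1
  rw [coeff_scl, coeff_scl, nsmul_eq_mul]
  linear_combination (c ^ ij.1 * d ^ ij.2) * h1

end spec

end Se

open Se

variable (p : ℕ) [Fact p.Prime]

variable {p} {K : Type} [Field K] [TField ℤ_[p] K]

/-- `exp (p ^ 2 ρ)` -/
noncomputable def xx (p : ℕ) [Fact p.Prime] {K : Type} [Field K] [TField ℤ_[p] K] (ρ : K) : K :=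
  ev (Xser p) (fun i => i.elim) (fun _ => ρ)

/-- `p ^ (-2) log (1 + p ^ 2 ρ)` -/
noncomputable def ll (p : ℕ) [Fact p.Prime] {K : Type} [Field K] [TField ℤ_[p] K] (ρ : K) : K :=
  ev (Lser p) (fun i => i.elim) (fun _ => ρ)

theorem ll_mem (ρ : K) (hρ : ρ ∈ mm ℤ_[p] K) : ll p ρ ∈ mm ℤ_[p] K := by
  refine ev_mem_m _ ?_ _ _ ⟨fun i => i.elim, fun _ => hρ⟩
  rw [mem_rr_iff]
  have h1 := coeff_Lser p 0
  rw [lk_zero, map_zero, PowerSeries.coeff_zero_eq_constantCoeff_apply] at h1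
  exact h1

namespace Se

/-- domain of the series in one variable -/
theorem domE {ρ : K} (hρ : ρ ∈ mm ℤ_[p] K) :
    Dom ℤ_[p] (fun i : Empty => (i.elim : K)) (fun _ : Unit => ρ) :=
  ⟨fun i => i.elim, fun _ => hρ⟩

theorem domU {α ρ : K} (hα : α ∈ OO ℤ_[p] K) (hρ : ρ ∈ mm ℤ_[p] K) :
    Dom ℤ_[p] (fun _ : Unit => α) (fun _ : Unit => ρ) :=
  ⟨fun _ => hα, fun _ => hρ⟩

/-- a series with constant term `1` has its values in `1 + m` -/
theorem ev_sub_one {s t : Type} [Finite s] [Finite t] (F : S ℤ_[p] s t)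
    (hF : MvPowerSeries.constantCoeff F = 1) (a : s → K) (b : t → K) (h : Dom ℤ_[p] a b) :
    ev F a b - 1 ∈ mm ℤ_[p] K := by
  have h1 : F - 1 ∈ rr ℤ_[p] s t := by
    rw [mem_rr_iff, map_sub, hF, map_one, sub_self]
  have h2 := ev_mem_m (F - 1) h1 a b h
  have h3 : ev (F - 1) a b = ev F a b - 1 := by
    rw [← evHom_apply a b h, map_sub, map_one, evHom_apply]
  rw [h3] at h2
  exact h2

/-- a series with constant term `1` has the value `1` at `0` -/
theorem ev_at_zero {s t : Type} [Finite s] [Finite t] (F : S ℤ_[p] s t)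
    (hF : MvPowerSeries.constantCoeff F = 1) (a : s → K) (ha : ∀ i, a i ∈ OO ℤ_[p] K) :
    ev F a (fun _ : t => (0 : K)) = 1 := by
  have h : Dom ℤ_[p] a (fun _ : t => (0 : K)) := ⟨ha, fun _ => TRing.m_zero⟩
  have h1 : F - 1 ∈ kk (MvPolynomial s ℤ_[p]) t := by
    change MvPowerSeries.constantCoeff (F - 1) = 0
    rw [map_sub, hF, map_one, sub_self]
  have _ := Fintype.ofFinite t
  obtain ⟨G, hG⟩ := (mem_kk_iff_sum _).1 h1
  have h2 : evHom a (fun _ : t => (0 : K)) h (F - 1) = 0 := by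
    rw [hG, map_sum]
    refine Finset.sum_eq_zero fun j _ => ?_
    rw [map_mul]
    have h3 : evHom a (fun _ : t => (0 : K)) h (rho j : S ℤ_[p] s t) = 0 :=
      TRing.T_rho a _ h.1 h.2 j
    have h4 : evHom a (fun _ : t => (0 : K)) h (MvPowerSeries.X j) = 0 := h3
    rw [h4, zero_mul]
  rw [map_sub, map_one, evHom_apply, sub_eq_zero] at h2
  exact h2

theorem cc_Xser : MvPowerSeries.constantCoeff (Xser p) = 1 := by
  have h1 := coeff_Xser p 0
  rw [pk_zero, map_one, PowerSeries.coeff_zero_eq_constantCoeff_apply] at h1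
  exact h1

theorem cc_Eser : MvPowerSeries.constantCoeff (Eser p) = 1 := by
  have h1 := coeff_Eser p 0
  rw [pk_zero, map_one, Finset.range_zero, Finset.prod_empty, mul_one,
    PowerSeries.coeff_zero_eq_constantCoeff_apply] at h1
  exact h1

theorem xx_zero : xx p (0 : K) = 1 :=
  ev_at_zero (K := K) (Xser p) cc_Xser (fun i => i.elim) (fun i => i.elim)

theorem OO_natCast (m : ℕ) : (m : K) ∈ OO ℤ_[p] K := natCast_mem _ m

/-- `exp (p ^ 2 c u)` for a polynomial `c` in two variables with values in `O` -/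
theorem ev_scl (c : MvPolynomial Bool ℤ_[p]) (a : Bool → K) (ha : ∀ i, a i ∈ OO ℤ_[p] K) (u : K)
    (hu : u ∈ mm ℤ_[p] K) :
    ev (scl p c (Xser p)) a (fun _ => u) =
      xx p (MvPolynomial.eval₂ (base ℤ_[p] K) a c * u) := by
  have h : Dom ℤ_[p] a (fun _ : Unit => u) := ⟨ha, fun _ => hu⟩
  rw [ev_comp (scl p c) (scl_cst p c) (fun j => by
    rw [scl_rho]
    exact Ideal.mul_mem_left _ _ (rho_mem j)) (Xser p) a (fun _ => u) h]
  unfold xx
  congr 1
  · funext i
    exact i.elim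
  · funext j
    rw [scl_rho, ← evHom_apply a _ h, map_mul, evHom_apply, evHom_apply, ev_C _ _ _ h]
    congr 1
    exact TRing.T_rho a _ h.1 h.2 j

theorem xx_add_aux (a b u : K) (ha : a ∈ OO ℤ_[p] K) (hb : b ∈ OO ℤ_[p] K)
    (hu : u ∈ mm ℤ_[p] K) : xx p (a * u + b * u) = xx p (a * u) * xx p (b * u) := by
  have hd : ∀ i : Bool, (fun i : Bool => if i then b else a) i ∈ OO ℤ_[p] K := by
    rintro (_ | _)
    · simpa using ha
    · simpa using hb
  have h : Dom ℤ_[p] (fun i : Bool => if i then b else a) (fun _ : Unit => u) :=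
    ⟨hd, fun _ => hu⟩
  have h1 := ev_scl (MvPolynomial.X false) _ hd u hu
  have h2 := ev_scl (MvPolynomial.X true) _ hd u hu
  have h3 := ev_scl (MvPolynomial.X false + MvPolynomial.X true) _ hd u hu
  rw [scl_add, ← evHom_apply _ _ h, map_mul, evHom_apply, evHom_apply, h1, h2] at h3
  simp only [MvPolynomial.eval₂_add, MvPolynomial.eval₂_X, if_true, Bool.false_eq_true,
    if_false] at h3
  rw [h3, add_mul]

end Se

theorem xx_add (ρ θ : K) (hρ : ρ ∈ mm ℤ_[p] K) (hθ : θ ∈ mm ℤ_[p] K) :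
    xx p (ρ + θ) = xx p ρ * xx p θ := by
  by_cases hρ0 : ρ = 0
  · rw [hρ0, zero_add, xx_zero, one_mul]
  by_cases hθ0 : θ = 0
  · rw [hθ0, add_zero, xx_zero, mul_one]
  rcases TField.total (R := ℤ_[p]) (ρ / θ) with h | h
  · have h1 := xx_add_aux (ρ / θ) 1 θ h (Subring.one_mem _) hθ
    rw [div_mul_cancel₀ _ hθ0, one_mul] at h1
    exact h1
  · rw [inv_div] at h
    have h1 := xx_add_aux 1 (θ / ρ) ρ (Subring.one_mem _) h hρ
    rw [div_mul_cancel₀ _ hρ0, one_mul] at h1
    exact h1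

theorem xx_sub_one (ρ : K) (hρ : ρ ∈ mm ℤ_[p] K) : xx p ρ - 1 ∈ mm ℤ_[p] K :=
  ev_sub_one (K := K) (Xser p) cc_Xser _ _ (domE hρ)

theorem ee_eq (α ρ : K) (hα : α ∈ OO ℤ_[p] K) (hρ : ρ ∈ mm ℤ_[p] K) :
    ee (p := p) α ρ = xx p (α * ll p ρ) := by
  have hL : Lun p ∈ rr ℤ_[p] Unit Unit := by
    rw [mem_rr_iff]
    have h1 := coeff_Lun p 0
    rw [lk_zero, map_zero, PowerSeries.coeff_zero_eq_constantCoeff_apply] at h1
    exact h1
  obtain ⟨θ, hc, -, hr⟩ := exists_comp (R := ℤ_[p]) (s := Empty) (t := Unit)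
    (fun i => i.elim) (fun _ : Unit => (xi () * Lun p : S ℤ_[p] Unit Unit))
    (fun _ => Ideal.mul_mem_left _ _ hL)
  have h1 := ev_comp θ hc (fun j => by
    rw [hr]
    exact Ideal.mul_mem_left _ _ hL) (Xser p) (fun _ => α) (fun _ => ρ) (domU hα hρ)
  rw [Xser_Lun p θ hc (hr ())] at h1
  unfold ee
  rw [h1]
  unfold xx
  congr 1
  · funext i
    exact i.elim
  · funext j
    rw [hr, ← evHom_apply _ _ (domU hα hρ), map_mul, evHom_apply, evHom_apply]
    congr 1
    · exact TRing.T_xi _ _ (domU hα hρ).1 (domU hα hρ).2 ()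
    · unfold Lun ll
      have h2 := TRing.T_ren (R := ℤ_[p]) (fun i : Empty => (i.elim : Unit)) (id : Unit → Unit)
        (Lser p) (fun _ => α) (fun _ => ρ) (domU hα hρ).1 (domU hα hρ).2
      refine h2.trans ?_
      congr 1
      funext i
      exact i.elim

namespace Se

/-- `(1 + p ^ 2 ρ) ^ m` for a natural number `m` -/
theorem ee_nat (m : ℕ) (ρ : K) (hρ : ρ ∈ mm ℤ_[p] K) :
    ee (p := p) (m : K) ρ = (1 + (p : K) ^ 2 * ρ) ^ m := by
  have hd := domU (OO_natCast (p := p) (K := K) m) hρ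
  have h1 := ev_comp (spc p Unit m) (spc_cst p Unit m) (fun j => by
    rw [spc_rho]
    exact rho_mem j) (Eser p) (fun _ => (m : K)) (fun _ => ρ) hd
  rw [spc_Eser] at h1
  have h2 : ev ((1 + (p : S ℤ_[p] Unit Unit) ^ 2 * rho ()) ^ m) (fun _ => (m : K))
      (fun _ => ρ) = (1 + (p : K) ^ 2 * ρ) ^ m := by
    rw [← evHom_apply _ _ hd, map_pow, map_add, map_one, map_mul, map_pow, map_natCast,
      evHom_apply]
    congr 3
    exact TRing.T_rho _ _ hd.1 hd.2 ()
  rw [h2] at h1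
  rw [h1]
  unfold ee
  congr 1
  · funext i
    rw [spc_xi, ← evHom_apply _ _ hd, map_natCast]
  · funext j
    rw [spc_rho]
    exact (TRing.T_rho _ _ hd.1 hd.2 j).symm

end Se

theorem xx_ll (ρ : K) (hρ : ρ ∈ mm ℤ_[p] K) : xx p (ll p ρ) = 1 + (p : K) ^ 2 * ρ := by
  have h1 := ee_nat (p := p) 1 ρ hρ
  have h2 := ee_eq (p := p) 1 ρ (Subring.one_mem _) hρ
  rw [Nat.cast_one, pow_one] at h1
  rw [one_mul] at h2
  rw [← h2, h1]

theorem ee_mul (α ρ θ : K) (hα : α ∈ OO ℤ_[p] K) (hρ : ρ ∈ mm ℤ_[p] K) (hθ : θ ∈ mm ℤ_[p] K) :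
    ee (p := p) α (ρ + θ + (p : K) ^ 2 * ρ * θ) = ee (p := p) α ρ * ee (p := p) α θ := by
  have hmem : (rho false + rho true + (p : S ℤ_[p] Unit Bool) ^ 2 * rho false * rho true :
      S ℤ_[p] Unit Bool) ∈ rr ℤ_[p] Unit Bool :=
    Ideal.add_mem _ (Ideal.add_mem _ (rho_mem _) (rho_mem _))
      (Ideal.mul_mem_left _ _ (rho_mem _))
  obtain ⟨φ, hc, hx, hr⟩ := exists_comp (R := ℤ_[p]) (s := Unit) (t := Unit)
    (fun i => (xi i : S ℤ_[p] Unit Bool)) (fun _ : Unit => (rho false + rho true +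
      (p : S ℤ_[p] Unit Bool) ^ 2 * rho false * rho true : S ℤ_[p] Unit Bool)) (fun _ => hmem)
  have hd : Dom ℤ_[p] (fun _ : Unit => α) (fun i : Bool => if i then θ else ρ) := by
    refine ⟨fun _ => hα, ?_⟩
    rintro (_ | _)
    · simpa using hρ
    · simpa using hθ
  have h1 := ev_comp φ hc (fun j => by
    rw [hr]
    exact hmem) (Eser p) _ _ hd
  rw [Eser_mul p φ hc hx hr, ← evHom_apply _ _ hd, map_mul, evHom_apply, evHom_apply] at h1
  have h2 : ∀ b : Bool, ev (ren id (fun _ : Unit => b) (Eser p)) (fun _ : Unit => α)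
      (fun i : Bool => if i then θ else ρ) = ee (p := p) α (if b then θ else ρ) := fun b =>
    TRing.T_ren _ _ _ _ _ hd.1 hd.2
  rw [h2, h2] at h1
  have h3 : (fun i : Unit => ev (φ (xi i)) (fun _ : Unit => α)
      (fun i : Bool => if i then θ else ρ)) = fun _ => α := by
    funext i
    rw [hx]
    exact TRing.T_xi _ _ hd.1 hd.2 i
  have h4 : (fun j : Unit => ev (φ (rho j)) (fun _ : Unit => α)
      (fun i : Bool => if i then θ else ρ)) = fun _ => ρ + θ + (p : K) ^ 2 * ρ * θ := by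
    funext j
    have h5 : ∀ b : Bool, evHom _ _ hd (rho b : S ℤ_[p] Unit Bool) = if b then θ else ρ :=
      fun b => TRing.T_rho _ _ hd.1 hd.2 b
    rw [hr, ← evHom_apply _ _ hd, map_add, map_add, map_mul, map_mul, map_pow, map_natCast, h5,
      h5]
    simp
  rw [h3, h4] at h1
  have h6 := h1.symm
  simp only [if_true, Bool.false_eq_true, if_false] at h6
  exact h6

theorem ee_zero (α : K) (hα : α ∈ OO ℤ_[p] K) : ee (p := p) α 0 = 1 :=
  ev_at_zero (K := K) (Eser p) cc_Eser (fun _ => α) (fun _ => hα)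

theorem ee_sub_one (α ρ : K) (hα : α ∈ OO ℤ_[p] K) (hρ : ρ ∈ mm ℤ_[p] K) :
    ee (p := p) α ρ - 1 ∈ mm ℤ_[p] K :=
  ev_sub_one (K := K) (Eser p) cc_Eser _ _ (domU hα hρ)

theorem ee_ne_zero (α ρ : K) (hα : α ∈ OO ℤ_[p] K) (hρ : ρ ∈ mm ℤ_[p] K) :
    ee (p := p) α ρ ≠ 0 := by
  intro h0
  have h1 := ee_sub_one (p := p) α ρ hα hρ
  rw [h0, zero_sub] at h1
  obtain ⟨h2, h3⟩ := (TField.m_iff (R := ℤ_[p]) (-1 : K)).1 h1
  rcases h3 with h3 | h3
  · exact one_ne_zero (neg_eq_zero.1 h3)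
  · refine h3 ?_
    rw [inv_neg, inv_one]
    exact h2

end Cm
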