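import Pool.Agent.Lib.MP_c35b50_lc.Cm.KerM
import Pool.Agent.Lib.MP_c35b50_lc.Cm.SeriesE
import Pool.Agent.Lib.MP_c35b50_lc.Cm.AxW

/-!
# (D): a derivation compatible with `f_a` with `D a = 1`, abstract form
-/

namespace Cm

variable {p : ℕ} [Fact p.Prime]

theorem der_gen_abs {Λ : Type} [Field Λ] [TField ℤ_[p] Λ] [KK p Λ] {L : Type} [Field L]
    [IsAlgClosed L] [CharZero L] (j : L →+* Λ) (d : Derivation ℤ Λ Λ) (hdK : ∀ c, d (j c) = 0)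
    (hker : ∀ x, d x = 0 → ∃ c, j c = x)
    (hEd : ∀ ρ ∈ mm ℤ_[p] Λ, d (xx p ρ) = (p : Λ) ^ 2 * xx p ρ * d ρ) (a : Λ)
    (haO : a ∈ OO ℤ_[p] Λ) (ha : d a = 1) :
    ∃ D ∈ DerF p a (Empty.elim : Empty → Λ), D a = 1 := by
  have hchar : CharZero Λ := KK.zero (p := p) (K := Λ)
  have hp0 : (p : Λ) ≠ 0 := Nat.cast_ne_zero.2 (Fact.out : p.Prime).ne_zero
  have hq : (p : Λ) ^ 2 ≠ 0 := pow_ne_zero _ hp0
  have hx0 : ∀ ρ ∈ mm ℤ_[p] Λ, xx p ρ ≠ 0 := by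
    intro ρ hρ h0
    have h1 := xx_sub_one (p := p) ρ hρ
    rw [h0, zero_sub] at h1
    have h2 : (1 : Λ) ∈ mm ℤ_[p] Λ := by
      have h3 : (1 : Λ) = (-1) * (-1) := by ring
      rw [h3]
      exact TRing.m_mul _ ((OO ℤ_[p] Λ).neg_mem (OO ℤ_[p] Λ).one_mem) _ h1
    obtain ⟨-, h3⟩ := (TField.m_iff (R := ℤ_[p]) (K := Λ) 1).1 h2
    rcases h3 with h3 | h3
    · exact one_ne_zero h3
    · rw [inv_one] at h3
      exact h3 (OO ℤ_[p] Λ).one_mem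
  let G : AddSubgroup Λ :=
    { carrier := mm ℤ_[p] Λ
      add_mem' := fun {x y} hx hy => TRing.m_add x hx y hy
      zero_mem' := TRing.m_zero
      neg_mem' := by
        intro x hx
        have h1 := TRing.m_mul (R := ℤ_[p]) (A := Λ) (-1)
          ((OO ℤ_[p] Λ).neg_mem (OO ℤ_[p] Λ).one_mem) x hx
        rw [neg_one_mul] at h1
        exact h1 }
  obtain ⟨D, hDm, hDj, hDa, hD⟩ := CMAx.exists_wild j (d : Λ →+ Λ)
    (fun x y => d.leibniz x y) hdK hker G (xx p) ((p : Λ) ^ 2) hq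
    (by
      change d ((p : Λ) ^ 2) = 0
      have h1 : ((p : Λ) ^ 2) = j ((p : L) ^ 2) := by rw [map_pow, map_natCast]
      rw [h1, hdK])
    hx0 (fun x hx y hy => xx_add x y hx hy) hEd ha
  let D' : Derivation ℤ Λ Λ := Derivation.mk' D.toIntLinearMap (fun x y => hDm x y)
  have hD' : ∀ x, D' x = D x := fun x => rfl
  refine ⟨D', ⟨fun e => e.elim, ?_⟩, hDa⟩
  rintro x z ⟨ρ, hρ, rfl, rfl⟩
  have hl : ll p ρ ∈ mm ℤ_[p] Λ := ll_mem ρ hρ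
  have hal : a * ll p ρ ∈ mm ℤ_[p] Λ := TRing.m_mul _ haO _ hl
  have h1 := hD _ hl
  have h2 := hD _ hal
  rw [hDm, hDa, ← ee_eq a ρ haO hρ] at h2
  rw [xx_ll ρ hρ] at h1
  have h3 : d (a * ll p ρ) = a * d (ll p ρ) + ll p ρ * 1 := by
    have := d.leibniz a (ll p ρ)
    rw [ha] at this
    simpa only [smul_eq_mul] using this
  have h2' : (p : Λ) ^ 2 * (a * D (ll p ρ) + ll p ρ * 1) - (ee (p := p) a ρ)⁻¹ * D (ee (p := p) a ρ)
      = (p : Λ) ^ 2 * (a * d (ll p ρ) + ll p ρ * 1) := by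
    rw [← h3]
    exact h2
  have h1' : (p : Λ) ^ 2 * D (ll p ρ) - (1 + (p : Λ) ^ 2 * ρ)⁻¹ * D (1 + (p : Λ) ^ 2 * ρ) =
      (p : Λ) ^ 2 * d (ll p ρ) := h1
  have hD1 : D (1 + (p : Λ) ^ 2 * ρ) = D ((p : Λ) ^ 2 * ρ) := by
    have h5 : D' 1 = 0 := Derivation.map_one_eq_zero D'
    rw [map_add]
    change D' 1 + _ = _
    rw [h5, zero_add]
  rw [hD1] at h1'
  have hu : 1 + (p : Λ) ^ 2 * ρ ≠ 0 := by
    rw [← xx_ll ρ hρ]
    exact hx0 _ hl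
  have hz : ee (p := p) a ρ ≠ 0 := ee_ne_zero a ρ haO hρ
  rw [hD', hD']
  field_simp at h1' h2' ⊢
  linear_combination (-(1 + (p : Λ) ^ 2 * ρ)) * h2' + (a * ee (p := p) a ρ) * h1'

end Cm
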