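import Pool.Agent.Lib.MP_c35b50_lc.Cm.Dense

/-! # Row D9: algebraically closed subfields of `ℂ_[p]` are dense; kernels of derivations -/

namespace Cm

section

variable {p : ℕ} [Fact p.Prime]

theorem dense_of_isAlgClosed (M : Subfield ℂ_[p]) [IsAlgClosed M] (x : ℂ_[p]) (e : ℝ)
    (he : 0 < e) : ∃ m ∈ M, ‖x - m‖ < e := by
  obtain ⟨y, hy, hxy⟩ := algebraic_dense p x e he
  refine ⟨y, ?_, hxy⟩
  have h1 : IsAlgebraic M y := IsAlgebraic.extendScalars (R := ℤ) (S := M)
    (algebraMap ℤ M).injective_int hy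
  have h2 : (minpoly M y).degree = 1 :=
    IsAlgClosed.degree_eq_one_of_irreducible M (minpoly.irreducible h1.isIntegral)
  obtain ⟨z, hz⟩ := minpoly.mem_range_of_degree_eq_one M y h2
  rw [← hz]
  exact z.2

end

section

variable {K : Type} [Field K]

/-- the common kernel of a set of derivations -/
def kerD (𝒟 : Set (Derivation ℤ K K)) : Subfield K where
  carrier := {x | ∀ D ∈ 𝒟, D x = 0}
  mul_mem' := by
    intro a b ha hb D hD
    rw [D.leibniz, ha D hD, hb D hD]
    simp
  one_mem' := by
    intro D _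
    exact D.map_one_eq_zero
  add_mem' := by
    intro a b ha hb D hD
    rw [map_add, ha D hD, hb D hD, add_zero]
  zero_mem' := by
    intro D _
    exact D.map_zero
  neg_mem' := by
    intro a ha D hD
    rw [map_neg, ha D hD, neg_zero]
  inv_mem' := by
    intro a ha D hD
    rw [D.leibniz_inv, ha D hD]
    simp

private theorem der_alg' {K : Type} [Field K] [CharZero K] (D : Derivation ℤ K K) (M : Subfield K)
    (hM : ∀ x ∈ M, D x = 0) (x : K) (hx : IsAlgebraic M x) : D x = 0 := by
  have hint : IsIntegral M x := hx.isIntegral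
  let D' : Derivation M K K := Derivation.mk'
    { toFun := D
      map_add' := map_add D
      map_smul' := by
        intro a y
        rw [Algebra.smul_def, Derivation.leibniz]
        have h1 : D (algebraMap M K a) = 0 := hM _ a.2
        rw [h1, smul_zero, add_zero]
        rfl }
    (fun a b => D.leibniz a b)
  have h1 : D' (Polynomial.aeval x (minpoly M x)) = 0 := by rw [minpoly.aeval, map_zero]
  have h2 : D' (Polynomial.aeval x (minpoly M x)) =
      Polynomial.aeval x (Polynomial.derivative (minpoly M x)) • D' x :=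
    Derivation.map_aeval D' (minpoly M x) x
  rw [h2, smul_eq_mul, mul_eq_zero] at h1
  rcases h1 with h1 | h1
  · exfalso
    have hsep : (minpoly M x).Separable := (minpoly.irreducible hint).separable
    exact hsep.aeval_derivative_ne_zero (minpoly.aeval M x) h1
  · exact h1

theorem kerD_isAlgClosed [CharZero K] [IsAlgClosed K] (𝒟 : Set (Derivation ℤ K K)) :
    IsAlgClosed (kerD 𝒟) := by
  refine IsAlgClosed.of_exists_root _ fun f hf hirr => ?_
  obtain ⟨x, hx⟩ := IsAlgClosed.exists_aeval_eq_zero K f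
    (Polynomial.degree_pos_of_irreducible hirr).ne'
  have hxM : x ∈ kerD 𝒟 := fun D hD =>
    der_alg' D (kerD 𝒟) (fun _ hy => hy D hD) x ⟨f, hirr.ne_zero, hx⟩
  refine ⟨⟨x, hxM⟩, ?_⟩
  have h1 : algebraMap (kerD 𝒟) K (Polynomial.eval ⟨x, hxM⟩ f) = Polynomial.aeval x f := by
    have h2 := (Polynomial.aeval_algebraMap_apply K (⟨x, hxM⟩ : kerD 𝒟) f).symm
    rw [Polynomial.coe_aeval_eq_eval] at h2
    exact h2
  rw [hx] at h1
  exact (map_eq_zero _).1 h1

end

end Cm
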