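import Pool.Agent.Lib.MP_c35b50_lc.Cm.ETrace

/-!
# END: `(M, v, f_α)` is `C`-minimal
-/

namespace Cm

open FirstOrder FirstOrder.Language

universe v

/-! ### The ball formulas of `Lvf` -/

/-- the term `x - a` in the variables `x = 0, a = 1, b = 2` -/
def sb2 : Lvf.Term (Fin 3) :=
  Term.func (l := 2) Fn.add ![Term.var 0, Term.func (l := 1) Fn.neg ![Term.var 1] ]

/-- the ball formulas: `false`: closed, `true`: open -/
def ball2 : Bool → Lvf.Formula (Fin 3)
  | false => BoundedFormula.rel (l := 2) Rl.le
      ![sb2.relabel Sum.inl, Term.var (Sum.inl 2)]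
  | true => (BoundedFormula.rel (l := 2) Rl.le
      ![Term.var (Sum.inl 2), sb2.relabel Sum.inl]).not

section N

variable {N : Type v} [Lvf.Structure N]

theorem realize_sb2 (x a b : N) :
    (sb2.relabel Sum.inl : Lvf.Term (Fin 3 ⊕ Fin 0)).realize (Sum.elim ![x, a, b] default) =
      sb N x a := by
  rw [Term.realize_relabel]
  have h : (Sum.elim ![x, a, b] (default : Fin 0 → N)) ∘ Sum.inl = ![x, a, b] := rfl
  rw [h, sb2, sb, Term.realize_func]
  congr 1
  funext i
  refine Fin.cases ?_ (fun i => ?_) i
  · rfl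
  · refine Fin.cases ?_ (fun i => i.elim0) i
    simp only [Matrix.cons_val_succ, Matrix.cons_val_zero]
    rw [Term.realize_func]
    congr 1
    funext i
    refine Fin.cases ?_ (fun i => i.elim0) i
    rfl

theorem realize_ball2_false (x a b : N) :
    (ball2 false).Realize ![x, a, b] ↔ x ∈ cball N a b := by
  simp only [ball2, Formula.Realize, cball, le', Set.mem_ofPred_eq]
  refine iff_of_eq (congrArg (Structure.RelMap (L := Lvf) (M := N) (n := 2) Rl.le) ?_)
  funext i
  refine Fin.cases ?_ (fun i => ?_) i
  · exact realize_sb2 x a b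
  · refine Fin.cases ?_ (fun i => i.elim0) i
    rfl

theorem realize_ball2_true (x a b : N) :
    (ball2 true).Realize ![x, a, b] ↔ x ∈ oball N a b := by
  simp only [ball2, Formula.Realize, BoundedFormula.realize_not, oball, le', Set.mem_ofPred_eq]
  refine not_congr (iff_of_eq (congrArg (Structure.RelMap (L := Lvf) (M := N) (n := 2) Rl.le) ?_))
  funext i
  refine Fin.cases ?_ (fun i => ?_) i
  · rfl
  · refine Fin.cases ?_ (fun i => i.elim0) i
    exact realize_sb2 x a b

/-- patterns give Boolean combinations of balls -/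
theorem BC_ev (e : BP) (w : BP.V e → N) : BC N (BP.ev ball2 N e w) := by
  induction e with
  | lf k =>
    cases k
    · have : BP.ev ball2 N (.lf false) w = cball N (w false) (w true) := by
        ext y; exact realize_ball2_false y _ _
      rw [this]; exact BC.cb _ _
    · have : BP.ev ball2 N (.lf true) w = oball N (w false) (w true) := by
        ext y; exact realize_ball2_true y _ _
      rw [this]; exact BC.ob _ _
  | neg e ih => exact BC.compl _ (ih w)
  | inf e e' h1 h2 => exact BC.inter _ _ (h1 _) (h2 _)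

/-- A set definable with parameters is given by a formula with finitely many parameters. -/
theorem exists_formula_of_definable (s : Set N) (hs : (Set.univ : Set N).Definable₁ Lvf s) :
    ∃ (n : ℕ) (φ : Lvf.Formula (Fin n ⊕ Unit)) (w : Fin n → N),
      s = {x | φ.Realize (Sum.elim w fun _ => x)} := by
  classical
  rw [Set.Definable₁, Set.definable_iff_exists_formula_sum] at hs
  obtain ⟨φ, hφ⟩ := hs
  let T : Finset ((Set.univ : Set N)) := φ.freeVarFinset.toLeft
  let e := T.equivFin
  have hne : ∀ x : φ.freeVarFinset, ∀ a, x.1 = Sum.inl a → a ∈ T := by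
    rintro ⟨x, hx⟩ a rfl
    simpa [T] using hx
  let g : φ.freeVarFinset → Fin T.card ⊕ Unit := fun x =>
    match h : x.1 with
    | Sum.inl a => Sum.inl (e ⟨a, hne x a h⟩)
    | Sum.inr _ => Sum.inr ()
  refine ⟨T.card, φ.restrictFreeVar g, fun i => ((e.symm i).1 : N), ?_⟩
  ext x
  have h1 : x ∈ s ↔ φ.Realize (Sum.elim (fun a : (Set.univ : Set N) => (a : N)) fun _ => x) := by
    have h2 : (fun _ : Fin 1 => x) ∈ {x : Fin 1 → N | x 0 ∈ s} ↔
        (fun _ : Fin 1 => x) ∈ {v : Fin 1 → N | φ.Realize (Sum.elim (fun a : (Set.univ : Set N) => (a : N)) v)} := by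
      rw [hφ]
    exact h2
  rw [h1]
  refine (BoundedFormula.realize_restrictFreeVar _ ?_).symm
  rintro ⟨a | a, ha⟩
  · simp [g]
  · simp [g]

end N

end Cm
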