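import Pool.Agent.Lib.MP_c35b50_lc.Cm.EEnd

/-!
# END: `(M, v, f_α)` is `C`-minimal
-/

namespace Cm

open FirstOrder FirstOrder.Language

universe v

section

variable {p : ℕ} [Fact p.Prime] {α : ℂ_[p]} {M : Subfield ℂ_[p]} {γ : Type}

/-- Finitely many patterns for the sets definable in `(ℂ_[p], v, f_α)`. -/
theorem patt2 (φ : Lvf.Formula (γ ⊕ Unit)) :
    ∃ l : Finset BP, ∀ α : ℂ_[p], α ∈ OO ℤ_[p] ℂ_[p] → ∀ v : γ → ℂ_[p], ∃ e ∈ l,
      ∃ w : BP.V e → ℂ_[p], {y | Re2 p α φ (Sum.elim v fun _ => y)} = BP.ev (ball3 p) ℂ_[p] e w := by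
  obtain ⟨l, hl⟩ := (fr3 p).exists_patterns (X := ⟨ℂ_[p]⟩) ((tr p φ).relabel
    (fun a => Option.elim a (Sum.inl none) (Sum.map some id) : Option (γ ⊕ Unit) → Option γ ⊕ Unit))
  refine ⟨l, fun α hα v => ?_⟩
  obtain ⟨e, he, w, hw⟩ : ∃ e ∈ l, ∃ w : BP.V e → ℂ_[p],
      {y : ℂ_[p] | ((tr p φ).relabel (fun a => Option.elim a (Sum.inl none) (Sum.map some id) :
        Option (γ ⊕ Unit) → Option γ ⊕ Unit)).Realize (Sum.elim (oc α v) fun _ => y)} =
        BP.ev (ball3 p) ℂ_[p] e w := hl (oc α v)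
  refine ⟨e, he, w, ?_⟩
  rw [← hw]
  ext y
  rw [Set.mem_ofPred_eq, Set.mem_ofPred_eq, ← realize_tr α hα, Formula.realize_relabel]
  refine iff_of_eq (congrArg _ ?_)
  funext a
  rcases a with _ | a | a <;> rfl

/-- the pattern for the trace on `M` -/
def BP.pl : BP → BP
  | .lf false => .inf (.lf false) (.lf false)
  | .lf true => .lf true
  | .neg e => .neg (pl e)
  | .inf e e' => .inf (pl e) (pl e')

/-- an element of `M` close to a given element -/
theorem Good.near (h : Good p α M) (a b : ℂ_[p]) (hb : b ≠ 0) :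
    ∃ a' : M, ‖a - (a' : ℂ_[p])‖ < ‖b‖ := by
  have hp : (p : ℂ_[p]) ≠ 0 := by
    have := KK.zero (p := p) (K := ℂ_[p])
    exact Nat.cast_ne_zero.2 (Fact.out : p.Prime).ne_zero
  obtain ⟨a', ha', h1⟩ := h.dense a (p * b) (mul_ne_zero hp hb)
  rw [cp_vle] at h1
  refine ⟨⟨a', ha'⟩, lt_of_le_of_lt h1 ?_⟩
  rw [norm_mul]
  have h2 : ‖(p : ℂ_[p])‖ < 1 := (cp_m _).1 KK.pm
  calc ‖(p : ℂ_[p])‖ * ‖b‖ < 1 * ‖b‖ := (mul_lt_mul_iff_left₀ (norm_pos_iff.2 hb)).2 h2
    _ = ‖b‖ := one_mul _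

theorem norm_congr (a b c : ℂ_[p]) (h : ‖a - b‖ < ‖c‖) : (‖a‖ ≤ ‖c‖ ↔ ‖b‖ ≤ ‖c‖) ∧
    (‖a‖ < ‖c‖ ↔ ‖b‖ < ‖c‖) := by
  have h1 : a = (a - b) + b := by ring
  have h2 : b = a - (a - b) := by ring
  have n1 : ‖a‖ ≤ max ‖a - b‖ ‖b‖ := by
    conv_lhs => rw [h1]
    exact IsUltrametricDist.norm_add_le_max _ _
  have n2 : ‖b‖ ≤ max ‖a‖ ‖a - b‖ := by
    conv_lhs => rw [h2, sub_eq_add_neg]
    exact (IsUltrametricDist.norm_add_le_max _ _).trans_eq (by rw [norm_neg])
  refine ⟨⟨fun h3 => n2.trans (max_le h3 h.le), fun h3 => n1.trans (max_le h.le h3)⟩,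
    ⟨fun h3 => n2.trans_lt (max_lt h3 h), fun h3 => n1.trans_lt (max_lt h h3)⟩⟩

theorem mem_cball_M (x a b : M) : x ∈ @cball M (strG p α M) a b ↔
    ‖(x : ℂ_[p]) - (a : ℂ_[p])‖ ≤ ‖(b : ℂ_[p])‖ := by
  rw [sub_eq_add_neg]
  exact Iff.rfl

theorem mem_oball_M (x a b : M) : x ∈ @oball M (strG p α M) a b ↔
    ‖(x : ℂ_[p]) - (a : ℂ_[p])‖ < ‖(b : ℂ_[p])‖ := by
  rw [sub_eq_add_neg, ← not_le]
  exact Iff.rfl

/-- The trace on `M` of the set given by a pattern. -/
theorem trace_pattern (h : Good p α M) (e : BP) (w : BP.V e → ℂ_[p]) :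
    ∃ w' : BP.V (BP.pl e) → M, ∀ y : M, (y ∈ @BP.ev Lvf ball2 M (strG p α M) (BP.pl e) w' ↔
      (y : ℂ_[p]) ∈ BP.ev (ball3 p) ℂ_[p] e w) := by
  let _ := strG p α M
  induction e with
  | lf k =>
    cases k
    · -- closed balls
      have h1 : ∀ y : ℂ_[p], y ∈ BP.ev (ball3 p) ℂ_[p] (.lf false) w ↔
          ‖y - w false‖ ≤ ‖w true‖ := by
        intro y
        rw [← cp_vle]
        exact realize_ball3_false p y _ _
      have h2 : ∀ (w' : BP.V (BP.pl (.lf false)) → M) (y : M),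
          y ∈ BP.ev ball2 M (BP.pl (.lf false)) w' ↔
          ‖(y : ℂ_[p]) - (w' (Sum.inl false) : M)‖ ≤ ‖((w' (Sum.inl true) : M) : ℂ_[p])‖ ∧
          ‖(y : ℂ_[p]) - (w' (Sum.inr false) : M)‖ ≤ ‖((w' (Sum.inr true) : M) : ℂ_[p])‖ := by
        intro w' y
        rw [← mem_cball_M (α := α), ← mem_cball_M (α := α)]
        exact and_congr (realize_ball2_false y (w' (Sum.inl false)) (w' (Sum.inl true)))
          (realize_ball2_false y (w' (Sum.inr false)) (w' (Sum.inr true)))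
      by_cases hb : w true = 0
      · by_cases ha : w false ∈ M
        · refine ⟨Sum.elim (fun t => cond t 0 ⟨w false, ha⟩) (fun t => cond t 0 ⟨w false, ha⟩),
            fun y => ?_⟩
          rw [h1, h2, hb]
          simp
        · refine ⟨Sum.elim (fun t => cond t 0 0) (fun t => cond t 0 1), fun y => ?_⟩
          rw [h1, h2, hb]
          refine iff_of_false ?_ ?_
          · simp only [Sum.elim_inl, Sum.elim_inr, cond_true, cond_false, norm_le_zero_iff,
              ZeroMemClass.coe_zero, OneMemClass.coe_one, norm_zero, sub_zero]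
            rintro ⟨h3, h4⟩
            rw [h3, zero_sub, neg_eq_zero] at h4
            exact one_ne_zero h4
          · rw [norm_zero, norm_le_zero_iff, sub_eq_zero]
            intro h3
            exact ha (h3 ▸ y.2)
      · obtain ⟨a', ha'⟩ := h.near (w false) (w true) hb
        obtain ⟨b', hb'⟩ := h.near (w true) (w true) hb
        have hbb : ‖(b' : ℂ_[p])‖ = ‖w true‖ := by
          have h3 := norm_congr (w true) (b' : ℂ_[p]) (w true) hb'
          exact le_antisymm (h3.1.1 le_rfl) (not_lt.1 fun h4 => absurd (h3.2.2 h4) (lt_irrefl _))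
        refine ⟨Sum.elim (fun t => cond t b' a') (fun t => cond t b' a'), fun y => ?_⟩
        rw [h1, h2]
        simp only [Sum.elim_inl, Sum.elim_inr, cond_true, cond_false, and_self, hbb]
        refine (norm_congr _ _ (w true) ?_).1
        have h5 : ((y : ℂ_[p]) - (a' : ℂ_[p])) - ((y : ℂ_[p]) - w false) = w false - (a' : ℂ_[p]) := by
          ring
        rw [h5]
        exact ha'
    · -- open balls
      have h1 : ∀ y : ℂ_[p], y ∈ BP.ev (ball3 p) ℂ_[p] (.lf true) w ↔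
          ‖y - w false‖ < ‖w true‖ := by
        intro y
        rw [← not_le, ← cp_vle]
        exact realize_ball3_true p y _ _
      have h2 : ∀ (w' : BP.V (BP.pl (.lf true)) → M) (y : M),
          y ∈ BP.ev ball2 M (BP.pl (.lf true)) w' ↔
          ‖(y : ℂ_[p]) - (w' false : M)‖ < ‖((w' true : M) : ℂ_[p])‖ := by
        intro w' y
        rw [← mem_oball_M (α := α)]
        exact realize_ball2_true _ _ _
      by_cases hb : w true = 0
      · refine ⟨fun t => 0, fun y => ?_⟩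
        rw [h1, h2, hb]
        refine iff_of_false ?_ ?_
        · simp only [ZeroMemClass.coe_zero, norm_zero]
          exact not_lt.2 (norm_nonneg _)
        · rw [norm_zero]
          exact not_lt.2 (norm_nonneg _)
      · obtain ⟨a', ha'⟩ := h.near (w false) (w true) hb
        obtain ⟨b', hb'⟩ := h.near (w true) (w true) hb
        have hbb : ‖(b' : ℂ_[p])‖ = ‖w true‖ := by
          have h3 := norm_congr (w true) (b' : ℂ_[p]) (w true) hb'
          exact le_antisymm (h3.1.1 le_rfl) (not_lt.1 fun h4 => absurd (h3.2.2 h4) (lt_irrefl _))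
        refine ⟨fun t => cond t b' a', fun y => ?_⟩
        rw [h1, h2]
        simp only [cond_true, cond_false, hbb]
        refine (norm_congr _ _ (w true) ?_).2
        have h5 : ((y : ℂ_[p]) - (a' : ℂ_[p])) - ((y : ℂ_[p]) - w false) = w false - (a' : ℂ_[p]) := by
          ring
        rw [h5]
        exact ha'
  | neg e ih =>
    obtain ⟨w', hw'⟩ := ih w
    exact ⟨w', fun y => not_congr (hw' y)⟩
  | inf e e' h1 h2 =>
    obtain ⟨w1, hw1⟩ := h1 (fun a => w (Sum.inl a))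
    obtain ⟨w2, hw2⟩ := h2 (fun a => w (Sum.inr a))
    exact ⟨Sum.elim w1 w2, fun y => and_congr (hw1 y) (hw2 y)⟩

/-- Finitely many patterns for the sets definable in `(M, v, f_α)`. -/
theorem patterns_M (h : Good p α M) (φ : Lvf.Formula (γ ⊕ Unit)) :
    ∃ l : Finset BP, ∀ v : γ → M, ∃ e ∈ l, ∃ w : BP.V e → M, ∀ y : M,
      (@Formula.Realize Lvf M (strG p α M) _ φ (Sum.elim v fun _ => y) ↔
        y ∈ @BP.ev Lvf ball2 M (strG p α M) e w) := by
  classical
  obtain ⟨ψ, hψ⟩ := trace h φ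
  obtain ⟨l, hl⟩ := patt2 (p := p) (Formula.relabel
    (Sum.elim (fun a => Sum.inl (Sum.inl a)) (Sum.elim (Sum.elim (fun g => Sum.inl (Sum.inr g))
      fun _ => Sum.inr ()) fun i : Fin 0 => i.elim0) :
      Option M ⊕ ((γ ⊕ Unit) ⊕ Fin 0) → (Option M ⊕ γ) ⊕ Unit) ψ)
  refine ⟨l.image BP.pl, fun v => ?_⟩
  obtain ⟨e, he, w, hw⟩ := hl α h.alO (Sum.elim (oc α fun m : M => (m : ℂ_[p]))
    fun g => (v g : ℂ_[p]))
  obtain ⟨w', hw'⟩ := trace_pattern h e w
  refine ⟨BP.pl e, Finset.mem_image_of_mem _ he, w', fun y => ?_⟩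
  rw [hw', ← hw, Set.mem_ofPred_eq, re2_relabel]
  refine (hψ (Sum.elim v fun _ => y) default).trans ?_
  refine iff_of_eq (congrArg _ ?_)
  funext a
  rcases a with a | a | a
  · rfl
  · rcases a with a | a <;> rfl
  · exact a.elim0

/-- the sentence: for all parameters the set is given by one of finitely many patterns -/
noncomputable def sigma {n : ℕ} (φ : Lvf.Formula (Fin n ⊕ Unit)) (l : Finset BP) : Lvf.Sentence :=
  Formula.iAlls (Fin n) (Formula.relabel (Sum.inr : Fin n → Empty ⊕ Fin n)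
    (Formula.iSup fun e : l => Formula.iExs (BP.V e.1) (BP.eqF ball2 φ e.1)))

theorem realize_sigma {n : ℕ} (φ : Lvf.Formula (Fin n ⊕ Unit)) (l : Finset BP) {P : Type*}
    [Lvf.Structure P] : (P ⊨ sigma φ l) ↔ ∀ u : Fin n → P, ∃ e ∈ l, ∃ w : BP.V e → P, ∀ x : P,
      (φ.Realize (Sum.elim u fun _ => x) ↔ x ∈ BP.ev ball2 P e w) := by
  rw [sigma, Sentence.Realize, Formula.realize_iAlls]
  refine forall_congr' fun u => ?_
  rw [Formula.realize_relabel, Formula.realize_iSup]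
  constructor
  · rintro ⟨⟨e, he⟩, h⟩
    rw [Formula.realize_iExs] at h
    obtain ⟨w, h⟩ := h
    rw [BP.realize_eqF] at h
    exact ⟨e, he, w, h⟩
  · rintro ⟨e, he, w, h⟩
    refine ⟨⟨e, he⟩, ?_⟩
    rw [Formula.realize_iExs]
    refine ⟨w, ?_⟩
    rw [BP.realize_eqF]
    exact h

/-- **END.** -/
theorem cMinimal_of_good (h : Good p α M) :
    letI := strG p α M
    CMinimal.{0, v} M := by
  intro N _ hMN s hs
  let _ := strG p α M
  obtain ⟨n, φ, w, rfl⟩ := exists_formula_of_definable s hs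
  obtain ⟨l, hl⟩ := patterns_M h φ
  have h1 : M ⊨ sigma φ l := (realize_sigma φ l).2 hl
  have h2 : N ⊨ sigma φ l := (elementarilyEquivalent_iff.1 hMN _).1 h1
  obtain ⟨e, -, w', hw'⟩ := (realize_sigma φ l).1 h2 w
  have h3 : {x : N | φ.Realize (Sum.elim w fun _ => x)} = BP.ev ball2 N e w' := by
    ext x; exact hw' x
  rw [h3]
  exact BC_ev e w'

/-- The answer, given a good pair. -/
theorem answer_of_good (h : Good p α M) : Answer.{v} p := by
  have hp : (0 : ℝ) < (p : ℝ)⁻¹ := inv_pos.2 (Nat.cast_pos.2 (Fact.out : p.Prime).pos)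
  have hα : ‖α‖ ≤ 1 := (cp_O _).1 h.alO
  refine ⟨α, ((p : ℝ)⁻¹) ^ 2, M, pow_pos hp 2, fun x hx => cp_summable α x hα hx, h.closed,
    fun x hx hxr => h.gr x _ hx ((cp_Gr α x _ hα).2 ⟨hxr, rfl⟩), h.notMem, cMinimal_of_good h⟩

end

end Cm
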