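import Pool.Agent.Lib.MP_c35b50_lc.Cm.ECert

/-!
# (E): every set definable in `(M, v, f_α)` is the trace of a set definable in `(ℂ_[p], v, f_α)`
-/

namespace Cm

open FirstOrder FirstOrder.Language

variable {p : ℕ} [Fact p.Prime] {α : ℂ_[p]} {M : Subfield ℂ_[p]} {γ : Type}

/-- the structure on `M` -/
@[reducible] noncomputable def strG (p : ℕ) [Fact p.Prime] (α : ℂ_[p]) (M : Subfield ℂ_[p]) :
    Lvf.Structure M :=
  strM α (((p : ℝ)⁻¹) ^ 2) M

theorem realize_term_M (t : Lvf.Term γ) (v : γ → M) :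
    ((@Term.realize Lvf M (strG p α M) γ v t : M) : ℂ_[p]) =
      Tv p α t (fun a => (v a : ℂ_[p])) := by
  induction t with
  | var a => rfl
  | @func l g ts ih =>
    match l, g with
    | _, Fn.zero => rfl
    | _, Fn.one => rfl
    | _, Fn.neg => exact congrArg Neg.neg (ih 0)
    | _, Fn.add => exact congrArg₂ (· + ·) (ih 0) (ih 1)
    | _, Fn.mul => exact congrArg₂ (· * ·) (ih 0) (ih 1)

/-- the valuation of the variables -/
def vT (α : ℂ_[p]) {n : ℕ} (v : γ → M) (xs : Fin n → M) : Option M ⊕ (γ ⊕ Fin n) → ℂ_[p] :=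
  Sum.elim (oc α fun m : M => (m : ℂ_[p]))
    (Sum.elim (fun a => (v a : ℂ_[p])) (fun i => (xs i : ℂ_[p])))

/-- the renamings of the variables -/
def r1 (n : ℕ) : Option M ⊕ (γ ⊕ Fin (n + 1)) → Option M ⊕ Option (γ ⊕ Fin n) :=
  Sum.map id fun a => Sum.elim (fun g => some (Sum.inl g))
    (fun i => (Fin.lastCases none (fun j => some (Sum.inr j)) i : Option (γ ⊕ Fin n))) a

def r2 {δ : Type} : Option M ⊕ Option δ → (Option M ⊕ δ) ⊕ Unit :=
  Sum.elim (fun a => Sum.inl (Sum.inl a)) (fun b => Option.elim b (Sum.inr ()) fun g => Sum.inl (Sum.inr g))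

def r3 {δ : Type} : Option M ⊕ Option δ → Option M ⊕ δ :=
  Sum.elim (fun a => Sum.inl a) (fun b => Option.elim b (Sum.inl none) fun g => Sum.inr g)

theorem vl_r1 {n : ℕ} (v : γ → M) (xs : Fin n → M) (y : ℂ_[p]) :
    (vl α (fun m : M => (m : ℂ_[p])) y
      (fun g : γ ⊕ Fin n => ((Sum.elim v xs g : M) : ℂ_[p]))) ∘ (r1 n) =
      Sum.elim (oc α fun m : M => (m : ℂ_[p]))
        (Sum.elim (fun a => (v a : ℂ_[p])) (Fin.snoc (fun i => (xs i : ℂ_[p])) y)) := by
  funext a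
  rcases a with a | a | i
  · rfl
  · rfl
  · refine Fin.lastCases ?_ (fun j => ?_) i
    · simp [vl, r1, Function.comp]
    · simp [vl, r1, Function.comp]

theorem elim_r2 {δ : Type} (x : δ → ℂ_[p]) (y : Unit → ℂ_[p]) :
    (Sum.elim (Sum.elim (oc α fun m : M => (m : ℂ_[p])) x) y) ∘ r2 =
      vl α (fun m : M => (m : ℂ_[p])) (y ()) x := by
  funext a
  rcases a with a | _ | g <;> rfl

theorem elim_r3 {δ : Type} (x : δ → ℂ_[p]) :
    (Sum.elim (oc α fun m : M => (m : ℂ_[p])) x) ∘ r3 =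
      vl α (fun m : M => (m : ℂ_[p])) α x := by
  funext a
  rcases a with a | _ | g <;> rfl

/-- One quantifier. -/
theorem trace_ex (h : Good p α M) {δ : Type} (ψ : Lvf.Formula (Option M ⊕ Option δ)) :
    ∃ ψ' : Lvf.Formula (Option M ⊕ δ), ∀ x : δ → M,
      (∃ y : M, Re2 p α ψ (vl α (fun m : M => (m : ℂ_[p])) (y : ℂ_[p]) (fun g => (x g : ℂ_[p])))) ↔
        Re2 p α ψ' (Sum.elim (oc α fun m : M => (m : ℂ_[p])) (fun g => (x g : ℂ_[p]))) := by
  obtain ⟨k, hk⟩ := cmin2 (p := p) ℂ_[p] (Formula.relabel (r2 (M := M) (δ := δ)) ψ)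
  obtain ⟨θ, hθ1, hθ2⟩ := cert_lemma h ψ k
  refine ⟨Formula.relabel r3 (∼ (Formula.iExs (Fin k) (chi ψ k))) ⊔
    Formula.iExs Unit (Formula.relabel r2 (ψ ⊓ θ)), fun x => ?_⟩
  have e1 : ∀ y : ℂ_[p], Re2 p α (Formula.relabel (r2 (M := M) (δ := δ)) ψ)
      (Sum.elim (Sum.elim (oc α fun m : M => (m : ℂ_[p])) (fun g => (x g : ℂ_[p]))) fun _ => y) ↔
      Re2 p α ψ (vl α (fun m : M => (m : ℂ_[p])) y (fun g => (x g : ℂ_[p]))) := by
    intro y
    rw [re2_relabel, elim_r2]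
  have hk' := hk α h.alO (Sum.elim (oc α fun m : M => (m : ℂ_[p])) (fun g => (x g : ℂ_[p])))
  simp only [e1] at hk'
  rw [re2_or, re2_relabel, elim_r3, re2_not, re2_ex, re2_ex]
  simp only [re2_relabel, elim_r2, re2_and, re2_chi]
  constructor
  · rintro ⟨y, hy⟩
    by_cases hfin : {y' : ℂ_[p] | Re2 p α ψ (vl α (fun m : M => (m : ℂ_[p])) y'
        (fun g => (x g : ℂ_[p])))}.encard ≤ k
    · exact Or.inr ⟨fun _ => y, hy, hθ2 x y hy hfin⟩
    · left
      rintro ⟨u, hu⟩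
      apply hfin
      calc {y' : ℂ_[p] | Re2 p α ψ (vl α (fun m : M => (m : ℂ_[p])) y'
            (fun g => (x g : ℂ_[p])))}.encard ≤ (Set.range u).encard := by
            refine Set.encard_le_encard fun y' hy' => ?_
            obtain ⟨i, hi⟩ := hu y' hy'
            exact ⟨i, hi.symm⟩
        _ ≤ (Set.univ : Set (Fin k)).encard := by
            rw [← Set.image_univ]
            exact Set.encard_image_le _ _
        _ = k := by simp
  · rintro (hu | ⟨y, hy, hyθ⟩)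
    · rcases bck_dich hk' with ⟨hf, hc⟩ | ⟨c, r, hr, hball⟩
      · exfalso
        apply hu
        classical
        let e := hf.toFinset.equivFin
        have hcard : hf.toFinset.card ≤ k := by
          rw [← Set.ncard_eq_toFinset_card _ hf]
          exact hc
        refine ⟨fun i => if hi : (i : ℕ) < hf.toFinset.card then (e.symm ⟨i, hi⟩ : ℂ_[p]) else 0,
          fun y' hy' => ?_⟩
        have hy2 : y' ∈ hf.toFinset := hf.mem_toFinset.2 hy'
        refine ⟨⟨e ⟨y', hy2⟩, lt_of_lt_of_le (e ⟨y', hy2⟩).2 hcard⟩, ?_⟩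
        simp only [Fin.is_lt, dif_pos, Fin.eta, Equiv.symm_apply_apply]
      · obtain ⟨y, hyM, hy⟩ := h.dense c r hr
        refine ⟨⟨y, hyM⟩, hball y ?_⟩
        rw [vle_iff] at hy ⊢
        rw [Valuation.map_sub_swap]
        exact hy
    · exact ⟨⟨y (), hθ1 x (y ()) hyθ⟩, hy⟩

/-- TRACE. -/
theorem trace (h : Good p α M) {n : ℕ} (φ : Lvf.BoundedFormula γ n) :
    ∃ ψ : Lvf.Formula (Option M ⊕ (γ ⊕ Fin n)), ∀ (v : γ → M) (xs : Fin n → M),
      (@BoundedFormula.Realize Lvf M (strG p α M) γ n φ v xs ↔ Re2 p α ψ (vT α v xs)) := by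
  have hterm : ∀ {n : ℕ} (v : γ → M) (xs : Fin n → M) (t : Lvf.Term (γ ⊕ Fin n)),
      ((@Term.realize Lvf M (strG p α M) _ (Sum.elim v xs) t : M) : ℂ_[p]) =
        Tv p α (t.relabel Sum.inr) (vT α v xs) := by
    intro n v xs t
    rw [realize_term_M]
    let _ := str2 p ℂ_[p] α
    have h1 : (t.relabel Sum.inr).realize (vT α v xs) = t.realize ((vT α v xs) ∘ Sum.inr) :=
      Term.realize_relabel
    refine Eq.trans ?_ h1.symm
    refine congrArg (fun w => @Term.realize Lvf ℂ_[p] (str2 p ℂ_[p] α) _ w t) ?_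
    funext a
    rcases a with a | a <;> rfl
  induction φ with
  | falsum => exact ⟨⊥, fun v xs => iff_of_false (fun h => h) (re2_bot p α _)⟩
  | equal t1 t2 =>
    refine ⟨Term.equal (t1.relabel Sum.inr) (t2.relabel Sum.inr), fun v xs => ?_⟩
    rw [re2_eq, ← hterm, ← hterm]
    exact Subtype.coe_injective.eq_iff.symm
  | @rel n l q ts =>
    match l, q with
    | _, Rl.le =>
      refine ⟨fLe ((ts 0).relabel Sum.inr) ((ts 1).relabel Sum.inr), fun v xs => ?_⟩
      rw [re2_le, ← hterm, ← hterm, cp_vle]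
      exact Iff.rfl
    | _, Rl.gr =>
      refine ⟨fGr ((ts 0).relabel Sum.inr) ((ts 1).relabel Sum.inr), fun v xs => ?_⟩
      rw [re2_gr, ← hterm, ← hterm, cp_Gr _ _ _ ((cp_O _).1 h.alO)]
      exact Iff.rfl
  | imp φ1 φ2 h1 h2 =>
    obtain ⟨ψ1, h1⟩ := h1
    obtain ⟨ψ2, h2⟩ := h2
    refine ⟨ψ1 ⟹ ψ2, fun v xs => ?_⟩
    rw [re2_imp, ← h1, ← h2]
    exact Iff.rfl
  | @all n φ ih =>
    obtain ⟨ψ, hψ⟩ := ih
    obtain ⟨ψ', hψ'⟩ := trace_ex h (∼ (Formula.relabel (r1 n) ψ))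
    refine ⟨∼ ψ', fun v xs => ?_⟩
    have h1 := hψ' (Sum.elim v xs)
    simp only [re2_not, re2_relabel, vl_r1] at h1
    rw [re2_not]
    have h2 : (Sum.elim (oc α fun m : M => (m : ℂ_[p]))
        (fun g : γ ⊕ Fin n => ((Sum.elim v xs g : M) : ℂ_[p]))) = vT α v xs := by
      funext a
      rcases a with a | a | a <;> rfl
    rw [h2] at h1
    rw [← h1]
    push Not
    refine forall_congr' fun y => ?_
    rw [hψ]
    refine iff_of_eq (congrArg _ ?_)
    funext a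
    rcases a with a | a | i
    · rfl
    · rfl
    · refine Fin.lastCases ?_ (fun j => ?_) i
      · simp [vT]
      · simp [vT]

end Cm
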