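import Mathlib

/-!
# Embeddings that send a given transcendental element to a given transcendental element
-/

noncomputable section

namespace CMAx

open AlgebraicIndependent Polynomial

variable {K A H : Type*} [Field K] [Field A] [Field H] [Algebra K A] [Algebra A H] [Algebra K H]
  [IsScalarTower K A H]

/-- an element of an algebraically closed base field -/
theorem mem_range_of_algebraic [IsAlgClosed K] {x : A} (hx : IsAlgebraic K x) :
    x ∈ Set.range (algebraMap K A) := by
  have h1 : Irreducible (minpoly K x) := minpoly.irreducible hx.isIntegral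
  have h2 : (minpoly K x).degree = 1 := IsAlgClosed.degree_eq_one_of_irreducible K h1
  exact minpoly.mem_range_of_degree_eq_one K x h2

/-- transcendence over the image of a field of constants -/
theorem transcendental_adjoin_image {s : Set A} {e : H} (he : Transcendental A e) :
    Transcendental (Algebra.adjoin K (algebraMap A H '' s)) e := by
  rintro ⟨P, hP0, hP⟩
  apply he
  have h1 : P.map (algebraMap (Algebra.adjoin K (algebraMap A H '' s)) H) ∈
      lifts (algebraMap A H) := by
    rw [lifts_iff_coeff_lifts]
    intro n
    rw [coeff_map]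
    have h2 : ((P.coeff n : Algebra.adjoin K (algebraMap A H '' s)) : H) ∈
        (IsScalarTower.toAlgHom K A H).range := by
      refine Algebra.adjoin_le ?_ (P.coeff n).2
      rintro _ ⟨a, _, rfl⟩
      exact ⟨a, rfl⟩
    obtain ⟨a, ha⟩ := h2
    exact ⟨a, ha⟩
  obtain ⟨Q, hQ⟩ := h1
  have hQ' : Q.map (algebraMap A H) =
      P.map (algebraMap (Algebra.adjoin K (algebraMap A H '' s)) H) := by
    simpa using hQ
  refine ⟨Q, ?_, ?_⟩
  · rintro rfl
    rw [Polynomial.map_zero] at hQ'
    exact hP0 ((Polynomial.map_eq_zero_iff Subtype.val_injective).1 hQ'.symm)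
  · rw [aeval_def, ← eval_map, hQ', eval_map, ← aeval_def]
    exact hP

theorem exists_embed [IsAlgClosed H] {U : A} (hU : Transcendental K U) {e : H}
    (he : Transcendental A e) :
    ∃ Φ : A →+* H, Φ U = e ∧ ∀ c : K, Φ (algebraMap K A c) = algebraMap K H c := by
  classical
  have h0 : AlgebraicIndepOn K id ({U} : Set A) := by
    have : AlgebraicIndependent K (fun i : ({U} : Set A) => (i : A)) := by
      rw [algebraicIndependent_unique_type_iff]
      exact hU
    exact this
  obtain ⟨s, hs, hb⟩ := exists_isTranscendenceBasis_superset h0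
  have hUs : U ∈ s := hs rfl
  set s' : Set A := s \ {U} with hs'
  let o : Option s' → A := fun z => z.elim U (fun i => (i : A))
  let y : Option s' → H := fun z => z.elim e (fun i => algebraMap A H i)
  let j : Option s' → s := fun z => z.elim ⟨U, hUs⟩ (fun i => ⟨i.1, i.2.1⟩)
  have hj : Function.Injective j := by
    rintro (_ | a) (_ | b) h
    · rfl
    · exact absurd (congrArg Subtype.val h).symm b.2.2
    · exact absurd (congrArg Subtype.val h) a.2.2
    · have h1 : (a : A) = b := congrArg (fun z : s => (z : A)) h
      exact congrArg some (Subtype.ext h1)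
  have ho : AlgebraicIndependent K o := by
    have h1 := hb.1.comp j hj
    have h2 : (fun i : s => (i : A)) ∘ j = o := by
      funext z
      rcases z with _ | z
      · rfl
      · rfl
    exact h2 ▸ h1
  have hr : Set.range o = s := by
    ext a
    constructor
    · rintro ⟨z, rfl⟩
      rcases z with _ | z
      · exact hUs
      · exact z.2.1
    · intro ha
      by_cases h : a = U
      · exact ⟨none, h.symm⟩
      · exact ⟨some ⟨a, ha, h⟩, rfl⟩
  have hx : AlgebraicIndependent K (fun i : s' => algebraMap A H (i : A)) := by
    have h1 : AlgebraicIndependent K (fun i : s' => (i : A)) := ho.comp _ (Option.some_injective _)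
    exact h1.map' (f := IsScalarTower.toAlgHom K A H) (algebraMap A H).injective
  have hy : AlgebraicIndependent K y := by
    refine (hx.option_iff_transcendental e).2 ?_
    have h1 : Set.range (fun i : s' => algebraMap A H (i : A)) = algebraMap A H '' s' := by
      ext z
      simp
    rw [h1]
    exact transcendental_adjoin_image he
  have hbA : Algebra.IsAlgebraic (Algebra.adjoin K s) A := by
    have h1 := hb.isAlgebraic
    rwa [Subtype.range_coe] at h1
  let R := MvPolynomial (Option s') K
  let a1 : Algebra R A := (MvPolynomial.aeval o).toRingHom.toAlgebra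
  let a2 : Algebra R H := (MvPolynomial.aeval y).toRingHom.toAlgebra
  have f1 : Function.Injective (algebraMap R A) := ho
  have f2 : Function.Injective (algebraMap R H) := hy
  have : FaithfulSMul R A := (faithfulSMul_iff_algebraMap_injective R A).2 f1
  have : FaithfulSMul R H := (faithfulSMul_iff_algebraMap_injective R H).2 f2
  have : Algebra.IsAlgebraic R A := by
    refine ⟨fun a => ?_⟩
    obtain ⟨P, hP0, hP⟩ := hbA.isAlgebraic a
    have h5 : ∀ z ∈ Algebra.adjoin K s, z ∈ Set.range (algebraMap R A) := by
      intro z hz
      rw [← hr, Algebra.adjoin_range_eq_range_aeval] at hz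
      obtain ⟨r, hr'⟩ := hz
      exact ⟨r, hr'⟩
    have h1 : P.map (algebraMap (Algebra.adjoin K s) A) ∈ lifts (algebraMap R A) := by
      rw [lifts_iff_coeff_lifts]
      intro n
      rw [coeff_map]
      exact h5 _ (P.coeff n).2
    obtain ⟨Q, hQ⟩ := h1
    have hQ' : Q.map (algebraMap R A) = P.map (algebraMap (Algebra.adjoin K s) A) := by
      simpa using hQ
    refine ⟨Q, ?_, ?_⟩
    · rintro rfl
      rw [Polynomial.map_zero] at hQ'
      exact hP0 ((Polynomial.map_eq_zero_iff Subtype.val_injective).1 hQ'.symm)
    · rw [aeval_def, ← eval_map, hQ', eval_map, ← aeval_def]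
      exact hP
  let Φ : A →ₐ[R] H := IsAlgClosed.lift
  refine ⟨Φ.toRingHom, ?_, fun c => ?_⟩
  · have h1 := Φ.commutes (MvPolynomial.X none)
    have h2 : algebraMap R A (MvPolynomial.X none) = U := MvPolynomial.aeval_X o none
    have h3 : algebraMap R H (MvPolynomial.X none) = e := MvPolynomial.aeval_X y none
    rw [h2, h3] at h1
    exact h1
  · have h1 := Φ.commutes (MvPolynomial.C c)
    have h2 : algebraMap R A (MvPolynomial.C c) = algebraMap K A c := MvPolynomial.aeval_C o c
    have h3 : algebraMap R H (MvPolynomial.C c) = algebraMap K H c := MvPolynomial.aeval_C y c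
    rw [h2, h3] at h1
    exact h1

end CMAx
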