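import Pool.Agent.Lib.MP_c35b50_lc.Cm.HahnV

/-!
# The automorphism `exp (ε D)` of `HahnSeries ℚ L`

`D` a derivation of the field `L` of characteristic zero. `expD D` is the automorphism
`x ↦ ∑ ε ^ n D ^ n x / n!` of the field `HahnSeries ℚ L`.
-/

namespace Cm

open HahnSeries Pool.Agent.Lib.MP_c35b50_lc.Cm

noncomputable section

variable {L : Type} [Field L]

theorem Dv_sum {ι : Type} (I : Finset ι) (f : ι → HahnSeries ℚ L) {g : ℚ}
    (h : ∀ i ∈ I, Dv g (f i)) : Dv g (∑ i ∈ I, f i) := by
  classical
  induction I using Finset.induction_on with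
  | empty =>
    rw [Finset.sum_empty]
    exact Dv.zero
  | insert i I hi ih =>
    rw [Finset.sum_insert hi]
    exact (h i (Finset.mem_insert_self i I)).add
      (ih fun j hj => h j (Finset.mem_insert_of_mem hj))

theorem Dv_tp {r : ℚ} : Dv r (tp L r) := fun h hh => by
  rw [tp, coeff_single_of_ne hh.ne]

theorem Dv_order (x : HahnSeries ℚ L) : Dv x.order x :=
  fun _ hh => coeff_eq_zero_of_lt_order hh

/-- an element with bounds growing linearly vanishes -/
theorem eq_zero_of_Dv' {x : HahnSeries ℚ L} (o : ℚ) (h : ∀ n : ℕ, Dv (o + n) x) : x = 0 := by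
  refine eq_zero_of_Dv (fun n : ℕ => o + n) (fun g => ?_) h
  obtain ⟨n, hn⟩ := exists_nat_gt (g - o)
  exact ⟨n, by linarith⟩

/-- Cauchy products -/
theorem Dv_cauchy {a b : ℕ → HahnSeries ℚ L} {o o' : ℚ} (ha : ∀ n : ℕ, Dv (o + n) (a n))
    (hb : ∀ n : ℕ, Dv (o' + n) (b n)) (N : ℕ) :
    Dv (o + o' + N) ((∑ n ∈ Finset.range N, a n) * (∑ n ∈ Finset.range N, b n) -
      ∑ k ∈ Finset.range N, ∑ q ∈ Finset.HasAntidiagonal.antidiagonal k, a q.1 * b q.2) := by
  classical
  have h1 : ∑ k ∈ Finset.range N, ∑ q ∈ Finset.HasAntidiagonal.antidiagonal k, a q.1 * b q.2 =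
      ∑ q ∈ (Finset.range N ×ˢ Finset.range N).filter (fun q => q.1 + q.2 < N),
        a q.1 * b q.2 := by
    rw [← Finset.sum_fiberwise_of_maps_to (s := (Finset.range N ×ˢ Finset.range N).filter
      (fun q => q.1 + q.2 < N)) (t := Finset.range N) (g := fun q => q.1 + q.2)]
    · refine Finset.sum_congr rfl fun k hk => ?_
      refine Finset.sum_congr ?_ fun _ _ => rfl
      ext q
      simp only [Finset.HasAntidiagonal.mem_antidiagonal, Finset.mem_filter, Finset.mem_product,
        Finset.mem_range] at hk ⊢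
      omega
    · intro q hq
      simp only [Finset.mem_filter, Finset.mem_range] at hq ⊢
      exact hq.2
  rw [h1, Finset.sum_mul_sum, ← Finset.sum_product', ← Finset.sum_filter_add_sum_filter_not
    (Finset.range N ×ˢ Finset.range N) (fun q => q.1 + q.2 < N), add_sub_cancel_left]
  refine Dv_sum _ _ fun q hq => ?_
  simp only [Finset.mem_filter, not_lt] at hq
  refine (Dv.mul (ha q.1) (hb q.2)).mono ?_
  have h2 : (N : ℚ) ≤ q.1 + q.2 := by exact_mod_cast hq.2
  linarith

/-- an additive map which is a small perturbation of the identity is bijective -/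
theorem bijective_of_Dv (f : HahnSeries ℚ L → HahnSeries ℚ L)
    (hadd : ∀ x y, f (x + y) = f x + f y) (h : ∀ g x, Dv g x → Dv (g + 1) (f x - x)) :
    Function.Bijective f := by
  have h0 : f 0 = 0 := by
    have := hadd 0 0
    rw [add_zero] at this
    exact left_eq_add.1 this
  have hneg : ∀ x, f (-x) = -f x := by
    intro x
    have := hadd x (-x)
    rw [add_neg_cancel, h0] at this
    exact (neg_eq_of_add_eq_zero_right this.symm).symm
  have hsub : ∀ x y, f (x - y) = f x - f y := by
    intro x y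
    rw [sub_eq_add_neg, hadd, hneg, ← sub_eq_add_neg]
  constructor
  · intro x y hxy
    by_contra hne
    have h1 : x - y ≠ 0 := sub_ne_zero.2 hne
    have h2 := h _ _ (Dv_order (x - y))
    rw [hsub, hxy, sub_self, zero_sub] at h2
    have h3 := h2.neg
    rw [neg_neg] at h3
    exact coeff_order_eq_zero.not.2 h1 (h3 _ (by linarith))
  · intro y
    -- the Neumann series
    let u : ℕ → HahnSeries ℚ L := fun n => (fun x => x - f x)^[n] y
    have hu : ∀ n : ℕ, Dv (y.order + n) (u n) := by
      intro n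
      induction n with
      | zero =>
        rw [Nat.cast_zero, add_zero]
        exact Dv_order y
      | succ n ih =>
        have h1 : u (n + 1) = -(f (u n) - u n) := by
          show (fun x => x - f x)^[n + 1] y = _
          rw [Function.iterate_succ_apply', neg_sub]
        rw [h1, Nat.cast_succ, ← add_assoc]
        exact (h _ _ ih).neg
    have hsum : ∀ n, f (∑ i ∈ Finset.range n, u i) = y - u n := by
      intro n
      induction n with
      | zero =>
        rw [Finset.range_zero, Finset.sum_empty, h0]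
        exact (sub_self y).symm
      | succ n ih =>
        rw [Finset.sum_range_succ, hadd, ih]
        have h1 : u (n + 1) = u n - f (u n) := by
          show (fun x => x - f x)^[n + 1] y = _
          rw [Function.iterate_succ_apply']
        rw [h1]
        ring
    obtain ⟨w, hw⟩ := exists_lim (fun n => ∑ i ∈ Finset.range n, u i)
      (fun n : ℕ => y.order + n) (fun g => by
        obtain ⟨n, hn⟩ := exists_nat_gt (g - y.order)
        exact ⟨n, by linarith⟩) (fun m n hmn => by
        have h1 : ∑ i ∈ Finset.range n, u i - ∑ i ∈ Finset.range m, u i =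
            ∑ i ∈ Finset.Ico m n, u i := by
          rw [Finset.sum_Ico_eq_sub _ hmn]
        show Dv _ (∑ i ∈ Finset.range n, u i - ∑ i ∈ Finset.range m, u i)
        rw [h1]
        refine Dv_sum _ _ fun i hi => (hu i).mono ?_
        have h2 : (m : ℚ) ≤ i := by exact_mod_cast (Finset.mem_Ico.1 hi).1
        linarith)
    refine ⟨w, ?_⟩
    rw [← sub_eq_zero]
    refine eq_zero_of_Dv' y.order fun n => ?_
    have h1 : f w - y = f (w - ∑ i ∈ Finset.range n, u i) - u n := by
      rw [hsub, hsum]
      ring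
    rw [h1]
    have h2 := h _ _ (hw n)
    have h3 := (h2.mono (by linarith : y.order + (n : ℚ) ≤ y.order + n + 1)).add (hw n)
    rw [sub_add_cancel] at h3
    rw [sub_eq_add_neg]
    exact h3.add (hu n).neg

variable (D : DerZ L)

/-- the terms `ε ^ n D ^ n x / n!` -/
def un (n : ℕ) (x : HahnSeries ℚ L) : HahnSeries ℚ L :=
  C ((n.factorial : L)⁻¹) * (tp L (n : ℚ) * (hD D)^[n] x)

theorem hD_iter_add (n : ℕ) (x y : HahnSeries ℚ L) :
    (hD D)^[n] (x + y) = (hD D)^[n] x + (hD D)^[n] y := by
  induction n with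
  | zero => rfl
  | succ n ih => rw [Function.iterate_succ_apply', Function.iterate_succ_apply',
      Function.iterate_succ_apply', ih, map_add]

theorem Dv_hD_iter {g : ℚ} {x : HahnSeries ℚ L} (hx : Dv g x) (n : ℕ) :
    Dv g ((hD D)^[n] x) := by
  induction n with
  | zero => exact hx
  | succ n ih =>
    rw [Function.iterate_succ_apply']
    exact Dv_hD D ih

theorem un_add (n : ℕ) (x y : HahnSeries ℚ L) : un D n (x + y) = un D n x + un D n y := by
  unfold un
  rw [hD_iter_add]
  ring

theorem un_zero (x : HahnSeries ℚ L) : un D 0 x = x := by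
  show C (((Nat.factorial 0 : ℕ) : L)⁻¹) * (tp L ((0 : ℕ) : ℚ) * x) = x
  rw [Nat.factorial_zero, Nat.cast_one, inv_one, map_one, Nat.cast_zero, tp_zero, one_mul,
    one_mul]

theorem Dv_un {g : ℚ} {x : HahnSeries ℚ L} (hx : Dv g x) (n : ℕ) : Dv (g + n) (un D n x) := by
  have h1 : Dv (0 + (n + g)) (un D n x) := Dv.mul (Dv_C _) (Dv.mul Dv_tp (Dv_hD_iter D hx n))
  rw [zero_add, add_comm] at h1
  exact h1

theorem hD_iter_mul (n : ℕ) (x y : HahnSeries ℚ L) :
    (hD D)^[n] (x * y) = ∑ q ∈ Finset.HasAntidiagonal.antidiagonal n, n.choose q.1 •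
      ((hD D)^[q.1] x * (hD D)^[q.2] y) := by
  induction n with
  | zero => simp
  | succ n ih =>
    rw [Finset.sum_antidiagonal_choose_succ_nsmul
      (fun i j => (hD D)^[i] x * (hD D)^[j] y) n]
    simp only [Function.iterate_succ_apply', ih, map_sum, map_nsmul, DerZ.mul, smul_add,
      Finset.sum_add_distrib]
    rw [add_comm]
    congr 1
    refine Finset.sum_congr rfl fun q hq => ?_
    rw [Finset.HasAntidiagonal.mem_antidiagonal] at hq
    rw [Nat.choose_symm_of_eq_add hq.symm]

variable [CharZero L]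

theorem un_mul (n : ℕ) (x y : HahnSeries ℚ L) :
    un D n (x * y) = ∑ q ∈ Finset.HasAntidiagonal.antidiagonal n, un D q.1 x * un D q.2 y := by
  unfold un
  rw [hD_iter_mul, Finset.mul_sum, Finset.mul_sum]
  refine Finset.sum_congr rfl fun q hq => ?_
  rw [Finset.HasAntidiagonal.mem_antidiagonal] at hq
  have h1 : tp L (n : ℚ) = tp L (q.1 : ℚ) * tp L (q.2 : ℚ) := by
    rw [tp_mul, ← Nat.cast_add, hq]
  have h2 : (C ((n.factorial : L)⁻¹) : HahnSeries ℚ L) * (n.choose q.1 : HahnSeries ℚ L) =
      C ((q.1.factorial : L)⁻¹) * C ((q.2.factorial : L)⁻¹) := by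
    rw [← map_natCast (C : L →+* HahnSeries ℚ L), ← map_mul, ← map_mul]
    congr 1
    have h3 : ((q.1 + q.2).choose q.1 : L) * (q.1.factorial : L) * (q.2.factorial : L) =
        ((q.1 + q.2).factorial : L) := by
      rw [Nat.choose_symm_add]
      exact_mod_cast congrArg (Nat.cast : ℕ → L)
        (Nat.add_choose_mul_factorial_mul_factorial q.1 q.2)
    have h4 : (q.1.factorial : L) ≠ 0 := by exact_mod_cast q.1.factorial_ne_zero
    have h5 : (q.2.factorial : L) ≠ 0 := by exact_mod_cast q.2.factorial_ne_zero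
    have h6 : (n.factorial : L) ≠ 0 := by exact_mod_cast n.factorial_ne_zero
    rw [hq] at h3
    field_simp
    linear_combination h3
  rw [h1, nsmul_eq_mul]
  linear_combination (tp L (q.1 : ℚ) * tp L (q.2 : ℚ) * (hD D)^[q.1] x * (hD D)^[q.2] y) * h2

omit [CharZero L] in
theorem exists_expF (x : HahnSeries ℚ L) : ∃ w : HahnSeries ℚ L, ∀ o : ℚ, Dv o x → ∀ N : ℕ,
    Dv (o + N) (w - ∑ n ∈ Finset.range N, un D n x) := by
  have hd : ∀ (o : ℚ), Dv o x → ∀ m n : ℕ, m ≤ n → Dv (o + m)
      (∑ i ∈ Finset.range n, un D i x - ∑ i ∈ Finset.range m, un D i x) := by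
    intro o ho m n hmn
    rw [← Finset.sum_Ico_eq_sub _ hmn]
    refine Dv_sum _ _ fun i hi => (Dv_un D ho i).mono ?_
    have h2 : (m : ℚ) ≤ i := by exact_mod_cast (Finset.mem_Ico.1 hi).1
    linarith
  obtain ⟨w, hw⟩ := exists_lim (fun n => ∑ i ∈ Finset.range n, un D i x)
    (fun n : ℕ => x.order + n) (fun g => by
      obtain ⟨n, hn⟩ := exists_nat_gt (g - x.order)
      exact ⟨n, by linarith⟩) (hd _ (Dv_order x))
  refine ⟨w, fun o ho N => ?_⟩
  obtain ⟨M, hM⟩ := exists_nat_gt (o + N - x.order)
  have h1 := hw (max M N)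
  have h2 := hd o ho N (max M N) (le_max_right _ _)
  have h3 : (M : ℚ) ≤ ((max M N : ℕ) : ℚ) := by exact_mod_cast le_max_left M N
  have h4 := (h1.mono (by linarith : o + (N : ℚ) ≤ x.order + ((max M N : ℕ) : ℚ))).add h2
  have h5 : w - ∑ i ∈ Finset.range (max M N), un D i x +
      (∑ i ∈ Finset.range (max M N), un D i x - ∑ i ∈ Finset.range N, un D i x) =
      w - ∑ n ∈ Finset.range N, un D n x := by ring
  rw [← h5]
  exact h4

/-- `exp (ε D)` as a function -/
def expF (x : HahnSeries ℚ L) : HahnSeries ℚ L := Classical.choose (exists_expF D x)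

omit [CharZero L] in
theorem expF_spec {x : HahnSeries ℚ L} {o : ℚ} (h : Dv o x) (N : ℕ) :
    Dv (o + N) (expF D x - ∑ n ∈ Finset.range N, un D n x) :=
  Classical.choose_spec (exists_expF D x) o h N

omit [CharZero L] in
theorem expF_unique {x w : HahnSeries ℚ L} {o : ℚ} (ho : Dv o x)
    (h : ∀ N : ℕ, Dv (o + N) (w - ∑ n ∈ Finset.range N, un D n x)) : w = expF D x := by
  rw [← sub_eq_zero]
  refine eq_zero_of_Dv' o fun N => ?_
  have h1 := (h N).add (expF_spec D ho N).neg
  have h2 : w - ∑ n ∈ Finset.range N, un D n x + -(expF D x - ∑ n ∈ Finset.range N, un D n x) =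
      w - expF D x := by ring
  rwa [h2] at h1

omit [CharZero L] in
theorem expF_near {x : HahnSeries ℚ L} {o : ℚ} (h : Dv o x) : Dv (o + 1) (expF D x - x) := by
  have h1 := expF_spec D h 1
  rw [Finset.sum_range_one, un_zero, Nat.cast_one] at h1
  exact h1

omit [CharZero L] in
theorem Dv_expF {x : HahnSeries ℚ L} {o : ℚ} (h : Dv o x) : Dv o (expF D x) := by
  have h1 := ((expF_near D h).mono (by linarith : o ≤ o + 1)).add h
  rwa [sub_add_cancel] at h1

omit [CharZero L] in
theorem expF_add (x y : HahnSeries ℚ L) : expF D (x + y) = expF D x + expF D y := by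
  have hx : Dv (min x.order y.order) x := (Dv_order x).mono (min_le_left _ _)
  have hy : Dv (min x.order y.order) y := (Dv_order y).mono (min_le_right _ _)
  refine (expF_unique D (hx.add hy) fun N => ?_).symm
  have h1 := (expF_spec D hx N).add (expF_spec D hy N)
  have h2 : expF D x + expF D y - ∑ n ∈ Finset.range N, un D n (x + y) =
      expF D x - ∑ n ∈ Finset.range N, un D n x + (expF D y - ∑ n ∈ Finset.range N, un D n y) := by
    simp only [un_add, Finset.sum_add_distrib]
    ring
  rwa [h2]

theorem expF_mul (x y : HahnSeries ℚ L) : expF D (x * y) = expF D x * expF D y := by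
  refine (expF_unique D (Dv.mul (Dv_order x) (Dv_order y)) fun N => ?_).symm
  have h1 := Dv_cauchy (a := fun n => un D n x) (b := fun n => un D n y)
    (fun n => Dv_un D (Dv_order x) n) (fun n => Dv_un D (Dv_order y) n) N
  have h2 : Dv (x.order + N + y.order)
      ((expF D x - ∑ n ∈ Finset.range N, un D n x) * expF D y) :=
    Dv.mul (expF_spec D (Dv_order x) N) (Dv_expF D (Dv_order y))
  have h3 : Dv (x.order + (y.order + N)) ((∑ n ∈ Finset.range N, un D n x) *
      (expF D y - ∑ n ∈ Finset.range N, un D n y)) := by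
    refine Dv.mul (Dv_sum _ _ fun n _ => (Dv_un D (Dv_order x) n).mono ?_)
      (expF_spec D (Dv_order y) N)
    have : (0 : ℚ) ≤ n := Nat.cast_nonneg n
    linarith
  have h4 : expF D x * expF D y - ∑ n ∈ Finset.range N, un D n (x * y) =
      (expF D x - ∑ n ∈ Finset.range N, un D n x) * expF D y +
      (∑ n ∈ Finset.range N, un D n x) * (expF D y - ∑ n ∈ Finset.range N, un D n y) +
      ((∑ n ∈ Finset.range N, un D n x) * (∑ n ∈ Finset.range N, un D n y) -
        ∑ k ∈ Finset.range N, ∑ q ∈ Finset.HasAntidiagonal.antidiagonal k, un D q.1 x * un D q.2 y) := by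
    simp only [un_mul]
    ring
  rw [h4]
  refine ((h2.mono ?_).add (h3.mono ?_)).add (h1.mono ?_) <;> linarith

omit [CharZero L] in
/-- the constants of `D` are fixed -/
theorem expF_C {c : L} (hc : D c = 0) : expF D (C c) = C c := by
  refine (expF_unique D (Dv_C c) fun N => ?_).symm
  have h0 : ∀ n : ℕ, (hD D)^[n + 1] (C c) = 0 := by
    intro n
    rw [Function.iterate_succ_apply, hD_C, hc, map_zero]
    induction n with
    | zero => rfl
    | succ n ih => rw [Function.iterate_succ_apply', ih, map_zero]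
  have h1 : ∀ n : ℕ, un D (n + 1) (C c) = 0 := by
    intro n
    unfold un
    rw [h0, mul_zero, mul_zero]
  cases N with
  | zero =>
    rw [Finset.range_zero, Finset.sum_empty, sub_zero, Nat.cast_zero, add_zero]
    exact Dv_C c
  | succ N =>
    rw [Finset.sum_range_succ', un_zero, Finset.sum_eq_zero (fun n _ => h1 n), zero_add (C c),
      sub_self]
    exact Dv.zero

/-- the automorphism `exp (ε D)` -/
def expD : HahnSeries ℚ L ≃+* HahnSeries ℚ L :=
  RingEquiv.ofBijective
    ({ toFun := expF D
       map_one' := by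
         have h := expF_C D (c := (1 : L)) (by simp)
         rwa [map_one] at h
       map_zero' := by
         have h := expF_C D (c := (0 : L)) (map_zero D)
         rwa [map_zero] at h
       map_add' := expF_add D
       map_mul' := expF_mul D } : HahnSeries ℚ L →+* HahnSeries ℚ L)
    (bijective_of_Dv _ (expF_add D) fun _ _ h => expF_near D h)

theorem expD_apply (x : HahnSeries ℚ L) : expD D x = expF D x := rfl

theorem coeff_expD {x : HahnSeries ℚ L} {g : ℚ} (h : Dv g x) :
    (expD D x).coeff g = x.coeff g := by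
  have h1 := expF_near D h g (by linarith)
  rw [coeff_sub, sub_eq_zero] at h1
  exact h1

theorem Dv_expD_iff (x : HahnSeries ℚ L) (g : ℚ) : Dv g (expD D x) ↔ Dv g x := by
  constructor
  · intro h
    by_cases h0 : x = 0
    · rw [h0]
      exact Dv.zero
    · refine (Dv_order x).mono ?_
      by_contra hc
      have h1 := h _ (not_le.1 hc)
      rw [coeff_expD D (Dv_order x)] at h1
      exact coeff_order_eq_zero.not.2 h0 h1
  · exact fun h => Dv_expF D h

/-- the derivative of the image of a constant -/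
theorem coeff_one_expD (c : L) : (expD D (C c)).coeff 1 = D c := by
  have h1 := expF_spec D (Dv_C c) 2 1 (by norm_num)
  have h2 : (C c : HahnSeries ℚ L).coeff 1 = 0 := by
    rw [C_apply, coeff_single_of_ne one_ne_zero]
  rw [coeff_sub, sub_eq_zero, Finset.sum_range_succ, Finset.sum_range_one, un_zero,
    coeff_add, h2, zero_add] at h1
  rw [expD_apply, h1]
  unfold un
  rw [Function.iterate_one, hD_C, Nat.factorial_one, Nat.cast_one, inv_one, map_one, one_mul,
    coeff_tp_mul, Nat.cast_one, sub_self, C_apply, coeff_single_same]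

/-- the differential equation of `exp (ε D)` -/
theorem hd_expD (x : HahnSeries ℚ L) : hd L (expD D x) = expD D (hD D x + hd L x) := by
  have h0 : ∀ n : ℕ, ∀ y : HahnSeries ℚ L, hd L ((hD D)^[n] y) = (hD D)^[n] (hd L y) := by
    intro n
    induction n with
    | zero => intro y; rfl
    | succ n ih =>
      intro y
      rw [Function.iterate_succ_apply, ih, Function.iterate_succ_apply, hD_hd]
  have h1 : ∀ n : ℕ, hd L (un D (n + 1) x) = un D n (hD D x) + un D (n + 1) (hd L x) := by
    intro n
    unfold un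
    rw [DerZ.mul, DerZ.mul, hd_C, hd_tp, h0, zero_mul, zero_add, ← Function.iterate_succ_apply,
      mul_add]
    congr 1
    have h2 : (single ((((n + 1 : ℕ) : ℚ)) - 1) ((((n + 1 : ℕ) : ℚ)) : L) : HahnSeries ℚ L) =
        C ((n + 1 : ℕ) : L) * tp L (n : ℚ) := by
      rw [C_apply, tp, single_mul_single, zero_add, mul_one, Nat.cast_succ, add_sub_cancel_right]
      congr 1
      push_cast
      rfl
    have h3 : ((((n + 1).factorial : ℕ) : L)⁻¹) * ((n + 1 : ℕ) : L) = ((n.factorial : ℕ) : L)⁻¹ := by
      have h4 : (n.factorial : L) ≠ 0 := by exact_mod_cast n.factorial_ne_zero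
      have h5 : ((n + 1 : ℕ) : L) ≠ 0 := by exact_mod_cast n.succ_ne_zero
      rw [Nat.factorial_succ, Nat.cast_mul]
      field_simp
    rw [h2, ← h3, map_mul]
    ring
  rw [← sub_eq_zero]
  refine eq_zero_of_Dv' (x.order - 1) fun N => ?_
  have e1 := Dv_hd (expF_spec D (Dv_order x) (N + 1))
  have e2 := expF_spec D (Dv_hD D (Dv_order x)) N
  have e3 := expF_spec D (Dv_hd (Dv_order x)) (N + 1)
  have e4 : hd L (∑ n ∈ Finset.range (N + 1), un D n x) =
      ∑ n ∈ Finset.range N, un D n (hD D x) + ∑ n ∈ Finset.range (N + 1), un D n (hd L x) := by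
    rw [map_sum, Finset.sum_range_succ', Finset.sum_range_succ' (fun n => un D n (hd L x)),
      un_zero, un_zero, ← add_assoc, ← Finset.sum_add_distrib]
    congr 1
    exact Finset.sum_congr rfl fun n _ => h1 n
  have e5 : hd L (expD D x) - expD D (hD D x + hd L x) =
      hd L (expF D x - ∑ n ∈ Finset.range (N + 1), un D n x) +
      -(expF D (hD D x) - ∑ n ∈ Finset.range N, un D n (hD D x)) +
      -(expF D (hd L x) - ∑ n ∈ Finset.range (N + 1), un D n (hd L x)) := by
    rw [map_sub, e4, expD_apply, expD_apply, expF_add]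
    ring
  rw [e5]
  have hN : (((N + 1 : ℕ) : ℚ)) = N + 1 := by push_cast; ring
  rw [hN] at e1 e3
  refine ((e1.mono ?_).add (e2.neg.mono ?_)).add (e3.neg.mono ?_) <;> linarith

end

end Cm
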