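import Pool.Agent.Lib.MP_c35b50_lc.Cm.CertF

/-!
# The common kernel of the derivations compatible with `f_α`
-/

namespace Cm

variable (p : ℕ) [Fact p.Prime] {K : Type} [Field K] [TField ℤ_[p] K]

/-- `{x | D x = 0 for all D ∈ Der_f (K)}` -/
def kerM (α : K) : Subfield K where
  carrier := {x | ∀ D ∈ DerF p α (Empty.elim : Empty → K), D x = 0}
  zero_mem' := fun D _ => map_zero D
  one_mem' := fun D _ => Derivation.map_one_eq_zero D
  add_mem' := by
    intro x y hx hy D hD
    rw [map_add, hx D hD, hy D hD, add_zero]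
  neg_mem' := by
    intro x hx D hD
    rw [map_neg, hx D hD, neg_zero]
  mul_mem' := by
    intro x y hx hy D hD
    rw [Derivation.leibniz, hx D hD, hy D hD, smul_zero, smul_zero, add_zero]
  inv_mem' := by
    intro x hx D hD
    rw [Derivation.leibniz_inv, hx D hD, smul_zero]

theorem mem_kerM {α x : K} :
    x ∈ kerM p α ↔ ∀ D ∈ DerF p α (Empty.elim : Empty → K), D x = 0 := Iff.rfl

/-- a derivation of a field of characteristic zero vanishes at the elements algebraic over its kernel -/
theorem der_algebraic {K : Type} [Field K] [CharZero K] (D : Derivation ℤ K K) (M : Subfield K)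
    (hM : ∀ x ∈ M, D x = 0) (x : K) (hx : IsAlgebraic M x) : D x = 0 := by
  have hint : IsIntegral M x := hx.isIntegral
  let D' : Derivation M K K := Derivation.mk'
    { toFun := D
      map_add' := map_add D
      map_smul' := by
        intro a y
        rw [Algebra.smul_def, Derivation.leibniz]
        have h1 : D (algebraMap M K a) = 0 := hM _ a.2
        rw [h1, smul_zero, add_zero]
        rfl }
    (fun a b => D.leibniz a b)
  have h1 : D' (Polynomial.aeval x (minpoly M x)) = 0 := by rw [minpoly.aeval, map_zero]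
  have h2 : D' (Polynomial.aeval x (minpoly M x)) =
      Polynomial.aeval x (Polynomial.derivative (minpoly M x)) • D' x :=
    Derivation.map_aeval D' (minpoly M x) x
  rw [h2, smul_eq_mul, mul_eq_zero] at h1
  rcases h1 with h1 | h1
  · exfalso
    have hsep : (minpoly M x).Separable := (minpoly.irreducible hint).separable
    exact hsep.aeval_derivative_ne_zero (minpoly.aeval M x) h1
  · exact h1

/-- `kerM` is algebraically closed in `K` -/
theorem kerM_algebraic [CharZero K] (α x : K) (hx : IsAlgebraic (kerM p α) x) : x ∈ kerM p α :=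
  fun D hD => der_algebraic D (kerM p α) (fun _ hy => hy D hD) x hx

theorem kerM_isAlgClosed [CharZero K] [IsAlgClosed K] (α : K) : IsAlgClosed (kerM p α) := by
  refine IsAlgClosed.of_exists_root _ fun f hf hirr => ?_
  obtain ⟨x, hx⟩ := IsAlgClosed.exists_aeval_eq_zero K f
    (Polynomial.degree_pos_of_irreducible hirr).ne'
  have hxM : x ∈ kerM p α := kerM_algebraic p α x ⟨f, hirr.ne_zero, hx⟩
  refine ⟨⟨x, hxM⟩, ?_⟩
  have h1 : algebraMap (kerM p α) K (Polynomial.eval ⟨x, hxM⟩ f) = Polynomial.aeval x f := by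
    have h2 := (Polynomial.aeval_algebraMap_apply K (⟨x, hxM⟩ : kerM p α) f).symm
    rw [Polynomial.coe_aeval_eq_eval] at h2
    exact h2
  rw [hx] at h1
  exact (map_eq_zero _).1 h1

/-- elements algebraic over the prime field are in `kerM` -/
theorem kerM_of_int [CharZero K] (α x : K) (hx : IsAlgebraic ℤ x) : x ∈ kerM p α := by
  refine kerM_algebraic p α x ?_
  exact IsAlgebraic.extendScalars (R := ℤ) (S := kerM p α)
    (algebraMap ℤ (kerM p α)).injective_int hx

/-- `kerM` is closed under `f_α` -/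
theorem kerM_gr (α x z : K) (hx : x ∈ kerM p α) (h : Gr p α x z) (h1 : 1 + x ≠ 0) :
    z ∈ kerM p α := by
  intro D hD
  have := hD.2 x z h
  rw [hx D hD, mul_zero, mul_eq_zero] at this
  exact this.resolve_left h1

/-- elements with a certificate over `kerM` are in `kerM` -/
theorem kerM_cert {κ : Type} (α : K) (τ : CT κ) (w : κ → K) (c : K) (hw : ∀ m, w m ∈ kerM p α)
    (h : τ.Has p α w c) : c ∈ kerM p α := by
  intro D hD
  refine (exists_has_iff_der p α w c).1 ⟨τ, h⟩ D ⟨fun m => hw m D hD, hD.2⟩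

theorem one_add_ne_zero [KK p K] {α x z : K} (h : Gr p α x z) : 1 + x ≠ 0 := by
  obtain ⟨ρ, hρ, rfl, -⟩ := h
  intro h0
  have hp : (p : K) ∈ mm ℤ_[p] K := KK.pm
  have h1 : (p : K) ^ 2 * ρ ∈ mm ℤ_[p] K :=
    TRing.m_mul _ ((OO ℤ_[p] K).pow_mem (TRing.m_le _ hp) 2) _ hρ
  have h2 : (1 : K) ∈ mm ℤ_[p] K := by
    have h3 : (1 : K) = (-1) * ((p : K) ^ 2 * ρ) := by linear_combination h0
    rw [h3]
    exact TRing.m_mul _ ((OO ℤ_[p] K).neg_mem (OO ℤ_[p] K).one_mem) _ h1
  obtain ⟨-, h3⟩ := (TField.m_iff (R := ℤ_[p]) (K := K) 1).1 h2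
  rcases h3 with h3 | h3
  · exact one_ne_zero h3
  · rw [inv_one] at h3
    exact h3 (OO ℤ_[p] K).one_mem

end Cm
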