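import Pool.Agent.Lib.MP_c35b50_lc.Cm.ExpD
import Pool.Agent.Lib.MP_c35b50_lc.Cm.HahnC
import Pool.Agent.Lib.MP_c35b50_lc.Cm.HahnK
import Pool.Agent.Lib.MP_c35b50_lc.Cm.SeriesE
import Pool.Agent.Lib.MP_c35b50_lc.Cm.KerM

/-!
# `exp (ε D)` respects `f_α`

`D` a derivation of `L` compatible with `f_α`, `D α = 0`.
-/

namespace Cm

open Pool.Agent.Lib.MP_c35b50_lc.Cm

noncomputable section

variable {p : ℕ} [Fact p.Prime]

theorem coeff_unit {P : Type} [CommRing P] (F : MvPowerSeries Unit P) (k : ℕ) :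
    PowerSeries.coeff k F = MvPowerSeries.coeff (Finsupp.single () k) F := rfl

variable (p) in
/-- the differential equation of `(1 + p ^ 2 ρ) ^ ξ` -/
theorem drho_Eser : (1 + (p : S ℤ_[p] Unit Unit) ^ 2 * rho ()) * drho () (Eser p) =
    (p : S ℤ_[p] Unit Unit) ^ 2 * xi () * Eser p := by
  have hd : ∀ k, PowerSeries.coeff k (drho () (Eser p) : PowerSeries (MvPolynomial Unit ℤ_[p])) =
      PowerSeries.coeff (k + 1) (Eser p) * ((k : MvPolynomial Unit ℤ_[p]) + 1) := by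
    intro k
    rw [coeff_unit, drho, MvPowerSeries.coeff_pderiv, coeff_unit, ← Finsupp.single_add,
      Finsupp.single_eq_same]
  have hrec : ∀ k : ℕ, ((k : MvPolynomial Unit ℤ_[p]) + 1) * PowerSeries.coeff (k + 1) (Eser p) =
      (p : MvPolynomial Unit ℤ_[p]) ^ 2 * (MvPolynomial.X () - (k : MvPolynomial Unit ℤ_[p])) *
        PowerSeries.coeff k (Eser p) := by
    intro k
    rw [Se.coeff_Eser, Se.coeff_Eser, Finset.prod_range_succ]
    have h4 : ((k : MvPolynomial Unit ℤ_[p]) + 1) * MvPolynomial.C (pk p (k + 1)) =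
        (p : MvPolynomial Unit ℤ_[p]) ^ 2 * MvPolynomial.C (pk p k) := by
      have h5 := congrArg (MvPolynomial.C (σ := Unit)) (Se.pk_succ p k)
      rw [map_mul, map_mul, map_natCast, map_pow, map_natCast, Nat.cast_succ] at h5
      exact h5
    simp only [map_natCast]
    linear_combination ((∏ i ∈ Finset.range k, (MvPolynomial.X () -
      (i : MvPolynomial Unit ℤ_[p]))) * (MvPolynomial.X () - (k : MvPolynomial Unit ℤ_[p]))) * h4
  have hp : (p : S ℤ_[p] Unit Unit) ^ 2 =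
      PowerSeries.C ((p : MvPolynomial Unit ℤ_[p]) ^ 2) := by
    rw [map_pow, map_natCast]
  have h1 : ∀ k, PowerSeries.coeff k ((1 + (p : S ℤ_[p] Unit Unit) ^ 2 * rho ()) *
      drho () (Eser p) : PowerSeries (MvPolynomial Unit ℤ_[p])) =
      PowerSeries.coeff (k + 1) (Eser p) * ((k : MvPolynomial Unit ℤ_[p]) + 1) +
      (p : MvPolynomial Unit ℤ_[p]) ^ 2 * (PowerSeries.coeff k (Eser p) *
        (k : MvPolynomial Unit ℤ_[p])) := by
    intro k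
    have h2 : ((1 + (p : S ℤ_[p] Unit Unit) ^ 2 * rho ()) * drho () (Eser p) :
        PowerSeries (MvPolynomial Unit ℤ_[p])) = drho () (Eser p) +
        PowerSeries.C ((p : MvPolynomial Unit ℤ_[p]) ^ 2) *
          (PowerSeries.X * drho () (Eser p)) := by
      rw [← hp]
      have h3 : (rho () : S ℤ_[p] Unit Unit) = (PowerSeries.X : PowerSeries _) := rfl
      rw [← h3]
      ring
    rw [h2, map_add, hd, PowerSeries.coeff_C_mul]
    congr 2
    cases k with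
    | zero => rw [PowerSeries.coeff_zero_X_mul, Nat.cast_zero, mul_zero]
    | succ k => rw [PowerSeries.coeff_succ_X_mul, hd, Nat.cast_succ]
  have h2 : ∀ k, PowerSeries.coeff k ((p : S ℤ_[p] Unit Unit) ^ 2 * xi () * Eser p :
      PowerSeries (MvPolynomial Unit ℤ_[p])) =
      (p : MvPolynomial Unit ℤ_[p]) ^ 2 * (MvPolynomial.X () * PowerSeries.coeff k (Eser p)) := by
    intro k
    rw [hp]
    have h3 : (xi () : S ℤ_[p] Unit Unit) = PowerSeries.C (MvPolynomial.X ()) := rfl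
    rw [h3, mul_assoc, PowerSeries.coeff_C_mul, PowerSeries.coeff_C_mul]
  refine PowerSeries.ext fun k => ?_
  rw [h1, h2]
  linear_combination hrec k

section Field

variable {K : Type} [Field K] [TField ℤ_[p] K]

/-- the differential equation of `ρ ↦ (1 + p ^ 2 ρ) ^ α` -/
theorem ev_drho_Eser {α ρ : K} (hα : α ∈ OO ℤ_[p] K) (hρ : ρ ∈ mm ℤ_[p] K) :
    (1 + (p : K) ^ 2 * ρ) * ev (drho () (Eser p)) (fun _ => α) (fun _ => ρ) =
      (p : K) ^ 2 * α * ee (p := p) α ρ := by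
  have h := congrArg (evHom _ _ (Se.domU hα hρ)) (drho_Eser p)
  have h1 : evHom _ _ (Se.domU hα hρ) (rho () : S ℤ_[p] Unit Unit) = ρ :=
    TRing.T_rho _ _ (Se.domU hα hρ).1 (Se.domU hα hρ).2 ()
  have h2 : evHom _ _ (Se.domU hα hρ) (xi () : S ℤ_[p] Unit Unit) = α :=
    TRing.T_xi _ _ (Se.domU hα hρ).1 (Se.domU hα hρ).2 ()
  rw [map_mul, map_add, map_one, map_mul, map_pow, map_natCast, h1, map_mul, map_mul, map_pow,
    map_natCast, h2] at h
  exact h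

end Field

section Hahn

variable {L : Type} [Field L]

theorem lin_ode [CharZero L] {u r X Y : HahnSeries ℚ L} (hu : u ≠ 0) (hY : Y ≠ 0)
    (h1 : u * hd L X = r * X) (h2 : u * hd L Y = r * Y) :
    ∃ c : L, X = HahnSeries.C c * Y := by
  have h3 : X = X * Y⁻¹ * Y := by rw [mul_assoc, inv_mul_cancel₀ hY, mul_one]
  have h4 : hd L X = hd L (X * Y⁻¹) * Y + X * Y⁻¹ * hd L Y := by
    conv_lhs => rw [h3]
    rw [DerZ.mul]
  have h5 : u * Y * hd L (X * Y⁻¹) = 0 := by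
    have h6 : r * X = r * (X * Y⁻¹ * Y) := by rw [← h3]
    linear_combination h1 - u * h4 - (X * Y⁻¹) * h2 + h6
  have h7 := (mul_eq_zero.1 h5).resolve_left (mul_ne_zero hu hY)
  rw [hd_eq_zero_iff] at h7
  exact ⟨_, by rw [← h7]; exact h3⟩

theorem cz_mul {x y : HahnSeries ℚ L} (hx : Dv 0 x) (hy : Dv 0 y) :
    (x * y).coeff 0 = x.coeff 0 * y.coeff 0 := by
  have h := coeff_mul_Dv hx hy
  rwa [add_zero] at h

theorem Dv_natCast (n : ℕ) : Dv 0 (n : HahnSeries ℚ L) := natCast_mem (Ov ℚ L) n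

theorem coeff_natCast (n : ℕ) : (n : HahnSeries ℚ L).coeff 0 = (n : L) := by
  rw [← map_natCast (HahnSeries.C : L →+* HahnSeries ℚ L), coeff_zero_C]

variable [TField ℤ_[p] L]

section

variable {α : L} (hα : α ∈ OO ℤ_[p] L) {ρ : HahnSeries ℚ L}
  (hρ : ρ ∈ mm ℤ_[p] (HahnSeries ℚ L))

include hα hρ

theorem hd_ee [CharZero L] : (1 + (p : HahnSeries ℚ L) ^ 2 * ρ) *
    hd L (ee (p := p) (HahnSeries.C α) ρ) =
      (p : HahnSeries ℚ L) ^ 2 * HahnSeries.C α * ee (p := p) (HahnSeries.C α) ρ * hd L ρ := by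
  have hα' : (HahnSeries.C α : HahnSeries ℚ L) ∈ OO ℤ_[p] (HahnSeries ℚ L) := C_mem_OO.2 hα
  have h := hd_ev (Eser p) (Se.domU hα' hρ)
  rw [Fintype.sum_unique, Fintype.sum_unique, hd_C, mul_zero, zero_add] at h
  have h2 := ev_drho_Eser (p := p) hα' hρ
  have h3 : hd L (ee (p := p) (HahnSeries.C α) ρ) =
    ev (drho () (Eser p)) (fun _ => HahnSeries.C α) (fun _ => ρ) * hd L ρ := h
  rw [h3, ← mul_assoc, h2]

theorem coeff_zero_ee : (ee (p := p) (HahnSeries.C α) ρ).coeff 0 =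
    ee (p := p) α (ρ.coeff 0) := by
  have hα' : (HahnSeries.C α : HahnSeries ℚ L) ∈ OO ℤ_[p] (HahnSeries ℚ L) := C_mem_OO.2 hα
  have h := coeff_zero_ev (Eser p) (Se.domU hα' hρ)
  simp only [coeff_zero_C] at h
  exact h

theorem Dv_ee : Dv 0 (ee (p := p) (HahnSeries.C α) ρ) := by
  have hα' : (HahnSeries.C α : HahnSeries ℚ L) ∈ OO ℤ_[p] (HahnSeries ℚ L) := C_mem_OO.2 hα
  exact (TRing.T_mem (Eser p) _ _ (Se.domU hα' hρ).1 (Se.domU hα' hρ).2).1

end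

variable [KK p L]

theorem uu_ne {K : Type} [Field K] [TField ℤ_[p] K] [KK p K] {ρ : K} (hρ : ρ ∈ mm ℤ_[p] K) :
    1 + (p : K) ^ 2 * ρ ≠ 0 :=
  one_add_ne_zero p (α := 0) (z := ee (p := p) 0 ρ) ⟨ρ, hρ, rfl, rfl⟩

theorem hD_ee (D : DerZ L) {α : L} (hα : α ∈ OO ℤ_[p] L)
    (hD : D ∈ DerF p α (Empty.elim : Empty → L)) (hDα : D α = 0) {ρ : HahnSeries ℚ L}
    (hρ : ρ ∈ mm ℤ_[p] (HahnSeries ℚ L)) : (1 + (p : HahnSeries ℚ L) ^ 2 * ρ) *
      Cm.hD D (ee (p := p) (HahnSeries.C α) ρ) =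
      (p : HahnSeries ℚ L) ^ 2 * HahnSeries.C α * ee (p := p) (HahnSeries.C α) ρ *
        Cm.hD D ρ := by
  have : CharZero L := KK.zero p
  have hy := hd_ee hα hρ
  have hP : (p : HahnSeries ℚ L) ^ 2 = HahnSeries.C ((p : L) ^ 2) := by
    rw [map_pow, map_natCast]
  have hyD := Dv_ee hα hρ
  have hy0 := coeff_zero_ee hα hρ
  have hyn : ee (p := p) (HahnSeries.C α) ρ ≠ 0 :=
    ee_ne_zero _ _ (C_mem_OO.2 hα) hρ
  have hun := uu_ne hρ
  have hρD : Dv 0 ρ := hρ.1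
  set y : HahnSeries ℚ L := ee (p := p) (HahnSeries.C α) ρ with hydef
  set A : HahnSeries ℚ L := (p : HahnSeries ℚ L) ^ 2 * HahnSeries.C α with hA
  have hDp : D ((p : L) ^ 2) = 0 := by
    have h := D.map_natCast (p ^ 2)
    rwa [Nat.cast_pow] at h
  have hAC : A = HahnSeries.C ((p : L) ^ 2 * α) := by rw [hA, hP, map_mul]
  have hdA : hd L A = 0 := by rw [hAC, hd_C]
  have hDA : Cm.hD D A = 0 := by rw [hAC, hD_C, DerZ.mul, hDp, hDα, zero_mul, mul_zero,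
    add_zero, map_zero]
  have hdP : hd L ((p : HahnSeries ℚ L) ^ 2) = 0 := by rw [hP, hd_C]
  have hDP : Cm.hD D ((p : HahnSeries ℚ L) ^ 2) = 0 := by rw [hP, hD_C, hDp, map_zero]
  have hd1 : hd L (1 : HahnSeries ℚ L) = 0 := by
    have h := hd_C (L := L) 1
    rwa [map_one] at h
  have hD1 : Cm.hD D (1 : HahnSeries ℚ L) = 0 := by
    have h := hD_C D (1 : L)
    rwa [map_one, D.map_one_eq_zero, map_zero] at h
  have hdu : hd L (1 + (p : HahnSeries ℚ L) ^ 2 * ρ) = (p : HahnSeries ℚ L) ^ 2 * hd L ρ := by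
    rw [map_add, hd1, DerZ.mul, hdP, zero_mul, zero_add, zero_add]
  have hDu : Cm.hD D (1 + (p : HahnSeries ℚ L) ^ 2 * ρ) =
      (p : HahnSeries ℚ L) ^ 2 * Cm.hD D ρ := by
    rw [map_add, hD1, DerZ.mul, hDP, zero_mul, zero_add, zero_add]
  have h1 := congrArg (Cm.hD D) hy
  rw [DerZ.mul, DerZ.mul, DerZ.mul, hDu, hDA, zero_mul, zero_add, hD_hd, hD_hd] at h1
  set u : HahnSeries ℚ L := 1 + (p : HahnSeries ℚ L) ^ 2 * ρ with hu
  set W : HahnSeries ℚ L := u * Cm.hD D y - A * y * Cm.hD D ρ with hW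
  have hdW : hd L W = (p : HahnSeries ℚ L) ^ 2 * hd L ρ * Cm.hD D y + u * hd L (Cm.hD D y) -
      (A * hd L y * Cm.hD D ρ + A * y * hd L (Cm.hD D ρ)) := by
    rw [hW, map_sub, DerZ.mul, DerZ.mul, DerZ.mul, hdu, hdA]
    ring
  have e1 : u * hd L W = (((p : HahnSeries ℚ L) ^ 2 + A) * hd L ρ) * W := by
    rw [hdW, hW]
    linear_combination u * h1 - ((p : HahnSeries ℚ L) ^ 2 + A) * Cm.hD D ρ * hy
  have e2 : u * hd L (u * y) = (((p : HahnSeries ℚ L) ^ 2 + A) * hd L ρ) * (u * y) := by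
    rw [DerZ.mul, hdu]
    linear_combination u * hy
  obtain ⟨c, hc⟩ := lin_ode hun (mul_ne_zero hun hyn) e1 e2
  -- constant coefficients
  have hPD : Dv 0 ((p : HahnSeries ℚ L) ^ 2) := by rw [hP]; exact Dv_C _
  have hAD : Dv 0 A := by rw [hAC]; exact Dv_C _
  have h1D : Dv 0 (1 : HahnSeries ℚ L) := (Ov ℚ L).one_mem
  have huD : Dv 0 u := h1D.add ((Ov ℚ L).mul_mem hPD hρD)
  have hP0 : ((p : HahnSeries ℚ L) ^ 2).coeff 0 = (p : L) ^ 2 := by rw [hP, coeff_zero_C]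
  have hA0 : A.coeff 0 = (p : L) ^ 2 * α := by rw [hAC, coeff_zero_C]
  have hu0 : u.coeff 0 = 1 + (p : L) ^ 2 * ρ.coeff 0 := by
    rw [hu, HahnSeries.coeff_add, HahnSeries.coeff_one, if_pos rfl, cz_mul hPD hρD, hP0]
  have hW0 : W.coeff 0 = 0 := by
    rw [hW, HahnSeries.coeff_sub, cz_mul huD (Dv_hD D hyD),
      cz_mul ((Ov ℚ L).mul_mem hAD hyD) (Dv_hD D hρD), cz_mul hAD hyD, hA0, hu0, coeff_hD,
      coeff_hD, hy0]
    have h2 := hD.2 ((p : L) ^ 2 * ρ.coeff 0) (ee (p := p) α (ρ.coeff 0)) ⟨ρ.coeff 0, hρ.2, rfl, rfl⟩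
    rw [DerZ.mul, hDp] at h2
    linear_combination h2
  have hV0 : (u * y).coeff 0 ≠ 0 := by
    rw [cz_mul huD hyD, hu0, hy0]
    exact mul_ne_zero (uu_ne hρ.2) (ee_ne_zero _ _ hα hρ.2)
  have hc0 : c = 0 := by
    have h2 := congrArg (fun z : HahnSeries ℚ L => z.coeff 0) hc
    rw [hW0, cz_mul (Dv_C c) ((Ov ℚ L).mul_mem huD hyD), coeff_zero_C] at h2
    exact (mul_eq_zero.1 h2.symm).resolve_right hV0
  rw [hc0, map_zero, zero_mul, hW, sub_eq_zero] at hc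
  exact hc

theorem expD_mem_mm (D : DerZ L) {ρ : HahnSeries ℚ L} :
    letI : CharZero L := KK.zero p
    expD D ρ ∈ mm ℤ_[p] (HahnSeries ℚ L) ↔ ρ ∈ mm ℤ_[p] (HahnSeries ℚ L) := by
  have : CharZero L := KK.zero p
  rw [mem_mm_hahn, mem_mm_hahn, Dv_expD_iff]
  constructor
  · rintro ⟨h1, h2⟩
    rw [coeff_expD D h1] at h2
    exact ⟨h1, h2⟩
  · rintro ⟨h1, h2⟩
    rw [← coeff_expD D h1] at h2
    exact ⟨h1, h2⟩

theorem expD_ee [CharZero L] (D : DerZ L) {α : L} (hα : α ∈ OO ℤ_[p] L)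
    (hD : D ∈ DerF p α (Empty.elim : Empty → L)) (hDα : D α = 0) {ρ : HahnSeries ℚ L}
    (hρ : ρ ∈ mm ℤ_[p] (HahnSeries ℚ L)) :
    expD D (ee (p := p) (HahnSeries.C α) ρ) = ee (p := p) (HahnSeries.C α) (expD D ρ) := by
  have hρ' : expD D ρ ∈ mm ℤ_[p] (HahnSeries ℚ L) := (expD_mem_mm D).2 hρ
  have hC : expD D ((p : HahnSeries ℚ L) ^ 2 * HahnSeries.C α) =
      (p : HahnSeries ℚ L) ^ 2 * HahnSeries.C α := by
    rw [map_mul, map_pow, map_natCast, expD_apply, expF_C D hDα]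
  have hu : expD D (1 + (p : HahnSeries ℚ L) ^ 2 * ρ) =
      1 + (p : HahnSeries ℚ L) ^ 2 * expD D ρ := by
    rw [map_add, map_one, map_mul, map_pow, map_natCast]
  have e1 : (1 + (p : HahnSeries ℚ L) ^ 2 * expD D ρ) *
      hd L (expD D (ee (p := p) (HahnSeries.C α) ρ)) =
      ((p : HahnSeries ℚ L) ^ 2 * HahnSeries.C α * hd L (expD D ρ)) *
        expD D (ee (p := p) (HahnSeries.C α) ρ) := by
    rw [hd_expD, hd_expD, ← hu, ← map_mul, mul_add, hD_ee D hα hD hDα hρ, hd_ee hα hρ, ← hC,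
      ← map_mul, ← map_mul, hC]
    congr 1
    ring
  have e2 : (1 + (p : HahnSeries ℚ L) ^ 2 * expD D ρ) *
      hd L (ee (p := p) (HahnSeries.C α) (expD D ρ)) =
      ((p : HahnSeries ℚ L) ^ 2 * HahnSeries.C α * hd L (expD D ρ)) *
        ee (p := p) (HahnSeries.C α) (expD D ρ) := by
    rw [hd_ee hα hρ']
    ring
  have hyn : ee (p := p) (HahnSeries.C α) (expD D ρ) ≠ 0 :=
    ee_ne_zero _ _ (C_mem_OO.2 hα) hρ'
  obtain ⟨c, hc⟩ := lin_ode (uu_ne hρ') hyn e1 e2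
  have h0 := congrArg (fun z : HahnSeries ℚ L => z.coeff 0) hc
  rw [coeff_expD D (Dv_ee hα hρ), cz_mul (Dv_C c) (Dv_ee hα hρ'), coeff_zero_C,
    coeff_zero_ee hα hρ, coeff_zero_ee hα hρ', coeff_expD D hρ.1] at h0
  have h1 : ee (p := p) α (ρ.coeff 0) ≠ 0 := ee_ne_zero _ _ hα hρ.2
  have h2 : c = 1 := mul_right_cancel₀ h1 (by rw [one_mul]; exact h0.symm)
  rw [hc, h2, map_one, one_mul]

theorem exists_aut_aux (α : L) (hα : α ∈ OO ℤ_[p] L) (D : Derivation ℤ L L)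
    (hD : D ∈ DerF p α (Empty.elim : Empty → L)) (hDα : D α = 0) (y : L) (hy : D y ≠ 0) :
    ∃ (Λ : Type) (_ : Field Λ) (_ : TField ℤ_[p] Λ) (_ : KK p Λ) (j : THom ℤ_[p] L Λ)
      (Φ : Λ ≃+* Λ), (∀ x, D x = 0 → Φ (j.toRingHom x) = j.toRingHom x) ∧
      (∀ x, Φ (j.toRingHom y) ≠ j.toRingHom x) ∧
      (∀ x, x ∈ OO ℤ_[p] Λ ↔ Φ x ∈ OO ℤ_[p] Λ) ∧
      (∀ x z, Gr p (j.toRingHom α) x z ↔ Gr p (j.toRingHom α) (Φ x) (Φ z)) := by
  have : CharZero L := KK.zero p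
  refine ⟨HahnSeries ℚ L, inferInstance, instTFieldHahn ℤ_[p] L, instKKHahn p L, hC ℤ_[p] L,
    expD D, fun x hx => ?_, fun x hx => ?_, fun x => ?_, fun x z => ?_⟩
  · exact expF_C D hx
  · apply hy
    have h1 := congrArg (fun z : HahnSeries ℚ L => z.coeff 1) hx
    have h2 : (expD D (HahnSeries.C y)).coeff 1 = (HahnSeries.C x : HahnSeries ℚ L).coeff 1 := h1
    rw [coeff_one_expD, HahnSeries.C_apply, HahnSeries.coeff_single_of_ne one_ne_zero] at h2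
    exact h2
  · rw [mem_OO_hahn, mem_OO_hahn, Dv_expD_iff]
    constructor
    · rintro ⟨h1, h2⟩
      rw [← coeff_expD D h1] at h2
      exact ⟨h1, h2⟩
    · rintro ⟨h1, h2⟩
      rw [coeff_expD D h1] at h2
      exact ⟨h1, h2⟩
  · constructor
    · rintro ⟨ρ, hρ, rfl, rfl⟩
      refine ⟨expD D ρ, (expD_mem_mm D).2 hρ, ?_, ?_⟩
      · rw [map_mul, map_pow, map_natCast]
      · exact expD_ee D hα hD hDα hρ
    · rintro ⟨ρ', hρ', h1, h2⟩
      obtain ⟨ρ, rfl⟩ := (expD D).surjective ρ'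
      have hρ := (expD_mem_mm D).1 hρ'
      refine ⟨ρ, hρ, ?_, ?_⟩
      · apply (expD D).injective
        rw [h1, map_mul, map_pow, map_natCast]
      · apply (expD D).injective
        rw [h2]
        exact (expD_ee D hα hD hDα hρ).symm

end Hahn

end

end Cm
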