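import Pool.Agent.Lib.MP_c35b50_lc.Cm.DGen
import Pool.Agent.Lib.MP_c35b50_lc.Cm.ExpDer

/-!
# The two facts on `Λ = HahnSeries ℚ L` which are used in (D) and (E)

`exists_gen` (from helper58's `Ax` and `SeriesE`): for `a = C α0 + ε` there is a derivation of `Λ`
compatible with `f_a` with `D a ≠ 0`.

`exists_aut` (from helper82's `ExpDer`): `Φ = exp (ε D)`.
-/

namespace Cm

variable {p : ℕ} [Fact p.Prime] {L : Type} [Field L] [TField ℤ_[p] L] [KK p L]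

theorem exists_gen (α0 : L) (hα : α0 ∈ OO ℤ_[p] L) :
    ∃ (Λ : Type) (_ : Field Λ) (_ : TField ℤ_[p] Λ) (_ : KK p Λ) (j : THom ℤ_[p] L Λ) (a : Λ),
      a ∈ OO ℤ_[p] Λ ∧ (∀ r : L, r ≠ 0 → vle p (a - j.toRingHom α0) (j.toRingHom r)) ∧
      ∃ D ∈ DerF p a (Empty.elim : Empty → Λ), D a ≠ 0 :=
  exists_gen_hahn α0 hα

theorem exists_aut (α : L) (hα : α ∈ OO ℤ_[p] L) (D : Derivation ℤ L L)
    (hD : D ∈ DerF p α (Empty.elim : Empty → L)) (hDα : D α = 0) (y : L) (hy : D y ≠ 0) :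
    ∃ (Λ : Type) (_ : Field Λ) (_ : TField ℤ_[p] Λ) (_ : KK p Λ) (j : THom ℤ_[p] L Λ)
      (Φ : Λ ≃+* Λ), (∀ x, D x = 0 → Φ (j.toRingHom x) = j.toRingHom x) ∧
      (∀ x, Φ (j.toRingHom y) ≠ j.toRingHom x) ∧
      (∀ x, x ∈ OO ℤ_[p] Λ ↔ Φ x ∈ OO ℤ_[p] Λ) ∧
      (∀ x z, Gr p (j.toRingHom α) x z ↔ Gr p (j.toRingHom α) (Φ x) (Φ z)) :=
  exists_aut_aux α hα D hD hDα y hy

end Cm
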