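import Mathlib

/-!
# Hahn series fields are algebraically closed

`Γ` a divisible linearly ordered abelian group, `L` an algebraically closed field (any
characteristic): `HahnSeries Γ L` is algebraically closed. Proof: Newton slopes, spherical
completeness and Zorn's lemma; no Hensel lemma, no Tschirnhausen transformation.
-/

set_option autoImplicit false

open Polynomial

namespace Pool.Agent.Lib.MP_c35b50_lc.Cm

noncomputable section

variable {Γ : Type*} [AddCommGroup Γ] [LinearOrder Γ] [IsOrderedAddMonoid Γ]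
  {L : Type*} [Field L]

/-- `ord x ≥ g`: the coefficients below `g` vanish -/
def Dv (g : Γ) (x : HahnSeries Γ L) : Prop := ∀ h < g, x.coeff h = 0

theorem Dv.add {g : Γ} {x y : HahnSeries Γ L} (hx : Dv g x) (hy : Dv g y) : Dv g (x + y) :=
  fun h hh => by rw [HahnSeries.coeff_add, hx h hh, hy h hh, add_zero]

theorem Dv.neg {g : Γ} {x : HahnSeries Γ L} (hx : Dv g x) : Dv g (-x) :=
  fun h hh => by rw [HahnSeries.coeff_neg, hx h hh, neg_zero]

theorem Dv.zero {g : Γ} : Dv g (0 : HahnSeries Γ L) := fun _ _ => HahnSeries.coeff_zero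

theorem Dv.mono {g g' : Γ} (h : g' ≤ g) {x : HahnSeries Γ L} (hx : Dv g x) : Dv g' x :=
  fun k hk => hx k (hk.trans_le h)

theorem Dv.mul {g h : Γ} {x y : HahnSeries Γ L} (hx : Dv g x) (hy : Dv h y) :
    Dv (g + h) (x * y) := by
  intro a ha
  rw [HahnSeries.coeff_mul]
  refine Finset.sum_eq_zero fun ij hij => ?_
  rw [Finset.mem_addAntidiagonal] at hij
  by_cases hi : ij.1 < g
  · rw [hx _ hi, zero_mul]
  · have hj : ij.2 < h := by
      by_contra hj
      have := add_le_add (not_lt.1 hi) (not_lt.1 hj)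
      rw [hij.2.2] at this
      exact absurd ha (not_lt.2 this)
    rw [hy _ hj, mul_zero]

theorem coeff_mul_Dv {g h : Γ} {x y : HahnSeries Γ L} (hx : Dv g x) (hy : Dv h y) :
    (x * y).coeff (g + h) = x.coeff g * y.coeff h := by
  rw [HahnSeries.coeff_mul]
  refine Finset.sum_eq_single (g, h) ?_ ?_
  · intro ij hij hne
    rw [Finset.mem_addAntidiagonal] at hij
    by_cases hi : ij.1 < g
    · rw [hx _ hi, zero_mul]
    · by_cases hj : ij.2 < h
      · rw [hy _ hj, mul_zero]
      · exfalso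
        apply hne
        have h1 := not_lt.1 hi
        have h2 := not_lt.1 hj
        have h3 := hij.2.2
        have h4 : ij.1 = g := by
          by_contra hc
          have := add_lt_add_of_lt_of_le (lt_of_le_of_ne h1 (Ne.symm hc)) h2
          rw [h3] at this
          exact lt_irrefl _ this
        have h5 : ij.2 = h := by
          rw [h4] at h3
          exact add_left_cancel h3
        exact Prod.ext h4 h5
  · intro hn
    rw [Finset.mem_addAntidiagonal] at hn
    by_contra hc
    apply hn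
    exact ⟨left_ne_zero_of_mul hc, right_ne_zero_of_mul hc, rfl⟩

variable (Γ L) in
/-- the valuation ring -/
def Ov : Subring (HahnSeries Γ L) where
  carrier := {x | Dv 0 x}
  mul_mem' := fun {x y} hx hy => by
    have h : Dv (0 + 0) (x * y) := Dv.mul hx hy
    rwa [add_zero] at h
  one_mem' := fun h hh => by
    rw [HahnSeries.coeff_one, if_neg hh.ne]
  add_mem' := fun hx hy => Dv.add hx hy
  zero_mem' := Dv.zero
  neg_mem' := fun hx => Dv.neg hx

theorem mem_Ov {x : HahnSeries Γ L} : x ∈ Ov Γ L ↔ Dv 0 x := Iff.rfl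

variable (Γ L) in
/-- the residue map -/
def res : Ov Γ L →+* L where
  toFun x := x.1.coeff 0
  map_one' := by
    show (1 : HahnSeries Γ L).coeff 0 = 1
    rw [HahnSeries.coeff_one, if_pos rfl]
  map_mul' x y := by
    have h := coeff_mul_Dv x.2 y.2
    rw [add_zero] at h
    exact h
  map_zero' := HahnSeries.coeff_zero
  map_add' x y := HahnSeries.coeff_add

theorem res_apply (x : Ov Γ L) : res Γ L x = x.1.coeff 0 := rfl

variable (L) in
/-- the monomial `t^γ` -/
def tp (γ : Γ) : HahnSeries Γ L := HahnSeries.single γ 1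

theorem tp_mul (a b : Γ) : tp L a * tp L b = tp L (a + b) := by
  unfold tp
  rw [HahnSeries.single_mul_single, mul_one]

theorem tp_zero : tp L (0 : Γ) = 1 := rfl

theorem tp_pow (a : Γ) (n : ℕ) : tp L a ^ n = tp L (n • a) := by
  unfold tp
  rw [HahnSeries.single_pow, one_pow]

theorem coeff_tp_mul (a h : Γ) (x : HahnSeries Γ L) : (tp L a * x).coeff h = x.coeff (h - a) := by
  unfold tp
  rw [HahnSeries.coeff_single_mul, one_mul]

theorem Dv_tp_mul {a g : Γ} {x : HahnSeries Γ L} (hx : Dv g x) : Dv (a + g) (tp L a * x) := by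
  intro h hh
  rw [coeff_tp_mul]
  apply hx
  rw [sub_lt_iff_lt_add']
  exact hh

/-- `γ` is the Newton slope of `F` at `z` -/
def Nm (F : Polynomial (HahnSeries Γ L)) (z : HahnSeries Γ L) (γ : Γ) (δ : Γ)
    (G : Polynomial (Ov Γ L)) : Prop :=
  F.comp (C z + C (tp L γ) * X) = C (tp L δ) * G.map (Ov Γ L).subtype ∧
    res Γ L (G.coeff 0) ≠ 0 ∧ ∃ i, 0 < i ∧ res Γ L (G.coeff i) ≠ 0

/-- the slope grows -/
theorem Nm.grow {F : Polynomial (HahnSeries Γ L)} {z w : HahnSeries Γ L} {γ γ' δ δ' : Γ}
    {G G' : Polynomial (Ov Γ L)} (h : Nm F z γ δ G) (h' : Nm F w γ' δ' G') {u : Ov Γ L}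
    (hw : w = z + tp L γ * u.1) :
    γ ≤ γ' ∧ (eval (res Γ L u) (G.map (res Γ L)) = 0 → γ < γ') := by
  obtain ⟨h1, h2, i0, hi0, h3⟩ := h
  obtain ⟨h1', h2', -⟩ := h'
  set e : Γ := γ' - γ with he
  -- the substituted polynomial over the valuation ring
  set T : Polynomial (Ov Γ L) := G.comp (C u + X) with hT
  have hsub : C w + C (tp L γ') * X = (C z + C (tp L γ) * X).comp (C u.1 + C (tp L e) * X) := by
    simp only [add_comp, mul_comp, C_comp, X_comp]
    rw [hw, C_add, C_mul, mul_add, ← mul_assoc, ← C_mul, ← C_mul, tp_mul, he, add_sub_cancel,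
      add_assoc]
  have key : C (tp L δ') * G'.map (Ov Γ L).subtype =
      C (tp L δ) * (G.map (Ov Γ L).subtype).comp (C u.1 + C (tp L e) * X) := by
    rw [← h1', hsub, ← comp_assoc, h1, mul_comp, C_comp]
  have hcoef : ∀ i, (T.coeff i).1 = tp L (δ' - δ - i • e) * (G'.coeff i).1 := by
    intro i
    have hTi : T.map (Ov Γ L).subtype = (G.map (Ov Γ L).subtype).comp (C u.1 + X) := by
      rw [hT, Polynomial.map_comp]
      simp
    have h4 : (G.map (Ov Γ L).subtype).comp (C u.1 + C (tp L e) * X) =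
        (T.map (Ov Γ L).subtype).comp (C (tp L e) * X) := by
      rw [hTi, comp_assoc]
      congr 1
      simp
    rw [h4] at key
    have h5 := congrArg (fun p => p.coeff i) key
    simp only [coeff_C_mul, coeff_map, comp_C_mul_X_coeff, tp_pow, Subring.subtype_apply] at h5
    have h6 : (T.coeff i).1 = tp L (-δ) * (tp L δ * ((T.coeff i).1 * tp L (i • e))) *
        tp L (-(i • e)) := by
      have h7 : tp L (-δ) * (tp L δ * ((T.coeff i).1 * tp L (i • e))) * tp L (-(i • e)) =
          (tp L (-δ) * tp L δ) * (tp L (i • e) * tp L (-(i • e))) * (T.coeff i).1 := by ring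
      rw [h7, tp_mul, tp_mul, neg_add_cancel, add_neg_cancel, tp_zero, one_mul, one_mul]
    rw [h6, ← h5]
    have h8 : tp L (-δ) * (tp L δ' * (G'.coeff i).1) * tp L (-(i • e)) =
        (tp L (-δ) * tp L δ' * tp L (-(i • e))) * (G'.coeff i).1 := by ring
    rw [h8, tp_mul, tp_mul]
    congr 2
    abel
  have hTres : ∀ i, res Γ L (T.coeff i) = (G'.coeff i).1.coeff (-(δ' - δ - i • e)) := by
    intro i
    rw [res_apply, hcoef i, coeff_tp_mul, zero_sub]
  -- `δ' ≥ δ`
  have hδ : 0 ≤ δ' - δ := by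
    by_contra hc
    push Not at hc
    have h4 : (T.coeff 0).1.coeff (δ' - δ) = 0 := (T.coeff 0).2 _ hc
    rw [hcoef 0, zero_smul, sub_zero, coeff_tp_mul, sub_self] at h4
    exact h2' h4
  -- back to `G`
  have hback : G.map (res Γ L) = (T.map (res Γ L)).comp (X - C (res Γ L u)) := by
    rw [hT, Polynomial.map_comp, comp_assoc]
    simp
  have hG0 : ∀ c : L, T.map (res Γ L) = C c → False := by
    intro c hc
    rw [hc, C_comp] at hback
    apply h3
    rw [← coeff_map, hback, coeff_C, if_neg hi0.ne']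
  have hle : γ ≤ γ' := by
    by_contra hc
    push Not at hc
    have hneg : e < 0 := sub_neg.2 hc
    apply hG0 (res Γ L (T.coeff 0))
    ext i
    rw [coeff_map, coeff_C]
    split_ifs with h0
    · rw [h0]
    · rw [hTres i]
      apply (G'.coeff i).2
      have h5 : i • e < 0 := by
        rw [← neg_pos, ← smul_neg]
        exact nsmul_pos (neg_pos.2 hneg) h0
      rw [neg_neg_iff_pos]
      exact sub_pos.2 (h5.trans_le hδ)
  refine ⟨hle, fun hroot => lt_of_le_of_ne hle ?_⟩
  intro heq
  have he0 : e = 0 := by rw [he, heq, sub_self]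
  have hT0 : res Γ L (T.coeff 0) = 0 := by
    rw [← coeff_map, coeff_zero_eq_eval_zero, hT, Polynomial.map_comp, eval_comp]
    simpa using hroot
  have hδ1 : 0 < δ' - δ := by
    refine lt_of_le_of_ne hδ ?_
    intro h0
    rw [hTres 0, ← h0, he0] at hT0
    simp only [smul_zero, sub_zero, neg_zero] at hT0
    exact h2' hT0
  apply hG0 0
  ext i
  rw [coeff_map, C_0, coeff_zero, hTres i, he0, smul_zero, sub_zero]
  exact (G'.coeff i).2 _ (neg_lt_zero.2 hδ1)

/-- the Newton slope exists -/
theorem exists_Nm (hΓ : ∀ n : ℕ, 0 < n → ∀ g : Γ, ∃ h : Γ, n • h = g)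
    {F : Polynomial (HahnSeries Γ L)} (hF : F.Monic) (hd : 0 < F.natDegree)
    {z : HahnSeries Γ L} (hz : eval z F ≠ 0) : ∃ γ δ G, Nm F z γ δ G := by
  classical
  set H : Polynomial (HahnSeries Γ L) := F.comp (C z + X) with hH
  have hHd : H.natDegree = F.natDegree := by
    rw [hH, natDegree_comp, add_comm (C z) X, natDegree_X_add_C, mul_one]
  have hHm : H.Monic := by
    rw [hH, add_comm (C z) X]
    exact hF.comp_X_add_C z
  have hH0 : H.coeff 0 = eval z F := by
    rw [coeff_zero_eq_eval_zero, hH, eval_comp]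
    simp
  set δ : Γ := (H.coeff 0).order with hδ
  have hdiv : ∀ i : ℕ, ∃ g : Γ, 0 < i → i • g = δ - (H.coeff i).order := by
    intro i
    by_cases hi : 0 < i
    · obtain ⟨g, hg⟩ := hΓ i hi (δ - (H.coeff i).order)
      exact ⟨g, fun _ => hg⟩
    · exact ⟨0, fun h => absurd h hi⟩
  choose g hg using hdiv
  set S : Finset ℕ := (Finset.range (H.natDegree + 1)).filter
    fun i => 0 < i ∧ H.coeff i ≠ 0 with hS
  have hSne : S.Nonempty := by
    refine ⟨H.natDegree, ?_⟩
    rw [hS, Finset.mem_filter, Finset.mem_range]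
    refine ⟨Nat.lt_succ_self _, by rw [hHd]; exact hd, ?_⟩
    rw [hHm.coeff_natDegree]
    exact one_ne_zero
  obtain ⟨i0, hi0, hmax⟩ := Finset.exists_max_image S g hSne
  rw [hS, Finset.mem_filter] at hi0
  set γ : Γ := g i0 with hγ
  -- the orders
  have hord : ∀ i, 0 < i → H.coeff i ≠ 0 → 0 ≤ (H.coeff i).order + i • γ - δ := by
    intro i hi hne
    have hiS : i ∈ S := by
      rw [hS, Finset.mem_filter, Finset.mem_range]
      exact ⟨Nat.lt_succ_of_le (le_natDegree_of_ne_zero hne), hi, hne⟩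
    have h1 : i • g i ≤ i • γ := nsmul_le_nsmul_right (hmax i hiS) i
    rw [hg i hi] at h1
    have h2 : (H.coeff i).order + i • γ - δ = i • γ - (δ - (H.coeff i).order) := by abel
    rw [h2]
    exact sub_nonneg.2 h1
  set Gk : Polynomial (HahnSeries Γ L) := C (tp L (-δ)) * H.comp (C (tp L γ) * X) with hGk
  have hGc : ∀ i, Gk.coeff i = tp L (i • γ - δ) * H.coeff i := by
    intro i
    rw [hGk, coeff_C_mul, comp_C_mul_X_coeff, tp_pow]
    have h1 : tp L (-δ) * (H.coeff i * tp L (i • γ)) =
        (tp L (-δ) * tp L (i • γ)) * H.coeff i := by ring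
    rw [h1, tp_mul]
    congr 2
    abel
  have hDv : ∀ i, Dv 0 (Gk.coeff i) := by
    intro i k hk
    rw [hGc i, coeff_tp_mul]
    by_cases hne : H.coeff i = 0
    · rw [hne, HahnSeries.coeff_zero]
    · apply HahnSeries.coeff_eq_zero_of_lt_order
      rcases Nat.eq_zero_or_pos i with h0 | h0
      · subst h0
        rw [zero_smul, zero_sub, sub_neg_eq_add]
        have : k + δ < 0 + δ := add_lt_add_left hk δ
        rwa [zero_add] at this
      · have h1 := hord i h0 hne
        have h2 : k < (H.coeff i).order + i • γ - δ := hk.trans_le h1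
        rw [sub_lt_iff_lt_add]
        have h3 : (H.coeff i).order + i • γ - δ = (H.coeff i).order + (i • γ - δ) := by abel
        rwa [h3] at h2
  have hlift : Gk ∈ Polynomial.lifts (Ov Γ L).subtype := by
    rw [Polynomial.lifts_iff_coeff_lifts]
    intro i
    exact ⟨⟨Gk.coeff i, hDv i⟩, rfl⟩
  obtain ⟨G, hG⟩ := (Polynomial.mem_lifts _).1 hlift
  have hGi : ∀ i, (G.coeff i).1 = tp L (i • γ - δ) * H.coeff i := by
    intro i
    rw [← hGc i, ← hG, coeff_map]
    rfl
  refine ⟨γ, δ, G, ?_, ?_, i0, hi0.2.1, ?_⟩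
  · rw [hG, hGk, ← mul_assoc, ← C_mul, tp_mul, add_neg_cancel, tp_zero, C_1, one_mul, hH,
      comp_assoc]
    congr 1
    simp
  · rw [res_apply, hGi 0, coeff_tp_mul, zero_smul, zero_sub, zero_sub, neg_neg, hδ]
    rw [Ne, HahnSeries.coeff_order_eq_zero, hH0]
    exact hz
  · rw [res_apply, hGi i0, coeff_tp_mul]
    have h1 : (0 : Γ) - (i0 • γ - δ) = (H.coeff i0).order := by
      rw [hγ, hg i0 hi0.2.1]
      abel
    rw [h1, Ne, HahnSeries.coeff_order_eq_zero]
    exact hi0.2.2

/-- spherical completeness -/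
theorem exists_common {c : Set (HahnSeries Γ L)} (γ : HahnSeries Γ L → Γ)
    (hc : ∀ a ∈ c, ∀ b ∈ c, Dv (γ a) (b - a) ∨ Dv (γ b) (a - b)) :
    ∃ w : HahnSeries Γ L, ∀ a ∈ c, Dv (γ a) (w - a) := by
  classical
  have hagree : ∀ a ∈ c, ∀ b ∈ c, ∀ h, h < γ a → h < γ b → a.coeff h = b.coeff h := by
    intro a ha b hb h h1 h2
    rcases hc a ha b hb with h3 | h3
    · have := h3 h h1
      rw [HahnSeries.coeff_sub, sub_eq_zero] at this
      exact this.symm
    · have := h3 h h2
      rw [HahnSeries.coeff_sub, sub_eq_zero] at this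
      exact this
  let f : Γ → L := fun h => if hh : ∃ a ∈ c, h < γ a then (Classical.choose hh).coeff h else 0
  have hf : ∀ a ∈ c, ∀ h, h < γ a → f h = a.coeff h := by
    intro a ha h hh
    have hex : ∃ a ∈ c, h < γ a := ⟨a, ha, hh⟩
    have h1 : f h = (Classical.choose hex).coeff h := dif_pos hex
    rw [h1]
    exact hagree _ (Classical.choose_spec hex).1 a ha h (Classical.choose_spec hex).2 hh
  have hsupp : (Function.support f).IsPWO := by
    rw [Set.isPWO_iff_isWF, Set.isWF_iff_no_descending_seq]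
    intro u hu hmem
    have h0 : ∃ a ∈ c, u 0 < γ a := by
      by_contra hn
      exact hmem 0 (dif_neg hn)
    obtain ⟨a, ha, hua⟩ := h0
    have hwf : (HahnSeries.support a).IsWF := a.isWF_support
    rw [Set.isWF_iff_no_descending_seq] at hwf
    apply hwf u hu
    intro n
    have hn : u n ≤ u 0 := hu.antitone (Nat.zero_le n)
    have h1 := hf a ha (u n) (hn.trans_lt hua)
    have h2 : f (u n) ≠ 0 := hmem n
    rw [h1] at h2
    exact h2
  refine ⟨⟨f, hsupp⟩, fun a ha h hh => ?_⟩
  rw [HahnSeries.coeff_sub, sub_eq_zero]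
  exact hf a ha h hh

/-- Hahn series fields are algebraically closed. -/
theorem exists_root [IsAlgClosed L] (hΓ : ∀ n : ℕ, 0 < n → ∀ g : Γ, ∃ h : Γ, n • h = g)
    {F : Polynomial (HahnSeries Γ L)} (hF : F.Monic) (hd : 0 < F.natDegree) :
    ∃ z, eval z F = 0 := by
  classical
  by_contra hno
  push Not at hno
  have hex : ∀ z : HahnSeries Γ L, ∃ γ δ G, Nm F z γ δ G := fun z => exists_Nm hΓ hF hd (hno z)
  choose γ δ G hN using hex
  -- `w` in the ball of `z`
  have hgrow : ∀ z w : HahnSeries Γ L, Dv (γ z) (w - z) → γ z ≤ γ w := by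
    intro z w hw
    have hu : Dv 0 (tp L (-γ z) * (w - z)) := by
      have := Dv_tp_mul (a := -γ z) hw
      rwa [neg_add_cancel] at this
    refine ((hN z).grow (hN w) (u := ⟨_, hu⟩) ?_).1
    show w = z + tp L (γ z) * (tp L (-γ z) * (w - z))
    rw [← mul_assoc, tp_mul, add_neg_cancel, tp_zero, one_mul, add_sub_cancel]
  have htrans : ∀ {a b c : HahnSeries Γ L}, Dv (γ a) (b - a) → Dv (γ b) (c - b) →
      Dv (γ a) (c - a) := by
    intro a b c h1 h2
    have h3 : c - a = (c - b) + (b - a) := by ring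
    rw [h3]
    exact (h2.mono (hgrow a b h1)).add h1
  obtain ⟨m, hm⟩ := exists_maximal_of_chains_bounded
    (r := fun a b : HahnSeries Γ L => Dv (γ a) (b - a)) (by
      intro c hc
      apply exists_common γ
      intro a ha b hb
      rcases eq_or_ne a b with rfl | hab
      · left
        rw [sub_self]
        exact Dv.zero
      · exact hc ha hb hab) (fun h1 h2 => htrans h1 h2)
  -- a root of the residue polynomial
  obtain ⟨h1, h2, i0, hi0, h3⟩ := hN m
  have hdeg : ((G m).map (res Γ L)).degree ≠ 0 := by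
    intro h0
    apply h3
    rw [← coeff_map, eq_C_of_degree_eq_zero h0, coeff_C, if_neg hi0.ne']
  obtain ⟨r, hr⟩ := IsAlgClosed.exists_root _ hdeg
  have hrO : Dv 0 (HahnSeries.C r : HahnSeries Γ L) := by
    intro h hh
    rw [HahnSeries.C_apply, HahnSeries.coeff_single_of_ne hh.ne]
  have hr0 : r ≠ 0 := by
    rintro rfl
    apply h2
    rw [← coeff_map, coeff_zero_eq_eval_zero]
    exact hr
  set w : HahnSeries Γ L := m + tp L (γ m) * HahnSeries.C r with hw
  have hlt : γ m < γ w := by
    refine ((hN m).grow (hN w) (u := ⟨_, hrO⟩) hw).2 ?_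
    have h4 : res Γ L ⟨HahnSeries.C r, hrO⟩ = r := by
      rw [res_apply]
      simp
    rw [h4]
    exact hr
  have hmw : Dv (γ m) (w - m) := by
    rw [hw, add_sub_cancel_left]
    have := Dv_tp_mul (a := γ m) hrO
    rwa [add_zero] at this
  have hwm := hm w hmw (γ m) hlt
  rw [hw, sub_add_cancel_left, HahnSeries.coeff_neg, coeff_tp_mul, sub_self, neg_eq_zero] at hwm
  apply hr0
  simpa using hwm

theorem isAlgClosed_hahn [IsAlgClosed L] (hΓ : ∀ n : ℕ, 0 < n → ∀ g : Γ, ∃ h : Γ, n • h = g) :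
    IsAlgClosed (HahnSeries Γ L) := by
  refine IsAlgClosed.of_exists_root _ fun F hF hirr => ?_
  exact exists_root hΓ hF hirr.natDegree_pos

/-- The field of Hahn series with rational exponents over an algebraically closed field is
algebraically closed. -/
instance instIsAlgClosedHahnRat [IsAlgClosed L] : IsAlgClosed (HahnSeries ℚ L) :=
  isAlgClosed_hahn fun n hn g => ⟨g / n, by
    rw [nsmul_eq_mul]
    field_simp⟩

end

end Pool.Agent.Lib.MP_c35b50_lc.Cm
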