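import Pool.Agent.Lib.MP_c35b50_lc.Cm.HahnAC

/-!
# Derivations on `HahnSeries ℚ L`

`hd L` is `d / dε`; `hD D` is the coefficientwise extension of a derivation `D` of `L`.
-/

namespace Cm

open HahnSeries Pool.Agent.Lib.MP_c35b50_lc.Cm

noncomputable section

/-- the derivations of a commutative ring -/
abbrev DerZ (A : Type*) [CommRing A] := Derivation ℤ A A

/-- derivations over `ℤ` from additive maps -/
def mkDer {A : Type*} [CommRing A] (f : A → A) (ha : ∀ x y, f (x + y) = f x + f y)
    (hm : ∀ x y, f (x * y) = f x * y + x * f y) : DerZ A where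
  toFun := f
  map_add' := ha
  map_smul' := fun n x => by
    have h := (AddMonoidHom.mk' f ha).map_zsmul n x
    simpa using h
  map_one_eq_zero' := by
    have h := hm 1 1
    simp only [mul_one, one_mul] at h
    exact left_eq_add.1 h
  leibniz' := fun x y => by
    show f (x * y) = x * f y + y * f x
    rw [hm]
    ring

@[simp] theorem mkDer_apply {A : Type*} [CommRing A] (f : A → A)
    (ha : ∀ x y, f (x + y) = f x + f y) (hm : ∀ x y, f (x * y) = f x * y + x * f y) (x : A) :
    mkDer f ha hm x = f x := rfl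

theorem DerZ.mul {A : Type*} [CommRing A] (D : DerZ A) (x y : A) :
    D (x * y) = D x * y + x * D y := by
  rw [D.leibniz, smul_eq_mul, smul_eq_mul]
  ring

variable {L : Type*} [Field L]

/-- the map acting on coefficients, `coeff (hw φ x) g = φ g (coeff x g)` -/
def hw (φ : ℚ → L →+ L) (x : HahnSeries ℚ L) : HahnSeries ℚ L where
  coeff g := φ g (x.coeff g)
  isPWO_support' := x.isPWO_support.mono fun g hg h => hg (by
    show φ g (x.coeff g) = 0
    rw [h, map_zero])

@[simp] theorem coeff_hw (φ : ℚ → L →+ L) (x : HahnSeries ℚ L) (g : ℚ) :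
    (hw φ x).coeff g = φ g (x.coeff g) := rfl

theorem support_hw (φ : ℚ → L →+ L) (x : HahnSeries ℚ L) : (hw φ x).support ⊆ x.support :=
  fun g hg h => hg (by rw [coeff_hw, h, map_zero])

theorem hw_add (φ : ℚ → L →+ L) (x y : HahnSeries ℚ L) : hw φ (x + y) = hw φ x + hw φ y := by
  ext g
  simp

theorem hw_mul (φ : ℚ → L →+ L)
    (hφ : ∀ g h a b, φ (g + h) (a * b) = φ g a * b + a * φ h b) (x y : HahnSeries ℚ L) :
    hw φ (x * y) = hw φ x * y + x * hw φ y := by
  ext g
  rw [coeff_add, coeff_hw, coeff_mul, coeff_mul_left' x.isPWO_support (support_hw φ x),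
    coeff_mul_right' y.isPWO_support (support_hw φ y), map_sum, ← Finset.sum_add_distrib]
  refine Finset.sum_congr rfl fun ij hij => ?_
  rw [Finset.mem_antidiagonal] at hij
  rw [coeff_hw, coeff_hw, ← hij.2.2, hφ]

/-- `ord` is not diminished -/
theorem Dv_hw (φ : ℚ → L →+ L) {g : ℚ} {x : HahnSeries ℚ L} (hx : Dv g x) : Dv g (hw φ x) :=
  fun h hh => by rw [coeff_hw, hx h hh, map_zero]

/-- the coefficientwise extension of a derivation of `L` -/
def hD (D : DerZ L) : DerZ (HahnSeries ℚ L) :=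
  mkDer (hw fun _ => ((D : L →ₗ[ℤ] L) : L →+ L)) (hw_add _) (hw_mul _ (by
      intro g h a b
      show D (a * b) = D a * b + a * D b
      rw [D.leibniz, smul_eq_mul, smul_eq_mul]
      ring))

@[simp] theorem coeff_hD (D : DerZ L) (x : HahnSeries ℚ L) (g : ℚ) :
    (hD D x).coeff g = D (x.coeff g) := rfl

theorem hD_C (D : DerZ L) (c : L) : hD D (C c) = C (D c) := by
  ext g
  rw [coeff_hD, C_apply, C_apply]
  by_cases hg : g = 0
  · subst hg
    simp
  · rw [coeff_single_of_ne hg, coeff_single_of_ne hg, map_zero]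

theorem Dv_hD (D : DerZ L) {g : ℚ} {x : HahnSeries ℚ L} (hx : Dv g x) :
    Dv g (hD D x) := fun h hh => by rw [coeff_hD, hx h hh, map_zero]

variable [CharZero L]

variable (L) in
/-- `ε d / dε` -/
def hth : DerZ (HahnSeries ℚ L) :=
  mkDer (hw fun g => AddMonoidHom.mulLeft (g : L)) (hw_add _) (hw_mul _ (by
      intro g h a b
      simp only [AddMonoidHom.coe_mulLeft, Rat.cast_add]
      ring))

@[simp] theorem coeff_hth (x : HahnSeries ℚ L) (g : ℚ) :
    (hth L x).coeff g = (g : L) * x.coeff g := rfl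

theorem Dv_hth {g : ℚ} {x : HahnSeries ℚ L} (hx : Dv g x) : Dv g (hth L x) :=
  fun h hh => by rw [coeff_hth, hx h hh, mul_zero]

variable (L) in
/-- `d / dε` -/
def hd : DerZ (HahnSeries ℚ L) :=
  mkDer (fun x => tp L (-1 : ℚ) * hth L x) (fun x y => by rw [map_add, mul_add]) (fun x y => by
    rw [DerZ.mul]
    ring)

theorem hd_apply (x : HahnSeries ℚ L) : hd L x = tp L (-1 : ℚ) * hth L x := rfl

@[simp] theorem coeff_hd (x : HahnSeries ℚ L) (g : ℚ) :
    (hd L x).coeff g = ((g + 1 : ℚ) : L) * x.coeff (g + 1) := by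
  rw [hd_apply, coeff_tp_mul, coeff_hth, sub_neg_eq_add]

theorem hth_eq (x : HahnSeries ℚ L) : hth L x = tp L (1 : ℚ) * hd L x := by
  rw [hd_apply, ← mul_assoc, tp_mul, add_neg_cancel, tp_zero, one_mul]

theorem hd_C (c : L) : hd L (C c) = 0 := by
  ext g
  rw [coeff_hd, coeff_zero]
  by_cases hg : g + 1 = 0
  · rw [hg, Rat.cast_zero, zero_mul]
  · rw [C_apply, coeff_single_of_ne hg, mul_zero]

theorem hd_tp (q : ℚ) : hd L (tp L q) = single (q - 1) (q : L) := by
  ext g
  rw [coeff_hd, tp]
  by_cases hg : g + 1 = q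
  · have h1 : g = q - 1 := by rw [← hg]; ring
    rw [hg, coeff_single_same, mul_one, h1, coeff_single_same]
  · have h1 : g ≠ q - 1 := fun h => hg (by rw [h]; ring)
    rw [coeff_single_of_ne hg, mul_zero, coeff_single_of_ne h1]

theorem hd_eps : hd L (single (1 : ℚ) (1 : L)) = 1 := by
  have h := hd_tp (L := L) 1
  rw [sub_self, Rat.cast_one] at h
  exact h

theorem hd_eq_zero_iff (x : HahnSeries ℚ L) : hd L x = 0 ↔ x = C (x.coeff 0) := by
  constructor
  · intro h
    ext g
    by_cases hg : g = 0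
    · subst hg
      rw [C_apply, coeff_single_same]
    · rw [C_apply, coeff_single_of_ne hg]
      have h1 := congrArg (fun z : HahnSeries ℚ L => z.coeff (g - 1)) h
      simp only [coeff_hd, coeff_zero, sub_add_cancel, mul_eq_zero, Rat.cast_eq_zero] at h1
      exact h1.resolve_left hg
  · intro h
    rw [h]
    exact hd_C _

theorem Dv_hd {g : ℚ} {x : HahnSeries ℚ L} (hx : Dv g x) : Dv (g - 1) (hd L x) :=
  fun h hh => by rw [coeff_hd, hx _ (by linarith), mul_zero]

/-- a derivation kills the rational numbers -/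
theorem der_ratCast (D : DerZ L) (q : ℚ) : D (q : L) = 0 := by
  have h2 : ((q.den : ℕ) : L) * (q : L) = ((q.num : ℤ) : L) := by
    have h3 := Rat.den_mul_eq_num q
    exact_mod_cast congrArg (fun q : ℚ => (q : L)) h3
  have h4 := congrArg D h2
  rw [D.leibniz, D.map_natCast, D.map_intCast, smul_zero, add_zero, smul_eq_mul] at h4
  rcases mul_eq_zero.1 h4 with h5 | h5
  · exact absurd (Nat.cast_eq_zero.1 h5) (Rat.den_nz _)
  · exact h5

/-- the two derivations commute -/
theorem hD_hd (D : DerZ L) (x : HahnSeries ℚ L) : hD D (hd L x) = hd L (hD D x) := by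
  ext g
  rw [coeff_hD, coeff_hd, coeff_hd, coeff_hD, D.leibniz, smul_eq_mul, smul_eq_mul,
    der_ratCast, mul_zero, add_zero]

end

end Cm
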