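import Mathlib

/-!
# The derivation `d/dε` of Hahn series with rational exponents

`dH L : L⟦ℚ⟧ →+ L⟦ℚ⟧` is `∑ a_q ε^q ↦ ∑ q a_q ε^(q-1)`. Its kernel is `L`, and the
coefficient of `ε^(-1)` is `0` in every `dH f` and is the order of `U` in `U⁻¹ * dH U`.
-/

noncomputable section

namespace CMAx

open HahnSeries

variable (L : Type*) [Field L] [CharZero L]

/-- `ε d/dε` as a function -/
def thF (f : HahnSeries ℚ L) : HahnSeries ℚ L where
  coeff q := (q : L) * f.coeff q
  isPWO_support' := f.isPWO_support.mono fun q hq => by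
    simp only [Function.mem_support, ne_eq] at hq
    exact fun h => hq (by rw [h, mul_zero])

omit [CharZero L] in
@[simp] theorem thF_coeff (f : HahnSeries ℚ L) (q : ℚ) : (thF L f).coeff q = (q : L) * f.coeff q :=
  rfl

omit [CharZero L] in
theorem thF_support (f : HahnSeries ℚ L) : (thF L f).support ⊆ f.support := fun q hq => by
  simp only [HahnSeries.mem_support, thF_coeff] at hq ⊢
  exact fun h => hq (by rw [h, mul_zero])

theorem thF_mul (f g : HahnSeries ℚ L) : thF L (f * g) = f * thF L g + g * thF L f := by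
  rw [mul_comm g]
  ext q
  rw [coeff_add, coeff_mul_left' f.isPWO_support (thF_support L f),
    coeff_mul_right' g.isPWO_support (thF_support L g), thF_coeff, coeff_mul, Finset.mul_sum,
    ← Finset.sum_add_distrib]
  refine Finset.sum_congr rfl fun ij hij => ?_
  have h : ij.1 + ij.2 = q := by
    simp only [Finset.mem_antidiagonal] at hij
    exact hij.2.2
  rw [thF_coeff, thF_coeff, ← h]
  push_cast
  ring

omit [CharZero L] in
theorem thF_add (f g : HahnSeries ℚ L) : thF L (f + g) = thF L f + thF L g := by
  ext q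
  simp [mul_add]

omit [CharZero L] in
theorem thF_smul (c : L) (f : HahnSeries ℚ L) : thF L (c • f) = c • thF L f := by
  ext q
  simp only [thF_coeff, coeff_smul, smul_eq_mul]
  ring

omit [CharZero L] in
theorem thF_one : thF L 1 = 0 := by
  ext q
  rw [thF_coeff, coeff_one]
  by_cases hq : q = 0
  · simp [hq]
  · simp [hq]

/-- `d/dε`, an additive map with `dH_mul` and `dH_C` (no `Derivation` since the module
structures on Hahn series found by instance search are not unique) -/
def dH : HahnSeries ℚ L →+ HahnSeries ℚ L where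
  toFun f := single (-1 : ℚ) (1 : L) * thF L f
  map_zero' := by
    have h := thF_smul L (0 : L) 0
    rw [zero_smul, zero_smul] at h
    rw [h, mul_zero]
  map_add' f g := by rw [thF_add, mul_add]

omit [CharZero L] in
theorem dH_apply (f : HahnSeries ℚ L) : dH L f = single (-1 : ℚ) (1 : L) * thF L f := rfl

theorem dH_mul (f g : HahnSeries ℚ L) : dH L (f * g) = f * dH L g + g * dH L f := by
  rw [dH_apply, dH_apply, dH_apply, thF_mul]
  ring

theorem dH_coeff (f : HahnSeries ℚ L) (q : ℚ) :
    (dH L f).coeff q = ((q + 1 : ℚ) : L) * f.coeff (q + 1) := by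
  have h := coeff_single_mul_add (r := (1 : L)) (x := thF L f) (a := q + 1) (b := (-1 : ℚ))
  rw [add_neg_cancel_right] at h
  rw [dH_apply, h, one_mul, thF_coeff]

theorem dH_coeff_neg_one (f : HahnSeries ℚ L) : (dH L f).coeff (-1) = 0 := by
  rw [dH_coeff]
  simp

theorem dH_C (c : L) : dH L (C c) = 0 := by
  ext q
  rw [dH_coeff, C_apply, coeff_zero]
  by_cases h : q + 1 = 0
  · rw [h, Rat.cast_zero, zero_mul]
  · rw [coeff_single_of_ne h, mul_zero]

theorem dH_eq_zero {f : HahnSeries ℚ L} (h : dH L f = 0) : f = C (f.coeff 0) := by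
  ext q
  by_cases hq : q = 0
  · subst hq
    simp
  · have h1 : (dH L f).coeff (q - 1) = 0 := by rw [h]; rfl
    rw [dH_coeff, sub_add_cancel] at h1
    have h2 : ((q : ℚ) : L) ≠ 0 := by exact_mod_cast hq
    have h3 : f.coeff q = 0 := by
      rcases mul_eq_zero.1 h1 with h4 | h4
      · exact absurd h4 h2
      · exact h4
    rw [h3, C_apply, coeff_single_of_ne hq]

theorem dH_eps : dH L (single (1 : ℚ) (1 : L)) = 1 := by
  ext q
  rw [dH_coeff, coeff_one]
  by_cases hq : q = 0
  · subst hq
    simp
  · rw [if_neg hq, coeff_single_of_ne, mul_zero]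
    intro h
    apply hq
    linarith

omit [CharZero L] in
/-- the coefficient of a product at the sum of two lower bounds of the supports -/
theorem coeff_mul_bot {x y : HahnSeries ℚ L} {a b : ℚ} (hx : ∀ i < a, x.coeff i = 0)
    (hy : ∀ i < b, y.coeff i = 0) : (x * y).coeff (a + b) = x.coeff a * y.coeff b := by
  rw [coeff_mul]
  by_cases h0 : x.coeff a * y.coeff b = 0
  · rw [h0]
    refine Finset.sum_eq_zero fun ij hij => ?_
    simp only [Finset.mem_antidiagonal, HahnSeries.mem_support] at hij
    obtain ⟨h1, h2, h3⟩ := hij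
    have h4 : a ≤ ij.1 := by
      by_contra h
      exact h1 (hx _ (not_le.1 h))
    have h5 : b ≤ ij.2 := by
      by_contra h
      exact h2 (hy _ (not_le.1 h))
    have h6 : ij.1 = a := by linarith
    have h7 : ij.2 = b := by linarith
    rw [h6, h7, h0]
  · refine (Finset.sum_eq_single (a, b) ?_ ?_)
    · intro ij hij hne
      simp only [Finset.mem_antidiagonal, HahnSeries.mem_support] at hij
      obtain ⟨h1, h2, h3⟩ := hij
      have h4 : a ≤ ij.1 := by
        by_contra h
        exact h1 (hx _ (not_le.1 h))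
      have h5 : b ≤ ij.2 := by
        by_contra h
        exact h2 (hy _ (not_le.1 h))
      exact absurd (Prod.ext (by linarith : ij.1 = a) (by linarith : ij.2 = b)) hne
    · intro h
      exfalso
      apply h
      simp only [Finset.mem_antidiagonal, HahnSeries.mem_support]
      exact ⟨left_ne_zero_of_mul h0, right_ne_zero_of_mul h0, trivial⟩

/-- the residue of the logarithmic derivative is the order -/
theorem residue_logDeriv {U : HahnSeries ℚ L} (hU : U ≠ 0) :
    (U⁻¹ * dH L U).coeff (-1) = ((U.order : ℚ) : L) := by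
  have h1 : U⁻¹ ≠ 0 := inv_ne_zero hU
  have h2 : U * U⁻¹ = 1 := mul_inv_cancel₀ hU
  have h3 : U.order + U⁻¹.order = 0 := by
    rw [← order_mul hU h1, h2, order_one]
  have h4 : U.coeff U.order * U⁻¹.coeff U⁻¹.order = 1 := by
    rw [← coeff_mul_bot L (fun i hi => coeff_eq_zero_of_lt_order hi)
      (fun i hi => coeff_eq_zero_of_lt_order hi), h3, h2]
    simp
  have h5 : (-1 : ℚ) = U⁻¹.order + (U.order - 1) := by linarith
  rw [h5, coeff_mul_bot L (fun i hi => coeff_eq_zero_of_lt_order hi) (fun i hi => by
    rw [dH_coeff, coeff_eq_zero_of_lt_order (by linarith : i + 1 < U.order), mul_zero]),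
    dH_coeff, sub_add_cancel]
  calc U⁻¹.coeff U⁻¹.order * (((U.order : ℚ) : L) * U.coeff U.order)
      = (U.coeff U.order * U⁻¹.coeff U⁻¹.order) * ((U.order : ℚ) : L) := by ring
    _ = _ := by rw [h4, one_mul]

end CMAx
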