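import Pool.Agent.Lib.MP_c35b50_lc.Cm.HahnC
import Pool.Agent.Lib.MP_c35b50_lc.Cm.Hd

/-! # The two forms of `d / dε` agree; the chain rule for `CMAx.dH` -/

namespace Cm

open Pool.Agent.Lib.MP_c35b50_lc.Cm

theorem dH_eq_hd {L : Type} [Field L] [CharZero L] (x : HahnSeries ℚ L) :
    CMAx.dH L x = hd L x := by
  ext g
  rw [CMAx.dH_coeff, coeff_hd]

/-- the chain rule -/
theorem dH_ev {L : Type} [Field L] [CharZero L] {R : Type} [CommRing R] [TRing R L]
    {s t : Type} [Fintype s] [Fintype t] {a : s → HahnSeries ℚ L} {b : t → HahnSeries ℚ L}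
    (F : S R s t) (h : Dom R a b) :
    CMAx.dH L (ev F a b) = ∑ i, ev (dxi i F) a b * CMAx.dH L (a i) +
      ∑ j, ev (drho j F) a b * CMAx.dH L (b j) := by
  simp only [dH_eq_hd]
  exact hd_ev F h

end Cm
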