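import Pool.Agent.Lib.MP_c35b50_lc.Cm.AdicB
import Pool.Agent.Lib.MP_c35b50_lc.Cm.TBasic

/-!
# Taylor expansion in `S R s t`

`cur` is the isomorphism `P[[u, t]] = P[[t]][[u]]`; `tay : S R s t → (S R s t)[[s, t]]` is
`F (ξ + ξ'; ρ + ρ')`.
-/

namespace Cm

noncomputable section

section Cur

variable {P : Type} [CommRing P] {u t : Type}

/-- currying, as a function -/
def curF (F : MvPowerSeries (u ⊕ t) P) : MvPowerSeries u (MvPowerSeries t P) :=
  fun κ μ => F (κ.sumElim μ)

theorem coeff_curF (F : MvPowerSeries (u ⊕ t) P) (κ : u →₀ ℕ) (μ : t →₀ ℕ) :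
    MvPowerSeries.coeff μ (MvPowerSeries.coeff κ (curF F)) =
      MvPowerSeries.coeff (κ.sumElim μ) F := rfl

theorem curF_mul (F G : MvPowerSeries (u ⊕ t) P) : curF (F * G) = curF F * curF G := by
  classical
  ext κ μ
  rw [MvPowerSeries.coeff_mul, map_sum, coeff_curF, MvPowerSeries.coeff_mul,
    ← Finsupp.image_sumElim_product_antidiagonal, Finset.sum_image, Finset.sum_product]
  · refine Finset.sum_congr rfl fun p _ => ?_
    rw [MvPowerSeries.coeff_mul]
    rfl
  · rintro ⟨⟨a, b⟩, c, d⟩ _ ⟨⟨a', b'⟩, c', d'⟩ _ h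
    simp only [Prod.mk.injEq] at h
    have h1 := congrArg (fun ν => ν.comapDomain Sum.inl Sum.inl_injective.injOn) h.1
    have h2 := congrArg (fun ν => ν.comapDomain Sum.inr Sum.inr_injective.injOn) h.1
    have h3 := congrArg (fun ν => ν.comapDomain Sum.inl Sum.inl_injective.injOn) h.2
    have h4 := congrArg (fun ν => ν.comapDomain Sum.inr Sum.inr_injective.injOn) h.2
    simp only [Finsupp.comapDomain_inl_sumElim, Finsupp.comapDomain_inr_sumElim] at h1 h2 h3 h4
    rw [h1, h2, h3, h4]

/-- currying `P[[u, t]] = P[[t]][[u]]` -/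
def cur (P : Type) [CommRing P] (u t : Type) :
    MvPowerSeries (u ⊕ t) P ≃+* MvPowerSeries u (MvPowerSeries t P) where
  toFun := curF
  invFun G := fun ν => G (ν.comapDomain Sum.inl Sum.inl_injective.injOn)
    (ν.comapDomain Sum.inr Sum.inr_injective.injOn)
  left_inv F := by
    funext ν
    simp [curF]
  right_inv G := by
    funext κ μ
    simp [curF]
  map_add' F G := rfl
  map_mul' := curF_mul

theorem coeff_cur (F : MvPowerSeries (u ⊕ t) P) (κ : u →₀ ℕ) (μ : t →₀ ℕ) :
    MvPowerSeries.coeff μ (MvPowerSeries.coeff κ (cur P u t F)) =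
      MvPowerSeries.coeff (κ.sumElim μ) F := rfl

theorem cur_C (r : P) : cur P u t (MvPowerSeries.C r) = MvPowerSeries.C (MvPowerSeries.C r) := by
  classical
  ext κ μ
  rw [coeff_cur, MvPowerSeries.coeff_C, MvPowerSeries.coeff_C]
  by_cases h1 : κ = 0
  · rw [if_pos h1, MvPowerSeries.coeff_C]
    by_cases h2 : μ = 0
    · rw [if_pos h2, h1, h2, if_pos Finsupp.sumElim_zero_zero]
    · rw [if_neg h2, if_neg]
      intro h
      have h4 := congrArg (fun ν => ν.comapDomain Sum.inr Sum.inr_injective.injOn) h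
      simp only [Finsupp.comapDomain_inr_sumElim, Finsupp.comapDomain_zero] at h4
      exact h2 h4
  · rw [if_neg h1, map_zero, if_neg]
    intro h
    have h4 := congrArg (fun ν => ν.comapDomain Sum.inl Sum.inl_injective.injOn) h
    simp only [Finsupp.comapDomain_inl_sumElim, Finsupp.comapDomain_zero] at h4
    exact h1 h4

theorem cur_X_inl (i : u) : cur P u t (MvPowerSeries.X (Sum.inl i)) = MvPowerSeries.X i := by
  classical
  ext κ μ
  rw [coeff_cur, MvPowerSeries.coeff_X, MvPowerSeries.coeff_X, ← Finsupp.sumElim_single_zero]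
  by_cases h1 : κ = Finsupp.single i 1
  · rw [if_pos h1, MvPowerSeries.coeff_one]
    by_cases h2 : μ = 0
    · rw [if_pos h2, h1, h2, if_pos rfl]
    · rw [if_neg h2, if_neg]
      intro h
      have h4 := congrArg (fun ν => ν.comapDomain Sum.inr Sum.inr_injective.injOn) h
      simp only [Finsupp.comapDomain_inr_sumElim] at h4
      exact h2 h4
  · rw [if_neg h1, map_zero, if_neg]
    intro h
    have h4 := congrArg (fun ν => ν.comapDomain Sum.inl Sum.inl_injective.injOn) h
    simp only [Finsupp.comapDomain_inl_sumElim] at h4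
    exact h1 h4

theorem cur_X_inr (j : t) : cur P u t (MvPowerSeries.X (Sum.inr j)) =
    MvPowerSeries.C (MvPowerSeries.X j) := by
  classical
  ext κ μ
  rw [coeff_cur, MvPowerSeries.coeff_X, MvPowerSeries.coeff_C, ← Finsupp.sumElim_zero_single]
  by_cases h1 : κ = 0
  · rw [if_pos h1, MvPowerSeries.coeff_X]
    by_cases h2 : μ = Finsupp.single j 1
    · rw [if_pos h2, h1, h2, if_pos rfl]
    · rw [if_neg h2, if_neg]
      intro h
      have h4 := congrArg (fun ν => ν.comapDomain Sum.inr Sum.inr_injective.injOn) h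
      simp only [Finsupp.comapDomain_inr_sumElim] at h4
      exact h2 h4
  · rw [if_neg h1, map_zero, if_neg]
    intro h
    have h4 := congrArg (fun ν => ν.comapDomain Sum.inl Sum.inl_injective.injOn) h
    simp only [Finsupp.comapDomain_inl_sumElim] at h4
    exact h1 h4

/-- the ideal of `P[[t]][[u]]` generated by all variables -/
def kc (P : Type) [CommRing P] (u t : Type) : Ideal (MvPowerSeries u (MvPowerSeries t P)) :=
  (kk P (u ⊕ t)).map (cur P u t : MvPowerSeries (u ⊕ t) P →+* MvPowerSeries u (MvPowerSeries t P))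

theorem X_mem_kk (j : t) : (MvPowerSeries.X j : MvPowerSeries t P) ∈ kk P t := by
  rw [kk, RingHom.mem_ker, MvPowerSeries.constantCoeff_X]

theorem X_mem_kc (i : u) : (MvPowerSeries.X i : MvPowerSeries u (MvPowerSeries t P)) ∈
    kc P u t := by
  have h := Ideal.mem_map_of_mem
    (cur P u t : MvPowerSeries (u ⊕ t) P →+* MvPowerSeries u (MvPowerSeries t P))
    (X_mem_kk (P := P) (Sum.inl i : u ⊕ t))
  rw [RingHom.coe_coe, cur_X_inl] at h
  exact h

theorem CX_mem_kc (j : t) :
    (MvPowerSeries.C (MvPowerSeries.X j) : MvPowerSeries u (MvPowerSeries t P)) ∈ kc P u t := by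
  have h := Ideal.mem_map_of_mem
    (cur P u t : MvPowerSeries (u ⊕ t) P →+* MvPowerSeries u (MvPowerSeries t P))
    (X_mem_kk (P := P) (Sum.inr j : u ⊕ t))
  rw [RingHom.coe_coe, cur_X_inr] at h
  exact h

instance isHausdorff_kc [Finite u] [Finite t] :
    IsHausdorff (kc P u t) (MvPowerSeries u (MvPowerSeries t P)) := by
  refine ⟨fun x hx => ?_⟩
  have h1 : ∀ n : ℕ, (cur P u t).symm x ∈ kk P (u ⊕ t) ^ n := by
    intro n
    have h2 := hx n
    rw [SModEq.zero, smul_eq_mul, Ideal.mul_top, kc, ← Ideal.map_pow] at h2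
    obtain ⟨y, hy, rfl⟩ := (Ideal.mem_map_iff_of_surjective (cur P u t :
      MvPowerSeries (u ⊕ t) P →+* MvPowerSeries u (MvPowerSeries t P))
      (cur P u t).surjective).1 h2
    rw [RingHom.coe_coe, RingEquiv.symm_apply_apply]
    exact hy
  have h3 : (cur P u t).symm x = 0 := by
    refine (isAdicComplete_kk (P := P) (t := u ⊕ t)).toIsHausdorff.haus _ fun n => ?_
    rw [SModEq.zero, smul_eq_mul, Ideal.mul_top]
    exact h1 n
  exact (map_eq_zero_iff _ (cur P u t).symm.injective).1 h3

instance isHausdorff_kk [Finite t] : IsHausdorff (kk P t) (MvPowerSeries t P) :=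
  (isAdicComplete_kk (P := P) (t := t)).toIsHausdorff

end Cur

section Tay

variable {R : Type} [CommRing R] {s t : Type} [Finite s] [Finite t]

theorem exists_tay (R : Type) [CommRing R] (s t : Type) [Finite s] [Finite t] :
    ∃ τ : S R s t →+* MvPowerSeries (s ⊕ t) (S R s t),
      (∀ r, τ (cst R s t r) = MvPowerSeries.C (cst R s t r)) ∧
      (∀ i, τ (xi i) = MvPowerSeries.C (xi i) + MvPowerSeries.X (Sum.inl i)) ∧
      ∀ j, τ (rho j) = MvPowerSeries.C (rho j) + MvPowerSeries.X (Sum.inr j) := by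
  obtain ⟨ψ, h1, h2⟩ := adic_eval (kk (MvPolynomial s R) ((s ⊕ t) ⊕ t))
    (MvPolynomial.eval₂Hom
      ((MvPowerSeries.C (σ := (s ⊕ t) ⊕ t) (R := MvPolynomial s R)).comp MvPolynomial.C)
      (fun i : s => MvPowerSeries.C (MvPolynomial.X i) + MvPowerSeries.X (Sum.inl (Sum.inl i))))
    (fun j : t => MvPowerSeries.X (Sum.inr j) + MvPowerSeries.X (Sum.inl (Sum.inr j)))
    (fun j => add_mem (X_mem_kk _) (X_mem_kk _))
  refine ⟨(cur (MvPolynomial s R) (s ⊕ t) t : _ →+* _).comp ψ, fun r => ?_, fun i => ?_,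
    fun j => ?_⟩
  · rw [RingHom.comp_apply, cst, RingHom.comp_apply, h1, MvPolynomial.coe_eval₂Hom,
      MvPolynomial.eval₂_C, RingHom.comp_apply, RingHom.coe_coe, cur_C]
  · rw [RingHom.comp_apply, xi, h1, MvPolynomial.coe_eval₂Hom, MvPolynomial.eval₂_X, map_add,
      RingHom.coe_coe, cur_C, cur_X_inl]
  · rw [RingHom.comp_apply, rho, h2, map_add, RingHom.coe_coe, cur_X_inr, cur_X_inl]

/-- Taylor expansion -/
def tay (R : Type) [CommRing R] (s t : Type) [Finite s] [Finite t] :
    S R s t →+* MvPowerSeries (s ⊕ t) (S R s t) := Classical.choose (exists_tay R s t)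

@[simp] theorem tay_cst (r : R) : tay R s t (cst R s t r) = MvPowerSeries.C (cst R s t r) :=
  (Classical.choose_spec (exists_tay R s t)).1 r

@[simp] theorem tay_xi (i : s) : tay R s t (xi i) =
    MvPowerSeries.C (xi i) + MvPowerSeries.X (Sum.inl i) :=
  (Classical.choose_spec (exists_tay R s t)).2.1 i

@[simp] theorem tay_rho (j : t) : tay R s t (rho j) =
    MvPowerSeries.C (rho j) + MvPowerSeries.X (Sum.inr j) :=
  (Classical.choose_spec (exists_tay R s t)).2.2 j

/-- uniqueness of homomorphisms on `S R s t` -/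
theorem S_hom_ext {A : Type} [CommRing A] (J : Ideal A) [IsHausdorff J A]
    (ψ ψ' : S R s t →+* A) (hc : ∀ r, ψ (cst R s t r) = ψ' (cst R s t r))
    (hx : ∀ i, ψ (xi i) = ψ' (xi i)) (hr : ∀ j, ψ (rho j) = ψ' (rho j))
    (hJ : ∀ j, ψ (rho j) ∈ J) : ψ = ψ' := by
  refine hom_ext J ψ ψ' (fun r => ?_) hr hJ
  have h : ψ.comp (MvPowerSeries.C (σ := t) (R := MvPolynomial s R)) =
      ψ'.comp (MvPowerSeries.C (σ := t) (R := MvPolynomial s R)) :=
    MvPolynomial.ringHom_ext hc hx
  exact congrArg (fun χ : MvPolynomial s R →+* A => χ r) h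

theorem constantCoeff_tay (F : S R s t) : MvPowerSeries.constantCoeff (tay R s t F) = F := by
  have h : (MvPowerSeries.constantCoeff).comp (tay R s t) = RingHom.id (S R s t) := by
    refine S_hom_ext (kk (MvPolynomial s R) t) _ _ (fun r => ?_) (fun i => ?_) (fun j => ?_)
      (fun j => ?_)
    · simp
    · simp
    · simp
    · simp only [RingHom.comp_apply, tay_rho, map_add, MvPowerSeries.constantCoeff_C,
        MvPowerSeries.constantCoeff_X, add_zero]
      exact X_mem_kk j
  exact congrArg (fun ψ : S R s t →+* S R s t => ψ F) h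

variable {s' t' : Type} [Finite s'] [Finite t']

theorem tay_ren (f : s → s') (g : t → t') (F : S R s t) :
    tay R s' t' (ren f g F) = MvPowerSeries.rename (Sum.map f g)
      (MvPowerSeries.map (ren f g) (tay R s t F)) := by
  have h : (tay R s' t').comp (ren f g) =
      ((MvPowerSeries.rename (Sum.map f g) : MvPowerSeries (s ⊕ t) (S R s' t') →ₐ[S R s' t']
        MvPowerSeries (s' ⊕ t') (S R s' t')).toRingHom.comp
      (MvPowerSeries.map (ren f g))).comp (tay R s t) := by
    refine S_hom_ext (kc (MvPolynomial s' R) (s' ⊕ t') t') _ _ (fun r => ?_) (fun i => ?_)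
      (fun j => ?_) (fun j => ?_)
    · rw [RingHom.comp_apply, RingHom.comp_apply, RingHom.comp_apply, ren_cst, tay_cst, tay_cst,
        MvPowerSeries.map_C, ren_cst, AlgHom.toRingHom_eq_coe, RingHom.coe_coe,
        MvPowerSeries.rename_C]
    · rw [RingHom.comp_apply, RingHom.comp_apply, RingHom.comp_apply, ren_xi, tay_xi, tay_xi,
        map_add, MvPowerSeries.map_C, ren_xi, AlgHom.toRingHom_eq_coe, RingHom.coe_coe, map_add,
        MvPowerSeries.rename_C, MvPowerSeries.map_X, MvPowerSeries.rename_X, Sum.map_inl]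
    · rw [RingHom.comp_apply, RingHom.comp_apply, RingHom.comp_apply, ren_rho, tay_rho, tay_rho,
        map_add, MvPowerSeries.map_C, ren_rho, AlgHom.toRingHom_eq_coe, RingHom.coe_coe, map_add,
        MvPowerSeries.rename_C, MvPowerSeries.map_X, MvPowerSeries.rename_X, Sum.map_inr]
    · rw [RingHom.comp_apply, ren_rho, tay_rho]
      exact add_mem (CX_mem_kc _) (X_mem_kc _)
  exact congrArg (fun ψ : S R s t →+* MvPowerSeries (s' ⊕ t') (S R s' t') => ψ F) h

end Tay

section TT

variable {R : Type} [CommRing R] {A : Type} [CommRing A] [TRing R A]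
  {s t : Type} [Finite s] [Finite t]

/-- the Taylor series at a point of a T-ring -/
def TT (a : s → A) (b : t → A) (h : Dom R a b) : S R s t →+* MvPowerSeries (s ⊕ t) A :=
  (MvPowerSeries.map (evHom a b h)).comp (tay R s t)

theorem TT_apply (a : s → A) (b : t → A) (h : Dom R a b) (F : S R s t) :
    TT a b h F = MvPowerSeries.map (evHom a b h) (tay R s t F) := rfl

theorem TT_xi (a : s → A) (b : t → A) (h : Dom R a b) (i : s) :
    TT a b h (xi i : S R s t) = MvPowerSeries.C (a i) + MvPowerSeries.X (Sum.inl i) := by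
  rw [TT_apply, tay_xi, map_add, MvPowerSeries.map_C, MvPowerSeries.map_X, evHom_apply]
  congr 2
  exact TRing.T_xi a b h.1 h.2 i

theorem TT_rho (a : s → A) (b : t → A) (h : Dom R a b) (j : t) :
    TT a b h (rho j : S R s t) = MvPowerSeries.C (b j) + MvPowerSeries.X (Sum.inr j) := by
  rw [TT_apply, tay_rho, map_add, MvPowerSeries.map_C, MvPowerSeries.map_X, evHom_apply]
  congr 2
  exact TRing.T_rho a b h.1 h.2 j

theorem constantCoeff_TT (a : s → A) (b : t → A) (h : Dom R a b) (F : S R s t) :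
    MvPowerSeries.constantCoeff (TT a b h F) = ev F a b := by
  rw [TT_apply, MvPowerSeries.constantCoeff_map, constantCoeff_tay, evHom_apply]

theorem TT_ren {s' t' : Type} [Finite s'] [Finite t'] (f : s → s') (g : t → t') (F : S R s t)
    (a : s' → A) (b : t' → A) (h : Dom R a b) :
    TT a b h (ren f g F) = MvPowerSeries.rename (Sum.map f g)
      (TT (a ∘ f) (b ∘ g) ⟨fun _ => h.1 _, fun _ => h.2 _⟩ F) := by
  rw [TT_apply, tay_ren, ← MvPowerSeries.rename_map, TT_apply]
  congr 1
  ext κ
  rw [MvPowerSeries.coeff_map, MvPowerSeries.coeff_map, MvPowerSeries.coeff_map, evHom_apply,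
    evHom_apply]
  exact TRing.T_ren f g _ a b h.1 h.2

end TT

end

end Cm
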