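import Pool.Agent.Lib.MP_c35b50_lc.Cm.HahnV
import Pool.Agent.Lib.MP_c35b50_lc.Cm.Taylor

/-!
# The T-structure on `HahnSeries ℚ L` for a T-field `L`

`O` is the set of the series of order at least zero with constant coefficient in `O_L`; the
evaluation maps are given by Taylor expansion around the constant coefficients.
-/

namespace Cm

open Pool.Agent.Lib.MP_c35b50_lc.Cm

noncomputable section

variable (R : Type) [CommRing R] {L : Type} [Field L] [TRing R L]

variable (L) in
/-- the valuation ring of the Hahn field -/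
def OH : Subring (HahnSeries ℚ L) where
  carrier := {x | Dv 0 x ∧ x.coeff 0 ∈ OO R L}
  mul_mem' := fun {x y} hx hy => by
    refine ⟨(Ov ℚ L).mul_mem hx.1 hy.1, ?_⟩
    have h := coeff_mul_Dv hx.1 hy.1
    rw [add_zero] at h
    rw [h]
    exact mul_mem hx.2 hy.2
  one_mem' := by
    refine ⟨(Ov ℚ L).one_mem, ?_⟩
    rw [HahnSeries.coeff_one, if_pos rfl]
    exact one_mem _
  add_mem' := fun {x y} hx hy => ⟨Dv.add hx.1 hy.1, by
    rw [HahnSeries.coeff_add]
    exact add_mem hx.2 hy.2⟩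
  zero_mem' := ⟨Dv.zero, by
    rw [HahnSeries.coeff_zero]
    exact zero_mem _⟩
  neg_mem' := fun {x} hx => ⟨Dv.neg hx.1, by
    rw [HahnSeries.coeff_neg]
    exact neg_mem hx.2⟩

variable (L) in
/-- its maximal ideal -/
def mH : Set (HahnSeries ℚ L) := {x | Dv 0 x ∧ x.coeff 0 ∈ mm R L}

variable {R}

theorem mH_le {x : HahnSeries ℚ L} (hx : x ∈ mH R L) : x ∈ OH R L :=
  ⟨hx.1, TRing.m_le _ hx.2⟩

variable {s t : Type} [Finite s] [Finite t]

/-- the infinitesimal parts -/
def cI (a : s → HahnSeries ℚ L) (b : t → HahnSeries ℚ L) : s ⊕ t → HahnSeries ℚ L :=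
  Sum.elim (fun i => a i - HahnSeries.C ((a i).coeff 0))
    (fun j => b j - HahnSeries.C ((b j).coeff 0))

omit [TRing R L] [Finite s] [Finite t] in
theorem Iz_cI {a : s → HahnSeries ℚ L} {b : t → HahnSeries ℚ L} (ha : ∀ i, Dv 0 (a i))
    (hb : ∀ j, Dv 0 (b j)) (i : s ⊕ t) : Iz (cI a b i) := by
  rcases i with i | j
  · exact Iz_sub (ha i)
  · exact Iz_sub (hb j)

/-- evaluation by Taylor expansion -/
def evH (F : S R s t) (a : s → HahnSeries ℚ L) (b : t → HahnSeries ℚ L)
    (ha : ∀ i, a i ∈ OH R L) (hb : ∀ j, b j ∈ mH R L) : HahnSeries ℚ L :=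
  He (cI a b) (Iz_cI (fun i => (ha i).1) (fun j => (hb j).1))
    (TT (fun i => (a i).coeff 0) (fun j => (b j).coeff 0)
      ⟨fun i => (ha i).2, fun j => (hb j).2⟩ F)

open Classical in
variable (R L) in
instance instTRingHahn : TRing R (HahnSeries ℚ L) where
  O := OH R L
  m := mH R L
  m_le := fun _ hx => mH_le hx
  m_zero := ⟨Dv.zero, by
    rw [HahnSeries.coeff_zero]
    exact TRing.m_zero⟩
  m_add := fun x hx y hy => ⟨Dv.add hx.1 hy.1, by
    rw [HahnSeries.coeff_add]
    exact TRing.m_add _ hx.2 _ hy.2⟩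
  m_mul := fun x hx y hy => by
    refine ⟨(Ov ℚ L).mul_mem hx.1 hy.1, ?_⟩
    have h := coeff_mul_Dv hx.1 hy.1
    rw [add_zero] at h
    rw [h]
    exact TRing.m_mul _ hx.2 _ hy.2
  T := fun {s t} _ _ F a b =>
    if h : (∀ i, a i ∈ OH R L) ∧ ∀ j, b j ∈ mH R L then evH F a b h.1 h.2 else 0
  T_mem := fun F a b ha hb => by
    rw [dif_pos ⟨ha, hb⟩]
    refine ⟨Dv_He _ _ _, ?_⟩
    rw [evH, coeff_zero_He, constantCoeff_TT]
    exact TRing.T_mem F _ _ (fun i => (ha i).2) (fun j => (hb j).2)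
  T_one := fun a b ha hb => by
    rw [dif_pos ⟨ha, hb⟩, evH, map_one, map_one]
  T_add := fun F G a b ha hb => by
    rw [dif_pos ⟨ha, hb⟩, dif_pos ⟨ha, hb⟩, dif_pos ⟨ha, hb⟩, evH, map_add, map_add]
    rfl
  T_mul := fun F G a b ha hb => by
    rw [dif_pos ⟨ha, hb⟩, dif_pos ⟨ha, hb⟩, dif_pos ⟨ha, hb⟩, evH, map_mul, map_mul]
    rfl
  T_xi := fun a b ha hb i => by
    rw [dif_pos ⟨ha, hb⟩, evH, TT_xi, map_add, He_C, He_X]
    show HahnSeries.C ((a i).coeff 0) + (a i - HahnSeries.C ((a i).coeff 0)) = a i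
    rw [add_sub_cancel]
  T_rho := fun a b ha hb j => by
    rw [dif_pos ⟨ha, hb⟩, evH, TT_rho, map_add, He_C, He_X]
    show HahnSeries.C ((b j).coeff 0) + (b j - HahnSeries.C ((b j).coeff 0)) = b j
    rw [add_sub_cancel]
  T_ren := fun f g F a b ha hb => by
    rw [dif_pos ⟨ha, hb⟩, dif_pos ⟨fun i => ha (f i), fun j => hb (g j)⟩, evH, evH, TT_ren,
      He_rename]
    have h1 : cI a b ∘ Sum.map f g = cI (a ∘ f) (b ∘ g) := by
      funext i
      rcases i with i | j <;> rfl
    congr 1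
    congr 1

variable {a : s → HahnSeries ℚ L} {b : t → HahnSeries ℚ L}

theorem mem_OO_hahn {x : HahnSeries ℚ L} :
    x ∈ OO R (HahnSeries ℚ L) ↔ Dv 0 x ∧ x.coeff 0 ∈ OO R L := Iff.rfl

theorem mem_mm_hahn {x : HahnSeries ℚ L} :
    x ∈ mm R (HahnSeries ℚ L) ↔ Dv 0 x ∧ x.coeff 0 ∈ mm R L := Iff.rfl

theorem mem_mm_of_Iz {x : HahnSeries ℚ L} (hx : Iz x) : x ∈ mm R (HahnSeries ℚ L) := by
  refine ⟨hx.dv, ?_⟩
  rw [hx 0 le_rfl]
  exact TRing.m_zero

omit [Finite s] [Finite t] in
/-- the constant coefficients of a point of the domain -/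
theorem Dom.zero (h : Dom R a b) :
    Dom R (fun i => (a i).coeff 0) (fun j => (b j).coeff 0) :=
  ⟨fun i => (h.1 i).2, fun j => (h.2 j).2⟩

omit [Finite s] [Finite t] in
theorem Dom.Iz (h : Dom R a b) (i : s ⊕ t) : Iz (cI a b i) :=
  Iz_cI (fun i => (h.1 i).1) (fun j => (h.2 j).1) i

theorem ev_hahn (F : S R s t) (h : Dom R a b) :
    ev F a b = He (cI a b) h.Iz (TT _ _ h.zero F) := by
  exact dif_pos (⟨h.1, h.2⟩ : (∀ i, a i ∈ OH R L) ∧ ∀ j, b j ∈ mH R L)

/-- the constant coefficient of a value -/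
theorem coeff_zero_ev (F : S R s t) (h : Dom R a b) :
    (ev F a b).coeff 0 = ev F (fun i => (a i).coeff 0) (fun j => (b j).coeff 0) := by
  rw [ev_hahn F h, coeff_zero_He, constantCoeff_TT]

omit [TRing R L] [Finite s] [Finite t] in
theorem coeff_zero_C (c : L) : (HahnSeries.C c : HahnSeries ℚ L).coeff 0 = c := by
  rw [HahnSeries.C_apply, HahnSeries.coeff_single_same]

omit [Finite s] [Finite t] in
theorem C_mem_OO {c : L} : (HahnSeries.C c : HahnSeries ℚ L) ∈ OO R (HahnSeries ℚ L) ↔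
    c ∈ OO R L := by
  rw [mem_OO_hahn, coeff_zero_C]
  exact ⟨fun h => h.2, fun h => ⟨Dv_C c, h⟩⟩

omit [Finite s] [Finite t] in
theorem C_mem_mm {c : L} : (HahnSeries.C c : HahnSeries ℚ L) ∈ mm R (HahnSeries ℚ L) ↔
    c ∈ mm R L := by
  rw [mem_mm_hahn, coeff_zero_C]
  exact ⟨fun h => h.2, fun h => ⟨Dv_C c, h⟩⟩

theorem He_zero {u : Type} [Finite u] (c : u → HahnSeries ℚ L) (hc : ∀ i, Iz (c i))
    (h0 : ∀ i, c i = 0) (G : MvPowerSeries u L) :
    He c hc G = HahnSeries.C (MvPowerSeries.constantCoeff G) := by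
  have h := He_unique c hc ((cV L).comp (MvPowerSeries.constantCoeff)) (fun r => ?_)
    (fun j => ?_) G
  · exact h.symm
  · rw [RingHom.comp_apply, MvPowerSeries.constantCoeff_C, cV_val]
  · rw [RingHom.comp_apply, MvPowerSeries.constantCoeff_X, map_zero, h0]
    rfl

/-- the values at constants -/
theorem ev_C_hahn (F : S R s t) (a : s → L) (b : t → L) (h : Dom R a b) :
    ev F (fun i => (HahnSeries.C (a i) : HahnSeries ℚ L)) (fun j => HahnSeries.C (b j)) =
      HahnSeries.C (ev F a b) := by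
  have h1 : Dom R (fun i => (HahnSeries.C (a i) : HahnSeries ℚ L))
      (fun j => (HahnSeries.C (b j) : HahnSeries ℚ L)) :=
    ⟨fun i => C_mem_OO.2 (h.1 i), fun j => C_mem_mm.2 (h.2 j)⟩
  rw [ev_hahn F h1, He_zero, constantCoeff_TT]
  · simp only [coeff_zero_C]
  · rintro (i | j)
    · show HahnSeries.C (a i) - HahnSeries.C ((HahnSeries.C (a i) : HahnSeries ℚ L).coeff 0) = 0
      rw [coeff_zero_C, sub_self]
    · show HahnSeries.C (b j) - HahnSeries.C ((HahnSeries.C (b j) : HahnSeries ℚ L).coeff 0) = 0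
      rw [coeff_zero_C, sub_self]

variable (R L) in
/-- the constants -/
def hC : THom R L (HahnSeries ℚ L) where
  toRingHom := HahnSeries.C
  map_O := fun _ => C_mem_OO.symm
  map_m := fun _ => C_mem_mm.symm
  map_T := fun F a b h => (ev_C_hahn F a b h).symm

/-- the ring homomorphism `F ↦ F (a; b)` into the ring of the series of order at least zero -/
def evV (a : s → HahnSeries ℚ L) (b : t → HahnSeries ℚ L) (h : Dom R a b) :
    S R s t →+* Ov ℚ L :=
  (evHom a b h).codRestrict (Ov ℚ L) fun F => (TRing.T_mem F a b h.1 h.2).1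

/-- At infinitesimal arguments of the second kind the evaluation is the only homomorphism. -/
theorem ev_unique (h : Dom R a b) (hb : ∀ j, Iz (b j)) (ψ : S R s t →+* HahnSeries ℚ L)
    (h0 : ∀ F, Dv 0 (ψ F)) (hc : ∀ r, ψ (cst R s t r) = base R (HahnSeries ℚ L) r)
    (hx : ∀ i, ψ (xi i) = a i) (hr : ∀ j, ψ (rho j) = b j) (F : S R s t) :
    ψ F = ev F a b := by
  obtain ⟨q, hq, hqb⟩ := exists_q hb
  have := isHausdorff_Jq (L := L) hq
  have h3 : ψ.codRestrict (Ov ℚ L) h0 = evV a b h := by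
    refine S_hom_ext (Jq L q) _ _ (fun r => ?_) (fun i => ?_) (fun j => ?_) (fun j => ?_)
    · apply Subtype.ext
      show ψ (cst R s t r) = ev (cst R s t r) a b
      rw [hc, ev_cst a b h]
    · apply Subtype.ext
      show ψ (xi i) = ev (xi i : S R s t) a b
      rw [hx]
      exact (TRing.T_xi a b h.1 h.2 i).symm
    · apply Subtype.ext
      show ψ (rho j) = ev (rho j : S R s t) a b
      rw [hr]
      exact (TRing.T_rho a b h.1 h.2 j).symm
    · rw [mem_Jq]
      show Dv q (ψ (rho j))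
      rw [hr]
      exact hqb j
  exact congrArg (fun χ : S R s t →+* Ov ℚ L => (χ F).1) h3

theorem base_hahn (r : R) : base R (HahnSeries ℚ L) r = HahnSeries.C (base R L r) := by
  have h : Dom R (fun i : Empty => (i.elim : L)) (fun i : Empty => (i.elim : L)) :=
    ⟨fun i => i.elim, fun i => i.elim⟩
  have h1 := ev_C_hahn (cst R Empty Empty r) _ _ h
  rw [ev_cst _ _ h, ev_cst _ _ ⟨fun i => i.elim, fun i => i.elim⟩] at h1
  exact h1

attribute [-instance] HahnSeries.powerSeriesAlgebra in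
/-- the value at a constant and an infinitesimal argument -/
theorem ev_eq_heval (F : S R s Unit) (a : s → L) (ha : ∀ i, a i ∈ OO R L)
    (x : HahnSeries ℚ L) (hx : Iz x) :
    ev F (fun i => (HahnSeries.C (a i) : HahnSeries ℚ L)) (fun _ => x) =
      PowerSeries.heval x
        (MvPowerSeries.map (MvPolynomial.eval₂Hom (base R L) a) F : PowerSeries L) := by
  have hd : Dom R (fun i => (HahnSeries.C (a i) : HahnSeries ℚ L)) (fun _ : Unit => x) :=
    ⟨fun i => C_mem_OO.2 (ha i), fun _ => mem_mm_of_Iz hx⟩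
  rw [← He_eq_heval x hx]
  refine (ev_unique hd (fun _ => hx) ((He (fun _ : Unit => x) (fun _ => hx)).comp
    (MvPowerSeries.map (MvPolynomial.eval₂Hom (base R L) a))) (fun F => Dv_He _ _ _)
    (fun r => ?_) (fun i => ?_) (fun j => ?_) F).symm
  · rw [RingHom.comp_apply, cst, RingHom.comp_apply, MvPowerSeries.map_C, He_C,
      MvPolynomial.coe_eval₂Hom, MvPolynomial.eval₂_C, base_hahn]
  · rw [RingHom.comp_apply, xi, MvPowerSeries.map_C, He_C, MvPolynomial.coe_eval₂Hom,
      MvPolynomial.eval₂_X]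
  · rw [RingHom.comp_apply, rho, MvPowerSeries.map_X, He_X]

omit [TRing R L] in
/-- the inverse of a Hahn series -/
theorem inv_hahn {x : HahnSeries ℚ L} (hx : x ≠ 0) : ∃ g : ℚ, Dv g x ∧ x.coeff g ≠ 0 ∧
    Dv (-g) x⁻¹ ∧ x⁻¹.coeff (-g) = (x.coeff g)⁻¹ := by
  have hd : ∀ y : HahnSeries ℚ L, Dv y.order y :=
    fun y h hh => HahnSeries.coeff_eq_zero_of_lt_order hh
  have hx' : x⁻¹ ≠ 0 := inv_ne_zero hx
  have h1 := HahnSeries.coeff_order_eq_zero.not.2 hx
  have h2 := HahnSeries.coeff_order_eq_zero.not.2 hx'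
  have h3 := coeff_mul_Dv (hd x) (hd x⁻¹)
  rw [mul_inv_cancel₀ hx, HahnSeries.coeff_one] at h3
  by_cases h4 : x.order + x⁻¹.order = 0
  · have h5 : x⁻¹.order = -x.order := by linarith
    rw [if_pos h4, h5] at h3
    refine ⟨x.order, hd x, h1, by rw [← h5]; exact hd _, ?_⟩
    exact (eq_inv_of_mul_eq_one_right h3.symm)
  · rw [if_neg h4] at h3
    exact absurd h3.symm (mul_ne_zero h1 h2)

end

noncomputable section

variable (R : Type) [CommRing R] (L : Type) [Field L] [TField R L]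

instance instTFieldHahn : TField R (HahnSeries ℚ L) where
  toTRing := instTRingHahn R L
  total := fun x => by
    by_cases h0 : x = 0
    · left
      rw [h0]
      exact (OH R L).zero_mem
    · obtain ⟨g, h1, h2, h3, h4⟩ := inv_hahn h0
      rcases lt_trichotomy g 0 with hg | hg | hg
      · right
        exact mH_le (mem_mm_of_Iz (Iz_of_Dv (neg_pos.2 hg) h3))
      · subst hg
        rw [neg_zero] at h3 h4
        rcases TField.total (R := R) (x.coeff 0) with h5 | h5
        · left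
          exact ⟨h1, h5⟩
        · right
          refine ⟨h3, ?_⟩
          rw [h4]
          exact h5
      · left
        exact mH_le (mem_mm_of_Iz (Iz_of_Dv hg h1))
  m_iff := fun x => by
    by_cases h0 : x = 0
    · rw [h0]
      exact ⟨fun _ => ⟨(OH R L).zero_mem, Or.inl rfl⟩,
        fun _ => (instTRingHahn R L).m_zero⟩
    · obtain ⟨g, h1, h2, h3, h4⟩ := inv_hahn h0
      constructor
      · intro hx
        refine ⟨mH_le hx, Or.inr fun hx' => ?_⟩
        have hg : g = 0 := by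
          apply le_antisymm
          · by_contra hc
            apply inv_ne_zero h2
            rw [← h4]
            exact hx'.1 _ (neg_lt_zero.2 (not_le.1 hc))
          · by_contra hc
            exact h2 (hx.1 _ (not_le.1 hc))
        subst hg
        rw [neg_zero] at h4
        have h5 : x.coeff 0 ∈ mm R L := hx.2
        have h6 : x⁻¹.coeff 0 ∈ OO R L := hx'.2
        rw [h4] at h6
        rcases ((TField.m_iff (R := R) _).1 h5).2 with h7 | h7
        · exact h2 h7
        · exact h7 h6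
      · rintro ⟨hx, hx'⟩
        have hx1 : Dv 0 x ∧ x.coeff 0 ∈ OO R L := hx
        refine ⟨hx1.1, ?_⟩
        by_contra hc
        have h5 : ¬(x.coeff 0 = 0 ∨ (x.coeff 0)⁻¹ ∉ OO R L) :=
          fun h => hc ((TField.m_iff (R := R) _).2 ⟨hx1.2, h⟩)
        push Not at h5
        have hg : g = 0 := by
          apply le_antisymm
          · by_contra hc'
            exact h5.1 (h1 _ (not_le.1 hc'))
          · by_contra hc'
            exact h2 (hx1.1 _ (not_le.1 hc'))
        subst hg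
        rw [neg_zero] at h3 h4
        rcases hx' with h6 | h6
        · exact h0 h6
        · apply h6
          refine ⟨h3, ?_⟩
          rw [h4]
          exact h5.2

end

end Cm
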