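import Pool.Agent.Lib.MP_c35b50_lc.Cm.HahnD
import Pool.Agent.Lib.MP_c35b50_lc.Cm.AdicB

/-!
# The valuation ring of `HahnSeries ℚ L`: completeness, evaluation of power series

`V = Ov ℚ L` (order at least zero) is complete for the ideal `Jq q` of the elements of order at
least `q > 0`. `He c hc` is the evaluation of power series over `L` at infinitesimal elements.
-/

namespace Cm

open Pool.Agent.Lib.MP_c35b50_lc.Cm

noncomputable section

variable {L : Type} [Field L]

/-- limits of sequences -/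
theorem exists_lim (f : ℕ → HahnSeries ℚ L) (γ : ℕ → ℚ) (hγ : ∀ g, ∃ n, g < γ n)
    (h : ∀ m n, m ≤ n → Dv (γ m) (f n - f m)) : ∃ w, ∀ n, Dv (γ n) (w - f n) := by
  classical
  have hagree : ∀ m n h', h' < γ m → h' < γ n → (f m).coeff h' = (f n).coeff h' := by
    intro m n h' h1 h2
    rcases le_total m n with hmn | hmn
    · have h3 := h m n hmn h' h1
      rw [HahnSeries.coeff_sub, sub_eq_zero] at h3
      exact h3.symm
    · have h3 := h n m hmn h' h2
      rw [HahnSeries.coeff_sub, sub_eq_zero] at h3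
      exact h3
  choose N hN using hγ
  have hF : ∀ n h', h' < γ n → (f (N h')).coeff h' = (f n).coeff h' :=
    fun n h' hh => hagree _ _ h' (hN h') hh
  have hsupp : (Function.support fun h' => (f (N h')).coeff h').IsPWO := by
    rw [Set.isPWO_iff_isWF, Set.isWF_iff_no_descending_seq]
    intro u hu hmem
    have hwf : (HahnSeries.support (f (N (u 0)))).IsWF := (f (N (u 0))).isWF_support
    rw [Set.isWF_iff_no_descending_seq] at hwf
    apply hwf u hu
    intro n
    have hn : u n ≤ u 0 := hu.antitone (Nat.zero_le n)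
    have h1 := hF (N (u 0)) (u n) (hn.trans_lt (hN _))
    have h2 : (f (N (u n))).coeff (u n) ≠ 0 := hmem n
    rw [h1] at h2
    exact h2
  refine ⟨⟨fun h' => (f (N h')).coeff h', hsupp⟩, fun n h' hh => ?_⟩
  rw [HahnSeries.coeff_sub, sub_eq_zero]
  exact hF n h' hh

theorem eq_zero_of_Dv {x : HahnSeries ℚ L} (γ : ℕ → ℚ) (hγ : ∀ g, ∃ n, g < γ n)
    (h : ∀ n, Dv (γ n) x) : x = 0 := by
  ext g
  obtain ⟨n, hn⟩ := hγ g
  rw [h n g hn, HahnSeries.coeff_zero]

theorem arch {q : ℚ} (hq : 0 < q) (g : ℚ) : ∃ n : ℕ, g < n * q := by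
  obtain ⟨n, hn⟩ := exists_nat_gt (g / q)
  exact ⟨n, by rwa [div_lt_iff₀ hq] at hn⟩

variable (L) in
/-- the ideal of the elements of order at least `q` -/
def Jq (q : ℚ) : Ideal (Ov ℚ L) where
  carrier := {x | Dv q x.1}
  add_mem' := fun hx hy => Dv.add hx hy
  zero_mem' := Dv.zero
  smul_mem' := fun c x hx => by
    have h : Dv (0 + q) (c.1 * x.1) := Dv.mul c.2 hx
    rwa [zero_add] at h

theorem mem_Jq {q : ℚ} {x : Ov ℚ L} : x ∈ Jq L q ↔ Dv q x.1 := Iff.rfl

theorem mem_Jq_pow {q : ℚ} (hq : 0 < q) (n : ℕ) {x : Ov ℚ L} :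
    x ∈ Jq L q ^ n ↔ Dv (n * q) x.1 := by
  constructor
  · intro hx
    have h : Jq L q ^ n ≤ Jq L (n * q) := by
      clear hx
      induction n with
      | zero =>
        intro y _
        show Dv _ y.1
        rw [Nat.cast_zero, zero_mul]
        exact y.2
      | succ n ih =>
        rw [pow_succ, Ideal.mul_le]
        intro a ha b hb
        have h1 : Dv (n * q + q) (a.1 * b.1) := Dv.mul (ih ha) hb
        show Dv _ (a.1 * b.1)
        rw [Nat.cast_succ, add_mul, one_mul]
        exact h1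
    exact h hx
  · intro hx
    have h0 : ∀ r : ℚ, 0 ≤ r → Dv r (tp L r) := by
      intro r _ h hh
      rw [tp, HahnSeries.coeff_single_of_ne hh.ne]
    have h1 : (⟨tp L q, (h0 q hq.le).mono hq.le⟩ : Ov ℚ L) ∈ Jq L q := h0 q hq.le
    have h2 : Dv 0 (tp L (-(n * q)) * x.1) := by
      have := Dv_tp_mul (a := -(n * q)) hx
      rwa [neg_add_cancel] at this
    have h3 : x = (⟨tp L q, (h0 q hq.le).mono hq.le⟩ : Ov ℚ L) ^ n * ⟨_, h2⟩ := by
      apply Subtype.ext
      show x.1 = tp L q ^ n * (tp L (-(n * q)) * x.1)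
      rw [← mul_assoc, tp_pow, nsmul_eq_mul, tp_mul, add_neg_cancel, tp_zero, one_mul]
    rw [h3]
    exact Ideal.mul_mem_right _ _ (Ideal.pow_mem_pow h1 n)

theorem isHausdorff_Jq {q : ℚ} (hq : 0 < q) : IsHausdorff (Jq L q) (Ov ℚ L) := by
  refine ⟨fun x hx => ?_⟩
  apply Subtype.ext
  refine eq_zero_of_Dv (fun n : ℕ => (n : ℚ) * q) (arch hq) fun n => ?_
  have h1 := hx n
  rw [SModEq.zero, smul_eq_mul, Ideal.mul_top, mem_Jq_pow hq] at h1
  exact h1

theorem isAdicComplete_Jq {q : ℚ} (hq : 0 < q) : IsAdicComplete (Jq L q) (Ov ℚ L) where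
  toIsHausdorff := isHausdorff_Jq hq
  toIsPrecomplete := by
    refine ⟨fun f hf => ?_⟩
    have h1 : ∀ m n : ℕ, m ≤ n → Dv ((m : ℚ) * q) ((f n).1 - (f m).1) := by
      intro m n hmn
      have h2 := hf hmn
      rw [SModEq.sub_mem, smul_eq_mul, Ideal.mul_top, mem_Jq_pow hq] at h2
      have h3 := Dv.neg h2
      have h4 : -(f m - f n).1 = (f n).1 - (f m).1 := by
        show -((f m).1 - (f n).1) = _
        rw [neg_sub]
      rwa [h4] at h3
    obtain ⟨w, hw⟩ := exists_lim (fun n => (f n).1) (fun n : ℕ => (n : ℚ) * q) (arch hq) h1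
    have hw0 : Dv 0 w := by
      have h2 := hw 0
      rw [Nat.cast_zero, zero_mul] at h2
      have h3 := h2.add (f 0).2
      rwa [sub_add_cancel] at h3
    refine ⟨⟨w, hw0⟩, fun n => ?_⟩
    rw [SModEq.sub_mem, smul_eq_mul, Ideal.mul_top, mem_Jq_pow hq]
    have h3 := Dv.neg (hw n)
    rwa [neg_sub] at h3

/-- infinitesimal elements -/
def Iz (x : HahnSeries ℚ L) : Prop := ∀ h ≤ (0 : ℚ), x.coeff h = 0

theorem Iz.zero : Iz (0 : HahnSeries ℚ L) := fun _ _ => HahnSeries.coeff_zero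

theorem Iz.dv {x : HahnSeries ℚ L} (hx : Iz x) : Dv 0 x := fun h hh => hx h hh.le

theorem Iz.exists {x : HahnSeries ℚ L} (hx : Iz x) : ∃ q : ℚ, 0 < q ∧ Dv q x := by
  by_cases h0 : x = 0
  · exact ⟨1, one_pos, by rw [h0]; exact Dv.zero⟩
  · refine ⟨x.order, ?_, fun h hh => HahnSeries.coeff_eq_zero_of_lt_order hh⟩
    by_contra hc
    exact (HahnSeries.coeff_order_eq_zero.not.2 h0) (hx _ (not_lt.1 hc))

theorem Iz_of_Dv {x : HahnSeries ℚ L} {q : ℚ} (hq : 0 < q) (hx : Dv q x) : Iz x :=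
  fun h hh => hx h (hh.trans_lt hq)

theorem Iz_iff {x : HahnSeries ℚ L} : Iz x ↔ Dv 0 x ∧ x.coeff 0 = 0 := by
  constructor
  · intro h
    exact ⟨h.dv, h 0 le_rfl⟩
  · rintro ⟨h1, h2⟩ h hh
    rcases hh.lt_or_eq with h3 | h3
    · exact h1 h h3
    · rw [h3, h2]

theorem Iz.add {x y : HahnSeries ℚ L} (hx : Iz x) (hy : Iz y) : Iz (x + y) :=
  fun h hh => by rw [HahnSeries.coeff_add, hx h hh, hy h hh, add_zero]

theorem Iz.mul {x y : HahnSeries ℚ L} (hx : Dv 0 x) (hy : Iz y) : Iz (x * y) := by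
  obtain ⟨q, hq, h⟩ := hy.exists
  have h1 : Dv (0 + q) (x * y) := Dv.mul hx h
  rw [zero_add] at h1
  exact Iz_of_Dv hq h1

theorem Iz_sub {x : HahnSeries ℚ L} (hx : Dv 0 x) : Iz (x - HahnSeries.C (x.coeff 0)) := by
  rw [Iz_iff]
  constructor
  · intro h hh
    rw [HahnSeries.coeff_sub, hx h hh, HahnSeries.C_apply, HahnSeries.coeff_single_of_ne hh.ne,
      sub_zero]
  · rw [HahnSeries.coeff_sub, HahnSeries.C_apply, HahnSeries.coeff_single_same, sub_self]

theorem exists_q {u : Type} [Finite u] {c : u → HahnSeries ℚ L} (hc : ∀ i, Iz (c i)) :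
    ∃ q : ℚ, 0 < q ∧ ∀ i, Dv q (c i) := by
  classical
  have := Fintype.ofFinite u
  choose q hq h using fun i => (hc i).exists
  rcases isEmpty_or_nonempty u with he | hne
  · exact ⟨1, one_pos, fun i => he.elim i⟩
  · obtain ⟨i, -, hi⟩ := Finset.exists_min_image (Finset.univ : Finset u) q Finset.univ_nonempty
    exact ⟨q i, hq i, fun j => (h j).mono (hi j (Finset.mem_univ j))⟩

theorem Dv_C (r : L) : Dv 0 (HahnSeries.C r : HahnSeries ℚ L) :=
  fun h hh => by rw [HahnSeries.C_apply, HahnSeries.coeff_single_of_ne hh.ne]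

variable (L) in
/-- the constants -/
def cV : L →+* Ov ℚ L := (HahnSeries.C : L →+* HahnSeries ℚ L).codRestrict (Ov ℚ L) Dv_C

@[simp] theorem cV_val (r : L) : (cV L r).1 = HahnSeries.C r := rfl

theorem exists_He {u : Type} [Finite u] {c : u → HahnSeries ℚ L} (hc : ∀ i, Iz (c i)) :
    ∃ ψ : MvPowerSeries u L →+* Ov ℚ L, (∀ r, (ψ (MvPowerSeries.C r)).1 = HahnSeries.C r) ∧
      ∀ j, (ψ (MvPowerSeries.X j)).1 = c j := by
  obtain ⟨q, hq, h⟩ := exists_q hc
  have := isAdicComplete_Jq (L := L) hq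
  obtain ⟨ψ, h1, h2⟩ := adic_eval (Jq L q) (cV L) (fun i => ⟨c i, (hc i).dv⟩) h
  exact ⟨ψ, fun r => by rw [h1]; rfl, fun j => by rw [h2]⟩

/-- evaluation of power series at infinitesimal elements, with values in the valuation ring -/
def HeV {u : Type} [Finite u] (c : u → HahnSeries ℚ L) (hc : ∀ i, Iz (c i)) :
    MvPowerSeries u L →+* Ov ℚ L := Classical.choose (exists_He hc)

/-- evaluation of power series at infinitesimal elements -/
def He {u : Type} [Finite u] (c : u → HahnSeries ℚ L) (hc : ∀ i, Iz (c i)) :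
    MvPowerSeries u L →+* HahnSeries ℚ L := (Ov ℚ L).subtype.comp (HeV c hc)

section

variable {u : Type} [Finite u] (c : u → HahnSeries ℚ L) (hc : ∀ i, Iz (c i))

theorem He_apply (G : MvPowerSeries u L) : He c hc G = (HeV c hc G).1 := rfl

@[simp] theorem He_C (r : L) : He c hc (MvPowerSeries.C r) = HahnSeries.C r :=
  (Classical.choose_spec (exists_He hc)).1 r

@[simp] theorem He_X (i : u) : He c hc (MvPowerSeries.X i) = c i :=
  (Classical.choose_spec (exists_He hc)).2 i

theorem Dv_He (G : MvPowerSeries u L) : Dv 0 (He c hc G) := (HeV c hc G).2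

theorem He_unique (ψ : MvPowerSeries u L →+* Ov ℚ L)
    (h1 : ∀ r, (ψ (MvPowerSeries.C r)).1 = HahnSeries.C r)
    (h2 : ∀ j, (ψ (MvPowerSeries.X j)).1 = c j) (G : MvPowerSeries u L) :
    (ψ G).1 = He c hc G := by
  obtain ⟨q, hq, h⟩ := exists_q hc
  have := isHausdorff_Jq (L := L) hq
  have h3 : ψ = HeV c hc := by
    refine hom_ext (Jq L q) ψ (HeV c hc) (fun r => ?_) (fun j => ?_) (fun j => ?_)
    · apply Subtype.ext
      rw [h1, ← He_apply, He_C]
    · apply Subtype.ext
      rw [h2, ← He_apply, He_X]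
    · rw [mem_Jq, h2]
      exact h j
  rw [h3, He_apply]

/-- uniqueness for homomorphisms into the Hahn field -/
theorem He_unique' (ψ : MvPowerSeries u L →+* HahnSeries ℚ L)
    (h0 : ∀ G, Dv 0 (ψ G)) (h1 : ∀ r, ψ (MvPowerSeries.C r) = HahnSeries.C r)
    (h2 : ∀ j, ψ (MvPowerSeries.X j) = c j) (G : MvPowerSeries u L) : ψ G = He c hc G :=
  He_unique c hc (ψ.codRestrict (Ov ℚ L) h0) h1 h2 G

/-- the constant coefficient of the value -/
theorem coeff_zero_He (G : MvPowerSeries u L) :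
    (He c hc G).coeff 0 = MvPowerSeries.constantCoeff G := by
  have h : (res ℚ L).comp (HeV c hc) = MvPowerSeries.constantCoeff := by
    refine hom_ext (⊥ : Ideal L) _ _ (fun r => ?_) (fun j => ?_) (fun j => ?_)
    · rw [RingHom.comp_apply, res_apply, ← He_apply, He_C, MvPowerSeries.constantCoeff_C,
        HahnSeries.C_apply, HahnSeries.coeff_single_same]
    · rw [RingHom.comp_apply, res_apply, ← He_apply, He_X, MvPowerSeries.constantCoeff_X]
      exact hc j 0 le_rfl
    · rw [RingHom.comp_apply, res_apply, ← He_apply, He_X, Ideal.mem_bot]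
      exact hc j 0 le_rfl
  exact congrArg (fun ψ : MvPowerSeries u L →+* L => ψ G) h

theorem He_rename {u' : Type} [Finite u'] (f : u' → u) (G : MvPowerSeries u' L) :
    He c hc (MvPowerSeries.rename f G) = He (c ∘ f) (fun i => hc (f i)) G := by
  have h := He_unique' (c ∘ f) (fun i => hc (f i))
    ((He c hc).comp ((MvPowerSeries.rename f : MvPowerSeries u' L →ₐ[L] MvPowerSeries u L) :
      MvPowerSeries u' L →+* MvPowerSeries u L)) (fun G => Dv_He c hc _) (fun r => ?_)
    (fun j => ?_) G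
  · exact h
  · simp
  · simp

end

theorem Iz.orderTop {x : HahnSeries ℚ L} (hx : Iz x) : 0 < x.orderTop := by
  by_cases h0 : x = 0
  · rw [h0, HahnSeries.orderTop_zero]
    exact WithTop.coe_lt_top 0
  · rw [HahnSeries.orderTop_of_ne_zero h0, ← HahnSeries.order_of_ne h0]
    have h1 : 0 < x.order := by
      by_contra hc
      exact (HahnSeries.coeff_order_eq_zero.not.2 h0) (hx _ (not_lt.1 hc))
    exact_mod_cast h1

theorem Dv_pow {x : HahnSeries ℚ L} (hx : Dv 0 x) (n : ℕ) : Dv 0 (x ^ n) :=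
  pow_mem (S := Ov ℚ L) hx n

attribute [-instance] HahnSeries.powerSeriesAlgebra in
/-- evaluation in one variable is the evaluation of Mathlib -/
theorem He_eq_heval (x : HahnSeries ℚ L) (hx : Iz x) (G : PowerSeries L) :
    He (fun _ : Unit => x) (fun _ => hx) G = PowerSeries.heval x G := by
  have h := He_unique' (fun _ : Unit => x) (fun _ => hx)
    (PowerSeries.heval x).toRingHom (fun G => ?_) (fun r => ?_)
    (fun j => ?_) G
  · exact h.symm
  · intro h hh
    show (PowerSeries.heval x (G : PowerSeries L)).coeff h = 0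
    rw [PowerSeries.coeff_heval]
    refine finsum_eq_zero_of_forall_eq_zero fun n => ?_
    show (HahnSeries.SummableFamily.powerSeriesFamily x (G : PowerSeries L) n).coeff h = 0
    rw [HahnSeries.SummableFamily.powerSeriesFamily_of_orderTop_pos hx.orderTop,
      HahnSeries.coeff_smul, Dv_pow hx.dv n h hh, smul_zero]
  · show PowerSeries.heval x (PowerSeries.C r) = _
    rw [PowerSeries.heval_C]
    ext g
    rw [HahnSeries.coeff_smul, HahnSeries.coeff_one, HahnSeries.C_apply]
    by_cases hg : g = 0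
    · subst hg
      rw [if_pos rfl, HahnSeries.coeff_single_same, smul_eq_mul, mul_one]
    · rw [if_neg hg, HahnSeries.coeff_single_of_ne hg, smul_zero]
  · exact PowerSeries.heval_X x hx.orderTop

end

end Cm
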