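import Mathlib

/-!
# MP_c35b50_lc, part (C), abstract model theory 1: embeddings of a class with ultrapowers and the one variable
amalgamation property are elementary.
-/

open FirstOrder FirstOrder.Language

namespace Cm

/-- A class of `L`-structures (carriers in `Type`) with distinguished maps (`Emb`), closed under ultrapowers, with
two families of basic sets (`ball false` closed balls, `ball true` open balls) and the one variable property
`core`: two elements outside the base which are in the same balls of the base can be identified. -/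
structure Frame (L : FirstOrder.Language.{0, 0}) where
  /-- the objects -/
  Ob : Type 1
  /-- the carrier -/
  car : Ob → Type
  /-- the structure -/
  str : ∀ X, L.Structure (car X)
  ne : ∀ X, Nonempty (car X)
  /-- the ball formulas: variables `x` (element), `a` (centre), `b` (radius) -/
  ball : Bool → L.Formula (Fin 3)
  /-- the distinguished embeddings -/
  Emb : ∀ X Y, (car X → car Y) → Prop
  emb : ∀ {X Y} {i : car X → car Y}, Emb X Y i → ∃ f : car X ↪[L] car Y, ⇑f = i
  pow : ∀ (X : Ob) (ι : Type) (U : Ultrafilter ι),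
    ∃ (Y : Ob) (e : car Y ≃[L] ((U : Filter ι).Product fun _ : ι => car X)),
      Emb X Y fun x => e.symm (((fun _ => x : ι → car X)) : (U : Filter ι).Product fun _ : ι => car X)
  core : ∀ {X L1 L2 : Ob} {i1 : car X → car L1} {i2 : car X → car L2}, Emb X L1 i1 → Emb X L2 i2 →
    ∀ (y1 : car L1) (y2 : car L2), y1 ∉ Set.range i1 → y2 ∉ Set.range i2 →
    (∀ k a b, (ball k).Realize ![y1, i1 a, i1 b] ↔ (ball k).Realize ![y2, i2 a, i2 b]) →
    ∃ (F : Ob) (j1 : car F → car L1) (j2 : car F → car L2) (h : car X → car F) (z : car F),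
      Emb F L1 j1 ∧ Emb F L2 j2 ∧ j1 ∘ h = i1 ∧ j2 ∘ h = i2 ∧ j1 z = y1 ∧ j2 z = y2
  fip : ∀ {X Y : Ob} {i : car X → car Y}, Emb X Y i → ∀ y : car Y, y ∉ Set.range i →
    ∀ s : Finset (Bool × car X × car X), ∃ x : car X, ∀ t ∈ s,
      ((ball t.1).Realize ![x, t.2.1, t.2.2] ↔ (ball t.1).Realize ![y, i t.2.1, i t.2.2])
  pt : ∀ X : Ob, ∃ b : car X, (∀ c x : car X, (ball false).Realize ![x, c, b] ↔ x = c) ∧
    ∀ (Y : Ob) (i : car X → car Y), Emb X Y i → ∀ (c : car X) (y : car Y),
      ((ball false).Realize ![y, i c, i b] ↔ y = i c)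

attribute [instance] Frame.str Frame.ne

namespace Frame

variable {L : FirstOrder.Language.{0, 0}} (𝓕 : Frame L)

/-- Realisation in an ultrapower given up to isomorphism. -/
theorem los {X Y : 𝓕.Ob} {ι : Type} (U : Ultrafilter ι)
    (e : 𝓕.car Y ≃[L] ((U : Filter ι).Product fun _ : ι => 𝓕.car X)) {α : Type*} {n : ℕ}
    (φ : L.BoundedFormula α n) (v : α → ι → 𝓕.car X) (xs : Fin n → ι → 𝓕.car X) :
    φ.Realize (fun a => e.symm ((v a : ι → 𝓕.car X) : (U : Filter ι).Product fun _ : ι => 𝓕.car X))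
      (fun k => e.symm ((xs k : ι → 𝓕.car X) : (U : Filter ι).Product fun _ : ι => 𝓕.car X)) ↔
      ∀ᶠ s in (U : Filter ι), φ.Realize (fun a => v a s) fun k => xs k s := by
  rw [← Language.Ultraproduct.boundedFormula_realize_cast φ v xs]
  exact Language.StrongHomClass.realize_boundedFormula e.symm φ

theorem losF {X Y : 𝓕.Ob} {ι : Type} (U : Ultrafilter ι)
    (e : 𝓕.car Y ≃[L] ((U : Filter ι).Product fun _ : ι => 𝓕.car X)) {α : Type*}
    (φ : L.Formula α) (v : α → ι → 𝓕.car X) :
    φ.Realize (fun a => e.symm ((v a : ι → 𝓕.car X) : (U : Filter ι).Product fun _ : ι => 𝓕.car X)) ↔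
      ∀ᶠ s in (U : Filter ι), φ.Realize (fun a => v a s) := by
  rw [← Language.Ultraproduct.realize_formula_cast φ v]
  exact Language.StrongHomClass.realize_formula e.symm φ

theorem los3 {X Y : 𝓕.Ob} {ι : Type} (U : Ultrafilter ι)
    (e : 𝓕.car Y ≃[L] ((U : Filter ι).Product fun _ : ι => 𝓕.car X))
    (φ : L.Formula (Fin 3)) (f g h : ι → 𝓕.car X) :
    φ.Realize ![e.symm (f : (U : Filter ι).Product fun _ : ι => 𝓕.car X),
      e.symm (g : (U : Filter ι).Product fun _ : ι => 𝓕.car X),
      e.symm (h : (U : Filter ι).Product fun _ : ι => 𝓕.car X)] ↔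
      ∀ᶠ s in (U : Filter ι), φ.Realize ![f s, g s, h s] := by
  have h0 := 𝓕.losF U e φ ![f, g, h]
  have h1 : (fun a => e.symm ((![f, g, h] a : ι → 𝓕.car X) :
      (U : Filter ι).Product fun _ : ι => 𝓕.car X)) =
      ![e.symm (f : (U : Filter ι).Product fun _ : ι => 𝓕.car X),
      e.symm (g : (U : Filter ι).Product fun _ : ι => 𝓕.car X),
      e.symm (h : (U : Filter ι).Product fun _ : ι => 𝓕.car X)] := by
    ext m; fin_cases m <;> rfl
  have h2 : ∀ s, (fun a => (![f, g, h] a : ι → 𝓕.car X) s) = ![f s, g s, h s] := by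
    intro s; ext m; fin_cases m <;> rfl
  simp only [h1, h2] at h0
  exact h0

/-- A filter generated by the basic sets containing `y` and the complements of the others. -/
theorem exists_ultra {X Y : 𝓕.Ob} {i : 𝓕.car X → 𝓕.car Y} (hi : 𝓕.Emb X Y i) (y : 𝓕.car Y)
    (hy : y ∉ Set.range i) : ∃ U : Ultrafilter (𝓕.car X), ∀ k a b,
      ((∀ᶠ x in (U : Filter (𝓕.car X)), (𝓕.ball k).Realize ![x, a, b]) ↔
        (𝓕.ball k).Realize ![y, i a, i b]) := by
  classical
  let S : Bool × 𝓕.car X × 𝓕.car X → Set (𝓕.car X) := fun t =>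
    {x | (𝓕.ball t.1).Realize ![x, t.2.1, t.2.2] ↔ (𝓕.ball t.1).Realize ![y, i t.2.1, i t.2.2]}
  have hne : (Filter.generate (Set.range S)).NeBot := by
    rw [Filter.generate_neBot_iff]
    intro T hT hfin
    choose! g hg using fun (W : Set (𝓕.car X)) (hW : W ∈ T) => hT hW
    obtain ⟨x, hx⟩ := 𝓕.fip hi y hy (hfin.toFinset.image g)
    refine ⟨x, fun W hW => ?_⟩
    rw [← hg W hW]
    exact hx _ (Finset.mem_image_of_mem _ (hfin.mem_toFinset.2 hW))
  refine ⟨Ultrafilter.of (Filter.generate (Set.range S)), fun k a b => ?_⟩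
  have h1 : S (k, a, b) ∈ (Ultrafilter.of (Filter.generate (Set.range S)) : Filter (𝓕.car X)) :=
    Ultrafilter.of_le _ (Filter.GenerateSets.basic ⟨_, rfl⟩)
  constructor
  · intro h
    obtain ⟨x, hx, hx'⟩ := (h.and h1).exists
    exact hx'.1 hx
  · intro h
    filter_upwards [h1] with x hx
    exact hx.2 h

/-- The point ball of `c` is small for the ultrafilter of an element outside the base. -/
theorem ne_point {X Y Z : 𝓕.Ob} {i : 𝓕.car X → 𝓕.car Y} (hi : 𝓕.Emb X Y i) (y : 𝓕.car Y)
    (hy : y ∉ Set.range i) {j : 𝓕.car X → 𝓕.car Z} (hj : 𝓕.Emb X Z j) (z : 𝓕.car Z)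
    (h : ∀ k a b, (𝓕.ball k).Realize ![y, i a, i b] ↔ (𝓕.ball k).Realize ![z, j a, j b]) :
    z ∉ Set.range j := by
  rintro ⟨c, rfl⟩
  obtain ⟨b, -, hb⟩ := 𝓕.pt X
  exact hy ⟨c, (((hb Y i hi c y).1 ((h false c b).2 ((hb Z j hj c (j c)).2 rfl)))).symm⟩

/-- **C1.** The distinguished maps are elementary. -/
theorem elem {α : Type*} {n : ℕ} (φ : L.BoundedFormula α n) : ∀ {X Y : 𝓕.Ob} {i : 𝓕.car X → 𝓕.car Y},
    𝓕.Emb X Y i → ∀ (v : α → 𝓕.car X) (xs : Fin n → 𝓕.car X),
      (φ.Realize (i ∘ v) (i ∘ xs) ↔ φ.Realize v xs) := by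
  induction φ with
  | falsum => intro X Y i hi v xs; exact Iff.rfl
  | equal t1 t2 =>
    intro X Y i hi v xs
    obtain ⟨f, rfl⟩ := 𝓕.emb hi
    simp only [BoundedFormula.Realize, ← Sum.comp_elim, HomClass.realize_term, f.injective.eq_iff]
  | rel R ts =>
    intro X Y i hi v xs
    obtain ⟨f, rfl⟩ := 𝓕.emb hi
    simp only [BoundedFormula.Realize, ← Sum.comp_elim, HomClass.realize_term]
    exact StrongHomClass.map_rel f R _
  | imp φ ψ h1 h2 =>
    intro X Y i hi v xs
    simp only [BoundedFormula.realize_imp, h1 hi, h2 hi]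
  | @all n φ ih =>
    intro X Y i hi v xs
    simp only [BoundedFormula.realize_all]
    constructor
    · intro h x
      have := h (i x)
      rw [← Fin.comp_snoc, ih hi] at this
      exact this
    · intro h y
      by_cases hy : y ∈ Set.range i
      · obtain ⟨x, rfl⟩ := hy
        rw [← Fin.comp_snoc, ih hi]
        exact h x
      · by_contra hcon
        obtain ⟨U, hU⟩ := 𝓕.exists_ultra hi y hy
        obtain ⟨Z, e, he⟩ := 𝓕.pow X _ U
        let z : 𝓕.car Z := e.symm (((id : 𝓕.car X → 𝓕.car X)) :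
          (U : Filter (𝓕.car X)).Product fun _ : 𝓕.car X => 𝓕.car X)
        have hz : ∀ k a b, (𝓕.ball k).Realize ![y, i a, i b] ↔
            (𝓕.ball k).Realize ![z, e.symm (((fun _ => a : 𝓕.car X → 𝓕.car X)) :
              (U : Filter (𝓕.car X)).Product fun _ : 𝓕.car X => 𝓕.car X),
              e.symm (((fun _ => b : 𝓕.car X → 𝓕.car X)) :
              (U : Filter (𝓕.car X)).Product fun _ : 𝓕.car X => 𝓕.car X)] := by
          intro k a b
          rw [← hU k a b]
          exact (𝓕.los3 U e (𝓕.ball k) id (fun _ => a) (fun _ => b)).symm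
        have hz' : z ∉ Set.range _ := 𝓕.ne_point hi y hy he z hz
        obtain ⟨F, j1, j2, g, w, hj1, hj2, e1, e2, e3, e4⟩ := 𝓕.core hi he y z hy hz' hz
        have h1 : ¬ φ.Realize (g ∘ v) (Fin.snoc (g ∘ xs) w) := by
          rw [← ih hj1]
          rw [Fin.comp_snoc, ← Function.comp_assoc, ← Function.comp_assoc, e1, e3]
          exact hcon
        have h2 : ¬ φ.Realize (j2 ∘ (g ∘ v)) (j2 ∘ (Fin.snoc (g ∘ xs) w)) := by
          rw [ih hj2]
          exact h1
        rw [Fin.comp_snoc, ← Function.comp_assoc, ← Function.comp_assoc, e2, e4] at h2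
        have h3 := 𝓕.los U e φ (fun a => fun _ => v a) (Fin.snoc (fun k => fun _ => xs k) id)
        apply h2
        have h4 : ∀ᶠ s in (U : Filter (𝓕.car X)), φ.Realize (fun a => v a)
            fun k => (Fin.snoc (α := fun _ => 𝓕.car X → 𝓕.car X) (fun k => fun _ => xs k) id k) s := by
          refine Filter.Eventually.of_forall fun s => ?_
          have h6 : (fun k => (Fin.snoc (α := fun _ => 𝓕.car X → 𝓕.car X) (fun k => fun _ => xs k) id k) s) =
              Fin.snoc xs s := by
            funext k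
            refine Fin.lastCases ?_ (fun k => ?_) k
            · simp
            · simp
          rw [h6]
          exact h s
        have h5 := h3.2 h4
        have h7 : (fun k => e.symm (((Fin.snoc (α := fun _ => 𝓕.car X → 𝓕.car X) (fun k => fun _ => xs k) id k :
            𝓕.car X → 𝓕.car X)) : (U : Filter (𝓕.car X)).Product fun _ : 𝓕.car X => 𝓕.car X)) =
            Fin.snoc ((fun x => e.symm (((fun _ => x : 𝓕.car X → 𝓕.car X)) :
              (U : Filter (𝓕.car X)).Product fun _ : 𝓕.car X => 𝓕.car X)) ∘ xs) z := by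
          funext k
          refine Fin.lastCases ?_ (fun k => ?_) k
          · simp [z]
          · simp
        rw [h7] at h5
        exact h5

end Frame

end Cm
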