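import Mathlib
import Pool.Agent.Lib.MP_c35b50_lc.Cm.Mt1

/-!
# MP_c35b50_lc, part (C), abstract model theory 2: Boolean patterns of balls; every definable set of one variable is
a finite Boolean combination of balls.
-/

open FirstOrder FirstOrder.Language

namespace Cm

/-- Boolean patterns: every leaf has its own centre and radius. -/
inductive BP : Type
  | lf (k : Bool) : BP
  | neg (e : BP) : BP
  | inf (e e' : BP) : BP

namespace BP

/-- The parameters of a pattern. -/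
def V : BP → Type
  | .lf _ => Bool
  | .neg e => V e
  | .inf e e' => V e ⊕ V e'

instance V.fin : ∀ e : BP, Finite (V e)
  | .lf _ => inferInstanceAs (Finite Bool)
  | .neg e => V.fin e
  | .inf e e' => @Finite.instSum (V e) (V e') (V.fin e) (V.fin e')

variable {L : FirstOrder.Language.{0, 0}} (ball : Bool → L.Formula (Fin 3))

/-- The set given by a pattern and parameters. -/
def ev (N : Type*) [L.Structure N] : (e : BP) → (V e → N) → Set N
  | .lf k, w => {x | (ball k).Realize ![x, w false, w true]}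
  | .neg e, w => (ev N e w)ᶜ
  | .inf e e', w => ev N e (fun a => w (Sum.inl a)) ∩ ev N e' (fun a => w (Sum.inr a))

/-- The formula of a pattern. -/
def ef : (e : BP) → L.Formula (V e ⊕ Unit)
  | .lf k => (ball k).relabel ![Sum.inr (), Sum.inl false, Sum.inl true]
  | .neg e => (ef e).not
  | .inf e e' => ((ef e).relabel (Sum.map Sum.inl id)) ⊓ ((ef e').relabel (Sum.map Sum.inr id))

theorem realize_ef {N : Type*} [L.Structure N] : ∀ (e : BP) (w : V e → N) (x : N),
    ((ef ball e).Realize (Sum.elim w fun _ => x) ↔ x ∈ ev ball N e w) := by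
  intro e
  induction e with
  | lf k =>
    intro w x
    simp only [ef, ev, Formula.realize_relabel, Set.mem_ofPred_eq]
    have : (Sum.elim w fun _ => x) ∘ ![Sum.inr (), Sum.inl false, Sum.inl true] =
        ![x, w false, w true] := by
      ext m; fin_cases m <;> rfl
    rw [this]
  | neg e ih =>
    intro w x
    simp only [ef, ev, Set.mem_compl_iff, ← ih]
    exact Formula.realize_not
  | inf e e' h1 h2 =>
    intro w x
    have e1 : (Sum.elim w fun _ => x) ∘ (Sum.map Sum.inl id : V e ⊕ Unit → (V e ⊕ V e') ⊕ Unit) =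
        Sum.elim (fun a => w (Sum.inl a)) fun _ => x := by
      ext m; cases m <;> rfl
    have e2 : (Sum.elim w fun _ => x) ∘ (Sum.map Sum.inr id : V e' ⊕ Unit → (V e ⊕ V e') ⊕ Unit) =
        Sum.elim (fun a => w (Sum.inr a)) fun _ => x := by
      ext m; cases m <;> rfl
    have h3 := h1 (fun a => w (Sum.inl a)) x
    have h4 := h2 (fun a => w (Sum.inr a)) x
    rw [← e1] at h3
    rw [← e2] at h4
    have h5 : (ef ball (.inf e e')).Realize (Sum.elim w fun _ => x) ↔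
        ((ef ball e).relabel (Sum.map Sum.inl id : V e ⊕ Unit → (V e ⊕ V e') ⊕ Unit)).Realize
          (Sum.elim w fun _ => x) ∧
        ((ef ball e').relabel (Sum.map Sum.inr id : V e' ⊕ Unit → (V e ⊕ V e') ⊕ Unit)).Realize
          (Sum.elim w fun _ => x) := Formula.realize_inf
    exact h5.trans ((and_congr Formula.realize_relabel Formula.realize_relabel).trans (and_congr h3 h4))

end BP

/-- Two ultrafilters which agree on a Boolean algebra of sets but not on a set outside it. -/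
theorem two_ultra {X : Type*} (B : Set (Set X)) (hc : ∀ s ∈ B, sᶜ ∈ B)
    (hi : ∀ s ∈ B, ∀ t ∈ B, s ∩ t ∈ B) (hu : Set.univ ∈ B) (D : Set X) (hD : D ∉ B) :
    ∃ U1 U2 : Ultrafilter X, D ∈ U1 ∧ Dᶜ ∈ U2 ∧ ∀ s ∈ B, (s ∈ U1 ↔ s ∈ U2) := by
  classical
  have hfin : ∀ T : Set (Set X), T.Finite → T ⊆ B → ⋂₀ T ∈ B := by
    intro T hT
    induction T, hT using Set.Finite.induction_on with
    | empty => intro _; simpa using hu
    | insert _ _ ih =>
      intro h
      rw [Set.sInter_insert]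
      exact hi _ (h (Set.mem_insert _ _)) _ (ih fun s hs => h (Set.mem_insert_of_mem _ hs))
  let G : Set (Set X) := {s | s ∈ B ∧ (D ⊆ s ∨ Dᶜ ⊆ s)}
  have hG : (Filter.generate G).NeBot := by
    rw [Filter.generate_neBot_iff]
    intro T hT hTf
    by_contra hemp
    rw [Set.not_nonempty_iff_eq_empty] at hemp
    have h1 : ⋂₀ {s ∈ T | D ⊆ s} ∈ B := hfin _ (hTf.subset fun s hs => hs.1) fun s hs => (hT hs.1).1
    apply hD
    convert h1 using 1
    apply Set.Subset.antisymm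
    · exact Set.subset_sInter fun s hs => hs.2
    · intro x hx
      by_contra hxD
      have : x ∈ ⋂₀ T := by
        intro s hs
        rcases (hT hs).2 with h | h
        · exact hx s ⟨hs, h⟩
        · exact h hxD
      rw [hemp] at this
      exact this
  let U := Ultrafilter.of (Filter.generate G)
  have hUG : ∀ s ∈ G, s ∈ U := fun s hs => Ultrafilter.of_le _ (Filter.GenerateSets.basic hs)
  have key : ∀ E : Set X, (∀ s ∈ B, s ∈ U → (s ∩ E).Nonempty) →
      ∃ W : Ultrafilter X, E ∈ W ∧ ∀ s ∈ B, (s ∈ W ↔ s ∈ U) := by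
    intro E hE
    have hne : (Filter.generate (insert E {s | s ∈ B ∧ s ∈ U})).NeBot := by
      rw [Filter.generate_neBot_iff]
      intro T hT hTf
      have h1 : ⋂₀ (T \ {E}) ∈ B := hfin _ (hTf.subset Set.sdiff_subset) fun s hs => by
        rcases hT hs.1 with h | h
        · exact absurd h hs.2
        · exact h.1
      have h2 : ⋂₀ (T \ {E}) ∈ U := by
        rw [← Ultrafilter.mem_coe, Filter.sInter_mem (hTf.subset Set.sdiff_subset)]
        intro s hs
        rcases hT hs.1 with h | h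
        · exact absurd h hs.2
        · exact h.2
      obtain ⟨x, hx, hxE⟩ := hE _ h1 h2
      refine ⟨x, fun s hs => ?_⟩
      by_cases h : s = E
      · rw [h]; exact hxE
      · exact hx s ⟨hs, h⟩
    refine ⟨Ultrafilter.of (Filter.generate (insert E {s | s ∈ B ∧ s ∈ U})),
      Ultrafilter.of_le _ (Filter.GenerateSets.basic (Set.mem_insert _ _)),
      fun s hs => ⟨fun h => ?_, fun h => ?_⟩⟩
    · by_contra h'
      have h3 : sᶜ ∈ U := Ultrafilter.compl_mem_iff_notMem.2 h'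
      have h4 : sᶜ ∈ Ultrafilter.of (Filter.generate (insert E {s | s ∈ B ∧ s ∈ U})) :=
        Ultrafilter.of_le _ (Filter.GenerateSets.basic (Set.mem_insert_of_mem _ ⟨hc s hs, h3⟩))
      exact Ultrafilter.compl_mem_iff_notMem.1 h4 h
    · exact Ultrafilter.of_le _ (Filter.GenerateSets.basic (Set.mem_insert_of_mem _ ⟨hs, h⟩))
  obtain ⟨U1, h1, h1'⟩ := key D (by
    intro s hs hsU
    by_contra hemp
    rw [Set.not_nonempty_iff_eq_empty] at hemp
    have : sᶜ ∈ U := hUG _ ⟨hc s hs, Or.inl fun x hx hxs => by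
      have : x ∈ s ∩ D := ⟨hxs, hx⟩
      rw [hemp] at this; exact this⟩
    exact Ultrafilter.compl_mem_iff_notMem.1 this hsU)
  obtain ⟨U2, h2, h2'⟩ := key Dᶜ (by
    intro s hs hsU
    by_contra hemp
    rw [Set.not_nonempty_iff_eq_empty] at hemp
    have : sᶜ ∈ U := hUG _ ⟨hc s hs, Or.inr fun x hx hxs => by
      have : x ∈ s ∩ Dᶜ := ⟨hxs, hx⟩
      rw [hemp] at this; exact this⟩
    exact Ultrafilter.compl_mem_iff_notMem.1 this hsU)
  exact ⟨U1, U2, h1, h2, fun s hs => (h1' s hs).trans (h2' s hs).symm⟩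

namespace Frame

variable {L : FirstOrder.Language.{0, 0}} (𝓕 : Frame L)

theorem elemF {α : Type*} (φ : L.Formula α) {X Y : 𝓕.Ob} {i : 𝓕.car X → 𝓕.car Y}
    (hi : 𝓕.Emb X Y i) (v : α → 𝓕.car X) : φ.Realize (i ∘ v) ↔ φ.Realize v := by
  have h := 𝓕.elem φ hi v default
  rw [Formula.Realize, Formula.Realize, ← h]
  exact iff_of_eq (congrArg _ (Subsingleton.elim _ _))

theorem ultra_point {α : Type*} {X Y : 𝓕.Ob} (U : Ultrafilter (𝓕.car X))
    (e : 𝓕.car Y ≃[L] ((U : Filter (𝓕.car X)).Product fun _ : 𝓕.car X => 𝓕.car X))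
    (φ : L.Formula (α ⊕ Unit)) (v : α → 𝓕.car X) :
    φ.Realize (Sum.elim (fun a => e.symm (((fun _ => v a : 𝓕.car X → 𝓕.car X)) :
      (U : Filter (𝓕.car X)).Product fun _ : 𝓕.car X => 𝓕.car X))
      (fun _ => e.symm (((id : 𝓕.car X → 𝓕.car X)) :
        (U : Filter (𝓕.car X)).Product fun _ : 𝓕.car X => 𝓕.car X))) ↔
      {x | φ.Realize (Sum.elim v fun _ => x)} ∈ U := by
  have h5 := 𝓕.losF U e φ (Sum.elim (fun a => fun _ => v a) fun _ => id)
  have h6 : (fun a => e.symm ((Sum.elim (fun a => fun _ => v a) (fun _ => id) a : 𝓕.car X → 𝓕.car X) :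
      (U : Filter (𝓕.car X)).Product fun _ : 𝓕.car X => 𝓕.car X)) = Sum.elim (fun a =>
      e.symm (((fun _ => v a : 𝓕.car X → 𝓕.car X)) :
      (U : Filter (𝓕.car X)).Product fun _ : 𝓕.car X => 𝓕.car X)) (fun _ : Unit =>
      e.symm (((id : 𝓕.car X → 𝓕.car X)) :
        (U : Filter (𝓕.car X)).Product fun _ : 𝓕.car X => 𝓕.car X)) := by
    ext a
    rcases a with a | a <;> rfl
  have h9 : ∀ x, (fun a => (Sum.elim (fun a => fun _ => v a) (fun _ => id) a : 𝓕.car X → 𝓕.car X) x) =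
      Sum.elim v fun _ : Unit => x := by
    intro x
    ext a
    rcases a with a | a <;> rfl
  simp only [h6, h9] at h5
  exact h5

/-- **C2.** A subset of `X` definable with parameters is a finite Boolean combination of balls. -/
theorem exists_pattern {α : Type*} (X : 𝓕.Ob) (φ : L.Formula (α ⊕ Unit)) (v : α → 𝓕.car X) :
    ∃ (e : BP) (w : BP.V e → 𝓕.car X),
      {x | φ.Realize (Sum.elim v fun _ => x)} = BP.ev 𝓕.ball (𝓕.car X) e w := by
  classical
  by_contra hcon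
  let B : Set (Set (𝓕.car X)) := {s | ∃ (e : BP) (w : BP.V e → 𝓕.car X), s = BP.ev 𝓕.ball (𝓕.car X) e w}
  have hc : ∀ s ∈ B, sᶜ ∈ B := by
    rintro s ⟨e, w, rfl⟩
    exact ⟨.neg e, w, rfl⟩
  have hi : ∀ s ∈ B, ∀ t ∈ B, s ∩ t ∈ B := by
    rintro s ⟨e, w, rfl⟩ t ⟨e', w', rfl⟩
    exact ⟨.inf e e', Sum.elim w w', rfl⟩
  have hat : ∀ k a b, {x | (𝓕.ball k).Realize ![x, a, b]} ∈ B := by
    intro k a b
    refine ⟨.lf k, fun t => cond t b a, rfl⟩
  obtain ⟨b, hb, hb'⟩ := 𝓕.pt X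
  have hpt : ∀ c, ({c} : Set (𝓕.car X)) ∈ B := by
    intro c
    have : ({c} : Set (𝓕.car X)) = {x | (𝓕.ball false).Realize ![x, c, b]} := by
      ext x; simp [hb]
    rw [this]
    exact hat _ _ _
  have hu : Set.univ ∈ B := by
    obtain ⟨x0⟩ := 𝓕.ne X
    have h1 := hc _ (hi _ (hpt x0) _ (hc _ (hpt x0)))
    simpa using h1
  obtain ⟨U1, U2, h1, h2, h12⟩ := two_ultra B hc hi hu {x | φ.Realize (Sum.elim v fun _ => x)} (by
    rintro ⟨e, w, h⟩
    exact hcon ⟨e, w, h⟩)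
  obtain ⟨Y1, e1, he1⟩ := 𝓕.pow X _ U1
  obtain ⟨Y2, e2, he2⟩ := 𝓕.pow X _ U2
  let y1 : 𝓕.car Y1 := e1.symm (((id : 𝓕.car X → 𝓕.car X)) :
    (U1 : Filter (𝓕.car X)).Product fun _ : 𝓕.car X => 𝓕.car X)
  let y2 : 𝓕.car Y2 := e2.symm (((id : 𝓕.car X → 𝓕.car X)) :
    (U2 : Filter (𝓕.car X)).Product fun _ : 𝓕.car X => 𝓕.car X)
  have b1 : ∀ k a b, (𝓕.ball k).Realize ![y1,
      e1.symm (((fun _ => a : 𝓕.car X → 𝓕.car X)) :
        (U1 : Filter (𝓕.car X)).Product fun _ : 𝓕.car X => 𝓕.car X),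
      e1.symm (((fun _ => b : 𝓕.car X → 𝓕.car X)) :
        (U1 : Filter (𝓕.car X)).Product fun _ : 𝓕.car X => 𝓕.car X)] ↔
      {x | (𝓕.ball k).Realize ![x, a, b]} ∈ U1 :=
    fun k a b => 𝓕.los3 U1 e1 (𝓕.ball k) id (fun _ => a) (fun _ => b)
  have b2 : ∀ k a b, (𝓕.ball k).Realize ![y2,
      e2.symm (((fun _ => a : 𝓕.car X → 𝓕.car X)) :
        (U2 : Filter (𝓕.car X)).Product fun _ : 𝓕.car X => 𝓕.car X),
      e2.symm (((fun _ => b : 𝓕.car X → 𝓕.car X)) :
        (U2 : Filter (𝓕.car X)).Product fun _ : 𝓕.car X => 𝓕.car X)] ↔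
      {x | (𝓕.ball k).Realize ![x, a, b]} ∈ U2 :=
    fun k a b => 𝓕.los3 U2 e2 (𝓕.ball k) id (fun _ => a) (fun _ => b)
  have hno : ∀ c : 𝓕.car X, {c} ∈ U1 → {c} ∈ U2 → False := by
    intro c hc1 hc2
    have d1 : c ∈ {x | φ.Realize (Sum.elim v fun _ => x)} := by
      obtain ⟨x, hx, hx'⟩ := (Filter.inter_mem h1 hc1 |> U1.nonempty_of_mem)
      rw [Set.mem_singleton_iff] at hx'
      rwa [hx'] at hx
    have d2 : c ∈ {x | φ.Realize (Sum.elim v fun _ => x)}ᶜ := by
      obtain ⟨x, hx, hx'⟩ := (Filter.inter_mem h2 hc2 |> U2.nonempty_of_mem)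
      rw [Set.mem_singleton_iff] at hx'
      rwa [hx'] at hx
    exact d2 d1
  have hptb : ∀ c : 𝓕.car X, {x | (𝓕.ball false).Realize ![x, c, b]} = {c} := by
    intro c; ext x; simp [hb]
  have n1 : y1 ∉ Set.range fun x : 𝓕.car X => e1.symm (((fun _ => x : 𝓕.car X → 𝓕.car X)) :
      (U1 : Filter (𝓕.car X)).Product fun _ : 𝓕.car X => 𝓕.car X) := by
    rintro ⟨c, hc'⟩
    have h3 := (b1 false c b).1 ((hb' Y1 _ he1 c y1).2 hc'.symm)
    rw [hptb] at h3
    exact hno c h3 ((h12 _ (hpt c)).1 h3)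
  have n2 : y2 ∉ Set.range fun x : 𝓕.car X => e2.symm (((fun _ => x : 𝓕.car X → 𝓕.car X)) :
      (U2 : Filter (𝓕.car X)).Product fun _ : 𝓕.car X => 𝓕.car X) := by
    rintro ⟨c, hc'⟩
    have h3 := (b2 false c b).1 ((hb' Y2 _ he2 c y2).2 hc'.symm)
    rw [hptb] at h3
    exact hno c ((h12 _ (hpt c)).2 h3) h3
  obtain ⟨F, j1, j2, g, z, hj1, hj2, g1, g2, z1, z2⟩ := 𝓕.core he1 he2 y1 y2 n1 n2 (fun k a b => by
    rw [b1, b2]
    exact h12 _ (hat k a b))
  have m1 := 𝓕.elemF φ hj1 (Sum.elim (g ∘ v) fun _ => z)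
  have m2 := 𝓕.elemF φ hj2 (Sum.elim (g ∘ v) fun _ => z)
  have k1 := 𝓕.ultra_point U1 e1 φ v
  have k2 := 𝓕.ultra_point U2 e2 φ v
  have l1 : (j1 ∘ (Sum.elim (g ∘ v) fun _ : Unit => z)) = Sum.elim (fun a =>
        e1.symm (((fun _ => v a : 𝓕.car X → 𝓕.car X)) :
        (U1 : Filter (𝓕.car X)).Product fun _ : 𝓕.car X => 𝓕.car X)) (fun _ : Unit => y1) := by
    ext a
    rcases a with a | a
    · exact congrFun g1 (v a)
    · exact z1
  have l2 : (j2 ∘ (Sum.elim (g ∘ v) fun _ : Unit => z)) = Sum.elim (fun a =>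
        e2.symm (((fun _ => v a : 𝓕.car X → 𝓕.car X)) :
        (U2 : Filter (𝓕.car X)).Product fun _ : 𝓕.car X => 𝓕.car X)) (fun _ : Unit => y2) := by
    ext a
    rcases a with a | a
    · exact congrFun g2 (v a)
    · exact z2
  rw [l1] at m1
  rw [l2] at m2
  have h3 := (m1.trans m2.symm).1 (k1.2 h1)
  exact Ultrafilter.compl_mem_iff_notMem.1 h2 (k2.1 h3)

end Frame

end Cm
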