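import Mathlib
import Pool.Agent.Lib.MP_c35b50_lc.Cm.Mt2

/-!
# MP_c35b50_lc, part (C), abstract model theory 3: uniformity. Finitely many patterns suffice for all parameters.
-/

open FirstOrder FirstOrder.Language

namespace Cm

namespace BP

variable {L : FirstOrder.Language.{0, 0}} (ball : Bool → L.Formula (Fin 3))

/-- `∀ x, φ(v, x) ↔ x ∈ ev e w`. -/
noncomputable def eqF {α : Type} (φ : L.Formula (α ⊕ Unit)) (e : BP) : L.Formula (α ⊕ V e) :=
  (((φ.relabel (Sum.map Sum.inl id : α ⊕ Unit → (α ⊕ V e) ⊕ Unit)).iff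
    ((ef ball e).relabel (Sum.map Sum.inr id : V e ⊕ Unit → (α ⊕ V e) ⊕ Unit))).iAlls Unit)

theorem realize_eqF {α : Type} (φ : L.Formula (α ⊕ Unit)) (e : BP) {N : Type*} [L.Structure N]
    (u : α ⊕ V e → N) :
    (eqF ball φ e).Realize u ↔ ∀ x : N, (φ.Realize (Sum.elim (fun a => u (Sum.inl a)) fun _ => x) ↔
      x ∈ ev ball N e (fun a => u (Sum.inr a))) := by
  rw [eqF, Formula.realize_iAlls]
  constructor
  · intro h x
    have h1 := h fun _ => x
    rw [Formula.realize_iff, Formula.realize_relabel, Formula.realize_relabel] at h1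
    rw [← realize_ef]
    have e1 : (Sum.elim u fun _ : Unit => x) ∘ (Sum.map Sum.inl id : α ⊕ Unit → (α ⊕ V e) ⊕ Unit) =
        Sum.elim (fun a => u (Sum.inl a)) fun _ => x := by
      ext m; cases m <;> rfl
    have e2 : (Sum.elim u fun _ : Unit => x) ∘ (Sum.map Sum.inr id : V e ⊕ Unit → (α ⊕ V e) ⊕ Unit) =
        Sum.elim (fun a => u (Sum.inr a)) fun _ => x := by
      ext m; cases m <;> rfl
    rw [← e1, ← e2]
    exact h1
  · intro h x
    rw [Formula.realize_iff, Formula.realize_relabel, Formula.realize_relabel]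
    have h1 := h (x ())
    rw [← realize_ef] at h1
    have e1 : (Sum.elim u x) ∘ (Sum.map Sum.inl id : α ⊕ Unit → (α ⊕ V e) ⊕ Unit) =
        Sum.elim (fun a => u (Sum.inl a)) fun _ => x () := by
      ext m; cases m <;> rfl
    have e2 : (Sum.elim u x) ∘ (Sum.map Sum.inr id : V e ⊕ Unit → (α ⊕ V e) ⊕ Unit) =
        Sum.elim (fun a => u (Sum.inr a)) fun _ => x () := by
      ext m; cases m <;> rfl
    rw [e1, e2]
    exact h1

end BP

namespace Frame

variable {L : FirstOrder.Language.{0, 0}} (𝓕 : Frame L)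

/-- **C3.** Uniformity of the patterns. -/
theorem exists_patterns {α : Type} (X : 𝓕.Ob) (φ : L.Formula (α ⊕ Unit)) :
    ∃ l : Finset BP, ∀ v : α → 𝓕.car X, ∃ e ∈ l, ∃ w : BP.V e → 𝓕.car X,
      {x | φ.Realize (Sum.elim v fun _ => x)} = BP.ev 𝓕.ball (𝓕.car X) e w := by
  classical
  by_contra hcon
  push Not at hcon
  choose v hv using hcon
  let U : Ultrafilter (Finset BP) := Ultrafilter.of Filter.atTop
  obtain ⟨Y, E, hE⟩ := 𝓕.pow X _ U
  obtain ⟨e, w, hew⟩ := 𝓕.exists_pattern Y φ (fun a => E.symm (((fun s => v s a :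
    Finset BP → 𝓕.car X)) : (U : Filter (Finset BP)).Product fun _ : Finset BP => 𝓕.car X))
  have hsurj : ∀ y : 𝓕.car Y, ∃ f : Finset BP → 𝓕.car X, y = E.symm ((f : Finset BP → 𝓕.car X) :
      (U : Filter (Finset BP)).Product fun _ : Finset BP => 𝓕.car X) := by
    intro y
    obtain ⟨f, hf⟩ := Quotient.exists_rep (E y)
    refine ⟨f, ?_⟩
    have : E.symm (E y) = y := E.symm_apply_apply y
    rw [← this]
    exact congrArg _ hf.symm
  choose w' hw' using fun a => hsurj (w a)
  have h1 : (BP.eqF 𝓕.ball φ e).Realize (fun a => E.symm ((Sum.elim (fun a => fun s => v s a) w' a :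
      Finset BP → 𝓕.car X) : (U : Filter (Finset BP)).Product fun _ : Finset BP => 𝓕.car X)) := by
    rw [BP.realize_eqF]
    intro x
    have h2 : (fun a => E.symm ((w' a : Finset BP → 𝓕.car X) :
        (U : Filter (Finset BP)).Product fun _ : Finset BP => 𝓕.car X)) = w := by
      funext a; exact (hw' a).symm
    simp only [Sum.elim_inl, Sum.elim_inr]
    rw [h2, ← hew]
    exact Iff.rfl
  rw [𝓕.losF] at h1
  have h3 : ∀ᶠ s in (U : Filter (Finset BP)), e ∈ s := by
    refine Ultrafilter.of_le _ ?_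
    filter_upwards [Filter.eventually_ge_atTop ({e} : Finset BP)] with s hs
    exact hs (Finset.mem_singleton_self e)
  obtain ⟨s, hs, hs'⟩ := (h1.and h3).exists
  rw [BP.realize_eqF] at hs
  refine hv s e hs' (fun a => w' a s) ?_
  ext x
  exact hs x

end Frame

end Cm
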