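import Pool.Agent.Lib.MP_c35b50_lc.Cm.TFieldB
import Pool.Agent.Lib.MP_c35b50_lc.Cm.Mod

/-!
# MP_c35b50_lc, part (C): the swiss cheese lemma. An element outside an algebraically closed T-field cannot be
separated from it by finitely many balls.
-/

namespace Cm

open Polynomial

section

variable {R : Type} [CommRing R] {F L : Type} [Field F] [Field L] [TField R F] [TField R L]

/-- Elements of `O` with all differences to finitely many given elements of absolute value one. -/
theorem exists_far [IsAlgClosed F] (D : Finset F) (h0 : (0 : F) ∈ D) (hD : ∀ d ∈ D, vv R F d ≤ 1) :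
    ∃ u : F, vv R F u = 1 ∧ ∀ d ∈ D, vv R F (u - d) = 1 := by
  classical
  let P : F[X] := (∏ d ∈ D, (X - C d)) - 1
  have hdeg : P.degree ≠ 0 := by
    have h1 : (∏ d ∈ D, (X - C d : F[X])).natDegree = D.card := by
      rw [natDegree_prod_of_monic _ _ (fun d _ => monic_X_sub_C d)]
      simp
    have h2 : 0 < D.card := Finset.card_pos.2 ⟨0, h0⟩
    have h3 : P.natDegree = D.card := by
      rw [← h1]
      exact natDegree_sub_eq_left_of_natDegree_lt (by simp [h1, h2])
    intro h4
    have := natDegree_eq_zero_iff_degree_le_zero.2 h4.le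
    omega
  obtain ⟨u, hu⟩ := IsAlgClosed.exists_root P hdeg
  have hprod : ∏ d ∈ D, (u - d) = 1 := by
    have h1 : P.eval u = (∏ d ∈ D, (u - d)) - 1 := by
      simp [P, eval_prod]
    have h2 : P.eval u = 0 := hu
    rw [h1] at h2
    exact sub_eq_zero.1 h2
  have hv : ∏ d ∈ D, vv R F (u - d) = 1 := by
    rw [← map_prod, hprod, map_one]
  have hle : vv R F u ≤ 1 := by
    by_contra hcon
    push Not at hcon
    have h1 : ∀ d ∈ D, vv R F (u - d) = vv R F u := fun d hd =>
      Valuation.map_sub_eq_of_lt_left _ (lt_of_le_of_lt (hD d hd) hcon)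
    rw [Finset.prod_congr rfl h1, Finset.prod_const] at hv
    have h2 : 0 < D.card := Finset.card_pos.2 ⟨0, h0⟩
    have h3 : 1 < vv R F u ^ D.card := one_lt_pow₀ hcon h2.ne'
    exact absurd hv h3.ne'
  have hle' : ∀ d ∈ D, vv R F (u - d) ≤ 1 := fun d hd =>
    (Valuation.map_sub _ _ _).trans (max_le hle (hD d hd))
  have hall : ∀ d ∈ D, vv R F (u - d) = 1 := by
    intro d hd
    refine le_antisymm (hle' d hd) ?_
    rw [← Finset.mul_prod_erase D _ hd] at hv
    have h1 : ∏ d ∈ D.erase d, vv R F (u - d) ≤ 1 :=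
      Finset.prod_le_one' fun e he => hle' e (Finset.mem_of_mem_erase he)
    calc (1 : _) = vv R F (u - d) * ∏ d ∈ D.erase d, vv R F (u - d) := hv.symm
      _ ≤ vv R F (u - d) * 1 := mul_le_mul_right h1 _
      _ = vv R F (u - d) := mul_one _
  refine ⟨u, ?_, hall⟩
  have := hall 0 h0
  rwa [sub_zero] at this

/-- A value of `F` in a given cut with respect to finitely many values. -/
theorem exists_cut [IsAlgClosed F] (j : THom R F L) (π : F) (hπ0 : π ≠ 0) (hπ : vv R F π < 1)
    (W : Finset F) (δ : (vs R L).ValueGroup) (hδ : δ ≠ 0) :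
    ∃ c : F, c ≠ 0 ∧ ∀ w ∈ W, (δ < vv R L (j.toRingHom w) → vv R F c < vv R F w) ∧
      (vv R L (j.toRingHom w) < δ → vv R F w < vv R F c) := by
  classical
  let W1 : Finset F := insert 0 (W.filter fun w => vv R L (j.toRingHom w) < δ)
  let W2 : Finset F := W.filter fun w => δ < vv R L (j.toRingHom w)
  obtain ⟨w1, hw1, hmax⟩ := Finset.exists_max_image W1 (fun w => vv R F w) ⟨0, Finset.mem_insert_self _ _⟩
  have hw1δ : vv R L (j.toRingHom w1) < δ := by
    rcases Finset.mem_insert.1 hw1 with h | h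
    · rw [h, map_zero, map_zero]
      exact zero_lt_iff.2 hδ
    · exact (Finset.mem_filter.1 h).2
  have hπv : vv R F π ≠ 0 := (Valuation.ne_zero_iff _).2 hπ0
  suffices h : ∃ c : F, c ≠ 0 ∧ vv R F w1 < vv R F c ∧ ∀ w ∈ W2, vv R F c < vv R F w by
    obtain ⟨c, hc0, hc1, hc2⟩ := h
    refine ⟨c, hc0, fun w hw => ⟨fun h => hc2 w (Finset.mem_filter.2 ⟨hw, h⟩), fun h => ?_⟩⟩
    exact lt_of_le_of_lt (hmax w (Finset.mem_insert_of_mem (Finset.mem_filter.2 ⟨hw, h⟩))) hc1
  by_cases hW2 : W2.Nonempty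
  · obtain ⟨w2, hw2, hmin⟩ := Finset.exists_min_image W2 (fun w => vv R F w) hW2
    have hw2δ : δ < vv R L (j.toRingHom w2) := (Finset.mem_filter.1 hw2).2
    have h12 : vv R F w1 < vv R F w2 := (j.vv_lt w1 w2).1 (hw1δ.trans hw2δ)
    have hw20 : w2 ≠ 0 := by
      rintro rfl
      rw [map_zero] at h12
      exact absurd h12 not_lt_zero
    have hv2 : vv R F w2 ≠ 0 := (Valuation.ne_zero_iff _).2 hw20
    by_cases hw10 : w1 = 0
    · refine ⟨π * w2, mul_ne_zero hπ0 hw20, ?_, fun w hw => ?_⟩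
      · rw [hw10, map_zero]
        exact zero_lt_iff.2 ((Valuation.ne_zero_iff _).2 (mul_ne_zero hπ0 hw20))
      · refine lt_of_lt_of_le ?_ (hmin w hw)
        rw [map_mul]
        calc vv R F π * vv R F w2 < 1 * vv R F w2 :=
              (mul_lt_mul_iff_left₀ (zero_lt_iff.2 hv2)).2 hπ
          _ = vv R F w2 := one_mul _
    · obtain ⟨c, hc⟩ := IsAlgClosed.exists_pow_nat_eq (w1 * w2) (n := 2) (by norm_num)
      have hc0 : c ≠ 0 := by
        rintro rfl
        rw [zero_pow two_ne_zero] at hc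
        exact mul_ne_zero hw10 hw20 hc.symm
      have hcv : vv R F c ^ 2 = vv R F w1 * vv R F w2 := by
        rw [← map_pow, hc, map_mul]
      have hv1 : vv R F w1 ≠ 0 := (Valuation.ne_zero_iff _).2 hw10
      refine ⟨c, hc0, ?_, fun w hw => lt_of_lt_of_le ?_ (hmin w hw)⟩
      · by_contra hcon
        push Not at hcon
        have h1 : vv R F c ^ 2 ≤ vv R F w1 * vv R F w1 := by
          rw [sq]; exact mul_le_mul' hcon hcon
        rw [hcv] at h1
        exact absurd h1 (not_le.2 ((mul_lt_mul_iff_right₀ (zero_lt_iff.2 hv1)).2 h12))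
      · by_contra hcon
        push Not at hcon
        have h1 : vv R F w2 * vv R F w2 ≤ vv R F c ^ 2 := by
          rw [sq]; exact mul_le_mul' hcon hcon
        rw [hcv] at h1
        exact absurd h1 (not_le.2 ((mul_lt_mul_iff_left₀ (zero_lt_iff.2 hv2)).2 h12))
  · have hno : ∀ w ∈ W2, False := fun w hw => hW2 ⟨w, hw⟩
    by_cases hw10 : w1 = 0
    · refine ⟨1, one_ne_zero, ?_, fun w hw => (hno w hw).elim⟩
      rw [hw10, map_zero, map_one]
      exact zero_lt_one
    · refine ⟨w1 / π, div_ne_zero hw10 hπ0, ?_, fun w hw => (hno w hw).elim⟩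
      have hv1 : vv R F w1 ≠ 0 := (Valuation.ne_zero_iff _).2 hw10
      rw [map_div₀, lt_div_iff₀ (zero_lt_iff.2 hπv)]
      calc vv R F w1 * vv R F π < vv R F w1 * 1 :=
            (mul_lt_mul_iff_right₀ (zero_lt_iff.2 hv1)).2 hπ
        _ = vv R F w1 := mul_one _

/-- **Swiss cheese.** -/
theorem exists_same [IsAlgClosed F] (j : THom R F L) (π : F) (hπ0 : π ≠ 0) (hπ : vv R F π < 1)
    (y : L) (hy : ∀ c, y ≠ j.toRingHom c) (A B : Finset F) :
    ∃ x : F, ∀ a ∈ A, ∀ b ∈ B,
      (vv R F (x - a) ≤ vv R F b ↔ vv R L (y - j.toRingHom a) ≤ vv R L (j.toRingHom b)) ∧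
      (vv R F b ≤ vv R F (x - a) ↔ vv R L (j.toRingHom b) ≤ vv R L (y - j.toRingHom a)) := by
  classical
  rcases A.eq_empty_or_nonempty with hA | hA
  · exact ⟨0, fun a ha => by rw [hA] at ha; exact absurd ha (Finset.notMem_empty a)⟩
  obtain ⟨a0, ha0, hmin⟩ := Finset.exists_min_image A (fun a => vv R L (y - j.toRingHom a)) hA
  have hy0 : y - j.toRingHom a0 ≠ 0 := sub_ne_zero.2 (hy a0)
  have hsplit : ∀ a : F, y - j.toRingHom a = (y - j.toRingHom a0) - j.toRingHom (a - a0) := by
    intro a; rw [map_sub]; ring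
  by_cases hc : ∃ e : F, vv R L (y - j.toRingHom a0) = vv R L (j.toRingHom e)
  · obtain ⟨e, he⟩ := hc
    have he0 : e ≠ 0 := by
      rintro rfl
      rw [map_zero, map_zero] at he
      exact hy0 ((Valuation.zero_iff _).1 he)
    have hve : vv R F e ≠ 0 := (Valuation.ne_zero_iff _).2 he0
    let D : Finset F := (A.filter fun a => vv R F (a - a0) ≤ vv R F e).image fun a => (a - a0) / e
    obtain ⟨u, hu, hu'⟩ := exists_far (R := R) D
      (Finset.mem_image.2 ⟨a0, Finset.mem_filter.2 ⟨ha0, by rw [sub_self, map_zero]; exact zero_le⟩,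
        by rw [sub_self, zero_div]⟩)
      (fun d hd => by
        obtain ⟨a, ha, rfl⟩ := Finset.mem_image.1 hd
        rw [map_div₀]
        exact div_le_one_of_le₀ (Finset.mem_filter.1 ha).2 zero_le)
    refine ⟨a0 + e * u, fun a ha b hb => ?_⟩
    by_cases hae : vv R F (a - a0) ≤ vv R F e
    · have h1 : vv R F (a0 + e * u - a) = vv R F e := by
        have : a0 + e * u - a = e * (u - (a - a0) / e) := by field_simp; ring
        rw [this, map_mul, hu' _ (Finset.mem_image.2 ⟨a, Finset.mem_filter.2 ⟨ha, hae⟩, rfl⟩),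
          mul_one]
      have h2 : vv R L (y - j.toRingHom a) = vv R L (j.toRingHom e) := by
        refine le_antisymm ?_ (he ▸ hmin a ha)
        rw [hsplit]
        refine (Valuation.map_sub _ _ _).trans (max_le he.le ?_)
        exact (j.vv_le _ _).2 hae
      rw [h1, h2, j.vv_le, j.vv_le]
      exact ⟨Iff.rfl, Iff.rfl⟩
    · push Not at hae
      have h1 : vv R F (a0 + e * u - a) = vv R F (a - a0) := by
        have : a0 + e * u - a = e * u - (a - a0) := by ring
        rw [this]
        refine Valuation.map_sub_eq_of_lt_right _ ?_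
        rw [map_mul, hu, mul_one]
        exact hae
      have h2 : vv R L (y - j.toRingHom a) = vv R L (j.toRingHom (a - a0)) := by
        rw [hsplit]
        refine Valuation.map_sub_eq_of_lt_right _ ?_
        rw [he]
        exact (j.vv_lt _ _).2 hae
      rw [h1, h2, j.vv_le, j.vv_le]
      exact ⟨Iff.rfl, Iff.rfl⟩
  · push Not at hc
    obtain ⟨c, hc0, hcW⟩ := exists_cut j π hπ0 hπ (B ∪ A.image fun a => a - a0)
      (vv R L (y - j.toRingHom a0)) ((Valuation.ne_zero_iff _).2 hy0)
    refine ⟨a0 + c, fun a ha b hb => ?_⟩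
    have hb' := hcW b (Finset.mem_union_left _ hb)
    have ha' := hcW (a - a0) (Finset.mem_union_right _ (Finset.mem_image_of_mem _ ha))
    have hxa : a0 + c - a = c - (a - a0) := by ring
    rcases lt_trichotomy (vv R L (j.toRingHom (a - a0))) (vv R L (y - j.toRingHom a0)) with h | h | h
    · have h1 : vv R F (a0 + c - a) = vv R F c := by
        rw [hxa]
        exact Valuation.map_sub_eq_of_lt_left _ (ha'.2 h)
      have h2 : vv R L (y - j.toRingHom a) = vv R L (y - j.toRingHom a0) := by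
        rw [hsplit]
        exact Valuation.map_sub_eq_of_lt_left _ h
      rw [h1, h2]
      rcases lt_trichotomy (vv R L (j.toRingHom b)) (vv R L (y - j.toRingHom a0)) with h3 | h3 | h3
      · have h4 := hb'.2 h3
        exact ⟨⟨fun h5 => absurd h5 (not_le.2 h4), fun h5 => absurd h5 (not_le.2 h3)⟩,
          ⟨fun _ => h3.le, fun _ => h4.le⟩⟩
      · exact absurd h3.symm (hc b)
      · have h4 := hb'.1 h3
        exact ⟨⟨fun _ => h3.le, fun _ => h4.le⟩,
          ⟨fun h5 => absurd h5 (not_le.2 h4), fun h5 => absurd h5 (not_le.2 h3)⟩⟩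
    · exact absurd h.symm (hc _)
    · have h1 : vv R F (a0 + c - a) = vv R F (a - a0) := by
        rw [hxa]
        exact Valuation.map_sub_eq_of_lt_right _ (ha'.1 h)
      have h2 : vv R L (y - j.toRingHom a) = vv R L (j.toRingHom (a - a0)) := by
        rw [hsplit]
        exact Valuation.map_sub_eq_of_lt_right _ h
      rw [h1, h2, j.vv_le, j.vv_le]
      exact ⟨Iff.rfl, Iff.rfl⟩

end

end Cm
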