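import Pool.Agent.Lib.MP_c35b50_lc.Cm.UPow
import Pool.Agent.Lib.MP_c35b50_lc.Cm.Mt3
import Pool.Agent.Lib.MP_c35b50_lc.Cm.Mt5
import Pool.Agent.Lib.MP_c35b50_lc.Cm.Core

/-!
# MP_c35b50_lc, part (C): the concrete structures. Balls, embeddings, ultrapowers, translation of `Lvf` into `L3 p`.
-/

namespace Cm

open FirstOrder FirstOrder.Language

section balls

variable (p : ℕ)

/-- the term `x - a` in the variables `x = 0, a = 1, b = 2` -/
def sb3 : (L3 p).Term (Fin 3) :=
  Term.func (l := 2) Fn.add ![Term.var 0, Term.func (l := 1) Fn.neg ![Term.var 1] ]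

/-- the ball formulas: `false`: closed, `true`: open -/
def ball3 : Bool → (L3 p).Formula (Fin 3)
  | false => BoundedFormula.rel (l := 2) Rl3.dv
      ![(sb3 p).relabel Sum.inl, Term.var (Sum.inl 2)]
  | true => (BoundedFormula.rel (l := 2) Rl3.dv
      ![Term.var (Sum.inl 2), (sb3 p).relabel Sum.inl]).not

variable [Fact p.Prime] {K : Type} [Field K] [TField ℤ_[p] K]

theorem realize_ball3_false (x a b : K) :
    (ball3 p false).Realize ![x, a, b] ↔ vle p (x - a) b := by
  simp only [ball3, Formula.Realize]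
  rw [sub_eq_add_neg]
  exact Iff.rfl

theorem realize_ball3_true (x a b : K) :
    (ball3 p true).Realize ![x, a, b] ↔ ¬ vle p b (x - a) := by
  simp only [ball3, Formula.Realize, BoundedFormula.realize_not]
  rw [sub_eq_add_neg]
  exact Iff.rfl

end balls

section maps

variable {p : ℕ} [Fact p.Prime] {F L : Type} [Field F] [Field L] [TField ℤ_[p] F] [TField ℤ_[p] L]

theorem vle_iff (x y : F) : vle p x y ↔ vv ℤ_[p] F x ≤ vv ℤ_[p] F y :=
  (vv_le_iff (R := ℤ_[p]) x y).symm

theorem vle_map (j : THom ℤ_[p] F L) (x y : F) :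
    vle p (j.toRingHom x) (j.toRingHom y) ↔ vle p x y := by
  rw [vle_iff, vle_iff, j.vv_le]

theorem ee_map (j : THom ℤ_[p] F L) (α ρ : F) (hα : α ∈ OO ℤ_[p] F) (hρ : ρ ∈ mm ℤ_[p] F) :
    j.toRingHom (ee (p := p) α ρ) = ee (p := p) (j.toRingHom α) (j.toRingHom ρ) :=
  j.map_T (Eser p) (fun _ => α) (fun _ => ρ) ⟨fun _ => hα, fun _ => hρ⟩

theorem Gr_map [KK p F] [KK p L] (j : THom ℤ_[p] F L) (α x z : F) (hα : α ∈ OO ℤ_[p] F) :
    Gr p (j.toRingHom α) (j.toRingHom x) (j.toRingHom z) ↔ Gr p α x z := by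
  have := KK.zero (p := p) (K := F)
  have := KK.zero (p := p) (K := L)
  have hp : (p : F) ≠ 0 := Nat.cast_ne_zero.2 (Fact.out : p.Prime).ne_zero
  have hpL : (p : L) ≠ 0 := Nat.cast_ne_zero.2 (Fact.out : p.Prime).ne_zero
  constructor
  · rintro ⟨ρ', hρ', hx, hz⟩
    have h1 : j.toRingHom (x / (p : F) ^ 2) = ρ' := by
      rw [map_div₀, map_pow, map_natCast, hx]
      field_simp
    have h2 : x / (p : F) ^ 2 ∈ mm ℤ_[p] F := (j.map_m _).2 (by
      have : j.toFun (x / (p : F) ^ 2) = ρ' := h1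
      rw [this]; exact hρ')
    refine ⟨x / (p : F) ^ 2, h2, by field_simp, j.inj ?_⟩
    rw [ee_map j α _ hα h2, h1, hz]
  · rintro ⟨ρ, hρ, rfl, rfl⟩
    refine ⟨j.toRingHom ρ, (j.map_m ρ).1 hρ, ?_, ee_map j α ρ hα hρ⟩
    rw [map_mul, map_pow, map_natCast]

/-- a homomorphism of T-fields as an embedding of `L3 p`-structures -/
def THom.emb3 [KK p F] [KK p L] (j : THom ℤ_[p] F L) : F ↪[L3 p] L where
  toFun := j.toRingHom
  inj' := j.toRingHom.injective
  map_fun' := by
    intro n f x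
    match n, f with
    | _, Fn.zero => exact map_zero _
    | _, Fn.one => exact map_one _
    | _, Fn.neg => exact map_neg _ _
    | _, Fn.add => exact map_add _ _ _
    | _, Fn.mul => exact map_mul _ _ _
  map_rel' := by
    intro n q x
    match n, q with
    | _, Rl3.dv => exact vle_map j (x 0) (x 1)
    | _, Rl3.ex =>
      constructor
      · rintro ⟨h1, h2⟩
        have h3 : x 1 ∈ OO ℤ_[p] F := (j.map_O _).2 h1
        exact ⟨h3, (Gr_map j _ _ _ h3).1 h2⟩
      · rintro ⟨h1, h2⟩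
        exact ⟨(j.map_O _).1 h1, (Gr_map j _ _ _ h1).2 h2⟩

end maps

section up

variable {p : ℕ} [Fact p.Prime] {K : Type} [Field K] [TField ℤ_[p] K] {I : Type} (U : Ultrafilter I)

theorem gm_surj (x : UP U K) : ∃ f : I → K, x = gm U f := by
  obtain ⟨f, hf⟩ := Quotient.exists_rep x
  exact ⟨f, hf.symm⟩

theorem up_vle (f g : I → K) :
    vle p (gm U f) (gm U g) ↔ ∀ᶠ i in (U : Filter I), vle p (f i) (g i) := by
  classical
  constructor
  · rintro ⟨z, hz, h⟩
    obtain ⟨w, rfl⟩ := gm_surj U z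
    rw [up_O] at hz
    have h' : ∀ᶠ i in (U : Filter I), f i = w i * g i := Filter.Germ.coe_eq.1 h
    filter_upwards [hz, h'] with i h1 h2
    exact ⟨w i, h1, h2⟩
  · intro h
    have h1 : ∀ i, ∃ z : K, vle p (f i) (g i) → z ∈ OO ℤ_[p] K ∧ f i = z * g i := by
      intro i
      by_cases h : vle p (f i) (g i)
      · obtain ⟨z, hz⟩ := h
        exact ⟨z, fun _ => hz⟩
      · exact ⟨0, fun h' => absurd h' h⟩
    choose z hz using h1
    refine ⟨gm U z, (up_O U z).2 ?_, Filter.Germ.coe_eq.2 ?_⟩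
    · filter_upwards [h] with i hi
      exact (hz i hi).1
    · filter_upwards [h] with i hi
      exact (hz i hi).2

theorem up_Gr [KK p K] (α x z : I → K) (hα : ∀ᶠ i in (U : Filter I), α i ∈ OO ℤ_[p] K) :
    Gr p (gm U α) (gm U x) (gm U z) ↔ ∀ᶠ i in (U : Filter I), Gr p (α i) (x i) (z i) := by
  classical
  have key : ∀ ρ : I → K, (∀ᶠ i in (U : Filter I), ρ i ∈ mm ℤ_[p] K) →
      ee (p := p) (gm U α) (gm U ρ) = gm U (fun i => ee (p := p) (α i) (ρ i)) := by
    intro ρ hρ
    refine up_ev U (Eser p) (fun _ => α) (fun _ => ρ) ?_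
    filter_upwards [hα, hρ] with i h1 h2
    exact ⟨fun _ => h1, fun _ => h2⟩
  constructor
  · rintro ⟨ρ', hρ', hx, hz⟩
    obtain ⟨ρ, rfl⟩ := gm_surj U ρ'
    rw [up_m] at hρ'
    rw [key ρ hρ'] at hz
    have hx' : ∀ᶠ i in (U : Filter I), x i = (p : K) ^ 2 * ρ i := Filter.Germ.coe_eq.1 hx
    have hz' : ∀ᶠ i in (U : Filter I), z i = ee (p := p) (α i) (ρ i) := Filter.Germ.coe_eq.1 hz
    filter_upwards [hρ', hx', hz'] with i h1 h2 h3
    exact ⟨ρ i, h1, h2, h3⟩
  · intro h
    have h1 : ∀ i, ∃ ρ : K, Gr p (α i) (x i) (z i) →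
        ρ ∈ mm ℤ_[p] K ∧ x i = (p : K) ^ 2 * ρ ∧ z i = ee (p := p) (α i) ρ := by
      intro i
      by_cases h : Gr p (α i) (x i) (z i)
      · obtain ⟨ρ, hρ⟩ := h
        exact ⟨ρ, fun _ => hρ⟩
      · exact ⟨0, fun h' => absurd h' h⟩
    choose ρ hρ using h1
    have hm : ∀ᶠ i in (U : Filter I), ρ i ∈ mm ℤ_[p] K := by
      filter_upwards [h] with i hi
      exact (hρ i hi).1
    refine ⟨gm U ρ, (up_m U ρ).2 hm, ?_, ?_⟩
    · refine Filter.Germ.coe_eq.2 ?_
      filter_upwards [h] with i hi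
      exact (hρ i hi).2.1
    · rw [key ρ hm]
      refine Filter.Germ.coe_eq.2 ?_
      filter_upwards [h] with i hi
      exact (hρ i hi).2.2

/-- the ultrapower of T-fields is the ultrapower of `L3 p`-structures -/
def upEquiv [KK p K] : UP U K ≃[L3 p] ((U : Filter I).Product fun _ : I => K) where
  toEquiv := Equiv.refl _
  map_fun' := by
    intro n f x
    choose g hg using fun k => gm_surj U (x k)
    obtain rfl : x = fun k => gm U (g k) := funext hg
    refine Eq.trans ?_ (Language.Ultraproduct.funMap_cast (L := L3 p) (u := U) f g).symm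
    match n, f with
    | _, Fn.zero => rfl
    | _, Fn.one => rfl
    | _, Fn.neg => rfl
    | _, Fn.add => rfl
    | _, Fn.mul => rfl
  map_rel' := by
    intro n q x
    choose g hg using fun k => gm_surj U (x k)
    obtain rfl : x = fun k => gm U (g k) := funext hg
    have h0 : Structure.RelMap (L := L3 p) (M := (U : Filter I).Product fun _ : I => K) q
        (fun k => (g k : (U : Filter I).Product fun _ : I => K)) ↔
        ∀ᶠ i in (U : Filter I), Structure.RelMap (L := L3 p) q (fun k => g k i) :=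
      relMap_quotient_mk' ((U : Filter I).productSetoid fun _ : I => K) q g
    refine h0.trans ?_
    match n, q with
    | _, Rl3.dv => exact (up_vle U (g 0) (g 1)).symm
    | _, Rl3.ex =>
      constructor
      · intro h
        have h1 : ∀ᶠ i in (U : Filter I), g 1 i ∈ OO ℤ_[p] K := by
          filter_upwards [h] with i hi
          exact hi.1
        refine ⟨(up_O U _).2 h1, (up_Gr U _ _ _ h1).2 ?_⟩
        filter_upwards [h] with i hi
        exact hi.2
      · rintro ⟨h1, h2⟩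
        have h1' := (up_O U (g 1)).1 h1
        have h2' := (up_Gr U _ _ _ h1').1 h2
        filter_upwards [h1', h2'] with i h3 h4
        exact ⟨h3, h4⟩

end up

end Cm
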