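import Pool.Agent.Lib.MP_c35b50_lc.Cm.Mt4

/-!
# MP_c35b50_lc, part (C): the frame of the class `KK p`; `elem3`.
-/

namespace Cm

open FirstOrder FirstOrder.Language

/-- The objects: algebraically closed T-fields over `ℤ_[p]`. -/
structure Ob3 (p : ℕ) [Fact p.Prime] : Type 1 where
  K : Type
  [f : Field K]
  [t : TField ℤ_[p] K]
  [k : KK p K]

attribute [instance] Ob3.f Ob3.t Ob3.k

section

variable (p : ℕ) [Fact p.Prime]

theorem KK.of_hom {p : ℕ} [Fact p.Prime] {E L : Type} [Field E] [Field L] [TField ℤ_[p] E]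
    [TField ℤ_[p] L] [KK p L] [IsAlgClosed E] (j : THom ℤ_[p] E L) : KK p E where
  alg := inferInstance
  zero := by
    have := KK.zero (p := p) (K := L)
    exact j.toRingHom.charZero
  pm := (j.map_m _).2 (by
    have h : j.toFun ((p : ℕ) : E) = ((p : ℕ) : L) := map_natCast j.toRingHom p
    rw [h]
    exact KK.pm (p := p) (K := L))

/-- The frame of the class `KK p`. -/
noncomputable def fr3 : Frame (L3 p) where
  Ob := Ob3 p
  car := fun X => X.K
  str := fun X => str3 p X.K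
  ne := fun X => ⟨0⟩
  ball := ball3 p
  Emb := fun X Y i => ∃ j : THom ℤ_[p] X.K Y.K, ⇑j.toRingHom = i
  emb := by
    rintro X Y i ⟨j, rfl⟩
    exact ⟨j.emb3, rfl⟩
  pow := by
    intro X ι U
    refine ⟨⟨UP U X.K⟩, upEquiv U, diag ℤ_[p] X.K U, ?_⟩
    funext x
    exact diag_apply U x
  core := by
    rintro X L1 L2 i1 i2 ⟨j1, rfl⟩ ⟨j2, rfl⟩ y1 y2 h1 h2 h
    have := KK.alg (p := p) (K := X.K)
    have := KK.alg (p := p) (K := L1.K)
    have := KK.alg (p := p) (K := L2.K)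
    have hb : SameBalls j1 j2 y1 y2 := by
      intro c r
      have e1 := h false c r
      have e2 := h true c r
      simp only [realize_ball3_false, realize_ball3_true, vle_iff] at e1 e2
      exact ⟨e1, not_iff_not.1 e2⟩
    obtain ⟨E, fE, tE, aE, e, k1, k2, y, hk1, hk2, hy1, hy2⟩ :=
      Cm.core j1 j2 y1 y2 (fun c hc => h1 ⟨c, hc.symm⟩) hb
    refine ⟨@Ob3.mk p _ E fE tE (KK.of_hom k1), k1.toRingHom, k2.toRingHom, e.toRingHom, y,
      ⟨k1, rfl⟩, ⟨k2, rfl⟩, ?_, ?_, hy1, hy2⟩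
    · funext x; exact hk1 x
    · funext x; exact hk2 x
  fip := by
    classical
    rintro X Y i ⟨j, rfl⟩ y hy s
    have := KK.alg (p := p) (K := X.K)
    have := KK.zero (p := p) (K := X.K)
    have hp : (p : X.K) ≠ 0 := Nat.cast_ne_zero.2 (Fact.out : p.Prime).ne_zero
    obtain ⟨x, hx⟩ := exists_same j (p : X.K) hp ((vv_lt_one_iff _).2 KK.pm) y
      (fun c hc => hy ⟨c, hc.symm⟩) (s.image fun t => t.2.1) (s.image fun t => t.2.2)
    refine ⟨x, ?_⟩
    rintro ⟨k, a, b⟩ ht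
    obtain ⟨h1, h2⟩ := hx a (Finset.mem_image.2 ⟨_, ht, rfl⟩) b (Finset.mem_image.2 ⟨_, ht, rfl⟩)
    cases k
    · simp only [realize_ball3_false, vle_iff]
      exact h1
    · simp only [realize_ball3_true, vle_iff]
      exact not_iff_not.2 h2
  pt := by
    intro X
    have key : ∀ (K : Type) [Field K] [TField ℤ_[p] K] (x c : K), vle p (x - c) 0 ↔ x = c := by
      intro K _ _ x c
      rw [vle_iff, map_zero, le_zero_iff, Valuation.zero_iff, sub_eq_zero]
    refine ⟨0, fun c x => ?_, ?_⟩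
    · rw [realize_ball3_false]
      exact key _ _ _
    · rintro Y i ⟨j, rfl⟩ c y
      rw [map_zero, realize_ball3_false]
      exact key _ _ _

end

section

variable {p : ℕ} [Fact p.Prime] {F L K : Type} [Field F] [Field L] [Field K]
  [TField ℤ_[p] F] [TField ℤ_[p] L] [TField ℤ_[p] K] [KK p F] [KK p L] [KK p K]

theorem elem3_aux {γ : Type*} (j : THom ℤ_[p] F L) (φ : (L3 p).Formula γ) (v : γ → F) :
    φ.Realize v ↔ φ.Realize (fun i => j.toRingHom (v i)) :=
  ((fr3 p).elemF φ (X := ⟨F⟩) (Y := ⟨L⟩) ⟨j, rfl⟩ v).symm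

/-- Łoś for `L3 p`. -/
theorem los3' {γ : Type*} {I : Type} (U : Ultrafilter I) (φ : (L3 p).Formula γ) (v : γ → I → K) :
    φ.Realize (fun i => gm U (v i)) ↔ ∀ᶠ k in (U : Filter I), φ.Realize (fun i => v i k) :=
  (fr3 p).losF (X := ⟨K⟩) (Y := ⟨UP U K⟩) U (upEquiv U) φ v

end

end Cm
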