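import Pool.Agent.Lib.MP_c35b50_lc.Cm.Mt7

/-!
# MP_c35b50_lc, part (C): patterns give Boolean combinations of at most `k` balls; a Boolean combination of `k` balls
has at most `k` points or contains a ball.
-/

namespace Cm

open FirstOrder FirstOrder.Language

section BCk

variable {p : ℕ} [Fact p.Prime] {K : Type} [Field K] [TField ℤ_[p] K]

/-- the truth value of a ball -/
def bt (p : ℕ) [Fact p.Prime] {K : Type} [Field K] [TField ℤ_[p] K] (c r : K) (o : Bool) (y : K) :
    Prop :=
  (o = true ∧ vle p (y - c) r) ∨ (o = false ∧ ¬ vle p r (y - c))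

theorem BCk.mono {k d : ℕ} {D : Set K} (h : BCk p k D) : BCk p (k + d) D := by
  obtain ⟨c, r, o, P, h⟩ := h
  refine ⟨Fin.append c fun _ => 0, Fin.append r fun _ => 0, Fin.append o fun _ => true,
    {f | (fun i => f (Fin.castAdd d i)) ∈ P}, fun y => ?_⟩
  rw [h y]
  simp only [Set.mem_ofPred_eq, Fin.append_left]

theorem BCk.mono' {k l : ℕ} (hkl : k ≤ l) {D : Set K} (h : BCk p k D) : BCk p l D := by
  obtain ⟨d, rfl⟩ := Nat.exists_eq_add_of_le hkl
  exact h.mono

theorem BCk.compl {k : ℕ} {D : Set K} (h : BCk p k D) : BCk p k Dᶜ := by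
  obtain ⟨c, r, o, P, h⟩ := h
  exact ⟨c, r, o, Pᶜ, fun y => not_congr (h y)⟩

theorem BCk.inter {k l : ℕ} {D E : Set K} (h : BCk p k D) (h' : BCk p l E) :
    BCk p (k + l) (D ∩ E) := by
  obtain ⟨c, r, o, P, h⟩ := h
  obtain ⟨c', r', o', P', h'⟩ := h'
  refine ⟨Fin.append c c', Fin.append r r', Fin.append o o',
    {f | (fun i => f (Fin.castAdd l i)) ∈ P ∧ (fun i => f (Fin.natAdd k i)) ∈ P'}, fun y => ?_⟩
  rw [Set.mem_inter_iff, h y, h' y]
  simp only [Set.mem_ofPred_eq, Fin.append_left, Fin.append_right]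

theorem BCk.closed (a b : K) : BCk p 1 {y | vle p (y - a) b} := by
  refine ⟨fun _ => a, fun _ => b, fun _ => true, {f | f 0}, fun y => ?_⟩
  simp

theorem BCk.opened (a b : K) : BCk p 1 {y | ¬ vle p b (y - a)} := by
  refine ⟨fun _ => a, fun _ => b, fun _ => false, {f | f 0}, fun y => ?_⟩
  simp

/-- the number of leaves -/
def BP.sz : BP → ℕ
  | .lf _ => 1
  | .neg e => sz e
  | .inf e e' => sz e + sz e'

theorem BP.bck (e : BP) (w : BP.V e → K) : BCk p (BP.sz e) (BP.ev (ball3 p) K e w) := by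
  induction e with
  | lf k =>
    cases k
    · have : BP.ev (ball3 p) K (.lf false) w = {y | vle p (y - w false) (w true)} := by
        ext y; exact realize_ball3_false p y _ _
      rw [this]; exact BCk.closed _ _
    · have : BP.ev (ball3 p) K (.lf true) w = {y | ¬ vle p (w true) (y - w false)} := by
        ext y; exact realize_ball3_true p y _ _
      rw [this]; exact BCk.opened _ _
  | neg e ih => exact (ih w).compl
  | inf e e' h1 h2 => exact (h1 _).inter (h2 _)

/-- The truth value of a ball is locally constant outside the centres of the balls of radius zero. -/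
theorem bt_loc [KK p K] (c r : K) (o : Bool) (x : K) (h : o = true → r = 0 → x ≠ c) :
    ∃ s : K, s ≠ 0 ∧ ∀ y, vle p (y - x) s → (bt p c r o y ↔ bt p c r o x) := by
  have := KK.zero (p := p) (K := K)
  have hp : (p : K) ≠ 0 := Nat.cast_ne_zero.2 (Fact.out : p.Prime).ne_zero
  have hpv : vv ℤ_[p] K (p : K) < 1 := (vv_lt_one_iff _).2 KK.pm
  have hmul : ∀ z : K, z ≠ 0 → vv ℤ_[p] K ((p : K) * z) < vv ℤ_[p] K z := by
    intro z hz
    rw [map_mul]
    calc vv ℤ_[p] K (p : K) * vv ℤ_[p] K z < 1 * vv ℤ_[p] K z :=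
          (mul_lt_mul_iff_left₀ (zero_lt_iff.2 ((Valuation.ne_zero_iff _).2 hz))).2 hpv
      _ = vv ℤ_[p] K z := one_mul _
  have hyx : ∀ y, y - c = (y - x) + (x - c) := fun y => by ring
  cases o
  · by_cases hr : r = 0
    · refine ⟨1, one_ne_zero, fun y _ => ?_⟩
      have h0 : ∀ z : K, ¬ bt p c r false z := by
        rintro z (h1 | h1)
        · exact Bool.false_ne_true h1.1
        · apply h1.2
          rw [vle_iff, hr, map_zero]
          exact zero_le
      exact iff_of_false (h0 y) (h0 x)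
    · refine ⟨p * r, mul_ne_zero hp hr, fun y hy => ?_⟩
      rw [vle_iff] at hy
      have hy' := lt_of_le_of_lt hy (hmul r hr)
      have h1 : ∀ z : K, bt p c r false z ↔ vv ℤ_[p] K (z - c) < vv ℤ_[p] K r := by
        intro z
        simp only [bt, vle_iff, not_le, Bool.false_eq_true, false_and, false_or, true_and]
      rw [h1, h1]
      constructor
      · intro h2
        have : x - c = (y - c) - (y - x) := by ring
        rw [this]
        exact (Valuation.map_sub _ _ _).trans_lt (max_lt h2 hy')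
      · intro h2
        rw [hyx y]
        exact (Valuation.map_add _ _ _).trans_lt (max_lt hy' h2)
  · have h1 : ∀ z : K, bt p c r true z ↔ vv ℤ_[p] K (z - c) ≤ vv ℤ_[p] K r := by
      intro z
      simp only [bt, vle_iff, Bool.true_eq_false, false_and, or_false, true_and]
    by_cases hr : r = 0
    · have hxc : x - c ≠ 0 := sub_ne_zero.2 (h rfl hr)
      refine ⟨p * (x - c), mul_ne_zero hp hxc, fun y hy => ?_⟩
      rw [vle_iff] at hy
      have hy' := lt_of_le_of_lt hy (hmul _ hxc)
      rw [h1, h1, hr, map_zero, le_zero_iff, le_zero_iff, hyx y,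
        Valuation.map_add_eq_of_lt_right _ hy']
    · refine ⟨r, hr, fun y hy => ?_⟩
      rw [vle_iff] at hy
      rw [h1, h1]
      constructor
      · intro h2
        have : x - c = (y - c) - (y - x) := by ring
        rw [this]
        exact (Valuation.map_sub _ _ _).trans (max_le h2 hy)
      · intro h2
        rw [hyx y]
        exact (Valuation.map_add _ _ _).trans (max_le hy h2)

end BCk

variable {p : ℕ} [Fact p.Prime] {F L K : Type} [Field F] [Field L] [Field K]
  [TField ℤ_[p] F] [TField ℤ_[p] L] [TField ℤ_[p] K] [KK p F] [KK p L] [KK p K] {γ : Type}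

theorem elem3 (j : THom ℤ_[p] F L) (φ : (L3 p).Formula γ) (v : γ → F) :
    φ.Realize v ↔ φ.Realize (fun i => j.toRingHom (v i)) :=
  elem3_aux j φ v

theorem elem2 (j : THom ℤ_[p] F L) (α : F) (hα : α ∈ OO ℤ_[p] F) (φ : Lvf.Formula γ)
    (v : γ → F) : Re2 p α φ v ↔ Re2 p (j.toRingHom α) φ (fun i => j.toRingHom (v i)) := by
  rw [← realize_tr α hα, ← realize_tr (j.toRingHom α) ((j.map_O _).1 hα), elem3 j]
  refine iff_of_eq (congrArg _ ?_)
  funext a
  cases a <;> rfl

variable (K) in
theorem cmin3 (φ : (L3 p).Formula (γ ⊕ Unit)) :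
    ∃ k, ∀ v : γ → K, BCk p k {y | φ.Realize (Sum.elim v fun _ => y)} := by
  obtain ⟨l, hl⟩ := (fr3 p).exists_patterns (X := ⟨K⟩) φ
  refine ⟨l.sup BP.sz, fun v => ?_⟩
  obtain ⟨e, he, w, hw⟩ : ∃ e ∈ l, ∃ w : BP.V e → K,
      {y : K | φ.Realize (Sum.elim v fun _ => y)} = BP.ev (ball3 p) K e w := hl v
  have h1 : BCk p (BP.sz e) {y : K | φ.Realize (Sum.elim v fun _ => y)} := by
    rw [hw]
    exact BP.bck e w
  exact h1.mono' (Finset.le_sup (f := BP.sz) he)

variable (K) in
theorem cmin2 (φ : Lvf.Formula (γ ⊕ Unit)) :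
    ∃ k, ∀ (α : K), α ∈ OO ℤ_[p] K → ∀ v : γ → K,
      BCk p k {y | Re2 p α φ (Sum.elim v fun _ => y)} := by
  obtain ⟨k, hk⟩ := cmin3 K ((tr p φ).relabel
    (fun a => Option.elim a (Sum.inl none) (Sum.map some id) : Option (γ ⊕ Unit) → Option γ ⊕ Unit))
  refine ⟨k, fun α hα v => ?_⟩
  have h1 := hk (oc α v)
  have h2 : ∀ y : K, ((tr p φ).relabel
      (fun a => Option.elim a (Sum.inl none) (Sum.map some id) :
        Option (γ ⊕ Unit) → Option γ ⊕ Unit)).Realize (Sum.elim (oc α v) fun _ => y) ↔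
      Re2 p α φ (Sum.elim v fun _ => y) := by
    intro y
    rw [← realize_tr α hα, Formula.realize_relabel]
    refine iff_of_eq (congrArg _ ?_)
    funext a
    rcases a with _ | a | a <;> rfl
  simp only [h2] at h1
  exact h1

/-- a Boolean combination of `k` balls has at most `k` points or contains a ball -/
theorem bck_dich {k : ℕ} {D : Set K} (h : BCk p k D) :
    (D.Finite ∧ D.ncard ≤ k) ∨ ∃ c r : K, r ≠ 0 ∧ ∀ y, vle p (y - c) r → y ∈ D := by
  classical
  obtain ⟨c, r, o, P, h⟩ := h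
  by_cases hD : D ⊆ (Finset.univ.image c : Finset K)
  · left
    have hf : (D).Finite := (Finset.finite_toSet _).subset hD
    refine ⟨hf, ?_⟩
    calc D.ncard ≤ ((Finset.univ.image c : Finset K) : Set K).ncard :=
          Set.ncard_le_ncard hD (Finset.finite_toSet _)
      _ = (Finset.univ.image c).card := Set.ncard_coe_finset _
      _ ≤ (Finset.univ : Finset (Fin k)).card := Finset.card_image_le
      _ = k := Finset.card_fin k
  · right
    obtain ⟨x, hxD, hx⟩ := Set.not_subset.1 hD
    have hxc : ∀ i, x ≠ c i := by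
      rintro i rfl
      exact hx (Finset.mem_coe.2 (Finset.mem_image_of_mem c (Finset.mem_univ i)))
    choose s hs0 hs using fun i => bt_loc (p := p) (c i) (r i) (o i) x (fun _ _ => hxc i)
    obtain ⟨r', hr'0, hr'⟩ : ∃ r' : K, r' ≠ 0 ∧ ∀ i, vv ℤ_[p] K r' ≤ vv ℤ_[p] K (s i) := by
      by_cases hk : (Finset.univ : Finset (Fin k)).Nonempty
      · obtain ⟨i0, -, hi0⟩ := Finset.exists_min_image Finset.univ (fun i => vv ℤ_[p] K (s i)) hk
        exact ⟨s i0, hs0 i0, fun i => hi0 i (Finset.mem_univ i)⟩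
      · exact ⟨1, one_ne_zero, fun i => (hk ⟨i, Finset.mem_univ i⟩).elim⟩
    refine ⟨x, r', hr'0, fun y hy => ?_⟩
    rw [h y]
    rw [h x] at hxD
    convert hxD using 1
    funext i
    refine propext (hs i y ?_)
    rw [vle_iff] at hy ⊢
    exact hy.trans (hr' i)

/-- Łoś for `Re2` -/
theorem los2 {I : Type} (U : Ultrafilter I) (α : I → K)
    (hα : ∀ i, α i ∈ OO ℤ_[p] K) (φ : Lvf.Formula γ) (v : γ → I → K) :
    Re2 p (gm U α) φ (fun i => gm U (v i)) ↔
      ∀ᶠ k in (U : Filter I), Re2 p (α k) φ (fun i => v i k) := by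
  have hα' : gm U α ∈ OO ℤ_[p] (UP U K) := (up_O U α).2 (Filter.Eventually.of_forall hα)
  rw [← realize_tr _ hα']
  have h1 := los3' (p := p) U (tr p φ) (oc α v)
  have h2 : (fun i => gm U (oc α v i)) = oc (gm U α) (fun i => gm U (v i)) := by
    funext a; cases a <;> rfl
  rw [h2] at h1
  rw [h1]
  refine Filter.eventually_congr (Filter.Eventually.of_forall fun k => ?_)
  rw [← realize_tr _ (hα k)]
  refine iff_of_eq (congrArg _ ?_)
  funext a; cases a <;> rfl

end Cm
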