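import Mathlib

/-!
# Generic Weierstrass division and preparation over an adically complete ring

`A` adically complete for the ideal `I`, `f` a power series with `f_i ∈ I` for `i < s` and `f_s` a unit.

* `wdiv_series` : every `g` is `f * q + r` with `r` a polynomial of degree `< s`;
* `gprep_series` : `f = (X ^ s + r) * U`, `r` of degree `< s` with coefficients in `I`, `U` a unit;
* `gprep_poly` : if `f` is a polynomial, then `f = (X ^ s + r) * Q` in `A[X]`, and `Q_i - f_{i+s} ∈ I`.
-/

namespace Cm

open Polynomial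

section

variable {A : Type*} [CommRing A] (I : Ideal A)

theorem order_map_toNat (hI : I ≠ ⊤) (f : PowerSeries A) (s : ℕ)
    (hlow : ∀ i < s, PowerSeries.coeff i f ∈ I) (hs : IsUnit (PowerSeries.coeff s f)) :
    (f.map (Ideal.Quotient.mk I)).order.toNat = s := by
  have h : (f.map (Ideal.Quotient.mk I)).order = (s : ℕ∞) := by
    rw [PowerSeries.order_eq_nat]
    constructor
    · rw [PowerSeries.coeff_map]
      intro h
      rw [Ideal.Quotient.eq_zero_iff_mem] at h
      exact hI (Ideal.eq_top_of_isUnit_mem _ h hs)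
    · intro i hi
      rw [PowerSeries.coeff_map, Ideal.Quotient.eq_zero_iff_mem]
      exact hlow i hi
  rw [h]
  rfl

theorem isWeierstrassDivisorAt_of (hI : I ≠ ⊤) (f : PowerSeries A) (s : ℕ)
    (hlow : ∀ i < s, PowerSeries.coeff i f ∈ I) (hs : IsUnit (PowerSeries.coeff s f)) :
    f.IsWeierstrassDivisorAt I := by
  unfold PowerSeries.IsWeierstrassDivisorAt
  rw [order_map_toNat I hI f s hlow hs]
  exact hs

theorem subsingleton_of_top [h : IsAdicComplete I A] (hI : I = ⊤) : Subsingleton A := by
  subst hI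
  exact h.toIsHausdorff.subsingleton

/-- **Weierstrass division.** -/
theorem wdiv_series [IsAdicComplete I A] (f : PowerSeries A) (s : ℕ)
    (hlow : ∀ i < s, PowerSeries.coeff i f ∈ I) (hs : IsUnit (PowerSeries.coeff s f))
    (g : PowerSeries A) :
    ∃ (q : PowerSeries A) (r : A[X]), r.degree < s ∧ g = f * q + r := by
  by_cases hI : I = ⊤
  · haveI := subsingleton_of_top I hI
    exact ⟨0, 0, by rw [Polynomial.degree_zero]; exact WithBot.bot_lt_coe s, Subsingleton.elim _ _⟩
  · have H := isWeierstrassDivisorAt_of I hI f s hlow hs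
    have h2 := H.isWeierstrassDivisionAt_div_mod g
    refine ⟨H.div g, H.mod g, ?_, h2.eq_mul_add⟩
    have h3 := h2.degree_lt
    rwa [order_map_toNat I hI f s hlow hs] at h3

/-- **Uniqueness of Weierstrass division.** -/
theorem wdiv_unique [IsAdicComplete I A] (f : PowerSeries A) (s : ℕ)
    (hlow : ∀ i < s, PowerSeries.coeff i f ∈ I) (hs : IsUnit (PowerSeries.coeff s f))
    {q q' : PowerSeries A} {r r' : A[X]} (hr : r.degree < s) (hr' : r'.degree < s)
    (h : f * q + r = f * q' + r') : q = q' ∧ r = r' := by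
  by_cases hI : I = ⊤
  · haveI := subsingleton_of_top I hI
    exact ⟨Subsingleton.elim _ _, Subsingleton.elim _ _⟩
  · have H := isWeierstrassDivisorAt_of I hI f s hlow hs
    have h3 := order_map_toNat I hI f s hlow hs
    exact H.eq_of_mul_add_eq_mul_add (by rw [h3]; exact hr) (by rw [h3]; exact hr') h

/-- **Weierstrass preparation**, power series. -/
theorem gprep_series [IsAdicComplete I A] (f : PowerSeries A) (s : ℕ)
    (hlow : ∀ i < s, PowerSeries.coeff i f ∈ I) (hs : IsUnit (PowerSeries.coeff s f)) :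
    ∃ (r : A[X]) (U : PowerSeries A), r.degree < s ∧ (∀ i, r.coeff i ∈ I) ∧ IsUnit U ∧
      f = ((X ^ s + r : A[X]) : PowerSeries A) * U := by
  classical
  obtain ⟨q, r, hr, hq⟩ := wdiv_series I f s hlow hs (PowerSeries.X ^ s)
  -- the coefficients of `r` are in `I`
  have hrI : ∀ i, r.coeff i ∈ I := by
    intro i
    by_cases hi : i < s
    · have h1 := congrArg (PowerSeries.coeff i) hq
      rw [PowerSeries.coeff_X_pow, if_neg (by omega), map_add, PowerSeries.coeff_mul,
        Polynomial.coeff_coe] at h1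
      have h2 : r.coeff i = - ∑ p ∈ Finset.HasAntidiagonal.antidiagonal i, PowerSeries.coeff p.1 f * PowerSeries.coeff p.2 q :=
        eq_neg_of_add_eq_zero_right h1.symm
      rw [h2]
      refine I.neg_mem (I.sum_mem (fun p hp => I.mul_mem_right _ (hlow _ ?_)))
      rw [Finset.HasAntidiagonal.mem_antidiagonal] at hp
      omega
    · rw [Polynomial.coeff_eq_zero_of_degree_lt]
      · exact I.zero_mem
      · refine lt_of_lt_of_le hr ?_
        exact_mod_cast not_lt.mp hi
  -- the constant coefficient of `q` is a unit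
  have hq0 : IsUnit (PowerSeries.coeff 0 q) := by
    have h1 := congrArg (PowerSeries.coeff s) hq
    rw [PowerSeries.coeff_X_pow, if_pos rfl, map_add, PowerSeries.coeff_mul,
      Polynomial.coeff_coe, Polynomial.coeff_eq_zero_of_degree_lt hr, add_zero] at h1
    have h2 : PowerSeries.coeff s f * PowerSeries.coeff 0 q - 1 ∈ I := by
      rw [h1]
      rw [← Finset.add_sum_erase _ _ (a := (s, 0)) (by rw [Finset.HasAntidiagonal.mem_antidiagonal, add_zero])]
      rw [sub_add_cancel_left]
      refine I.neg_mem (I.sum_mem (fun p hp => I.mul_mem_right _ (hlow _ ?_)))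
      rw [Finset.mem_erase, Finset.HasAntidiagonal.mem_antidiagonal] at hp
      have h3 : p.1 ≠ s := by
        intro h4
        apply hp.1
        have h5 : p.2 = 0 := by omega
        exact Prod.ext h4 h5
      omega
    have h4 : IsUnit (PowerSeries.coeff s f * PowerSeries.coeff 0 q) := by
      have hj : PowerSeries.coeff s f * PowerSeries.coeff 0 q - 1 ∈ (⊥ : Ideal A).jacobson :=
        IsAdicComplete.le_jacobson_bot I h2
      rw [Ideal.mem_jacobson_bot] at hj
      have := hj 1
      rwa [mul_one, sub_add_cancel] at this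
    exact isUnit_of_mul_isUnit_right h4
  have hqu : IsUnit q := by
    rw [PowerSeries.isUnit_iff_constantCoeff, ← PowerSeries.coeff_zero_eq_constantCoeff_apply]
    exact hq0
  obtain ⟨v, hv⟩ := hqu
  refine ⟨-r, (v⁻¹ : (PowerSeries A)ˣ), by rwa [Polynomial.degree_neg], ?_, Units.isUnit _, ?_⟩
  · intro i
    rw [Polynomial.coeff_neg]
    exact I.neg_mem (hrI i)
  · have h1 : ((X ^ s + -r : A[X]) : PowerSeries A) = f * q := by
      rw [Polynomial.coe_add, Polynomial.coe_neg, Polynomial.coe_pow, Polynomial.coe_X, hq]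
      ring
    rw [h1, mul_assoc, ← hv, Units.mul_inv, mul_one]

/-- **Weierstrass preparation**, polynomials: the second factor is a polynomial, too. -/
theorem gprep_poly [IsAdicComplete I A] (f : A[X]) (s : ℕ)
    (hlow : ∀ i < s, f.coeff i ∈ I) (hs : IsUnit (f.coeff s)) :
    ∃ (r Q : A[X]), r.degree < s ∧ (∀ i, r.coeff i ∈ I) ∧ IsUnit (Q.coeff 0) ∧
      f = (X ^ s + r) * Q ∧ ∀ i, Q.coeff i - f.coeff (i + s) ∈ I := by
  classical
  obtain ⟨r, U, hr, hrI, hU, hf⟩ := gprep_series I (f : PowerSeries A) s
    (by intro i hi; rw [Polynomial.coeff_coe]; exact hlow i hi) (by rw [Polynomial.coeff_coe]; exact hs)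
  by_cases hA : Subsingleton A
  · refine ⟨0, 1, ?_, fun i => ?_, ?_, Subsingleton.elim _ _, fun i => ?_⟩
    · rw [Polynomial.degree_zero]; exact WithBot.bot_lt_coe s
    · rw [Subsingleton.elim ((0 : A[X]).coeff i) 0]; exact I.zero_mem
    · exact isUnit_of_subsingleton _
    · rw [Subsingleton.elim ((1 : A[X]).coeff i - f.coeff (i + s)) 0]; exact I.zero_mem
  have : Nontrivial A := not_subsingleton_iff_nontrivial.mp hA
  set P : A[X] := X ^ s + r with hP
  have hPm : P.Monic := Polynomial.monic_X_pow_add hr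
  have hPd : P.degree = s := by
    rw [hP, Polynomial.degree_add_eq_left_of_degree_lt]
    · exact Polynomial.degree_X_pow s
    · rw [Polynomial.degree_X_pow]; exact hr
  have hPlow : ∀ i < s, PowerSeries.coeff i (P : PowerSeries A) ∈ I := by
    intro i hi
    rw [Polynomial.coeff_coe, hP, Polynomial.coeff_add, Polynomial.coeff_X_pow, if_neg (by omega), zero_add]
    exact hrI i
  have hPs : IsUnit (PowerSeries.coeff s (P : PowerSeries A)) := by
    rw [Polynomial.coeff_coe, hP, Polynomial.coeff_add, Polynomial.coeff_X_pow, if_pos rfl,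
      Polynomial.coeff_eq_zero_of_degree_lt hr, add_zero]
    exact isUnit_one
  have hdiv : f = P * (f /ₘ P) + f %ₘ P := by
    rw [add_comm]; exact (Polynomial.modByMonic_add_div f P).symm
  have hmod : (f %ₘ P).degree < s := by
    rw [← hPd]; exact Polynomial.degree_modByMonic_lt f hPm
  have huniq := wdiv_unique I (P : PowerSeries A) s hPlow hPs (q := U) (q' := ((f /ₘ P : A[X]) : PowerSeries A))
    (r := 0) (r' := f %ₘ P) (by rw [Polynomial.degree_zero]; exact WithBot.bot_lt_coe s) hmod (by
      rw [Polynomial.coe_zero, add_zero, ← hf]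
      conv_lhs => rw [hdiv]
      rw [Polynomial.coe_add, Polynomial.coe_mul])
  have hfP : f = P * (f /ₘ P) := by
    conv_lhs => rw [hdiv, ← huniq.2, add_zero]
  refine ⟨r, f /ₘ P, hr, hrI, ?_, hfP, ?_⟩
  · have h1 : IsUnit (PowerSeries.constantCoeff U) := PowerSeries.isUnit_iff_constantCoeff.mp hU
    rw [huniq.1, ← PowerSeries.coeff_zero_eq_constantCoeff_apply, Polynomial.coeff_coe] at h1
    exact h1
  · intro i
    set Q := f /ₘ P with hQ
    rw [hfP, Polynomial.coeff_mul]
    rw [← Finset.add_sum_erase _ _ (a := (s, i)) (by rw [Finset.HasAntidiagonal.mem_antidiagonal, add_comm])]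
    have h1 : P.coeff s = 1 := by
      rw [hP, Polynomial.coeff_add, Polynomial.coeff_X_pow, if_pos rfl,
        Polynomial.coeff_eq_zero_of_degree_lt hr, add_zero]
    rw [h1, one_mul, sub_add_cancel_left]
    refine I.neg_mem (I.sum_mem (fun p hp => I.mul_mem_right _ ?_))
    rw [Finset.mem_erase, Finset.HasAntidiagonal.mem_antidiagonal] at hp
    rcases lt_trichotomy p.1 s with h2 | h2 | h2
    · have := hPlow p.1 h2
      rwa [Polynomial.coeff_coe] at this
    · exact absurd (Prod.ext h2 (by omega)) hp.1
    · rw [Polynomial.coeff_eq_zero_of_degree_lt]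
      · exact I.zero_mem
      · rw [hPd]; exact_mod_cast h2

end

end Cm
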