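import Pool.Agent.Lib.MP_c35b50_lc.Cm.Hd
import Pool.Agent.Lib.MP_c35b50_lc.Cm.Emb
import Pool.Agent.Lib.MP_c35b50_lc.Cm.HahnAC

/-!
# The lemma of Ostrowski and Rosenlicht

`K` algebraically closed of characteristic `0`, `K ⊆ A` fields, `γ_j ∈ K` linearly independent
over `ℚ`, `d h = ∑ γ_j d(U_j) / U_j` in `Ω[A⁄K]`. Then all `U_j` lie in `K`.
-/

noncomputable section

namespace CMAx

open HahnSeries

/-- the coefficient of `ε^n` in `P(ε)` -/
theorem coeff_eval₂_eps {A L : Type*} [Field A] [Field L] (f : A →+* L) (P : Polynomial A)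
    (n : ℕ) : ((P.eval₂ ((C : L →+* HahnSeries ℚ L).comp f) (single (1 : ℚ) (1 : L))).coeff
      (n : ℚ)) = f (P.coeff n) := by
  rw [Polynomial.eval₂_eq_sum_range, coeff_sum]
  have h1 : ∀ i : ℕ, (((C : L →+* HahnSeries ℚ L).comp f) (P.coeff i) *
      (single (1 : ℚ) (1 : L)) ^ i).coeff (n : ℚ) = if i = n then f (P.coeff n) else 0 := by
    intro i
    rw [RingHom.comp_apply, C_mul_eq_smul, coeff_smul, single_pow, one_pow, coeff_single]
    by_cases h : i = n
    · subst h
      simp
    · have h2 : ¬ ((n : ℚ) = i • (1 : ℚ)) := by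
        rw [nsmul_eq_mul, mul_one]
        intro h3
        exact h (by exact_mod_cast h3.symm)
      rw [if_neg h2, if_neg h, smul_zero]
  rw [Finset.sum_congr rfl fun i _ => h1 i, Finset.sum_ite_eq']
  split_ifs with h
  · rfl
  · rw [Finset.mem_range, not_lt] at h
    rw [Polynomial.coeff_eq_zero_of_natDegree_lt (by omega), map_zero]

section

variable {K A : Type*} [Field K] [Field A] [Algebra K A]

/-- the field of Hahn series over the algebraic closure -/
abbrev HA (A : Type*) [Field A] := HahnSeries ℚ (AlgebraicClosure A)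

/-- twisted module -/
def Tw {H : Type*} [Field H] (_Φ : A →+* H) : Type _ := H

variable {H : Type*} [Field H] (Φ : A →+* H)

instance : AddCommGroup (Tw Φ) := inferInstanceAs (AddCommGroup H)

instance : Module A (Tw Φ) := Module.compHom H Φ

instance : Module K (Tw Φ) := Module.compHom H (Φ.comp (algebraMap K A))

instance : IsScalarTower K A (Tw Φ) where
  smul_assoc c a x := by
    change Φ (c • a) * (show H from x) = Φ (algebraMap K A c) * (Φ a * (show H from x))
    rw [Algebra.smul_def, map_mul, mul_assoc]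

/-- a derivation into a field extension as a linear map on the differentials -/
theorem omega_apply (δ : A →+ H) (hδ : ∀ a b, δ (a * b) = Φ a * δ b + Φ b * δ a)
    (hδK : ∀ c : K, δ (algebraMap K A c) = 0) :
    ∃ l : Ω[A⁄K] →+ H, (∀ a : A, l (KaehlerDifferential.D K A a) = δ a) ∧
      ∀ (a : A) (w : Ω[A⁄K]), l (a • w) = Φ a * l w := by
  let D : Derivation K A (Tw Φ) := Derivation.mk'
    { toFun := fun a => (show Tw Φ from δ a)
      map_add' := fun a b => δ.map_add a b
      map_smul' := fun c a => by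
        change δ (c • a) = Φ (algebraMap K A c) * δ a
        rw [Algebra.smul_def, hδ, hδK, mul_zero, add_zero] }
    (fun a b => hδ a b)
  refine ⟨D.liftKaehlerDifferential.toAddMonoidHom, fun a => ?_, fun a w => ?_⟩
  · exact D.liftKaehlerDifferential_comp_D a
  · exact D.liftKaehlerDifferential.map_smul a w

end

section

variable {K A : Type*} [Field K] [Field A] [Algebra K A] [IsAlgClosed K] [CharZero K]

/-- Ostrowski, Rosenlicht -/
theorem ros {ι : Type*} [Fintype ι] (γ : ι → K) (hγ : LinearIndependent ℚ γ) (h : A) (U : ι → A)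
    (hU : ∀ j, U j ≠ 0)
    (hrel : KaehlerDifferential.D K A h =
      ∑ j, algebraMap K A (γ j) • ((U j)⁻¹ • KaehlerDifferential.D K A (U j))) (j : ι) :
    U j ∈ Set.range (algebraMap K A) := by
  by_contra hj
  have hUt : Transcendental K (U j) := fun h0 => hj (mem_range_of_algebraic h0)
  let f : A →+* AlgebraicClosure A := algebraMap A (AlgebraicClosure A)
  let g : A →+* HA A := (C : AlgebraicClosure A →+* HA A).comp f
  let e : HA A := single (1 : ℚ) (1 : AlgebraicClosure A)
  let a1 : Algebra A (HA A) := g.toAlgebra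
  let a2 : Algebra K (HA A) := (g.comp (algebraMap K A)).toAlgebra
  have a3 : @IsScalarTower K A (HA A) _ a1.toSMul a2.toSMul :=
    @IsScalarTower.of_algebraMap_eq K A (HA A) _ _ _ _ a1 a2 fun _ => rfl
  have he : @Transcendental A (HA A) _ _ a1 e := by
    rintro ⟨P, hP0, hP⟩
    apply hP0
    ext n
    rw [Polynomial.coeff_zero]
    have h1 := coeff_eval₂_eps f P n
    have h2 : (P.eval₂ ((C : AlgebraicClosure A →+* HA A).comp f) (single (1 : ℚ) 1)) = 0 := hP
    rw [h2, coeff_zero] at h1
    exact f.injective (by rw [← h1, map_zero])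
  obtain ⟨Φ, hΦ, hΦK⟩ := @exists_embed K A (HA A) _ _ _ _ a1 a2 a3 _ (U j) hUt e he
  have hΦK' : ∀ c : K, Φ (algebraMap K A c) = C (f (algebraMap K A c)) := fun c => hΦK c
  have hchar : CharZero (AlgebraicClosure A) :=
    charZero_of_injective_ringHom (f.comp (algebraMap K A)).injective
  let δ : A →+ HA A := (dH (AlgebraicClosure A)).comp Φ.toAddMonoidHom
  have hδ : ∀ a, δ a = dH (AlgebraicClosure A) (Φ a) := fun a => rfl
  obtain ⟨l, hl1, hl2⟩ := omega_apply (K := K) Φ δ (fun a b => by
    rw [hδ, hδ, hδ, map_mul, dH_mul]) (fun c => by rw [hδ, hΦK', dH_C])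
  have h1 := congrArg l hrel
  rw [hl1, map_sum] at h1
  have h2 : (δ h).coeff (-1) = 0 := dH_coeff_neg_one _ _
  have hUΦ : ∀ i, Φ (U i) ≠ 0 := fun i => (map_ne_zero Φ).2 (hU i)
  have h3 : ∀ i, (l (algebraMap K A (γ i) • ((U i)⁻¹ • KaehlerDifferential.D K A (U i)))).coeff
      (-1) = f (algebraMap K A ((Φ (U i)).order • γ i)) := by
    intro i
    rw [hl2, hl2, hl1, hδ, hΦK', map_inv₀, C_mul_eq_smul, coeff_smul, residue_logDeriv _ (hUΦ i),
      smul_eq_mul]
    rw [Rat.smul_def, map_mul, map_mul, map_ratCast, map_ratCast, mul_comm]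
  rw [h1, coeff_sum, Finset.sum_congr rfl fun i _ => h3 i, ← map_sum, ← map_sum] at h2
  have h4 : ∑ i, (Φ (U i)).order • γ i = 0 := by
    have h5 := f.injective (h2.trans (map_zero f).symm)
    exact (algebraMap K A).injective (h5.trans (map_zero _).symm)
  have h6 := Fintype.linearIndependent_iff.1 hγ _ h4 j
  have h7 : (e : HA A).order = 1 := order_single one_ne_zero
  rw [hΦ, h7] at h6
  exact one_ne_zero h6

end

end CMAx
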