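import Mathlib

/-!
# The rings `S R s t = R[ξ_s][[ρ_t]]`

Power series in the variables `ρ_j` (`j : t`) over the polynomial ring in the variables `ξ_i`
(`i : s`) over the base ring `R`.
-/

namespace Cm

/-- `R[ξ_s][[ρ_t]]`. -/
abbrev S (R : Type) [CommRing R] (s t : Type) : Type := MvPowerSeries t (MvPolynomial s R)

section

variable {R : Type} [CommRing R] {s t s' t' s'' t'' : Type}

/-- constants -/
noncomputable def cst (R : Type) [CommRing R] (s t : Type) : R →+* S R s t :=
  (MvPowerSeries.C (σ := t) (R := MvPolynomial s R)).comp MvPolynomial.C

/-- the variables of the first kind (they will be evaluated in the valuation ring) -/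
noncomputable def xi (i : s) : S R s t := MvPowerSeries.C (MvPolynomial.X i)

/-- the variables of the second kind (they will be evaluated in the maximal ideal) -/
noncomputable def rho (j : t) : S R s t := MvPowerSeries.X j

/-- the constant coefficient (in the `ρ` variables) -/
noncomputable def cc (R : Type) [CommRing R] (s t : Type) : S R s t →+* MvPolynomial s R :=
  MvPowerSeries.constantCoeff

/-- the ideal of the series without constant term -/
noncomputable def rr (R : Type) [CommRing R] (s t : Type) : Ideal (S R s t) :=
  RingHom.ker (cc R s t)

/-- renaming of variables -/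
noncomputable def ren [Finite t] [Finite t'] (f : s → s') (g : t → t') : S R s t →+* S R s' t' :=
  ((MvPowerSeries.rename g : MvPowerSeries t (MvPolynomial s' R) →ₐ[MvPolynomial s' R]
    MvPowerSeries t' (MvPolynomial s' R)) : _ →+* _).comp
    (MvPowerSeries.map (MvPolynomial.rename f : MvPolynomial s R →ₐ[R] MvPolynomial s' R).toRingHom)

/-- `oc x b : Option t → A` is `x` at `none` and `b` at `some`. -/
def oc {A : Type} (x : A) (b : t → A) : Option t → A := fun o => o.elim x b

@[simp] theorem oc_none {A : Type} (x : A) (b : t → A) : oc x b none = x := rfl
@[simp] theorem oc_some {A : Type} (x : A) (b : t → A) (j : t) : oc x b (some j) = b j := rfl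

end

end Cm
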