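import Mathlib

/-!
# MP_c35b50_lc: the statement (`C`-minimality of `(M, +, ·, v, (1+x)^α)`)

Everything which is needed to state the result; no proofs.
-/

open FirstOrder

universe u v

namespace Cm

/-! ### The language of valued fields with one partial unary function -/

/-- Function symbols: `0, 1, -, +, ·`. -/
inductive Fn : ℕ → Type
  | zero : Fn 0
  | one : Fn 0
  | neg : Fn 1
  | add : Fn 2
  | mul : Fn 2

/-- Relation symbols: `le x y` for `|x| ≤ |y|` (that is `v(y) ≤ v(x)`), and `gr x y` for:
`x` is in the domain of the partial function and `y` is its value. -/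
inductive Rl : ℕ → Type
  | le : Rl 2
  | gr : Rl 2

/-- The language of valued fields with a partial unary function. -/
def Lvf : Language := ⟨Fn, Rl⟩

section balls

variable (N : Type u) [Lvf.Structure N]

/-- `x - a` in an `Lvf`-structure. -/
def sb (x a : N) : N :=
  Language.Structure.funMap (L := Lvf) (n := 2) Fn.add
    ![x, Language.Structure.funMap (L := Lvf) (n := 1) Fn.neg ![a] ]

/-- `|x| ≤ |y|` in an `Lvf`-structure. -/
def le' (x y : N) : Prop := Language.Structure.RelMap (L := Lvf) (n := 2) Rl.le ![x, y]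

/-- The closed ball with centre `a` and radius `|b|`, that is `{x : v(x - a) ≥ v(b)}` (the point `a` if `b = 0`). -/
def cball (a b : N) : Set N := {x | le' N (sb N x a) b}

/-- The open ball with centre `a` and radius `|b|`, that is `{x : v(x - a) > v(b)}`. -/
def oball (a b : N) : Set N := {x | ¬ le' N b (sb N x a)}

/-- The finite Boolean combinations of balls of `N`. -/
inductive BC : Set N → Prop
  | cb (a b : N) : BC (cball N a b)
  | ob (a b : N) : BC (oball N a b)
  | compl (s : Set N) : BC s → BC sᶜ
  | inter (s t : Set N) : BC s → BC t → BC (s ∩ t)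

end balls

/-- `C`-minimality of an expansion `M` of a valued field by a partial unary function: in every structure `N`
elementarily equivalent to `M`, every subset of `N` definable with parameters is a finite Boolean combination of
balls. -/
def CMinimal (M : Type u) [Lvf.Structure M] : Prop :=
  ∀ (N : Type v) [Lvf.Structure N], (M ≅[Lvf] N) → ∀ s : Set N,
    (Set.univ : Set N).Definable₁ Lvf s → BC N s

/-! ### A field as an `Lvf`-structure -/

/-- The meaning of the function symbols `0, 1, -, +, ·` in a field. -/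
@[reducible] def fnF {K : Type u} [Field K] : {n : ℕ} → Fn n → (Fin n → K) → K
  | _, .zero, _ => 0
  | _, .one, _ => 1
  | _, .neg, v => - v 0
  | _, .add, v => v 0 + v 1
  | _, .mul, v => v 0 * v 1

/-- The relation symbols `le` and `gr` are interpreted by two given relations. -/
@[reducible] def rlF {K : Type u} (le gr : K → K → Prop) : {n : ℕ} → Rl n → (Fin n → K) → Prop
  | _, .le, v => le (v 0) (v 1)
  | _, .gr, v => gr (v 0) (v 1)

/-- A field with two binary relations as an `Lvf`-structure. -/
@[reducible] def strF (K : Type u) [Field K] (le gr : K → K → Prop) : Lvf.Structure K where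
  funMap := fnF
  RelMap := rlF le gr

/-! ### The concrete structures -/

variable {p : ℕ} [Fact p.Prime]

/-- The binomial coefficient `binom(α,k) = α (α-1) ⋯ (α-k+1) / k!`. -/
noncomputable def bin (α : ℂ_[p]) (k : ℕ) : ℂ_[p] :=
  (∏ i ∈ Finset.range k, (α - (i : ℂ_[p]))) / (k.factorial : ℂ_[p])

/-- `f_α(x) = (1 + x)^α = ∑ binom(α,k) x^k`. -/
noncomputable def fa (α x : ℂ_[p]) : ℂ_[p] := ∑' k : ℕ, bin α k * x ^ k

/-- The structure `(M, +, ·, v, f_α)` for a subfield `M` of `ℂ_p`; `v` is the restriction of the valuation (given by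
`|x| ≤ |y|`) and `f_α` is regarded as the partial function on `M ∩ {|x| < r}`. -/
@[reducible] noncomputable def strM (α : ℂ_[p]) (r : ℝ) (M : Subfield ℂ_[p]) : Lvf.Structure M :=
  strF M (fun x y => ‖(x : ℂ_[p])‖ ≤ ‖(y : ℂ_[p])‖)
    (fun x y => ‖(x : ℂ_[p])‖ < r ∧ (y : ℂ_[p]) = fa α x)

variable (p)

/-- The positive answer to Q1 for the prime `p`. -/
def Answer : Prop :=
  ∃ (α : ℂ_[p]) (r : ℝ) (M : Subfield ℂ_[p]),
    0 < r ∧ (∀ x : ℂ_[p], ‖x‖ < r → Summable fun k : ℕ => bin α k * x ^ k) ∧
    IsAlgClosed M ∧ (∀ x ∈ M, ‖x‖ < r → fa α x ∈ M) ∧ α ∉ M ∧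
    letI := strM α r M
    CMinimal.{0, v} M

end Cm
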