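import Pool.Agent.Lib.MP_c35b50_lc.Cm.Comp
import Pool.Agent.Lib.MP_c35b50_lc.Cm.TBasic

/-! # Row T2: evaluation is compatible with substitution -/

namespace Cm

variable {R : Type} [CommRing R] [IsNoetherianRing R] {A : Type} [CommRing A] [TRing R A]
  {s t s' t' : Type} [Finite s] [Finite t] [Finite s'] [Finite t']

theorem ev_comp (θ : S R s t →+* S R s' t') (hc : ∀ r, θ (cst R s t r) = cst R s' t' r)
    (hj : ∀ j, θ (rho j) ∈ rr R s' t') (F : S R s t) (a : s' → A) (b : t' → A)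
    (h : Dom R a b) :
    ev (θ F) a b = ev F (fun i => ev (θ (xi i)) a b) (fun j => ev (θ (rho j)) a b) := by
  set a0 : s → A := fun i => ev (θ (xi i)) a b with ha0
  set b0 : t → A := fun j => ev (θ (rho j)) a b with hb0
  have h0 : Dom R a0 b0 :=
    ⟨fun i => TRing.T_mem _ a b h.1 h.2, fun j => ev_mem_m _ (hj j) a b h⟩
  have hd : Dom R (Sum.elim a0 a : s ⊕ s' → A) (Sum.elim b0 b : t ⊕ t' → A) := by
    refine ⟨?_, ?_⟩
    · rintro (i | i)
      · exact h0.1 i
      · exact h.1 i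
    · rintro (j | j)
      · exact h0.2 j
      · exact h.2 j
  have e1 : ∀ G : S R s t, ev (ren (Sum.inl : s → s ⊕ s') (Sum.inl : t → t ⊕ t') G)
      (Sum.elim a0 a) (Sum.elim b0 b) = ev G a0 b0 := fun G =>
    TRing.T_ren _ _ G _ _ hd.1 hd.2
  have e2 : ∀ G : S R s' t', ev (ren (Sum.inr : s' → s ⊕ s') (Sum.inr : t' → t ⊕ t') G)
      (Sum.elim a0 a) (Sum.elim b0 b) = ev G a b := fun G =>
    TRing.T_ren _ _ G _ _ hd.1 hd.2
  have key : Ideal.span (Set.range (fun i : s => (xi (Sum.inl i) - ren Sum.inr Sum.inr (θ (xi i)) :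
        S R (s ⊕ s') (t ⊕ t'))) ∪
      Set.range (fun j : t => (rho (Sum.inl j) - ren Sum.inr Sum.inr (θ (rho j)) :
        S R (s ⊕ s') (t ⊕ t')))) ≤ RingHom.ker (evHom _ _ hd) := by
    rw [Ideal.span_le]
    rintro x (⟨i, rfl⟩ | ⟨j, rfl⟩)
    · show evHom _ _ hd _ = 0
      rw [map_sub, evHom_apply, evHom_apply, e2, sub_eq_zero]
      exact TRing.T_xi _ _ hd.1 hd.2 (Sum.inl i)
    · show evHom _ _ hd _ = 0
      rw [map_sub, evHom_apply, evHom_apply, e2, sub_eq_zero]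
      exact TRing.T_rho _ _ hd.1 hd.2 (Sum.inl j)
  have h1 : evHom _ _ hd _ = 0 := key (comp_mem θ hc hj F)
  rw [map_sub, evHom_apply, evHom_apply, e1, e2, sub_eq_zero] at h1
  exact h1.symm

/-- Existence form of the composition law. -/
theorem exists_ev_comp (G : s → S R s' t') (H : t → S R s' t') (hH : ∀ j, H j ∈ rr R s' t')
    (F : S R s t) : ∃ F' : S R s' t', (F ∈ rr R s t → F' ∈ rr R s' t') ∧
      ∀ (A : Type) [CommRing A] [TRing R A] (a : s' → A) (b : t' → A), Dom R a b →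
        ev F' a b = ev F (fun i => ev (G i) a b) (fun j => ev (H j) a b) := by
  obtain ⟨θ, h1, h2, h3⟩ := exists_comp G H hH
  have hj : ∀ j, θ (rho j) ∈ rr R s' t' := fun j => by rw [h3]; exact hH j
  refine ⟨θ F, comp_rr θ hj F, fun A _ _ a b h => ?_⟩
  rw [ev_comp θ h1 hj F a b h]
  simp only [h2, h3]

end Cm
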