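import Pool.Agent.Lib.MP_c35b50_lc.Cm.TBasic

/-! # Row T4: basic facts on T-fields, T-subfields -/

namespace Cm

variable {R : Type} [CommRing R] {K : Type} [Field K] [TField R K]

theorem vv_le_one_iff (x : K) : vv R K x ≤ 1 ↔ x ∈ OO R K :=
  ValuationSubring.valuation_le_one_iff (vs R K) x

theorem vv_lt_one_iff (x : K) : vv R K x < 1 ↔ x ∈ mm R K := by
  have h1 : x ∈ mm R K ↔ x ∈ OO R K ∧ (x = 0 ∨ x⁻¹ ∉ OO R K) := TField.m_iff x
  rw [h1]
  by_cases hx : x = 0
  · subst hx
    rw [map_zero]
    exact ⟨fun _ => ⟨(OO R K).zero_mem, Or.inl rfl⟩, fun _ => zero_lt_one⟩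
  · have h2 : vv R K x < 1 ↔ 1 < vv R K x⁻¹ := by
      have h3 : vv R K x ≠ 0 := (Valuation.ne_zero_iff _).2 hx
      rw [map_inv₀, one_lt_inv₀ (zero_lt_iff.2 h3)]
    rw [h2, ← not_le, vv_le_one_iff]
    constructor
    · intro h
      exact ⟨(TField.total (R := R) x).resolve_right h, Or.inr h⟩
    · rintro ⟨-, h | h⟩
      · exact absurd h hx
      · exact h

theorem vv_eq_one_iff (x : K) : vv R K x = 1 ↔ x ∈ OO R K ∧ x ∉ mm R K := by
  rw [← vv_le_one_iff, ← vv_lt_one_iff, not_lt, le_antisymm_iff]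

theorem vv_le_iff_div {x y : K} (hy : y ≠ 0) : vv R K x ≤ vv R K y ↔ x / y ∈ OO R K := by
  have h3 : vv R K y ≠ 0 := (Valuation.ne_zero_iff _).2 hy
  rw [← vv_le_one_iff, map_div₀, div_le_one₀ (zero_lt_iff.2 h3)]

theorem vv_le_iff (x y : K) : vv R K x ≤ vv R K y ↔ ∃ z ∈ OO R K, x = z * y := by
  by_cases hy : y = 0
  · subst hy
    rw [map_zero, le_zero_iff, Valuation.zero_iff]
    constructor
    · intro h
      exact ⟨0, (OO R K).zero_mem, by rw [h, zero_mul]⟩
    · rintro ⟨z, -, hz⟩
      rw [hz, mul_zero]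
  · rw [vv_le_iff_div hy]
    constructor
    · intro h
      exact ⟨x / y, h, (div_mul_cancel₀ x hy).symm⟩
    · rintro ⟨z, hz, rfl⟩
      rw [mul_div_cancel_right₀ z hy]
      exact hz

section Hom

variable {L : Type} [Field L] [TField R L] (j : THom R K L)

theorem THom.inj {x y : K} (h : j.toRingHom x = j.toRingHom y) : x = y := j.toRingHom.injective h

theorem THom.vv_le (x y : K) :
    vv R L (j.toRingHom x) ≤ vv R L (j.toRingHom y) ↔ vv R K x ≤ vv R K y := by
  by_cases hy : y = 0
  · subst hy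
    rw [map_zero, map_zero, map_zero, le_zero_iff, le_zero_iff, Valuation.zero_iff,
      Valuation.zero_iff]
    exact map_eq_zero _
  · have hy' : j.toRingHom y ≠ 0 := (map_ne_zero _).2 hy
    rw [vv_le_iff_div hy, vv_le_iff_div hy', ← map_div₀]
    exact (j.map_O _).symm

theorem THom.vv_lt (x y : K) :
    vv R L (j.toRingHom x) < vv R L (j.toRingHom y) ↔ vv R K x < vv R K y := by
  rw [← not_le, ← not_le, THom.vv_le]

theorem THom.base (r : R) : j.toRingHom (Cm.base R K r) = Cm.base R L r := by
  have h := j.map_T (cst R Empty Empty r) (fun i => i.elim) (fun i => i.elim)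
    ⟨fun i => i.elim, fun i => i.elim⟩
  refine Eq.trans h ?_
  change ev (cst R Empty Empty r) _ _ = ev (cst R Empty Empty r) _ _
  congr 1
  · funext i
    exact i.elim
  · funext i
    exact i.elim

/-- composition -/
def THom.comp {M : Type} [CommRing M] [TRing R M] {A : Type} [CommRing A] [TRing R A]
    {B : Type} [CommRing B] [TRing R B] (g : THom R B M) (f : THom R A B) : THom R A M where
  toRingHom := g.toRingHom.comp f.toRingHom
  map_O := fun x => (f.map_O x).trans (g.map_O _)
  map_m := fun x => (f.map_m x).trans (g.map_m _)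
  map_T := by
    intro s t _ _ F a b h
    have h1 := f.map_T F a b h
    have h2 := g.map_T F (fun i => f.toRingHom (a i)) (fun j => f.toRingHom (b j))
      ⟨fun i => (f.map_O _).1 (h.1 i), fun i => (f.map_m _).1 (h.2 i)⟩
    exact (congrArg g.toRingHom h1).trans h2

end Hom

section Sub

/-- a subfield closed under the evaluation maps -/
def TClosed (R : Type) [CommRing R] {K : Type} [Field K] [TField R K] (E : Subfield K) : Prop :=
  ∀ {s t : Type} [Finite s] [Finite t] (F : S R s t) (a : s → K) (b : t → K),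
    (∀ i, a i ∈ E) → (∀ j, b j ∈ E) → Dom R a b → ev F a b ∈ E

/-- the T-field structure on a T-closed subfield -/
@[reducible] noncomputable def TClosed.tfield {E : Subfield K} (h : TClosed R E) : TField R E where
  O := (OO R K).comap E.subtype
  m := {x | (x : K) ∈ mm R K}
  m_le := fun x hx => TRing.m_le _ hx
  m_zero := by
    show ((0 : E) : K) ∈ mm R K
    exact TRing.m_zero
  m_add := fun x hx y hy => TRing.m_add _ hx _ hy
  m_mul := fun x hx y hy => TRing.m_mul _ hx _ hy
  T := fun F a b => by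
    classical
    exact if hd : Dom R (fun i => (a i : K)) (fun j => (b j : K)) then
      ⟨ev F (fun i => (a i : K)) (fun j => (b j : K)), h F _ _ (fun i => (a i).2)
        (fun j => (b j).2) hd⟩ else 0
  T_mem := by
    intro s t _ _ F a b ha hb
    have hd : Dom R (fun i => (a i : K)) (fun j => (b j : K)) := ⟨ha, hb⟩
    rw [dif_pos hd]
    exact TRing.T_mem F _ _ hd.1 hd.2
  T_one := by
    intro s t _ _ a b ha hb
    have hd : Dom R (fun i => (a i : K)) (fun j => (b j : K)) := ⟨ha, hb⟩
    rw [dif_pos hd]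
    exact Subtype.ext (TRing.T_one _ _ hd.1 hd.2)
  T_add := by
    intro s t _ _ F G a b ha hb
    have hd : Dom R (fun i => (a i : K)) (fun j => (b j : K)) := ⟨ha, hb⟩
    rw [dif_pos hd, dif_pos hd, dif_pos hd]
    exact Subtype.ext (TRing.T_add F G _ _ hd.1 hd.2)
  T_mul := by
    intro s t _ _ F G a b ha hb
    have hd : Dom R (fun i => (a i : K)) (fun j => (b j : K)) := ⟨ha, hb⟩
    rw [dif_pos hd, dif_pos hd, dif_pos hd]
    exact Subtype.ext (TRing.T_mul F G _ _ hd.1 hd.2)
  T_xi := by
    intro s t _ _ a b ha hb i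
    have hd : Dom R (fun i => (a i : K)) (fun j => (b j : K)) := ⟨ha, hb⟩
    rw [dif_pos hd]
    exact Subtype.ext (TRing.T_xi _ _ hd.1 hd.2 i)
  T_rho := by
    intro s t _ _ a b ha hb i
    have hd : Dom R (fun i => (a i : K)) (fun j => (b j : K)) := ⟨ha, hb⟩
    rw [dif_pos hd]
    exact Subtype.ext (TRing.T_rho _ _ hd.1 hd.2 i)
  T_ren := by
    intro s t s' t' _ _ _ _ f g F a b ha hb
    have hd : Dom R (fun i => (a i : K)) (fun j => (b j : K)) := ⟨ha, hb⟩
    have hd' : Dom R (fun i => ((a ∘ f) i : K)) (fun j => ((b ∘ g) j : K)) :=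
      ⟨fun i => ha (f i), fun j => hb (g j)⟩
    rw [dif_pos hd, dif_pos hd']
    exact Subtype.ext (TRing.T_ren f g F _ _ hd.1 hd.2)
  total := by
    intro x
    exact TField.total (R := R) (x : K)
  m_iff := by
    intro x
    have h := TField.m_iff (R := R) (x : K)
    have e : (x : K) = 0 ↔ x = 0 := by
      constructor
      · exact fun k => Subtype.ext k
      · rintro rfl
        rfl
    rw [e] at h
    exact h

/-- the inclusion of a T-closed subfield -/
noncomputable def TClosed.incl {E : Subfield K} (h : TClosed R E) :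
    @THom R _ E K _ _ h.tfield.toTRing _ :=
  letI := h.tfield
  { toRingHom := E.subtype
    map_O := fun _ => Iff.rfl
    map_m := fun _ => Iff.rfl
    map_T := by
      intro s t _ _ F a b hd
      have hd' : Dom R (fun i => (a i : K)) (fun j => (b j : K)) := ⟨hd.1, hd.2⟩
      exact congrArg Subtype.val (dif_pos hd') }

@[simp] theorem TClosed.incl_apply {E : Subfield K} (h : TClosed R E) (x : E) :
    (@THom.toRingHom R _ E K _ _ h.tfield.toTRing _ h.incl) x = x := rfl

end Sub

end Cm
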