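import Pool.Agent.Lib.MP_c35b50_lc.Cm.TFieldB
import Pool.Agent.Lib.MP_c35b50_lc.Cm.Mod

/-! # Row T5: ultrapowers of T-fields -/

namespace Cm

variable {R : Type} [CommRing R] {K : Type} [Field K] [TField R K] {I : Type} (U : Ultrafilter I)

section rep

variable {U} {K : Type}

/-- a representative of an element of the ultrapower -/
private noncomputable def upr (x : UP U K) : I → K := Quotient.out x

private theorem gm_upr (x : UP U K) : gm U (upr x) = x := Quotient.out_eq x

private theorem upr_gm (f : I → K) : ∀ᶠ k in (U : Filter I), upr (gm U f) k = f k :=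
  Filter.Germ.coe_eq.1 (gm_upr (gm U f))

private theorem gm_eq {f g : I → K} : gm U f = gm U g ↔ ∀ᶠ k in (U : Filter I), f k = g k :=
  Filter.Germ.coe_eq

end rep

section

/-- the domain of the evaluation maps in the ultrapower, in terms of representatives -/
private theorem up_dom {U : Ultrafilter I} {s t : Type} [Finite s] [Finite t] {a : s → UP U K}
    {b : t → UP U K}
    (ha : ∀ i, ∀ᶠ k in (U : Filter I), upr (a i) k ∈ OO R K)
    (hb : ∀ j, ∀ᶠ k in (U : Filter I), upr (b j) k ∈ mm R K) :
    ∀ᶠ k in (U : Filter I), Dom R (fun i => upr (a i) k) (fun j => upr (b j) k) := by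
  filter_upwards [Filter.eventually_all.2 ha, Filter.eventually_all.2 hb] with k h1 h2
  exact ⟨h1, h2⟩

private theorem up_zero_mem {U : Ultrafilter I} {p : K → Prop} (h : p 0) :
    ∀ᶠ k in (U : Filter I), p (upr (0 : UP U K) k) := by
  filter_upwards [upr_gm (U := U) (fun _ : I => (0 : K))] with k hk
  have : upr (0 : UP U K) k = 0 := hk
  rw [this]
  exact h

private theorem up_one_mem {U : Ultrafilter I} {p : K → Prop} (h : p 1) :
    ∀ᶠ k in (U : Filter I), p (upr (1 : UP U K) k) := by
  filter_upwards [upr_gm (U := U) (fun _ : I => (1 : K))] with k hk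
  have : upr (1 : UP U K) k = 1 := hk
  rw [this]
  exact h

private theorem up_add {U : Ultrafilter I} (x y : UP U K) :
    ∀ᶠ k in (U : Filter I), upr (x + y) k = upr x k + upr y k := by
  have h1 : gm U (upr x) + gm U (upr y) = gm U (fun k => upr x k + upr y k) := rfl
  rw [gm_upr, gm_upr] at h1
  rw [h1]
  exact upr_gm _

private theorem up_mul {U : Ultrafilter I} (x y : UP U K) :
    ∀ᶠ k in (U : Filter I), upr (x * y) k = upr x k * upr y k := by
  have h1 : gm U (upr x) * gm U (upr y) = gm U (fun k => upr x k * upr y k) := rfl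
  rw [gm_upr, gm_upr] at h1
  rw [h1]
  exact upr_gm _

private theorem up_neg {U : Ultrafilter I} (x : UP U K) :
    ∀ᶠ k in (U : Filter I), upr (-x) k = - upr x k := by
  have h1 : - gm U (upr x) = gm U (fun k => - upr x k) := rfl
  rw [gm_upr] at h1
  rw [h1]
  exact upr_gm _

private theorem up_inv {U : Ultrafilter I} (x : UP U K) :
    ∀ᶠ k in (U : Filter I), upr (x⁻¹) k = (upr x k)⁻¹ := by
  have h1 : (gm U (upr x))⁻¹ = gm U (fun k => (upr x k)⁻¹) := rfl
  rw [gm_upr] at h1
  rw [h1]
  exact upr_gm _

private theorem up_eq_zero {U : Ultrafilter I} (x : UP U K) :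
    x = 0 ↔ ∀ᶠ k in (U : Filter I), upr x k = 0 := by
  conv_lhs => rw [← gm_upr x]
  exact gm_eq (g := fun _ => 0)

end

noncomputable instance upTField : TField R (UP U K) where
  O :=
    { carrier := {x | ∀ᶠ k in (U : Filter I), upr x k ∈ OO R K}
      zero_mem' := up_zero_mem (p := fun y => y ∈ OO R K) (OO R K).zero_mem
      one_mem' := up_one_mem (p := fun y => y ∈ OO R K) (OO R K).one_mem
      add_mem' := by
        intro x y hx hy
        filter_upwards [hx, hy, up_add x y] with k h1 h2 h3
        rw [h3]
        exact (OO R K).add_mem h1 h2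
      mul_mem' := by
        intro x y hx hy
        filter_upwards [hx, hy, up_mul x y] with k h1 h2 h3
        rw [h3]
        exact (OO R K).mul_mem h1 h2
      neg_mem' := by
        intro x hx
        filter_upwards [hx, up_neg x] with k h1 h3
        rw [h3]
        exact (OO R K).neg_mem h1 }
  m := {x | ∀ᶠ k in (U : Filter I), upr x k ∈ mm R K}
  m_le := by
    intro x hx
    filter_upwards [hx] with k h1
    exact TRing.m_le _ h1
  m_zero := up_zero_mem (p := fun y => y ∈ mm R K) TRing.m_zero
  m_add := by
    intro x hx y hy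
    filter_upwards [hx, hy, up_add x y] with k h1 h2 h3
    rw [h3]
    exact TRing.m_add _ h1 _ h2
  m_mul := by
    intro x hx y hy
    filter_upwards [hx, hy, up_mul x y] with k h1 h2 h3
    rw [h3]
    exact TRing.m_mul _ h1 _ h2
  T := fun F a b => gm U (fun k => ev F (fun i => upr (a i) k) (fun j => upr (b j) k))
  T_mem := by
    intro s t _ _ F a b ha hb
    filter_upwards [up_dom ha hb, upr_gm (U := U)
      (fun k => ev F (fun i => upr (a i) k) (fun j => upr (b j) k))] with k h1 h2
    rw [h2]
    exact TRing.T_mem F _ _ h1.1 h1.2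
  T_one := by
    intro s t _ _ a b ha hb
    refine gm_eq (g := fun _ => 1).2 ?_
    filter_upwards [up_dom ha hb] with k h1
    exact TRing.T_one _ _ h1.1 h1.2
  T_add := by
    intro s t _ _ F G a b ha hb
    refine gm_eq (g := fun k => ev F (fun i => upr (a i) k) (fun j => upr (b j) k) +
      ev G (fun i => upr (a i) k) (fun j => upr (b j) k)).2 ?_
    filter_upwards [up_dom ha hb] with k h1
    exact TRing.T_add F G _ _ h1.1 h1.2
  T_mul := by
    intro s t _ _ F G a b ha hb
    refine gm_eq (g := fun k => ev F (fun i => upr (a i) k) (fun j => upr (b j) k) *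
      ev G (fun i => upr (a i) k) (fun j => upr (b j) k)).2 ?_
    filter_upwards [up_dom ha hb] with k h1
    exact TRing.T_mul F G _ _ h1.1 h1.2
  T_xi := by
    intro s t _ _ a b ha hb i
    refine Eq.trans (gm_eq (g := upr (a i)).2 ?_) (gm_upr _)
    filter_upwards [up_dom ha hb] with k h1
    exact TRing.T_xi _ _ h1.1 h1.2 i
  T_rho := by
    intro s t _ _ a b ha hb j
    refine Eq.trans (gm_eq (g := upr (b j)).2 ?_) (gm_upr _)
    filter_upwards [up_dom ha hb] with k h1
    exact TRing.T_rho _ _ h1.1 h1.2 j
  T_ren := by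
    intro s t s' t' _ _ _ _ f g F a b ha hb
    refine gm_eq.2 ?_
    filter_upwards [up_dom ha hb] with k h1
    exact TRing.T_ren f g F _ _ h1.1 h1.2
  total := by
    intro x
    have h1 : ∀ᶠ k in (U : Filter I), upr x k ∈ OO R K ∨ upr (x⁻¹) k ∈ OO R K := by
      filter_upwards [up_inv x] with k hk
      rw [hk]
      exact TField.total (R := R) (upr x k)
    exact Ultrafilter.eventually_or.1 h1
  m_iff := by
    intro x
    have h1 : ∀ᶠ k in (U : Filter I), (upr x k ∈ mm R K ↔ upr x k ∈ OO R K ∧
        (upr x k = 0 ∨ ¬ upr (x⁻¹) k ∈ OO R K)) := by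
      filter_upwards [up_inv x] with k hk
      rw [hk]
      exact TField.m_iff (R := R) (upr x k)
    have h2 := Filter.eventually_congr h1
    refine h2.trans ?_
    rw [Filter.eventually_and, Ultrafilter.eventually_or, Ultrafilter.eventually_not,
      up_eq_zero x]
    rfl

theorem up_O (f : I → K) : gm U f ∈ OO R (UP U K) ↔ ∀ᶠ i in (U : Filter I), f i ∈ OO R K := by
  change (∀ᶠ k in (U : Filter I), upr (gm U f) k ∈ OO R K) ↔ _
  refine Filter.eventually_congr ?_
  filter_upwards [upr_gm (U := U) f] with k hk
  rw [hk]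

theorem up_m (f : I → K) : gm U f ∈ mm R (UP U K) ↔ ∀ᶠ i in (U : Filter I), f i ∈ mm R K := by
  change (∀ᶠ k in (U : Filter I), upr (gm U f) k ∈ mm R K) ↔ _
  refine Filter.eventually_congr ?_
  filter_upwards [upr_gm (U := U) f] with k hk
  rw [hk]

theorem up_ev {s t : Type} [Finite s] [Finite t] (F : S R s t) (a : s → I → K) (b : t → I → K)
    (hd : ∀ᶠ k in (U : Filter I), Dom R (fun i => a i k) (fun j => b j k)) :
    ev F (fun i => gm U (a i)) (fun j => gm U (b j)) =
      gm U (fun k => ev F (fun i => a i k) (fun j => b j k)) := by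
  refine gm_eq.2 ?_
  filter_upwards [Filter.eventually_all.2 fun i => upr_gm (U := U) (a i),
    Filter.eventually_all.2 fun j => upr_gm (U := U) (b j)] with k h1 h2
  congr 1
  · funext i
    exact h1 i
  · funext j
    exact h2 j

variable (R K) in
/-- the diagonal embedding -/
noncomputable def diag : THom R K (UP U K) where
  toFun := fun x => gm U (fun _ => x)
  map_one' := rfl
  map_mul' := fun _ _ => rfl
  map_zero' := rfl
  map_add' := fun _ _ => rfl
  map_O := fun x => by
    refine Iff.trans ?_ (up_O U fun _ => x).symm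
    exact Filter.eventually_const.symm
  map_m := fun x => by
    refine Iff.trans ?_ (up_m U fun _ => x).symm
    exact Filter.eventually_const.symm
  map_T := by
    intro s t _ _ F a b h
    exact (up_ev U F (fun i _ => a i) (fun j _ => b j) (Filter.Eventually.of_forall fun _ => h)).symm

theorem diag_apply (x : K) : (diag R K U).toRingHom x = gm U (fun _ => x) := rfl

instance up_isAlgClosed [IsAlgClosed K] : IsAlgClosed (UP U K) := by
  classical
  refine IsAlgClosed.of_exists_root _ fun q hq hirr => ?_
  have hn : 1 ≤ q.natDegree := hirr.natDegree_pos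
  have hroot : ∀ k : I, ∃ r : K, r ^ q.natDegree +
      ∑ i ∈ Finset.range q.natDegree, upr (q.coeff i) k * r ^ i = 0 := by
    intro k
    let P : Polynomial K := Polynomial.X ^ q.natDegree +
      ∑ i ∈ Finset.range q.natDegree, Polynomial.C (upr (q.coeff i) k) * Polynomial.X ^ i
    have hP : P.degree = (q.natDegree : WithBot ℕ) := by
      refine (Polynomial.degree_add_eq_left_of_degree_lt ?_).trans (Polynomial.degree_X_pow _)
      rw [Polynomial.degree_X_pow]
      refine (Polynomial.degree_sum_le _ _).trans_lt ?_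
      rw [Finset.sup_lt_iff (WithBot.bot_lt_coe _)]
      intro i hi
      refine (Polynomial.degree_C_mul_X_pow_le i _).trans_lt ?_
      exact_mod_cast Finset.mem_range.1 hi
    obtain ⟨r, hr⟩ := IsAlgClosed.exists_root P (by
      rw [hP]
      exact_mod_cast (Nat.one_le_iff_ne_zero.1 hn))
    refine ⟨r, ?_⟩
    have h1 : P.eval r = 0 := hr
    simpa [P, Polynomial.eval_finsetSum] using h1
  choose r hr using hroot
  refine ⟨gm U r, ?_⟩
  rw [Polynomial.eval_eq_sum_range, Finset.sum_range_succ]
  have e1 : q.coeff q.natDegree = 1 := hq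
  rw [e1, one_mul]
  have e2 : ∀ n : ℕ, ∑ i ∈ Finset.range n, q.coeff i * gm U r ^ i =
      gm U (fun k => ∑ i ∈ Finset.range n, upr (q.coeff i) k * r k ^ i) := by
    intro n
    induction n with
    | zero => simp only [Finset.range_zero, Finset.sum_empty]; rfl
    | succ n ih =>
      rw [Finset.sum_range_succ, ih]
      conv_lhs => rw [← gm_upr (q.coeff n)]
      simp only [Finset.sum_range_succ]
      rfl
  rw [e2]
  have e3 : gm U (fun k => ∑ i ∈ Finset.range q.natDegree, upr (q.coeff i) k * r k ^ i) +
      gm U r ^ q.natDegree = gm U (fun k => (∑ i ∈ Finset.range q.natDegree,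
        upr (q.coeff i) k * r k ^ i) + r k ^ q.natDegree) := rfl
  rw [e3]
  refine gm_eq (g := fun _ => 0).2 (Filter.Eventually.of_forall fun k => ?_)
  rw [add_comm]
  exact hr k

section

variable {p : ℕ} [Fact p.Prime] {K : Type} [Field K] [TField ℤ_[p] K] [KK p K]

instance up_KK : KK p (UP U K) where
  alg := by
    have := KK.alg p (K := K)
    infer_instance
  zero := by
    have := KK.zero p (K := K)
    exact charZero_of_injective_ringHom (diag ℤ_[p] K U).toRingHom.injective
  pm := by
    have h1 : ((p : ℕ) : UP U K) = gm U (fun _ => (p : K)) := by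
      rw [← diag_apply (R := ℤ_[p]) U (p : K), map_natCast]
    rw [h1, up_m]
    exact Filter.Eventually.of_forall fun _ => KK.pm

end

end Cm
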